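import Pool.Agent.P.MP_de899d_pr.Base2

/-! Few short orbits after a random relabelling; anchors and rounds. -/

set_option linter.unusedSectionVars false

namespace Pool.Agent.P.MP_de899d_pr
open Finset Equiv

namespace Anch

/-- Greedy selection of sets that are not covered by the earlier selected ones. -/
theorem greedy {ι V : Type} [LinearOrder ι] [DecidableEq V] (O : ι → Finset V) (s : Finset ι) :
    ∃ J ⊆ s, (∀ j ∈ J, ∃ y ∈ O j, ∀ j' ∈ J, j' < j → y ∉ O j') ∧ ∀ j ∈ s, O j ⊆ J.biUnion O := by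
  induction s using Finset.induction_on_max with
  | empty => exact ⟨∅, Subset.refl _, by simp, by simp⟩
  | insert a s ha ih =>
    obtain ⟨J, h1, h2, h3⟩ := ih
    by_cases hc : O a ⊆ J.biUnion O
    · refine ⟨J, h1.trans (subset_insert _ _), h2, fun j hj => ?_⟩
      rcases mem_insert.1 hj with rfl | hj
      · exact hc
      · exact h3 j hj
    · obtain ⟨y, hy, hy'⟩ := not_subset.1 hc
      refine ⟨insert a J, insert_subset_insert _ h1, fun j hj => ?_, fun j hj => ?_⟩
      · rcases mem_insert.1 hj with rfl | hj2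
        · refine ⟨y, hy, fun j' hj' hlt hm => ?_⟩
          rcases mem_insert.1 hj' with rfl | hj3
          · exact lt_irrefl _ hlt
          · exact hy' (mem_biUnion.2 ⟨j', hj3, hm⟩)
        · obtain ⟨z, hz, hz'⟩ := h2 j hj2
          refine ⟨z, hz, fun j' hj' hlt => ?_⟩
          rcases mem_insert.1 hj' with rfl | hj3
          · exact absurd hlt (not_lt.2 (ha j (h1 hj2)).le)
          · exact hz' j' hj3 hlt
      · rw [biUnion_insert]
        rcases mem_insert.1 hj with rfl | hj
        · exact subset_union_left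
        · exact (h3 j hj).trans subset_union_right

theorem num (k h n L : ℕ) (h1 : 2 * (h * L) ≤ n) (h2 : 60 * k * L ≤ n * h) (hL : 0 < L) :
    (k.choose h : ℝ) * (8 * L / (n : ℝ)) ^ h ≤ Real.exp (-h) := by
  rcases Nat.eq_zero_or_pos h with rfl | hh
  · simp
  have hn : 0 < n := lt_of_lt_of_le (by positivity) h1
  have hn' : (0 : ℝ) < n := by exact_mod_cast hn
  have hh' : (0 : ℝ) < h := by exact_mod_cast hh
  have e1 : (k.choose h : ℝ) ≤ (k : ℝ) ^ h / h.factorial := Nat.choose_le_pow_div h k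
  have e2 : (h : ℝ) ^ h / h.factorial ≤ Real.exp h := Real.pow_div_factorial_le_exp _ hh'.le h
  have e3 : (k : ℝ) * (8 * L / n) ≤ 8 / 60 * h := by
    have : (60 : ℝ) * k * L ≤ n * h := by exact_mod_cast h2
    rw [← mul_div_assoc, div_le_iff₀ hn']
    nlinarith
  have e4 : (8 : ℝ) / 60 ≤ Real.exp (-2) := by
    have h3 := Real.exp_one_lt_d9
    have h4 : Real.exp 2 = Real.exp 1 * Real.exp 1 := by rw [← Real.exp_add]; norm_num
    have h5 := Real.exp_pos 1
    rw [Real.exp_neg, le_inv_comm₀ (by norm_num) (Real.exp_pos _), h4]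
    nlinarith
  calc (k.choose h : ℝ) * (8 * L / (n : ℝ)) ^ h
      ≤ (k : ℝ) ^ h / h.factorial * (8 * L / (n : ℝ)) ^ h := by gcongr
    _ = ((k : ℝ) * (8 * L / n)) ^ h / h.factorial := by rw [mul_pow]; ring
    _ ≤ (Real.exp (-2) * h) ^ h / h.factorial := by
        have e5 : (k : ℝ) * (8 * L / n) ≤ Real.exp (-2) * h := e3.trans (by gcongr)
        gcongr
    _ = Real.exp (-2) ^ h * ((h : ℝ) ^ h / h.factorial) := by rw [mul_pow]; ring
    _ ≤ Real.exp (-2) ^ h * Real.exp h := by gcongr
    _ = Real.exp (-h) := by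
        rw [← Real.exp_nat_mul, ← Real.exp_add]
        congr 1
        ring

theorem inv_le (I l : ℕ) (hl : 0 < l) : (1 : ℝ) / l ≤
    ∑ i ∈ range (I + 1), (if l ≤ 2 ^ (i + 1) then (1 : ℝ) / 2 ^ i else 0) + 1 / 2 ^ I := by
  have h0 : ∀ i ∈ range (I + 1), (0 : ℝ) ≤ if l ≤ 2 ^ (i + 1) then (1 : ℝ) / 2 ^ i else 0 :=
    fun i _ => by split_ifs <;> positivity
  have key : ∀ i, 2 ^ i ≤ l → (1 : ℝ) / l ≤ 1 / 2 ^ i := fun i hi =>
    one_div_le_one_div_of_le (by positivity) (by exact_mod_cast hi)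
  by_cases hc : 2 ^ I ≤ l
  · linarith [key I hc, sum_nonneg h0]
  · have h1 : Nat.log 2 l < I := (Nat.log_lt_iff_lt_pow (by norm_num) hl.ne').2 (not_le.1 hc)
    have h2 := single_le_sum h0 (mem_range.2 (by omega : Nat.log 2 l < I + 1))
    rw [if_pos (Nat.lt_pow_succ_log_self (by norm_num) l).le] at h2
    have h3 := key _ (Nat.pow_log_le_self 2 hl.ne')
    have h4 : (0 : ℝ) ≤ 1 / 2 ^ I := by positivity
    linarith

variable {V : Type} [Fintype V] [DecidableEq V]

theorem many_short (hnc : S_NC) {k : ℕ} (M : Fin k → Perm V) (hM : Disj M) (h L : ℕ) (v : V)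
    (h1 : 2 * (h * L) ≤ Fintype.card V) (h2 : 60 * k * L ≤ Fintype.card V * h) (hL : 0 < L) :
    Pr (fun σ : Perm V => h * L < #(univ.filter fun j => #(iorb (σ * M j) v) ≤ L)) ≤
      Real.exp (-h) := by
  refine le_trans (Pr_mono (E' := fun σ : Perm V => ∃ J ∈ powersetCard h (univ : Finset (Fin k)),
    ∀ j ∈ J, #(iorb (σ * M j) v) ≤ L ∧ ∃ y ∈ iorb (σ * M j) v, ∀ j' ∈ J, j' < j →
      y ∉ iorb (σ * M j') v) fun σ hσ => ?_) ?_
  · obtain ⟨J, g1, g2, g3⟩ := greedy (fun j => iorb (σ * M j) v)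
      (univ.filter fun j => #(iorb (σ * M j) v) ≤ L)
    have g4 : #(univ.filter fun j => #(iorb (σ * M j) v) ≤ L) ≤
        #(J.biUnion fun j => iorb (σ * M j) v) := by
      refine card_le_card_of_injOn (fun j => (σ * M j) v) (fun j hj => ?_) fun j _ j' _ e => ?_
      · exact g3 j hj (iorb_cl _ v v (self_mem_iorb _ v))
      · by_contra hne
        exact hM j j' hne v (σ.injective e)
    have g5 : #(J.biUnion fun j => iorb (σ * M j) v) ≤ #J * L :=
      card_biUnion_le_card_mul _ _ _ fun j hj => (mem_filter.1 (g1 hj)).2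
    have g6 : h ≤ #J := (Nat.lt_of_mul_lt_mul_right (hσ.trans_le (g4.trans g5))).le
    obtain ⟨J', g7, g8⟩ := exists_subset_card_eq g6
    refine ⟨J', mem_powersetCard.2 ⟨subset_univ _, g8⟩, fun j hj =>
      ⟨(mem_filter.1 (g1 (g7 hj))).2, ?_⟩⟩
    obtain ⟨y, hy, hy'⟩ := g2 j (g7 hj)
    exact ⟨y, hy, fun j' hj' => hy' j' (g7 hj')⟩
  · refine (Pr_exists_le' (δ := (8 * L / (Fintype.card V : ℝ)) ^ h) _ _ fun J hJ => ?_).trans ?_
    · have hc := (mem_powersetCard.1 hJ).2
      refine le_trans (Pr_mono fun σ hσ i => ?_) (hnc V h L (fun i => M (J.orderEmbOfFin hc i)) v h1)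
      obtain ⟨g1, y, hy, hy'⟩ := hσ _ (J.orderEmbOfFin_mem hc i)
      exact ⟨g1, y, hy, fun i' hi' =>
        hy' _ (J.orderEmbOfFin_mem hc i') ((J.orderEmbOfFin hc).strictMono hi')⟩
    · rw [card_powersetCard, card_univ, Fintype.card_fin]
      exact num k h _ L h1 h2 hL

/-- A choice with small loads, by averaging. -/
theorem loads {ι W : Type} [Fintype ι] [DecidableEq ι] [Fintype W] (t : ι → Finset V)
    (ht : ∀ i, (t i).Nonempty) (E : W → ι → V → Prop) [∀ w i, DecidablePred (E w i)]
    (ω : W → ι → ℝ) (M : ℝ) (c : ℕ) (h1 : ∀ w i, (#((t i).filter (E w i)) : ℝ) ≤ ω w i * #(t i))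
    (h2 : ∀ w, ∑ i, ω w i ≤ M) (h3 : Fintype.card W * Real.exp M < 2 ^ (c + 1)) :
    ∃ x : ι → V, (∀ i, x i ∈ t i) ∧ ∀ w, #(univ.filter fun i => E w i (x i)) ≤ c := by
  have hN : (0 : ℝ) < ∏ i, (#(t i) : ℝ) := prod_pos fun i _ => by exact_mod_cast (ht i).card_pos
  have e1 : ∀ w, ∑ x ∈ Fintype.piFinset t, (2 : ℝ) ^ #(univ.filter fun i => E w i (x i)) ≤
      (∏ i, (#(t i) : ℝ)) * Real.exp M := by
    intro w
    have e2 : ∀ x : ι → V, (2 : ℝ) ^ #(univ.filter fun i => E w i (x i)) =
        ∏ i, if E w i (x i) then (2 : ℝ) else 1 := by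
      intro x
      rw [prod_ite, prod_const, prod_const_one, mul_one]
    simp only [e2]
    rw [← prod_univ_sum t fun i a => if E w i a then (2 : ℝ) else 1]
    have e3 : ∀ i, ∑ a ∈ t i, (if E w i a then (2 : ℝ) else 1) ≤ #(t i) * Real.exp (ω w i) := by
      intro i
      have e4 : ∑ a ∈ t i, (if E w i a then (2 : ℝ) else 1) =
          #(t i) + #((t i).filter (E w i)) := by
        rw [card_filter, card_eq_sum_ones]
        push_cast
        rw [← sum_add_distrib]
        exact sum_congr rfl fun a _ => by split_ifs <;> norm_num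
      have e5 := Real.add_one_le_exp (ω w i)
      have e6 : (0 : ℝ) ≤ #(t i) := Nat.cast_nonneg _
      rw [e4]
      nlinarith [h1 w i]
    refine (prod_le_prod (fun i _ => sum_nonneg fun a _ => by split_ifs <;> norm_num)
      fun i _ => e3 i).trans ?_
    rw [prod_mul_distrib, ← Real.exp_sum]
    gcongr
    exact h2 w
  have e7 : ∑ x ∈ Fintype.piFinset t, ∑ w, (2 : ℝ) ^ #(univ.filter fun i => E w i (x i)) <
      ∑ x ∈ Fintype.piFinset t, (2 : ℝ) ^ (c + 1) := by
    rw [sum_comm, sum_const, Fintype.card_piFinset, nsmul_eq_mul]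
    refine (sum_le_card_nsmul _ _ _ fun w _ => e1 w).trans_lt ?_
    rw [card_univ, nsmul_eq_mul]
    push_cast
    nlinarith
  obtain ⟨x, hx, hx'⟩ := exists_lt_of_sum_lt e7
  refine ⟨x, Fintype.mem_piFinset.1 hx, fun w => ?_⟩
  have e8 := (single_le_sum (f := fun w => (2 : ℝ) ^ #(univ.filter fun i => E w i (x i)))
    (fun w _ => by positivity) (mem_univ w)).trans_lt hx'
  exact Nat.lt_succ_iff.1 ((pow_lt_pow_iff_right₀ (by norm_num)).1 e8)

/-- Colouring with small colour classes that are injective for two maps. -/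
theorem rounds {P : Type} [DecidableEq P] (f g : P → V) (c b T N : ℕ)
    (hb : 2 * c * T + N < b * T) (A : Finset P) (hN : #A ≤ N)
    (hf : ∀ v, #(A.filter fun p => f p = v) ≤ c) (hg : ∀ v, #(A.filter fun p => g p = v) ≤ c) :
    ∃ ρ : P → Fin b, (∀ p ∈ A, ∀ q ∈ A, ρ p = ρ q → f p = f q ∨ g p = g q → p = q) ∧
      ∀ i, #(A.filter fun p => ρ p = i) ≤ T := by
  induction A using Finset.induction_on with
  | empty =>
    have : 0 < b := Nat.pos_of_mul_pos_right (lt_of_le_of_lt (Nat.zero_le _) hb)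
    exact ⟨fun _ => ⟨0, this⟩, by simp, by simp⟩
  | insert a A ha ih =>
    have hs : A ⊆ insert a A := subset_insert _ _
    have hf' : ∀ v, #(A.filter fun p => f p = v) ≤ c := fun v =>
      (card_le_card (filter_subset_filter _ hs)).trans (hf v)
    have hg' : ∀ v, #(A.filter fun p => g p = v) ≤ c := fun v =>
      (card_le_card (filter_subset_filter _ hs)).trans (hg v)
    have hN' : #A ≤ N := (card_le_card hs).trans hN
    obtain ⟨ρ, h1, h2⟩ := ih hN' hf' hg'
    set F := univ.filter fun i => T ≤ #(A.filter fun p => ρ p = i) with hF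
    have e1 : #F * T ≤ N := by
      have e2 := card_eq_sum_card_fiberwise (f := ρ) (s := A) (t := univ) fun p _ => mem_univ _
      have e3 := card_nsmul_le_sum F (fun i => #(A.filter fun p => ρ p = i)) T
        fun i hi => (mem_filter.1 hi).2
      have e4 := sum_le_sum_of_subset (f := fun i => #(A.filter fun p => ρ p = i)) (subset_univ F)
      rw [smul_eq_mul] at e3
      omega
    have e5 : #((A.filter fun p => f p = f a).image ρ ∪ (A.filter fun p => g p = g a).image ρ ∪ F)
        < #(univ : Finset (Fin b)) := by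
      rw [card_univ, Fintype.card_fin]
      have u1 := card_union_le ((A.filter fun p => f p = f a).image ρ ∪
        (A.filter fun p => g p = g a).image ρ) F
      have u2 := card_union_le ((A.filter fun p => f p = f a).image ρ)
        ((A.filter fun p => g p = g a).image ρ)
      have u3 := (card_image_le (f := ρ)).trans (hf' (f a))
      have u4 := (card_image_le (f := ρ)).trans (hg' (g a))
      have u5 : (2 * c + #F) * T < b * T := by rw [add_mul]; omega
      have u6 := Nat.lt_of_mul_lt_mul_right u5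
      omega
    obtain ⟨i0, -, hi0⟩ := exists_mem_notMem_of_card_lt_card e5
    simp only [hF, mem_union, mem_image, mem_filter, mem_univ, true_and, not_or, not_exists,
      not_and, not_le, and_imp] at hi0
    obtain ⟨⟨n1, n2⟩, n3⟩ := hi0
    have up : ∀ p ∈ A, Function.update ρ a i0 p = ρ p := fun p hp =>
      Function.update_of_ne (fun e : p = a => ha (e ▸ hp)) _ _
    refine ⟨Function.update ρ a i0, fun p hp q hq e e' => ?_, fun i => ?_⟩
    · rcases mem_insert.1 hp with rfl | hp' <;> rcases mem_insert.1 hq with rfl | hq'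
      · rfl
      · rw [up q hq', Function.update_self] at e
        rcases e' with e' | e'
        · exact absurd e.symm (n1 q hq' e'.symm)
        · exact absurd e.symm (n2 q hq' e'.symm)
      · rw [up p hp', Function.update_self] at e
        rcases e' with e' | e'
        · exact absurd e (n1 p hp' e')
        · exact absurd e (n2 p hp' e')
      · rw [up p hp', up q hq'] at e
        exact h1 p hp' q hq' e e'
    · rw [filter_insert, Function.update_self,
        filter_congr fun p hp => by rw [up p hp]]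
      split_ifs with e
      · subst e
        exact (card_insert_le _ _).trans n3
      · exact h2 i

theorem big (π : Perm V) [Nonempty V] (κ : ℕ) (h : #(iorbs π) ≤ κ) :
    ∃ r, Fintype.card V / κ ≤ #(iorb π r) := by
  obtain ⟨r, -, hr⟩ := exists_max_image univ (fun z => #(iorb π z)) univ_nonempty
  refine ⟨r, Nat.div_le_of_le_mul ?_⟩
  have e1 : (univ : Finset V) ⊆ (iorbs π).biUnion id := fun z _ =>
    mem_biUnion.2 ⟨_, mem_image_of_mem _ (mem_univ z), self_mem_iorb π z⟩
  have e2 : #((iorbs π).biUnion id) ≤ #(iorbs π) * #(iorb π r) :=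
    card_biUnion_le_card_mul _ _ _ fun O hO => by
      obtain ⟨z, -, rfl⟩ := mem_image.1 hO
      exact hr z (mem_univ _)
  exact (card_le_card e1).trans (e2.trans (Nat.mul_le_mul_right _ h))

end Anch

theorem init2 (hnc : S_NC) : S_INIT2 := by
  intro V _ _ k κ h I M hM h1 h2
  have p1 : Pr (fun σ : Perm V => ∃ j, κ < #(iorbs (σ * M j))) ≤
      k * ((Fintype.card V + 1 : ℝ) / 2 ^ κ) := by
    refine (Pr_exists_univ _ fun j => ?_).trans (by rw [Fintype.card_fin])
    exact (Pr_equiv (Equiv.mulRight (M j)) fun π => κ < #(iorbs π)).le.trans (Pr_orbs κ)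
  have p2 : Pr (fun σ : Perm V => ∃ v, ∃ i ∈ range (I + 1), h * 2 ^ (i + 1) <
      #(univ.filter fun j => #(iorb (σ * M j) v) ≤ 2 ^ (i + 1))) ≤
      Fintype.card V * (I + 1) * Real.exp (-h) := by
    refine (Pr_exists_univ (δ := (I + 1) * Real.exp (-h)) _ fun v => ?_).trans (le_of_eq (by ring))
    refine (Pr_exists_le' _ _ fun i hi => ?_).trans (by rw [card_range]; push_cast; rfl)
    have e : 2 ^ (i + 1) ≤ 2 ^ (I + 1) :=
      Nat.pow_le_pow_right (by norm_num) (by have := mem_range.1 hi; omega)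
    exact Anch.many_short hnc M hM h _ v (le_trans (by gcongr) h1) (le_trans (by gcongr) h2)
      (by positivity)
  refine (Pr_le_add fun σ hσ => ?_).trans (add_le_add p1 p2)
  by_contra hc
  simp only [not_or, not_exists, not_and, not_lt] at hc
  refine hσ ⟨hc.1, fun v => ?_⟩
  refine (sum_le_sum fun j _ => Anch.inv_le I _ (card_pos.2 ⟨v, self_mem_iorb _ v⟩)).trans ?_
  rw [sum_add_distrib, sum_comm, sum_const, card_univ, Fintype.card_fin, nsmul_eq_mul, mul_one_div]
  refine add_le_add ?_ le_rfl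
  refine (sum_le_card_nsmul _ _ (2 * h : ℝ) fun i hi => ?_).trans
    (by rw [card_range, nsmul_eq_mul]; push_cast; exact le_of_eq (by ring))
  rw [← sum_filter, sum_const, nsmul_eq_mul, mul_one_div, div_le_iff₀ (by positivity)]
  have e : (#(univ.filter fun j => #(iorb (σ * M j) v) ≤ 2 ^ (i + 1)) : ℝ) ≤ h * 2 ^ (i + 1) := by
    exact_mod_cast hc.2 v i hi
  refine e.trans (le_of_eq (by ring))

theorem anch : S_ANCH := by
  intro V _ _ _ k κ s c b T μ π Lr Lc hF hr hc hA hn _ hb
  choose r hbig using fun j => Anch.big (π j) κ (hF.1 j)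
  set t : (Σ j : Fin k, iorbs (π j)) → Finset V :=
    fun p => p.2.1.filter fun a => a ∉ Lr ∧ π p.1 a ∉ Lc with ht
  have ho : ∀ p : (Σ j : Fin k, iorbs (π j)), p.2.1.Nonempty ∧ Cl (π p.1) p.2.1 := by
    rintro ⟨j, O, hO⟩
    obtain ⟨z, -, rfl⟩ := mem_image.1 hO
    exact ⟨⟨z, self_mem_iorb _ z⟩, iorb_cl _ z⟩
  have hne : ∀ p, (t p).Nonempty := fun p => by
    obtain ⟨a, ha, ha'⟩ := hA p.1 _ (ho p).1 (ho p).2
    exact ⟨a, mem_filter.2 ⟨ha, ha'⟩⟩
  have hsz : ∀ p, (#p.2.1 : ℝ) ≤ (2 * s + 1) * #(t p) := fun p => by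
    have e1 : p.2.1 ⊆ t p ∪ Lr ∪ Lc.image ((π p.1)⁻¹ : Perm V) := fun a ha => by
      by_cases c1 : a ∈ Lr
      · exact mem_union_left _ (mem_union_right _ c1)
      by_cases c2 : π p.1 a ∈ Lc
      · exact mem_union_right _ (mem_image.2 ⟨_, c2, by simp⟩)
      exact mem_union_left _ (mem_union_left _ (mem_filter.2 ⟨ha, c1, c2⟩))
    have e2 := card_le_card e1
    have e3 := card_union_le (t p ∪ Lr) (Lc.image ((π p.1)⁻¹ : Perm V))
    have e4 := card_union_le (t p) Lr
    have e5 := card_image_le (s := Lc) (f := ((π p.1)⁻¹ : Perm V))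
    have e6 := (hne p).card_pos
    have e7 : #p.2.1 ≤ (2 * s + 1) * #(t p) := by nlinarith
    exact_mod_cast e7
  obtain ⟨x, hx, hl⟩ := Anch.loads (W := Bool × V) t hne
    (fun w p a => (if w.1 then a else π p.1 a) = w.2)
    (fun w p => if w.2 ∈ p.2.1 then (2 * s + 1 : ℝ) * (1 / #p.2.1) else 0) ((2 * s + 1) * μ) c
    (fun w p => by
      by_cases h1 : w.2 ∈ p.2.1
      · have e1 : #((t p).filter fun a => (if w.1 then a else π p.1 a) = w.2) ≤ 1 := by
          refine card_le_one.2 fun a ha a' ha' => ?_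
          have e2 := (mem_filter.1 ha).2.trans (mem_filter.1 ha').2.symm
          split_ifs at e2
          · exact e2
          · exact (π p.1).injective e2
        have e3 : (0 : ℝ) < #p.2.1 := by exact_mod_cast (ho p).1.card_pos
        rw [if_pos h1, mul_one_div, div_mul_eq_mul_div, le_div_iff₀ e3]
        have e4 : (#((t p).filter fun a => (if w.1 then a else π p.1 a) = w.2) : ℝ) ≤ 1 := by
          exact_mod_cast e1
        nlinarith [hsz p]
      · rw [if_neg h1, zero_mul, filter_eq_empty_iff.2, card_empty, Nat.cast_zero]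
        intro a ha e
        have ha' := (mem_filter.1 ha).1
        split_ifs at e
        · exact h1 (e ▸ ha')
        · exact h1 (e ▸ (ho p).2 a ha'))
    (fun w => by
      rw [Fintype.sum_sigma]
      refine le_trans (le_of_eq ?_) (mul_le_mul_of_nonneg_left (hF.2 w.2) (by positivity))
      rw [mul_sum]
      refine sum_congr rfl fun j _ => ?_
      rw [sum_eq_single (⟨iorb (π j) w.2, mem_image_of_mem _ (mem_univ _)⟩ : iorbs (π j))]
      · exact if_pos (self_mem_iorb _ _)
      · rintro ⟨O, hO⟩ - hne'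
        obtain ⟨z, -, rfl⟩ := mem_image.1 hO
        exact if_neg fun hm => hne' (Subtype.ext (iorb_eq hm).symm)
      · simp)
    (by
      rw [Fintype.card_prod, Fintype.card_bool, pow_succ]
      push_cast
      linarith)
  set An : Finset (Fin k × V) := univ.image fun p : (Σ j : Fin k, iorbs (π j)) => (p.1, x p)
    with hAn
  have hcard : #An ≤ k * κ := by
    refine card_image_le.trans ?_
    rw [card_univ, Fintype.card_sigma]
    refine (sum_le_card_nsmul _ _ κ fun j _ => ?_).trans (by simp)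
    rw [Fintype.card_coe]
    exact hF.1 j
  obtain ⟨ρ, g1, g2⟩ := Anch.rounds (fun p : Fin k × V => p.2) (fun p => π p.1 p.2) c b T (k * κ)
    hb An hcard
    (fun v => by
      rw [hAn, filter_image]
      exact card_image_le.trans (hl (true, v)))
    (fun v => by
      rw [hAn, filter_image]
      exact card_image_le.trans (hl (false, v)))
  refine ⟨r, An, ρ, ⟨fun j S hS hj => (hbig j).trans (card_le_card (iorb_subset hS hj)),
    fun j S ⟨z, hz⟩ hS => Or.inr ?_, fun p hp => ?_, fun p hp => ?_,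
    fun p hp q hq e e' => g1 p hp q hq e (Or.inl e'),
    fun p hp q hq e e' => g1 p hp q hq e (Or.inr e')⟩, hcard, g2⟩
  · set p : (Σ j : Fin k, iorbs (π j)) := ⟨j, iorb (π j) z, mem_image_of_mem _ (mem_univ _)⟩
    exact ⟨x p, iorb_subset hS hz (mem_filter.1 (hx p)).1, mem_image.2 ⟨p, mem_univ _, rfl⟩⟩
  · obtain ⟨q, -, rfl⟩ := mem_image.1 hp
    exact (mem_filter.1 (hx q)).2.1
  · obtain ⟨q, -, rfl⟩ := mem_image.1 hp
    exact (mem_filter.1 (hx q)).2.2

end Pool.Agent.P.MP_de899d_pr
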