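import Pool.Agent.P.MP_de899d_pr.ApxA

/-! Approximate Hamilton decomposition. -/

set_option linter.unusedSectionVars false
set_option linter.unusedVariables false

namespace Pool.Agent.P.MP_de899d_pr
open Finset Equiv

namespace Apx

variable {V E : Type} [Fintype V] [DecidableEq V] [Fintype E] [DecidableEq E]

theorem exists_restrict (π : Perm (V ⊕ E)) :
    ∃ p : Perm V, ∀ x y, π (.inl x) = .inl y → p x = y := by
  obtain ⟨p, hp⟩ := Perm.exists_extending_pair (α := {z : V × V // π (.inl z.1) = .inl z.2})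
    (fun z => z.1.1) (fun z => z.1.2)
    (fun z z' h => Subtype.ext (Prod.ext h (Sum.inl_injective (by
      rw [← z.2, ← z'.2]
      exact congrArg (fun x => π (.inl x)) h))))
    (fun z z' h => Subtype.ext (Prod.ext (Sum.inl_injective (π.injective (by
      rw [z.2, z'.2]
      exact congrArg Sum.inl h))) h))
  exact ⟨p, fun x y h => hp ⟨(x, y), h⟩⟩

theorem card_le_left (X : Finset (V ⊕ E)) : #X.toLeft ≤ #X ∧ #X ≤ #X.toLeft + Fintype.card E := by
  have h1 := card_toLeft_add_card_toRight (u := X)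
  have h2 := card_le_univ X.toRight
  omega

theorem card_virtual {J : Type} (s : Finset J) (f : J → V ⊕ E) (h : Set.InjOn f s)
    (h' : ∀ j ∈ s, ∃ z, f j = .inr z) : #s ≤ Fintype.card E :=
  (card_le_card_of_injOn (t := univ.image Sum.inr) f (fun j hj => by
    obtain ⟨z, hz⟩ := h' j hj
    simp [hz]) h).trans card_image_le

theorem eN_left {G : V × V → Prop} {G' : (V ⊕ E) × (V ⊕ E) → Prop} {X Y : Finset (V ⊕ E)}
    (h : ∀ x y, .inl x ∈ X → .inl y ∈ Y → G (x, y) → G' (.inl x, .inl y)) :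
    eN G X.toLeft Y.toLeft ≤ eN G' X Y := by
  classical
  refine card_le_card_of_injOn (Prod.map Sum.inl Sum.inl) (fun z hz => ?_)
    (Sum.inl_injective.prodMap Sum.inl_injective).injOn
  simp only [coe_filter, mem_product, mem_toLeft, Set.mem_ofPred_eq] at hz ⊢
  exact ⟨hz.1, h _ _ hz.1.1 hz.1.2 hz.2⟩

open Classical in
/-- Neighbourhood in the blown-up graph. -/
noncomputable def nb (ψ : V ⊕ E → V) (G : V × V → Prop) (u : V ⊕ E) : Finset (V ⊕ E) :=
  univ.filter fun v => G (ψ u, ψ v)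

open Classical in
/-- Real neighbourhood. -/
noncomputable def nbR (ψ : V ⊕ E → V) (G : V × V → Prop) (u : V ⊕ E) : Finset (V ⊕ E) :=
  univ.filter fun v => ∃ y, v = .inl y ∧ G (ψ u, y)

theorem card_nb {ψ : V ⊕ E → V} (hψ : ∀ x, ψ (.inl x) = x) (G : V × V → Prop) (u : V ⊕ E) :
    rdeg G (ψ u) ≤ #(nb ψ G u) ∧ #(nb ψ G u) ≤ rdeg G (ψ u) + Fintype.card E := by
  have h : #(nb ψ G u).toLeft = rdeg G (ψ u) := by
    unfold rdeg
    congr 1
    ext y
    simp [nb, hψ]
  rw [← h]
  exact card_le_left _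

theorem card_nbR (ψ : V ⊕ E → V) (G : V × V → Prop) (u : V ⊕ E) :
    rdeg G (ψ u) ≤ #(nbR ψ G u) := by
  have h : #(nbR ψ G u).toLeft = rdeg G (ψ u) := by
    unfold rdeg
    congr 1
    ext y
    simp [nbR]
  rw [← h]
  exact (card_le_left _).1

theorem card_nbR_fib {κ : Type} [DecidableEq κ] (ψ : V ⊕ E → V) (G : V × V → Prop) (u : V ⊕ E)
    (cl : V ⊕ E → κ) (b : κ) :
    #(nbR ψ G u ∩ fib cl b) ≤ eN G {ψ u} (fib (fun x => cl (.inl x)) b) := by
  classical
  rw [eN_row, sum_singleton]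
  refine le_trans (card_le_card fun v hv => ?_) (card_image_le (f := Sum.inl (β := E)))
  simp only [nbR, mem_inter, mem_filter, mem_univ, true_and, mem_fib, mem_image] at hv ⊢
  obtain ⟨⟨y, rfl, hy⟩, hb⟩ := hv
  exact ⟨y, ⟨hb, hy⟩, rfl⟩

end Apx

open Apx in
theorem apx (hext : S_EXT) (hreg : S_REG) (hhyp : S_HYP) : S_APX := by
  intro V _ _ F R1 R2 R3 K m k w q β q1 β1 dR D γ B bR hK hn hn' hF h1 h2 hrow hcol hDF hD1 hdR
    hexp hγ hβ hKB hqγ hk hKb hβ1 hq1u hq1 hm hdR'
  classical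
  have : Fact K.Prime := ⟨hK⟩
  have hK2 := hK.two_le
  obtain ⟨L, hL⟩ : ∃ L, K = L + 1 := ⟨K - 1, by omega⟩
  have hL' : K - 1 = L := by omega
  have hL0 : 0 < L := by omega
  obtain ⟨e, he⟩ : ∃ e, K * m = Fintype.card V + e := Nat.exists_eq_add_of_le hn
  have heK : e < K := by omega
  have hV : Nonempty V := Fintype.card_pos_iff.1 (by nlinarith)
  obtain ⟨x0⟩ := hV
  let ψ : V ⊕ Fin e → V := Sum.elim id fun _ => x0
  have hψ : ∀ x, ψ (.inl x) = x := fun _ => rfl
  have hcard : Fintype.card (V ⊕ Fin e) = K * m := by simp [he]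
  let f : Fin 6 → V ⊕ Fin e → Finset (V ⊕ Fin e) :=
    ![nb ψ F, nb ψ (tr F), nbR ψ R1, nbR ψ (tr R1), nbR ψ R2, nbR ψ (tr R3)]
  obtain ⟨cl, hcl, hN⟩ := hhyp (V ⊕ Fin e) K m D
    (univ.image fun z : Fin 6 × (V ⊕ Fin e) => f z.1 z.2) hK2 (by omega) hcard (by
      refine lt_of_le_of_lt (mul_le_mul_of_nonneg_right ?_ (Real.exp_pos _).le) hexp
      have h3 : #(univ.image fun z : Fin 6 × (V ⊕ Fin e) => f z.1 z.2) ≤ 6 * (K * m) :=
        card_image_le.trans (by rw [card_univ, Fintype.card_prod, hcard, Fintype.card_fin])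
      have h4 : (#(univ.image fun z : Fin 6 × (V ⊕ Fin e) => f z.1 z.2) : ℝ) ≤ 6 * (K * m) := by
        exact_mod_cast h3
      have h5 : (0 : ℝ) ≤ K * m := by positivity
      exact mul_le_mul_of_nonneg_right (by linarith) (Nat.cast_nonneg _))
  replace hN := fun i u => hN (f i u) (mem_image_of_mem _ (mem_univ (i, u)))
  rw [hL'] at hN hγ
  obtain ⟨r, hr⟩ : ∃ r, (k - m) / L = r + γ + D ∧ 8 * B + 4 * γ + 1 ≤ r := by
    have h3 : 8 * B + 5 * γ + D + 1 ≤ (k - m) / L := (Nat.le_div_iff_mul_le hL0).2 (by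
      have : (8 * B + 5 * γ + D + 1) * L ≤ K * (8 * B + 5 * γ + D + 1) := by nlinarith
      omega)
    exact ⟨(k - m) / L - γ - D, by omega, by omega⟩
  have t1 : L * (r + γ + D) + m ≤ k := by
    have := Nat.mul_div_le (k - m) L
    rw [hr.1] at this
    omega
  have t2 : k < L * (r + γ + D + 1) + m := by
    have := Nat.lt_mul_div_succ (k - m) hL0
    rw [hr.1] at this
    omega
  have hdeg : ∀ i u b, k ≤ #(f i u) → #(f i u) ≤ k + w + e →
      r + γ ≤ #(f i u ∩ fib cl b) ∧ #(f i u ∩ fib cl b) ≤ r + 4 * γ := by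
    intro i u b a1 a2
    obtain ⟨a3, a4⟩ := hN i u b
    have a5 : r + γ + D ≤ #(f i u ∩ fib cl b) + D := Nat.le_of_mul_le_mul_left (by omega) hL0
    refine ⟨by omega, Nat.le_of_mul_le_mul_left ?_ hL0⟩
    subst hL
    nlinarith
  have hdeg0 : ∀ u b, r + γ ≤ #(nb ψ F u ∩ fib cl b) ∧ #(nb ψ F u ∩ fib cl b) ≤ r + 4 * γ := by
    intro u b
    have a1 := card_nb hψ F u
    have a2 := hrow (ψ u)
    rw [Fintype.card_fin] at a1
    exact hdeg 0 u b (a2.1.trans a1.1) (a1.2.trans (Nat.add_le_add_right a2.2 _))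
  have hdeg1 : ∀ u b, r + γ ≤ #(nb ψ (tr F) u ∩ fib cl b) ∧
      #(nb ψ (tr F) u ∩ fib cl b) ≤ r + 4 * γ := by
    intro u b
    have a1 := card_nb hψ (tr F) u
    have a2 := hcol (ψ u)
    rw [Fintype.card_fin] at a1
    exact hdeg 1 u b (a2.1.trans a1.1) (a1.2.trans (Nat.add_le_add_right a2.2 _))
  have hrm : r ≤ m := by
    have a1 := (hdeg0 (.inl x0) 0).1
    have a2 := card_le_card (inter_subset_right (s₁ := nb ψ F (.inl x0)) (s₂ := fib cl 0))
    rw [hcl] at a2
    omega
  have hdegR : ∀ i u b, dR ≤ #(f i u) → 10 * bR + K + m / K + 1 ≤ #(f i u ∩ fib cl b) := by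
    intro i u b a1
    have a2 := (hN i u b).2
    have a3 : L * (#(f i u ∩ fib cl b) + D) ≤ K * (#(f i u ∩ fib cl b) + D) :=
      Nat.mul_le_mul_right _ (by omega)
    have a4 : 10 * bR + K + m / K + 1 + D ≤ #(f i u ∩ fib cl b) + D :=
      Nat.le_of_mul_le_mul_left (by omega) hK.pos
    omega
  have hM : ∀ s : ZMod K, ∃ M : Fin r → Perm (V ⊕ Fin e), Disj M ∧
      ∀ j u, F (ψ u, ψ (M j u)) ∧ cl (M j u) = cl u + s := by
    intro s
    refine hreg (V ⊕ Fin e) (ZMod K) (fun u => cl u + s) cl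
      (fun z => F (ψ z.1, ψ z.2) ∧ cl z.2 = cl z.1 + s) r γ (2 * B) (fun z hz => hz.2.symm)
      (fun a => ?_) (fun u => ?_) (fun v => ?_) (fun a X Y hX hY hX' hY' => ?_) (by omega)
    · rw [hcl, ← hcl (a - s)]
      congr 1
      ext u
      simp [mem_fib, eq_sub_iff_add_eq]
    · have : rdeg (fun z : (V ⊕ Fin e) × (V ⊕ Fin e) =>
          F (ψ z.1, ψ z.2) ∧ cl z.2 = cl z.1 + s) u = #(nb ψ F u ∩ fib cl (cl u + s)) := by
        unfold rdeg
        congr 1
        ext v
        simp [nb, mem_fib]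
      rw [this]
      exact hdeg0 u _
    · have : rdeg (tr fun z : (V ⊕ Fin e) × (V ⊕ Fin e) =>
          F (ψ z.1, ψ z.2) ∧ cl z.2 = cl z.1 + s) v = #(nb ψ (tr F) v ∩ fib cl (cl v - s)) := by
        unfold rdeg
        congr 1
        ext u
        simp only [nb, tr, mem_fib, mem_filter, mem_univ, true_and, mem_inter, Prod.swap_prod_mk,
          eq_sub_iff_add_eq]
        exact and_congr_right fun _ => eq_comm
      rw [this]
      exact hdeg1 v _
    · have a1 := card_le_left X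
      have a2 := card_le_left Y
      rw [Fintype.card_fin] at a1 a2
      have a3 := hDF X.toLeft Y.toLeft (by omega) (by omega)
      have a4 := eN_left (G := F) (X := X) (Y := Y) (G' := fun z : (V ⊕ Fin e) × (V ⊕ Fin e) =>
        F (ψ z.1, ψ z.2) ∧ cl z.2 = cl z.1 + s) fun x y hx hy hG =>
          ⟨hG, (mem_fib.1 (hY hy)).trans (mem_fib.1 (hX hx)).symm⟩
      generalize eN (fun z : (V ⊕ Fin e) × (V ⊕ Fin e) =>
        F (ψ z.1, ψ z.2) ∧ cl z.2 = cl z.1 + s) X Y = n at *
      have a5 : #X * #Y ≤ (2 * #X.toLeft) * (2 * #Y.toLeft) := Nat.mul_le_mul (by omega) (by omega)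
      have a6 := a3.trans (Nat.mul_le_mul_left q a4)
      have a7 : min #X #Y * (2 * B) ≤ #X * #Y := by
        rcases le_total #X #Y with h | h
        · rw [min_eq_left h]
          exact Nat.mul_le_mul_left _ hY'
        · rw [min_eq_right h, mul_comm]
          exact Nat.mul_le_mul_right _ hX'
      have hq : 0 < q := Nat.pos_of_ne_zero fun h => by
        have : 0 < #X.toLeft * #Y.toLeft := Nat.mul_pos (by omega) (by omega)
        rw [h] at a3
        omega
      have a8 := Nat.mul_le_mul_left (min #X #Y) hqγ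
      refine Nat.le_of_mul_le_mul_left ?_ hq
      nlinarith
  choose M hM1 hM2 using hM
  let π : {s : ZMod K // s ≠ 0} × Fin r → Perm (V ⊕ Fin e) := fun i => M i.1 i.2
  have hπ : ∀ i j u, π i u = π j u → i = j := by
    rintro ⟨⟨s, hs⟩, i⟩ ⟨⟨s', hs'⟩, j⟩ u h
    have a1 := (hM2 s i u).2
    have a2 := (hM2 s' j u).2
    obtain rfl : s = s' := add_left_cancel (a1.symm.trans ((congrArg cl h).trans a2))
    obtain rfl : i = j := by_contra fun h' => hM1 s i j h' u h
    rfl
  choose p hp using fun i => exists_restrict (π i)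
  let T : {s : ZMod K // s ≠ 0} × Fin r → Finset V := fun i =>
    univ.filter fun x => ∃ z, π i (.inl x) = .inr z
  have hT : ∀ i x, x ∉ T i → π i (.inl x) = .inl (p i x) := by
    intro i x hx
    rcases h : π i (.inl x) with y | z
    · rw [hp i x y h]
    · exact absurd (mem_filter.2 ⟨mem_univ _, z, h⟩) hx
  have hv : ∀ {J : Type} (s : Finset J) (g : J → V ⊕ Fin e), Set.InjOn g s →
      (∀ j ∈ s, ∃ z, g j = .inr z) → #s ≤ K := fun s g a1 a2 => by
    have := card_virtual s g a1 a2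
    rw [Fintype.card_fin] at this
    omega
  have dd : ∀ (G : V × V → Prop) i, f i = nbR ψ G → ∀ x b, dR ≤ rdeg G x →
      10 * bR + K + m / K + 1 ≤ eN G {x} (fib (fun x => cl (.inl x)) b) := by
    intro G i hi x b a1
    have a2 := hdegR i (.inl x) b
    rw [hi] at a2
    exact (a2 (a1.trans (card_nbR ψ G (.inl x)))).trans (card_nbR_fib ψ G (.inl x) cl b)
  obtain ⟨g, g1, g2, g3⟩ := stage2 hext (I := {s : ZMod K // s ≠ 0} × Fin r) (F := F)
    (fun x => cl (.inl x)) (fun i => ((i.2 : ℕ) : ZMod K)) (fun i => i.1) p T (e := K)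
    (u := m / K + 1) (bR := bR) hF h1 h2 (fun i => i.1.2)
    (fun i x hx => by
      have a1 := hM2 i.1 i.2 (.inl x)
      rw [show M i.1 i.2 (.inl x) = .inl (p i x) from hT i x hx] at a1
      exact a1)
    (fun i j x hij hi hj h => hij (hπ i j (.inl x) (by rw [hT i x hi, hT j x hj, h])))
    (fun i => hv _ (fun x => π i (.inl x)) ((π i).injective.comp Sum.inl_injective).injOn
      fun x hx => (mem_filter.1 hx).2)
    (fun x => hv _ (fun i => π i (.inl x)) (fun i _ j _ h => hπ i j _ h)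
      fun i hi => (mem_filter.1 (mem_filter.1 hi).2).2)
    (fun y => hv _ (fun i => (π i)⁻¹ (.inl y))
      (fun i _ j _ h => hπ i j ((π i)⁻¹ (.inl y)) (by
        have h' : (π i)⁻¹ (.inl y) = (π j)⁻¹ (.inl y) := h
        conv_rhs => rw [h']
        simp))
      fun i hi => by
        rcases h : (π i)⁻¹ (.inl y) with x | z
        · have a1 : π i (.inl x) = .inl y := by rw [← h]; simp
          obtain ⟨z, hz⟩ := (mem_filter.1 (mem_filter.1 hi).2).2
          rw [← hp i x y a1, show (p i)⁻¹ (p i x) = x by simp, a1] at hz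
          exact absurd hz Sum.inl_ne_inr
        · exact ⟨z, rfl⟩)
    (fun a0 s0 => by
      refine (card_le_card_of_injOn (t := range (m / K + 1)) (fun i => (i.2 : ℕ) / K)
        (fun i _ => ?_) fun i hi j hj h => ?_).trans (card_range _).le
      · exact mem_coe.2 (mem_range.2 (Nat.lt_succ_of_le
          (Nat.div_le_div_right (i.2.2.le.trans hrm))))
      · have a1 := (mem_filter.1 (mem_coe.1 hi)).2
        have a2 := (mem_filter.1 (mem_coe.1 hj)).2
        have a3 := (ZMod.natCast_eq_natCast_iff' _ _ _).1 (a1.1.trans a2.1.symm)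
        refine Prod.ext (Subtype.ext (a1.2.trans a2.2.symm)) (Fin.ext ?_)
        rw [← Nat.div_add_mod i.2 K, ← Nat.div_add_mod j.2 K, a3]
        exact congrArg (fun z => K * z + j.2 % K) h)
    hD1 (fun x b => by have := dd R1 2 rfl x b (hdR x).1; omega)
    (fun y b => by have := dd (tr R1) 3 rfl y b (hdR y).2.1; rw [eN_tr] at this; omega)
    (fun x b => by have := dd R2 4 rfl x b (hdR x).2.2.1; have := Nat.zero_le (m / K); omega)
    (fun y b => by
      have := dd (tr R3) 5 rfl y b (hdR y).2.2.2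
      rw [eN_tr] at this
      have := Nat.zero_le (m / K)
      omega)
    (by omega) hKb hβ1 hq1u (fun b => by
      have a1 := (card_le_left (fib cl b)).2
      have a2 : (fib cl b).toLeft = fib (fun x => cl (.inl x)) b := by
        ext x
        simp [mem_fib]
      rw [hcl, a2, Fintype.card_fin] at a1
      omega)
  have hI : Fintype.card ({s : ZMod K // s ≠ 0} × Fin r) = L * r := by
    rw [Fintype.card_prod, Fintype.card_subtype_compl, Fintype.card_subtype_eq, ZMod.card,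
      Fintype.card_fin, hL']
  obtain ⟨H, b1, b2, b3⟩ := tgt_of_family
    (Γ := fun z => F z ∨ R1 z ∨ R2 z ∨ R3 z) g g1 g2 g3
  refine ⟨_, H, b1, b2, b3, ?_, ?_⟩
  · rw [hI]
    nlinarith
  · rw [hI]
    subst hL
    nlinarith

end Pool.Agent.P.MP_de899d_pr
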