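import Pool.Agent.P.MP_de899d_pr.Base2

/-! Approximate Hamilton decomposition, second stage: closing the matchings to cycles. -/

set_option linter.unusedSectionVars false
set_option linter.unusedVariables false

namespace Pool.Agent.P.MP_de899d_pr
open Finset Equiv

namespace Apx

variable {V : Type} [Fintype V] [DecidableEq V]

theorem eN_or_le' {G G₁ G₂ : V × V → Prop} {X Y : Finset V}
    (h : ∀ x ∈ X, ∀ y ∈ Y, G (x, y) → G₁ (x, y) ∨ G₂ (x, y)) :
    eN G X Y ≤ eN G₁ X Y + eN G₂ X Y := by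
  classical
  refine le_trans (card_le_card fun e he => ?_) (card_union_le _ _)
  simp only [mem_filter, mem_union] at he ⊢
  exact (h _ (mem_product.1 he.1).1 _ (mem_product.1 he.1).2 he.2).imp (fun h => ⟨he.1, h⟩)
    fun h => ⟨he.1, h⟩

/-- Removing the cells used by the permutations with index in `J`. -/
theorem eN_used {I : Type} [DecidableEq I] {G R : V × V → Prop} {X Y : Finset V}
    (g : I → Perm V) (J : Finset I)
    (h : ∀ x ∈ X, ∀ y ∈ Y, G (x, y) → R (x, y) ∨ ∃ j ∈ J, g j x = y) :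
    eN G X Y ≤ eN R X Y + #J * #X ∧ eN G X Y ≤ eN R X Y + #J * #Y := by
  have h1 := eN_or_le' (G := G) (G₁ := R) (G₂ := Gr fun j : J => g j) (X := X) (Y := Y)
    fun x hx y hy hG => (h x hx y hy hG).imp id fun ⟨j, hj, e⟩ => ⟨⟨j, hj⟩, e⟩
  have h2 := eN_le_rows (fun x => (rdeg_Gr_le (fun j : J => g j) x).1) X Y
  have h3 := eN_le_cols (fun x => (rdeg_Gr_le (fun j : J => g j) x).2) X Y
  rw [Fintype.card_coe] at h2 h3
  omega

theorem card_le_inter {X N T : Finset V} (h : X ⊆ N ∪ T) : #X ≤ #(X ∩ N) + #T :=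
  (card_le_card fun x hx => by
    rcases mem_union.1 (h hx) with h | h <;> simp [hx, h]).trans (card_union_le (X ∩ N) T)

theorem stage2 (hext : S_EXT) {I : Type} [Fintype I] [DecidableEq I] {K : ℕ} [Fact K.Prime]
    {F R1 R2 R3 : V × V → Prop} (c : V → ZMod K) (a s : I → ZMod K) (p : I → Perm V)
    (T : I → Finset V) {e u q1 β1 bR : ℕ}
    (hF : ∀ e, F e → ¬ R1 e ∧ ¬ R2 e ∧ ¬ R3 e) (h1 : ∀ e, R1 e → ¬ R2 e ∧ ¬ R3 e)
    (h2 : ∀ e, R2 e → ¬ R3 e) (hs : ∀ i, s i ≠ 0)
    (hp : ∀ i x, x ∉ T i → F (x, p i x) ∧ c (p i x) = c x + s i)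
    (hd : ∀ i j x, i ≠ j → x ∉ T i → x ∉ T j → p i x ≠ p j x) (hT : ∀ i, #(T i) ≤ e)
    (hT1 : ∀ x, #(univ.filter fun i => x ∈ T i) ≤ e)
    (hT2 : ∀ y, #(univ.filter fun i => (p i)⁻¹ y ∈ T i) ≤ e)
    (hu : ∀ a0 s0, #(univ.filter fun i => a i = a0 ∧ s i = s0) ≤ u) (hD : Den R1 q1 β1)
    (d1 : ∀ x b, 10 * bR + u ≤ eN R1 {x} (fib c b))
    (d1' : ∀ y b, 10 * bR + u ≤ eN R1 (fib c b) {y})
    (d2 : ∀ x b, 10 * bR + e ≤ eN R2 {x} (fib c b))
    (d3 : ∀ y b, 10 * bR + e ≤ eN R3 (fib c b) {y}) (hb0 : 0 < bR) (hbe : 2 * e ≤ bR)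
    (hbβ : 2 * β1 ≤ bR) (hbu : 4 * q1 * u ≤ bR) (hm : ∀ b, 128 * q1 * bR ≤ #(fib c b)) :
    ∃ g : I → Perm V, (∀ i, Ham (g i)) ∧ (∀ i j, i ≠ j → ∀ x, g i x ≠ g j x) ∧
      ∀ i x, F (x, g i x) ∨ R1 (x, g i x) ∨ R2 (x, g i x) ∨ R3 (x, g i x) := by
  let W : I → Finset V := fun i => fib c (a i) ∪ T i
  let A : I → V × V → Prop := fun i z =>
    (c z.1 = a i ∧ c z.2 = a i + s i ∧ R1 z) ∨ (z.1 ∈ T i ∧ R2 z) ∨ ((p i)⁻¹ z.2 ∈ T i ∧ R3 z)
  have hWT : ∀ i x, x ∉ W i → x ∉ T i := fun i x h h' => h (mem_union_right _ h')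
  have hN' : ∀ i, fib c (a i + s i) ⊆ (W i).image (p i) := by
    intro i y hy
    refine mem_image.2 ⟨(p i)⁻¹ y, ?_, by simp⟩
    by_contra h
    have h3 := (hp i _ (hWT i _ h)).2
    rw [show p i ((p i)⁻¹ y) = y by simp, mem_fib.1 hy] at h3
    exact h (mem_union_left _ (mem_fib.2 (add_right_cancel h3).symm))
  have hH : ∀ i, (W i).image (p i) ⊆ fib c (a i + s i) ∪ (T i).image (p i) := by
    intro i y hy
    obtain ⟨x, hx, rfl⟩ := mem_image.1 hy
    by_cases h : x ∈ T i
    · exact mem_union_right _ (mem_image_of_mem _ h)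
    · refine mem_union_left _ (mem_fib.2 ?_)
      rw [(hp i x h).2, mem_fib.1 ((mem_union.1 hx).resolve_right h)]
  obtain ⟨g, hg, hC⟩ := seq_choice (I := I) (α := Perm V)
    (fun i g => (∀ x, x ∉ W i → g x = p i x) ∧ (∀ x ∈ W i, A i (x, g x)) ∧ Thru g (W i) ∧
      ∀ S, Cl g S → Cl (p i) S)
    (fun i g j g' => ∀ x ∈ W i, x ∈ W j → g x ≠ g' x)
    (fun i g j g' h x hx hx' => (h x hx' hx).symm) (by
      intro i S g hi hS
      let R : V × V → Prop := fun z => A i z ∧ ¬ ∃ j ∈ S, z.1 ∈ W j ∧ g j z.1 = z.2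
      have key : ∀ (J : Finset I) (x y : V), A i (x, y) → (∀ j, A j (x, y) → j ∈ J) →
          R (x, y) ∨ ∃ j ∈ J, g j x = y := by
        intro J x y hA hJ
        by_cases h : ∃ j ∈ S, x ∈ W j ∧ g j x = y
        · obtain ⟨j, hj, hx, rfl⟩ := h
          exact Or.inr ⟨j, hJ j ((hS j hj).2.1 x hx), rfl⟩
        · exact Or.inl ⟨hA, h⟩
      have k1 : ∀ {X Y : Finset V}, X ⊆ fib c (a i) → Y ⊆ fib c (a i + s i) →
          eN R1 X Y ≤ eN R X Y + u * #X ∧ eN R1 X Y ≤ eN R X Y + u * #Y := by
        intro X Y hX hY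
        have h := eN_used (G := R1) (R := R) (X := X) (Y := Y) g
          (univ.filter fun j => a j = a i ∧ s j = s i) fun x hx y hy hR => by
            have ex := mem_fib.1 (hX hx)
            have ey := mem_fib.1 (hY hy)
            refine key _ x y (Or.inl ⟨ex, ey, hR⟩) fun j hj => ?_
            rcases hj with ⟨b1, b2, -⟩ | ⟨-, b⟩ | ⟨-, b⟩
            · have e1 : a j = a i := b1.symm.trans ex
              have e2 : a j + s j = a i + s i := b2.symm.trans ey
              rw [e1] at e2
              exact mem_filter.2 ⟨mem_univ _, e1, add_left_cancel e2⟩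
            · exact absurd b (h1 _ hR).1
            · exact absurd b (h1 _ hR).2
        have h3 := Nat.mul_le_mul_right #X (hu (a i) (s i))
        have h4 := Nat.mul_le_mul_right #Y (hu (a i) (s i))
        omega
      obtain ⟨π, b1, b2, b3, -, b5⟩ := hext V (p i) (W i) R bR hb0 (fun x hx => by
          refine le_trans ?_ (eN_sub R (Subset.refl _) (hN' i))
          rcases mem_union.1 hx with hx | hx
          · have h3 := (k1 (singleton_subset_iff.2 hx) (Subset.refl _)).1
            have h4 := d1 x (a i + s i)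
            rw [card_singleton] at h3
            omega
          · have h3 := (eN_used (G := R2) (R := R) (X := {x}) (Y := fib c (a i + s i)) g
              (univ.filter fun j => x ∈ T j) fun x' hx' y hy hR => by
                obtain rfl := mem_singleton.1 hx'
                refine key _ x' y (Or.inr (Or.inl ⟨hx, hR⟩)) fun j hj => ?_
                rcases hj with ⟨-, -, b⟩ | ⟨b, -⟩ | ⟨-, b⟩
                · exact absurd hR (h1 _ b).1
                · exact mem_filter.2 ⟨mem_univ _, b⟩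
                · exact absurd b (h2 _ hR)).1
            have h4 := d2 x (a i + s i)
            have h5 := hT1 x
            rw [card_singleton] at h3
            omega)
        (fun y hy => by
          refine le_trans ?_ (eN_sub R (subset_union_left (s₁ := fib c (a i))) (Subset.refl _))
          rcases mem_union.1 (hH i hy) with hy | hy
          · have h3 := (k1 (Subset.refl _) (singleton_subset_iff.2 hy)).2
            have h4 := d1' y (a i)
            rw [card_singleton] at h3
            omega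
          · obtain ⟨x0, hx0, rfl⟩ := mem_image.1 hy
            have h3 := (eN_used (G := R3) (R := R) (X := fib c (a i)) (Y := {p i x0}) g
              (univ.filter fun j => (p j)⁻¹ (p i x0) ∈ T j) fun x hx y hy hR => by
                obtain rfl := mem_singleton.1 hy
                refine key _ x _ (Or.inr (Or.inr ⟨by simpa using hx0, hR⟩)) fun j hj => ?_
                rcases hj with ⟨-, -, b⟩ | ⟨-, b⟩ | ⟨b, -⟩
                · exact absurd hR (h1 _ b).2
                · exact absurd hR (h2 _ b)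
                · exact mem_filter.2 ⟨mem_univ _, b⟩).2
            have h4 := d3 (p i x0) (a i)
            have h5 := hT2 (p i x0)
            rw [card_singleton] at h3
            omega)
        (fun X Y hX hY hX' hY' => by
          have c1 := card_le_inter hX
          have c2 := card_le_inter (hY.trans (hH i))
          have c3 := hT i
          have c4 : #((T i).image (p i)) ≤ e := card_image_le.trans c3
          have c5 := hD (X ∩ fib c (a i)) (Y ∩ fib c (a i + s i)) (by omega) (by omega)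
          have c6 := (k1 (X := X ∩ fib c (a i)) (Y := Y ∩ fib c (a i + s i)) inter_subset_right
            inter_subset_right).1
          have c7 := eN_sub R (inter_subset_left (s₁ := X) (s₂ := fib c (a i)))
            (inter_subset_left (s₁ := Y) (s₂ := fib c (a i + s i)))
          have c8 : 128 * q1 * bR ≤ #(W i) := (hm (a i)).trans (card_le_card subset_union_left)
          generalize #(X ∩ fib c (a i)) = x0 at *
          generalize #(Y ∩ fib c (a i + s i)) = y0 at *
          have c9 : #X * #Y ≤ (2 * x0) * (2 * y0) := Nat.mul_le_mul (by omega) (by omega)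
          have c10 := Nat.mul_le_mul_left q1 (c6.trans (Nat.add_le_add_right c7 _))
          have c11 : x0 * (2 * q1 * u) ≤ x0 * y0 := Nat.mul_le_mul_left _ (by
            have : 4 * q1 * u = 2 * (2 * q1 * u) := by ring
            omega)
          have c12 : x0 * y0 ≤ 2 * q1 * eN R X Y := by nlinarith
          calc 16 * bR * (#X * #Y) ≤ 16 * bR * (4 * (2 * q1 * eN R X Y)) :=
                Nat.mul_le_mul_left _ (by nlinarith)
            _ = 128 * q1 * bR * eN R X Y := by ring
            _ ≤ _ := Nat.mul_le_mul_right _ c8)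
      exact ⟨π, ⟨b1, fun x hx => (b2 x hx).1, b3, b5⟩,
        fun j hj x hx hx' h => (b2 x hx).2 ⟨j, hj, hx', h.symm⟩⟩)
  have hR : ∀ i x, x ∈ W i → R1 (x, g i x) ∨ R2 (x, g i x) ∨ R3 (x, g i x) := fun i x hx =>
    ((hg i).2.1 x hx).imp (fun h => h.2.2) (Or.imp And.right And.right)
  have hFg : ∀ i x, x ∉ W i → F (x, g i x) := fun i x hx => by
    rw [(hg i).1 x hx]
    exact (hp i x (hWT i x hx)).1
  have hmix : ∀ i j x, x ∈ W i → x ∉ W j → g i x ≠ g j x := fun i j x hi hj h => by
    have h3 := hF _ (hFg j x hj)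
    rw [← h] at h3
    have h4 := hR i x hi
    tauto
  refine ⟨g, fun i => ham_of_thru (hg i).2.2.1 fun S ⟨x0, hx0⟩ hS => ?_, fun i j hij x => ?_,
    fun i x => ?_⟩
  · by_contra hne
    have hW : ∀ x ∈ S, x ∉ W i := fun x hx h => hne ⟨x, h, hx⟩
    have h3 : ∀ t : ℕ, ∃ x ∈ S, c x = c x0 + t * s i := by
      intro t
      induction t with
      | zero => exact ⟨x0, hx0, by simp⟩
      | succ t ih =>
        obtain ⟨x, hx, e⟩ := ih
        refine ⟨p i x, (hg i).2.2.2 S hS x hx, ?_⟩
        rw [(hp i x (hWT i x (hW x hx))).2, e]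
        push_cast
        ring
    obtain ⟨x, hx, e⟩ := h3 ((a i - c x0) / s i).val
    rw [ZMod.natCast_zmod_val, div_mul_cancel₀ _ (hs i), add_sub_cancel] at e
    exact hW x hx (mem_union_left _ (mem_fib.2 e))
  · by_cases hi : x ∈ W i <;> by_cases hj : x ∈ W j
    · exact hC i j hij x hi hj
    · exact hmix i j x hi hj
    · exact (hmix j i x hj hi).symm
    · rw [(hg i).1 x hi, (hg j).1 x hj]
      exact hd i j x hij (hWT i x hi) (hWT j x hj)
  · by_cases hi : x ∈ W i
    · exact Or.inr (hR i x hi)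
    · exact Or.inl (hFg i x hi)

end Apx

end Pool.Agent.P.MP_de899d_pr
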