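import Pool.Agent.P.MP_de899d_pr.Defs

/-! Existence of `k` disjoint perfect matchings. -/

set_option linter.unusedSectionVars false

namespace Pool.Agent.P.MP_de899d_pr
open Finset Equiv

section
variable {V : Type} [Fintype V] [DecidableEq V]

open Classical in
theorem eN_row (G : V × V → Prop) (X Y : Finset V) :
    eN G X Y = ∑ x ∈ X, #(Y.filter fun y => G (x, y)) := by
  unfold eN
  simp only [card_filter]
  rw [sum_product]

open Classical in
theorem eN_col (G : V × V → Prop) (X Y : Finset V) :
    eN G X Y = ∑ y ∈ Y, #(X.filter fun x => G (x, y)) := by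
  unfold eN
  simp only [card_filter]
  rw [sum_product_right]

theorem eN_tr (G : V × V → Prop) (X Y : Finset V) : eN (tr G) Y X = eN G X Y := by
  rw [eN_row, eN_col]
  rfl

theorem eN_mono {G G' : V × V → Prop} (h : ∀ e, G e → G' e) (X Y : Finset V) :
    eN G X Y ≤ eN G' X Y := by
  classical
  unfold eN
  exact card_le_card fun e he => by
    simp only [mem_filter] at he ⊢
    exact ⟨he.1, h e he.2⟩

theorem eN_split_left (G : V × V → Prop) (X L Y : Finset V) :
    eN G X Y = eN G (X ∩ L) Y + eN G (X \ L) Y := by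
  simp only [eN_row]
  rw [sum_inter_add_sum_sdiff]

theorem eN_split_right (G : V × V → Prop) (X Y L : Finset V) :
    eN G X Y = eN G X (Y ∩ L) + eN G X (Y \ L) := by
  simp only [eN_col]
  rw [sum_inter_add_sum_sdiff]

theorem eN_univ (G : V × V → Prop) (X : Finset V) : eN G X univ = ∑ x ∈ X, rdeg G x := by
  rw [eN_row]
  rfl

theorem eN_le_mul (G : V × V → Prop) (X Y : Finset V) : eN G X Y ≤ #X * #Y := by
  classical
  unfold eN
  rw [← card_product]
  exact card_filter_le _ _

theorem eN_submod (G : V × V → Prop) (X Y X' Y' : Finset V) :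
    eN G (X ∪ X') (Y ∩ Y') + eN G (X ∩ X') (Y ∪ Y') ≤ eN G X Y + eN G X' Y' := by
  classical
  unfold eN
  rw [← card_union_add_card_inter, ← card_union_add_card_inter (filter _ (X ×ˢ Y))]
  refine add_le_add (card_le_card fun e => ?_) (card_le_card fun e => ?_) <;>
    simp only [mem_union, mem_inter, mem_filter, mem_product] <;> tauto

theorem koenig (k : ℕ) : ∀ G : V × V → Prop, (∀ x, k ≤ rdeg G x) → (∀ y, rdeg (tr G) y ≤ k) →
    ∃ M : Fin k → Perm V, Disj M ∧ ∀ j x, G (x, M j x) := by
  classical
  induction k with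
  | zero => exact fun G _ _ => ⟨fun i => i.elim0, fun i => i.elim0, fun i => i.elim0⟩
  | succ k ih =>
    intro G h1 h2
    obtain ⟨f, hf, hf'⟩ := (Fintype.all_card_le_filter_rel_iff_exists_injective
      (fun x y => G (x, y))).1 fun A => by
        refine Nat.le_of_mul_le_mul_right (card_mul_le_card_mul (fun x y => G (x, y))
          (fun x hx => (h1 x).trans (card_le_card fun y hy => ?_))
          (fun y _ => le_trans (card_le_card fun x hx => ?_) (h2 y))) (Nat.succ_pos k)
        · simp only [mem_filter, mem_univ, true_and, mem_bipartiteAbove] at hy ⊢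
          exact ⟨⟨x, hx, hy⟩, hy⟩
        · simp only [mem_filter, mem_univ, true_and, mem_bipartiteBelow] at hx ⊢
          exact hx.2
    set π : Perm V := Equiv.ofBijective f (Finite.injective_iff_bijective.1 hf) with hπ
    have hπf : ∀ x, π x = f x := fun _ => rfl
    obtain ⟨M, hM, hM'⟩ := ih (fun e => G e ∧ e.2 ≠ π e.1) (fun x => by
        have h3 := h1 x
        have h4 : rdeg G x ≤ rdeg (fun e => G e ∧ e.2 ≠ π e.1) x + 1 := by
          unfold rdeg
          refine le_trans (card_le_card fun y hy => ?_) (card_insert_le (π x) _)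
          simp only [mem_filter, mem_univ, true_and, mem_insert] at hy ⊢
          tauto
        omega) (fun y => by
        have h3 := h2 y
        have h4 : rdeg (tr fun e => G e ∧ e.2 ≠ π e.1) y < rdeg (tr G) y := by
          unfold rdeg
          refine card_lt_card ⟨fun x hx => ?_, fun h => ?_⟩
          · simp only [mem_filter, mem_univ, true_and, tr] at hx ⊢
            exact hx.1
          · have := @h (π.symm y) (by
              simp only [mem_filter, mem_univ, true_and, tr, Prod.swap_prod_mk]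
              simpa [← hπf] using hf' (π.symm y))
            simp [tr] at this
        omega)
    refine ⟨Fin.cons π M, fun i j hij x => ?_, fun j x => ?_⟩
    · induction i using Fin.cases with
      | zero =>
        induction j using Fin.cases with
        | zero => exact absurd rfl hij
        | succ j => simpa using (hM' j x).2.symm
      | succ i =>
        induction j using Fin.cases with
        | zero => simpa using (hM' i x).2
        | succ j => simpa using hM i j (fun h => hij (congrArg _ h)) x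
    · induction j using Fin.cases with
      | zero => exact hf' x
      | succ j => exact (hM' j x).1

theorem ore (k : ℕ) : ∀ (m : ℕ) (G : V × V → Prop), eN G univ univ = m →
    (∀ X Y : Finset V, k * (#X + #Y) ≤ eN G X Y + k * Fintype.card V) →
    ∃ M : Fin k → Perm V, Disj M ∧ ∀ j x, G (x, M j x) := by
  classical
  intro m
  induction m using Nat.strong_induction_on with
  | _ m ih =>
  intro G hm hG
  by_cases hex : ∃ p, G p ∧ ∀ X Y : Finset V,
      k * (#X + #Y) ≤ eN (fun e => G e ∧ e ≠ p) X Y + k * Fintype.card V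
  · obtain ⟨p, hp, hp'⟩ := hex
    obtain ⟨M, hM, hM'⟩ := ih _ (by
      rw [← hm]
      unfold eN
      refine card_lt_card ⟨fun e he => ?_, fun h => ?_⟩
      · simp only [mem_filter] at he ⊢
        exact ⟨he.1, he.2.1⟩
      · have := @h p (by simpa using hp)
        simp at this) _ rfl hp'
    exact ⟨M, hM, fun j x => (hM' j x).1⟩
  push Not at hex
  have tight : ∀ p, G p → ∃ X Y : Finset V, p.1 ∈ X ∧ p.2 ∈ Y ∧
      eN G X Y + k * Fintype.card V ≤ k * (#X + #Y) := by
    intro p hp
    obtain ⟨X, Y, h⟩ := hex p hp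
    have h1 : eN G X Y ≤ eN (fun e => G e ∧ e ≠ p) X Y + 1 := by
      unfold eN
      refine le_trans (card_le_card fun e he => ?_) (card_insert_le p _)
      simp only [mem_filter, mem_insert] at he ⊢
      tauto
    by_contra hn
    have h2 : ¬ (p.1 ∈ X ∧ p.2 ∈ Y) := fun h' => hn ⟨X, Y, h'.1, h'.2, by omega⟩
    have h3 : eN G X Y ≤ eN (fun e => G e ∧ e ≠ p) X Y := by
      unfold eN
      refine card_le_card fun e he => ?_
      simp only [mem_filter, mem_product] at he ⊢
      exact ⟨he.1, he.2, fun h' => h2 (h' ▸ he.1)⟩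
    have := hG X Y
    omega
  refine koenig k G (fun x => ?_) fun y => ?_
  · have := hG {x} univ
    rw [eN_univ, sum_singleton, card_singleton, card_univ, mul_add] at this
    omega
  have key : ∀ N : Finset V, (∀ x ∈ N, G (x, y)) → ∃ X Y : Finset V, N ⊆ X ∧ y ∈ Y ∧
      eN G X Y + k * Fintype.card V ≤ k * (#X + #Y) := by
    intro N
    induction N using Finset.induction_on with
    | empty => exact fun _ => ⟨∅, univ, subset_rfl, mem_univ _, by simp [eN_row]⟩
    | insert x N _ ihN =>
      intro h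
      obtain ⟨X, Y, h1, h2, h3⟩ := ihN fun z hz => h z (mem_insert_of_mem hz)
      obtain ⟨X', Y', h1', h2', h3'⟩ := tight (x, y) (h x (mem_insert_self _ _))
      refine ⟨X ∪ X', Y ∩ Y', insert_subset (mem_union_right _ h1') (h1.trans subset_union_left),
        mem_inter.2 ⟨h2, h2'⟩, ?_⟩
      have e1 := eN_submod G X Y X' Y'
      have e2 := hG (X ∩ X') (Y ∪ Y')
      have e3 := congrArg (k * ·) (card_union_add_card_inter X X')
      have e4 := congrArg (k * ·) (card_union_add_card_inter Y Y')
      simp only [mul_add] at *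
      omega
  obtain ⟨X, Y, h1, h2, h3⟩ := key (univ.filter fun x => G (x, y)) fun x hx => (mem_filter.1 hx).2
  have e1 := hG X (Y.erase y)
  have e2 : eN G X (Y.erase y) + #(X.filter fun x => G (x, y)) = eN G X Y := by
    rw [eN_col, eN_col, ← sum_erase_add _ _ h2]
  have e3 : rdeg (tr G) y ≤ #(X.filter fun x => G (x, y)) := by
    unfold rdeg
    refine card_le_card fun x hx => ?_
    have hx' : G (x, y) := (mem_filter.1 hx).2
    exact mem_filter.2 ⟨h1 (mem_filter.2 ⟨mem_univ _, hx'⟩), hx'⟩
  have e4 := congrArg (k * ·) (card_erase_add_one h2)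
  simp only [mul_add, mul_one] at *
  omega

theorem half_le {G' G'' : V × V → Prop} {a μ s w k c mk : ℕ} (hk : 1 ≤ k) (hmk : k + mk = a + 1)
    (hμ : μ ≤ mk) (hc : 4 * c ≤ μ) (h1 : 1 ≤ μ) (hR : RowP G' G'' a μ s w k c) {X Z : Finset V}
    (hZ : #Z < #X) (hX : #X ≤ w) : eN G'' X Z ≤ mk * #(X \ low G' a) + k * #Z := by
  classical
  obtain ⟨hA, hB, hD, hC⟩ := hR
  have hl : #(X ∩ low G' a) ≤ s := (card_le_card inter_subset_right).trans hA
  have hx := card_inter_add_card_sdiff X (low G' a)
  have hlow : ∀ Z : Finset V, eN G'' (X ∩ low G' a) Z ≤ c * #Z := fun Z => by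
    rw [eN_col, mul_comm]
    exact sum_le_card_nsmul _ _ _ fun y _ =>
      (card_le_card (filter_subset_filter _ inter_subset_right)).trans (hB y)
  have hs := eN_split_left G'' X (low G' a) Z
  have hl' := hlow Z
  have m1 := Nat.mul_le_mul_right #(X \ low G' a) hμ
  by_cases hcase : s ≤ #(X \ low G' a)
  · have hz : #Z ≤ 2 * #(X \ low G' a) := by omega
    have m2 : 2 * (c * #Z) ≤ μ * #(X \ low G' a) := by nlinarith
    rcases hD (X \ low G' a) Z (by omega) hz with h | h
    · omega
    · have m3 : a * #Z ≤ 4 * (k * #Z) + mk * #Z := by nlinarith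
      have m4 := Nat.mul_le_mul_left mk hz
      nlinarith
  rcases hC with hC | ⟨hC, hC'⟩
  · have := eN_le_mul G'' X Z
    have m2 : #X * #Z ≤ k * #Z := Nat.mul_le_mul_right _ (by omega)
    omega
  have m5 : (μ - 1) * #(X \ low G' a) + #(X \ low G' a) = μ * #(X \ low G' a) := by
    obtain ⟨ν, rfl⟩ := Nat.exists_eq_add_of_le' h1
    simp [add_mul]
  rcases hC' with hC' | ⟨hc1, hB2⟩
  · have m2 : c * #Z + 2 * #Z ≤ k * #Z := by nlinarith
    rcases hC (X \ low G' a) Z (by omega) (by omega) with h | h <;> omega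
  set W : Finset V := univ.filter fun y => ∃ x1 ∈ low G' a, G'' (x1, y) with hW
  set T : Finset V := univ.filter fun y => 2 ≤ #((X \ low G' a).filter fun x => G'' (x, y))
    with hT
  have e1 : eN G'' (X ∩ low G' a) Z ≤ #(Z ∩ W) := by
    rw [eN_split_right _ _ _ W]
    have h0 : eN G'' (X ∩ low G' a) (Z \ W) = 0 := by
      rw [eN_col]
      refine sum_eq_zero fun y hy => card_eq_zero.2 (filter_eq_empty_iff.2 fun x hx h => ?_)
      exact (mem_sdiff.1 hy).2 (mem_filter.2 ⟨mem_univ _, x, (mem_inter.1 hx).2, h⟩)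
    have := hlow (Z ∩ W)
    nlinarith
  have e2 : eN G'' (X \ low G' a) (Z ∩ W) ≤ #(X \ low G' a) := by
    rw [eN_row]
    refine (sum_le_card_nsmul _ _ 1 fun x hx => le_trans (card_le_card fun y hy => ?_)
      (hB2 x (mem_sdiff.1 hx).2)).trans (by simp)
    simp only [hW, mem_filter, mem_inter, mem_univ, true_and] at hy ⊢
    exact ⟨hy.2, hy.1.2⟩
  have e3 : eN G'' (X \ low G' a) ((Z \ W) \ T) ≤ #(Z \ W) := by
    rw [eN_col]
    refine (sum_le_card_nsmul _ _ 1 fun y hy => ?_).trans (by simpa using card_le_card sdiff_subset)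
    have := (mem_sdiff.1 hy).2
    simp only [hT, mem_filter, mem_univ, true_and] at this
    omega
  have e4 : eN G'' (X \ low G' a) ((Z \ W) ∩ T) ≤ (μ - 1) * #(X \ low G' a) := by
    have hle : #((Z \ W) ∩ T) ≤ #Z := card_le_card (inter_subset_left.trans sdiff_subset)
    refine (hC _ _ (by omega) (by omega)).resolve_left (not_lt.2 ?_)
    rw [eN_col, mul_comm]
    exact card_nsmul_le_sum _ _ 2 fun y hy => (mem_filter.1 (mem_inter.1 hy).2).2
  have e5 := eN_split_right G'' (X \ low G' a) Z W
  have e6 := eN_split_right G'' (X \ low G' a) (Z \ W) T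
  have e7 := card_inter_add_card_sdiff Z W
  have e8 := Nat.mul_le_mul_right #Z hk
  omega

theorem half {G' B G'' : V × V → Prop} {a μ s w k c : ℕ} (hB : ∀ e, G' e → B e)
    (hB' : ∀ e, B e → G'' e) (hr : ∀ x, k ≤ rdeg B x) (hk : 1 ≤ k) (hμ : k + μ ≤ a + 1)
    (hc : 4 * c ≤ μ) (h1 : 1 ≤ μ) (hR : RowP G' G'' a μ s w k c) (X Y : Finset V)
    (hX : #X ≤ w) : k * (#X + #Y) ≤ eN B X Y + k * Fintype.card V := by
  classical
  have hY := card_add_card_compl Y
  by_cases hZ : #Yᶜ < #X
  swap
  · exact (Nat.mul_le_mul_left k (by omega)).trans (Nat.le_add_left _ _)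
  obtain ⟨mk, hmk⟩ : ∃ mk, k + mk = a + 1 := ⟨a + 1 - k, by omega⟩
  have e1 := (eN_mono hB' X Yᶜ).trans (half_le hk hmk (by omega) hc h1 hR hZ hX)
  have e2 := eN_split_right B X univ Y
  rw [univ_inter, ← compl_eq_univ_sdiff, eN_split_left B X (low G' a), eN_univ, eN_univ] at e2
  have e3 : #(X ∩ low G' a) * k ≤ ∑ x ∈ X ∩ low G' a, rdeg B x :=
    card_nsmul_le_sum _ _ k fun x _ => hr x
  have e4 : #(X \ low G' a) * (k + mk) ≤ ∑ x ∈ X \ low G' a, rdeg B x := by
    refine card_nsmul_le_sum _ _ _ fun x hx => ?_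
    have h2 := (mem_sdiff.1 hx).2
    simp only [low, mem_filter, mem_univ, true_and, not_le] at h2
    have h3 : rdeg G' x ≤ rdeg B x := by
      simpa only [eN_univ, sum_singleton] using eN_mono hB {x} univ
    omega
  have hx := card_inter_add_card_sdiff X (low G' a)
  rw [← hY, ← hx]
  nlinarith

end

theorem fact : S_FACT := by
  intro V _ _ G' B G'' a μ s w k c hB hB' hr hr' hμ hc h1 hR hR' hE
  rcases Nat.eq_zero_or_pos k with rfl | hk
  · exact ⟨fun i => i.elim0, fun i => i.elim0, fun i => i.elim0⟩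
  refine ore k _ B rfl fun X Y => ?_
  by_cases hX : #X ≤ w
  · exact half hB hB' hr hk hμ hc h1 hR X Y hX
  by_cases hY : #Y ≤ w
  · have := half (B := tr B) (fun e => hB e.swap) (fun e => hB' e.swap) hr' hk hμ hc h1 hR' Y X hY
    rwa [eN_tr, add_comm] at this
  have e1 := (hE X Y (by omega) (by omega)).trans (Nat.mul_le_mul_left _ (eN_mono hB X Y))
  obtain ⟨u, hu⟩ := Nat.exists_eq_add_of_le (card_le_univ X)
  obtain ⟨v, hv⟩ := Nat.exists_eq_add_of_le (card_le_univ Y)
  have hn : 0 < Fintype.card V := by omega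
  refine Nat.le_of_mul_le_mul_left ?_ hn
  have e2 : Fintype.card V * (#X + #Y) ≤ #X * #Y + Fintype.card V * Fintype.card V := by
    nlinarith [Nat.zero_le (u * v)]
  nlinarith [Nat.mul_le_mul_left k e2]

end Pool.Agent.P.MP_de899d_pr
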