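import Pool.Agent.P.MP_de899d_pr.Defs

/-! Three small lemmas on permutations: surgery, zones and merging. -/

set_option linter.unusedSectionVars false

namespace Pool.Agent.P.MP_de899d_pr
open Finset Equiv

namespace Surg

variable {V : Type} [Fintype V] [DecidableEq V]

theorem pow_succ_apply (π : Perm V) (i : ℕ) (x : V) : (π ^ (i + 1)) x = π ((π ^ i) x) := by
  rw [pow_succ', Perm.mul_apply]

theorem cl_inv {π : Perm V} {S : Finset V} (h : Cl π S) {z : V} (hz : π z ∈ S) : z ∈ S := by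
  have h1 : S.image π = S := by
    refine eq_of_subset_of_card_le (fun y hy => ?_) (card_image_of_injective S π.injective).ge
    obtain ⟨x, hx, rfl⟩ := mem_image.1 hy
    exact h x hx
  rw [← h1] at hz
  obtain ⟨x, hx, e⟩ := mem_image.1 hz
  rwa [← π.injective e]

theorem cl_pow {π : Perm V} {S : Finset V} (h : Cl π S) {z : V} (hz : z ∈ S) (i : ℕ) :
    (π ^ i) z ∈ S := by
  induction i with
  | zero => exact hz
  | succ i ih => rw [pow_succ_apply]; exact h _ ih

theorem cl_cycle {π : Perm V} {S : Finset V} (h : Cl π S) {x y : V} (hx : x ∈ S)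
    (hxy : π.SameCycle x y) : y ∈ S := by
  obtain ⟨i, -, rfl⟩ := hxy.exists_pow_eq'
  exact cl_pow h hx i

theorem arc {π σ : Perm V} {n0 : ℕ} {S D O : Finset V} (h1 : ∀ z, z ∉ S → σ z = z)
    (h3 : ∀ x ∈ S, ∀ y ∈ S, near π n0 x y → x = y)
    (h5 : ∀ O : Finset V, O.Nonempty → Cl π O → #O ≤ n0 → ∃ b ∈ O, b ∈ D)
    (hO : Cl (π * σ) O) (hc : #O ≤ n0) {w : V} (hw : w ∈ S) (hw' : π w ∈ O) :
    w ∈ O ∧ ∃ b ∈ O, b ∈ D ∧ (b ∈ S → b = w) := by
  classical
  have hex : ∃ i, 1 ≤ i ∧ (π ^ i) w ∈ S :=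
    ⟨orderOf π, orderOf_pos π, by rwa [pow_orderOf_eq_one]⟩
  obtain ⟨i1, i2⟩ := Nat.find_spec hex
  have hmin : ∀ u, 1 ≤ u → u < Nat.find hex → (π ^ u) w ∉ S := fun u hu hu' h =>
    Nat.find_min hex hu' ⟨hu, h⟩
  set i := Nat.find hex
  have hin : ∀ u, 1 ≤ u → u ≤ i → (π ^ u) w ∈ O := by
    intro u hu
    induction u, hu using Nat.le_induction with
    | base => intro _; simpa using hw'
    | succ u hu ih =>
      intro h
      have := hO _ (ih (by omega))
      rwa [Perm.mul_apply, h1 _ (hmin u hu (by omega)), ← pow_succ_apply] at this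
  have hlt : ∀ u v, 1 ≤ u → u < v → v ≤ i → (π ^ u) w ≠ (π ^ v) w := by
    intro u v hu huv hv e
    obtain ⟨t, rfl⟩ := Nat.exists_eq_add_of_lt huv
    rw [add_assoc, pow_add, Perm.mul_apply] at e
    exact hmin (t + 1) (by omega) (by omega) ((π ^ u).injective e ▸ hw)
  have hi : i ≤ n0 := by
    refine le_trans ?_ hc
    have := card_le_card_of_injOn (s := Icc 1 i) (t := O) (fun u => (π ^ u) w)
      (fun u hu => by
        have := mem_Icc.1 (mem_coe.1 hu)
        exact mem_coe.2 (hin u this.1 this.2))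
      (fun u hu v hv e => by
        have a := mem_Icc.1 (mem_coe.1 hu)
        have b := mem_Icc.1 (mem_coe.1 hv)
        rcases lt_trichotomy u v with h | h | h
        · exact absurd e (hlt u v a.1 h b.2)
        · exact h
        · exact absurd e.symm (hlt v u b.1 h a.2))
    simpa using this
  have hfix : w = (π ^ i) w := h3 w hw _ i2 ⟨i, hi, Or.inl rfl⟩
  refine ⟨hfix ▸ hin i i1 le_rfl, ?_⟩
  obtain ⟨b, hb, hbD⟩ := h5 ((Icc 1 i).image fun u => (π ^ u) w)
    ⟨_, mem_image.2 ⟨1, mem_Icc.2 ⟨le_rfl, i1⟩, rfl⟩⟩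
    (fun z hz => by
      obtain ⟨u, hu, rfl⟩ := mem_image.1 hz
      have a := mem_Icc.1 hu
      rcases a.2.eq_or_lt with h | h
      · exact mem_image.2 ⟨1, mem_Icc.2 ⟨le_rfl, i1⟩, by rw [h, ← hfix, pow_one]⟩
      · exact mem_image.2 ⟨u + 1, mem_Icc.2 ⟨by omega, h⟩, pow_succ_apply π u w⟩)
    (card_image_le.trans (by simpa using hi))
  obtain ⟨u, hu, rfl⟩ := mem_image.1 hb
  have a := mem_Icc.1 hu
  exact ⟨_, hin u a.1 a.2, hbD, fun h => (h3 w hw _ h ⟨u, a.2.trans hi, Or.inl rfl⟩).symm⟩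

/-- At most one point leaves `Z`. -/
def One (π : Perm V) (Z : Finset V) : Prop := ∀ z ∈ Z, ∀ z' ∈ Z, π z ∉ Z → π z' ∉ Z → z = z'

theorem exists_zone (π : Perm V) (m : ℕ) (hm : m ≤ Fintype.card V) :
    ∃ Z : Finset V, #Z = m ∧ One π Z ∧ One π⁻¹ Z := by
  induction m with
  | zero => exact ⟨∅, rfl, fun z hz => by simp at hz, fun z hz => by simp at hz⟩
  | succ m ih =>
    obtain ⟨Z, hZ, o1, o2⟩ := ih (by omega)
    by_cases h : ∃ z ∈ Z, π z ∉ Z
    · obtain ⟨e, he, he'⟩ := h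
      have k1 : ∀ z ∈ insert (π e) Z, π z ∉ insert (π e) Z → z = π e := by
        intro z hz hz'
        rw [mem_insert, not_or] at hz'
        rcases mem_insert.1 hz with h | h
        · exact h
        · exact absurd (congrArg π (o1 z h e he hz'.2 he')) hz'.1
      have k2 : ∀ z ∈ insert (π e) Z, π⁻¹ z ∉ insert (π e) Z → z ∈ Z ∧ π⁻¹ z ∉ Z := by
        intro z hz hz'
        rw [mem_insert, not_or] at hz'
        rcases mem_insert.1 hz with h | h
        · rw [h] at hz'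
          exact absurd (by simpa using he) hz'.2
        · exact ⟨h, hz'.2⟩
      exact ⟨insert (π e) Z, by rw [card_insert_of_notMem he', hZ],
        fun z hz z' hz' a b => (k1 z hz a).trans (k1 z' hz' b).symm,
        fun z hz z' hz' a b => o2 z (k2 z hz a).1 z' (k2 z' hz' b).1 (k2 z hz a).2 (k2 z' hz' b).2⟩
    · push Not at h
      obtain ⟨v, hv⟩ : ∃ v, v ∉ Z := by
        by_contra hc
        push Not at hc
        rw [eq_univ_of_forall hc, card_univ] at hZ
        omega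
      have h' : ∀ z ∈ Z, π⁻¹ z ∈ Z := fun z hz => cl_inv h (by simpa using hz)
      have k : ∀ ρ : Perm V, (∀ z ∈ Z, ρ z ∈ Z) → One ρ (insert v Z) := by
        intro ρ hρ
        have : ∀ z ∈ insert v Z, ρ z ∉ insert v Z → z = v := fun z hz hz' =>
          (mem_insert.1 hz).resolve_right fun h => hz' (mem_insert_of_mem (hρ z h))
        exact fun z hz z' hz' a b => (this z hz a).trans (this z' hz' b).symm
      exact ⟨insert v Z, by rw [card_insert_of_notMem hv, hZ], k π h, k π⁻¹ h'⟩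

theorem exit (π : Perm V) {Z : Finset V} {x : V} (hx : x ∈ Z) (i : ℕ) (h : (π ^ i) x ∉ Z) :
    ∃ e ∈ Z, π e ∉ Z ∧ ∃ j, 1 ≤ j ∧ j ≤ i ∧ (π ^ j) e = (π ^ i) x := by
  induction i with
  | zero => exact absurd hx h
  | succ i ih =>
    by_cases h' : (π ^ i) x ∈ Z
    · exact ⟨_, h', by rwa [← pow_succ_apply], 1, le_rfl, by omega, by
        rw [pow_one, pow_succ_apply]⟩
    · obtain ⟨e, he, he', j, j1, j2, j3⟩ := ih h'
      exact ⟨e, he, he', j + 1, by omega, by omega, by rw [pow_succ_apply, j3, pow_succ_apply]⟩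

theorem shadow {π : Perm V} {Z : Finset V} (h : One π Z) (n0 : ℕ) :
    ∃ A : Finset V, #A ≤ n0 ∧ ∀ x ∈ Z, ∀ i ≤ n0, (π ^ i) x ∉ Z → (π ^ i) x ∈ A := by
  by_cases hex : ∃ e ∈ Z, π e ∉ Z
  · obtain ⟨e, he, he'⟩ := hex
    refine ⟨(Icc 1 n0).image fun j => (π ^ j) e, card_image_le.trans (by simp),
      fun x hx i hi hn => ?_⟩
    obtain ⟨e', a, b, j, j1, j2, j3⟩ := exit π hx i hn
    rw [h e' a e he b he'] at j3
    exact mem_image.2 ⟨j, mem_Icc.2 ⟨j1, j2.trans hi⟩, j3⟩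
  · refine ⟨∅, by simp, fun x hx i _ hn => ?_⟩
    obtain ⟨e', a, b, -⟩ := exit π hx i hn
    exact absurd ⟨e', a, b⟩ hex

theorem cross {π σ : Perm V} {T : Finset V} (hT : Cl (π * σ) T) {x : V} (hx : x ∈ T)
    (hu : ∀ y, π.SameCycle (σ x) y → σ y ≠ y → y = σ x) : σ x ∈ T := by
  by_contra hc
  have key : ∀ k : ℕ, (π ^ (k + 1)) (σ x) ∈ T := by
    intro k
    induction k with
    | zero => simpa using hT x hx
    | succ k ih =>
      have hf : σ ((π ^ (k + 1)) (σ x)) = (π ^ (k + 1)) (σ x) := by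
        by_contra hm
        exact hc (hu _ ⟨(k + 1 : ℕ), by rw [zpow_natCast]⟩ hm ▸ ih)
      have := hT _ ih
      rwa [Perm.mul_apply, hf, ← pow_succ_apply] at this
  have := key (orderOf π - 1)
  rw [Nat.sub_add_cancel (orderOf_pos π), pow_orderOf_eq_one] at this
  exact hc this

end Surg

open Surg

theorem surg : S_SURG := by
  intro V _ _ π σ n0 S D a h1 h2 h3 h4 h5 O hne hO hc
  by_cases hx : ∃ x ∈ O, x ∈ S
  · obtain ⟨x, hxO, hxS⟩ := hx
    have hσ : ∀ z ∈ S, σ z ∈ S := fun z hz => by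
      by_contra h
      exact h2 z hz (σ.injective (h1 _ h))
    obtain ⟨hw, b, b1, b2, b3⟩ := arc h1 h3 h5 hO hc (hσ x hxS) (hO x hxO)
    obtain ⟨-, b', b1', b2', b3'⟩ := arc h1 h3 h5 hO hc (hσ _ (hσ x hxS)) (hO _ hw)
    by_cases hb : b ∈ S
    · by_cases hb' : b' ∈ S
      · exact absurd (by rw [← b3' hb', ← b3 hb, h4 b hb b2, h4 b' hb' b2'])
          (h2 _ (hσ x hxS))
      · exact ⟨b', b1', b2', hb'⟩
    · exact ⟨b, b1, b2, hb⟩
  · push Not at hx
    obtain ⟨b, b1, b2⟩ := h5 O hne (fun z hz => by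
      have := hO z hz
      rwa [Perm.mul_apply, h1 z (hx z hz)] at this) hc
    exact ⟨b, b1, b2, hx b b1⟩

theorem zone : S_ZONE := by
  classical
  intro V _ _ π n0
  refine ⟨fun x => ?_, ?_⟩
  · refine le_trans (card_le_card (t := ((range (n0 + 1)).image fun i => (π ^ i) x) ∪
      (range (n0 + 1)).image fun i => (π ^ i)⁻¹ x) fun y hy => ?_) ?_
    · obtain ⟨i, hi, h | h⟩ := (mem_filter.1 hy).2
      · exact mem_union_left _ (mem_image.2 ⟨i, mem_range.2 (by omega), h⟩)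
      · exact mem_union_right _ (mem_image.2 ⟨i, mem_range.2 (by omega), by simp [← h]⟩)
    · refine (card_union_le _ _).trans ((add_le_add card_image_le card_image_le).trans ?_)
      simp only [card_range]
      omega
  · obtain ⟨Z, hZ, o1, o2⟩ := exists_zone π (Fintype.card V / 2) (Nat.div_le_self _ _)
    obtain ⟨A, hA, a⟩ := shadow o1 n0
    obtain ⟨B, hB, b⟩ := shadow o2 n0
    refine ⟨Z, (Z ∪ (A ∪ B))ᶜ, by omega, ?_, ?_⟩
    · have h1 := card_compl (Z ∪ (A ∪ B))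
      have h2 := card_union_le Z (A ∪ B)
      have h3 := card_union_le A B
      omega
    · rintro x hx y hy ⟨i, hi, h | h⟩
      all_goals simp only [mem_compl, mem_union, not_or] at hy
      · exact hy.2.1 (h ▸ a x hx i hi (h ▸ hy.1))
      · have h' : (π⁻¹ ^ i) x = y := by simp [← h]
        exact hy.2.2 (h' ▸ b x hx i hi (h' ▸ hy.1))

theorem merge : S_MERGE := by
  intro V _ _ π σ r h1 h2 h3 S hne hS
  have hS' : Cl (π * σ) Sᶜ := fun z hz => mem_compl.2 fun h => mem_compl.1 hz (cl_inv hS h)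
  have hmv : ∀ z, σ z ≠ z → σ (σ z) ≠ σ z := fun z hz h => hz (σ.injective h)
  have k1 : ∀ T, Cl (π * σ) T → ∀ x ∈ T, σ x ≠ x → π.SameCycle r x → σ x ∈ T := by
    intro T hT x hx hm hr
    have hn : ¬ π.SameCycle r (σ x) := fun h => h2 x hm ⟨fun _ => h, fun _ => hr⟩
    exact cross hT hx fun y a b =>
      (h3 _ hn).unique ⟨a, b⟩ ⟨Perm.SameCycle.refl _ _, hmv x hm⟩
  have k0 : ∀ x, σ x ≠ x → ¬ π.SameCycle r x → π.SameCycle r (σ x) := fun x hm hr => by
    by_contra h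
    exact h2 x hm ⟨fun a => absurd a hr, fun a => absurd a h⟩
  have k2 : ∀ x ∈ S, σ x ∈ S := by
    intro x hx
    by_cases hm : σ x = x
    · rwa [hm]
    by_cases hr : π.SameCycle r x
    · exact k1 S hS x hx hm hr
    · by_contra hc
      have := k1 _ hS' (σ x) (mem_compl.2 hc) (hmv x hm) (k0 x hm hr)
      rw [h1] at this
      exact mem_compl.1 this hx
  have k3 : Cl π S := fun z hz => by
    have := hS _ (k2 z hz)
    rwa [Perm.mul_apply, h1] at this
  have k4 : ∀ z, ¬ π.SameCycle r z → ∃ y, π.SameCycle z y ∧ π.SameCycle r (σ y) := by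
    intro z hz
    obtain ⟨y, ⟨a, b⟩, -⟩ := h3 z hz
    exact ⟨y, a, k0 y b fun h => hz (h.trans a.symm)⟩
  have hr : r ∈ S := by
    obtain ⟨z, hz⟩ := hne
    by_cases h : π.SameCycle r z
    · exact cl_cycle k3 hz h.symm
    · obtain ⟨y, a, b⟩ := k4 z h
      exact cl_cycle k3 (k2 _ (cl_cycle k3 hz a)) b.symm
  refine eq_univ_of_forall fun z => ?_
  by_cases h : π.SameCycle r z
  · exact cl_cycle k3 hr h
  · obtain ⟨y, a, b⟩ := k4 z h
    have := k2 _ (cl_cycle k3 hr b)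
    rw [h1] at this
    exact cl_cycle k3 this a.symm

end Pool.Agent.P.MP_de899d_pr
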