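import Pool.Agent.P.MP_de899d_pr.Defs2
import Pool.Agent.P.MP_de899d_pr.Fact
import Pool.Agent.P.MP_de899d_pr.Surg

/-! Small tools shared by the middle and the dense range. -/

set_option linter.unusedSectionVars false
set_option linter.unusedVariables false

namespace Pool.Agent.P.MP_de899d_pr
open Finset Equiv

/-- Choosing compatible objects one after the other. -/
theorem seq_choice {I α : Type} [Fintype I] [DecidableEq I] [Nonempty α] (P : I → α → Prop)
    (C : I → α → I → α → Prop) (hs : ∀ i a j b, C i a j b → C j b i a)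
    (h : ∀ (i : I) (S : Finset I) (g : I → α), i ∉ S → (∀ j ∈ S, P j (g j)) →
      ∃ a, P i a ∧ ∀ j ∈ S, C i a j (g j)) :
    ∃ g : I → α, (∀ i, P i (g i)) ∧ ∀ i j, i ≠ j → C i (g i) j (g j) := by
  suffices ∀ S : Finset I, ∃ g : I → α, (∀ i ∈ S, P i (g i)) ∧
      ∀ i ∈ S, ∀ j ∈ S, i ≠ j → C i (g i) j (g j) by
    obtain ⟨g, h1, h2⟩ := this univ
    exact ⟨g, fun i => h1 i (mem_univ _), fun i j => h2 i (mem_univ _) j (mem_univ _)⟩
  intro S
  induction S using Finset.induction_on with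
  | empty => exact ⟨fun _ => Classical.arbitrary α, by simp, by simp⟩
  | insert i S hi ih =>
    obtain ⟨g, h1, h2⟩ := ih
    obtain ⟨a, h3, h4⟩ := h i S g hi h1
    have e : ∀ j ∈ S, Function.update g i a j = g j := fun j hj =>
      Function.update_of_ne (ne_of_mem_of_not_mem hj hi) _ _
    refine ⟨Function.update g i a, fun j hj => ?_, fun j hj l hl hjl => ?_⟩
    · rcases mem_insert.mp hj with rfl | hj
      · simpa using h3
      · rw [e j hj]; exact h1 j hj
    · rcases mem_insert.mp hj with rfl | hj' <;> rcases mem_insert.mp hl with rfl | hl'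
      · exact absurd rfl hjl
      · rw [e l hl', Function.update_self]; exact h4 l hl'
      · rw [e j hj', Function.update_self]; exact hs _ _ _ _ (h4 j hj')
      · rw [e j hj', e l hl']; exact h2 j hj' l hl' hjl

variable {V : Type} [Fintype V] [DecidableEq V]

theorem mem_fib {κ : Type} [DecidableEq κ] {c : V → κ} {a : κ} {x : V} : x ∈ fib c a ↔ c x = a := by
  simp [fib]

/-- A permutation that matches the classes. -/
theorem exists_perm_fib {κ : Type} [DecidableEq κ] (c c' : V → κ)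
    (h : ∀ a, #(fib c a) = #(fib c' a)) : ∃ π : Perm V, ∀ x, c' (π x) = c x :=
  ⟨Equiv.ofFiberEquiv fun a => Fintype.equivOfCardEq (by
      simpa [Fintype.card_subtype, fib] using h a), fun x => Equiv.ofFiberEquiv_map _ x⟩

theorem cl_compl {π : Perm V} {S : Finset V} (h : Cl π S) : Cl π Sᶜ :=
  fun z hz => mem_compl.2 fun h' => mem_compl.1 hz (Surg.cl_inv h h')

theorem ham_of_thru {π : Perm V} {W : Finset V} (h : Thru π W)
    (h' : ∀ S : Finset V, S.Nonempty → Cl π S → ∃ w ∈ W, w ∈ S) : Ham π := by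
  intro S hS hc
  obtain ⟨w, hw, hwS⟩ := h' S hS hc
  by_contra hne
  obtain ⟨v, hv, hvS⟩ := h' Sᶜ (nonempty_iff_ne_empty.mpr fun h => hne (by simpa using h))
    (cl_compl hc)
  exact mem_compl.mp hvS (h S hc w hw hwS hv)

theorem Thru.coarsen {π π' : Perm V} {W : Finset V} (h : Thru π W)
    (h' : ∀ S, Cl π' S → Cl π S) : Thru π' W := fun S hS => h S (h' S hS)

theorem eN_row1 (G : V × V → Prop) (x : V) : eN G {x} univ = rdeg G x := by simp [eN_univ]

theorem eN_col1 (G : V × V → Prop) (y : V) : eN G univ {y} = rdeg (tr G) y := by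
  rw [← eN_tr, eN_row1]

theorem eN_sub (G : V × V → Prop) {X X' Y Y' : Finset V} (h : X ⊆ X') (h' : Y ⊆ Y') :
    eN G X Y ≤ eN G X' Y' := by
  classical
  exact card_le_card (filter_subset_filter _ (product_subset_product h h'))

theorem eN_or_le {G G₁ G₂ : V × V → Prop} (h : ∀ e, G e → G₁ e ∨ G₂ e) (X Y : Finset V) :
    eN G X Y ≤ eN G₁ X Y + eN G₂ X Y := by
  classical
  refine le_trans (card_le_card fun e he => ?_) (card_union_le _ _)
  simp only [mem_filter, mem_union] at he ⊢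
  exact (h e he.2).imp (fun h => ⟨he.1, h⟩) fun h => ⟨he.1, h⟩

theorem eN_le_rows {Z : V × V → Prop} {r : ℕ} (h : ∀ x, rdeg Z x ≤ r) (X Y : Finset V) :
    eN Z X Y ≤ r * #X := by
  refine (eN_sub Z (Subset.refl X) (subset_univ Y)).trans ?_
  rw [eN_univ, mul_comm]
  exact sum_le_card_nsmul _ _ _ fun x _ => h x

theorem eN_le_cols {Z : V × V → Prop} {r : ℕ} (h : ∀ y, rdeg (tr Z) y ≤ r) (X Y : Finset V) :
    eN Z X Y ≤ r * #Y := eN_tr Z X Y ▸ eN_le_rows h Y X

theorem Den.mono {R R' : V × V → Prop} {q q' β β' : ℕ} (h : Den R q β) (h1 : ∀ e, R e → R' e)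
    (h2 : q ≤ q') (h3 : β ≤ β') : Den R' q' β' := fun X Y hX hY =>
  (h X Y (h3.trans hX) (h3.trans hY)).trans (Nat.mul_le_mul h2 (eN_mono h1 X Y))

/-- The inequality behind `Den.remove`, for one pair of sets. -/
theorem den_remove {R R' Z : V × V → Prop} {q r : ℕ} {X Y : Finset V}
    (h : #X * #Y ≤ q * eN R X Y) (h1 : ∀ e, R e → R' e ∨ Z e) (hZ : ∀ x, rdeg Z x ≤ r)
    (h2 : 2 * q * r ≤ #Y) : #X * #Y ≤ 2 * q * eN R' X Y := by
  have h3 := Nat.mul_le_mul_left q ((eN_or_le h1 X Y).trans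
    (Nat.add_le_add_left (eN_le_rows hZ X Y) _))
  have h4 := Nat.mul_le_mul_left #X h2
  nlinarith

theorem Den.remove {R R' Z : V × V → Prop} {q β r : ℕ} (h : Den R q β)
    (h1 : ∀ e, R e → R' e ∨ Z e) (hZ : ∀ x, rdeg Z x ≤ r) (h2 : 2 * q * r ≤ β) :
    Den R' (2 * q) β := fun X Y hX hY => den_remove (h X Y hX hY) h1 hZ (h2.trans hY)

theorem DegIn.remove {R R' Z : V × V → Prop} {Q : Finset V} {δ r : ℕ} (h : DegIn R Q (δ + r))
    (h1 : ∀ e, R e → R' e ∨ Z e) (hZ : ∀ x, rdeg Z x ≤ r) (hZ' : ∀ y, rdeg (tr Z) y ≤ r) :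
    DegIn R' Q δ := fun x => by
  have h2 := eN_or_le h1 {x} Q
  have h3 := eN_or_le h1 Q {x}
  have h4 := eN_le_rows hZ {x} Q
  have h5 := eN_le_cols hZ' Q {x}
  have h6 := h x
  rw [card_singleton] at h4 h5
  omega

theorem rdeg_le_of {G G' : V × V → Prop} (h : ∀ e, G e → G' e) (x : V) : rdeg G x ≤ rdeg G' x := by
  rw [← eN_row1, ← eN_row1]; exact eN_mono h _ _

theorem rdeg_or_le {G G₁ G₂ : V × V → Prop} (h : ∀ e, G e → G₁ e ∨ G₂ e) (x : V) :
    rdeg G x ≤ rdeg G₁ x + rdeg G₂ x := by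
  simp only [← eN_row1]; exact eN_or_le h _ _

/-- Degrees add over a disjoint union. -/
theorem rdeg_split {G G₁ G₂ : V × V → Prop} (h : ∀ e, G e ↔ G₁ e ∨ G₂ e)
    (h' : ∀ e, G₁ e → ¬ G₂ e) (x : V) : rdeg G x = rdeg G₁ x + rdeg G₂ x := by
  classical
  unfold rdeg
  rw [← card_union_of_disjoint (disjoint_filter.mpr fun y _ => h' _)]
  congr 1
  ext y
  simp [h]

theorem rdeg_tr_split {G G₁ G₂ : V × V → Prop} (h : ∀ e, G e ↔ G₁ e ∨ G₂ e)
    (h' : ∀ e, G₁ e → ¬ G₂ e) (y : V) : rdeg (tr G) y = rdeg (tr G₁) y + rdeg (tr G₂) y :=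
  rdeg_split (fun _ => h _) (fun _ => h' _) y

theorem tr_Gr {ι : Type} (H : ι → Perm V) : tr (Gr H) = Gr fun j => (H j)⁻¹ := by
  ext e
  simp only [tr, Gr, Prod.fst_swap, Prod.snd_swap, Perm.inv_eq_iff_eq]
  exact exists_congr fun j => eq_comm

theorem rdeg_Gr {ι : Type} [Fintype ι] (H : ι → Perm V) (x : V) :
    rdeg (Gr H) x = #(univ.image fun j => H j x) := by
  unfold rdeg
  congr 1
  ext y
  simp [Gr]

theorem rdeg_Gr_le {ι : Type} [Fintype ι] (H : ι → Perm V) (x : V) :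
    rdeg (Gr H) x ≤ Fintype.card ι ∧ rdeg (tr (Gr H)) x ≤ Fintype.card ι := by
  rw [tr_Gr, rdeg_Gr, rdeg_Gr]
  exact ⟨card_image_le, card_image_le⟩

theorem reg_Gr {ι : Type} [Fintype ι] {H : ι → Perm V} (h : ∀ i j, i ≠ j → ∀ x, H i x ≠ H j x) :
    Reg (Gr H) (Fintype.card ι) := by
  refine ⟨fun x => ?_, fun y => ?_⟩
  · rw [rdeg_Gr, card_image_of_injective _ fun i j hij => by_contra fun h' => h i j h' x hij,
      card_univ]
  · rw [tr_Gr, rdeg_Gr, card_image_of_injective _ fun i j hij => by_contra fun h' =>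
      h i j h' ((H i)⁻¹ y) (by
        have : (H i)⁻¹ y = (H j)⁻¹ y := hij
        conv_rhs => rw [this]
        simp), card_univ]

/-- A packing indexed by any finite type. -/
theorem tgt_of_family {ι : Type} [Fintype ι] {Γ : V × V → Prop} (H : ι → Perm V)
    (h1 : ∀ j, Ham (H j)) (h2 : ∀ i j, i ≠ j → ∀ x, H i x ≠ H j x) (h3 : ∀ j x, Γ (x, H j x)) :
    Tgt (Fintype.card ι) Γ :=
  ⟨fun j => H ((Fintype.equivFin ι).symm j), fun _ => h1 _,
    fun _ _ h => h2 _ _ ((Fintype.equivFin ι).symm.injective.ne h), fun _ => h3 _⟩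

theorem Tgt.le {k k' : ℕ} {Γ : V × V → Prop} (h : Tgt k Γ) (hk : k' ≤ k) : Tgt k' Γ := by
  obtain ⟨H, h1, h2, h3⟩ := h
  exact ⟨fun j => H (Fin.castLE hk j), fun _ => h1 _,
    fun _ _ h => h2 _ _ ((Fin.castLE_injective hk).ne h), fun _ => h3 _⟩

/-- Packings of pairwise disjoint subgraphs. -/
theorem tgt_sum {ι : Type} [Fintype ι] {Γ : V × V → Prop} (G : ι → V × V → Prop) (k : ι → ℕ)
    (h1 : ∀ i, Tgt (k i) (G i)) (h2 : ∀ i j e, G i e → G j e → i = j) (h3 : ∀ i e, G i e → Γ e) :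
    Tgt (∑ i, k i) Γ := by
  choose H a b c using h1
  have := tgt_of_family (Γ := Γ) (fun p : Σ i, Fin (k i) => H p.1 p.2) (fun p => a _ _)
    (by
      rintro ⟨i, u⟩ ⟨j, v⟩ h x hx
      obtain rfl := h2 i j _ (c i u x) (hx ▸ c j v x)
      exact b i u v (fun h' => h (by rw [h'])) x hx) fun p x => h3 _ _ (c _ _ x)
  simpa using this

theorem Tgt.add {k k' : ℕ} {Γ G G' : V × V → Prop} (h : Tgt k G) (h' : Tgt k' G')
    (h2 : ∀ e, G e → ¬ G' e) (h3 : ∀ e, G e → Γ e) (h4 : ∀ e, G' e → Γ e) : Tgt (k + k') Γ := by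
  have := tgt_sum (Γ := Γ) (fun b : Bool => cond b G G') (fun b => cond b k k')
    (by rintro (_ | _) <;> assumption)
    (by
      rintro (_ | _) (_ | _) e a b
      · rfl
      · exact absurd a (h2 e b)
      · exact absurd b (h2 e a)
      · rfl) (by rintro (_ | _) <;> assumption)
  simpa using this

/-- The hypotheses of `S_EXT` from density and degrees into a fixed set. -/
theorem ext_nice (hext : S_EXT) (π₀ : Perm V) (W Q : Finset V) (R : V × V → Prop) {q β : ℕ}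
    (hβ : 0 < β) (hD : Den R q β) (hQ : DegIn R Q (10 * β)) (h1 : Q ⊆ W) (h2 : Q ⊆ W.image π₀)
    (h3 : 16 * q * β ≤ #W) :
    ∃ π : Perm V, (∀ x, x ∉ W → π x = π₀ x) ∧ (∀ x ∈ W, R (x, π x)) ∧ Thru π W ∧
      W.image π = W.image π₀ ∧ ∀ S, Cl π S → Cl π₀ S :=
  hext V π₀ W R β hβ (fun x _ => (hQ x).1.trans (eN_sub R (Subset.refl _) h2))
    (fun y _ => (hQ y).2.trans (eN_sub R h1 (Subset.refl _))) fun X Y _ _ hX hY =>
      (Nat.mul_le_mul_left _ (hD X Y hX hY)).trans (by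
        have := Nat.mul_le_mul_right (eN R X Y) h3
        nlinarith)

end Pool.Agent.P.MP_de899d_pr
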