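import Pool.Agent.P.MP_de899d_pr.Defs

/-! Low rows and a binomial threshold. -/

set_option linter.unusedSectionVars false

namespace Pool.Agent.P.MP_de899d_pr
open Finset

section indep
variable {ι α : Type*} [Fintype ι] [DecidableEq ι] [Fintype α] [Nonempty α]

theorem Pr_indep (A : ι → Prop) (E F : (ι → α) → Prop)
    (hE : ∀ ω ω', E (splice A ω ω') ↔ E ω) (hF : ∀ ω ω', F (splice A ω ω') ↔ F ω') :
    Pr (fun ω => E ω ∧ F ω) = Pr E * Pr F := by
  classical
  rw [Pr_splice A]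
  have h : ∀ ω, Pr (fun ω' => E (splice A ω ω') ∧ F (splice A ω ω')) =
      (if E ω then 1 else 0) * Pr F := by
    intro ω
    by_cases hω : E ω
    · rw [if_pos hω, one_mul]
      exact Pr_congr fun ω' => by rw [hE, hF]; simp [hω]
    · rw [if_neg hω, zero_mul]
      exact Pr_false fun ω' h => hω ((hE _ _).1 h.1)
  simp only [h]
  rw [Ex_mul']
  congr

theorem Pr_one (i : ι) (E : α → Prop) : Pr (fun ω : ι → α => E (ω i)) = Pr E := by
  have := Pr_forall (α := α) {i} fun _ => E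
  simpa using this

theorem Pr_two {i j : ι} (h : i ≠ j) (E F : α → Prop) :
    Pr (fun ω : ι → α => E (ω i) ∧ F (ω j)) = Pr E * Pr F := by
  rw [Pr_indep (fun t => t = i) (fun ω => E (ω i)) (fun ω => F (ω j)), Pr_one, Pr_one]
  · intro ω ω'
    rw [splice_in (A := fun t => t = i) ω ω' rfl]
  · intro ω ω'
    rw [splice_out (A := fun t => t = i) ω ω' h.symm]

theorem Pr_three {i j k : ι} (hj : i ≠ j) (hk : i ≠ k) (hjk : j ≠ k) (E F G : α → Prop) :
    Pr (fun ω : ι → α => E (ω i) ∧ F (ω j) ∧ G (ω k)) = Pr E * (Pr F * Pr G) := by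
  rw [Pr_indep (fun t => t = i) (fun ω => E (ω i)) (fun ω => F (ω j) ∧ G (ω k)), Pr_one,
    Pr_two hjk]
  · intro ω ω'
    rw [splice_in (A := fun t => t = i) ω ω' rfl]
  · intro ω ω'
    rw [splice_out (A := fun t => t = i) ω ω' hj.symm,
      splice_out (A := fun t => t = i) ω ω' hk.symm]

/-- a low row with prescribed marked entries -/
theorem row_le (P' P'' : α → Prop) (a : ℕ) {q : ℝ} (hp : Pr P' ≤ 1 / 4)
    (hq : Pr (fun r : ι → α => cnt univ (fun _ => P') r ≤ a) ≤ q) (S : Finset ι) (hS : #S ≤ 2) :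
    Pr (fun r : ι → α => cnt univ (fun _ => P') r ≤ a ∧ ∀ y ∈ S, P'' (r y)) ≤
      2 * Pr P'' ^ #S * q := by
  classical
  have key : ∀ Q : α → Prop, Pr (fun r : ι → α => (∀ y ∈ S, Q (r y)) ∧
      cnt (univ \ S) (fun _ => P') r ≤ a) =
      Pr Q ^ #S * Pr (fun r : ι → α => cnt (univ \ S) (fun _ => P') r ≤ a) := by
    intro Q
    rw [Pr_indep (fun t => t ∈ S) (fun r => ∀ y ∈ S, Q (r y))
      (fun r => cnt (univ \ S) (fun _ => P') r ≤ a), Pr_forall S fun _ => Q, prod_const]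
    · intro ω ω'
      exact forall₂_congr fun y hy => by rw [splice_in (A := fun t => t ∈ S) ω ω' hy]
    · intro ω ω'
      have : cnt (univ \ S) (fun _ => P') (splice (fun t => t ∈ S) ω ω') =
          cnt (univ \ S) (fun _ => P') ω' := by
        unfold cnt
        congr 1
        exact filter_congr fun y hy => by
          rw [splice_out (A := fun t => t ∈ S) ω ω' (mem_sdiff.1 hy).2]
      rw [this]
  set C := Pr (fun r : ι → α => cnt (univ \ S) (fun _ => P') r ≤ a) with hC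
  have hC0 : 0 ≤ C := Pr_nonneg _
  have h1 : Pr (fun r : ι → α => cnt univ (fun _ => P') r ≤ a ∧ ∀ y ∈ S, P'' (r y)) ≤
      Pr P'' ^ #S * C := by
    rw [← key]
    refine Pr_mono fun r hr => ⟨hr.2, le_trans ?_ hr.1⟩
    exact card_le_card (filter_subset_filter _ sdiff_subset)
  have h2 : (1 - Pr P') ^ #S * C ≤ q := by
    rw [← Pr_not, ← key]
    refine le_trans (Pr_mono fun r hr => le_trans (card_le_card fun y hy => ?_) hr.2) hq
    rw [mem_filter] at hy ⊢
    exact ⟨mem_sdiff.2 ⟨mem_univ _, fun h => hr.1 y h hy.2⟩, hy.2⟩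
  have h3 : (1 / 2 : ℝ) ≤ (1 - Pr P') ^ #S := by
    have h0 := Pr_nonneg P'
    calc (1 / 2 : ℝ) ≤ (3 / 4) ^ 2 := by norm_num
      _ ≤ (1 - Pr P') ^ 2 := pow_le_pow_left₀ (by norm_num) (by linarith) _
      _ ≤ (1 - Pr P') ^ #S := pow_le_pow_of_le_one (by linarith) (by linarith) hS
  have h4 : C ≤ 2 * q := by nlinarith
  have h5 : 0 ≤ Pr P'' ^ #S := pow_nonneg (Pr_nonneg _) _
  calc _ ≤ Pr P'' ^ #S * C := h1
    _ ≤ Pr P'' ^ #S * (2 * q) := mul_le_mul_of_nonneg_left h4 h5
    _ = _ := by ring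

end indep

theorem stat1 : S_STAT1 := by
  intro V A _ _ _ _ P' P'' a s q _ hp hs hq
  classical
  have hq0 : 0 ≤ q := (Pr_nonneg _).trans hq
  have hp0 : 0 ≤ Pr P'' := Pr_nonneg _
  have hlow : ∀ (R : V → V → A) (x : V), x ∈ low (fun e => P' (R e.1 e.2)) a ↔
      cnt univ (fun _ => P') (R x) ≤ a := by
    intro R x
    unfold low rdeg cnt
    rw [mem_filter]
    simp only [mem_univ, true_and]
  have hone : ∀ y : V, Pr (fun r : V → A => cnt univ (fun _ => P') r ≤ a ∧ P'' (r y)) ≤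
      2 * Pr P'' * q := by
    intro y
    have := row_le P' P'' a hp hq {y} (by simp)
    simpa using this
  have htwo : ∀ y y' : V, y ≠ y' →
      Pr (fun r : V → A => cnt univ (fun _ => P') r ≤ a ∧ P'' (r y) ∧ P'' (r y')) ≤
        2 * Pr P'' ^ 2 * q := by
    intro y y' h
    have := row_le P' P'' a hp hq {y, y'} card_le_two
    rw [card_pair h] at this
    simpa using this
  refine ⟨?_, ?_, ?_⟩
  · refine le_trans (Pr_curry fun R : V → V → A => ¬ PA (fun e => P' (R e.1 e.2)) a s).le ?_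
    have hs' : (0 : ℝ) < s := by exact_mod_cast hs
    refine le_trans (Pr_mono (E' := fun R : V → V → A => (s : ℝ) ≤
      (cnt univ (fun _ r => cnt univ (fun _ => P') r ≤ a) R : ℝ)) fun R hR => ?_)
      ((Pr_le_div (fun R => Nat.cast_nonneg _) hs').trans ?_)
    · have h1 : s < #(low (fun e => P' (R e.1 e.2)) a) := not_le.1 hR
      have h2 : #(low (fun e => P' (R e.1 e.2)) a) =
          cnt univ (fun _ r => cnt univ (fun _ => P') r ≤ a) R := by
        rw [cnt]
        congr 1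
        ext x
        simp only [hlow, mem_filter, mem_univ, true_and]
      rw [h2] at h1
      exact_mod_cast h1.le
    · rw [Ex_cnt]
      refine div_le_div_of_nonneg_right ?_ hs'.le
      rw [sum_const, card_univ, nsmul_eq_mul]
      exact mul_le_mul_of_nonneg_left hq (Nat.cast_nonneg _)
  · refine le_trans (Pr_curry fun R : V → V → A =>
      ¬ PB1 (fun e => P' (R e.1 e.2)) (fun e => P'' (R e.1 e.2)) a 1).le ?_
    refine le_trans (Pr_mono (E' := fun R : V → V → A => ∃ t : V × V × V, t.2.1 ≠ t.2.2 ∧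
      (cnt univ (fun _ => P') (R t.2.1) ≤ a ∧ P'' (R t.2.1 t.1)) ∧
      (cnt univ (fun _ => P') (R t.2.2) ≤ a ∧ P'' (R t.2.2 t.1))) fun R hR => ?_)
      ((Pr_exists_univ _ (δ := (2 * Pr P'' * q) ^ 2) fun t => ?_).trans (le_of_eq ?_))
    · unfold PB1 at hR
      push Not at hR
      obtain ⟨y, hy⟩ := hR
      obtain ⟨x1, h1, x2, h2, hne⟩ := one_lt_card.1 hy
      rw [mem_filter, hlow] at h1 h2
      exact ⟨(y, x1, x2), hne, h1, h2⟩
    · by_cases h : t.2.1 = t.2.2
      · rw [Pr_false fun R hR => hR.1 h]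
        positivity
      · refine le_trans (Pr_mono fun R hR => hR.2) ?_
        rw [Pr_two h (fun r : V → A => cnt univ (fun _ => P') r ≤ a ∧ P'' (r t.1))
          (fun r : V → A => cnt univ (fun _ => P') r ≤ a ∧ P'' (r t.1)), sq]
        exact mul_le_mul (hone _) (hone _) (Pr_nonneg _) (by positivity)
    · simp only [Fintype.card_prod]
      push_cast
      ring
  · refine le_trans (Pr_curry fun R : V → V → A =>
      ¬ PB2 (fun e => P' (R e.1 e.2)) (fun e => P'' (R e.1 e.2)) a).le ?_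
    refine le_trans (Pr_le_add
      (E₁ := fun R : V → V → A => ∃ t : (V × V × V) × V × V,
        (t.1.1 ≠ t.1.2.1 ∧ t.1.1 ≠ t.1.2.2 ∧ t.1.2.1 ≠ t.1.2.2 ∧ t.2.1 ≠ t.2.2) ∧
        (P'' (R t.1.1 t.2.1) ∧ P'' (R t.1.1 t.2.2)) ∧
        (cnt univ (fun _ => P') (R t.1.2.1) ≤ a ∧ P'' (R t.1.2.1 t.2.1)) ∧
        (cnt univ (fun _ => P') (R t.1.2.2) ≤ a ∧ P'' (R t.1.2.2 t.2.2)))
      (E₂ := fun R : V → V → A => ∃ t : (V × V) × V × V,
        (t.1.1 ≠ t.1.2 ∧ t.2.1 ≠ t.2.2) ∧
        (P'' (R t.1.1 t.2.1) ∧ P'' (R t.1.1 t.2.2)) ∧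
        (cnt univ (fun _ => P') (R t.1.2) ≤ a ∧ P'' (R t.1.2 t.2.1) ∧ P'' (R t.1.2 t.2.2)))
      fun R hR => ?_) (add_le_add
        ((Pr_exists_univ _ (δ := Pr P'' ^ 2 * (2 * Pr P'' * q) ^ 2) fun t => ?_).trans
          (le_of_eq ?_))
        ((Pr_exists_univ _ (δ := Pr P'' ^ 2 * (2 * Pr P'' ^ 2 * q)) fun t => ?_).trans
          (le_of_eq ?_)))
    · unfold PB2 at hR
      push Not at hR
      obtain ⟨x, hx, hy⟩ := hR
      obtain ⟨y1, h1, y2, h2, hne⟩ := one_lt_card.1 hy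
      rw [mem_filter] at h1 h2
      obtain ⟨-, h1, x1, hx1, h1'⟩ := h1
      obtain ⟨-, h2, x2, hx2, h2'⟩ := h2
      have n1 : x ≠ x1 := fun h => hx (h ▸ hx1)
      have n2 : x ≠ x2 := fun h => hx (h ▸ hx2)
      rw [hlow] at hx1 hx2
      by_cases h : x1 = x2
      · subst h
        exact Or.inr ⟨((x, x1), y1, y2), ⟨n1, hne⟩, ⟨h1, h2⟩, hx1, h1', h2'⟩
      · exact Or.inl ⟨((x, x1, x2), y1, y2), ⟨n1, n2, h, hne⟩, ⟨h1, h2⟩, ⟨hx1, h1'⟩, hx2, h2'⟩
    · by_cases h : t.1.1 ≠ t.1.2.1 ∧ t.1.1 ≠ t.1.2.2 ∧ t.1.2.1 ≠ t.1.2.2 ∧ t.2.1 ≠ t.2.2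
      · refine le_trans (Pr_mono fun R hR => hR.2) ?_
        rw [Pr_three h.1 h.2.1 h.2.2.1 (fun r : V → A => P'' (r t.2.1) ∧ P'' (r t.2.2))
          (fun r : V → A => cnt univ (fun _ => P') r ≤ a ∧ P'' (r t.2.1))
          (fun r : V → A => cnt univ (fun _ => P') r ≤ a ∧ P'' (r t.2.2)),
          Pr_two h.2.2.2 P'' P'', sq, sq]
        exact mul_le_mul_of_nonneg_left
          (mul_le_mul (hone _) (hone _) (Pr_nonneg _) (by positivity)) (by positivity)
      · rw [Pr_false fun R hR => h hR.1]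
        positivity
    · simp only [Fintype.card_prod]
      push_cast
      ring
    · by_cases h : t.1.1 ≠ t.1.2 ∧ t.2.1 ≠ t.2.2
      · refine le_trans (Pr_mono fun R hR => hR.2) ?_
        rw [Pr_two h.1 (fun r : V → A => P'' (r t.2.1) ∧ P'' (r t.2.2))
          (fun r : V → A => cnt univ (fun _ => P') r ≤ a ∧ P'' (r t.2.1) ∧ P'' (r t.2.2)),
          Pr_two h.2 P'' P'', sq]
        exact mul_le_mul_of_nonneg_left (by simpa only [sq] using htwo _ _ h.2) (by positivity)
      · rw [Pr_false fun R hR => h hR.1]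
        positivity
    · simp only [Fintype.card_prod]
      push_cast
      ring

section binom
variable {ι α : Type*} [Fintype ι] [DecidableEq ι] [Fintype α] [Nonempty α]

theorem Pr_cnt_eq (P : α → Prop) (i : ℕ) :
    Pr (fun ω : ι → α => cnt univ (fun _ => P) ω = i) =
      (Fintype.card ι).choose i * (Pr P ^ i * (1 - Pr P) ^ (Fintype.card ι - i)) := by
  classical
  have h1 : Pr (fun ω : ι → α => cnt univ (fun _ => P) ω = i) =
      ∑ T ∈ powersetCard i (univ : Finset ι),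
        Pr (fun ω : ι → α => ∀ y ∈ univ, (P (ω y) ↔ y ∈ T)) := by
    unfold Pr
    rw [← Ex_sum]
    congr 1
    ext ω
    have h2 : ∀ T : Finset ι, (∀ y ∈ univ, (P (ω y) ↔ y ∈ T)) ↔
        T = univ.filter fun y => P (ω y) := by
      intro T
      rw [Finset.ext_iff]
      simp only [mem_univ, mem_filter, true_and, forall_const]
      exact forall_congr' fun y => Iff.comm
    simp only [h2]
    rw [sum_ite_eq']
    simp only [mem_powersetCard, subset_univ, true_and]
    unfold cnt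
    congr
  rw [h1, sum_congr rfl (g := fun _ => Pr P ^ i * (1 - Pr P) ^ (Fintype.card ι - i)), sum_const,
    card_powersetCard, card_univ, nsmul_eq_mul]
  intro T hT
  rw [Pr_forall univ fun y l => P l ↔ y ∈ T]
  have h3 : ∀ y, Pr (fun l => P l ↔ y ∈ T) = if y ∈ T then Pr P else 1 - Pr P := by
    intro y
    by_cases hy : y ∈ T
    · rw [if_pos hy]
      exact Pr_congr fun l => by simp [hy]
    · rw [if_neg hy, ← Pr_not]
      exact Pr_congr fun l => by simp [hy]
  simp only [h3]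
  rw [prod_ite, prod_const, prod_const, filter_mem_eq_inter, univ_inter, filter_not,
    filter_mem_eq_inter, univ_inter, card_univ_sdiff, (mem_powersetCard.1 hT).2]

theorem Pr_cnt_step (P : α → Prop) (i : ℕ) :
    (i + 1) * (1 - Pr P) * Pr (fun ω : ι → α => cnt univ (fun _ => P) ω = i + 1) ≤
      Pr P * Fintype.card ι * Pr (fun ω : ι → α => cnt univ (fun _ => P) ω = i) := by
  have h0 := Pr_nonneg P
  have h1 : 0 ≤ 1 - Pr P := sub_nonneg.2 (Pr_le_one P)
  rw [Pr_cnt_eq, Pr_cnt_eq]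
  set n := Fintype.card ι
  rcases le_or_gt n i with h | h
  · rw [Nat.choose_eq_zero_of_lt (by omega : n < i + 1)]
    simp only [Nat.cast_zero, zero_mul, mul_zero]
    positivity
  · obtain ⟨m, hm⟩ : ∃ m, n - i = m + 1 := ⟨n - i - 1, by omega⟩
    have h2 : (n.choose (i + 1) : ℝ) * (i + 1) = n.choose i * (m + 1) := by
      have := Nat.choose_succ_right_eq n i
      rw [hm] at this
      exact_mod_cast this
    have h3 : (m + 1 : ℝ) ≤ n := by exact_mod_cast (by omega : m + 1 ≤ n)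
    rw [hm, show n - (i + 1) = m by omega]
    calc (i + 1 : ℝ) * (1 - Pr P) * (n.choose (i + 1) * (Pr P ^ (i + 1) * (1 - Pr P) ^ m))
        = (n.choose (i + 1) : ℝ) * (i + 1) * (Pr P ^ (i + 1) * (1 - Pr P) ^ (m + 1)) := by ring
      _ = (m + 1) * (n.choose i * (Pr P ^ (i + 1) * (1 - Pr P) ^ (m + 1))) := by rw [h2]; ring
      _ ≤ n * (n.choose i * (Pr P ^ (i + 1) * (1 - Pr P) ^ (m + 1))) :=
          mul_le_mul_of_nonneg_right h3 (by positivity)
      _ = _ := by ring

end binom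

theorem binom : S_BINOM := by
  intro V A _ _ _ _ P b J q r hp hq hq1 hJ hr0 hr1 hr hb
  classical
  set m : ℝ := Pr P * Fintype.card V with hm
  have hm0 : 0 ≤ m := by positivity
  have hp1 : 0 ≤ 1 - Pr P := sub_nonneg.2 (Pr_le_one P)
  have hq' : q < 1 := by nlinarith
  obtain ⟨f, hf⟩ : ∃ f : ℕ → ℝ, ∀ i, f i = Pr (fun ω : V → A => cnt univ (fun _ => P) ω = i) :=
    ⟨_, fun _ => rfl⟩
  obtain ⟨F, hF⟩ : ∃ F : ℕ → ℝ, ∀ i, F i = Pr (fun ω : V → A => cnt univ (fun _ => P) ω ≤ i) :=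
    ⟨_, fun _ => rfl⟩
  have hf0 : ∀ i, 0 ≤ f i := fun i => hf i ▸ Pr_nonneg _
  have hFn : ∀ i, Fintype.card V ≤ i → F i = 1 := by
    intro i hi
    have h1 := Pr_not (fun ω : V → A => cnt univ (fun _ => P) ω ≤ i)
    rw [Pr_false fun ω h => h (le_trans (card_le_univ _) hi)] at h1
    rw [hF]
    linarith
  have hex : ∃ a, b ≤ a ∧ q < F (a + 1) :=
    ⟨b + Fintype.card V, by omega, by rw [hFn _ (by omega)]; exact hq'⟩
  obtain ⟨hba, ha1⟩ := Nat.find_spec hex
  have hmin := fun a' => Nat.find_min hex (m := a')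
  set a := Nat.find hex
  have ha : F a ≤ q := by
    rcases hba.eq_or_lt with h | h
    · rw [← h, hF]; linarith
    · have := hmin (a - 1) (by omega)
      rw [show a - 1 + 1 = a by omega] at this
      exact not_lt.1 fun h' => this ⟨by omega, h'⟩
  have hmpos : 0 < m := by
    rcases Nat.eq_zero_or_pos (Fintype.card V) with h | h
    · have := hFn a (by omega)
      linarith
    · have : (0 : ℝ) < Fintype.card V := by exact_mod_cast h
      positivity
  refine ⟨a, hba, ?_, hF a ▸ ha, ?_⟩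
  · by_contra hlt
    have hlt' : m < a := not_le.1 hlt
    have h1 := Pr_not (fun ω : V → A => cnt univ (fun _ => P) ω ≤ a)
    have h2 : Pr (fun ω : V → A => ¬ cnt univ (fun _ => P) ω ≤ a) ≤ m / (a + 1) := by
      refine le_trans (Pr_mono (E' := fun ω : V → A => (a + 1 : ℝ) ≤
        (cnt univ (fun _ => P) ω : ℝ)) fun ω h => ?_)
        ((Pr_le_div (fun ω => Nat.cast_nonneg _) (by positivity)).trans (le_of_eq ?_))
      · exact_mod_cast not_le.1 h
      · rw [Ex_cnt, sum_const, card_univ, nsmul_eq_mul, hm, mul_comm]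
    rw [h1, ← hF, le_div_iff₀ (by positivity)] at h2
    have h3 : (1 - q) * (a + 1) ≤ m := le_trans (by gcongr) h2
    have h4 : (0 : ℝ) < a + 1 := by positivity
    nlinarith [mul_pos hmpos (sub_pos.2 hlt'), mul_lt_mul_of_pos_right hq1 h4]
  · have hstep : ∀ i, b - J ≤ i → r * f (i + 1) ≤ f i := by
      intro i hi
      have h1 := Pr_cnt_step (ι := V) P i
      rw [← hf, ← hf, ← hm] at h1
      have h2 : (b - J : ℝ) ≤ i + 1 := by
        have : ((b - J : ℕ) : ℝ) ≤ i := by exact_mod_cast hi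
        rw [Nat.cast_sub hJ] at this
        linarith
      have h3 : r * m ≤ (i + 1) * (1 - Pr P) := hr.trans (mul_le_mul_of_nonneg_right h2 hp1)
      have h4 : r * m * f (i + 1) ≤ m * f i :=
        (mul_le_mul_of_nonneg_right h3 (hf0 _)).trans h1
      exact le_of_mul_le_mul_left (by linarith) hmpos
    have hdesc : ∀ d i, b - J ≤ i → r ^ d * f (i + d) ≤ f i := by
      intro d
      induction d with
      | zero => intro i _; simp
      | succ d ih =>
        intro i hi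
        calc r ^ (d + 1) * f (i + (d + 1)) = r ^ d * (r * f (i + d + 1)) := by
              rw [← add_assoc]; ring
          _ ≤ r ^ d * f (i + d) := mul_le_mul_of_nonneg_left (hstep _ (by omega)) (by positivity)
          _ ≤ f i := ih i hi
    obtain ⟨j, hj, hfj⟩ : ∃ j ∈ Ioc b (a + 1), q / (2 * (a + 2)) ≤ f j := by
      by_contra hcon
      push Not at hcon
      have h1 : F (a + 1) ≤ Pr (fun ω : V → A => cnt univ (fun _ => P) ω ≤ b) +
          Pr (fun ω : V → A => ∃ j ∈ Ioc b (a + 1), cnt univ (fun _ => P) ω = j) := by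
        rw [hF]
        refine Pr_le_add fun ω h => ?_
        by_cases h' : cnt univ (fun _ => P) ω ≤ b
        · exact Or.inl h'
        · exact Or.inr ⟨_, mem_Ioc.2 ⟨by omega, h⟩, rfl⟩
      have h2 := Pr_exists_le' (Ioc b (a + 1))
        (fun j (ω : V → A) => cnt univ (fun _ => P) ω = j) (δ := q / (2 * (a + 2)))
        fun j hj => hf j ▸ (hcon j hj).le
      have h3 : (#(Ioc b (a + 1)) : ℝ) ≤ a + 2 := by
        rw [Nat.card_Ioc]
        exact_mod_cast (by omega : a + 1 - b ≤ a + 2)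
      have h4 : (#(Ioc b (a + 1)) : ℝ) * (q / (2 * (a + 2))) ≤ q / 2 := by
        refine (mul_le_mul_of_nonneg_right h3 (by positivity)).trans (le_of_eq ?_)
        field_simp
      linarith
    rw [mem_Ioc] at hj
    obtain ⟨i, d, hid, hd, hi, hi'⟩ : ∃ i d, j = i + d ∧ d ≤ J + 1 ∧ b - J ≤ i ∧ i + J ≤ a := by
      by_cases h : j + J ≤ a
      · exact ⟨j, 0, rfl, by omega, by omega, h⟩
      · exact ⟨a - J, j - (a - J), by omega, by omega, by omega, by omega⟩
    calc q / (2 * (a + 2)) * r ^ (J + 1) ≤ f j * r ^ d :=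
          mul_le_mul hfj (pow_le_pow_of_le_one hr0 hr1 hd) (by positivity) (hf0 _)
      _ ≤ f i := by rw [mul_comm, hid]; exact hdesc d i hi
      _ ≤ _ := by
          rw [hf]
          exact Pr_mono fun ω h => by omega

end Pool.Agent.P.MP_de899d_pr
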