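import Pool.Agent.P.MP_de899d_pr.Base2
import Pool.Agent.P.MP_de899d_pr.Stat1

/-! A threshold in the lower tail of the binomial distribution, sharper form. -/

set_option linter.unusedSectionVars false

namespace Pool.Agent.P.MP_de899d_pr
open Finset

namespace Binom2
variable {ι α : Type*} [Fintype ι] [DecidableEq ι] [Fintype α] [Nonempty α]

theorem step_eq (P : α → Prop) {i : ℕ} (h : i < Fintype.card ι) :
    (i + 1) * (1 - Pr P) * Pr (fun ω : ι → α => cnt univ (fun _ => P) ω = i + 1) =
      Pr P * (Fintype.card ι - i) * Pr (fun ω : ι → α => cnt univ (fun _ => P) ω = i) := by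
  rw [Pr_cnt_eq, Pr_cnt_eq]
  set n := Fintype.card ι
  obtain ⟨m, hm⟩ : ∃ m, n - i = m + 1 := ⟨n - i - 1, by omega⟩
  have h2 : (n.choose (i + 1) : ℝ) * (i + 1) = n.choose i * (m + 1) := by
    have := Nat.choose_succ_right_eq n i
    rw [hm] at this
    exact_mod_cast this
  have h3 : (n : ℝ) - i = m + 1 := by
    have : n = i + (m + 1) := by omega
    rw [this]
    push_cast
    ring
  rw [hm, show n - (i + 1) = m by omega, h3]
  calc (i + 1 : ℝ) * (1 - Pr P) * (n.choose (i + 1) * (Pr P ^ (i + 1) * (1 - Pr P) ^ m))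
      = (n.choose (i + 1) : ℝ) * (i + 1) * (Pr P ^ (i + 1) * (1 - Pr P) ^ (m + 1)) := by ring
    _ = _ := by rw [h2]; ring

theorem cdf_eq {Ω : Type*} [Fintype Ω] (c : Ω → ℕ) (m : ℕ) :
    Pr (fun ω => c ω < m) = ∑ i ∈ range m, Pr (fun ω => c ω = i) := by
  classical
  unfold Pr
  rw [← Ex_sum]
  congr 1
  ext ω
  have := sum_ite_eq (range m) (c ω) fun _ => (1 : ℝ)
  simp only [mem_range] at this
  convert this.symm

end Binom2

theorem binom2 : S_BINOM2 := by
  intro V A _ _ _ _ P b J q r hq hq' hJ hbn hp hr0 hr1 hr hb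
  classical
  have hp1 : 0 ≤ 1 - Pr P := sub_nonneg.2 (Pr_le_one P)
  obtain ⟨f, hf⟩ : ∃ f : ℕ → ℝ, ∀ i, f i = Pr (fun ω : V → A => cnt univ (fun _ => P) ω = i) :=
    ⟨_, fun _ => rfl⟩
  obtain ⟨F, hF⟩ : ∃ F : ℕ → ℝ, ∀ i, F i = Pr (fun ω : V → A => cnt univ (fun _ => P) ω ≤ i) :=
    ⟨_, fun _ => rfl⟩
  have hf0 : ∀ i, 0 ≤ f i := fun i => hf i ▸ Pr_nonneg _
  have hFs : ∀ i, F i = ∑ j ∈ range (i + 1), f j := by
    intro i
    simp only [hf]
    rw [hF, ← Binom2.cdf_eq]
    exact Pr_congr fun ω => Nat.lt_succ_iff.symm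
  have hFn : ∀ i, Fintype.card V ≤ i → F i = 1 := by
    intro i hi
    have h1 := Pr_not (fun ω : V → A => cnt univ (fun _ => P) ω ≤ i)
    rw [Pr_false fun ω h => h (le_trans (card_le_univ _) hi)] at h1
    rw [hF]
    linarith
  have hex : ∃ a, b ≤ a ∧ q < F (a + 1) :=
    ⟨b + Fintype.card V, by omega, by rw [hFn _ (by omega)]; exact hq'⟩
  obtain ⟨hba, ha1⟩ := Nat.find_spec hex
  have hmin := fun a' => Nat.find_min hex (m := a')
  set a := Nat.find hex
  have ha : F a ≤ q := by
    rcases hba.eq_or_lt with h | h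
    · rw [← h, hF]; linarith
    · have := hmin (a - 1) (by omega)
      rw [show a - 1 + 1 = a by omega] at this
      exact not_lt.1 fun h' => this ⟨by omega, h'⟩
  refine ⟨a, hba, hF a ▸ ha, ?_, fun hq1 => ?_⟩
  · have hstep : ∀ i, b - J ≤ i → r * f (i + 1) ≤ f i := by
      intro i hi
      rcases le_or_gt (Fintype.card V) i with h | h
      · have : f (i + 1) = 0 := by
          rw [hf]
          exact Pr_false fun ω hω => by
            have : cnt univ (fun _ => P) ω ≤ Fintype.card V := card_le_univ _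
            omega
        rw [this, mul_zero]
        exact hf0 i
      · have h1 := Binom2.step_eq (ι := V) P h
        rw [← hf, ← hf] at h1
        have h2 : (b - J : ℝ) ≤ i := by
          have : ((b - J : ℕ) : ℝ) ≤ i := by exact_mod_cast hi
          rwa [Nat.cast_sub hJ] at this
        have h5 : (0 : ℝ) < Fintype.card V - i := sub_pos.2 (by exact_mod_cast h)
        have h3 : r * Pr P * (Fintype.card V - i) ≤ (i + 1) * (1 - Pr P) :=
          calc r * Pr P * (Fintype.card V - i) ≤ r * Pr P * (Fintype.card V - (b - J : ℝ)) :=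
                mul_le_mul_of_nonneg_left (by linarith) (by positivity)
            _ ≤ (b - J + 1 : ℝ) * (1 - Pr P) := hr
            _ ≤ _ := mul_le_mul_of_nonneg_right (by linarith) hp1
        have h4 := (mul_le_mul_of_nonneg_right h3 (hf0 (i + 1))).trans h1.le
        exact le_of_mul_le_mul_left (a := Pr P * (Fintype.card V - i)) (by linarith)
          (mul_pos hp h5)
    have hdesc : ∀ d i, b - J ≤ i → r ^ d * f (i + d) ≤ f i := by
      intro d
      induction d with
      | zero => intro i _; simp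
      | succ d ih =>
        intro i hi
        calc r ^ (d + 1) * f (i + (d + 1)) = r ^ d * (r * f (i + d + 1)) := by
              rw [← add_assoc]; ring
          _ ≤ r ^ d * f (i + d) := mul_le_mul_of_nonneg_left (hstep _ (by omega)) (by positivity)
          _ ≤ f i := ih i hi
    have h1 : q / 2 ≤ ∑ j ∈ Ico (b + 1) (a + 1 + 1), f j := by
      have h2 := sum_range_add_sum_Ico f (show b + 1 ≤ a + 1 + 1 by omega)
      rw [← hFs, ← hFs] at h2
      rw [← hF] at hb
      linarith
    have h2 : ∑ j ∈ Ico (b + 1) (a + 1 + 1), f j =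
        ∑ i ∈ Ico (b - J) (a - J + 1), f (i + (J + 1)) := by
      rw [sum_Ico_add' f (b - J) (a - J + 1) (J + 1)]
      congr 2 <;> omega
    calc q / 2 * r ^ (J + 1) ≤ (∑ i ∈ Ico (b - J) (a - J + 1), f (i + (J + 1))) * r ^ (J + 1) :=
          mul_le_mul_of_nonneg_right (h1.trans h2.le) (by positivity)
      _ = ∑ i ∈ Ico (b - J) (a - J + 1), r ^ (J + 1) * f (i + (J + 1)) := by
          rw [mul_comm, mul_sum]
      _ ≤ ∑ i ∈ Ico (b - J) (a - J + 1), f i :=
          sum_le_sum fun i hi => hdesc _ i (mem_Ico.1 hi).1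
      _ ≤ ∑ i ∈ range (a - J + 1), f i :=
          sum_le_sum_of_subset_of_nonneg (fun i hi => mem_range.2 (mem_Ico.1 hi).2)
            fun i _ _ => hf0 i
      _ = F (a - J) := (hFs _).symm
      _ ≤ _ := by
          rw [hF]
          exact Pr_mono fun ω h => by omega
  · set m : ℝ := Pr P * Fintype.card V with hm
    have hmpos : 0 < m := mul_pos hp (by exact_mod_cast (by omega : 0 < Fintype.card V))
    by_contra hlt
    have hlt' : m < a := not_le.1 hlt
    have h1 := Pr_not (fun ω : V → A => cnt univ (fun _ => P) ω ≤ a)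
    have h2 : Pr (fun ω : V → A => ¬ cnt univ (fun _ => P) ω ≤ a) ≤ m / (a + 1) := by
      refine le_trans (Pr_mono (E' := fun ω : V → A => (a + 1 : ℝ) ≤
        (cnt univ (fun _ => P) ω : ℝ)) fun ω h => ?_)
        ((Pr_le_div (fun ω => Nat.cast_nonneg _) (by positivity)).trans (le_of_eq ?_))
      · exact_mod_cast not_le.1 h
      · rw [Ex_cnt, sum_const, card_univ, nsmul_eq_mul, hm, mul_comm]
    rw [h1, ← hF, le_div_iff₀ (by positivity)] at h2
    have h3 : (1 - q) * (a + 1) ≤ m := le_trans (by gcongr) h2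
    have h4 : (0 : ℝ) < a + 1 := by positivity
    nlinarith [mul_pos hmpos (sub_pos.2 hlt'), mul_lt_mul_of_pos_right hq1 h4]

end Pool.Agent.P.MP_de899d_pr
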