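import Pool.Agent.P.MP_de899d_pr.Proc

/-! The two-round exposure of the labels and the column symmetrisation. -/

set_option linter.unusedSectionVars false
set_option linter.unusedVariables false

namespace Pool.Agent.P.MP_de899d_pr
open Finset Equiv

/-- A label from a first-round label and a second-round label. -/
def mix {T R : ℕ} (p : Fin (T + R) × Fin R) : Fin (T + R) :=
  if (p.1 : ℕ) < T then p.1 else Fin.natAdd T p.2

theorem mix_lt {T R : ℕ} (p : Fin (T + R) × Fin R) : (mix p : ℕ) < T ↔ (p.1 : ℕ) < T := by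
  unfold mix
  split_ifs with h <;> simp [h]

theorem mix_lt_add {T R : ℕ} (p : Fin (T + R) × Fin R) {l : ℕ} (h : (p.2 : ℕ) < l) :
    (mix p : ℕ) < T + l := by
  unfold mix
  split_ifs with h'
  · omega
  · simpa using h

theorem of_mix_lt {T R : ℕ} (p : Fin (T + R) × Fin R) {l : ℕ} (h : (mix p : ℕ) < T + l) :
    (p.1 : ℕ) < T ∨ (p.2 : ℕ) < l := by
  unfold mix at h
  split_ifs at h with h'
  · exact Or.inl h'
  · simp at h; exact Or.inr h

theorem Ex_mix {T R : ℕ} [NeZero R] (g : Fin (T + R) → ℝ) : Ex (fun p => g (mix p)) = Ex g := by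
  have hR : (R : ℝ) ≠ 0 := Nat.cast_ne_zero.mpr (NeZero.ne R)
  have h1 : ∑ p : Fin (T + R) × Fin R, g (mix p) = R * ∑ i, g i := by
    rw [Fintype.sum_prod_type, Fin.sum_univ_add, Fin.sum_univ_add]
    simp [mix, mul_add, mul_sum]
  simp only [Ex, h1, Fintype.card_prod, Fintype.card_fin, Nat.cast_mul]
  field_simp

theorem Pr_mix {ι : Type} [Fintype ι] [DecidableEq ι] {T R : ℕ} [NeZero R]
    (E : (ι → Fin (T + R)) → Prop) :
    Pr E = Ex fun α : ι → Fin (T + R) => Pr fun β : ι → Fin R => E fun i => mix (α i, β i) := by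
  classical
  have : NeZero (T + R) := ⟨by have := NeZero.ne R; omega⟩
  rw [Pr, ← Ex_map mix Ex_mix, ← Ex_equiv (Equiv.arrowProdEquivProdArrow _ _ _).symm, Ex_prod]
  rfl

theorem Pr_lt {M : ℕ} [NeZero M] {l : ℕ} (h : l ≤ M) :
    Pr (fun i : Fin M => (i : ℕ) < l) = l / M := by
  rw [Pr_eq_card, Fin.card_filter_val_lt, min_eq_right h, Fintype.card_fin]

variable {V : Type} [Fintype V] [DecidableEq V]

/-- Lower tails for the two thresholds. -/
theorem tail_couple {T R l a J : ℕ} [NeZero R] (hJ : 0 < J)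
    (h : 2 * (Fintype.card V * Pr fun i : Fin R => (i : ℕ) < l) ≤ J) :
    Pr (fun r : V → Fin (T + R) => cnt univ (fun _ (i : Fin (T + R)) => (i : ℕ) < T) r ≤ a) ≤
      2 * Pr (fun r : V → Fin (T + R) => cnt univ (fun _ (i : Fin (T + R)) => (i : ℕ) < T + l) r ≤ a + J) := by
  classical
  have : NeZero (T + R) := ⟨by have := NeZero.ne R; omega⟩
  have hJ' : (0 : ℝ) < J := by exact_mod_cast hJ
  have h1 : 1 / 2 ≤ Pr fun β : V → Fin R => cnt univ (fun _ (i : Fin R) => (i : ℕ) < l) β ≤ J := by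
    have h2 := Pr_le_div (f := fun β : V → Fin R => (cnt univ (fun _ (i : Fin R) => (i : ℕ) < l) β : ℝ))
      (fun _ => Nat.cast_nonneg _) hJ'
    rw [Ex_cnt, sum_const, card_univ, nsmul_eq_mul] at h2
    have h3 := Pr_not fun β : V → Fin R => cnt univ (fun _ (i : Fin R) => (i : ℕ) < l) β ≤ J
    have h4 : Pr (fun β : V → Fin R => ¬ cnt univ (fun _ (i : Fin R) => (i : ℕ) < l) β ≤ J) ≤
      Pr fun β : V → Fin R => (J : ℝ) ≤ cnt univ (fun _ (i : Fin R) => (i : ℕ) < l) β :=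
      Pr_mono fun β hβ => by exact_mod_cast (not_le.mp hβ).le
    have h5 : (Fintype.card V * Pr fun i : Fin R => (i : ℕ) < l) / J ≤ 1 / 2 := by
      rw [div_le_iff₀ hJ']; linarith
    linarith
  rw [Pr_mix fun r : V → Fin (T + R) => cnt univ (fun _ (i : Fin (T + R)) => (i : ℕ) < T + l) r ≤ a + J,
    ← Ex_mul]
  refine Ex_mono fun α => ?_
  split_ifs with hα
  · refine le_trans (by linarith) (mul_le_mul_of_nonneg_left (Pr_mono (E := fun β : V → Fin R =>
      cnt univ (fun _ (i : Fin R) => (i : ℕ) < l) β ≤ J) fun β hβ => ?_) zero_le_two)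
    refine le_trans ?_ (add_le_add hα hβ)
    unfold cnt
    refine le_trans (card_le_card fun x hx => ?_) (card_union_le _ _)
    simp only [mem_filter, mem_univ, true_and, mem_union] at hx ⊢
    exact of_mix_lt _ hx
  · exact mul_nonneg zero_le_two (Pr_nonneg _)

theorem rdeg_eq {A : Type} (P : A → Prop) (U : V × V → A) (x : V) :
    rdeg (fun e => P (U e)) x = cnt univ (fun _ => P) fun y => U (x, y) := by
  unfold rdeg cnt
  congr

/-- Some row has small degree. -/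
theorem Pr_all_rows {A : Type} [Fintype A] [Nonempty A] (P : A → Prop) (K : ℕ) {q : ℝ}
    (h : q ≤ Pr fun r : V → A => cnt univ (fun _ => P) r ≤ K) :
    Pr (fun U : V × V → A => ∀ x, K < rdeg (fun e => P (U e)) x) ≤
      Real.exp (-(Fintype.card V * q)) := by
  have h1 := Pr_curry fun c : V → V → A => ∀ x ∈ univ, ¬ cnt univ (fun _ => P) (c x) ≤ K
  have h2 := Pr_none univ (fun (_ : V) (r : V → A) => cnt univ (fun _ => P) r ≤ K)
    (μ := Fintype.card V * q) (by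
      rw [sum_const, card_univ, nsmul_eq_mul]
      exact mul_le_mul_of_nonneg_left h (Nat.cast_nonneg _))
  refine le_trans (Pr_mono fun U hU x _ => ?_) (h1.le.trans h2)
  rw [← rdeg_eq, not_le]
  exact hU x

theorem Pr_tr {A : Type} [Fintype A] [Nonempty A] (E : (V × V → A) → Prop) :
    Pr (fun U : V × V → A => E fun e => U e.swap) = Pr E :=
  Pr_comp _ Prod.swap_injective E

theorem Pr_col {A : Type} [Fintype A] [Nonempty A] (σ : Perm V) (E : (V × V → A) → Prop) :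
    Pr (fun U : V × V → A => E fun e => U (e.1, σ⁻¹ e.2)) = Pr E :=
  Pr_comp (fun e : V × V => (e.1, σ⁻¹ e.2)) (Equiv.prodCongr (Equiv.refl V) σ⁻¹).injective E

theorem rdeg_mono {G G' : V × V → Prop} {x x' : V} (f : Perm V)
    (h : ∀ y, G (x, y) → G' (x', f y)) : rdeg G x ≤ rdeg G' x' := by
  classical
  unfold rdeg
  refine card_le_card_of_injOn f (fun y hy => ?_) f.injective.injOn
  simp only [coe_filter, mem_univ, true_and, Set.mem_ofPred_eq] at hy ⊢
  exact h y hy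

/-- The static pseudorandom properties. -/
def Static (G' G'' : V × V → Prop) (a μ s w K : ℕ) : Prop :=
  (PA G' a s ∧ PB1 G' G'' a 1 ∧ PB2 G' G'' a ∧ PC G'' μ s ∧ PD G'' a μ w) ∧
  (PA (tr G') a s ∧ PB1 (tr G') (tr G'') a 1 ∧ PB2 (tr G') (tr G'') a ∧ PC (tr G'') μ s ∧
    PD (tr G'') a μ w) ∧ PE G' K w

/-- The failure event for a fixed `k`. -/
def BadK {M : ℕ} (T T'' k : ℕ) (U : V × V → Fin M) : Prop :=
  ∃ t, T ≤ t ∧ t ≤ T'' ∧ (∀ x, k ≤ rdeg (fun e => (U e : ℕ) < t) x) ∧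
    (∀ y, k ≤ rdeg (tr fun e => (U e : ℕ) < t) y) ∧ ¬ Tgt k fun e => (U e : ℕ) < t

theorem inner_bound (hfact : S_FACT) {T R l T'' a μ s w K k n0 r : ℕ} [NeZero R] {η b : ℝ}
    (hb : 0 ≤ b) (hη : 0 ≤ η) (hk : k ≤ K) (hK : K + μ ≤ a) (hμ : 4 ≤ μ) (hT : T ≤ T'')
    (hinit : ∀ (M : Fin k → Perm V) (Zp Zm : Finset V), Disj M → #Zp ≤ s → #Zm ≤ s →
      Pr (fun σ : Perm V => ¬ ∃ An : Finset (Fin k × V),
        Anch (fun j => σ * M j) n0 Zp (Zm.image σ) An ∧ #An ≤ r) ≤ η)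
    (h23 : ∀ (Γ : V × V → Prop) (π : Fin k → Perm V) (Up Um : Finset V)
      (An : Finset (Fin k × V)), #An ≤ r → Disj π → (∀ j x, Γ (x, π j x)) →
      Anch π n0 Up Um An → #Up ≤ s → #Um ≤ s →
      Bd k (fun i : Fin R => (i : ℕ) < l) Γ (fun e => e.1 ∈ Up ∨ e.2 ∈ Um) ≤ b)
    (α : V × V → Fin (T + R)) (β₁ : V × V → Fin R)
    (hS : Static (fun e => (mix (α e, β₁ e) : ℕ) < T) (fun e => (mix (α e, β₁ e) : ℕ) < T'')
      a μ s w K) :
    Ex (fun σ : Perm V => Pr fun β₂ : V × V → Fin R => BadK (T + l) T'' k fun e : V × V =>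
      mix (α (e.1, σ⁻¹ e.2), splice (fun e : V × V => e.1 ∈ low (fun e => (α e : ℕ) < T) a ∨
        e.2 ∈ low (tr fun e => (α e : ℕ) < T) a) β₁ β₂ (e.1, σ⁻¹ e.2))) ≤ η + b := by
  classical
  have hG : (fun e => (mix (α e, β₁ e) : ℕ) < T) = fun e => (α e : ℕ) < T :=
    funext fun e => propext (mix_lt _)
  rw [hG] at hS
  set G' : V × V → Prop := fun e => (α e : ℕ) < T with hG'
  set X : V × V → Prop := fun e => e.1 ∈ low G' a ∨ e.2 ∈ low (tr G') a with hX
  let U₁ : V × V → ℕ := fun e => mix (α e, β₁ e)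
  let L : ℕ → Prop := fun t => t ≤ T'' ∧ (∀ x ∈ low G' a, k ≤ rdeg (fun e => U₁ e < t) x) ∧
    ∀ y ∈ low (tr G') a, k ≤ rdeg (tr fun e => U₁ e < t) y
  have hL : ∀ (σ : Perm V) (β₂ : V × V → Fin R) (t : ℕ), t ≤ T'' →
      (∀ x, k ≤ rdeg (fun e : V × V =>
        (mix (α (e.1, σ⁻¹ e.2), splice X β₁ β₂ (e.1, σ⁻¹ e.2)) : ℕ) < t) x) →
      (∀ y, k ≤ rdeg (tr fun e : V × V =>
        (mix (α (e.1, σ⁻¹ e.2), splice X β₁ β₂ (e.1, σ⁻¹ e.2)) : ℕ) < t) y) → L t := by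
    intro σ β₂ t h1 h2 h3
    refine ⟨h1, fun x hx => (h2 x).trans (rdeg_mono σ⁻¹ fun y h => ?_),
      fun y hy => (h3 (σ y)).trans (rdeg_mono 1 fun x h => ?_)⟩
    · rwa [splice_in (A := X) _ _ (Or.inl hx)] at h
    · simp only [tr, Prod.swap_prod_mk, Perm.coe_one, id_eq, Perm.coe_inv, symm_apply_apply] at h ⊢
      rwa [splice_in (A := X) _ _ (Or.inr hy)] at h
  by_cases hex : ∃ t, L t
  swap
  · refine le_trans (Ex_le_const fun σ => (Pr_false ?_).le) (by positivity)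
    rintro β₂ ⟨t, -, h1, h2, h3, -⟩
    exact hex ⟨t, hL σ β₂ t h1 h2 h3⟩
  obtain ⟨τ1, τ2, τ3⟩ := Nat.find_spec hex
  set τ := Nat.find hex with hτ
  let B : V × V → Prop := fun e => G' e ∨ (X e ∧ U₁ e < τ)
  obtain ⟨⟨p1, p2, p3, p4, p5⟩, ⟨q1, q2, q3, q4, q5⟩, p6⟩ := hS
  obtain ⟨M, hM, hMB⟩ := hfact V G' B (fun e => U₁ e < T'') a μ s w k 1 (fun e => Or.inl)
    (fun e he => he.elim (fun h => lt_of_lt_of_le ((mix_lt (α e, β₁ e)).mpr h) hT)
      fun h => lt_of_lt_of_le h.2 τ1)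
    (fun x => by
      by_cases hx : x ∈ low G' a
      · exact (τ2 x hx).trans (rdeg_mono 1 fun y h => Or.inr ⟨Or.inl hx, h⟩)
      · have : a < rdeg G' x := by simpa [low] using hx
        exact le_trans (by omega) (rdeg_mono (G := G') (x := x) 1 fun y h => Or.inl h))
    (fun y => by
      by_cases hy : y ∈ low (tr G') a
      · exact (τ3 y hy).trans (rdeg_mono 1 fun x h => Or.inr ⟨Or.inr hy, h⟩)
      · have : a < rdeg (tr G') y := by simpa [low] using hy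
        exact le_trans (by omega) (rdeg_mono (G := tr G') (x := y) 1 fun x h => Or.inl h))
    (by omega) (by omega) (by omega) ⟨p1, p2, p5, Or.inr ⟨p4, Or.inr ⟨le_rfl, p3⟩⟩⟩
    ⟨q1, q2, q5, Or.inr ⟨q4, Or.inr ⟨le_rfl, q3⟩⟩⟩
    (fun X Y h1 h2 => (Nat.mul_le_mul_right _ hk).trans (p6 X Y h1 h2))
  refine le_trans (Ex_le_of_good hb (fun σ => Pr_le_one _) ?_)
    (add_le_add_left (hinit M _ _ hM p1 q1) _)
  rintro σ ⟨An, hA, hc⟩
  refine le_trans ?_ (h23 (fun e => B (e.1, σ⁻¹ e.2)) _ _ _ An hc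
    (fun i j hij x h => hM i j hij x (σ.injective h)) (fun j x => by simpa using hMB j x) hA p1
    (card_image_le.trans q1))
  rw [Bd]
  refine le_trans (Pr_mono ?_) (Pr_col σ _).le
  rintro β₂ ⟨t, h0, h1, h2, h3, h4⟩ h5
  refine h4 (Tgt.mono ?_ h5)
  have hτt : τ ≤ t := Nat.find_min' hex (hL σ β₂ t h1 h2 h3)
  rintro e ((h | h) | h) <;> beta_reduce
  · exact lt_of_lt_of_le ((mix_lt (_, _)).mpr h) (by omega)
  · rw [splice_in _ _ h.1]
    exact lt_of_lt_of_le h.2 hτt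
  · rw [splice_out]
    · exact lt_of_lt_of_le (mix_lt_add _ h.1) h0
    · rintro (h' | h')
      · exact h.2 (Or.inl h')
      · exact h.2 (Or.inr (mem_image.mpr ⟨_, h', by simp⟩))

theorem interval (hfact : S_FACT) {T R l T'' a μ s w K n0 : ℕ} [NeZero R] (r : ℕ → ℕ) {η b : ℝ}
    (hb : 0 ≤ b) (hη : 0 ≤ η) (hK : K + μ ≤ a) (hμ : 4 ≤ μ) (hT : T ≤ T'')
    (hinit : ∀ k ≤ K, ∀ (M : Fin k → Perm V) (Zp Zm : Finset V), Disj M → #Zp ≤ s → #Zm ≤ s →
      Pr (fun σ : Perm V => ¬ ∃ An : Finset (Fin k × V),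
        Anch (fun j => σ * M j) n0 Zp (Zm.image σ) An ∧ #An ≤ r k) ≤ η)
    (h23 : ∀ k ≤ K, ∀ (Γ : V × V → Prop) (π : Fin k → Perm V) (Up Um : Finset V)
      (An : Finset (Fin k × V)), #An ≤ r k → Disj π → (∀ j x, Γ (x, π j x)) →
      Anch π n0 Up Um An → #Up ≤ s → #Um ≤ s →
      Bd k (fun i : Fin R => (i : ℕ) < l) Γ (fun e => e.1 ∈ Up ∨ e.2 ∈ Um) ≤ b) :
    Pr (fun U : V × V → Fin (T + R) => ∃ k, BadK (T + l) T'' k U) ≤
      Pr (fun U : V × V → Fin (T + R) => ∀ x, K < rdeg (fun e => (U e : ℕ) < T'') x) +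
      (Pr (fun U : V × V → Fin (T + R) =>
        ¬ Static (fun e => (U e : ℕ) < T) (fun e => (U e : ℕ) < T'') a μ s w K) +
        (K + 1) * (η + b)) := by
  classical
  have : NeZero (T + R) := ⟨by have := NeZero.ne R; omega⟩
  refine le_trans (Pr_le_add (E₂ := fun U => ∃ k ∈ range (K + 1), BadK (T + l) T'' k U) ?_)
    (add_le_add_right ?_ _)
  · rintro U ⟨k, hk⟩
    by_cases h : k ≤ K
    · exact Or.inr ⟨k, mem_range.mpr (by omega), hk⟩
    · obtain ⟨t, -, h1, h2, -⟩ := hk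
      exact Or.inl fun x => lt_of_lt_of_le (by omega) ((h2 x).trans
        (rdeg_mono 1 fun y hy => lt_of_lt_of_le hy h1))
  set E : (V × V → Fin (T + R)) → Prop := fun U => ∃ k ∈ range (K + 1), BadK (T + l) T'' k U
  have h1 : Pr E = Ex fun σ : Perm V => Pr fun U : V × V → Fin (T + R) =>
      E fun e => U (e.1, σ⁻¹ e.2) := by
    simp only [Pr_col, Ex_const]
  rw [h1, Pr_mix fun U : V × V → Fin (T + R) =>
    ¬ Static (fun e => (U e : ℕ) < T) (fun e => (U e : ℕ) < T'') a μ s w K]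
  simp only [Pr_mix (fun U : V × V → Fin (T + R) => E fun e => U (e.1, _))]
  rw [Ex_comm, ← Ex_const (Ω := V × V → Fin (T + R)) ((K + 1) * (η + b)), ← Ex_add]
  refine Ex_mono fun α => ?_
  simp only [Pr_splice (fun e : V × V => e.1 ∈ low (fun e => (α e : ℕ) < T) a ∨
        e.2 ∈ low (tr fun e => (α e : ℕ) < T) a)
    (fun β : V × V → Fin R => E fun e => mix (α (e.1, _), β (e.1, _)))]
  rw [Ex_comm]
  refine Ex_le_of_good (by positivity) (fun β₁ => Ex_le_const fun σ => Pr_le_one _)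
    fun β₁ hS => ?_
  refine le_trans (Ex_mono fun σ => Pr_exists_le _ _) ?_
  rw [Ex_sum]
  refine le_trans (sum_le_card_nsmul _ _ (η + b) fun k hk => ?_) (by simp [mul_add])
  have hk' : k ≤ K := by have := mem_range.mp hk; omega
  exact inner_bound hfact hb hη hk' hK hμ hT (hinit k hk') (h23 k hk') α β₁ hS

end Pool.Agent.P.MP_de899d_pr
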