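import Pool.Agent.P.MP_de899d_pr.Defs

/-! Adaptive queries to a uniform permutation, and short orbits. -/

set_option linter.unusedSectionVars false

namespace Pool.Agent.P.MP_de899d_pr
open Finset Equiv

section query
variable {V : Type} [Fintype V] [DecidableEq V]

/-- The query at time `t` is new and its answer lies in the target set. -/
def Hit (q : ℕ → Perm V → V) (B : ℕ → Perm V → Finset V) (t : ℕ) (π : Perm V) : Prop :=
  (∀ u < t, q u π ≠ q t π) ∧ π (q t π) ∈ B t π

/-- Queries and targets only depend on the earlier answers. -/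
def Loc (q : ℕ → Perm V → V) (B : ℕ → Perm V → Finset V) : Prop :=
  ∀ t π π', (∀ u < t, π' (q u π) = π (q u π)) → q t π' = q t π ∧ B t π' = B t π

theorem Loc.hit {q : ℕ → Perm V → V} {B : ℕ → Perm V → Finset V} (h : Loc q B) {t : ℕ}
    {π π' : Perm V} (ha : ∀ u ≤ t, π' (q u π) = π (q u π)) : Hit q B t π' ↔ Hit q B t π := by
  have h1 : ∀ u ≤ t, q u π' = q u π ∧ B u π' = B u π := fun u hu =>
    h u π π' fun s hs => ha s (by omega)
  unfold Hit
  rw [(h1 t le_rfl).1, (h1 t le_rfl).2, ha t le_rfl]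
  refine and_congr_left' (forall₂_congr fun u hu => ?_)
  rw [(h1 u hu.le).1]

open Classical in
/-- The switching inequality. -/
theorem switch {q : ℕ → Perm V → V} {B : ℕ → Perm V → Finset V} (h : Loc q B) (u : ℕ)
    (W : Perm V → ℝ) (hW : ∀ π, 0 ≤ W π)
    (hloc : ∀ π π' : Perm V, (∀ t < u, π' (q t π) = π (q t π)) → W π' = W π) {b : ℝ}
    (hb : ∀ π, (#(B u π) : ℝ) ≤ b) :
    ((Fintype.card V : ℝ) - u) * ∑ π, (if Hit q B u π then W π else 0) ≤ b * ∑ π, W π := by
  let Z : Perm V → Finset V := fun π => univ \ (range u).image fun t => π (q t π)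
  let S : Finset (Perm V × V) := univ.filter fun p => Hit q B u p.1 ∧ p.2 ∈ Z p.1
  let T : Finset (Perm V × V) := univ.filter fun p => p.2 ∈ B u p.1
  let φ : Perm V × V → Perm V × V := fun p =>
    (swap (p.1 (q u p.1)) p.2 * p.1, p.1 (q u p.1))
  have hZ : ∀ π, (Fintype.card V : ℝ) - u ≤ #(Z π) := fun π => by
    have h1 : #((range u).image fun t => π (q t π)) ≤ u := card_image_le.trans (card_range u).le
    have h2 := card_sdiff_add_card_eq_card
      (subset_univ ((range u).image fun t => π (q t π)))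
    rw [card_univ] at h2
    have : Fintype.card V ≤ #(Z π) + u := by simp only [Z]; omega
    have : (Fintype.card V : ℝ) ≤ #(Z π) + u := by exact_mod_cast this
    linarith
  have hag : ∀ p ∈ S, ∀ t < u, (φ p).1 (q t p.1) = p.1 (q t p.1) := fun p hp t ht => by
    obtain ⟨h1, h2⟩ := (mem_filter.1 hp).2
    simp only [φ, Perm.mul_apply]
    refine swap_apply_of_ne_of_ne (fun he => h1.1 t ht (p.1.injective he)) fun he => ?_
    exact (mem_sdiff.1 h2).2 (mem_image.2 ⟨t, mem_range.2 ht, he⟩)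
  have hq : ∀ p ∈ S, q u (φ p).1 = q u p.1 ∧ B u (φ p).1 = B u p.1 := fun p hp =>
    h u _ _ (hag p hp)
  have hrec : ∀ p ∈ S, (φ p).1 (q u (φ p).1) = p.2 := fun p hp => by
    rw [(hq p hp).1]; simp [φ]
  have hinj : Set.InjOn φ S := fun p hp p' hp' he => by
    have h2 : p.2 = p'.2 := by rw [← hrec p hp, ← hrec p' hp', he]
    have h3 : p.1 (q u p.1) = p'.1 (q u p'.1) := congrArg Prod.snd he
    have h4 : swap (p.1 (q u p.1)) p.2 * p.1 = swap (p'.1 (q u p'.1)) p'.2 * p'.1 :=
      congrArg Prod.fst he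
    rw [h2, h3] at h4
    exact Prod.ext (mul_left_cancel h4) h2
  have hsub : S.image φ ⊆ T := fun p' hp' => by
    obtain ⟨p, hp, rfl⟩ := mem_image.1 hp'
    refine mem_filter.2 ⟨mem_univ _, ?_⟩
    rw [(hq p hp).2]
    exact (mem_filter.1 hp).2.1.2
  calc ((Fintype.card V : ℝ) - u) * ∑ π, (if Hit q B u π then W π else 0)
      ≤ ∑ p ∈ S, W p.1 := by
        rw [mul_sum, sum_filter, Fintype.sum_prod_type]
        refine sum_le_sum fun π _ => ?_
        by_cases hπ : Hit q B u π
        · simp only [hπ, true_and, if_true]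
          rw [← sum_filter, filter_mem_eq_inter, univ_inter, sum_const, nsmul_eq_mul]
          exact mul_le_mul_of_nonneg_right (hZ π) (hW π)
        · simp [hπ]
    _ = ∑ p ∈ S.image φ, W p.1 := by
        rw [sum_image hinj]
        exact sum_congr rfl fun p hp => (hloc _ _ (hag p hp)).symm
    _ ≤ ∑ p ∈ T, W p.1 := sum_le_sum_of_subset_of_nonneg hsub fun p _ _ => hW _
    _ ≤ b * ∑ π, W π := by
        rw [mul_sum, sum_filter, Fintype.sum_prod_type]
        refine sum_le_sum fun π _ => ?_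
        simp only
        rw [← sum_filter, filter_mem_eq_inter, univ_inter, sum_const, nsmul_eq_mul]
        exact mul_le_mul_of_nonneg_right (hb π) (hW π)

open Classical in
theorem query_aux {q : ℕ → Perm V → V} {B : ℕ → Perm V → Finset V} (h : Loc q B)
    (b c θ : ℕ → ℝ) {m : ℕ} (hm : m < Fintype.card V) (hb : ∀ t π, (#(B t π) : ℝ) ≤ b t)
    (hc : ∀ t, 0 ≤ c t) (hθ : ∀ t, 0 ≤ θ t) (u : ℕ) (hu : u ≤ m) :
    Ex (fun π : Perm V => ∏ t ∈ range u, (c t + if Hit q B t π then θ t else 0)) ≤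
      ∏ t ∈ range u, (c t + θ t * b t / (Fintype.card V - m)) := by
  have hnm : (0 : ℝ) < Fintype.card V - m := by
    have : (m : ℝ) < Fintype.card V := by exact_mod_cast hm
    linarith
  have hb0 : ∀ t, 0 ≤ b t := fun t => (Nat.cast_nonneg _).trans (hb t 1)
  induction u with
  | zero => simp [Ex_const]
  | succ u ih =>
    have ih := ih (by omega)
    set W : Perm V → ℝ := fun π => ∏ t ∈ range u, (c t + if Hit q B t π then θ t else 0) with hWd
    have hW : ∀ π, 0 ≤ W π := fun π => prod_nonneg fun t _ =>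
      add_nonneg (hc t) (by split_ifs; exacts [hθ t, le_rfl])
    have hs := switch h u W hW (fun π π' ha => prod_congr rfl fun t ht => by
      rw [h.hit fun s hs => ha s (lt_of_le_of_lt hs (mem_range.1 ht))]) (hb u)
    have h1 : Ex (fun π => if Hit q B u π then W π else 0) ≤
        b u / (Fintype.card V - m) * Ex W := by
      have hp : 0 ≤ ∑ π, (if Hit q B u π then W π else 0) :=
        sum_nonneg fun π _ => by split_ifs; exacts [hW π, le_rfl]
      have hum : (u : ℝ) ≤ m := by exact_mod_cast (by omega : u ≤ m)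
      have h2 : ((Fintype.card V : ℝ) - m) * ∑ π, (if Hit q B u π then W π else 0) ≤
          b u * ∑ π, W π := le_trans (mul_le_mul_of_nonneg_right (by linarith) hp) hs
      unfold Ex
      rw [← mul_div_assoc]
      refine div_le_div_of_nonneg_right ?_ (Nat.cast_nonneg _)
      rw [div_mul_eq_mul_div, le_div_iff₀ hnm, mul_comm]
      exact h2
    have h3 : (fun π : Perm V => ∏ t ∈ range (u + 1), (c t + if Hit q B t π then θ t else 0)) =
        fun π => c u * W π + θ u * (if Hit q B u π then W π else 0) := by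
      funext π
      rw [prod_range_succ]
      split_ifs <;> simp only [hWd] <;> ring
    rw [h3, Ex_add, Ex_mul, Ex_mul, prod_range_succ]
    have h4 : 0 ≤ c u + θ u * b u / (Fintype.card V - m) :=
      add_nonneg (hc u) (div_nonneg (mul_nonneg (hθ u) (hb0 u)) hnm.le)
    calc c u * Ex W + θ u * Ex (fun π => if Hit q B u π then W π else 0)
        ≤ c u * Ex W + θ u * (b u / (Fintype.card V - m) * Ex W) := by
          have := mul_le_mul_of_nonneg_left h1 (hθ u)
          linarith
      _ = Ex W * (c u + θ u * b u / (Fintype.card V - m)) := by ring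
      _ ≤ _ := mul_le_mul_of_nonneg_right ih h4

end query

theorem query : S_QUERY := by
  intro V _ _ q B b c θ m hm h hb hc hθ
  refine le_of_eq_of_le ?_ (query_aux h b c θ hm hb hc hθ m le_rfl)
  congr 1
  funext π
  refine prod_congr rfl fun t _ => ?_
  unfold Hit
  congr

section short
variable {V : Type} [Fintype V] [DecidableEq V]

/-- Probability of hitting targets of size at most one at prescribed times. -/
theorem hits_le {q : ℕ → Perm V → V} {B : ℕ → Perm V → Finset V} (h : Loc q B) {m : ℕ}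
    (hm : m < Fintype.card V) (hb : ∀ t π, #(B t π) ≤ 1) (T : Finset ℕ) (hT : T ⊆ range m) :
    Pr (fun π => ∀ t ∈ T, Hit q B t π) ≤ (1 / ((Fintype.card V : ℝ) - m)) ^ #T := by
  classical
  have := query_aux h (fun _ => 1) (fun t => if t ∈ T then 0 else 1)
    (fun t => if t ∈ T then 1 else 0) hm (fun t π => by exact_mod_cast hb t π)
    (fun t => by split_ifs <;> norm_num) (fun t => by split_ifs <;> norm_num) m le_rfl
  refine le_trans (Pr_le_Ex (fun π => prod_nonneg fun t _ => ?_) fun π hπ => ?_)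
    (this.trans (le_of_eq ?_))
  · split_ifs <;> norm_num
  · refine (prod_eq_one fun t _ => ?_).ge
    by_cases ht : t ∈ T
    · simp [ht, hπ t ht]
    · simp [ht]
  · rw [← prod_const, ← prod_subset hT]
    · exact prod_congr rfl fun t ht => by simp [ht]
    · intro t _ ht
      simp [ht]

theorem walk_succ (σ τ : Perm V) (z : V) (s : ℕ) :
    ((σ * τ) ^ (s + 1)) z = σ (τ (((σ * τ) ^ s) z)) := by
  rw [pow_succ']; rfl

theorem walk_agree {σ σ' τ : Perm V} {z : V} {v : ℕ}
    (h : ∀ s < v, σ' (τ (((σ * τ) ^ s) z)) = σ (τ (((σ * τ) ^ s) z))) :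
    ∀ s ≤ v, ((σ' * τ) ^ s) z = ((σ * τ) ^ s) z := by
  intro s hs
  induction s with
  | zero => rfl
  | succ s ih => rw [walk_succ, walk_succ, ih (by omega), h s (by omega)]

theorem Short.period {ρ : Perm V} {L : ℕ} {a : V} (h : Short ρ L a) :
    ∃ l, 1 ≤ l ∧ l ≤ L ∧ (ρ ^ l) a = a ∧ ∀ u v, u < v → v < l → (ρ ^ u) a ≠ (ρ ^ v) a := by
  classical
  obtain ⟨S, ha, hS, hL⟩ := h
  have hmem : ∀ i : ℕ, (ρ ^ i) a ∈ S := fun i => by
    induction i with
    | zero => exact ha
    | succ i ih => rw [pow_succ']; exact hS _ ih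
  have hred : ∀ u v : ℕ, u < v → (ρ ^ u) a = (ρ ^ v) a → (ρ ^ (v - u)) a = a := fun u v huv he => by
    have : ρ ^ v = ρ ^ u * ρ ^ (v - u) := by rw [← pow_add]; congr 1; omega
    rw [this, Perm.mul_apply] at he
    exact ((ρ ^ u).injective he).symm
  have hex : ∃ l, 1 ≤ l ∧ l ≤ L ∧ (ρ ^ l) a = a := by
    obtain ⟨i, hi, j, hj, hne, he⟩ := exists_ne_map_eq_of_card_lt_of_maps_to
      (s := range (L + 1)) (t := S) (by rw [card_range]; omega) (f := fun i => (ρ ^ i) a)
      fun i _ => hmem i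
    have hi := mem_range.1 hi
    have hj := mem_range.1 hj
    rcases lt_or_gt_of_ne hne with hlt | hlt
    · exact ⟨j - i, by omega, by omega, hred i j hlt he⟩
    · exact ⟨i - j, by omega, by omega, hred j i hlt he.symm⟩
  obtain ⟨h1, h2, h3⟩ := Nat.find_spec hex
  refine ⟨Nat.find hex, h1, h2, h3, fun u v huv hv he => ?_⟩
  exact Nat.find_min hex (m := v - u) (by omega) ⟨by omega, by omega, hred u v huv he⟩

theorem pow_mod_apply {ρ : Perm V} {a : V} {l : ℕ} (h : (ρ ^ l) a = a) (u : ℕ) :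
    (ρ ^ (u % l)) a = (ρ ^ u) a := by
  have h1 : ∀ j : ℕ, (ρ ^ (l * j)) a = a := fun j => by
    induction j with
    | zero => rfl
    | succ j ih => rw [Nat.mul_succ, pow_add, Perm.mul_apply, h, ih]
  conv_rhs => rw [← Nat.mod_add_div u l, pow_add, Perm.mul_apply, h1]

theorem exists_last (P : ℕ → Prop) {l : ℕ} (hl : 1 ≤ l) (h0 : P 0) :
    ∃ u < l, P u ∧ ∀ w, u < w → w < l → ¬ P w := by
  classical
  refine ⟨Nat.findGreatest P (l - 1), lt_of_le_of_lt (Nat.findGreatest_le _) (by omega),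
    Nat.findGreatest_spec (Nat.zero_le _) h0, fun w h1 h2 => ?_⟩
  exact Nat.findGreatest_is_greatest h1 (by omega)

/-- The queries of one walk. -/
def q1 (τ : Perm V) (a : V) (t : ℕ) (σ : Perm V) : V := τ (((σ * τ) ^ t) a)

theorem loc1 (τ : Perm V) (a : V) (B : ℕ → Finset V) : Loc (q1 τ a) fun t _ => B t :=
  fun t _ _ h => ⟨congrArg τ (walk_agree h t le_rfl), rfl⟩

theorem hit1 {τ σ : Perm V} {a : V} {l t : ℕ} {B : ℕ → Perm V → Finset V}
    (hinj : ∀ u v, u < v → v < l → ((σ * τ) ^ u) a ≠ ((σ * τ) ^ v) a) (ht : t < l)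
    (hB : ((σ * τ) ^ (t + 1)) a ∈ B t σ) : Hit (q1 τ a) B t σ :=
  ⟨fun u hu he => hinj u t hu ht (τ.injective he), by rw [walk_succ] at hB; exact hB⟩

/-- The queries of two consecutive walks. -/
def q2 (τ τ' : Perm V) (a : V) (L t : ℕ) (σ : Perm V) : V :=
  if t < L then q1 τ a t σ else q1 τ' a (t - L) σ

/-- `x` was queried by the first walk. -/
def In1 (τ : Perm V) (a : V) (L : ℕ) (σ : Perm V) (x : V) : Prop := ∃ s < L, q1 τ a s σ = x

open Classical in
/-- The targets for two consecutive walks. -/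
noncomputable def B2 (τ τ' : Perm V) (a : V) (L t : ℕ) (σ : Perm V) : Finset V :=
  if t < L then {a} else univ.filter fun z => (∀ s < L, σ (q1 τ a s σ) ≠ z) ∧
    ∃ v, (∀ v' < v, In1 τ a L σ (τ' (((σ * τ') ^ v') z))) ∧ ((σ * τ') ^ v) z = a

open Classical in
theorem card_B2 (τ τ' : Perm V) (a : V) (L t : ℕ) (σ : Perm V) : #(B2 τ τ' a L t σ) ≤ 1 := by
  unfold B2
  split_ifs
  · simp
  have key : ∀ z z' : V, ∀ v v' : ℕ, v ≤ v' → (∀ s < L, σ (q1 τ a s σ) ≠ z) →
      (∀ w < v', In1 τ a L σ (τ' (((σ * τ') ^ w) z'))) → ((σ * τ') ^ v) z = a →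
      ((σ * τ') ^ v') z' = a → z = z' := fun z z' v v' hv h1 h2 h3 h4 => by
    obtain ⟨d, rfl⟩ := Nat.exists_eq_add_of_le hv
    rw [pow_add, Perm.mul_apply, ← h3] at h4
    have h5 := ((σ * τ') ^ v).injective h4
    obtain _ | d := d
    · exact h5.symm
    · obtain ⟨s, hs, he⟩ := h2 d (by omega)
      rw [walk_succ, ← he] at h5
      exact absurd h5 (h1 s hs)
  refine card_le_one.2 fun z hz z' hz' => ?_
  obtain ⟨h1, v, h2, h3⟩ := (mem_filter.1 hz).2
  obtain ⟨h1', v', h2', h3'⟩ := (mem_filter.1 hz').2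
  rcases le_total v v' with h | h
  · exact key z z' v v' h h1 h2' h3 h3'
  · exact (key z' z v' v h h1' h2 h3' h3).symm

open Classical in
theorem B2_sub {τ τ' σ σ' : Perm V} {a : V} {L t : ℕ}
    (h : ∀ s < L, q1 τ a s σ' = q1 τ a s σ ∧ σ' (q1 τ a s σ) = σ (q1 τ a s σ)) (ht : ¬ t < L) :
    B2 τ τ' a L t σ ⊆ B2 τ τ' a L t σ' := by
  intro z hz
  unfold B2 at hz ⊢
  rw [if_neg ht] at hz ⊢
  obtain ⟨h1, v, h2, h3⟩ := (mem_filter.1 hz).2
  have hw := walk_agree (σ := σ) (σ' := σ') (τ := τ') (z := z) (v := v) fun s hs => by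
    obtain ⟨r, hr, he⟩ := h2 s hs
    rw [← he]; exact (h r hr).2
  refine mem_filter.2 ⟨mem_univ _, fun s hs => ?_, v, fun v' hv' => ?_, ?_⟩
  · rw [(h s hs).1, (h s hs).2]; exact h1 s hs
  · obtain ⟨r, hr, he⟩ := h2 v' hv'
    exact ⟨r, hr, by rw [(h r hr).1, hw v' hv'.le, he]⟩
  · rw [hw v le_rfl, h3]

theorem loc2 (τ τ' : Perm V) (a : V) (L : ℕ) : Loc (q2 τ τ' a L) (B2 τ τ' a L) := by
  intro t σ σ' h
  by_cases ht : t < L
  · refine ⟨?_, by simp only [B2, if_pos ht]⟩
    simp only [q2, if_pos ht]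
    refine congrArg τ (walk_agree (fun s hs => ?_) t le_rfl)
    have := h s hs
    simp only [q2, if_pos (hs.trans ht)] at this
    exact this
  have h1 : ∀ s < L, σ' (q1 τ a s σ) = σ (q1 τ a s σ) := fun s hs => by
    have := h s (by omega)
    simp only [q2, if_pos hs] at this
    exact this
  have h2 : ∀ s < L, q1 τ a s σ' = q1 τ a s σ := fun s hs =>
    congrArg τ (walk_agree h1 s hs.le)
  refine ⟨?_, Subset.antisymm (B2_sub (fun s hs => ⟨(h2 s hs).symm, ?_⟩) ht)
    (B2_sub (fun s hs => ⟨h2 s hs, h1 s hs⟩) ht)⟩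
  · simp only [q2, if_neg ht]
    refine congrArg τ' (walk_agree (fun s hs => ?_) (t - L) le_rfl)
    have := h (L + s) (by omega)
    simp only [q2, if_neg (show ¬ L + s < L by omega), Nat.add_sub_cancel_left] at this
    exact this
  · rw [h2 s hs, h1 s hs]

open Classical in
theorem two_cases {τ τ' σ : Perm V} {a : V} {L : ℕ} (hne : ∀ z, τ z ≠ τ' z)
    (h : Short (σ * τ) L a) (h' : Short (σ * τ') L a) :
    (∃ p ∈ (range L).offDiag, ∀ t ∈ ({p.1, p.2} : Finset ℕ),
      Hit (q1 τ a) (fun t _ => if t = p.1 then {τ⁻¹ (τ' a)} else {a}) t σ) ∨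
    ∃ p ∈ range L ×ˢ range L, ∀ t ∈ ({p.1, L + p.2} : Finset ℕ),
      Hit (q2 τ τ' a L) (B2 τ τ' a L) t σ := by
  obtain ⟨l, l1, l2, l3, l4⟩ := h.period
  obtain ⟨l', l1', l2', l3', l4'⟩ := h'.period
  have hl : l - 1 + 1 = l := by omega
  by_cases hc : In1 τ a L σ (τ' a)
  · obtain ⟨s, -, hs⟩ := hc
    have hu : τ (((σ * τ) ^ (s % l)) a) = τ' a := by rw [pow_mod_apply l3]; exact hs
    have hul : s % l < l := Nat.mod_lt _ l1
    have hu0 : s % l ≠ 0 := fun h0 => by rw [h0] at hu; exact hne a hu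
    refine Or.inl ⟨(s % l - 1, l - 1), mem_offDiag.2 ⟨mem_range.2 (by simp only; omega),
      mem_range.2 (by simp only; omega), by simp only; omega⟩, fun t ht => ?_⟩
    rcases mem_insert.1 ht with rfl | ht
    · refine hit1 l4 (by simp only; omega) ?_
      have : s % l - 1 + 1 = s % l := by omega
      simp only [if_true, this, mem_singleton, ← hu]
      simp
    · obtain rfl := mem_singleton.1 ht
      refine hit1 l4 (by simp only; omega) ?_
      have : l - 1 ≠ s % l - 1 := by omega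
      simp only [if_neg this, hl, l3, mem_singleton]
  · obtain ⟨u, hu, hP, hmax⟩ := exists_last (fun u => ¬ In1 τ a L σ (q1 τ' a u σ)) l1' hc
    refine Or.inr ⟨(l - 1, u), mem_product.2 ⟨mem_range.2 (by simp only; omega),
      mem_range.2 (by simp only; omega)⟩, fun t ht => ?_⟩
    rcases mem_insert.1 ht with rfl | ht
    · have hlt : l - 1 < L := by omega
      refine ⟨fun w hw => ?_, ?_⟩
      · simp only [q2, if_pos hlt, if_pos (lt_trans hw hlt)]
        exact fun he => l4 w (l - 1) hw (by omega) (τ.injective he)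
      · simp only [q2, B2, if_pos hlt, q1, ← walk_succ, hl, l3, mem_singleton]
    · obtain rfl := mem_singleton.1 ht
      have hlt : ¬ L + u < L := by omega
      refine ⟨fun w hw => ?_, ?_⟩
      · simp only [q2, if_neg hlt, Nat.add_sub_cancel_left]
        split_ifs with hw'
        · exact fun he => hP ⟨w, hw', he⟩
        · exact fun he => l4' (w - L) u (by simp only at hw; omega) hu (τ'.injective he)
      · simp only [q2, B2, if_neg hlt, Nat.add_sub_cancel_left]
        have hpow : ∀ v, ((σ * τ') ^ v) (σ (q1 τ' a u σ)) = ((σ * τ') ^ (v + (u + 1))) a :=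
          fun v => by rw [pow_add, Perm.mul_apply, walk_succ]; rfl
        refine mem_filter.2 ⟨mem_univ _, fun s hs he => hP ⟨s, hs, σ.injective he⟩,
          l' - (u + 1), fun v' hv' => ?_, ?_⟩
        · rw [hpow]
          exact not_not.1 (hmax (v' + (u + 1)) (by omega) (by omega))
        · rw [hpow, Nat.sub_add_cancel (by omega), l3']

end short

theorem short : S_SHORT := by
  intro V _ _ τ τ' L a hL
  rcases Nat.eq_zero_or_pos L with rfl | hpos
  · have : ∀ ρ : Perm V, ¬ Short ρ 0 a := fun ρ h => by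
      obtain ⟨l, h1, h2, -⟩ := h.period; omega
    refine ⟨?_, fun _ => ?_⟩
    · rw [Pr_false fun σ => this _]; simp
    · rw [Pr_false fun σ h => this _ h.1]; simp
  have hn : 4 * (L : ℝ) ≤ Fintype.card V := by exact_mod_cast hL
  have hL0 : (0 : ℝ) < L := by exact_mod_cast hpos
  have hn0 : (0 : ℝ) < Fintype.card V := by linarith
  have hb1 : 1 / ((Fintype.card V : ℝ) - L) ≤ 2 / Fintype.card V := by
    rw [div_le_div_iff₀ (by linarith) hn0]; linarith
  have hb2 : 1 / ((Fintype.card V : ℝ) - (L + L : ℕ)) ≤ 2 / Fintype.card V := by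
    push_cast
    rw [div_le_div_iff₀ (by linarith) hn0]; linarith
  have hp1 : 0 ≤ 1 / ((Fintype.card V : ℝ) - L) := div_nonneg zero_le_one (by linarith)
  have hp2 : 0 ≤ 1 / ((Fintype.card V : ℝ) - (L + L : ℕ)) :=
    div_nonneg zero_le_one (by push_cast; linarith)
  refine ⟨?_, fun hne => ?_⟩
  · have h1 : Pr (fun σ : Perm V => Short (σ * τ) L a) ≤
        Pr (fun σ : Perm V => ∃ t ∈ range L, ∀ s ∈ ({t} : Finset ℕ),
          Hit (q1 τ a) (fun _ _ => {a}) s σ) := by
      refine Pr_mono fun σ h => ?_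
      obtain ⟨l, l1, l2, l3, l4⟩ := h.period
      refine ⟨l - 1, mem_range.2 (by omega), fun s hs => ?_⟩
      obtain rfl := mem_singleton.1 hs
      refine hit1 l4 (by omega) ?_
      rw [Nat.sub_add_cancel l1, l3]
      exact mem_singleton_self a
    refine h1.trans ((Pr_exists_le' _ _ (δ := 2 / Fintype.card V) fun t ht => ?_).trans
      (le_of_eq ?_))
    · have := hits_le (loc1 τ a fun _ => {a}) (m := L) (by omega) (fun _ _ => by simp) {t}
        (singleton_subset_iff.2 ht)
      rw [card_singleton, pow_one] at this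
      exact this.trans hb1
    · rw [card_range]; ring
  · refine (Pr_le_add fun σ h => two_cases hne h.1 h.2).trans ?_
    have hA := Pr_exists_le' (range L).offDiag (fun p (σ : Perm V) =>
      ∀ t ∈ ({p.1, p.2} : Finset ℕ),
        Hit (q1 τ a) (fun t _ => if t = p.1 then {τ⁻¹ (τ' a)} else {a}) t σ)
      (δ := (2 / Fintype.card V) ^ 2) fun p hp => by
        obtain ⟨h1, h2, h3⟩ := mem_offDiag.1 hp
        have := hits_le (loc1 τ a fun t => if t = p.1 then {τ⁻¹ (τ' a)} else {a}) (m := L)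
          (by omega) (fun _ _ => by split_ifs <;> simp) {p.1, p.2}
          (insert_subset h1 (singleton_subset_iff.2 h2))
        rw [card_pair h3] at this
        exact this.trans (pow_le_pow_left₀ hp1 hb1 2)
    have hB := Pr_exists_le' (range L ×ˢ range L) (fun p (σ : Perm V) =>
      ∀ t ∈ ({p.1, L + p.2} : Finset ℕ), Hit (q2 τ τ' a L) (B2 τ τ' a L) t σ)
      (δ := (2 / Fintype.card V) ^ 2) fun p hp => by
        obtain ⟨h1, h2⟩ := mem_product.1 hp
        have h1 := mem_range.1 h1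
        have h2 := mem_range.1 h2
        have := hits_le (loc2 τ τ' a L) (m := L + L) (by omega) (card_B2 τ τ' a L)
          {p.1, L + p.2} (insert_subset (mem_range.2 (by omega))
            (singleton_subset_iff.2 (mem_range.2 (by omega))))
        rw [card_pair (by omega)] at this
        exact this.trans (pow_le_pow_left₀ hp2 hb2 2)
    have hc : (#(range L).offDiag : ℝ) ≤ L * L := by
      rw [offDiag_card, card_range]
      exact_mod_cast Nat.sub_le _ _
    rw [card_product, card_range, Nat.cast_mul] at hB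
    have hA' := hA.trans (mul_le_mul_of_nonneg_right hc (sq_nonneg _))
    refine (add_le_add hA' hB).trans (le_of_eq ?_)
    ring

end Pool.Agent.P.MP_de899d_pr
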