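import Pool.Agent.P.MP_de899d_pr.Couple
import Pool.Agent.P.MP_de899d_pr.Base2
import Pool.Agent.P.MP_de899d_pr.Query

/-! The two-round exposure in the middle range, where loops at low vertices matter. -/

set_option linter.unusedSectionVars false
set_option linter.unusedVariables false

namespace Pool.Agent.P.MP_de899d_pr
open Finset Equiv

variable {V : Type} [Fintype V] [DecidableEq V]

/-- The failure event for a fixed `k`, with loopless degrees. -/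
def BadT {M : ℕ} (T T'' k : ℕ) (U : V × V → Fin M) : Prop :=
  ∃ t, T ≤ t ∧ t ≤ T'' ∧ (∀ x, k ≤ rdeg (fun e => (U e : ℕ) < t ∧ e.1 ≠ e.2) x) ∧
    (∀ y, k ≤ rdeg (tr fun e => (U e : ℕ) < t ∧ e.1 ≠ e.2) y) ∧ ¬ Tgt k fun e => (U e : ℕ) < t

/-- The static properties of the middle range. -/
def Static2 (G' G'' : V × V → Prop) (a a' μ s w K : ℕ) : Prop :=
  PA G' a s ∧ PA (tr G') a s ∧ PD G'' a' μ w ∧ PD (tr G'') a' μ w ∧ PE G' K w

/-- Relabelling the columns. -/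
def rl (σ : Perm V) (G : V × V → Prop) : V × V → Prop := fun e => G (e.1, σ⁻¹ e.2)

theorem eN_rl (σ : Perm V) (G : V × V → Prop) (X Z : Finset V) :
    eN (rl σ G) X Z = eN G X (Z.image fun y => σ⁻¹ y) := by
  rw [eN_col, eN_col, sum_image fun _ _ _ _ h => σ⁻¹.injective h]
  rfl

theorem rdeg_rl (σ : Perm V) (G : V × V → Prop) (x : V) : rdeg (rl σ G) x = rdeg G x :=
  le_antisymm (rdeg_mono σ⁻¹ fun _ h => h) (rdeg_mono σ fun y h => by simpa [rl] using h)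

theorem low_rl (σ : Perm V) (G : V × V → Prop) (a : ℕ) : low (rl σ G) a = low G a := by
  simp only [low, rdeg_rl]

theorem low_tr_rl (σ : Perm V) (G : V × V → Prop) (a : ℕ) :
    low (tr (rl σ G)) a = (low (tr G) a).image σ := by
  ext y
  simp only [low, mem_filter, mem_univ, true_and, mem_image]
  refine ⟨fun h => ⟨σ⁻¹ y, h, by simp⟩, ?_⟩
  rintro ⟨z, h, rfl⟩
  exact le_trans (rdeg_mono 1 fun x hx => by simpa [tr, rl] using hx) h

theorem Static2.rl {G' G'' : V × V → Prop} {a a' μ s w K : ℕ} (h : Static2 G' G'' a a' μ s w K)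
    (σ : Perm V) : Static2 (rl σ G') (rl σ G'') a a' μ s w K := by
  obtain ⟨h1, h2, h3, h4, h5⟩ := h
  have c : ∀ Z : Finset V, #(Z.image fun y => σ⁻¹ y) = #Z := fun Z =>
    card_image_of_injective _ σ⁻¹.injective
  refine ⟨by rwa [PA, low_rl], by rw [PA, low_tr_rl]; exact card_image_le.trans h2,
    fun X Z a b => ?_, fun X Z a b => ?_, fun X Z a b => ?_⟩
  · rw [eN_rl, ← c Z]; exact h3 X _ a (by rwa [c])
  · rw [eN_tr, eN_rl, ← eN_tr, ← c X]; exact h4 _ Z (by rwa [c]) (by rwa [c])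
  · rw [eN_rl, ← c Z]; exact h5 X _ a (by rwa [c])

theorem Pr_meet (L L' : Finset V) (hn : 2 ≤ Fintype.card V) :
    Pr (fun σ : Perm V => ¬ Disjoint L (L'.image σ)) ≤ 2 * (#L * #L') / Fintype.card V := by
  have h2 : (2 : ℝ) ≤ Fintype.card V := by exact_mod_cast hn
  refine le_trans (Pr_mono (E' := fun σ => ∃ p ∈ L ×ˢ L', σ p.2 = p.1) fun σ h => ?_)
    ((Pr_exists_le' _ _ (δ := 2 / Fintype.card V) fun p _ => ?_).trans (le_of_eq ?_))
  · obtain ⟨x, hx, h⟩ := not_disjoint_iff.mp h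
    obtain ⟨z, hz, rfl⟩ := mem_image.mp h
    exact ⟨(σ z, z), mem_product.mpr ⟨hx, hz⟩, rfl⟩
  · have := hits_le (q := fun _ _ => p.2) (B := fun _ _ => {p.1}) (fun _ _ _ _ => ⟨rfl, rfl⟩)
      (m := 1) (by omega) (by simp) {0} (by simp)
    refine le_trans (Pr_mono fun σ h => by simpa [Hit] using h) (this.trans ?_)
    rw [card_singleton, pow_one, div_le_div_iff₀ (by push_cast; linarith) (by linarith)]
    push_cast
    linarith
  · rw [card_product]; push_cast; ring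

theorem adm_of {π N : Perm V} {L L' : Finset V} (hd : Disjoint L L')
    (h1 : ∀ x, π x ∈ L ∨ π x ∈ L' → N x = π x)
    (h2 : ∀ S : Finset V, S.Nonempty → S ⊆ L ∨ S ⊆ L' → ¬ Cl N S) (S : Finset V) (hS : S.Nonempty)
    (hc : Cl π S) : ∃ a ∈ S, a ∉ L ∧ π a ∉ L' := by
  by_contra h
  push Not at h
  have c1 : Cl π (S \ L) := fun z hz => mem_sdiff.mpr ⟨hc z (mem_sdiff.mp hz).1,
    fun h' => disjoint_left.mp hd h' (h z (mem_sdiff.mp hz).1 (mem_sdiff.mp hz).2)⟩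
  by_cases h3 : (S \ L).Nonempty
  · refine h2 _ h3 (Or.inr fun z hz => ?_) fun z hz => ?_
    · have h4 : π⁻¹ z ∈ S \ L := Surg.cl_inv c1 (by simpa using hz)
      simpa using h _ (mem_sdiff.mp h4).1 (mem_sdiff.mp h4).2
    · rw [h1 z (Or.inr (h z (mem_sdiff.mp hz).1 (mem_sdiff.mp hz).2))]
      exact c1 z hz
  · have h4 : S ⊆ L := by simpa using h3
    exact h2 S hS (Or.inl h4) fun z hz => by rw [h1 z (Or.inl (h4 (hc z hz)))]; exact hc z hz

theorem inner_bound2 (hfact : S_FACT2) {T R l T'' a a' μ s w K k κ : ℕ} [NeZero R] {μ0 η b : ℝ}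
    (hb : 0 ≤ b) (hη : 0 ≤ η) (hn : 2 ≤ Fintype.card V) (hs : 0 < s) (hk : 4 * s ≤ k)
    (hμ : 4 * s ≤ μ) (hk' : k + μ + 3 * s ≤ a) (ha : a' + 3 * s ≤ a)
    (hK : k * w + (2 * s + 1) * Fintype.card V ≤ K * w) (hT : T ≤ T'')
    (hinit : ∀ M : Fin k → Perm V, Disj M →
      Pr (fun σ : Perm V => ¬ Few (fun j => σ * M j) κ μ0) ≤ η)
    (h23 : ∀ (Γ : V × V → Prop) (π : Fin k → Perm V) (Lr Lc : Finset V), Disj π →
      (∀ j x, Γ (x, π j x)) → Few π κ μ0 → #Lr ≤ s → #Lc ≤ s →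
      (∀ j (S : Finset V), S.Nonempty → Cl (π j) S → ∃ a ∈ S, a ∉ Lr ∧ π j a ∉ Lc) →
      Bd k (fun i : Fin R => (i : ℕ) < l) Γ (fun e => e.1 ∈ Lr ∨ e.2 ∈ Lc) ≤ b)
    (α : V × V → Fin (T + R)) (β₁ : V × V → Fin R)
    (hS : Static2 (fun e => (mix (α e, β₁ e) : ℕ) < T) (fun e => (mix (α e, β₁ e) : ℕ) < T'')
      a a' μ s w K) :
    Ex (fun σ : Perm V => Pr fun β₂ : V × V → Fin R =>
      Disjoint (low (fun e => (α e : ℕ) < T) a) ((low (tr fun e => (α e : ℕ) < T) a).image σ) ∧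
      BadT (T + l) T'' k fun e : V × V =>
      mix (α (e.1, σ⁻¹ e.2), splice (fun e : V × V => e.1 ∈ low (fun e => (α e : ℕ) < T) a ∨
        e.2 ∈ low (tr fun e => (α e : ℕ) < T) a) β₁ β₂ (e.1, σ⁻¹ e.2))) ≤
      (Fintype.card V : ℝ) ^ (2 * s) * η + b := by
  classical
  have hG : (fun e => (mix (α e, β₁ e) : ℕ) < T) = fun e => (α e : ℕ) < T :=
    funext fun e => propext (mix_lt _)
  rw [hG] at hS
  set G' : V × V → Prop := fun e => (α e : ℕ) < T with hG'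
  set Lr := low G' a with hLr
  set Lc := low (tr G') a with hLc
  set X : V × V → Prop := fun e => e.1 ∈ Lr ∨ e.2 ∈ Lc with hX
  let U₁ : V × V → ℕ := fun e => mix (α e, β₁ e)
  let L : Perm V → ℕ → Prop := fun σ t => t ≤ T'' ∧
    (∀ x ∈ Lr, k ≤ rdeg (fun e => U₁ e < t ∧ σ⁻¹ e.1 ≠ e.2) x) ∧
    ∀ y ∈ Lc, k ≤ rdeg (tr fun e => U₁ e < t ∧ e.1 ≠ σ e.2) y
  let ξ : Perm V → (Lr → V) × (Lc → V) := fun σ => (fun x => σ⁻¹ x, fun z => σ z)
  let B : ℕ → V × V → Prop := fun τ e => G' e ∨ (X e ∧ U₁ e < τ)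
  have key : ∀ ζ : (Lr → V) × (Lc → V), ∃ (M : Fin k → Perm V) (τ : ℕ), ∀ σ, ξ σ = ζ →
      Disjoint Lr (Lc.image σ) → (∃ t, L σ t) → Disj M ∧ (∀ j x, B τ (x, M j x)) ∧
        (∀ t, L σ t → τ ≤ t) ∧ ∀ j (S : Finset V), S.Nonempty → Cl (σ * M j) S →
          ∃ a ∈ S, a ∉ Lr ∧ (σ * M j) a ∉ Lc.image σ := by
    intro ζ
    by_cases hex : ∃ σ, ξ σ = ζ ∧ Disjoint Lr (Lc.image σ) ∧ ∃ t, L σ t
    swap
    · exact ⟨fun _ => 1, 0, fun σ h1 h2 h3 => absurd ⟨σ, h1, h2, h3⟩ hex⟩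
    obtain ⟨σ₀, rfl, hd, hex⟩ := hex
    obtain ⟨τ1, τ2, τ3⟩ := Nat.find_spec hex
    obtain ⟨p1, p2, p3, p4, p5⟩ := hS.rl σ₀
    obtain ⟨N, hN, hNB, hNc⟩ := hfact V (rl σ₀ G') (rl σ₀ (B (Nat.find hex)))
      (rl σ₀ fun e => U₁ e < T'') a a' μ s w k K (fun e => Or.inl)
      (fun e he => he.elim (fun h => lt_of_lt_of_le ((mix_lt (α _, β₁ _)).mpr h) hT)
        fun h => lt_of_lt_of_le h.2 τ1)
      (fun x hx => by
        rw [low_rl] at hx
        exact (τ2 x hx).trans (rdeg_mono σ₀ fun y h =>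
          ⟨Or.inr ⟨Or.inl hx, by simpa using h.1⟩, fun h' => h.2 (by
            simp only at h' ⊢; rw [h']; simp)⟩))
      (fun y hy => by
        rw [low_tr_rl] at hy
        obtain ⟨z, hz, rfl⟩ := mem_image.mp hy
        exact (τ3 z hz).trans (rdeg_mono 1 fun x h =>
          ⟨Or.inr ⟨Or.inr (by simpa using hz), by simpa [tr] using h.1⟩, h.2⟩))
      (by rwa [low_rl, low_tr_rl]) p1 p2 p3 p4 p5 hs hk hμ hk' ha hK
    rw [low_rl, low_tr_rl] at hNc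
    refine ⟨fun j => σ₀⁻¹ * N j, Nat.find hex, fun σ h1 h2 _ => ?_⟩
    have e1 : ∀ x ∈ Lr, σ⁻¹ x = σ₀⁻¹ x := fun x hx => congrFun (congrArg Prod.fst h1) ⟨x, hx⟩
    have e2 : ∀ z ∈ Lc, σ z = σ₀ z := fun z hz => congrFun (congrArg Prod.snd h1) ⟨z, hz⟩
    have e3 : Lc.image σ = Lc.image σ₀ := image_congr e2
    refine ⟨fun i j hij x h => hN i j hij x (σ₀⁻¹.injective h), hNB, fun t ht =>
      Nat.find_min' hex ⟨ht.1, fun x hx => (ht.2.1 x hx).trans (rdeg_mono 1 fun y h =>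
        ⟨h.1, e1 x hx ▸ h.2⟩), fun y hy => (ht.2.2 y hy).trans (rdeg_mono 1 fun x h =>
        ⟨h.1, e2 y hy ▸ h.2⟩)⟩, fun j => adm_of (N := N j) h2 (fun x hx => ?_) (e3 ▸ hNc j)⟩
    rcases hx with hx | hx
    · have := e1 _ hx
      exact σ₀⁻¹.injective (by simpa using this)
    · obtain ⟨z, hz, h⟩ := mem_image.mp hx
      have h3 : z = σ₀⁻¹ (N j x) := σ.injective h
      rw [← h, e2 z hz, h3]
      simp
  choose M τ hM using key
  have hL : ∀ (σ : Perm V) (β₂ : V × V → Fin R) (t : ℕ), t ≤ T'' →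
      (∀ x, k ≤ rdeg (fun e : V × V =>
        (mix (α (e.1, σ⁻¹ e.2), splice X β₁ β₂ (e.1, σ⁻¹ e.2)) : ℕ) < t ∧ e.1 ≠ e.2) x) →
      (∀ y, k ≤ rdeg (tr fun e : V × V =>
        (mix (α (e.1, σ⁻¹ e.2), splice X β₁ β₂ (e.1, σ⁻¹ e.2)) : ℕ) < t ∧ e.1 ≠ e.2) y) →
      L σ t := by
    intro σ β₂ t h1 h2 h3
    refine ⟨h1, fun x hx => (h2 x).trans (rdeg_mono σ⁻¹ fun y h => ⟨?_, σ⁻¹.injective.ne h.2⟩),
      fun y hy => (h3 (σ y)).trans (rdeg_mono 1 fun x h => ⟨?_, h.2⟩)⟩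
    · have := h.1
      rwa [splice_in (A := X) _ _ (Or.inl hx)] at this
    · have := h.1
      simp only [Prod.swap_prod_mk, Perm.coe_one, id_eq, Perm.coe_inv, symm_apply_apply] at this ⊢
      rwa [splice_in (A := X) _ _ (Or.inr hy)] at this
  have p1 : #Lr ≤ s := hS.1
  have p2 : #Lc ≤ s := hS.2.1
  refine le_trans (Ex_le_of_good (G := fun σ : Perm V =>
    ∀ ζ, Disj (M ζ) → Few (fun j => σ * M ζ j) κ μ0) hb (fun σ => Pr_le_one _) ?_)
    (add_le_add_left ((Pr_mono (E' := fun σ : Perm V => ∃ ζ, Disj (M ζ) ∧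
      ¬ Few (fun j => σ * M ζ j) κ μ0) fun σ h => ?_).trans
        ((Pr_exists_univ _ (δ := η) fun ζ => ?_).trans ?_)) _)
  · intro σ hF
    by_cases hd : Disjoint Lr (Lc.image σ)
    swap
    · exact le_trans (Pr_false fun β₂ h => hd h.1).le hb
    by_cases hex : ∃ t, L σ t
    swap
    · refine le_trans (Pr_false ?_).le hb
      rintro β₂ ⟨-, t, -, h1, h2, h3, -⟩
      exact hex ⟨t, hL σ β₂ t h1 h2 h3⟩
    obtain ⟨m1, m2, m3, m4⟩ := hM _ σ rfl hd hex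
    refine le_trans ?_ (h23 (fun e => B (τ (ξ σ)) (e.1, σ⁻¹ e.2)) _ _ _
      (fun i j hij x h => m1 i j hij x (σ.injective h)) (fun j x => by simpa using m2 j x)
      (hF _ m1) p1 (card_image_le.trans p2) m4)
    rw [Bd]
    refine le_trans (Pr_mono ?_) (Pr_col σ _).le
    rintro β₂ ⟨-, t, h0, h1, h2, h3, h4⟩ h5
    refine h4 (Tgt.mono ?_ h5)
    have hτt := m3 t (hL σ β₂ t h1 h2 h3)
    rintro e ((h | h) | h) <;> beta_reduce
    · exact lt_of_lt_of_le ((mix_lt (_, _)).mpr h) (by omega)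
    · rw [splice_in _ _ h.1]
      exact lt_of_lt_of_le h.2 hτt
    · rw [splice_out]
      · exact lt_of_lt_of_le (mix_lt_add _ h.1) h0
      · rintro (h' | h')
        · exact h.2 (Or.inl h')
        · exact h.2 (Or.inr (mem_image.mpr ⟨_, h', by simp⟩))
  · push Not at h
    exact h
  · by_cases h : Disj (M ζ)
    · exact le_trans (Pr_mono fun σ h => h.2) (hinit _ h)
    · exact le_trans (Pr_false fun σ h' => h h'.1).le hη
  · refine mul_le_mul_of_nonneg_right ?_ hη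
    rw [Fintype.card_prod, Fintype.card_fun, Fintype.card_fun, Fintype.card_coe, Fintype.card_coe,
      ← pow_add]
    exact_mod_cast Nat.pow_le_pow_right (by omega) (by omega)

theorem interval2 (hfact : S_FACT2) {T R l T'' a a' μ s w K K' κ : ℕ} [NeZero R] {μ0 η b : ℝ}
    (hb : 0 ≤ b) (hη : 0 ≤ η) (hn : 2 ≤ Fintype.card V) (hs : 0 < s) (hμ : 4 * s ≤ μ)
    (hk' : K + μ + 3 * s ≤ a) (ha : a' + 3 * s ≤ a) (h4 : 4 * s ≤ K)
    (hK : K * w + (2 * s + 1) * Fintype.card V ≤ K' * w) (hT : T ≤ T'')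
    (hinit : ∀ k ≤ K, ∀ M : Fin k → Perm V, Disj M →
      Pr (fun σ : Perm V => ¬ Few (fun j => σ * M j) κ μ0) ≤ η)
    (h23 : ∀ k ≤ K, ∀ (Γ : V × V → Prop) (π : Fin k → Perm V) (Lr Lc : Finset V), Disj π →
      (∀ j x, Γ (x, π j x)) → Few π κ μ0 → #Lr ≤ s → #Lc ≤ s →
      (∀ j (S : Finset V), S.Nonempty → Cl (π j) S → ∃ a ∈ S, a ∉ Lr ∧ π j a ∉ Lc) →
      Bd k (fun i : Fin R => (i : ℕ) < l) Γ (fun e => e.1 ∈ Lr ∨ e.2 ∈ Lc) ≤ b) :
    Pr (fun U : V × V → Fin (T + R) => ∃ k, BadT (T + l) T'' k U) ≤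
      Pr (fun U : V × V → Fin (T + R) => ∀ x, K < rdeg (fun e => (U e : ℕ) < T'') x) +
      (Pr (fun U : V × V → Fin (T + R) => ¬ ∀ x, 4 * s < rdeg (fun e => (U e : ℕ) < T) x ∧
        4 * s < rdeg (tr fun e => (U e : ℕ) < T) x) +
      (Pr (fun U : V × V → Fin (T + R) =>
        ¬ Static2 (fun e => (U e : ℕ) < T) (fun e => (U e : ℕ) < T'') a a' μ s w K') +
        (2 * s ^ 2 / Fintype.card V + (K + 1) * ((Fintype.card V : ℝ) ^ (2 * s) * η + b)))) := by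
  classical
  have : NeZero (T + R) := ⟨by have := NeZero.ne R; omega⟩
  refine le_trans (Pr_le_add ?_) (add_le_add_right (le_trans (Pr_le_add
    (E₂ := fun U => ∃ k ∈ Icc (4 * s) K, BadT (T + l) T'' k U) fun U h => h)
    (add_le_add_right ?_ _)) _)
  · rintro U ⟨k, t, h0, h1, h2, h3, h5⟩
    by_cases h : k ≤ K
    swap
    · exact Or.inl fun x => lt_of_lt_of_le (by omega) ((h2 x).trans
        (rdeg_mono 1 fun y hy => lt_of_lt_of_le hy.1 h1))
    right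
    by_cases h6 : 4 * s ≤ k
    · exact Or.inr ⟨k, mem_Icc.mpr ⟨h6, h⟩, t, h0, h1, h2, h3, h5⟩
    refine or_iff_not_imp_left.mpr fun h7 => ⟨4 * s, mem_Icc.mpr ⟨le_rfl, h4⟩, t, h0, h1,
      fun x => ?_, fun x => ?_, fun h8 => h5 (h8.le (by omega))⟩
    · have e1 := (not_not.mp h7 x).1
      have e2 := rdeg_or_le (G := fun e => (U e : ℕ) < T) (G₂ := Gr fun _ : Unit => 1)
        (G₁ := fun e => (U e : ℕ) < t ∧ e.1 ≠ e.2) (fun e he => or_iff_not_imp_right.mpr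
          fun h => ⟨by omega, fun h' => h ⟨(), h'⟩⟩) x
      have e3 := (rdeg_Gr_le (fun _ : Unit => (1 : Perm V)) x).1
      rw [Fintype.card_unit] at e3
      omega
    · have e1 := (not_not.mp h7 x).2
      have e2 := rdeg_or_le (G := tr fun e => (U e : ℕ) < T) (G₂ := tr (Gr fun _ : Unit => 1))
        (G₁ := tr fun e => (U e : ℕ) < t ∧ e.1 ≠ e.2) (fun e he => or_iff_not_imp_right.mpr
          fun h => ⟨lt_of_lt_of_le he (by omega), fun h' => h ⟨(), h'⟩⟩) x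
      have e3 := (rdeg_Gr_le (fun _ : Unit => (1 : Perm V)) x).2
      rw [Fintype.card_unit] at e3
      omega
  set E : (V × V → Fin (T + R)) → Prop := fun U => ∃ k ∈ Icc (4 * s) K, BadT (T + l) T'' k U
  have h1 : Pr E = Ex fun σ : Perm V => Pr fun U : V × V → Fin (T + R) =>
      E fun e => U (e.1, σ⁻¹ e.2) := by
    simp only [Pr_col, Ex_const]
  rw [h1, Pr_mix fun U : V × V → Fin (T + R) =>
    ¬ Static2 (fun e => (U e : ℕ) < T) (fun e => (U e : ℕ) < T'') a a' μ s w K']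
  simp only [Pr_mix (fun U : V × V → Fin (T + R) => E fun e => U (e.1, _))]
  rw [Ex_comm, ← Ex_const (Ω := V × V → Fin (T + R)) (2 * s ^ 2 / Fintype.card V + _), ← Ex_add]
  refine Ex_mono fun α => ?_
  simp only [Pr_splice (fun e : V × V => e.1 ∈ low (fun e => (α e : ℕ) < T) a ∨
        e.2 ∈ low (tr fun e => (α e : ℕ) < T) a)
    (fun β : V × V → Fin R => E fun e => mix (α (e.1, _), β (e.1, _)))]
  rw [Ex_comm]
  refine Ex_le_of_good (by positivity) (fun β₁ => Ex_le_const fun σ => Pr_le_one _)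
    fun β₁ hS => ?_
  have hG : (fun e => (mix (α e, β₁ e) : ℕ) < T) = fun e => (α e : ℕ) < T :=
    funext fun e => propext (mix_lt _)
  have p1 := hS.1
  have p2 := hS.2.1
  rw [hG, PA] at p1 p2
  refine le_trans (Ex_mono fun σ => (Pr_le_add (E₁ := fun _ => ¬ Disjoint
    (low (fun e => (α e : ℕ) < T) a) ((low (tr fun e => (α e : ℕ) < T) a).image σ))
    fun β₂ h => or_iff_not_imp_left.mpr fun h' => h.imp fun k hk =>
      And.intro hk.1 (And.intro (not_not.mp h') hk.2)).trans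
      (add_le_add_right (Pr_exists_le _ _) _)) ?_
  rw [Ex_add, Ex_sum]
  refine add_le_add (le_trans (le_of_eq ?_) ((Pr_meet (low (fun e => (α e : ℕ) < T) a)
    (low (tr fun e => (α e : ℕ) < T) a) hn).trans (by rw [sq]; gcongr)))
    (le_trans (sum_le_card_nsmul _ _ ((Fintype.card V : ℝ) ^ (2 * s) * η + b) fun k hk => ?_) ?_)
  · simp only [Pr, Ex_const]
  · obtain ⟨k1, k2⟩ := mem_Icc.mp hk
    exact inner_bound2 hfact hb hη hn hs k1 hμ (by omega) ha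
      (le_trans (Nat.add_le_add_right (Nat.mul_le_mul_right _ k2) _) hK) hT (hinit k k2)
      (h23 k k2) α β₁ hS
  · rw [nsmul_eq_mul, Nat.card_Icc]
    gcongr
    exact_mod_cast (by omega)

end Pool.Agent.P.MP_de899d_pr
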