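import Pool.Agent.P.MP_de899d_pr.Base2

/-! Extending small matchings to Hamilton cycles inside the blown-up classes. -/

set_option linter.unusedSectionVars false
set_option linter.unusedVariables false

namespace Pool.Agent.P.MP_de899d_pr
open Finset Equiv

namespace Cover

variable {V : Type} [Fintype V] [DecidableEq V]

open Classical in
/-- Tails of the entries of `G`. -/
noncomputable def tl (G : V × V → Prop) : Finset V := univ.filter fun x => ∃ y, G (x, y)

theorem mem_tl {G : V × V → Prop} {x : V} : x ∈ tl G ↔ ∃ y, G (x, y) := by simp [tl]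

theorem card_tl {G : V × V → Prop} (h : ∀ e f, G e → G f → e.1 = f.1 → e = f) (X : Finset V) :
    #(X ∩ tl G) = eN G X univ := by
  classical
  unfold eN
  symm
  refine card_bij (fun e _ => e.1) (fun e he => ?_) (fun e he f hf hef => ?_) fun x hx => ?_
  · obtain ⟨h1, h2⟩ := mem_filter.mp he
    exact mem_inter.mpr ⟨(mem_product.mp h1).1, mem_tl.mpr ⟨e.2, h2⟩⟩
  · exact h e f (mem_filter.mp he).2 (mem_filter.mp hf).2 hef
  · obtain ⟨h1, h2⟩ := mem_inter.mp hx
    obtain ⟨y, hy⟩ := mem_tl.mp h2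
    exact ⟨(x, y), mem_filter.mpr ⟨mem_product.mpr ⟨h1, mem_univ _⟩, hy⟩, rfl⟩

theorem row_le (R : V × V → Prop) (x : V) (C D : Finset V) (h : ∀ y, R (x, y) → y ∈ C) :
    rdeg R x ≤ eN R {x} (C \ D) + #D := by
  classical
  rw [← eN_row1]
  have h1 : #(({x} : Finset V) ×ˢ D) = #D := by simp
  rw [← h1]
  refine le_trans (card_le_card fun e he => ?_) (card_union_le _ _)
  obtain ⟨h2, h3⟩ := mem_filter.mp he
  have h4 := (mem_product.mp h2).1
  by_cases hD : e.2 ∈ D
  · exact mem_union_right _ (mem_product.mpr ⟨h4, hD⟩)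
  · refine mem_union_left _ (mem_filter.mpr ⟨mem_product.mpr ⟨h4, mem_sdiff.mpr ⟨?_, hD⟩⟩, h3⟩)
    refine h _ ?_
    rw [← mem_singleton.mp h4]
    exact h3

theorem all_of_succ (Q : Fin 16 → Prop) (h : ∀ a, Q a → Q (a + 1)) {a : Fin 16} (ha : Q a)
    (b : Fin 16) : Q b := by
  have h1 : ∀ n : ℕ, Q (a + Fin.ofNat 16 n) := by
    intro n
    induction n with
    | zero => simpa using ha
    | succ n ih =>
      have e : Fin.ofNat 16 (n + 1) = Fin.ofNat 16 n + 1 := by
        ext
        simp [Fin.val_add]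
      rw [e, ← add_assoc]
      exact h _ ih
  have h2 := h1 (b - a).val
  have e : Fin.ofNat 16 (b - a).val = b - a := by
    ext
    simp
  rwa [e, add_sub_cancel] at h2

/-- One piece is extended to one Hamilton cycle. -/
theorem step (hext : S_EXT) (cT cH : V → Fin 16) (m : ℕ) (G R : V × V → Prop) (q β B : ℕ)
    (hc : Clu cT cH m) (hR : ∀ e, R e → cT e.1 = cH e.2) (hi : Irr G)
    (h1 : ∀ x, 10 * β + B ≤ rdeg R x) (h2 : ∀ y, 10 * β + B ≤ rdeg (tr R) y)
    (hd : ∀ a (X Y : Finset V), X ⊆ fib cT a → Y ⊆ fib cH a → β ≤ #X → β ≤ #Y →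
      #X * #Y ≤ 2 * q * eN R X Y)
    (hbal : ∀ a, eN G (fib cT a) univ = eN G univ (fib cH a)) (hB : eN G univ univ ≤ B)
    (hm : ∀ e f, G e → G f → e ≠ f → e.1 ≠ f.1 ∧ e.1 ≠ f.2 ∧ e.2 ≠ f.2) (hβ : 0 < β)
    (h3 : 32 * q * β + B ≤ m) (h4 : 8 * B < m) :
    ∃ π : Perm V, Ham π ∧ (∀ e, G e → π e.1 = e.2) ∧ ∀ x, G (x, π x) ∨ R (x, π x) := by
  classical
  have i1 : ∀ e f, G e → G f → e.1 = f.1 → e = f :=
    fun e f he hf h => by_contra fun hne => (hm e f he hf hne).1 h
  have i2 : ∀ e f, G e → G f → e.2 = f.2 → e = f :=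
    fun e f he hf h => by_contra fun hne => (hm e f he hf hne).2.2 h
  have i3 : ∀ e f, tr G e → tr G f → e.1 = f.1 → e = f :=
    fun e f he hf h => Prod.swap_injective (i2 _ _ he hf h)
  set T := tl G with hT
  set D := tl (tr G) with hD
  have cT' : ∀ X, #(X ∩ T) = eN G X univ := card_tl i1
  have cD' : ∀ X, #(X ∩ D) = eN G univ X := fun X => by rw [hD, card_tl i3, eN_tr]
  have hTB : #T ≤ B := by simpa using (cT' univ).le.trans hB
  have hDB : #D ≤ B := by simpa using (cD' univ).le.trans hB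
  obtain ⟨σ, hσ⟩ := Equiv.Perm.exists_extending_pair (f := fun e : {e // G e} => e.1.1)
    (g := fun e : {e // G e} => e.1.2) (fun e f h => Subtype.ext (i1 _ _ e.2 f.2 h))
    fun e f h => Subtype.ext (i2 _ _ e.2 f.2 h)
  have hσ' : ∀ e, G e → σ e.1 = e.2 := fun e he => hσ ⟨e, he⟩
  have hTD : ∀ x, x ∈ T ↔ σ x ∈ D := fun x => by
    rw [mem_tl, mem_tl]
    constructor
    · rintro ⟨y, hy⟩
      exact ⟨x, by rw [hσ' _ hy]; exact hy⟩
    · rintro ⟨y, hy⟩
      have : σ y = σ x := hσ' (y, σ x) hy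
      exact ⟨σ x, σ.injective this ▸ hy⟩
  let W : Fin 16 → Finset V := fun a => fib cT a \ T
  let U : Fin 16 → Finset V := fun a => fib cH a \ D
  have hWU : ∀ a, #(W a) = #(U a) := fun a => by
    have e1 := card_sdiff_add_card_inter (fib cT a) T
    have e2 := card_sdiff_add_card_inter (fib cH a) D
    have := hc.eq a
    rw [cT'] at e1
    rw [cD', ← hbal] at e2
    simp only [W, U]
    omega
  have hW : ∀ a, 32 * q * β ≤ #(W a) := fun a => by
    have e1 := le_card_sdiff T (fib cT a)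
    have := (hc.size a).1
    simp only [W]
    omega
  have mW : ∀ {a x}, x ∈ W a ↔ cT x = a ∧ x ∉ T := by simp [W, mem_fib]
  have mU : ∀ {a x}, x ∈ U a ↔ cH x = a ∧ x ∉ D := by simp [U, mem_fib]
  obtain ⟨π₀, hπ₀⟩ := exists_perm_fib
    (fun x => if x ∈ T then Sum.inr x else Sum.inl (cT x) : V → Fin 16 ⊕ V)
    (fun y => if y ∈ D then Sum.inr (σ.symm y) else Sum.inl (cH y)) (by
      rintro (a | z)
      · refine (congrArg card ?_).trans ((hWU a).trans (congrArg card ?_))
        · ext x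
          rw [mem_fib, mW]
          split_ifs with h <;> simp [h]
        · ext x
          rw [mem_fib, mU]
          split_ifs with h <;> simp [h]
      · rw [← card_map σ.toEmbedding]
        congr 1
        ext y
        have e := hTD (σ.symm y)
        rw [apply_symm_apply] at e
        rw [mem_map_equiv, mem_fib, mem_fib]
        by_cases h : y ∈ D <;> simp [e, h])
  have key : ∀ J : Finset (Fin 16), ∃ π : Perm V, (∀ x ∈ T, π x = σ x) ∧
      (∀ a, (W a).image π = U a) ∧ ∀ a ∈ J, (∀ x ∈ W a, R (x, π x)) ∧ Thru π (W a) := by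
    intro J
    induction J using Finset.induction_on with
    | empty =>
      refine ⟨π₀, fun x hx => ?_, fun a => ?_, by simp⟩
      · have := hπ₀ x
        rw [if_pos hx] at this
        split_ifs at this with h
        exact (symm_apply_eq σ).mp (Sum.inr.inj this)
      · refine eq_of_subset_of_card_le (fun y hy => ?_)
          (by rw [card_image_of_injective _ π₀.injective, hWU])
        obtain ⟨x, hx, rfl⟩ := mem_image.mp hy
        have := hπ₀ x
        rw [if_neg (mW.mp hx).2] at this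
        split_ifs at this with h
        exact mU.mpr ⟨(Sum.inl.inj this).trans (mW.mp hx).1, h⟩
    | insert a J ha ih =>
      obtain ⟨π, p1, p2, p3⟩ := ih
      obtain ⟨π', q1, q2, q3, q4, q5⟩ := hext V π (W a) R β hβ
        (fun x hx => by
          have := row_le R x (fib cH a) D fun y hy =>
            mem_fib.mpr ((hR _ hy).symm.trans (mW.mp hx).1)
          have := h1 x
          rw [p2]
          simp only [U]
          omega)
        (fun y hy => by
          rw [p2] at hy
          have := row_le (tr R) y (fib cT a) T fun x hx =>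
            mem_fib.mpr ((hR _ hx).trans (mU.mp hy).1)
          have := h2 y
          rw [← eN_tr]
          simp only [W]
          omega)
        (fun X Y hX hY bX bY => by
          rw [p2] at hY
          have e1 := Nat.mul_le_mul_left (16 * β)
            (hd a X Y (hX.trans sdiff_subset) (hY.trans sdiff_subset) bX bY)
          have e2 := Nat.mul_le_mul_right (eN R X Y) (hW a)
          nlinarith)
      have hoff : ∀ b, b ≠ a → ∀ x ∈ W b, π' x = π x := fun b hb x hx =>
        q1 x fun hx' => hb ((mW.mp hx).1.symm.trans (mW.mp hx').1)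
      refine ⟨π', fun x hx => (q1 x fun h => (mW.mp h).2 hx).trans (p1 x hx), fun b => ?_,
        fun b hb => ?_⟩
      · by_cases hb : b = a
        · rw [hb, q4, p2]
        · rw [← p2]
          exact image_congr fun x hx => hoff b hb x hx
      · rcases mem_insert.mp hb with rfl | hb
        · exact ⟨q2, q3⟩
        · refine ⟨fun x hx => ?_, (p3 b hb).2.coarsen q5⟩
          rw [hoff b (ne_of_mem_of_not_mem hb ha) x hx]
          exact (p3 b hb).1 x hx
  obtain ⟨π, p1, p2, p3⟩ := key univ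
  have hG : ∀ e, G e → π e.1 = e.2 := fun e he =>
    (p1 _ (mem_tl.mpr ⟨e.2, he⟩)).trans (hσ' e he)
  refine ⟨π, ham_of_thru (W := Tᶜ) (fun S hS w hw hwS => ?_) fun S hS hcl => ?_, hG, fun x => ?_⟩
  · have hall := all_of_succ (fun a => W a ⊆ S) (fun a hs => ?_)
      ((p3 _ (mem_univ _)).2 S hS w (mW.mpr ⟨rfl, mem_compl.mp hw⟩) hwS)
    · exact fun x hx => hall (cT x) (mW.mpr ⟨rfl, mem_compl.mp hx⟩)
    have e1 := hc.link a
    have e2 := card_union_le T D
    obtain ⟨v, hv, hv'⟩ := exists_mem_notMem_of_card_lt_card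
      (s := T ∪ D) (t := fib cH a ∩ fib cT (a + 1)) (by omega)
    rw [mem_inter, mem_fib, mem_fib] at hv
    rw [mem_union, not_or] at hv'
    have e3 : v ∈ (W a).image π := by rw [p2]; exact mU.mpr ⟨hv.1, hv'.2⟩
    obtain ⟨u, hu, rfl⟩ := mem_image.mp e3
    exact (p3 _ (mem_univ _)).2 S hS _ (mW.mpr ⟨hv.2, hv'.1⟩) (hS u (hs hu))
  · obtain ⟨z, hz⟩ := hS
    by_cases hzT : z ∈ T
    · obtain ⟨y, hy⟩ := mem_tl.mp hzT
      refine ⟨π z, mem_compl.mpr fun h => ?_, hcl z hz⟩
      obtain ⟨y', hy'⟩ := mem_tl.mp h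
      have e1 : π z = y := hG _ hy
      rw [e1] at hy'
      by_cases e2 : (y, y') = (z, y)
      · rw [← (Prod.mk.inj e2).1] at hy
        exact hi _ hy
      · exact (hm _ _ hy' hy e2).2.1 rfl
    · exact ⟨z, mem_compl.mpr hzT, hz⟩
  · by_cases hx : x ∈ T
    · obtain ⟨y, hy⟩ := mem_tl.mp hx
      have e1 : π x = y := hG _ hy
      exact Or.inl (e1 ▸ hy)
    · exact Or.inr ((p3 _ (mem_univ _)).1 x (mW.mpr ⟨rfl, hx⟩))

end Cover

theorem cover (hext : S_EXT) : S_COVER := by
  intro V _ _ cT cH m A L t χ r q β B hc hA hL h1 h2 hd hp hβ hq h3 h4 h5 h6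
  obtain ⟨H, a, b⟩ := seq_choice (I := Fin t) (α := Perm V)
    (fun i g => Ham g ∧ (∀ e, L e → χ e = i → g e.1 = e.2) ∧
      ∀ x, (L (x, g x) ∧ χ (x, g x) = i) ∨ A (x, g x))
    (fun _ g _ g' => ∀ x, g x ≠ g' x) (fun _ _ _ _ h x => (h x).symm) (by
      intro i S g hi hg
      have hs : ∀ e, A e → (A e ∧ ¬ Gr g e) ∨ Gr g e := fun e he =>
        (em (Gr g e)).elim Or.inr fun h => Or.inl ⟨he, h⟩
      have hz := rdeg_Gr_le g
      rw [Fintype.card_fin] at hz
      obtain ⟨π, p1, p2, p3⟩ := Cover.step hext cT cH m (fun e => L e ∧ χ e = i)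
        (fun e => A e ∧ ¬ Gr g e) q β B hc (fun e he => (hA e he.1).1) (fun x h => hL x h.1)
        (fun x => by
          have := rdeg_or_le hs x
          have := (hz x).1
          have := h1 x
          omega)
        (fun y => by
          have := rdeg_or_le (G := tr A) (G₁ := tr fun e => A e ∧ ¬ Gr g e) (G₂ := tr (Gr g))
            (fun e => hs e.swap) y
          have := (hz y).2
          have := h2 y
          omega)
        (fun a X Y hX hY bX bY =>
          den_remove (hd a X Y hX hY bX bY) hs (fun x => (hz x).1) (h3.trans bY))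
        (hp i).1 (hp i).2.1 (fun e f he hf => (hp i).2.2 e f he.1 hf.1 he.2 hf.2) hβ h5 h6
      refine ⟨π, ⟨p1, fun e h h' => p2 e ⟨h, h'⟩, fun x => (p3 x).imp id And.left⟩,
        fun j hj x hx => ?_⟩
      rcases p3 x with h | h
      · rcases (hg j hj).2.2 x with h' | h'
        · rw [← hx] at h'
          exact hi (h.2 ▸ h'.2 ▸ hj)
        · rw [← hx] at h'
          exact (hA _ h').2 h.1
      · exact h.2 ⟨j, hx.symm⟩)
  exact ⟨H, fun i => (a i).1, b, fun e he => (a _).2.1 e he rfl,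
    fun i x => ((a i).2.2 x).imp And.left id⟩

end Pool.Agent.P.MP_de899d_pr
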