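import Pool.Agent.P.MP_de899d_pr.Prob

/-! Definitions and interface statements for the packing of Hamilton cycles. -/

set_option linter.unusedSectionVars false

namespace Pool.Agent.P.MP_de899d_pr
open Finset Equiv

section defs
variable {V : Type} [Fintype V] [DecidableEq V]

/-- `S` is closed under `π`. -/
def Cl (π : Perm V) (S : Finset V) : Prop := ∀ z ∈ S, π z ∈ S

/-- `π` has a single orbit. -/
def Ham (π : Perm V) : Prop := ∀ S : Finset V, S.Nonempty → Cl π S → S = univ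

/-- Pairwise edge-disjoint permutations. -/
def Disj {k : ℕ} (π : Fin k → Perm V) : Prop := ∀ i j, i ≠ j → ∀ x, π i x ≠ π j x

/-- `Γ` contains `k` edge-disjoint single-orbit permutations. -/
def Tgt (k : ℕ) (Γ : V × V → Prop) : Prop :=
  ∃ H : Fin k → Perm V, (∀ j, Ham (H j)) ∧ Disj H ∧ ∀ j x, Γ (x, H j x)

/-- `x` and `y` are within `n0` steps along `π`. -/
def near (π : Perm V) (n0 : ℕ) (x y : V) : Prop := ∃ i ≤ n0, (π ^ i) x = y ∨ (π ^ i) y = x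

/-- A system of anchors: every small closed set contains a fresh anchor. -/
structure Anch {k : ℕ} (π : Fin k → Perm V) (n0 : ℕ) (Up Um : Finset V)
    (An : Finset (Fin k × V)) : Prop where
  small : ∀ j (S : Finset V), S.Nonempty → Cl (π j) S → #S ≤ n0 → ∃ a ∈ S, (j, a) ∈ An
  tail : ∀ p ∈ An, p.2 ∉ Up
  head : ∀ p ∈ An, π p.1 p.2 ∉ Um
  tinj : ∀ p ∈ An, ∀ q ∈ An, p.2 = q.2 → p = q
  hinj : ∀ p ∈ An, ∀ q ∈ An, π p.1 p.2 = π q.1 q.2 → p = q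

/-- Known edges together with the reservoir edges in unexposed rows and columns. -/
def avail {A : Type} (Γ : V × V → Prop) (Rs : A → Prop) (Up Um : Finset V) (β : V × V → A)
    (e : V × V) : Prop := Γ e ∨ (Rs (β e) ∧ e.1 ∉ Up ∧ e.2 ∉ Um)

open Classical in
/-- Number of entries of `G` in `X × Y`. -/
noncomputable def eN (G : V × V → Prop) (X Y : Finset V) : ℕ := #((X ×ˢ Y).filter G)

/-- Transpose. -/
def tr (G : V × V → Prop) : V × V → Prop := fun e => G e.swap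

open Classical in
/-- Row degree. -/
noncomputable def rdeg (G : V × V → Prop) (x : V) : ℕ := #(univ.filter fun y => G (x, y))

/-- Low rows. -/
noncomputable def low (G' : V × V → Prop) (a : ℕ) : Finset V := univ.filter fun x => rdeg G' x ≤ a

def PA (G' : V × V → Prop) (a s : ℕ) : Prop := #(low G' a) ≤ s

open Classical in
def PB1 (G' G'' : V × V → Prop) (a c : ℕ) : Prop :=
  ∀ y, #((low G' a).filter fun x => G'' (x, y)) ≤ c

open Classical in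
def PB2 (G' G'' : V × V → Prop) (a : ℕ) : Prop :=
  ∀ x, x ∉ low G' a → #(univ.filter fun y => G'' (x, y) ∧ ∃ x1 ∈ low G' a, G'' (x1, y)) ≤ 1

def PC (G'' : V × V → Prop) (μ s : ℕ) : Prop :=
  ∀ X Z : Finset V, #X ≤ s → #Z ≤ 2 * s → eN G'' X Z < 2 * #Z ∨ eN G'' X Z ≤ (μ - 1) * #X

def PD (G'' : V × V → Prop) (a μ w : ℕ) : Prop :=
  ∀ X Z : Finset V, #X ≤ w → #Z ≤ 2 * #X → 2 * eN G'' X Z ≤ μ * #X ∨ 4 * eN G'' X Z ≤ a * #Z

def PE (G' : V × V → Prop) (K w : ℕ) : Prop :=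
  ∀ X Y : Finset V, w < #X → w < #Y → K * (#X * #Y) ≤ Fintype.card V * eN G' X Y

/-- The one-sided pseudorandom properties used for the existence of a `k`-factor. -/
def RowP (G' G'' : V × V → Prop) (a μ s w k c : ℕ) : Prop :=
  PA G' a s ∧ PB1 G' G'' a c ∧ PD G'' a μ w ∧
    (2 * s ≤ k ∨ (PC G'' μ s ∧ (c + 2 ≤ k ∨ (c ≤ 1 ∧ PB2 G' G'' a))))

end defs

/-- Existence of `k` disjoint perfect matchings. -/
def S_FACT : Prop := ∀ (V : Type) [Fintype V] [DecidableEq V] (G' B G'' : V × V → Prop)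
  (a μ s w k c : ℕ), (∀ e, G' e → B e) → (∀ e, B e → G'' e) →
  (∀ x, k ≤ rdeg B x) → (∀ y, k ≤ rdeg (tr B) y) → k + μ ≤ a + 1 → 4 * c ≤ μ → 1 ≤ μ →
  RowP G' G'' a μ s w k c → RowP (tr G') (tr G'') a μ s w k c → PE G' k w →
  ∃ M : Fin k → Perm V, Disj M ∧ ∀ j x, B (x, M j x)

/-- Surgery along an alternating structure with pairwise far cut points. -/
def S_SURG : Prop := ∀ (V : Type) [Fintype V] [DecidableEq V] (π σ : Perm V) (n0 : ℕ)
  (S D : Finset V) (a : V), (∀ z, z ∉ S → σ z = z) → (∀ z ∈ S, σ z ≠ z) →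
  (∀ x ∈ S, ∀ y ∈ S, near π n0 x y → x = y) → (∀ z ∈ S, z ∈ D → z = a) →
  (∀ O : Finset V, O.Nonempty → Cl π O → #O ≤ n0 → ∃ b ∈ O, b ∈ D) →
  ∀ O : Finset V, O.Nonempty → Cl (π * σ) O → #O ≤ n0 → ∃ b ∈ O, b ∈ D ∧ b ∉ S

open Classical in
/-- Two large zones that are far from each other, and the size of a neighbourhood. -/
def S_ZONE : Prop := ∀ (V : Type) [Fintype V] [DecidableEq V] (π : Perm V) (n0 : ℕ),
  (∀ x, #(univ.filter fun y => near π n0 x y) ≤ 2 * n0 + 2) ∧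
  ∃ Z₁ Z₂ : Finset V, Fintype.card V ≤ 2 * #Z₁ + 1 ∧ Fintype.card V ≤ 2 * #Z₂ + 4 * n0 ∧
    ∀ x ∈ Z₁, ∀ y ∈ Z₂, ¬ near π n0 x y

/-- Merging all orbits into the orbit of `r` by disjoint transpositions. -/
def S_MERGE : Prop := ∀ (V : Type) [Fintype V] [DecidableEq V] (π σ : Perm V) (r : V),
  (∀ z, σ (σ z) = z) → (∀ z, σ z ≠ z → ¬ (π.SameCycle r z ↔ π.SameCycle r (σ z))) →
  (∀ z, ¬ π.SameCycle r z → ∃! y, π.SameCycle z y ∧ σ y ≠ y) → Ham (π * σ)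

/-- The last phase: all orbits are long. -/
def S_PH3 : Prop := ∀ (V A : Type) [Fintype V] [DecidableEq V] [Fintype A] [Nonempty A]
  (Rs : A → Prop) (k n0 : ℕ) (Γ : V × V → Prop) (π : Fin k → Perm V) (Up Um : Finset V),
  Disj π → (∀ j x, Γ (x, π j x)) →
  (∀ j (S : Finset V), S.Nonempty → Cl (π j) S → n0 < #S) →
  2 * (#Up + #Um) ≤ n0 → 8 * k ≤ n0 → 0 < n0 →
  Pr (fun β : V × V → A => ¬ Tgt k (avail Γ Rs Up Um β)) ≤
    k * (Fintype.card V / n0 : ℝ) * Real.exp (-(Pr Rs ^ 2 * n0 ^ 2 / 8)) +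
      k ^ 2 * Pr Rs ^ 3 * (Fintype.card V : ℝ) ^ 2 + k ^ 2 * Pr Rs ^ 4 * (Fintype.card V : ℝ) ^ 3

/-- Adaptive queries to a uniform permutation. -/
def S_QUERY : Prop := ∀ (V : Type) [Fintype V] [DecidableEq V] (q : ℕ → Perm V → V)
  (B : ℕ → Perm V → Finset V) (b c θ : ℕ → ℝ) (m : ℕ), m < Fintype.card V →
  (∀ t π π', (∀ u < t, π' (q u π) = π (q u π)) → q t π' = q t π ∧ B t π' = B t π) →
  (∀ t π, (#(B t π) : ℝ) ≤ b t) → (∀ t, 0 ≤ c t) → (∀ t, 0 ≤ θ t) →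
  Ex (fun π : Perm V => ∏ t ∈ range m,
      (c t + if (∀ u < t, q u π ≠ q t π) ∧ π (q t π) ∈ B t π then θ t else 0)) ≤
    ∏ t ∈ range m, (c t + θ t * b t / (Fintype.card V - m))

/-- `a` lies on an orbit of length at most `L`. -/
def Short {V : Type} [Fintype V] [DecidableEq V] (π : Perm V) (L : ℕ) (a : V) : Prop :=
  ∃ S : Finset V, a ∈ S ∧ Cl π S ∧ #S ≤ L

/-- Short orbits of one and of two disjoint random permutations. -/
def S_SHORT : Prop := ∀ (V : Type) [Fintype V] [DecidableEq V] (τ τ' : Perm V) (L : ℕ) (a : V),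
  4 * L ≤ Fintype.card V →
  Pr (fun σ : Perm V => Short (σ * τ) L a) ≤ 2 * L / (Fintype.card V : ℝ) ∧
  ((∀ z, τ z ≠ τ' z) → Pr (fun σ : Perm V => Short (σ * τ) L a ∧ Short (σ * τ') L a) ≤
    8 * (L : ℝ) ^ 2 / (Fintype.card V : ℝ) ^ 2)

/-- Anchors exist after a random relabelling of the columns. -/
def S_INIT : Prop := ∀ (V : Type) [Fintype V] [DecidableEq V] (k n0 κ L s : ℕ)
  (M : Fin k → Perm V) (Zp Zm : Finset V), Disj M → #Zp ≤ s → #Zm ≤ s →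
  2 * (k * κ) + 2 * s ≤ L → 4 * L ≤ Fintype.card V →
  Pr (fun σ : Perm V => ¬ ∃ An : Finset (Fin k × V),
      Anch (fun j => σ * M j) n0 Zp (Zm.image σ) An ∧ #An ≤ k * κ) ≤
    k * ((Fintype.card V + 1 : ℝ) / 2 ^ κ) + 4 * k * s * L / (Fintype.card V : ℝ) +
      8 * k ^ 2 * (L : ℝ) ^ 2 / (Fintype.card V : ℝ)

/-- Probabilities of the low-degree properties. -/
def S_STAT1 : Prop := ∀ (V A : Type) [Fintype V] [DecidableEq V] [Fintype A] [Nonempty A]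
  (P' P'' : A → Prop) (a s : ℕ) (q : ℝ), (∀ l, P' l → P'' l) → Pr P' ≤ 1 / 4 → 0 < s →
  Pr (fun r : V → A => cnt univ (fun _ => P') r ≤ a) ≤ q →
  Pr (fun U : V × V → A => ¬ PA (fun e => P' (U e)) a s) ≤ Fintype.card V * q / s ∧
  Pr (fun U : V × V → A => ¬ PB1 (fun e => P' (U e)) (fun e => P'' (U e)) a 1) ≤
    (Fintype.card V : ℝ) ^ 3 * (2 * Pr P'' * q) ^ 2 ∧
  Pr (fun U : V × V → A => ¬ PB2 (fun e => P' (U e)) (fun e => P'' (U e)) a) ≤
    (Fintype.card V : ℝ) ^ 5 * Pr P'' ^ 2 * (2 * Pr P'' * q) ^ 2 +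
      (Fintype.card V : ℝ) ^ 4 * Pr P'' ^ 2 * (2 * Pr P'' ^ 2 * q)

/-- Probabilities of the density properties. -/
def S_STAT2 : Prop := ∀ (V A : Type) [Fintype V] [DecidableEq V] [Fintype A] [Nonempty A]
  (P : A → Prop) (a μ s w K : ℕ) (x C : ℝ),
  (1 ≤ x → (Fintype.card V : ℝ) = x ^ 100 → 101 ≤ μ → 2 * s * Pr P * x ^ 60 ≤ 1 →
    Pr (fun U : V × V → A => ¬ PC (fun e => P (U e)) μ s) ≤ (s + 1) * (2 * s + 1) / x ^ 900) ∧
  (1 ≤ C → 12 * (Pr P * Fintype.card V) ≤ C * a → 9 * C * w ≤ Fintype.card V → 6 ≤ μ →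
    (9 * C) ^ 3 * Real.exp (3 - μ / 2) ≤ 1 / 2 →
    Pr (fun U : V × V → A => ¬ PD (fun e => P (U e)) a μ w) ≤
      2 * ((9 * C) ^ 3 * Real.exp (3 - μ / 2))) ∧
  (0 < Pr P → (K : ℝ) + μ ≤ Pr P * Fintype.card V →
    Pr (fun U : V × V → A => ¬ PE (fun e => P (U e)) K w) ≤
      4 ^ Fintype.card V * Real.exp (-(μ ^ 2 * w ^ 2 / (2 * Pr P * (Fintype.card V : ℝ) ^ 2))))

/-- A threshold in the lower tail of the binomial distribution. -/
def S_BINOM : Prop := ∀ (V A : Type) [Fintype V] [DecidableEq V] [Fintype A] [Nonempty A]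
  (P : A → Prop) (b J : ℕ) (q r : ℝ), 0 < Pr P → 0 < q → q * (Pr P * Fintype.card V + 1) < 1 →
  J ≤ b → 0 ≤ r → r ≤ 1 → r * (Pr P * Fintype.card V) ≤ (b - J : ℝ) * (1 - Pr P) →
  Pr (fun ω : V → A => cnt univ (fun _ => P) ω ≤ b) ≤ q / 2 →
  ∃ a : ℕ, b ≤ a ∧ (a : ℝ) ≤ Pr P * Fintype.card V ∧
    Pr (fun ω : V → A => cnt univ (fun _ => P) ω ≤ a) ≤ q ∧
    q / (2 * (a + 2)) * r ^ (J + 1) ≤ Pr (fun ω : V → A => cnt univ (fun _ => P) ω + J ≤ a)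

/-- From independent labels to a uniformly random order. -/
def S_TRANS : Prop := ∀ (ι : Type) [Fintype ι] [DecidableEq ι] (N M : ℕ) [NeZero M]
  (Bad : (ι ≃ Fin N) → Prop) (Bad' : (ι → Fin M) → Prop), Fintype.card ι = N →
  (∀ (o : ι ≃ Fin N) (U : ι → Fin M), (∀ e e', o e < o e' → U e < U e') → Bad o → Bad' U) →
  Pr Bad ≤ Pr Bad' + (N : ℝ) ^ 2 / M

end Pool.Agent.P.MP_de899d_pr
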