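import Pool.Agent.P.MP_de899d_pr.Defs

/-! Growing a tree of alternating paths in fresh rows. -/

set_option linter.unusedSectionVars false
set_option linter.unusedVariables false

namespace Pool.Agent.P.MP_de899d_pr
open Finset Equiv

variable {V A : Type} [Fintype V] [DecidableEq V] [Fintype A] [Nonempty A]

theorem Tgt.mono {k : ℕ} {Γ Γ' : V × V → Prop} (h : ∀ e, Γ e → Γ' e) (hT : Tgt k Γ) :
    Tgt k Γ' := by
  obtain ⟨H, h1, h2, h3⟩ := hT
  exact ⟨H, h1, h2, fun j x => h _ (h3 j x)⟩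

/-- Failure probability with known edges `Γ` and exposed entries `Q`. -/
noncomputable def Bd (k : ℕ) (Rs : A → Prop) (Γ Q : V × V → Prop) : ℝ :=
  Pr fun β : V × V → A => ¬ Tgt k fun e => Γ e ∨ (Rs (β e) ∧ ¬ Q e)

theorem Bd_mono {k : ℕ} {Rs : A → Prop} {Γ Γ' Q Q' : V × V → Prop} (h1 : ∀ e, Γ e → Γ' e)
    (h2 : ∀ e, Q' e → Q e) : Bd k Rs Γ' Q' ≤ Bd k Rs Γ Q :=
  Pr_mono fun β hβ hT => hβ (Tgt.mono (hT := hT) fun e he =>
    he.elim (fun h => Or.inl (h1 e h)) fun h => Or.inr ⟨h.1, fun h' => h.2 (h2 e h')⟩)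

theorem Bd_step {k : ℕ} {Rs : A → Prop} {Γ Q : V × V → Prop} (X : V × V → Prop)
    (G : (V × V → A) → Prop) {b : ℝ} (hb : 0 ≤ b)
    (h : ∀ ω, G ω → Bd k Rs (fun e => Γ e ∨ (X e ∧ ¬ Q e ∧ Rs (ω e))) (fun e => Q e ∨ X e) ≤ b) :
    Bd k Rs Γ Q ≤ Pr (fun ω => ¬ G ω) + b := by
  refine Pr_step X hb fun ω hω => le_trans ?_ (h ω hω)
  refine Pr_mono fun ω' h1 h2 => h1 (Tgt.mono ?_ h2)
  rintro e ((he | ⟨h3, h4, h5⟩) | ⟨h3, h4⟩)
  · exact Or.inl he
  · exact Or.inr ⟨by rwa [splice_in _ _ h3], h4⟩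
  · rw [not_or] at h4
    exact Or.inr ⟨by rwa [splice_out _ _ h4.2], h4.1⟩

/-- An alternating path from `a` to `v`, closed up by the phantom step `v ↦ a`. -/
structure Pth (H nr : V → V → Prop) (Z : Finset V) (a v : V) (S : Finset V) (σ : Perm V) :
    Prop where
  cl : σ v = a
  ha : a ∈ S
  hv : v ∈ S
  out : ∀ z, z ∉ S → σ z = z
  edge : ∀ z ∈ S, z ≠ v → H z (σ z) ∧ σ z ≠ z
  far : ∀ x ∈ S, ∀ y ∈ S, nr x y → x = y
  zone : ∀ z ∈ S, z = a ∨ z ∈ Z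

theorem Pth.mono {H H' nr : V → V → Prop} {Z : Finset V} {a v : V} {S : Finset V} {σ : Perm V}
    (h : Pth H nr Z a v S σ) (hH : ∀ x y, H x y → H' x y) : Pth H' nr Z a v S σ :=
  ⟨h.cl, h.ha, h.hv, h.out, fun z hz hv => ⟨hH _ _ (h.edge z hz hv).1, (h.edge z hz hv).2⟩,
    h.far, h.zone⟩

theorem Pth.start (H nr : V → V → Prop) (Z : Finset V) (a : V) : Pth H nr Z a a {a} 1 :=
  ⟨rfl, mem_singleton_self _, mem_singleton_self _, fun _ _ => rfl,
    fun z hz hv => absurd (mem_singleton.mp hz) hv,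
    fun x hx y hy _ => (mem_singleton.mp hx).trans (mem_singleton.mp hy).symm,
    fun z hz => Or.inl (mem_singleton.mp hz)⟩

theorem Pth.ext {H nr : V → V → Prop} (hr : ∀ x, nr x x) (hs : ∀ x y, nr x y → nr y x)
    {Z : Finset V} {a v x : V} {S : Finset V} {σ : Perm V} (h : Pth H nr Z a v S σ)
    (hx : x ∈ Z) (hf : ∀ s ∈ S, ¬ nr s x) (hH : H v x) :
    Pth H nr Z a x (insert x S) (σ * swap v x) := by
  have hxS : x ∉ S := fun h' => hf x h' (hr x)
  have hxv : x ≠ v := fun h' => hxS (h' ▸ h.hv)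
  refine ⟨by simp [h.cl], mem_insert_of_mem h.ha, mem_insert_self _ _, fun z hz => ?_,
    fun z hz hzx => ?_, fun p hp q hq hn => ?_, fun z hz => ?_⟩
  · rw [mem_insert, not_or] at hz
    have : z ≠ v := fun h' => hz.2 (h' ▸ h.hv)
    rw [Perm.mul_apply, swap_apply_of_ne_of_ne this hz.1, h.out z hz.2]
  · have hzS : z ∈ S := (mem_insert.mp hz).resolve_left hzx
    by_cases hzv : z = v
    · subst hzv
      rw [Perm.mul_apply, swap_apply_left, h.out x hxS]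
      exact ⟨hH, hxv⟩
    · rw [Perm.mul_apply, swap_apply_of_ne_of_ne hzv hzx]
      exact h.edge z hzS hzv
  · rcases mem_insert.mp hp with hp | hp <;> rcases mem_insert.mp hq with hq | hq
    · rw [hp, hq]
    · exact absurd (hs _ _ (hp ▸ hn)) (hf _ hq)
    · exact absurd (hq ▸ hn) (hf _ hp)
    · exact h.far p hp q hq hn
  · rcases mem_insert.mp hz with rfl | hz
    · exact Or.inr hx
    · exact h.zone z hz

theorem Pr_some (Rs : A → Prop) (S : Finset V) (h : Pr Rs * #S ≤ 1) :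
    Pr Rs * #S / 2 ≤ Pr fun c : V → A => ∃ v ∈ S, Rs (c v) := by
  have h1 := Pr_none S (fun _ => Rs) (μ := Pr Rs * #S) (by simp [mul_comm])
  have h2 := Pr_not fun c : V → A => ∃ v ∈ S, Rs (c v)
  have h3 : Pr (fun c : V → A => ¬ ∃ v ∈ S, Rs (c v)) =
      Pr fun c : V → A => ∀ v ∈ S, ¬ Rs (c v) := Pr_congr fun c => by simp
  have h0 : 0 ≤ Pr Rs * #S := mul_nonneg (Pr_nonneg _) (Nat.cast_nonneg _)
  generalize Pr Rs * #S = y at *
  have h4 : Real.exp (-y) ≤ 1 - y / 2 := by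
    rw [Real.exp_neg, inv_le_comm₀ (Real.exp_pos y) (by linarith)]
    refine le_trans ?_ (Real.add_one_le_exp y)
    rw [inv_le_iff_one_le_mul₀ (by linarith)]
    nlinarith
  linarith

/-- One level of growth. -/
theorem level (Rs : A → Prop) (ent : V × V ≃ V × V) (W : Finset V) (Al : V → Finset V) (g : ℕ)
    (hW : W.Nonempty) (h1 : Pr Rs * #W ≤ 1) (hA : ∀ v ∈ W, Fintype.card V ≤ 4 * #(Al v))
    (hg : 32 * (g : ℝ) ≤ Pr Rs * Fintype.card V) :
    Pr (fun β : V × V → A => ¬ ∃ W' : Finset V, #W' = g * #W ∧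
      ∀ x ∈ W', ∃ v ∈ W, x ∈ Al v ∧ Rs (β (ent (v, x)))) ≤
      Real.exp (-(Pr Rs * Fintype.card V / 32)) := by
  classical
  let E : V → (V → A) → Prop := fun x c => ∃ v ∈ W.filter fun v => x ∈ Al v, Rs (c v)
  have hρ := Pr_nonneg Rs
  have hμ : Pr Rs * (#W * Fintype.card V / 4) / 2 ≤ ∑ x ∈ univ, Pr (E x) := by
    have h2 : ∀ x ∈ (univ : Finset V), Pr Rs * #(W.filter fun v => x ∈ Al v) / 2 ≤ Pr (E x) :=
      fun x _ => Pr_some Rs _ (le_trans (mul_le_mul_of_nonneg_left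
        (Nat.cast_le.mpr (card_filter_le _ _)) hρ) h1)
    refine le_trans ?_ (sum_le_sum h2)
    rw [← sum_div, ← mul_sum]
    refine div_le_div_of_nonneg_right (mul_le_mul_of_nonneg_left ?_ hρ) (by norm_num)
    have h3 : ∑ x ∈ (univ : Finset V), #(W.filter fun v => x ∈ Al v) = ∑ v ∈ W, #(Al v) := by
      simp only [card_filter]
      rw [sum_comm]
      exact sum_congr rfl fun v _ => by simp
    have h4 : #W * Fintype.card V ≤ 4 * ∑ v ∈ W, #(Al v) := by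
      rw [mul_sum, ← smul_eq_mul]
      exact card_nsmul_le_sum _ _ _ hA
    rw [← Nat.cast_sum, h3, div_le_iff₀ (by norm_num)]
    exact_mod_cast (by omega : #W * Fintype.card V ≤ (∑ v ∈ W, #(Al v)) * 4)
  have h5 := Pr_lower univ E (h := 1) (m := g * #W) zero_le_one hμ
  have h6 := Pr_curry fun c : V → V → A => (cnt univ E c : ℝ) ≤ g * #W
  have h7 := Pr_comp (α := A) (fun p : V × V => ent p.swap)
    (ent.injective.comp Prod.swap_injective)
    fun ω : V × V → A => (cnt univ E (fun x v => ω (x, v)) : ℝ) ≤ g * #W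
  refine le_trans (Pr_mono fun β hβ => ?_) (h7.le.trans (h6.le.trans (h5.trans ?_)))
  · by_contra hc
    rw [not_le] at hc
    have hc' : g * #W ≤ cnt univ E fun x v => β (ent (v, x)) := by exact_mod_cast hc.le
    obtain ⟨W', hW', hc⟩ := exists_subset_card_eq hc'
    refine hβ ⟨W', hc, fun x hx => ?_⟩
    have hx2 := hW' hx
    simp only [mem_filter] at hx2
    obtain ⟨v, hv, hR⟩ := hx2.2
    exact ⟨v, (mem_filter.mp hv).1, (mem_filter.mp hv).2, hR⟩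
  · have hw : (1 : ℝ) ≤ #W := by exact_mod_cast hW.card_pos
    have he : Real.exp (-1) ≤ 1 / 2 := by
      rw [Real.exp_neg, inv_le_comm₀ (Real.exp_pos 1) (by norm_num)]
      linarith [Real.add_one_le_exp (1 : ℝ)]
    have hl : 0 ≤ Pr Rs * Fintype.card V := by positivity
    refine Real.exp_le_exp.mpr ?_
    have e1 : Pr Rs * (#W * Fintype.card V / 4) / 2 = #W * (Pr Rs * Fintype.card V) / 8 := by ring
    rw [e1]
    generalize Pr Rs * Fintype.card V = l at *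
    have : 0 ≤ (#W : ℝ) * l := by positivity
    nlinarith

theorem grow_aux {k : ℕ} (Rs : A → Prop) (ent : V × V ≃ V × V) (nr : V → V → Prop)
    (hr : ∀ x, nr x x) (hs : ∀ x y, nr x y → nr y x) (ns ex : V → Finset V) (D K g t : ℕ)
    (hns : ∀ x y, nr x y → y ∈ ns x) (hD : ∀ x, #(ns x) ≤ D) (hK : ∀ x, #(ex x) ≤ K)
    (Z : Finset V) (a : V) (Q : V × V → Prop)
    (hQ : ∀ v x, v = a ∨ v ∈ Z → x ∈ Z → ¬ Q (ent (v, x))) (hg2 : 2 ≤ g)
    (hg : 32 * (g : ℝ) ≤ Pr Rs * Fintype.card V) (hN : Pr Rs * g ^ t ≤ 1)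
    (hZ : Fintype.card V + 4 * (2 * g ^ t + K + (t + 1) * D) ≤ 4 * #Z) {b : ℝ} (hb : 0 ≤ b)
    (Γ₀ : V × V → Prop)
    (hc : ∀ (Γ : V × V → Prop) (U W : Finset V), (∀ e, Γ₀ e → Γ e) → (∀ u ∈ U, u = a ∨ u ∈ Z) →
      #U ≤ g ^ t → (∀ v ∈ W, (v ∈ Z ∨ (v = a ∧ t = 0)) ∧ v ∉ U) → #W = g ^ t →
      (∀ v ∈ W, ∃ S σ, #S ≤ t + 1 ∧ Pth (fun z z' => Γ (ent (z, z')) ∧ z' ∉ ex z) nr Z a v S σ) →
      Bd k Rs Γ (fun e => Q e ∨ (ent.symm e).1 ∈ U) ≤ b) :
    ∀ (r i : ℕ) (Γ : V × V → Prop) (U W : Finset V), i + r = t → (∀ e, Γ₀ e → Γ e) →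
      (∀ u ∈ U, u = a ∨ u ∈ Z) → #U ≤ g ^ i → (∀ v ∈ W, (v ∈ Z ∨ (v = a ∧ i = 0)) ∧ v ∉ U) →
      #W = g ^ i →
      (∀ v ∈ W, ∃ S σ, #S ≤ i + 1 ∧ Pth (fun z z' => Γ (ent (z, z')) ∧ z' ∉ ex z) nr Z a v S σ) →
      Bd k Rs Γ (fun e => Q e ∨ (ent.symm e).1 ∈ U) ≤
        r * Real.exp (-(Pr Rs * Fintype.card V / 32)) + b := by
  intro r
  induction r with
  | zero =>
    intro i Γ U W hi h0 h1 h2 h3 h4 h5
    obtain rfl : i = t := hi
    simpa using hc Γ U W h0 h1 h2 h3 h4 h5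
  | succ r ih =>
    intro i Γ U W hi h0 h1 h2 h3 h4 h5
    choose! S σ hS hP using h5
    have hit : g ^ i ≤ g ^ t := Nat.pow_le_pow_right (by omega) (by omega)
    let Al : V → Finset V := fun v => Z \ (U ∪ W ∪ ex v ∪ (S v).biUnion ns)
    have hAl : ∀ v ∈ W, Fintype.card V ≤ 4 * #(Al v) := by
      intro v hv
      have e1 : #((S v).biUnion ns) ≤ (t + 1) * D :=
        (card_biUnion_le_card_mul _ _ D fun x _ => hD x).trans
          (Nat.mul_le_mul_right _ (by have := hS v hv; omega))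
      have e2 := card_union_le (U ∪ W ∪ ex v) ((S v).biUnion ns)
      have e3 := card_union_le (U ∪ W) (ex v)
      have e4 := card_union_le U W
      have e5 := le_card_sdiff (U ∪ W ∪ ex v ∪ (S v).biUnion ns) Z
      have e6 := hK v
      simp only [Al]
      omega
    have hWn : W.Nonempty := card_pos.mp (by rw [h4]; positivity)
    have hρW : Pr Rs * #W ≤ 1 := by
      refine le_trans (mul_le_mul_of_nonneg_left ?_ (Pr_nonneg _)) hN
      rw [h4]; exact_mod_cast hit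
    have hl := level Rs ent W Al g hWn hρW hAl hg
    refine le_trans (Bd_step (fun e => (ent.symm e).1 ∈ W) _
      (b := r * Real.exp (-(Pr Rs * Fintype.card V / 32)) + b) (by positivity) ?_)
      (le_trans (add_le_add_left hl _) (by push_cast; linarith))
    rintro ω ⟨W', hW', hx⟩
    refine le_trans (Bd_mono (fun e he => he) ?_) (ih (i + 1) _ (U ∪ W) W' (by omega)
      (fun e he => Or.inl (h0 e he)) ?_ ?_ ?_ ?_ ?_)
    · rintro e ((h | h) | h)
      · exact Or.inl h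
      · exact Or.inr (mem_union_left _ h)
      · exact Or.inr (mem_union_right _ h)
    · intro u hu
      rcases mem_union.mp hu with hu | hu
      · exact h1 u hu
      · exact (h3 u hu).1.elim Or.inr fun h => Or.inl h.1
    · have := card_union_le U W
      rw [pow_succ]
      nlinarith
    · intro x hx'
      obtain ⟨v, _, hv, _⟩ := hx x hx'
      simp only [Al, mem_sdiff, mem_union, not_or] at hv
      exact ⟨Or.inl hv.1, by simp [hv.2.1.1.1, hv.2.1.1.2]⟩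
    · rw [hW', h4, pow_succ, mul_comm]
    · intro x hx'
      obtain ⟨v, hvW, hv, hR⟩ := hx x hx'
      simp only [Al, mem_sdiff, mem_union, not_or, mem_biUnion, not_exists, not_and] at hv
      refine ⟨insert x (S v), σ v * swap v x, (card_insert_le _ _).trans (by
        have := hS v hvW; omega), ?_⟩
      refine Pth.ext hr hs ((hP v hvW).mono fun p q h => ⟨Or.inl h.1, h.2⟩) hv.1
        (fun s hs' hn => hv.2.2 s hs' (hns _ _ hn)) ⟨Or.inr ⟨by simpa using hvW, ?_, hR⟩, hv.2.1.2⟩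
      rintro (h | h)
      · exact hQ v x ((h3 v hvW).1.elim Or.inr fun h => Or.inl h.1) hv.1 h
      · exact (h3 v hvW).2 (by simpa using h)

theorem grow {k : ℕ} (Rs : A → Prop) (ent : V × V ≃ V × V) (nr : V → V → Prop)
    (hr : ∀ x, nr x x) (hs : ∀ x y, nr x y → nr y x) (ns ex : V → Finset V) (D K g t : ℕ)
    (hns : ∀ x y, nr x y → y ∈ ns x) (hD : ∀ x, #(ns x) ≤ D) (hK : ∀ x, #(ex x) ≤ K)
    (Z : Finset V) (a : V) (Q : V × V → Prop)
    (hQ : ∀ v x, v = a ∨ v ∈ Z → x ∈ Z → ¬ Q (ent (v, x))) (hg2 : 2 ≤ g) (ht : t ≠ 0)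
    (hg : 32 * (g : ℝ) ≤ Pr Rs * Fintype.card V) (hN : Pr Rs * g ^ t ≤ 1)
    (hZ : Fintype.card V + 4 * (2 * g ^ t + K + (t + 1) * D) ≤ 4 * #Z) {b : ℝ} (hb : 0 ≤ b)
    (Γ₀ : V × V → Prop)
    (hc : ∀ (Γ : V × V → Prop) (U W : Finset V), (∀ e, Γ₀ e → Γ e) → (∀ u ∈ U, u = a ∨ u ∈ Z) →
      #U ≤ g ^ t → (∀ v ∈ W, v ∈ Z ∧ v ∉ U) → #W = g ^ t →
      (∀ v ∈ W, ∃ S σ, Pth (fun z z' => Γ (ent (z, z')) ∧ z' ∉ ex z) nr Z a v S σ) →
      Bd k Rs Γ (fun e => Q e ∨ (ent.symm e).1 ∈ U) ≤ b) :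
    Bd k Rs Γ₀ Q ≤ t * Real.exp (-(Pr Rs * Fintype.card V / 32)) + b := by
  refine le_trans (Bd_mono (fun e he => he) fun e he => Or.inl he)
    (grow_aux Rs ent nr hr hs ns ex D K g t hns hD hK Z a Q hQ hg2 hg hN hZ hb Γ₀ ?_ t 0 Γ₀ ∅ {a}
      (by omega) (fun e he => he) (by simp) (by simp) (by simp) (by simp) ?_)
  · intro Γ U W h0 h1 h2 h3 h4 h5
    refine hc Γ U W h0 h1 h2 (fun v hv => ⟨(h3 v hv).1.resolve_right fun h => ht h.2,
      (h3 v hv).2⟩) h4 fun v hv => ?_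
    obtain ⟨S, σ, _, h⟩ := h5 v hv
    exact ⟨S, σ, h⟩
  · intro v hv
    obtain rfl := mem_singleton.mp hv
    exact ⟨{v}, 1, by simp, Pth.start _ _ _ _⟩

end Pool.Agent.P.MP_de899d_pr
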