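import Pool.Agent.P.MP_de899d_pr.Init
import Pool.Agent.P.MP_de899d_pr.Grow

/-! Definitions and interface statements for the middle and the dense range. -/

set_option linter.unusedSectionVars false

namespace Pool.Agent.P.MP_de899d_pr
open Finset Equiv

section defs
variable {V : Type} [Fintype V] [DecidableEq V]

/-- All rows and all columns have exactly `r` entries. -/
def Reg (G : V × V → Prop) (r : ℕ) : Prop := (∀ x, rdeg G x = r) ∧ ∀ y, rdeg (tr G) y = r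

/-- The edges of a family of permutations. -/
def Gr {ι : Type} (H : ι → Perm V) : V × V → Prop := fun e => ∃ j, H j e.1 = e.2

/-- No loops. -/
def Irr (G : V × V → Prop) : Prop := ∀ x, ¬ G (x, x)

/-- Density at least `1 / q` between sets of size at least `β`. -/
def Den (R : V × V → Prop) (q β : ℕ) : Prop :=
  ∀ X Y : Finset V, β ≤ #X → β ≤ #Y → #X * #Y ≤ q * eN R X Y

/-- Every vertex has at least `δ` out- and in-neighbours in `Q`. -/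
def DegIn (R : V × V → Prop) (Q : Finset V) (δ : ℕ) : Prop :=
  ∀ x, δ ≤ eN R {x} Q ∧ δ ≤ eN R Q {x}

/-- `W` lies on one orbit. -/
def Thru (π : Perm V) (W : Finset V) : Prop := ∀ S, Cl π S → ∀ w ∈ W, w ∈ S → W ⊆ S

/-- A class. -/
def fib {κ : Type} [DecidableEq κ] (c : V → κ) (a : κ) : Finset V := univ.filter fun x => c x = a

/-- Sixteen tail classes and sixteen head classes. -/
structure Clu (cT cH : V → Fin 16) (m : ℕ) : Prop where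
  size : ∀ a, m ≤ #(fib cT a) ∧ #(fib cT a) ≤ m + 1
  eq : ∀ a, #(fib cT a) = #(fib cH a)
  sub : ∀ y, cT y = cH y + 1 ∨ cT y = cH y + 2
  link : ∀ a, m ≤ 4 * #(fib cH a ∩ fib cT (a + 1))

/-- A triple that absorbs every perfect matching from `T` to `H`. -/
def Tri (T H : Finset V) (R : V × V → Prop) (ψ D E : Perm V) : Prop :=
  (∀ x ∈ T, ψ x ∈ H) ∧ (∀ x, x ∉ T → R (x, ψ x) ∧ ψ x ≠ D x ∧ ψ x ≠ E x) ∧
  (∀ x, R (x, D x) ∧ R (x, E x) ∧ D x ≠ E x) ∧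
  ∀ N : Perm V, (∀ x ∈ T, N x ∈ H ∧ N x ≠ D x ∧ N x ≠ E x) →
    Tgt 3 fun e => (e.1 ∈ T ∧ N e.1 = e.2) ∨ (e.1 ∉ T ∧ ψ e.1 = e.2) ∨ D e.1 = e.2 ∨ E e.1 = e.2

/-- The degree sequence leaves room for a factor of degree `δ`. -/
def DegOK (Y : ℕ) (G : V × V → Prop) : Prop := ∃ k r0 μ s : ℕ,
  (∀ x, k ≤ rdeg G x ∧ rdeg G x ≤ k + r0) ∧ (∀ y, k ≤ rdeg (tr G) y ∧ rdeg (tr G) y ≤ k + r0) ∧
  (∃ x, rdeg G x = k ∨ rdeg (tr G) x = k) ∧ #(univ.filter fun x => rdeg G x < k + μ) ≤ s ∧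
  #(univ.filter fun y => rdeg (tr G) y < k + μ) ≤ s ∧ r0 ≤ 2 * Y ^ 128 ∧ Y ^ 248 ≤ k ∧
  r0 * (20 * Y * r0 + Y ^ 3) + μ * (r0 + s + Y ^ 236) ≤ μ * k

/-- The seven reserved subgraphs of the dense range: `0` pool of the absorbers, `1` host of the
factors, `2` blown-up classes, `3` chords, `4, 5, 6` reservoirs. -/
structure St3 (Y r1 : ℕ) (cT cH : V → Fin 16) (R : Fin 7 → V × V → Prop) : Prop where
  irr : ∀ i, Irr (R i)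
  disj : ∀ i j e, R i e → R j e → i = j
  den0 : Den (R 0) (20 * Y) (Y ^ 3)
  den1 : Den (R 1) (20 * Y) (Y ^ 3)
  den2 : Den (R 2) (8 * Y ^ 15) (Y ^ 17)
  den3 : Den (R 3) (8 * Y ^ 49) (Y ^ 51)
  den4 : Den (R 4) (8 * Y ^ 49) (Y ^ 51)
  deg0 : ∀ a, DegIn (R 0) (fib cT a) (Y ^ 248)
  r1lo : Y ^ 235 ≤ 40 * r1
  r1hi : r1 ≤ Y ^ 235
  row2 : ∀ x, r1 + Y ^ 128 ≤ eN (R 2) {x} (fib cH (cT x)) ∧
    eN (R 2) {x} (fib cH (cT x)) ≤ r1 + 4 * Y ^ 128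
  col2 : ∀ y, r1 + Y ^ 128 ≤ eN (R 2) (fib cT (cH y)) {y} ∧
    eN (R 2) (fib cT (cH y)) {y} ≤ r1 + 4 * Y ^ 128
  deg3 : ∀ i, 3 ≤ i → ∀ x, Y ^ 201 ≤ 2 * rdeg (R i) x ∧ rdeg (R i) x ≤ 2 * Y ^ 201 ∧
    Y ^ 201 ≤ 2 * rdeg (tr (R i)) x ∧ rdeg (tr (R i)) x ≤ 2 * Y ^ 201

/-- Roots of long orbits, and anchors with rounds for all other orbits. -/
structure Anch2 {k b : ℕ} (π : Fin k → Perm V) (r : Fin k → V) (n0 : ℕ)
    (Up Um : Fin b → Finset V) (An : Finset (Fin k × V)) (ρ : Fin k × V → Fin b) : Prop where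
  main : ∀ j (S : Finset V), Cl (π j) S → r j ∈ S → n0 ≤ #S
  cover : ∀ j (S : Finset V), S.Nonempty → Cl (π j) S → r j ∈ S ∨ ∃ a ∈ S, (j, a) ∈ An
  tail : ∀ p ∈ An, p.2 ∉ Up (ρ p)
  head : ∀ p ∈ An, π p.1 p.2 ∉ Um (ρ p)
  tinj : ∀ p ∈ An, ∀ q ∈ An, ρ p = ρ q → p.2 = q.2 → p = q
  hinj : ∀ p ∈ An, ∀ q ∈ An, ρ p = ρ q → π p.1 p.2 = π q.1 q.2 → p = q

/-- Failure probability with `b` independent layers of the reservoir. -/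
noncomputable def Bd2 {A : Type} [Fintype A] (k b : ℕ) (Rs : A → Prop) (Γ : V × V → Prop)
    (Q : Fin b × V × V → Prop) : ℝ :=
  Pr fun β : Fin b × V × V → A => ¬ Tgt k fun e => Γ e ∨ ∃ i, Rs (β (i, e)) ∧ ¬ Q (i, e)

/-- Few orbits, and no vertex lies on many short orbits. -/
def Few {k : ℕ} (π : Fin k → Perm V) (κ : ℕ) (μ : ℝ) : Prop :=
  (∀ j, #(iorbs (π j)) ≤ κ) ∧ ∀ v, ∑ j, (1 : ℝ) / #(iorb (π j) v) ≤ μ

end defs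

/-- Completion of a system of paths through the free tails `W`. -/
def S_EXT : Prop := ∀ (V : Type) [Fintype V] [DecidableEq V] (π₀ : Perm V) (W : Finset V)
  (R : V × V → Prop) (β : ℕ), 0 < β → (∀ x ∈ W, 10 * β ≤ eN R {x} (W.image π₀)) →
  (∀ y ∈ W.image π₀, 10 * β ≤ eN R W {y}) →
  (∀ X Y : Finset V, X ⊆ W → Y ⊆ W.image π₀ → β ≤ #X → β ≤ #Y →
    16 * β * (#X * #Y) ≤ #W * eN R X Y) →
  ∃ π : Perm V, (∀ x, x ∉ W → π x = π₀ x) ∧ (∀ x ∈ W, R (x, π x)) ∧ Thru π W ∧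
    W.image π = W.image π₀ ∧ ∀ S, Cl π S → Cl π₀ S

/-- A subgraph with prescribed small degrees. -/
def S_FF : Prop := ∀ (V κ : Type) [Fintype V] [DecidableEq V] [Fintype κ] [DecidableEq κ]
  (cT cH : V → κ) (Hs : V × V → Prop) (f g : V → ℕ) (r0 μ s β δ : ℕ),
  (∀ e, Hs e → cT e.1 = cH e.2) → (∀ a, ∑ x ∈ fib cT a, f x = ∑ y ∈ fib cH a, g y) →
  (∀ x, f x ≤ r0) → (∀ y, g y ≤ r0) → #(univ.filter fun x => f x < μ) ≤ s →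
  #(univ.filter fun y => g y < μ) ≤ s → (∀ x, δ ≤ rdeg Hs x) → (∀ y, δ ≤ rdeg (tr Hs) y) →
  (∀ a (X Y : Finset V), X ⊆ fib cT a → Y ⊆ fib cH a → β ≤ #X → β ≤ #Y →
    r0 * min #X #Y ≤ eN Hs X Y) →
  r0 * β + μ * (r0 + s) ≤ μ * δ →
  ∃ Z : V × V → Prop, (∀ e, Z e → Hs e) ∧ (∀ x, rdeg Z x = f x) ∧ ∀ y, rdeg (tr Z) y = g y

/-- A nearly regular host contains many disjoint perfect matchings. -/
def S_REG : Prop := ∀ (V κ : Type) [Fintype V] [DecidableEq V] [Fintype κ] [DecidableEq κ]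
  (cT cH : V → κ) (Hs : V × V → Prop) (r γ β : ℕ),
  (∀ e, Hs e → cT e.1 = cH e.2) → (∀ a, #(fib cT a) = #(fib cH a)) →
  (∀ x, r + γ ≤ rdeg Hs x ∧ rdeg Hs x ≤ r + 4 * γ) →
  (∀ y, r + γ ≤ rdeg (tr Hs) y ∧ rdeg (tr Hs) y ≤ r + 4 * γ) →
  (∀ a (X Y : Finset V), X ⊆ fib cT a → Y ⊆ fib cH a → β ≤ #X → β ≤ #Y →
    4 * γ * min #X #Y ≤ eN Hs X Y) →
  4 * β + 3 * γ ≤ r → ∃ M : Fin r → Perm V, Disj M ∧ ∀ j x, Hs (x, M j x)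

/-- An equipartition that splits a family of sets evenly. -/
def S_HYP : Prop := ∀ (W : Type) [Fintype W] [DecidableEq W] (K m D : ℕ) [NeZero K]
  (𝒩 : Finset (Finset W)), 2 ≤ K → 0 < m → Fintype.card W = K * m →
  2 * #𝒩 * K * Real.exp (-((D : ℝ) ^ 2 / (4 * m))) < 1 →
  ∃ cl : W → ZMod K, (∀ b, #(fib cl b) = m) ∧ ∀ N ∈ 𝒩, ∀ b,
    (K - 1) * #(N ∩ fib cl b) ≤ #N + (K - 1) * D ∧ #N ≤ (K - 1) * (#(N ∩ fib cl b) + D) + m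

/-- An approximate decomposition into Hamilton cycles. -/
def S_APX : Prop := ∀ (V : Type) [Fintype V] [DecidableEq V] (F R1 R2 R3 : V × V → Prop)
  (K m k w q β q1 β1 dR D γ B bR : ℕ), K.Prime → Fintype.card V ≤ K * m →
  K * m < Fintype.card V + K → (∀ e, F e → ¬ R1 e ∧ ¬ R2 e ∧ ¬ R3 e) →
  (∀ e, R1 e → ¬ R2 e ∧ ¬ R3 e) → (∀ e, R2 e → ¬ R3 e) →
  (∀ x, k ≤ rdeg F x ∧ rdeg F x ≤ k + w) → (∀ y, k ≤ rdeg (tr F) y ∧ rdeg (tr F) y ≤ k + w) →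
  Den F q β → Den R1 q1 β1 →
  (∀ x, dR ≤ rdeg R1 x ∧ dR ≤ rdeg (tr R1) x ∧ dR ≤ rdeg R2 x ∧ dR ≤ rdeg (tr R3) x) →
  16 * ((K : ℝ) * m) * K * Real.exp (-((D : ℝ) ^ 2 / (4 * m))) < 1 →
  w + m + K + K * (2 * D + 1) ≤ 3 * γ * (K - 1) → β ≤ B → K ≤ B → 8 * q * γ ≤ B →
  K * (8 * B + 5 * γ + D + 1) + m ≤ k → 2 * K ≤ bR → 2 * β1 ≤ bR → 4 * q1 * (m / K + 1) ≤ bR →
  0 < q1 → 128 * q1 * bR + K ≤ m → K * (10 * bR + K + m / K + 1 + D) + m ≤ dR →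
  ∃ (k' : ℕ) (H : Fin k' → Perm V), (∀ j, Ham (H j)) ∧ Disj H ∧
    (∀ j x, F (x, H j x) ∨ R1 (x, H j x) ∨ R2 (x, H j x) ∨ R3 (x, H j x)) ∧
    k' ≤ k ∧ k ≤ k' + m + K * (γ + D + 1)

/-- Splitting a balanced graph into small balanced matchings. -/
def S_PIECE : Prop := ∀ (V κ : Type) [Fintype V] [DecidableEq V] [Fintype κ] [DecidableEq κ]
  (cT cH : V → κ) (L : V × V → Prop) (r t B : ℕ), 0 < t → (∀ x, rdeg L x ≤ r) →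
  (∀ y, rdeg (tr L) y ≤ r) → (∀ a, eN L (fib cT a) univ = eN L univ (fib cH a)) →
  (∀ a a', 8 * r * B < eN L (fib cT a) (fib cH a')) →
  eN L univ univ + t * Fintype.card κ ≤ t * B →
  ∃ χ : V × V → Fin t, ∀ i,
    (∀ a, eN (fun e => L e ∧ χ e = i) (fib cT a) univ =
      eN (fun e => L e ∧ χ e = i) univ (fib cH a)) ∧
    eN (fun e => L e ∧ χ e = i) univ univ ≤ B ∧
    ∀ e f, L e → L f → χ e = i → χ f = i → e ≠ f → e.1 ≠ f.1 ∧ e.1 ≠ f.2 ∧ e.2 ≠ f.2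

/-- Extending the pieces to Hamilton cycles inside the blown-up classes. -/
def S_COVER : Prop := ∀ (V : Type) [Fintype V] [DecidableEq V] (cT cH : V → Fin 16) (m : ℕ)
  (A L : V × V → Prop) (t : ℕ) (χ : V × V → Fin t) (r q β B : ℕ), Clu cT cH m →
  (∀ e, A e → cT e.1 = cH e.2 ∧ ¬ L e) → Irr L → (∀ x, r ≤ rdeg A x) → (∀ y, r ≤ rdeg (tr A) y) →
  (∀ a (X Y : Finset V), X ⊆ fib cT a → Y ⊆ fib cH a → β ≤ #X → β ≤ #Y →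
    #X * #Y ≤ q * eN A X Y) →
  (∀ i, (∀ a, eN (fun e => L e ∧ χ e = i) (fib cT a) univ =
      eN (fun e => L e ∧ χ e = i) univ (fib cH a)) ∧
    eN (fun e => L e ∧ χ e = i) univ univ ≤ B ∧
    ∀ e f, L e → L f → χ e = i → χ f = i → e ≠ f → e.1 ≠ f.1 ∧ e.1 ≠ f.2 ∧ e.2 ≠ f.2) →
  0 < β → 0 < q → 2 * q * t ≤ β → 10 * β + t + B ≤ r → 32 * q * β + B ≤ m → 8 * B < m →
  ∃ H : Fin t → Perm V, (∀ i, Ham (H i)) ∧ Disj H ∧ (∀ e, L e → H (χ e) e.1 = e.2) ∧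
    ∀ i x, L (x, H i x) ∨ A (x, H i x)

/-- Greedy embedding of a tournament. -/
def S_EMB : Prop := ∀ (V : Type) [Fintype V] [DecidableEq V] (R : V × V → Prop) (q β h : ℕ)
  (o : Fin h → Fin h → Prop) (C : Finset V), Irr R → Den R q β → 0 < q → 0 < β →
  h * β * q ^ h ≤ #C → ∃ v : Fin h → V, Function.Injective v ∧ (∀ i, v i ∈ C) ∧
    ∀ i j, i < j → (o i j → R (v i, v j)) ∧ (¬ o i j → R (v j, v i))

/-- Toggling gadgets on the vertices `x = 0, y = 1, a = 2, b = 3, c = 4, e = 5, f = 6, g = 7`: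
`F` has `x → c, y → b`, `D` has `x → a → f → y → c → b → e`, and `E` has
`x → b → f → g → y → a → e`. -/
def S_TOG : Prop := ∀ (V ι : Type) [Fintype V] [DecidableEq V] [Fintype ι] [DecidableEq ι]
  (γ : ι × Fin 8 → V) (F D E : Perm V), Function.Injective γ →
  (∀ t, F (γ (t, 0)) = γ (t, 4) ∧ F (γ (t, 1)) = γ (t, 3)) →
  (∀ t, D (γ (t, 0)) = γ (t, 2) ∧ D (γ (t, 2)) = γ (t, 6) ∧ D (γ (t, 6)) = γ (t, 1) ∧
    D (γ (t, 1)) = γ (t, 4) ∧ D (γ (t, 4)) = γ (t, 3) ∧ D (γ (t, 3)) = γ (t, 5)) →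
  (∀ t, E (γ (t, 0)) = γ (t, 3) ∧ E (γ (t, 3)) = γ (t, 6) ∧ E (γ (t, 6)) = γ (t, 7) ∧
    E (γ (t, 7)) = γ (t, 1) ∧ E (γ (t, 1)) = γ (t, 2) ∧ E (γ (t, 2)) = γ (t, 5)) →
  Ham D → Ham E → (∀ x, F x ≠ D x ∧ F x ≠ E x ∧ D x ≠ E x) →
  (∀ O : Finset V, O.Nonempty → Cl F O → (∀ t, γ (t, 0) ∈ O ↔ γ (t, 1) ∈ O) → O = univ) →
  Tgt 3 fun e => F e.1 = e.2 ∨ D e.1 = e.2 ∨ E e.1 = e.2

/-- One absorbing triple. -/
def S_TRI : Prop := ∀ (V : Type) [Fintype V] [DecidableEq V] (T H Q₀ Q₁ Q₂ Q₃ : Finset V)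
  (R : V × V → Prop) (q β : ℕ), T.Nonempty → #T = #H → Disjoint T H →
  Disjoint (T ∪ H) (Q₀ ∪ Q₁ ∪ Q₂ ∪ Q₃) → Disjoint Q₀ (Q₁ ∪ Q₂ ∪ Q₃) → Disjoint Q₁ (Q₂ ∪ Q₃) →
  Disjoint Q₂ Q₃ → Irr R → Den R q β → 0 < q → 10 * q ≤ β → DegIn R Q₁ (10 * β + 5) →
  DegIn R Q₂ (10 * β + 5) → DegIn R Q₃ (10 * β + 5) → 32 * q * β ≤ #Q₁ → 32 * q * β ≤ #Q₂ →
  32 * q * β ≤ #Q₃ → 8 * #T + 8 * β * q ^ 8 ≤ #Q₀ → ∃ ψ D E : Perm V, Tri T H R ψ D E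

/-- An absorber for regular graphs inside the classes. -/
def S_ABS : Prop := ∀ (V : Type) [Fintype V] [DecidableEq V] (cT cH : V → Fin 16) (m : ℕ)
  (R : V × V → Prop) (q β r : ℕ), Clu cT cH m → Irr R → Den R q β → 0 < q → 96 * q * r ≤ β →
  20 * q ≤ β → (∀ a, DegIn R (fib cT a) (10 * β + 5 + 48 * r)) → 64 * q * β ≤ m →
  8 + 8 * β * (2 * q) ^ 8 ≤ 2 * m →
  ∃ Γ : V × V → Prop, (∀ e, Γ e → R e) ∧ Reg Γ (47 * r) ∧ ∀ N : V × V → Prop,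
    (∀ e, N e → cT e.1 = cH e.2 ∧ ¬ Γ e) → Reg N r → Tgt (48 * r) fun e => Γ e ∨ N e

/-- A robustly decomposable subgraph. -/
def S_RD : Prop := ∀ (V : Type) [Fintype V] [DecidableEq V] (Y r1 : ℕ) (cT cH : V → Fin 16)
  (R : Fin 7 → V × V → Prop), 10 ^ 20 ≤ Y → Y ^ 250 ≤ Fintype.card V →
  Fintype.card V ≤ 2 * Y ^ 250 → Clu cT cH (Fintype.card V / 16) → St3 Y r1 cT cH R →
  ∃ (A : V × V → Prop) (rA : ℕ), (∀ e, A e → R 0 e ∨ R 2 e) ∧ Reg A rA ∧ rA ≤ 48 * Y ^ 235 ∧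
    ∀ (L : V × V → Prop) (r : ℕ), r ≤ Y ^ 203 → Reg L r → Irr L → (∀ e, L e → ¬ A e) →
      (∀ e, R 3 e → L e) → Tgt (rA + r) fun e => A e ∨ L e

/-- The classes exist. -/
def S_CLU : Prop := ∀ (V : Type) [Fintype V] [DecidableEq V], 1000 ≤ Fintype.card V →
  ∃ cT cH : V → Fin 16, Clu cT cH (Fintype.card V / 16)

/-- The deterministic statement for the dense range. -/
def S_DENSE : Prop := ∀ (V : Type) [Fintype V] [DecidableEq V] (Y r1 : ℕ) (cT cH : V → Fin 16)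
  (R : Fin 7 → V × V → Prop), 10 ^ 20 ≤ Y → Y ^ 250 ≤ Fintype.card V →
  Fintype.card V ≤ 2 * Y ^ 250 → Clu cT cH (Fintype.card V / 16) → St3 Y r1 cT cH R →
  ∀ G : V × V → Prop, Irr G → (∀ i e, R i e → G e) → DegOK Y G →
  ∀ k, (∀ x, k ≤ rdeg G x) → (∀ y, k ≤ rdeg (tr G) y) → Tgt k G

/-- The reserved subgraphs are typical. -/
def S_ST3 : Prop := ∀ (V A : Type) [Fintype V] [DecidableEq V] [Fintype A] [Nonempty A] (Y : ℕ)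
  (cT cH : V → Fin 16) (P : Fin 7 → A → Prop), 10 ^ 20 ≤ Y → Y ^ 250 ≤ Fintype.card V →
  Fintype.card V ≤ 2 * Y ^ 250 → Clu cT cH (Fintype.card V / 16) →
  (∀ i j l, P i l → P j l → i = j) → 1 ≤ 5 * Y * Pr (P 0) → 1 ≤ 5 * Y * Pr (P 1) →
  Pr (P 2) * Fintype.card V = Y ^ 235 → (∀ i, 3 ≤ i → Pr (P i) * Fintype.card V = Y ^ 201) →
  ∃ r1 : ℕ, Pr (fun U : V × V → A =>
    ¬ St3 Y r1 cT cH fun i e => P i (U e) ∧ e.1 ≠ e.2) ≤ 1 / Y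

/-- A threshold in the lower tail of the binomial distribution, sharper form. -/
def S_BINOM2 : Prop := ∀ (V A : Type) [Fintype V] [DecidableEq V] [Fintype A] [Nonempty A]
  (P : A → Prop) (b J : ℕ) (q r : ℝ), 0 < q → q < 1 → J ≤ b → b < Fintype.card V → 0 < Pr P →
  0 ≤ r → r ≤ 1 →
  r * Pr P * (Fintype.card V - (b - J : ℝ)) ≤ (b - J + 1 : ℝ) * (1 - Pr P) →
  Pr (fun ω : V → A => cnt univ (fun _ => P) ω ≤ b) ≤ q / 2 →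
  ∃ a : ℕ, b ≤ a ∧ Pr (fun ω : V → A => cnt univ (fun _ => P) ω ≤ a) ≤ q ∧
    q / 2 * r ^ (J + 1) ≤ Pr (fun ω : V → A => cnt univ (fun _ => P) ω + J ≤ a) ∧
    (q * (Pr P * Fintype.card V + 1) < 1 → (a : ℝ) ≤ Pr P * Fintype.card V)

/-- The degree sequence in the dense range. -/
def S_DEG : Prop := ∀ (V A : Type) [Fintype V] [DecidableEq V] [Fintype A] [Nonempty A] (Y : ℕ)
  (P : A → Prop), 10 ^ 20 ≤ Y → Y ^ 250 ≤ Fintype.card V → Fintype.card V ≤ 2 * Y ^ 250 →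
  1 ≤ 2 * Y * Pr P →
  Pr (fun U : V × V → A => ¬ DegOK Y fun e => P (U e) ∧ e.1 ≠ e.2) ≤ Real.exp (-Y)

/-- Merging an orbit into the long orbit of `r` along an odd number of increasing cut points. -/
def S_PATT : Prop := ∀ (V : Type) [Fintype V] [DecidableEq V] (f : Perm V) (r a : V) (n0 t : ℕ)
  (p : ℕ → ℕ), (∀ S : Finset V, Cl f S → r ∈ S → n0 ≤ #S) → ¬ f.SameCycle r a →
  (∀ i < 2 * t, p i < p (i + 1)) → p (2 * t) < n0 →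
  ∃ σ : Perm V, σ a = (f ^ p 0) r ∧ (∀ i < 2 * t, σ ((f ^ p i) r) = (f ^ p (i + 1)) r) ∧
    σ ((f ^ p (2 * t)) r) = a ∧ (∀ z, z ≠ a → (∀ i ≤ 2 * t, z ≠ (f ^ p i) r) → σ z = z) ∧
    ∀ S : Finset V, Cl (f * σ) S → Cl f S ∧ (a ∈ S ↔ r ∈ S)

/-- Merging all orbits, one anchor at a time. -/
def S_PROC2 : Prop := ∀ (V A : Type) [Fintype V] [DecidableEq V] [Fintype A] [Nonempty A]
  (Rs : A → Prop) (k b n0 g t z ub T : ℕ), 2 ≤ g → t ≠ 0 → 8 * (g : ℝ) ≤ Pr Rs * z →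
  Pr Rs * g ^ t ≤ 1 → (2 * t + 1) * (z + 2 * ub + 2 * T + 3 * k) ≤ n0 →
  ∀ (Γ : V × V → Prop) (π : Fin k → Perm V) (r : Fin k → V) (Up Um : Fin b → Finset V)
    (An : Finset (Fin k × V)) (ρ : Fin k × V → Fin b), #An ≤ T → Disj π →
    (∀ j x, Γ (x, π j x)) → Anch2 π r n0 Up Um An ρ →
    (∀ i, #(Up i) + #(An.filter fun p => ρ p = i) * (2 * g ^ (t + 1)) ≤ ub) →
    (∀ i, #(Um i) + #(An.filter fun p => ρ p = i) * (2 * g ^ (t + 1)) ≤ ub) →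
    Bd2 k b Rs Γ (fun c => c.2.1 ∈ Up c.1 ∨ c.2.2 ∈ Um c.1) ≤
      #An * ((2 * t + 1) * Real.exp (-(Pr Rs * z / 8)) +
        Real.exp (-(Pr Rs * g ^ (2 * t + 1) / 2)))

/-- Splitting the reservoir into layers. -/
def S_LAYER : Prop := ∀ (V A A' : Type) [Fintype V] [DecidableEq V] [Fintype A] [Nonempty A]
  [Fintype A'] [Nonempty A'] (Rs : A → Prop) (Rs' : A' → Prop) (k b : ℕ) (Γ Q : V × V → Prop),
  b * Pr Rs' ≤ Pr Rs → Bd k Rs Γ Q ≤ Bd2 k b Rs' Γ fun c => Q c.2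

/-- Many short orbits through one vertex, none contained in the earlier ones. -/
def S_NC : Prop := ∀ (V : Type) [Fintype V] [DecidableEq V] (h L : ℕ) (τ : Fin h → Perm V) (v : V),
  2 * (h * L) ≤ Fintype.card V →
  Pr (fun σ : Perm V => ∀ i, #(iorb (σ * τ i) v) ≤ L ∧
    ∃ y ∈ iorb (σ * τ i) v, ∀ i' < i, y ∉ iorb (σ * τ i') v) ≤ (8 * L / (Fintype.card V : ℝ)) ^ h

/-- After a random relabelling of the columns there are few orbits. -/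
def S_INIT2 : Prop := ∀ (V : Type) [Fintype V] [DecidableEq V] (k κ h I : ℕ) (M : Fin k → Perm V),
  Disj M → 2 * (h * 2 ^ (I + 1)) ≤ Fintype.card V → 60 * k * 2 ^ (I + 1) ≤ Fintype.card V * h →
  Pr (fun σ : Perm V => ¬ Few (fun j => σ * M j) κ (2 * h * (I + 1) + k / 2 ^ I)) ≤
    k * ((Fintype.card V + 1 : ℝ) / 2 ^ κ) + Fintype.card V * (I + 1) * Real.exp (-h)

/-- Anchors and rounds. -/
def S_ANCH : Prop := ∀ (V : Type) [Fintype V] [DecidableEq V] [Nonempty V] (k κ s c b T : ℕ)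
  (μ : ℝ) (π : Fin k → Perm V) (Lr Lc : Finset V), Few π κ μ → #Lr ≤ s → #Lc ≤ s →
  (∀ j (S : Finset V), S.Nonempty → Cl (π j) S → ∃ a ∈ S, a ∉ Lr ∧ π j a ∉ Lc) →
  Fintype.card V * Real.exp ((2 * s + 1) * μ) < 2 ^ c → 0 < T → 2 * c * T + k * κ < b * T →
  ∃ (r : Fin k → V) (An : Finset (Fin k × V)) (ρ : Fin k × V → Fin b),
    Anch2 π r (Fintype.card V / κ) (fun _ => Lr) (fun _ => Lc) An ρ ∧ #An ≤ k * κ ∧
    ∀ i, #(An.filter fun p => ρ p = i) ≤ T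

/-- A factor without loops and without cycles inside the low sets. -/
def S_FACT2 : Prop := ∀ (V : Type) [Fintype V] [DecidableEq V] (G' B G'' : V × V → Prop)
  (a a' μ s w k K : ℕ), (∀ e, G' e → B e) → (∀ e, B e → G'' e) →
  (∀ x ∈ low G' a, k ≤ rdeg (fun e => B e ∧ e.1 ≠ e.2) x) →
  (∀ y ∈ low (tr G') a, k ≤ rdeg (tr fun e => B e ∧ e.1 ≠ e.2) y) →
  Disjoint (low G' a) (low (tr G') a) → PA G' a s → PA (tr G') a s → PD G'' a' μ w →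
  PD (tr G'') a' μ w → PE G' K w → 0 < s → 4 * s ≤ k → 4 * s ≤ μ → k + μ + 3 * s ≤ a →
  a' + 3 * s ≤ a → k * w + (2 * s + 1) * Fintype.card V ≤ K * w →
  ∃ N : Fin k → Perm V, Disj N ∧ (∀ j x, B (x, N j x)) ∧ ∀ j (S : Finset V), S.Nonempty →
    S ⊆ low G' a ∨ S ⊆ low (tr G') a → ¬ Cl (N j) S

end Pool.Agent.P.MP_de899d_pr
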