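import Pool.Agent.P.MP_de899d_pr.Binom2
import Pool.Agent.P.MP_de899d_pr.Couple

/-! The degree sequence in the dense range. -/

set_option linter.unusedSectionVars false

namespace Pool.Agent.P.MP_de899d_pr
open Finset

namespace Deg

section tails
variable {ι α : Type*} [Fintype ι] [DecidableEq ι] [Fintype α] [Nonempty α]

theorem cnt_add (P : α → Prop) (ω : ι → α) :
    cnt univ (fun _ => P) ω + cnt univ (fun _ l => ¬ P l) ω = Fintype.card ι := by
  classical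
  unfold cnt
  convert card_filter_add_card_filter_not (s := (univ : Finset ι)) fun i => P (ω i)
  rfl

theorem cnt_add' (P : α → Prop) (ω : ι → α) :
    (cnt univ (fun _ l => ¬ P l) ω : ℝ) = Fintype.card ι - cnt univ (fun _ => P) ω := by
  rw [← cnt_add P ω]
  push_cast
  ring

theorem sum_not (P : α → Prop) :
    ∑ _i : ι, Pr (fun l => ¬ P l) = Fintype.card ι * (1 - Pr P) := by
  rw [sum_const, card_univ, nsmul_eq_mul, Pr_not]

/-- Chernoff upper tail, Gaussian form. -/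
theorem upper_gauss (S : Finset ι) (E : ι → α → Prop) {D μ : ℝ} (hD : 0 ≤ D) (hμ0 : 0 < μ)
    (hD2 : D ≤ 2 * μ) (hμ : ∑ i ∈ S, Pr (E i) ≤ μ) :
    Pr (fun ω : ι → α => μ + D ≤ cnt S E ω) ≤ Real.exp (-(D ^ 2 / (4 * μ))) := by
  obtain ⟨h, hh⟩ : ∃ h, h = D / (2 * μ) := ⟨_, rfl⟩
  have h0 : 0 ≤ h := by rw [hh]; positivity
  have h1 : h ≤ 1 := by rw [hh, div_le_one (by positivity)]; exact hD2
  have h2 : Real.exp h - 1 ≤ h + h ^ 2 := by
    have := Real.abs_exp_sub_one_sub_id_le (x := h) (by rwa [abs_of_nonneg h0])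
    linarith [le_abs_self (Real.exp h - 1 - h)]
  have h3 : 0 ≤ Real.exp h - 1 := by linarith [Real.add_one_le_exp h]
  refine le_trans (Pr_mono (E' := fun ω => Real.exp (h * (μ + D)) ≤ Real.exp h ^ cnt S E ω)
    fun ω hω => ?_) ((Pr_le_div (fun ω => by positivity) (by positivity)).trans ?_)
  · rw [← Real.exp_nat_mul]
    exact Real.exp_le_exp.mpr (by nlinarith)
  · rw [div_le_iff₀ (by positivity), ← Real.exp_add]
    refine (Ex_pow_cnt_le S E (by positivity)).trans (Real.exp_le_exp.mpr ?_)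
    have h4 : -(D ^ 2 / (4 * μ)) + h * (μ + D) = (h + h ^ 2) * μ := by
      rw [hh]; field_simp; ring
    rw [h4]
    exact (mul_le_mul_of_nonneg_left hμ h3).trans (mul_le_mul_of_nonneg_right h2 hμ0.le)

end tails

variable {V : Type} [Fintype V] [DecidableEq V]

theorem rdeg_off {G H : V × V → Prop} (h1 : ∀ e, G e → H e) (h2 : ∀ e, e.1 ≠ e.2 → H e → G e)
    (x : V) : rdeg G x ≤ rdeg H x ∧ rdeg H x ≤ rdeg G x + 1 := by
  classical
  unfold rdeg
  refine ⟨card_le_card fun y hy => ?_, le_trans (card_le_card fun y hy => ?_)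
    (card_insert_le x _)⟩
  · simp only [mem_filter, mem_univ, true_and] at hy ⊢
    exact h1 _ hy
  · simp only [mem_filter, mem_univ, true_and, mem_insert] at hy ⊢
    by_cases h : y = x
    · exact Or.inl h
    · exact Or.inr (h2 _ (Ne.symm h) hy)

/-- All rows are in the range and few rows are low. -/
def Good (H : V × V → Prop) (lo hi a s : ℕ) : Prop :=
  (∀ x, lo ≤ rdeg H x ∧ rdeg H x ≤ hi) ∧ #(univ.filter fun x => rdeg H x ≤ a) ≤ s

theorem det {Y lo hi a μ s r0 : ℕ} {G H : V × V → Prop} (h1 : ∀ e, G e → H e)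
    (h2 : ∀ e, e.1 ≠ e.2 → H e → G e) (g1 : Good H lo hi a s) (g2 : Good (tr H) lo hi a s)
    (hx : ∃ x, rdeg G x + μ ≤ a) (n1 : hi + 1 ≤ lo + r0) (n2 : r0 ≤ 2 * Y ^ 128)
    (n3 : Y ^ 248 + 1 ≤ lo)
    (n4 : r0 * (20 * Y * r0 + Y ^ 3) + μ * (r0 + s + Y ^ 236) + μ ≤ μ * lo) : DegOK Y G := by
  obtain ⟨x1, hx1⟩ := hx
  have r1 := rdeg_off h1 h2
  have r2 := rdeg_off (G := tr G) (H := tr H) (fun e he => h1 _ he)
    fun e he he' => h2 e.swap (Ne.symm he) he'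
  obtain ⟨x0, -, hx0⟩ := exists_min_image univ (fun x => min (rdeg G x) (rdeg (tr G) x))
    ⟨x1, mem_univ _⟩
  obtain ⟨k, hk⟩ : ∃ k, k = min (rdeg G x0) (rdeg (tr G) x0) := ⟨_, rfl⟩
  have k1 : ∀ x, k ≤ rdeg G x ∧ k ≤ rdeg (tr G) x := fun x =>
    le_min_iff.1 (hk ▸ hx0 x (mem_univ _))
  have k2 : lo ≤ k + 1 := by
    have := r1 x0
    have := r2 x0
    have := g1.1 x0
    have := g2.1 x0
    omega
  have k3 : k + μ ≤ a := by
    have := k1 x1
    omega
  refine ⟨k, r0, μ, s, fun x => ?_, fun x => ?_, ⟨x0, by omega⟩,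
    le_trans (card_le_card fun x hx => ?_) g1.2, le_trans (card_le_card fun x hx => ?_) g2.2, n2,
    by omega, ?_⟩
  · have := r1 x
    have := g1.1 x
    have := k1 x
    omega
  · have := r2 x
    have := g2.1 x
    have := k1 x
    omega
  · simp only [mem_filter, mem_univ, true_and] at hx ⊢
    have := r1 x
    omega
  · simp only [mem_filter, mem_univ, true_and] at hx ⊢
    have := r2 x
    omega
  · have := Nat.mul_le_mul_left μ k2
    rw [mul_add, mul_one] at this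
    omega

variable {A : Type} [Fintype A] [Nonempty A]

theorem good_le (P : A → Prop) {lo hi a s : ℕ} {ε q : ℝ}
    (h1 : Pr (fun r : V → A => cnt univ (fun _ => P) r < lo) ≤ ε)
    (h2 : Pr (fun r : V → A => hi < cnt univ (fun _ => P) r) ≤ ε)
    (h3 : Pr (fun r : V → A => cnt univ (fun _ => P) r ≤ a) ≤ q)
    (h4 : 4 * (Fintype.card V * q) ≤ s + 1) :
    Pr (fun U : V × V → A => ¬ Good (fun e => P (U e)) lo hi a s) ≤
      Fintype.card V * (2 * ε) + Real.exp (-((s + 1) / 4)) := by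
  classical
  have c1 := Pr_curry fun R : V → V → A => ∃ x, cnt univ (fun _ => P) (R x) < lo ∨
    hi < cnt univ (fun _ => P) (R x)
  have c2 := Pr_curry fun R : V → V → A =>
    (s + 1 : ℝ) ≤ cnt univ (fun _ (r : V → A) => cnt univ (fun _ => P) r ≤ a) R
  refine le_trans (Pr_le_add fun U hU => ?_) (add_le_add (c1.le.trans ?_) (c2.le.trans ?_))
  · by_contra hcon
    push Not at hcon
    refine hU ⟨fun x => ?_, ?_⟩
    · rw [rdeg_eq]
      exact hcon.1 x
    · have h5 : #(univ.filter fun x => rdeg (fun e => P (U e)) x ≤ a) =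
          cnt univ (fun _ (r : V → A) => cnt univ (fun _ => P) r ≤ a) fun i k => U (i, k) := by
        rw [cnt]
        congr 1
        ext x
        simp only [rdeg_eq, mem_filter]
      rw [h5]
      have h6 := hcon.2
      have h7 : cnt univ (fun _ (r : V → A) => cnt univ (fun _ => P) r ≤ a)
          (fun i k => U (i, k)) < s + 1 := by exact_mod_cast h6
      omega
  · refine Pr_exists_univ _ fun x => ?_
    rw [Pr_one x fun r : V → A => cnt univ (fun _ => P) r < lo ∨ hi < cnt univ (fun _ => P) r]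
    linarith [Pr_or_le (fun r : V → A => cnt univ (fun _ => P) r < lo)
      fun r : V → A => hi < cnt univ (fun _ => P) r]
  · have he : Real.exp 1 ≤ 3 := by linarith [Real.exp_one_lt_d9]
    refine (Pr_upper univ _ (θ := Real.exp 1) (μ := (s + 1) / 4)
      (by linarith [Real.add_one_le_exp 1]) ?_).trans ?_
    · refine le_trans (sum_le_card_nsmul _ _ q fun i _ => h3) ?_
      rw [card_univ, nsmul_eq_mul]
      linarith
    · rw [← Real.exp_mul, ← Real.exp_sub]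
      have : (0 : ℝ) ≤ s + 1 := by positivity
      exact Real.exp_le_exp.mpr (by nlinarith)

theorem pow_le_exp (y : ℝ) (hy : 0 ≤ y) (k : ℕ) : y ^ k ≤ Real.exp (k * y) := by
  rw [Real.exp_nat_mul]
  exact pow_le_pow_left₀ hy (by linarith [Real.add_one_le_exp y]) k

theorem comb (P : A → Prop) {Y lo hi a μ s r0 : ℕ} {q : ℝ} (hY : 10 ^ 20 ≤ Y)
    (hn : Fintype.card V ≤ 2 * Y ^ 250)
    (h1 : Pr (fun r : V → A => cnt univ (fun _ => P) r < lo) ≤ Real.exp (-(Y : ℝ) ^ 2))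
    (h2 : Pr (fun r : V → A => hi < cnt univ (fun _ => P) r) ≤ Real.exp (-(Y : ℝ) ^ 2))
    (h3 : Pr (fun r : V → A => cnt univ (fun _ => P) r ≤ a) ≤ q)
    (h4 : 4 * (Fintype.card V * q) ≤ s + 1) (h5 : 4 * Y ^ 2 ≤ s)
    (h6 : Pr (fun U : V × V → A => ¬ DegOK Y (fun e => P (U e) ∧ e.1 ≠ e.2) ∧
      ∀ x, a < rdeg (fun e => P (U e) ∧ e.1 ≠ e.2) x + μ) ≤ Real.exp (-(Y : ℝ) ^ 2))
    (n1 : hi + 1 ≤ lo + r0) (n2 : r0 ≤ 2 * Y ^ 128) (n3 : Y ^ 248 + 1 ≤ lo)
    (n4 : r0 * (20 * Y * r0 + Y ^ 3) + μ * (r0 + s + Y ^ 236) + μ ≤ μ * lo) :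
    Pr (fun U : V × V → A => ¬ DegOK Y fun e => P (U e) ∧ e.1 ≠ e.2) ≤ Real.exp (-Y) := by
  have g1 := good_le P h1 h2 h3 h4
  have g2 := (Pr_tr fun U : V × V → A => ¬ Good (fun e => P (U e)) lo hi a s).le.trans g1
  have hY' : (10 : ℝ) ^ 20 ≤ Y := by exact_mod_cast hY
  have hn' : (Fintype.card V : ℝ) ≤ 2 * (Y : ℝ) ^ 250 := by exact_mod_cast hn
  have h5' : 4 * (Y : ℝ) ^ 2 ≤ s := by exact_mod_cast h5
  have e1 : Real.exp (-((s + 1) / 4)) ≤ Real.exp (-(Y : ℝ) ^ 2) :=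
    Real.exp_le_exp.mpr (by linarith)
  have e2 : Pr (fun U : V × V → A => ¬ DegOK Y fun e => P (U e) ∧ e.1 ≠ e.2) ≤
      (4 * Fintype.card V + 3) * Real.exp (-(Y : ℝ) ^ 2) := by
    refine le_trans (Pr_le_add (E₂ := fun U : V × V → A =>
      ¬ Good (fun e => P (U e)) lo hi a s ∨ ¬ Good (fun e => P (U e.swap)) lo hi a s)
      fun U hU => ?_) (le_trans (add_le_add h6 ((Pr_or_le _ _).trans (add_le_add g1 g2)))
        (by linarith))
    by_contra hcon
    push Not at hcon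
    obtain ⟨x, hx⟩ := hcon.1 hU
    exact hU (det (H := fun e => P (U e)) (fun e he => he.1) (fun e he he' => ⟨he', he⟩)
      hcon.2.1 hcon.2.2 ⟨x, hx⟩ n1 n2 n3 n4)
  refine e2.trans ?_
  have e3 : (1 : ℝ) ≤ (Y : ℝ) ^ 250 := one_le_pow₀ (by linarith)
  have e4 : (4 * Fintype.card V + 3 : ℝ) ≤ (Y : ℝ) ^ 251 := by
    rw [pow_succ]
    nlinarith
  refine (mul_le_mul_of_nonneg_right (e4.trans (pow_le_exp _ (by linarith) _))
    (Real.exp_pos _).le).trans ?_
  rw [← Real.exp_add]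
  exact Real.exp_le_exp.mpr (by push_cast; nlinarith)

theorem rows_le (P : A → Prop) {Y a μ : ℕ} {q : ℝ} (hμ : μ ≤ a)
    (h : q ≤ Pr (fun r : V → A => cnt univ (fun _ => P) r + μ ≤ a))
    (hq : (Y : ℝ) ^ 2 ≤ Fintype.card V * q) :
    Pr (fun U : V × V → A => ¬ DegOK Y (fun e => P (U e) ∧ e.1 ≠ e.2) ∧
      ∀ x, a < rdeg (fun e => P (U e) ∧ e.1 ≠ e.2) x + μ) ≤ Real.exp (-(Y : ℝ) ^ 2) := by
  refine le_trans (Pr_mono fun U hU x => ?_) ((Pr_all_rows (V := V) P (a - μ) (q := q)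
    (h.trans (Pr_mono fun r hr => by omega))).trans (Real.exp_le_exp.mpr (by linarith)))
  have h1 := hU.2 x
  have h2 := (rdeg_off (G := fun e => P (U e) ∧ e.1 ≠ e.2) (H := fun e => P (U e))
    (fun e he => he.1) (fun e he he' => ⟨he', he⟩) x).1
  omega

theorem complete {Y : ℕ} {G : V × V → Prop} (hG : Irr G) (hn : Y ^ 248 + 1 ≤ Fintype.card V)
    (h : ∀ x, Fintype.card V - 1 < rdeg G x + 1) : DegOK Y G := by
  classical
  have h1 : ∀ x y, y ≠ x → G (x, y) := by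
    intro x y hy
    have h2 : (univ.filter fun y => G (x, y)) = univ.erase x := by
      refine eq_of_subset_of_card_le (fun z hz => ?_) ?_
      · refine mem_erase.2 ⟨?_, mem_univ _⟩
        rintro rfl
        exact hG _ (mem_filter.1 hz).2
      · have := h x
        unfold rdeg at this
        rw [card_erase_of_mem (mem_univ _), card_univ]
        convert Nat.le_of_lt_succ this
    exact (mem_filter.1 (h2 ▸ mem_erase.2 ⟨hy, mem_univ _⟩ : y ∈ univ.filter fun y => G (x, y))).2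
  have h2 : ∀ H : V × V → Prop, Irr H → (∀ x y, y ≠ x → H (x, y)) → ∀ x,
      rdeg H x = Fintype.card V - 1 := by
    intro H hH h' x
    unfold rdeg
    rw [← card_univ, ← card_erase_of_mem (mem_univ x)]
    congr 1
    ext y
    simp only [mem_filter, mem_univ, true_and, mem_erase, and_true]
    exact ⟨fun hy hxy => hH x (by rwa [hxy] at hy), h' x y⟩
  have h3 := h2 G hG h1
  have h4 := h2 (tr G) (fun x => hG x) fun x y hy => h1 y x hy.symm
  obtain ⟨x⟩ : Nonempty V := Fintype.card_pos_iff.1 (by omega)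
  refine ⟨Fintype.card V - 1, 0, 0, 0, fun x => by simp [h3], fun x => by simp [h4],
    ⟨x, Or.inl (h3 x)⟩, by simp [h3], by simp [h4], Nat.zero_le _, by omega, by simp⟩

theorem pow_facts {Y : ℕ} (hY : 10 ^ 20 ≤ Y) {i j : ℕ} (h : i < j) : 1000 * Y ^ i ≤ Y ^ j :=
  calc 1000 * Y ^ i ≤ Y * Y ^ i := Nat.mul_le_mul_right _ (by omega)
    _ = Y ^ (i + 1) := by ring
    _ ≤ Y ^ j := Nat.pow_le_pow_right (by omega) h

theorem pow_facts' {Y : ℕ} (hY : 10 ^ 20 ≤ Y) {i j : ℕ} (h : i < j) :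
    1000 * (Y : ℝ) ^ i ≤ (Y : ℝ) ^ j := by exact_mod_cast pow_facts hY h

/-- Nearly complete graphs. -/
theorem regA (P : A → Prop) {Y a : ℕ} (hY : 10 ^ 20 ≤ Y) (hn0 : Y ^ 250 ≤ Fintype.card V)
    (hn : Fintype.card V ≤ 2 * Y ^ 250) (hd : Fintype.card V * (1 - Pr P) ≤ (Y : ℝ) ^ 112)
    (h3 : Pr (fun r : V → A => cnt univ (fun _ => P) r ≤ a) ≤ 1 / 16)
    (h6 : Pr (fun U : V × V → A => ¬ DegOK Y (fun e => P (U e) ∧ e.1 ≠ e.2) ∧
      ∀ x, a < rdeg (fun e => P (U e) ∧ e.1 ≠ e.2) x + 1) ≤ Real.exp (-(Y : ℝ) ^ 2)) :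
    Pr (fun U : V × V → A => ¬ DegOK Y fun e => P (U e) ∧ e.1 ≠ e.2) ≤ Real.exp (-Y) := by
  have hY' : (10 : ℝ) ^ 20 ≤ Y := by exact_mod_cast hY
  have p1 := pow_facts hY (show 0 < 112 by norm_num)
  have p2 := pow_facts hY (show 112 < 128 by norm_num)
  have p3 := pow_facts hY (show 112 < 236 by norm_num)
  have p4 := pow_facts hY (show 236 < 248 by norm_num)
  have p5 := pow_facts hY (show 248 < 250 by norm_num)
  have p6 := pow_facts hY (show 2 < 112 by norm_num)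
  have p7 := pow_facts hY (show 225 < 236 by norm_num)
  have p8 := pow_facts hY (show 3 < 113 by norm_num)
  rw [pow_zero] at p1
  refine comb P (lo := Fintype.card V - 2 * Y ^ 112) (hi := Fintype.card V) (μ := 1)
    (s := Fintype.card V / 4) (r0 := 2 * Y ^ 112 + 1) hY hn ?_ ?_ h3 ?_ (by omega) h6 (by omega)
    (by omega) (by omega) ?_
  · have h0 : (0 : ℝ) < (Y : ℝ) ^ 112 := by positivity
    refine le_trans (Pr_mono fun r hr => ?_) ((upper_gauss univ (fun (_ : V) l => ¬ P l) h0.le h0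
      (by linarith) ((sum_not P).le.trans hd)).trans (Real.exp_le_exp.mpr ?_))
    · have h1 := cnt_add P r
      have h2 : Y ^ 112 + Y ^ 112 ≤ cnt univ (fun (_ : V) l => ¬ P l) r := by omega
      exact_mod_cast h2
    · have h1 : ((Y : ℝ) ^ 112) ^ 2 / (4 * (Y : ℝ) ^ 112) = (Y : ℝ) ^ 112 / 4 := by
        field_simp
      have h2 := pow_facts' hY (show 2 < 112 by norm_num)
      rw [h1]
      linarith [sq_nonneg (Y : ℝ)]
  · refine (Pr_false fun r hr => ?_).le.trans (by positivity)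
    have := cnt_add P r
    omega
  · have h1 : Fintype.card V ≤ 4 * (Fintype.card V / 4 + 1) := by omega
    have h2 : (Fintype.card V : ℝ) ≤ 4 * ((Fintype.card V / 4 : ℕ) + 1) := by exact_mod_cast h1
    linarith
  · have h1 : (2 * Y ^ 112 + 1) * (20 * Y * (2 * Y ^ 112 + 1) + Y ^ 3) ≤ 183 * Y ^ 225 :=
      calc (2 * Y ^ 112 + 1) * (20 * Y * (2 * Y ^ 112 + 1) + Y ^ 3)
          ≤ (3 * Y ^ 112) * (20 * Y * (3 * Y ^ 112) + Y ^ 113) :=
            Nat.mul_le_mul (by omega) (Nat.add_le_add (Nat.mul_le_mul_left _ (by omega)) (by omega))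
        _ = 183 * Y ^ 225 := by ring
    omega

theorem markov (P : A → Prop) {a t : ℕ} (ht : 0 < t) (h : a + t ≤ Fintype.card V) :
    Pr (fun r : V → A => cnt univ (fun _ => P) r ≤ a) ≤ Fintype.card V * (1 - Pr P) / t := by
  have ht' : (0 : ℝ) < t := by exact_mod_cast ht
  refine le_trans (Pr_mono fun r hr => ?_) ((Pr_le_div (f := fun r : V → A =>
    (cnt univ (fun (_ : V) l => ¬ P l) r : ℝ)) (fun _ => Nat.cast_nonneg _) ht').trans ?_)
  · have h1 := cnt_add P r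
    have h2 : t ≤ cnt univ (fun (_ : V) l => ¬ P l) r := by omega
    exact_mod_cast h2
  · rw [Ex_cnt, sum_not]

theorem regA0 (P : A → Prop) {Y : ℕ} (hY : 10 ^ 20 ≤ Y) (hn0 : Y ^ 250 ≤ Fintype.card V)
    (hn : Fintype.card V ≤ 2 * Y ^ 250) (hd : Fintype.card V * (1 - Pr P) ≤ 1 / 16) :
    Pr (fun U : V × V → A => ¬ DegOK Y fun e => P (U e) ∧ e.1 ≠ e.2) ≤ Real.exp (-Y) := by
  have p1 := pow_facts hY (show 0 < 248 by norm_num)
  have p2 := pow_facts hY (show 248 < 250 by norm_num)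
  have p3 := pow_facts' hY (show 0 < 112 by norm_num)
  rw [pow_zero] at p1 p3
  refine regA P (a := Fintype.card V - 1) hY hn0 hn (by linarith)
    ((markov P (t := 1) one_pos (by omega)).trans (by simpa using hd)) ?_
  rw [Pr_false fun U hU => hU.1 (complete (fun x hx => hx.2 rfl) (by omega) hU.2)]
  positivity

theorem regA1 (P : A → Prop) {Y : ℕ} (hY : 10 ^ 20 ≤ Y) (hn0 : Y ^ 250 ≤ Fintype.card V)
    (hn : Fintype.card V ≤ 2 * Y ^ 250) (hp : 0 < Pr P)
    (hd0 : 1 / 16 ≤ Fintype.card V * (1 - Pr P))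
    (hd : Fintype.card V * (1 - Pr P) ≤ (Y : ℝ) ^ 112) :
    Pr (fun U : V × V → A => ¬ DegOK Y fun e => P (U e) ∧ e.1 ≠ e.2) ≤ Real.exp (-Y) := by
  have p1 := pow_facts hY (show 0 < 112 by norm_num)
  have p2 := pow_facts hY (show 112 < 250 by norm_num)
  rw [pow_zero] at p1
  have hp1 : 0 ≤ 1 - Pr P := sub_nonneg.2 (Pr_le_one P)
  obtain ⟨d, hdd⟩ : ∃ d : ℝ, d = Fintype.card V * (1 - Pr P) := ⟨_, rfl⟩
  obtain ⟨t, ht⟩ : ∃ t : ℕ, t = ⌈32 * d⌉₊ := ⟨_, rfl⟩
  have t1 : 32 * d ≤ t := ht ▸ Nat.le_ceil _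
  have t2 : (t : ℝ) ≤ 32 * d + 1 := ht ▸ (Nat.ceil_lt_add_one (by linarith)).le
  have t3 : t ≤ 32 * Y ^ 112 + 1 := by
    have : (t : ℝ) ≤ 32 * (Y : ℝ) ^ 112 + 1 := by linarith
    exact_mod_cast this
  have t0 : 0 < t := by
    have : (0 : ℝ) < t := by linarith
    exact_mod_cast this
  obtain ⟨b, hb⟩ : ∃ b, b + t = Fintype.card V := ⟨Fintype.card V - t, by omega⟩
  have hb' : (b : ℝ) + t = Fintype.card V := by exact_mod_cast hb
  have hb2 : (Fintype.card V : ℝ) ≤ 2 * b := by exact_mod_cast (by omega : Fintype.card V ≤ 2 * b)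
  obtain ⟨a, ha1, ha2, ha3, -⟩ := binom2 V A P b 1 (1 / 16) (1 / 160) (by norm_num) (by norm_num)
    (by omega) (by omega) hp (by norm_num) (by norm_num) (by
      have h1 : d ≤ 2 * b * (1 - Pr P) := hdd ▸ mul_le_mul_of_nonneg_right hb2 hp1
      have h2 : (0 : ℝ) ≤ t + 1 := by positivity
      have h3 : Pr P * (t + 1) ≤ t + 1 := by nlinarith
      rw [← hb']
      push_cast
      nlinarith)
    ((markov P t0 hb.le).trans (by
      rw [← hdd, div_le_iff₀ (by exact_mod_cast t0)]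
      linarith))
  refine regA P hY hn0 hn hd ha2 (rows_le P (by omega) ha3 ?_)
  have p3 := pow_facts' hY (show 2 < 3 by norm_num)
  have p4 := pow_facts' hY (show 3 < 4 by norm_num)
  have p5 := pow_facts' hY (show 4 < 250 by norm_num)
  have p6 : (Y : ℝ) ^ 250 ≤ Fintype.card V := by exact_mod_cast hn0
  have p7 := sq_nonneg (Y : ℝ)
  norm_num
  linarith

theorem mean_ge {y n p : ℝ} (hy : 0 < y) (hn : y ^ 250 ≤ n) (hp : 1 ≤ 2 * y * p) :
    y ^ 249 ≤ 2 * (n * p) := by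
  refine le_of_mul_le_mul_left ?_ hy
  have h0 : 0 ≤ n := le_trans (by positivity) hn
  calc y * y ^ 249 = y ^ 250 := by ring
    _ ≤ n * 1 := by linarith
    _ ≤ n * (2 * y * p) := mul_le_mul_of_nonneg_left hp h0
    _ = _ := by ring

/-- The threshold when the complement is not too sparse. -/
theorem thrB (P : A → Prop) {Y : ℕ} (hY : 10 ^ 20 ≤ Y) (hn0 : Y ^ 250 ≤ Fintype.card V)
    (hn : Fintype.card V ≤ 2 * Y ^ 250) (hp : 1 ≤ 2 * Y * Pr P)
    (hd : (Y : ℝ) ^ 112 ≤ Fintype.card V * (1 - Pr P)) :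
    ∃ a : ℕ, Y ^ 11 ≤ a ∧
      Pr (fun r : V → A => cnt univ (fun _ => P) r ≤ a) ≤ 1 / (8 * (Y : ℝ) ^ 3) ∧
      1 / (32 * (Y : ℝ) ^ 3) ≤ Pr (fun r : V → A => cnt univ (fun _ => P) r + Y ^ 11 ≤ a) := by
  have hY' : (10 : ℝ) ^ 20 ≤ Y := by exact_mod_cast hY
  have hY0 : (0 : ℝ) < Y := by linarith
  have hn0' : (Y : ℝ) ^ 250 ≤ Fintype.card V := by exact_mod_cast hn0
  have hn' : (Fintype.card V : ℝ) ≤ 2 * (Y : ℝ) ^ 250 := by exact_mod_cast hn
  have hp1 : 0 ≤ 1 - Pr P := sub_nonneg.2 (Pr_le_one P)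
  have hp0 : 0 < Pr P := by
    by_contra h
    nlinarith [not_lt.1 h]
  obtain ⟨n, hnn⟩ : ∃ n : ℝ, n = Fintype.card V := ⟨_, rfl⟩
  obtain ⟨p, hpp⟩ : ∃ p : ℝ, p = Pr P := ⟨_, rfl⟩
  obtain ⟨d, hdd⟩ : ∃ d : ℝ, d = n * (1 - p) := ⟨_, rfl⟩
  rw [← hnn] at hn0' hn' hd
  rw [← hpp] at hp hp1 hp0 hd
  rw [← hdd] at hd
  have hn1 : 0 < n := lt_of_lt_of_le (by positivity) hn0'
  have hd0 : 0 < d := lt_of_lt_of_le (by positivity) hd
  obtain ⟨σ, hσ0, hσ⟩ : ∃ σ : ℝ, 0 ≤ σ ∧ σ ^ 2 = d := ⟨√d, Real.sqrt_nonneg _, Real.sq_sqrt hd0.le⟩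
  have s1 : (Y : ℝ) ^ 56 ≤ σ := by
    refine (abs_le_of_sq_le_sq' ?_ hσ0).2
    rw [hσ, ← pow_mul]
    exact hd
  have s2 : σ ≤ 2 * (Y : ℝ) ^ 125 := by
    refine abs_le_of_sq_le_sq' ?_ (by positivity) |>.2
    rw [hσ, mul_pow, ← pow_mul]
    have : d ≤ n := by rw [hdd]; linarith [mul_pos hn1 hp0]
    have : (0 : ℝ) < (Y : ℝ) ^ 250 := by positivity
    norm_num
    linarith
  have m1 := mean_ge hY0 hn0' hp
  have q1 := pow_facts' hY (show 0 < 1 by norm_num)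
  have q2 := pow_facts' hY (show 1 < 11 by norm_num)
  have q3 := pow_facts' hY (show 11 < 13 by norm_num)
  have q4 := pow_facts' hY (show 13 < 56 by norm_num)
  have q5 := pow_facts' hY (show 56 < 126 by norm_num)
  have q6 := pow_facts' hY (show 126 < 249 by norm_num)
  have q7 := pow_facts' hY (show 0 < 3 by norm_num)
  rw [pow_zero] at q1 q7
  rw [pow_one] at q1 q2
  have D0 : 0 < Y * σ := mul_pos hY0 (lt_of_lt_of_le (by positivity) s1)
  have D1 : Y * σ ≤ 2 * (Y : ℝ) ^ 126 := by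
    rw [pow_succ' (Y : ℝ) 125]
    linarith [mul_le_mul_of_nonneg_left s2 hY0.le]
  have D2 : σ ≤ Y * σ := le_mul_of_one_le_left hσ0 (by linarith)
  obtain ⟨b, hb⟩ : ∃ b : ℕ, b = ⌊n * p - Y * σ⌋₊ := ⟨_, rfl⟩
  have b1 : (b : ℝ) ≤ n * p - Y * σ := hb ▸ Nat.floor_le (by linarith)
  have b2 : n * p - Y * σ ≤ b + 1 := hb ▸ (Nat.lt_floor_add_one _).le
  have b3 : Y ^ 11 ≤ b := by
    have : (Y : ℝ) ^ 11 ≤ b := by linarith
    exact_mod_cast this
  have b4 : b < Fintype.card V := by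
    have : (b : ℝ) < Fintype.card V := by
      rw [← hnn]
      linarith [mul_nonneg hn1.le hp1]
    exact_mod_cast this
  obtain ⟨η, hη⟩ : ∃ η : ℝ, η = 1 / (4 * (Y : ℝ) ^ 11) := ⟨_, rfl⟩
  have η0 : 0 < η := by rw [hη]; positivity
  have η1 : 4 * (Y : ℝ) ^ 11 * η = 1 := by rw [hη]; field_simp
  have η2 : η ≤ 1 / 4 := by
    linarith [le_mul_of_one_le_left η0.le (show 1 ≤ (Y : ℝ) ^ 11 by linarith)]
  obtain ⟨a, ha1, ha2, ha3, -⟩ := binom2 V A P b (Y ^ 11) (1 / (8 * (Y : ℝ) ^ 3)) (1 - η)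
    (by positivity) (by rw [div_lt_one (by positivity)]; linarith) b3 b4 (hpp ▸ hp0) (by linarith)
    (by linarith) (by
      rw [← hnn, ← hpp]
      push_cast
      have w1 : Y * σ + (Y : ℝ) ^ 11 + 1 ≤ η * p * d := by
        have w2 : 8 * (Y : ℝ) ^ 12 * (η * p * d) = (4 * (Y : ℝ) ^ 11 * η) * (2 * Y * p) * d := by
          ring
        have w3 : d ≤ 8 * (Y : ℝ) ^ 12 * (η * p * d) := by
          rw [w2, η1, one_mul]
          exact le_mul_of_one_le_left hd0.le hp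
        have w4 : 8 * (Y : ℝ) ^ 12 * (3 * (Y * σ)) ≤ d := by
          rw [← hσ, show 8 * (Y : ℝ) ^ 12 * (3 * (Y * σ)) = 24 * (Y : ℝ) ^ 13 * σ by ring, sq]
          exact mul_le_mul_of_nonneg_right (by linarith) hσ0
        have w5 : 3 * (Y * σ) ≤ η * p * d :=
          le_of_mul_le_mul_left (w4.trans w3) (by positivity)
        linarith
      obtain ⟨w, hw⟩ : ∃ w : ℝ, w = Y * σ + (Y : ℝ) ^ 11 + 1 := ⟨_, rfl⟩
      have w0 : 0 ≤ w := by rw [hw]; positivity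
      calc (1 - η) * p * (n - (b - (Y : ℝ) ^ 11)) ≤ (1 - η) * p * (d + w) :=
            mul_le_mul_of_nonneg_left (by rw [hdd]; linarith) (by
              have : 0 ≤ 1 - η := by linarith
              positivity)
        _ ≤ (n * p - w) * (1 - p) := by
            have e1 : (n * p - w) * (1 - p) = p * d - w + p * w := by rw [hdd]; ring
            have e2 : 0 ≤ η * p * w := by positivity
            rw [e1]
            linarith
        _ ≤ _ := mul_le_mul_of_nonneg_right (by linarith) hp1)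
    (by
      refine le_trans (Pr_mono fun r hr => ?_) ((upper_gauss univ (fun (_ : V) l => ¬ P l) D0.le
        hd0 (by
          rw [← hσ]
          linarith [mul_le_mul_of_nonneg_right (show (Y : ℝ) ≤ σ by linarith) hσ0, sq_nonneg σ]) (by rw [sum_not, ← hnn, ← hpp, hdd])).trans ?_)
      · have h1 : (cnt univ (fun _ => P) r : ℝ) ≤ b := by exact_mod_cast hr
        rw [cnt_add', ← hnn, hdd]
        linarith
      · have h1 : (Y * σ) ^ 2 / (4 * d) = (Y : ℝ) ^ 2 / 4 := by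
          rw [mul_pow, hσ]
          field_simp
        have h2 : 16 * (Y : ℝ) ^ 3 ≤ Real.exp ((Y : ℝ) ^ 2 / 4) := by
          have h3 := pow_le_exp Y hY0.le 4
          have h4 := pow_facts' hY (show 3 < 4 by norm_num)
          have h5 : Real.exp ((4 : ℕ) * (Y : ℝ)) ≤ Real.exp ((Y : ℝ) ^ 2 / 4) :=
            Real.exp_le_exp.mpr (by
              push_cast
              linarith [mul_le_mul_of_nonneg_right q1 hY0.le])
          refine le_trans ?_ (h4.trans (h3.trans h5))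
          linarith
        rw [h1, Real.exp_neg, div_div, one_div]
        exact inv_anti₀ (by positivity) (by linarith))
  refine ⟨a, b3.trans ha1, ha2, le_trans ?_ ha3⟩
  have h1 := one_add_mul_le_pow (a := -η) (by linarith) (Y ^ 11 + 1)
  push_cast at h1
  have h2 : 1 / 2 ≤ (1 - η) ^ (Y ^ 11 + 1) := by
    rw [sub_eq_add_neg]
    linarith
  calc 1 / (32 * (Y : ℝ) ^ 3) = 1 / (8 * (Y : ℝ) ^ 3) / 2 * (1 / 2) := by field_simp; norm_num
    _ ≤ _ := mul_le_mul_of_nonneg_left h2 (by positivity)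

theorem regB (P : A → Prop) {Y : ℕ} (hY : 10 ^ 20 ≤ Y) (hn0 : Y ^ 250 ≤ Fintype.card V)
    (hn : Fintype.card V ≤ 2 * Y ^ 250) (hp : 1 ≤ 2 * Y * Pr P)
    (hd : (Y : ℝ) ^ 112 ≤ Fintype.card V * (1 - Pr P)) :
    Pr (fun U : V × V → A => ¬ DegOK Y fun e => P (U e) ∧ e.1 ≠ e.2) ≤ Real.exp (-Y) := by
  obtain ⟨a, ha1, ha2, ha3⟩ := thrB P hY hn0 hn hp hd
  have hY' : (10 : ℝ) ^ 20 ≤ Y := by exact_mod_cast hY
  have hY0 : (0 : ℝ) < Y := by linarith
  have hn0' : (Y : ℝ) ^ 250 ≤ Fintype.card V := by exact_mod_cast hn0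
  have hn' : (Fintype.card V : ℝ) ≤ 2 * (Y : ℝ) ^ 250 := by exact_mod_cast hn
  have hp0 := Pr_nonneg P
  have hp1 : 0 ≤ 1 - Pr P := sub_nonneg.2 (Pr_le_one P)
  have m1 := mean_ge hY0 hn0' hp
  have hn1 : (0 : ℝ) ≤ Fintype.card V := Nat.cast_nonneg _
  obtain ⟨m, hm⟩ : ∃ m : ℕ, m = ⌊Fintype.card V * Pr P⌋₊ := ⟨_, rfl⟩
  have m2 : (m : ℝ) ≤ Fintype.card V * Pr P := hm ▸ Nat.floor_le (by positivity)
  have m3 : Fintype.card V * Pr P ≤ m + 1 := hm ▸ (Nat.lt_floor_add_one _).le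
  have m4 : Y ^ 249 ≤ 2 * m + 2 := by
    have : (Y : ℝ) ^ 249 ≤ 2 * m + 2 := by linarith
    exact_mod_cast this
  have key : ∀ μ : ℝ, 0 < μ → μ ≤ Fintype.card V →
      Real.exp (-(((Y : ℝ) ^ 127) ^ 2 / (2 * μ))) ≤ Real.exp (-(Y : ℝ) ^ 2) := by
    intro μ h0 h1
    refine Real.exp_le_exp.mpr (neg_le_neg ?_)
    rw [le_div_iff₀ (by positivity), ← pow_mul]
    have h2 := pow_facts' hY (show 252 < 127 * 2 by norm_num)
    have h3 : (Y : ℝ) ^ 2 * (2 * μ) ≤ (Y : ℝ) ^ 2 * (4 * (Y : ℝ) ^ 250) :=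
      mul_le_mul_of_nonneg_left (by linarith) (by positivity)
    have h4 : (Y : ℝ) ^ 2 * (4 * (Y : ℝ) ^ 250) = 4 * (Y : ℝ) ^ 252 := by ring
    have h5 : (0 : ℝ) < (Y : ℝ) ^ 252 := by positivity
    linarith
  have p1 := pow_facts hY (show 0 < 127 by norm_num)
  have p2 := pow_facts hY (show 127 < 128 by norm_num)
  have p3 := pow_facts hY (show 128 < 236 by norm_num)
  have p4 := pow_facts hY (show 236 < 247 by norm_num)
  have p5 := pow_facts hY (show 247 < 248 by norm_num)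
  have p6 := pow_facts hY (show 248 < 249 by norm_num)
  have p7 := pow_facts hY (show 2 < 247 by norm_num)
  have p8 := pow_facts hY (show 3 < 129 by norm_num)
  have p9 := pow_facts hY (show 246 < 247 by norm_num)
  rw [pow_zero] at p1
  have y3 : (Y : ℝ) ^ 250 = (Y : ℝ) ^ 3 * (Y : ℝ) ^ 247 := by ring
  refine comb P (lo := m - Y ^ 127) (hi := m + Y ^ 127) (μ := Y ^ 11) (s := Y ^ 247)
    (r0 := 2 * Y ^ 128) hY hn ?_ ?_ ha2 ?_ (by omega) (rows_le P ha1 ha3 ?_) (by omega) le_rfl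
    (by omega) ?_
  · have h0 : 0 < Fintype.card V * Pr P := by
      have : (0 : ℝ) < (Y : ℝ) ^ 249 := by positivity
      linarith
    refine le_trans (Pr_mono fun r hr => ?_) ((Pr_lower_gauss univ (fun (_ : V) => P)
      (D := (Y : ℝ) ^ 127) (by positivity) h0 (by rw [sum_const, card_univ, nsmul_eq_mul])).trans
        (key _ h0 (by nlinarith)))
    have h1 : cnt univ (fun (_ : V) => P) r + Y ^ 127 ≤ m := by omega
    have h2 : (cnt univ (fun (_ : V) => P) r : ℝ) + (Y : ℝ) ^ 127 ≤ m := by exact_mod_cast h1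
    linarith
  · have h0 : 0 < Fintype.card V * (1 - Pr P) := lt_of_lt_of_le (by positivity) hd
    refine le_trans (Pr_mono fun r hr => ?_) ((Pr_lower_gauss univ (fun (_ : V) l => ¬ P l)
      (D := (Y : ℝ) ^ 127) (by positivity) h0 (sum_not P).ge).trans (key _ h0 (by nlinarith)))
    have h1 : m + Y ^ 127 + 1 ≤ cnt univ (fun (_ : V) => P) r := hr
    have h2 : (m : ℝ) + (Y : ℝ) ^ 127 + 1 ≤ cnt univ (fun (_ : V) => P) r := by exact_mod_cast h1
    rw [cnt_add']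
    linarith
  · push_cast
    have h1 : Fintype.card V * (1 / (8 * (Y : ℝ) ^ 3)) ≤ (Y : ℝ) ^ 247 / 4 := by
      rw [mul_one_div, div_le_iff₀ (by positivity)]
      linarith
    linarith
  · have h1 := pow_facts' hY (show 5 < 250 by norm_num)
    have h2 : (0 : ℝ) < (Y : ℝ) ^ 5 := by positivity
    rw [mul_one_div, le_div_iff₀ (by positivity),
      show (Y : ℝ) ^ 2 * (32 * (Y : ℝ) ^ 3) = 32 * (Y : ℝ) ^ 5 by ring]
    linarith
  · have h1 : 2 * Y ^ 128 * (20 * Y * (2 * Y ^ 128) + Y ^ 3) ≤ Y ^ 11 * (82 * Y ^ 246) :=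
      calc 2 * Y ^ 128 * (20 * Y * (2 * Y ^ 128) + Y ^ 3)
          ≤ 2 * Y ^ 128 * (20 * Y * (2 * Y ^ 128) + Y ^ 129) :=
            Nat.mul_le_mul_left _ (Nat.add_le_add_left (by omega) _)
        _ = Y ^ 11 * (82 * Y ^ 246) := by ring
    have h2 : Y ^ 11 * (82 * Y ^ 246 + (2 * Y ^ 128 + Y ^ 247 + Y ^ 236) + 1) ≤
        Y ^ 11 * (m - Y ^ 127) := Nat.mul_le_mul_left _ (by omega)
    rw [mul_add, mul_add, mul_one] at h2
    omega

end Deg

theorem deg : S_DEG := by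
  intro V A _ _ _ _ Y P hY hn0 hn hp
  rcases le_total (Fintype.card V * (1 - Pr P)) (1 / 16) with h | h
  · exact Deg.regA0 P hY hn0 hn h
  · rcases le_total (Fintype.card V * (1 - Pr P)) ((Y : ℝ) ^ 112) with h' | h'
    · refine Deg.regA1 P hY hn0 hn ?_ h h'
      by_contra h0
      have : (0 : ℝ) ≤ Y := Nat.cast_nonneg _
      nlinarith [not_lt.1 h0]
    · exact Deg.regB P hY hn0 hn hp h'

end Pool.Agent.P.MP_de899d_pr
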