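import Pool.Agent.P.MP_de899d_pr.Base2

/-! The deterministic assembly for the dense range. -/

namespace Pool.Agent.P.MP_de899d_pr
open Finset Equiv

namespace DenseAux

lemma pw {Y : ℕ} (hY : 10 ^ 20 ≤ Y) (i j : ℕ) (h : i < j) : 100000 * Y ^ i ≤ Y ^ j := by
  have h1 : Y ^ (i + 1) ≤ Y ^ j := Nat.pow_le_pow_right (by omega) h
  rw [pow_succ] at h1
  have h2 : Y ^ i * 100000 ≤ Y ^ i * Y := Nat.mul_le_mul_left _ (by omega)
  omega

lemma union_bound {Y K m : ℕ} (hY : 10 ^ 20 ≤ Y) (hK : K ≤ 2 * Y ^ 100) (hm0 : 0 < m)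
    (hm : m ≤ 3 * Y ^ 150) :
    16 * ((K : ℝ) * m) * K * Real.exp (-((((Y ^ 80 : ℕ) : ℝ)) ^ 2 / (4 * m))) < 1 := by
  have Y0 : (10 : ℝ) ^ 20 ≤ Y := by exact_mod_cast hY
  have Yp : (0 : ℝ) < Y := lt_of_lt_of_le (by positivity) Y0
  have hK' : (K : ℝ) ≤ 2 * (Y : ℝ) ^ 100 := by exact_mod_cast hK
  have hm' : (m : ℝ) ≤ 3 * (Y : ℝ) ^ 150 := by exact_mod_cast hm
  have hm0' : (0 : ℝ) < m := by exact_mod_cast hm0
  have h1 : (Y : ℝ) ^ 10 / 12 ≤ (((Y ^ 80 : ℕ) : ℝ)) ^ 2 / (4 * m) := by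
    rw [div_le_div_iff₀ (by norm_num) (by positivity)]
    push_cast
    have := mul_le_mul_of_nonneg_left hm' (pow_pos Yp 10).le
    linarith
  have h2 := (Real.pow_div_factorial_le_exp _ (by positivity) 36).trans (Real.exp_le_exp.2 h1)
  have h3 : 16 * ((K : ℝ) * m) * K ≤ 192 * (Y : ℝ) ^ 350 := by
    calc 16 * ((K : ℝ) * m) * K ≤ 16 * (2 * (Y : ℝ) ^ 100 * (3 * Y ^ 150)) * (2 * Y ^ 100) := by
          gcongr
      _ = _ := by ring
  have h4 : ((10 : ℝ) ^ 20) ^ 10 ≤ (Y : ℝ) ^ 10 := by gcongr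
  have h5 : 192 * (Y : ℝ) ^ 350 < ((Y : ℝ) ^ 10 / 12) ^ 36 / (Nat.factorial 36 : ℕ) := by
    rw [lt_div_iff₀ (by positivity), div_pow, lt_div_iff₀ (by positivity)]
    have h6 : (192 : ℝ) * (Nat.factorial 36 : ℕ) * 12 ^ 36 < (Y : ℝ) ^ 10 :=
      lt_of_lt_of_le (by norm_num [Nat.factorial]) h4
    have := mul_lt_mul_of_pos_left h6 (pow_pos Yp 350)
    linarith
  rw [Real.exp_neg, ← div_eq_mul_inv, div_lt_one (Real.exp_pos _)]
  linarith

variable {V : Type} [Fintype V] [DecidableEq V]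

lemma sp {G G₁ : V × V → Prop} (h : ∀ e, G₁ e → G e) (x : V) :
    rdeg G x = rdeg G₁ x + rdeg (fun e => G e ∧ ¬ G₁ e) x ∧
      rdeg (tr G) x = rdeg (tr G₁) x + rdeg (tr fun e => G e ∧ ¬ G₁ e) x :=
  have h1 : ∀ e, G e ↔ G₁ e ∨ (G e ∧ ¬ G₁ e) := fun e => by have := h e; tauto
  ⟨rdeg_split h1 (fun _ a b => b.2 a) x, rdeg_tr_split h1 (fun _ a b => b.2 a) x⟩

lemma or_le (G₁ G₂ : V × V → Prop) (x : V) :
    rdeg (fun e => G₁ e ∨ G₂ e) x ≤ rdeg G₁ x + rdeg G₂ x ∧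
      rdeg (tr fun e => G₁ e ∨ G₂ e) x ≤ rdeg (tr G₁) x + rdeg (tr G₂) x :=
  ⟨rdeg_or_le (fun _ h => h) x, rdeg_or_le (fun _ h => h) x⟩

/-- Removing the excess degrees inside a dense host. -/
lemma trim (hff : S_FF) {Y δ r0 μ s : ℕ} {G Hs : V × V → Prop} (hY : 0 < Y)
    (h1 : ∀ x, δ ≤ rdeg G x ∧ rdeg G x ≤ δ + r0)
    (h2 : ∀ y, δ ≤ rdeg (tr G) y ∧ rdeg (tr G) y ≤ δ + r0)
    (h3 : #(univ.filter fun x => rdeg G x < δ + μ) ≤ s)
    (h4 : #(univ.filter fun y => rdeg (tr G) y < δ + μ) ≤ s) (h5 : Y ^ 236 ≤ δ)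
    (h6 : r0 * (20 * Y * r0 + Y ^ 3) + μ * (r0 + s + Y ^ 236) ≤ μ * δ)
    (h7 : ∀ x, δ ≤ rdeg Hs x + Y ^ 236 ∧ δ ≤ rdeg (tr Hs) x + Y ^ 236)
    (h8 : Den Hs (20 * Y) (Y ^ 3)) :
    ∃ Z : V × V → Prop, (∀ e, Z e → Hs e) ∧
      ∀ x, rdeg Z x + δ = rdeg G x ∧ rdeg (tr Z) x + δ = rdeg (tr G) x := by
  have fu : ∀ a : Unit, fib (fun _ : V => ()) a = univ := fun a => by simp [fib]
  obtain ⟨Z, z1, z2, z3⟩ := hff V Unit (fun _ => ()) (fun _ => ()) Hs (fun x => rdeg G x - δ)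
    (fun y => rdeg (tr G) y - δ) r0 μ s (20 * Y * r0 + Y ^ 3) (δ - Y ^ 236) (fun _ _ => rfl)
    (fun a => by
      rw [fu, sum_tsub_distrib _ fun x _ => (h1 x).1, sum_tsub_distrib _ fun x _ => (h2 x).1,
        ← eN_univ, ← eN_univ, eN_tr])
    (fun x => by have := h1 x; omega) (fun x => by have := h2 x; omega)
    (le_trans (card_le_card fun x => by
      simp only [mem_filter, mem_univ, true_and]; have := h1 x; omega) h3)
    (le_trans (card_le_card fun x => by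
      simp only [mem_filter, mem_univ, true_and]; have := h2 x; omega) h4)
    (fun x => by have := h7 x; omega) (fun x => by have := h7 x; omega)
    (fun _ X W _ _ hX hW => by
      have h9 := h8 X W (by omega) (by omega)
      refine Nat.le_of_mul_le_mul_left (le_trans ?_ h9) (by omega : 0 < 20 * Y)
      rw [← mul_assoc]
      rcases le_total #X #W with h | h
      · rw [min_eq_left h, mul_comm]
        exact Nat.mul_le_mul_left _ (by omega)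
      · rw [min_eq_right h]
        exact Nat.mul_le_mul_right _ (by omega))
    (by
      obtain ⟨d, rfl⟩ := Nat.exists_eq_add_of_le h5
      rw [Nat.add_sub_cancel_left]
      linarith)
  refine ⟨Z, z1, fun x => ?_⟩
  have := h1 x
  have := h2 x
  rw [z2, z3]
  omega

/-- The approximate decomposition with the parameters of the dense range. -/
lemma apx (hapx : S_APX) {Y k : ℕ} {F R1 R2 R3 : V × V → Prop} (hY : 10 ^ 20 ≤ Y)
    (hn : Y ^ 250 ≤ Fintype.card V) (hn' : Fintype.card V ≤ 2 * Y ^ 250)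
    (d1 : ∀ e, F e → ¬ R1 e ∧ ¬ R2 e ∧ ¬ R3 e) (d2 : ∀ e, R1 e → ¬ R2 e ∧ ¬ R3 e)
    (d3 : ∀ e, R2 e → ¬ R3 e) (f1 : ∀ x, k ≤ rdeg F x ∧ rdeg F x ≤ k + 8 * Y ^ 201)
    (f2 : ∀ y, k ≤ rdeg (tr F) y ∧ rdeg (tr F) y ≤ k + 8 * Y ^ 201)
    (hF : Den F (2 * (20 * Y)) (80 * Y ^ 129)) (hR : Den R1 (8 * Y ^ 49) (Y ^ 51))
    (hd : ∀ x, Y ^ 201 ≤ 2 * rdeg R1 x ∧ Y ^ 201 ≤ 2 * rdeg (tr R1) x ∧
      Y ^ 201 ≤ 2 * rdeg R2 x ∧ Y ^ 201 ≤ 2 * rdeg (tr R3) x) (hk : Y ^ 247 ≤ k) :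
    ∃ (k' : ℕ) (H : Fin k' → Perm V), (∀ j, Ham (H j)) ∧ Disj H ∧
      (∀ j x, F (x, H j x) ∨ R1 (x, H j x) ∨ R2 (x, H j x) ∨ R3 (x, H j x)) ∧
      k' ≤ k ∧ k ≤ k' + 9 * Y ^ 201 := by
  have Y0 : 0 < Y := by omega
  have p := pw hY
  have q0 : 0 < Y ^ 100 := pow_pos Y0 _
  obtain ⟨K, hK, K1, K2⟩ := Nat.exists_prime_lt_and_le_two_mul (Y ^ 100) q0.ne'
  obtain ⟨m, m1, m2⟩ : ∃ m, Fintype.card V ≤ K * m ∧ K * m < Fintype.card V + K := by
    refine ⟨(Fintype.card V + K - 1) / K, ?_, ?_⟩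
    · have := Nat.lt_mul_div_succ (Fintype.card V + K - 1) hK.pos
      rw [mul_add] at this
      omega
    · have := Nat.mul_div_le (Fintype.card V + K - 1) K
      omega
  have m3 : m ≤ 3 * Y ^ 150 := by
    refine Nat.le_of_mul_le_mul_left ?_ q0
    have := Nat.mul_le_mul_right m K1.le
    linarith [p 100 250 (by omega)]
  have m4 : Y ^ 150 ≤ 2 * m := by
    refine Nat.le_of_mul_le_mul_left ?_ q0
    have := Nat.mul_le_mul_right m K2
    linarith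
  have m5 : m / K ≤ 3 * Y ^ 50 := by
    refine Nat.div_le_of_le_mul ?_
    have := Nat.mul_le_mul_right (3 * Y ^ 50) K1.le
    linarith
  have m0 : 0 < m := by
    have := pow_pos Y0 150
    omega
  have e1 : K * (2 * Y ^ 80 + 1) ≤ 4 * Y ^ 180 + 2 * Y ^ 100 :=
    (Nat.mul_le_mul_right _ K2).trans_eq (by ring)
  have e2 : 12 * Y ^ 201 ≤ 3 * (4 * Y ^ 101) * (K - 1) :=
    (by ring : _ = 3 * (4 * Y ^ 101) * Y ^ 100).trans_le (Nat.mul_le_mul_left _ (by omega))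
  have e3 : K * (8 * Y ^ 130 + 5 * (4 * Y ^ 101) + Y ^ 80 + 1) ≤
      16 * Y ^ 230 + 40 * Y ^ 201 + 2 * Y ^ 180 + 2 * Y ^ 100 :=
    (Nat.mul_le_mul_right _ K2).trans_eq (by ring)
  have e4 : 4 * (8 * Y ^ 49) * (m / K + 1) ≤ 96 * Y ^ 99 + 32 * Y ^ 49 :=
    (Nat.mul_le_mul_left _ (Nat.add_le_add_right m5 1)).trans_eq (by ring)
  have e5 : K * (10 * (4 * Y ^ 100) + K + m / K + 1 + Y ^ 80) ≤
      84 * Y ^ 200 + 6 * Y ^ 150 + 2 * Y ^ 100 + 2 * Y ^ 180 :=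
    (Nat.mul_le_mul K2 (by omega : _ ≤ 42 * Y ^ 100 + 3 * Y ^ 50 + 1 + Y ^ 80)).trans_eq (by ring)
  have e6 : K * (4 * Y ^ 101 + Y ^ 80 + 1) ≤ 8 * Y ^ 201 + 2 * Y ^ 180 + 2 * Y ^ 100 :=
    (Nat.mul_le_mul_right _ K2).trans_eq (by ring)
  have e7 : 8 * (2 * (20 * Y)) * (4 * Y ^ 101) = 1280 * Y ^ 102 := by ring
  have e8 : 128 * (8 * Y ^ 49) * (4 * Y ^ 100) = 4096 * Y ^ 149 := by ring
  have := p 49 51 (by omega)
  have := p 51 99 (by omega)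
  have := p 99 100 (by omega)
  have := p 100 102 (by omega)
  have := p 102 129 (by omega)
  have := p 129 130 (by omega)
  have := p 130 149 (by omega)
  have := p 149 150 (by omega)
  have := p 150 180 (by omega)
  have := p 180 200 (by omega)
  have := p 200 201 (by omega)
  have := p 201 230 (by omega)
  have := p 230 247 (by omega)
  obtain ⟨k', H, a1, a2, a3, a4, a5⟩ := hapx V F R1 R2 R3 K m k (8 * Y ^ 201) (2 * (20 * Y))
    (80 * Y ^ 129) (8 * Y ^ 49) (Y ^ 51) (Y ^ 201 / 2) (Y ^ 80) (4 * Y ^ 101) (Y ^ 130)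
    (4 * Y ^ 100) hK m1 m2 d1 d2 d3 f1 f2 hF hR (fun x => by have := hd x; omega)
    (union_bound hY K2 m0 m3) (by omega) (by omega) (by omega) (by omega) (by omega) (by omega)
    (by omega) (by omega) (by positivity) (by omega) (by omega)
  exact ⟨k', H, a1, a2, a3, a4, by omega⟩

end DenseAux

open DenseAux in
theorem dense (hff : S_FF) (hapx : S_APX) (hrd : S_RD) : S_DENSE := by
  intro V _ _ Y r1 cT cH R hY hn hn' hC hS G hG hRG hD k hk hk'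
  obtain ⟨A, rA, hA, ⟨A1, A2⟩, hrA, hrob⟩ := hrd V Y r1 cT cH R hY hn hn' hC hS
  obtain ⟨δ, r0, μ, s, g1, g2, ⟨x0, hx0⟩, g3, g4, g5, g6, g7⟩ := hD
  have p := pw hY
  have hkδ : k ≤ δ := by
    have := hk x0
    have := hk' x0
    omega
  refine Tgt.le ?_ hkδ
  have dj : ∀ (i j : Fin 7) e, i ≠ j → R i e → ¬ R j e := fun i j e h a b => h (hS.disj i j e a b)
  have AR : ∀ (i : Fin 7) e, i ≠ 0 → i ≠ 2 → R i e → ¬ A e := fun i e h h' a b =>
    (hA e b).elim (dj _ _ e h a) (dj _ _ e h' a)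
  have AG : ∀ e, A e → G e := fun e h => (hA e h).elim (hRG _ e) (hRG _ e)
  obtain ⟨P, hP⟩ : ∃ P : V × V → Prop, P = fun e => A e ∨ R 3 e ∨ R 4 e ∨ R 5 e ∨ R 6 e := ⟨_, rfl⟩
  have PG : ∀ e, P e → G e := by
    subst hP
    rintro e (h | h | h | h | h)
    exacts [AG e h, hRG _ e h, hRG _ e h, hRG _ e h, hRG _ e h]
  have AP : ∀ e, A e → P e := fun e h => hP ▸ Or.inl h
  have P3 : ∀ e, R 3 e → P e := fun e h => hP ▸ Or.inr (Or.inl h)
  have P4 : ∀ e, R 4 e → P e := fun e h => hP ▸ Or.inr (Or.inr (Or.inl h))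
  have P5 : ∀ e, R 5 e → P e := fun e h => hP ▸ Or.inr (Or.inr (Or.inr (Or.inl h)))
  have P6 : ∀ e, R 6 e → P e := fun e h => hP ▸ Or.inr (Or.inr (Or.inr (Or.inr h)))
  have dP : ∀ x, (rA ≤ rdeg P x ∧ rdeg P x ≤ rA + 8 * Y ^ 201) ∧
      rA ≤ rdeg (tr P) x ∧ rdeg (tr P) x ≤ rA + 8 * Y ^ 201 := by
    intro x
    have := sp AP x
    subst hP
    have := or_le A (fun e => R 3 e ∨ R 4 e ∨ R 5 e ∨ R 6 e) x
    have := or_le (R 3) (fun e => R 4 e ∨ R 5 e ∨ R 6 e) x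
    have := or_le (R 4) (fun e => R 5 e ∨ R 6 e) x
    have := or_le (R 5) (R 6) x
    have := hS.deg3 3 (by decide) x
    have := hS.deg3 4 (by decide) x
    have := hS.deg3 5 (by decide) x
    have := hS.deg3 6 (by decide) x
    have := A1 x
    have := A2 x
    omega
  have R1P : ∀ e, R 1 e → G e ∧ ¬ P e := by
    subst hP
    refine fun e h => ⟨hRG _ e h, ?_⟩
    rintro (h' | h' | h' | h' | h')
    exacts [AR 1 e (by decide) (by decide) h h', dj 1 3 e (by decide) h h',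
      dj 1 4 e (by decide) h h', dj 1 5 e (by decide) h h', dj 1 6 e (by decide) h h']
  have n1 := p 235 236 (by omega)
  have n2 := p 201 235 (by omega)
  have n3 := p 236 247 (by omega)
  have n4 := p 247 248 (by omega)
  have n5 := p 201 203 (by omega)
  obtain ⟨Z, z1, z2⟩ := trim hff (Hs := fun e => G e ∧ ¬ P e) (by omega) g1 g2 g3 g4 (by omega) g7
    (fun x => by
      have := sp PG x
      have := dP x
      have := g1 x
      have := g2 x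
      omega) (hS.den1.mono R1P le_rfl le_rfl)
  have dF : ∀ x, (δ - rA - 8 * Y ^ 201 ≤ rdeg (fun e => (G e ∧ ¬ P e) ∧ ¬ Z e) x ∧
      rdeg (fun e => (G e ∧ ¬ P e) ∧ ¬ Z e) x ≤ δ - rA - 8 * Y ^ 201 + 8 * Y ^ 201) ∧
      δ - rA - 8 * Y ^ 201 ≤ rdeg (tr fun e => (G e ∧ ¬ P e) ∧ ¬ Z e) x ∧
      rdeg (tr fun e => (G e ∧ ¬ P e) ∧ ¬ Z e) x ≤ δ - rA - 8 * Y ^ 201 + 8 * Y ^ 201 := by
    intro x
    have := sp PG x
    have := sp z1 x
    have := dP x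
    have := z2 x
    omega
  obtain ⟨k', H, a1, a2, a3, a4, a5⟩ := apx hapx (R1 := R 4) (R2 := R 5) (R3 := R 6) hY hn hn'
    (fun e h => ⟨fun a => h.1.2 (P4 e a), fun a => h.1.2 (P5 e a), fun a => h.1.2 (P6 e a)⟩)
    (fun e h => ⟨dj 4 5 e (by decide) h, dj 4 6 e (by decide) h⟩) (fun e => dj 5 6 e (by decide))
    (fun x => (dF x).1) (fun x => (dF x).2)
    ((hS.den1.mono (fun _ h => h) le_rfl (by have := p 3 129 (by omega); omega)).remove (Z := Z)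
      (r := 2 * Y ^ 128) (fun e h => by have := R1P e h; tauto)
      (fun x => by have := z2 x; have := g1 x; omega) (le_of_eq (by ring))) hS.den4
    (fun x => ⟨(hS.deg3 4 (by decide) x).1, (hS.deg3 4 (by decide) x).2.2.1,
      (hS.deg3 5 (by decide) x).1, (hS.deg3 6 (by decide) x).2.2.1⟩) (by omega)
  have s1 : ∀ e, Z e → G e := fun e h => (z1 e h).1
  have s0 : ∀ e, P e → G e ∧ ¬ Z e := fun e h => ⟨PG e h, fun h' => (z1 e h').2 h⟩
  have s2 : ∀ e, A e → G e ∧ ¬ Z e := fun e h => s0 e (AP e h)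
  have s3 : ∀ e, Gr H e → (G e ∧ ¬ Z e) ∧ ¬ A e := by
    rintro ⟨x, y⟩ ⟨j, hj⟩
    obtain rfl : H j x = y := hj
    rcases a3 j x with h | h | h | h
    exacts [⟨⟨h.1.1, h.2⟩, fun a => h.1.2 (AP _ a)⟩,
      ⟨s0 _ (P4 _ h), AR 4 _ (by decide) (by decide) h⟩,
      ⟨s0 _ (P5 _ h), AR 5 _ (by decide) (by decide) h⟩,
      ⟨s0 _ (P6 _ h), AR 6 _ (by decide) (by decide) h⟩]
  obtain ⟨H1, H2⟩ := reg_Gr a2
  rw [Fintype.card_fin] at H1 H2
  have dL : ∀ x, rdeg (fun e => ((G e ∧ ¬ Z e) ∧ ¬ A e) ∧ ¬ Gr H e) x = δ - rA - k' ∧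
      rdeg (tr fun e => ((G e ∧ ¬ Z e) ∧ ¬ A e) ∧ ¬ Gr H e) x = δ - rA - k' := by
    intro x
    have := sp s1 x
    have := sp s2 x
    have := sp s3 x
    have := z2 x
    have := A1 x
    have := A2 x
    have := H1 x
    have := H2 x
    omega
  have t1 := hrob _ (δ - rA - k') (by omega) ⟨fun x => (dL x).1, fun x => (dL x).2⟩
    (fun x h => hG x h.1.1.1) (fun e h => h.1.2) (fun e h =>
      ⟨⟨s0 e (P3 e h), AR 3 e (by decide) (by decide) h⟩, by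
        obtain ⟨x, y⟩ := e
        rintro ⟨j, hj⟩
        obtain rfl : H j x = y := hj
        rcases a3 j x with h' | h' | h' | h'
        exacts [h'.1.2 (P3 _ h), dj 3 4 _ (by decide) h h', dj 3 5 _ (by decide) h h',
          dj 3 6 _ (by decide) h h']⟩)
  have t2 : Tgt k' (Gr H) := ⟨H, a1, a2, fun j x => ⟨j, rfl⟩⟩
  refine (t1.add t2 (fun e h h' => h.elim (s3 e h').2 fun a => a.2 h')
    (fun e h => h.elim (AG e) fun a => a.1.1.1) fun e h => (s3 e h).1.1).le (by omega)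

end Pool.Agent.P.MP_de899d_pr
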