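import Pool.Agent.P.MP_de899d_pr.Base2

/-! Completion of a path system in a dense expander. -/

set_option linter.unusedSectionVars false

namespace Pool.Agent.P.MP_de899d_pr
open Finset Equiv

namespace Ext
variable {V : Type} [Fintype V] [DecidableEq V]

lemma avoid_sub {ρ ρ' : Perm V} {x y : V} (h : ∀ z, z ≠ x → z ≠ y → ρ' z = ρ z) {z : V}
    (hx : x ∉ iorb ρ z) (hy : y ∉ iorb ρ z) : iorb ρ' z ⊆ iorb ρ z := by
  refine iorb_subset (fun u hu => ?_) (self_mem_iorb ρ z)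
  rw [h u (fun e => hx (e ▸ hu)) fun e => hy (e ▸ hu)]
  exact iorb_cl ρ z u hu

lemma avoid_le {ρ ρ' : Perm V} {x y : V} (h : ∀ z, z ≠ x → z ≠ y → ρ' z = ρ z) :
    (iorbs ρ).filter (fun O => x ∉ O ∧ y ∉ O) ⊆ (iorbs ρ').filter (fun O => x ∉ O ∧ y ∉ O) := by
  intro O hO
  obtain ⟨h1, hx, hy⟩ := mem_filter.1 hO
  obtain ⟨z, -, rfl⟩ := mem_image.1 h1
  have h2 := avoid_sub h hx hy
  have h3 := avoid_sub (fun z a b => (h z a b).symm) (fun a => hx (h2 a)) fun a => hy (h2 a)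
  exact mem_filter.2 ⟨mem_image.2 ⟨z, mem_univ _, h2.antisymm h3⟩, hx, hy⟩

lemma card_iorbs (ρ : Perm V) (x y : V) : #(iorbs ρ) =
    #((iorbs ρ).filter fun O => x ∉ O ∧ y ∉ O) + #({iorb ρ x, iorb ρ y} : Finset (Finset V)) := by
  rw [← card_filter_add_card_filter_not (s := iorbs ρ) fun O => x ∉ O ∧ y ∉ O]
  congr 2
  ext O
  simp only [mem_filter, mem_insert, mem_singleton, not_and_or, not_not]
  constructor
  · rintro ⟨h1, h2⟩
    obtain ⟨z, -, rfl⟩ := mem_image.1 h1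
    exact h2.imp (fun h => (iorb_eq h).symm) fun h => (iorb_eq h).symm
  · rintro (rfl | rfl)
    · exact ⟨mem_image_of_mem _ (mem_univ _), Or.inl (self_mem_iorb _ _)⟩
    · exact ⟨mem_image_of_mem _ (mem_univ _), Or.inr (self_mem_iorb _ _)⟩

lemma avoid_eq (ρ : Perm V) (x y : V) :
    (iorbs (ρ * swap x y)).filter (fun O => x ∉ O ∧ y ∉ O) =
      (iorbs ρ).filter (fun O => x ∉ O ∧ y ∉ O) := by
  have h : ∀ z, z ≠ x → z ≠ y → (ρ * swap x y) z = ρ z := fun z a b => by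
    rw [Perm.mul_apply, swap_apply_of_ne_of_ne a b]
  exact (avoid_le fun z a b => (h z a b).symm).antisymm (avoid_le h)

lemma swap_le (ρ : Perm V) (x y : V) : #(iorbs (ρ * swap x y)) ≤ #(iorbs ρ) + 1 := by
  rw [card_iorbs ρ x y, card_iorbs _ x y, avoid_eq]
  have h1 := card_le_two (a := iorb (ρ * swap x y) x) (b := iorb (ρ * swap x y) y)
  have h2 := card_pos.2 (insert_nonempty (iorb ρ x) {iorb ρ y})
  omega

lemma swap_lt {ρ : Perm V} {x y : V} {S : Finset V} (hS : Cl ρ S) (hx : x ∈ S) (hy : y ∉ S) :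
    #(iorbs (ρ * swap x y)) + 1 ≤ #(iorbs ρ) := by
  rw [card_iorbs ρ x y, card_iorbs _ x y, avoid_eq]
  have h1 : iorb ρ x ≠ iorb ρ y := fun h => hy (iorb_subset hS hx (h ▸ self_mem_iorb ρ y))
  have h2 : y ∈ iorb (ρ * swap x y) x := by
    by_contra h
    have h3 : Cl ρ (iorb (ρ * swap x y) x \ S) := fun z hz => by
      obtain ⟨a, b⟩ := mem_sdiff.1 hz
      have := iorb_cl _ _ z a
      rw [Perm.mul_apply, swap_apply_of_ne_of_ne (fun e : z = x => b (e ▸ hx))
        fun e : z = y => h (e ▸ a)] at this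
      exact mem_sdiff.2 ⟨this, fun c => b (Surg.cl_inv hS c)⟩
    have h4 := iorb_cl _ _ x (self_mem_iorb (ρ * swap x y) x)
    rw [Perm.mul_apply, swap_apply_left] at h4
    exact h (mem_sdiff.1 (Surg.cl_inv h3 (mem_sdiff.2 ⟨h4, fun c => hy (Surg.cl_inv hS c)⟩))).1
  rw [iorb_eq h2, card_pair h1]
  simp

lemma exists_pos (π : Perm V) : ∃ f : V → ℕ, (∀ u z, π.SameCycle u z → f u = f z → u = z) ∧
    ∀ z, f (π z) = f z + 1 ∨ (f (π z) = 0 ∧ ∀ u, π.SameCycle z u → f u ≤ f z) := by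
  classical
  obtain ⟨r, hr, hr'⟩ : ∃ r : V → V, (∀ z, π.SameCycle (r z) z) ∧
      ∀ u z, π.SameCycle u z → r u = r z :=
    ⟨fun z => (Quotient.mk (Perm.SameCycle.setoid π) z).out,
      fun z => Quotient.exact (Quotient.out_eq (Quotient.mk (Perm.SameCycle.setoid π) z)),
      fun u z h => congrArg Quotient.out (Quotient.sound h)⟩
  have h : ∀ z, ∃ i : ℕ, (π ^ i) (r z) = z := fun z => (hr z).exists_nat_pow_eq
  obtain ⟨f, g1, g2⟩ : ∃ f : V → ℕ, (∀ z, (π ^ f z) (r z) = z) ∧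
      ∀ z i, (π ^ i) (r z) = z → f z ≤ i :=
    ⟨fun z => Nat.find (h z), fun z => Nat.find_spec (h z), fun z i => Nat.find_min' (h z)⟩
  refine ⟨f, fun u z h1 h2 => ?_, fun z => ?_⟩
  · have h3 := g1 u
    rw [h2, hr' _ _ h1, g1] at h3
    exact h3.symm
  · have h1 : r (π z) = r z := hr' _ _ (Perm.sameCycle_apply_left.2 (Perm.SameCycle.refl _ _))
    have h3 := g1 (π z)
    have h4 : (π ^ (f z + 1)) (r z) = π z := by rw [pow_succ', Perm.mul_apply, g1]
    have h5 := g2 (π z) _ (h1 ▸ h4)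
    rcases e : f (π z) with _ | k
    · refine Or.inr ⟨rfl, fun u hu => not_lt.1 fun hlt => ?_⟩
      rw [e, pow_zero, Perm.one_apply, h1] at h3
      obtain ⟨j, hj⟩ := Nat.exists_eq_add_of_lt hlt
      have h6 := g1 u
      rw [hj, show f z + j + 1 = j + (f z + 1) by omega, pow_add, Perm.mul_apply, ← hr' _ _ hu,
        h4, ← h3, hr' _ _ hu] at h6
      have := g2 u j h6
      omega
    · rw [e, pow_succ', Perm.mul_apply, h1] at h3
      have := g2 z k (π.injective h3)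
      omega

lemma drop {π : Perm V} {f : V → ℕ} (f1 : ∀ u z, π.SameCycle u z → f u = f z → u = z)
    (f2 : ∀ z, f (π z) = f z + 1 ∨ (f (π z) = 0 ∧ ∀ u, π.SameCycle z u → f u ≤ f z))
    {C : Finset V} (hC : Cl π C) {a u v w : V} (ha : a ∈ C) (hu : u ∉ C) (hv : v ∉ C) (hw : w ∉ C)
    (uv : u ≠ v) (uw : u ≠ w) (vw : v ≠ w) (h1 : f u ≤ f v) (h2 : f v ≤ f w ∨ f w ≤ f u) :
    #(iorbs (π * swap a w * swap a v * swap a u)) < #(iorbs π) := by
  have s1 := swap_lt hC ha hw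
  have aw : a ≠ w := fun e => hw (e ▸ ha)
  have av : a ≠ v := fun e => hv (e ▸ ha)
  by_cases hs : π.SameCycle v w
  swap
  · have s2 := swap_lt (ρ := π * swap a w) (S := C ∪ iorb π w) (x := a) (y := v) (fun z hz => by
      have h3 : Cl π (C ∪ iorb π w) := fun z hz => by
        rcases mem_union.1 hz with h | h
        · exact mem_union_left _ (hC z h)
        · exact mem_union_right _ (iorb_cl π w z h)
      refine h3 _ ?_
      rw [swap_apply_def]
      split_ifs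
      · exact mem_union_right _ (self_mem_iorb π w)
      · exact mem_union_left _ ha
      · exact hz) (mem_union_left _ ha) (by simp [hv, mem_iorb, Perm.sameCycle_comm, hs])
    have s3 := swap_le (π * swap a w * swap a v) a u
    omega
  have s2 := swap_le (π * swap a w) a v
  have key : ∀ P : ℕ → Prop, P (f (π v)) → ¬ P (f v) → (π.SameCycle v u → ¬ P (f u)) →
      (∀ z, π.SameCycle v z → z ≠ w → P (f z) → P (f (π z))) →
      #(iorbs (π * swap a w * swap a v * swap a u)) < #(iorbs π) := by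
    classical
    intro P p1 p2 p3 p4
    have s3 := swap_lt (ρ := π * swap a w * swap a v)
      (S := C ∪ univ.filter fun z => π.SameCycle v z ∧ P (f z)) (x := a) (y := u) (fun z hz => by
        simp only [mem_union, mem_filter, mem_univ, true_and, Perm.mul_apply] at hz ⊢
        by_cases za : z = a
        · rw [za, swap_apply_left, swap_apply_of_ne_of_ne av.symm vw]
          exact Or.inr ⟨Perm.sameCycle_apply_right.2 (Perm.SameCycle.refl _ _), p1⟩
        have zv : z ≠ v := by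
          rintro rfl
          exact hz.elim hv fun h => p2 h.2
        rw [swap_apply_of_ne_of_ne za zv]
        by_cases zw : z = w
        · rw [zw, swap_apply_right]
          exact Or.inl (hC a ha)
        rw [swap_apply_of_ne_of_ne za zw]
        exact hz.imp (hC z) fun h => ⟨Perm.sameCycle_apply_right.2 h.1, p4 z h.1 zw h.2⟩)
      (mem_union_left _ ha) (by simpa [hu] using p3)
    omega
  have e1 : f v ≠ f w := fun e => vw (f1 _ _ hs e)
  have e2 : ∀ z, π.SameCycle v z → z ≠ w → f z ≠ f w := fun z h h' e =>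
    h' (f1 _ _ (h.symm.trans hs) e)
  rcases h2 with h2 | h2
  · refine key (fun n => f v < n ∧ n ≤ f w) ?_ (by omega) (fun _ => by omega) fun z hz zw h => ?_
    · rcases f2 v with h | ⟨-, h⟩
      · omega
      · have := h w hs
        omega
    · have := e2 z hz zw
      rcases f2 z with h' | ⟨-, h'⟩
      · omega
      · have := h' w (hz.symm.trans hs)
        omega
  · refine key (fun n => f v < n ∨ n ≤ f w) ?_ (by omega) (fun h => ?_) fun z hz zw h => ?_
    · rcases f2 v with h | ⟨h, -⟩ <;> omega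
    · have := e2 u h uw
      omega
    · have := e2 z hz zw
      rcases f2 z with h' | ⟨h', -⟩ <;> omega

lemma lowest (f : V → ℕ) (S : Finset V) (j : ℕ) (hj : j ≤ #S) :
    ∃ T ⊆ S, #T = j ∧ ∀ x ∈ T, ∀ y ∈ S \ T, f x ≤ f y := by
  induction j with
  | zero => exact ⟨∅, empty_subset _, rfl, by simp⟩
  | succ j ih =>
    obtain ⟨T, h1, h2, h3⟩ := ih (by omega)
    have h4 : (S \ T).Nonempty := card_pos.1 (by rw [card_sdiff_of_subset h1]; omega)
    obtain ⟨m, hm, hm'⟩ := exists_min_image _ f h4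
    refine ⟨insert m T, insert_subset (mem_sdiff.1 hm).1 h1,
      by rw [card_insert_of_notMem (mem_sdiff.1 hm).2, h2], fun x hx y hy => ?_⟩
    have h5 : y ∈ S \ T := sdiff_subset_sdiff subset_rfl (subset_insert _ _) hy
    rcases mem_insert.1 hx with rfl | hx
    · exact hm' y h5
    · exact h3 x hx y h5

lemma three (f : V → ℕ) {X Y : Finset V} {β : ℕ} (hX : 8 * β ≤ #X) (hY : 8 * β ≤ #Y) :
    ∃ A ⊆ X, ∃ Z ⊆ X, ∃ B ⊆ Y, β ≤ #A ∧ 2 * β ≤ #Z ∧ β ≤ #B ∧
      ∀ u ∈ A, ∀ v ∈ Z, ∀ w ∈ B, u ≠ v ∧ u ≠ w ∧ v ≠ w ∧ f u ≤ f v ∧ (f v ≤ f w ∨ f w ≤ f u) := by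
  obtain ⟨Y0, y1, y2⟩ := exists_subset_card_eq (show 2 * β ≤ #Y by omega)
  obtain ⟨Y1, y3, y4, y5⟩ := lowest f Y0 β (by omega)
  have x1 := le_card_sdiff Y0 X
  have x2 := card_filter_add_card_filter_not (s := X \ Y0) fun x => ∀ y ∈ Y1, f y ≤ f x
  have key : ∀ X0 ⊆ X \ Y0, ∀ B ⊆ Y0, 3 * β ≤ #X0 → β ≤ #B →
      ((∀ x ∈ X0, ∀ y ∈ B, f x ≤ f y) ∨ ∀ x ∈ X0, ∀ y ∈ B, f y ≤ f x) →
      ∃ A ⊆ X, ∃ Z ⊆ X, ∃ B ⊆ Y, β ≤ #A ∧ 2 * β ≤ #Z ∧ β ≤ #B ∧ ∀ u ∈ A, ∀ v ∈ Z, ∀ w ∈ B,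
        u ≠ v ∧ u ≠ w ∧ v ≠ w ∧ f u ≤ f v ∧ (f v ≤ f w ∨ f w ≤ f u) := by
    intro X0 h1 B h2 h3 h4 h5
    obtain ⟨A, a1, a2, a3⟩ := lowest f X0 β (by omega)
    refine ⟨A, a1.trans (h1.trans sdiff_subset), X0 \ A,
      sdiff_subset.trans (h1.trans sdiff_subset), B, h2.trans y1, a2.ge,
      by rw [card_sdiff_of_subset a1]; omega, h4, fun u hu v hv w hw => ?_⟩
    have hv' := mem_sdiff.1 hv
    exact ⟨fun e => hv'.2 (e ▸ hu), fun e => (mem_sdiff.1 (h1 (a1 hu))).2 (e ▸ h2 hw),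
      fun e => (mem_sdiff.1 (h1 hv'.1)).2 (e ▸ h2 hw), a3 u hu v hv,
      h5.imp (fun h => h v hv'.1 w hw) fun h => h u (a1 hu) w hw⟩
  by_cases h : 3 * β ≤ #((X \ Y0).filter fun x => ∀ y ∈ Y1, f y ≤ f x)
  · exact key _ (filter_subset _ _) Y1 y3 h y4.ge (Or.inr fun x hx => (mem_filter.1 hx).2)
  · refine key ((X \ Y0).filter fun x => ¬ ∀ y ∈ Y1, f y ≤ f x) (filter_subset _ _) (Y0 \ Y1)
      sdiff_subset (by omega) (by rw [card_sdiff_of_subset y3]; omega) (Or.inl fun x hx y hy => ?_)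
    have := (mem_filter.1 hx).2
    push Not at this
    obtain ⟨y', h1, h2⟩ := this
    exact h2.le.trans (y5 y' h1 y hy)

lemma exists_edge {R : V × V → Prop} {X Y : Finset V} {β n : ℕ} (hβ : 0 < β) (hX : β ≤ #X)
    (hY : β ≤ #Y) (h : 16 * β * (#X * #Y) ≤ n * eN R X Y) : ∃ x ∈ X, ∃ y ∈ Y, R (x, y) := by
  classical
  have h1 : 0 < 16 * β * (#X * #Y) := by
    have : 0 < #X := by omega
    have : 0 < #Y := by omega
    positivity
  have h2 : 0 < eN R X Y := Nat.pos_of_mul_pos_left (h1.trans_le h)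
  obtain ⟨e, he⟩ := card_pos.1 h2
  simp only [mem_filter, mem_product] at he
  exact ⟨e.1, he.1.1, e.2, he.1.2, he.2⟩

lemma eN_image (R : V × V → Prop) (π : Perm V) (X Y : Finset V) :
    eN R X (Y.image π) = eN (fun e => R (e.1, π e.2)) X Y := by
  rw [eN_col, eN_col, sum_image fun _ _ _ _ h => π.injective h]

open Classical in
lemma few {R : V × V → Prop} {M D : Finset V} {β n : ℕ} (hβ : 0 < β) (hM : β ≤ #M)
    (hn : n ≤ 2 * #M) (h : ∀ X ⊆ D, β ≤ #X → 16 * β * (#X * #M) ≤ n * eN R X M) :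
    #(D.filter fun a => #(M.filter fun w => R (a, w)) < 8 * β) < β := by
  by_contra h1
  have h2 := h _ (filter_subset _ _) (not_lt.1 h1)
  have h3 : eN R (D.filter fun a => #(M.filter fun w => R (a, w)) < 8 * β) M ≤
      #(D.filter fun a => #(M.filter fun w => R (a, w)) < 8 * β) * (8 * β - 1) := by
    rw [eN_row]
    exact sum_le_card_nsmul _ _ _ fun x hx => Nat.le_sub_one_of_lt (mem_filter.1 hx).2
  generalize #(D.filter fun a => #(M.filter fun w => R (a, w)) < 8 * β) = b at *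
  have h4 := h2.trans (Nat.mul_le_mul hn h3)
  obtain ⟨c, hc⟩ : ∃ c, 8 * β = c + 1 := ⟨8 * β - 1, by omega⟩
  rw [show 16 * β = 2 * (c + 1) by omega, hc, Nat.add_sub_cancel] at h4
  have : 0 < b * #M := Nat.mul_pos (by omega) (by omega)
  nlinarith

lemma hall (π₀ : Perm V) (W : Finset V) (R : V × V → Prop) (β : ℕ) (hβ : 0 < β)
    (h1 : ∀ x ∈ W, 10 * β ≤ eN R {x} (W.image π₀)) (h2 : ∀ y ∈ W.image π₀, 10 * β ≤ eN R W {y})
    (h3 : ∀ X Y : Finset V, X ⊆ W → Y ⊆ W.image π₀ → β ≤ #X → β ≤ #Y →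
      16 * β * (#X * #Y) ≤ #W * eN R X Y) :
    ∃ π : Perm V, (∀ x, x ∉ W → π x = π₀ x) ∧ ∀ x ∈ W, R (x, π x) := by
  classical
  have hW : #(W.image π₀) = #W := card_image_of_injective _ π₀.injective
  have key : ∀ X ⊆ W, #X ≤ #((W.image π₀).filter fun y => ∃ x ∈ X, R (x, y)) := by
    intro X hX
    have c0 := card_filter_add_card_filter_not (s := W.image π₀) fun y => ∃ x ∈ X, R (x, y)
    rcases X.eq_empty_or_nonempty with rfl | ⟨x, hx⟩
    · simp
    by_cases c1 : #X ≤ 10 * β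
    · refine c1.trans ((h1 x (hX hx)).trans ?_)
      rw [eN_row, sum_singleton]
      exact card_le_card fun y hy => mem_filter.2 ⟨(mem_filter.1 hy).1, x, hx, (mem_filter.1 hy).2⟩
    by_cases c2 : #X + β ≤ #W
    · by_contra c3
      obtain ⟨u, hu, y, hy, h⟩ := exists_edge hβ (by omega) (by omega)
        (h3 X ((W.image π₀).filter fun y => ¬ ∃ x ∈ X, R (x, y)) hX (filter_subset _ _)
          (by omega) (by omega))
      exact (mem_filter.1 hy).2 ⟨u, hu, h⟩
    · rw [filter_true_of_mem, hW]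
      · exact card_le_card hX
      intro y hy
      by_contra c3
      have c4 := h2 y hy
      rw [eN_col, sum_singleton] at c4
      have c5 : W.filter (fun x => R (x, y)) ⊆ W \ X := fun u hu =>
        mem_sdiff.2 ⟨(mem_filter.1 hu).1, fun h => c3 ⟨u, h, (mem_filter.1 hu).2⟩⟩
      have c6 := card_le_card c5
      rw [card_sdiff_of_subset hX] at c6
      omega
  obtain ⟨g, g1, g2⟩ := (Fintype.all_card_le_filter_rel_iff_exists_injective
    fun x y : V => (x ∈ W → y ∈ W.image π₀ ∧ R (x, y)) ∧ (x ∉ W → y = π₀ x)).1 fun A => by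
      have c1 := key (A ∩ W) inter_subset_right
      have c2 := card_inter_add_card_sdiff A W
      have c3 := card_image_of_injective (A \ W) π₀.injective
      have c4 : Disjoint ((W.image π₀).filter fun y => ∃ x ∈ A ∩ W, R (x, y))
          ((A \ W).image π₀) := by
        refine Disjoint.mono_left (filter_subset _ _) ?_
        exact (disjoint_image π₀.injective).2 disjoint_sdiff
      refine le_trans (by rw [card_union_of_disjoint c4]; omega) (card_le_card
        (s := ((W.image π₀).filter fun y => ∃ x ∈ A ∩ W, R (x, y)) ∪ (A \ W).image π₀)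
        fun y hy => ?_)
      simp only [mem_filter, mem_univ, true_and]
      rcases mem_union.1 hy with h | h
      · obtain ⟨d1, x, d2, d3⟩ := mem_filter.1 h
        exact ⟨x, (mem_inter.1 d2).1, fun _ => ⟨d1, d3⟩, fun h => absurd (mem_inter.1 d2).2 h⟩
      · obtain ⟨x, d1, rfl⟩ := mem_image.1 h
        exact ⟨x, (mem_sdiff.1 d1).1, fun h => absurd h (mem_sdiff.1 d1).2, fun _ => rfl⟩
  exact ⟨Equiv.ofBijective g g1.bijective_of_finite, fun x hx => (g2 x).2 hx,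
    fun x hx => ((g2 x).1 hx).2⟩

lemma image_eq {π π₀ : Perm V} {W : Finset V} (h : ∀ x, x ∉ W → π x = π₀ x) :
    W.image π = W.image π₀ := by
  refine eq_of_subset_of_card_le (fun y hy => ?_) (by
    rw [card_image_of_injective _ π.injective, card_image_of_injective _ π₀.injective])
  obtain ⟨x, hx, rfl⟩ := mem_image.1 hy
  refine mem_image.2 ⟨π₀.symm (π x), by_contra fun c => c ?_, by simp⟩
  have := h _ c
  rw [apply_symm_apply] at this
  rwa [π.injective this]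

open Classical in
lemma improve {π : Perm V} {W : Finset V} {R : V × V → Prop} {β : ℕ} (hβ : 0 < β)
    (h1 : ∀ x ∈ W, 10 * β ≤ eN R {x} W) (h2 : ∀ y ∈ W, 10 * β ≤ eN R W {y})
    (h3 : ∀ X Y : Finset V, X ⊆ W → Y ⊆ W → β ≤ #X → β ≤ #Y →
      16 * β * (#X * #Y) ≤ #W * eN R X Y) (h : ¬ Thru π W) :
    ∃ a ∈ W, ∃ u ∈ W, ∃ v ∈ W, ∃ w ∈ W, a ≠ u ∧ a ≠ v ∧ a ≠ w ∧ u ≠ v ∧ u ≠ w ∧ v ≠ w ∧
      R (a, u) ∧ R (u, v) ∧ R (v, w) ∧ R (w, a) ∧
      #(iorbs (π * swap a w * swap a v * swap a u)) < #(iorbs π) := by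
  unfold Thru at h
  push Not at h
  obtain ⟨S, hS, w0, w1, w2, w3⟩ := h
  obtain ⟨c, hc, hc'⟩ := exists_min_image W (fun c => #(W ∩ iorb π c)) ⟨w0, w1⟩
  obtain ⟨d, hd, hd'⟩ : ∃ d ∈ W, d ∉ iorb π c := by
    by_contra e
    push Not at e
    exact w3 fun x hx => iorb_subset hS w2 (iorb_eq (e w0 w1) ▸ e x hx)
  have m1 : #(W ∩ iorb π c) ≤ #(W \ iorb π c) := by
    refine (hc' d hd).trans (card_le_card fun x hx => mem_sdiff.2 ⟨(mem_inter.1 hx).1, fun e => ?_⟩)
    exact hd' (iorb_eq e ▸ iorb_eq (mem_inter.1 hx).2 ▸ self_mem_iorb π d)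
  have m2 := card_inter_add_card_sdiff W (iorb π c)
  have hC := iorb_cl π c
  have cC : c ∈ W ∩ iorb π c := mem_inter.2 ⟨hc, self_mem_iorb π c⟩
  generalize iorb π c = C at *
  obtain ⟨a, ha, a1, a2⟩ : ∃ a ∈ W ∩ C, 8 * β ≤ #((W \ C).filter fun w => R (a, w)) ∧
      8 * β ≤ #((W \ C).filter fun w => R (w, a)) := by
    by_cases e : #(W ∩ C) ≤ 2 * β
    · have e1 := h1 c hc
      have e2 := h2 c hc
      rw [eN_split_right _ _ _ C, eN_row _ _ (W \ C), sum_singleton] at e1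
      rw [eN_split_left _ _ C, eN_col _ (W \ C), sum_singleton] at e2
      have e3 := eN_le_mul R {c} (W ∩ C)
      have e4 := eN_le_mul R (W ∩ C) {c}
      rw [card_singleton] at e3 e4
      exact ⟨c, cC, by omega, by omega⟩
    · have e1 := few (R := R) (M := W \ C) (D := W ∩ C) (n := #W) hβ (by omega) (by omega)
        fun X hX h => h3 X _ (hX.trans inter_subset_left) sdiff_subset h (by omega)
      have e2 := few (R := tr R) (M := W \ C) (D := W ∩ C) (n := #W) hβ (by omega) (by omega)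
        fun X hX h => by
          rw [eN_tr, mul_comm #X]
          exact h3 _ X sdiff_subset (hX.trans inter_subset_left) (by omega) h
      obtain ⟨a, ha, e3⟩ := exists_mem_notMem_of_card_lt_card
        ((card_union_le _ _).trans_lt ((add_lt_add e1 e2).trans (by omega : β + β < #(W ∩ C))))
      simp only [mem_union, mem_filter, ha, true_and, not_or, not_lt] at e3
      exact ⟨a, ha, e3⟩
  obtain ⟨f, f1, f2⟩ := exists_pos π
  obtain ⟨A, hA, Z, hZ, B, hB, t1, t2, t3, t4⟩ := three f a1 a2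
  have sub : ∀ (T : Finset V) (p : V → Prop), T ⊆ (W \ C).filter p → T ⊆ W := fun T p h =>
    h.trans ((filter_subset _ _).trans sdiff_subset)
  have b1 : #(Z.filter fun z => ¬ ∃ x ∈ A, R (x, z)) < β := by
    by_contra e
    obtain ⟨x, hx, y, hy, h⟩ := exists_edge hβ t1 (not_lt.1 e)
      (h3 _ _ (sub _ _ hA) ((filter_subset _ _).trans (sub _ _ hZ)) t1 (not_lt.1 e))
    exact (mem_filter.1 hy).2 ⟨x, hx, h⟩
  have b2 : #(Z.filter fun z => ¬ ∃ y ∈ B, R (z, y)) < β := by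
    by_contra e
    obtain ⟨x, hx, y, hy, h⟩ := exists_edge hβ (not_lt.1 e) t3
      (h3 _ _ ((filter_subset _ _).trans (sub _ _ hZ)) (sub _ _ hB) (not_lt.1 e) t3)
    exact (mem_filter.1 hx).2 ⟨y, hy, h⟩
  obtain ⟨v, hv, e3⟩ := exists_mem_notMem_of_card_lt_card
    ((card_union_le _ _).trans_lt ((add_lt_add b1 b2).trans_le (by omega : β + β ≤ #Z)))
  simp only [mem_union, mem_filter, hv, true_and, not_or, not_not] at e3
  obtain ⟨⟨u, hu, r1⟩, w, hw, r2⟩ := e3
  obtain ⟨n1, n2, n3, n4, n5⟩ := t4 u hu v hv w hw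
  obtain ⟨u1, u2⟩ := mem_filter.1 (hA hu)
  obtain ⟨v1, -⟩ := mem_filter.1 (hZ hv)
  obtain ⟨x1, x2⟩ := mem_filter.1 (hB hw)
  rw [mem_sdiff] at u1 v1 x1
  obtain ⟨aW, aC⟩ := mem_inter.1 ha
  exact ⟨a, aW, u, u1.1, v, v1.1, w, x1.1, fun e => u1.2 (e ▸ aC), fun e => v1.2 (e ▸ aC),
    fun e => x1.2 (e ▸ aC), n1, n2, n3, u2, r1, r2, x2,
    drop f1 f2 hC aC u1.2 v1.2 x1.2 n1 n2 n3 n4 n5⟩

end Ext

open Ext

theorem ext : S_EXT := by
  intro V _ _ π₀ W R β hβ h1 h2 h3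
  classical
  obtain ⟨π₁, hπ₁⟩ := hall π₀ W R β hβ h1 h2 h3
  obtain ⟨π, hπ, hmin⟩ := exists_min_image
    (univ.filter fun π : Perm V => (∀ x, x ∉ W → π x = π₀ x) ∧ ∀ x ∈ W, R (x, π x))
    (fun π => #(iorbs π)) ⟨π₁, mem_filter.2 ⟨mem_univ _, hπ₁⟩⟩
  obtain ⟨-, p1, p2⟩ := mem_filter.1 hπ
  have hI := image_eq p1
  have hT : Thru π W := by
    by_contra h
    rw [← hI] at h1 h2 h3
    obtain ⟨a, ha, u, hu, v, hv, w, hw, au, av, aw, uv, uw, vw, r1, r2, r3, r4, hlt⟩ :=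
      improve (R := fun e => R (e.1, π e.2)) hβ (fun x hx => eN_image R π _ _ ▸ h1 x hx)
        (fun y hy => by
          rw [← eN_image, image_singleton]
          exact h2 _ (mem_image_of_mem _ hy))
        (fun X Y hX hY a b => by
          have c := card_image_of_injective Y π.injective
          rw [← eN_image, ← c]
          exact h3 X _ hX (image_subset_image hY) a (c ▸ b)) h
    refine hlt.not_ge (hmin _ (mem_filter.2 ⟨mem_univ _, fun x hx => ?_, fun x hx => ?_⟩))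
    · have e : ∀ y ∈ W, x ≠ y := fun y hy e => hx (e ▸ hy)
      simp only [Perm.mul_apply, swap_apply_of_ne_of_ne (e a ha) (e u hu),
        swap_apply_of_ne_of_ne (e a ha) (e v hv), swap_apply_of_ne_of_ne (e a ha) (e w hw)]
      exact p1 x hx
    · simp only [Perm.mul_apply]
      by_cases xa : x = a
      · rwa [xa, swap_apply_left, swap_apply_of_ne_of_ne au.symm uv,
          swap_apply_of_ne_of_ne au.symm uw]
      by_cases xu : x = u
      · rwa [xu, swap_apply_right, swap_apply_left, swap_apply_of_ne_of_ne av.symm vw]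
      rw [swap_apply_of_ne_of_ne xa xu]
      by_cases xv : x = v
      · rwa [xv, swap_apply_right, swap_apply_left]
      rw [swap_apply_of_ne_of_ne xa xv]
      by_cases xw : x = w
      · rwa [xw, swap_apply_right]
      rw [swap_apply_of_ne_of_ne xa xw]
      exact p2 x hx
  refine ⟨π, p1, p2, hT, hI, fun S hS z hz => ?_⟩
  by_cases hzW : z ∈ W
  · have : π₀ z ∈ W.image π := hI ▸ mem_image_of_mem _ hzW
    obtain ⟨x, hx, e⟩ := mem_image.1 this
    exact e ▸ hS x (hT S hS z hzW hz hx)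
  · exact p1 z hzW ▸ hS z hz

end Pool.Agent.P.MP_de899d_pr
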