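import Pool.Agent.P.MP_de899d_pr.Base2

/-! Subgraphs with prescribed degrees. -/

set_option linter.unusedSectionVars false

namespace Pool.Agent.P.MP_de899d_pr
open Finset Equiv

namespace FF
variable {V : Type} [Fintype V] [DecidableEq V]

theorem sum_rdeg (G : V × V → Prop) : ∑ x, rdeg G x = ∑ y, rdeg (tr G) y := by
  rw [← eN_univ, ← eN_univ, eN_tr]

/-- The bipartite factor theorem. -/
theorem factor (f g : V → ℕ) (hfg : ∑ x, f x = ∑ y, g y) : ∀ (m : ℕ) (G : V × V → Prop),
    eN G univ univ = m →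
    (∀ X Y : Finset V, ∑ x ∈ X, f x + ∑ y ∈ Y, g y ≤ eN G X Y + ∑ x, f x) →
    ∃ Z : V × V → Prop, (∀ e, Z e → G e) ∧ (∀ x, rdeg Z x = f x) ∧ ∀ y, rdeg (tr Z) y = g y := by
  classical
  intro m
  induction m using Nat.strong_induction_on with
  | _ m ih =>
  intro G hm hG
  by_cases hex : ∃ p, G p ∧ ∀ X Y : Finset V,
      ∑ x ∈ X, f x + ∑ y ∈ Y, g y ≤ eN (fun e => G e ∧ e ≠ p) X Y + ∑ x, f x
  · obtain ⟨p, hp, hp'⟩ := hex
    obtain ⟨Z, hZ, hZ'⟩ := ih _ (by
      rw [← hm]
      unfold eN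
      refine card_lt_card ⟨fun e he => ?_, fun h => ?_⟩
      · simp only [mem_filter] at he ⊢
        exact ⟨he.1, he.2.1⟩
      · have := @h p (by simpa using hp)
        simp at this) _ rfl hp'
    exact ⟨Z, fun e he => (hZ e he).1, hZ'⟩
  push Not at hex
  have tight : ∀ p, G p → ∃ X Y : Finset V, p.1 ∈ X ∧ p.2 ∈ Y ∧
      eN G X Y + ∑ x, f x ≤ ∑ x ∈ X, f x + ∑ y ∈ Y, g y := by
    intro p hp
    obtain ⟨X, Y, h⟩ := hex p hp
    have h1 : eN G X Y ≤ eN (fun e => G e ∧ e ≠ p) X Y + 1 := by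
      unfold eN
      refine le_trans (card_le_card fun e he => ?_) (card_insert_le p _)
      simp only [mem_filter, mem_insert] at he ⊢
      tauto
    by_contra hn
    have h2 : ¬ (p.1 ∈ X ∧ p.2 ∈ Y) := fun h' => hn ⟨X, Y, h'.1, h'.2, by omega⟩
    have h3 : eN G X Y ≤ eN (fun e => G e ∧ e ≠ p) X Y := by
      unfold eN
      refine card_le_card fun e he => ?_
      simp only [mem_filter, mem_product] at he ⊢
      exact ⟨he.1, he.2, fun h' => h2 (h' ▸ he.1)⟩
    have := hG X Y
    omega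
  have hrow : ∀ x, f x ≤ rdeg G x := fun x => by
    have := hG {x} univ
    rw [eN_row1, sum_singleton] at this
    omega
  have hcol : ∀ y, rdeg (tr G) y ≤ g y := fun y => by
    have key : ∀ N : Finset V, (∀ x ∈ N, G (x, y)) → ∃ X Y : Finset V, N ⊆ X ∧ y ∈ Y ∧
        eN G X Y + ∑ x, f x ≤ ∑ x ∈ X, f x + ∑ y ∈ Y, g y := by
      intro N
      induction N using Finset.induction_on with
      | empty => exact fun _ => ⟨∅, univ, subset_rfl, mem_univ _, by simp [eN_row, hfg]⟩
      | insert x N _ ihN =>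
        intro h
        obtain ⟨X, Y, h1, h2, h3⟩ := ihN fun z hz => h z (mem_insert_of_mem hz)
        obtain ⟨X', Y', h1', h2', h3'⟩ := tight (x, y) (h x (mem_insert_self _ _))
        refine ⟨X ∪ X', Y ∩ Y', insert_subset (mem_union_right _ h1')
          (h1.trans subset_union_left), mem_inter.2 ⟨h2, h2'⟩, ?_⟩
        have e1 := eN_submod G X Y X' Y'
        have e2 := hG (X ∩ X') (Y ∪ Y')
        have e3 := sum_union_inter (s₁ := X) (s₂ := X') (f := f)
        have e4 := sum_union_inter (s₁ := Y) (s₂ := Y') (f := g)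
        omega
    obtain ⟨X, Y, h1, h2, h3⟩ :=
      key (univ.filter fun x => G (x, y)) fun x hx => (mem_filter.1 hx).2
    have e1 := hG X (Y.erase y)
    have e2 : eN G X (Y.erase y) + #(X.filter fun x => G (x, y)) = eN G X Y := by
      rw [eN_col, eN_col, ← sum_erase_add _ _ h2]
    have e3 : rdeg (tr G) y ≤ #(X.filter fun x => G (x, y)) := by
      unfold rdeg
      refine card_le_card fun x hx => ?_
      have hx' : G (x, y) := (mem_filter.1 hx).2
      exact mem_filter.2 ⟨h1 (mem_filter.2 ⟨mem_univ _, hx'⟩), hx'⟩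
    have e4 := sum_erase_add Y g h2
    omega
  have s1 : ∑ x, f x ≤ ∑ x, rdeg G x := sum_le_sum fun x _ => hrow x
  have s2 : ∑ y, rdeg (tr G) y ≤ ∑ y, g y := sum_le_sum fun y _ => hcol y
  have s3 := sum_rdeg G
  exact ⟨G, fun _ h => h,
    fun x => ((sum_eq_sum_iff_of_le fun x _ => hrow x).1 (by omega) x (mem_univ x)).symm,
    fun y => (sum_eq_sum_iff_of_le fun y _ => hcol y).1 (by omega) y (mem_univ y)⟩

theorem small {G : V × V → Prop} {f g : V → ℕ} {r0 μ s β δ : ℕ} {T A B : Finset V}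
    (hT : ∀ y ∈ B, ∀ x, G (x, y) → x ∈ T) (hg : ∀ y, g y ≤ r0)
    (hs : #(univ.filter fun x => f x < μ) ≤ s) (hδ : ∀ y, δ ≤ rdeg (tr G) y) (hB : #B ≤ β)
    (hμ : r0 * β + μ * (r0 + s) ≤ μ * δ) :
    ∑ y ∈ B, g y ≤ eN G A B + ∑ x ∈ T \ A, f x := by
  classical
  by_cases h : ∀ y ∈ B, r0 ≤ #(A.filter fun x => G (x, y))
  · refine le_trans ?_ (Nat.le_add_right _ _)
    rw [eN_col]
    exact sum_le_sum fun y hy => (hg y).trans (h y hy)
  push Not at h
  obtain ⟨y, hy, h⟩ := h
  set N := (T \ A).filter fun x => μ ≤ f x with hN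
  have h1 : rdeg (tr G) y ≤ #(A.filter fun x => G (x, y)) + #N +
      #(univ.filter fun x => f x < μ) := by
    unfold rdeg
    refine le_trans (card_le_card fun x hx => ?_)
      ((card_union_le _ _).trans (Nat.add_le_add_right (card_union_le _ _) _))
    have hx' : G (x, y) := (mem_filter.1 hx).2
    have hx2 := hT y hy x hx'
    simp only [hN, mem_union, mem_filter, mem_sdiff, mem_univ, true_and]
    by_cases k1 : x ∈ A
    · exact Or.inl (Or.inl ⟨k1, hx'⟩)
    by_cases k2 : μ ≤ f x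
    · exact Or.inl (Or.inr ⟨⟨hx2, k1⟩, k2⟩)
    · exact Or.inr (not_le.1 k2)
  have h2 : #N * μ ≤ ∑ x ∈ T \ A, f x :=
    (card_nsmul_le_sum N f μ fun x hx => (mem_filter.1 hx).2).trans
      (sum_le_sum_of_subset (filter_subset _ _))
  have h3 : ∑ y ∈ B, g y ≤ #B * r0 := sum_le_card_nsmul B g r0 fun y _ => hg y
  have h4 := hδ y
  have h5 : μ * δ ≤ μ * (r0 + #N + s) := Nat.mul_le_mul_left μ (by omega)
  have h6 : #B * r0 ≤ β * r0 := Nat.mul_le_mul_right r0 hB
  nlinarith [Nat.zero_le (eN G A B)]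

end FF

open FF in
theorem ff : S_FF := by
  intro V κ _ _ _ _ cT cH Hs f g r0 μ s β δ hc hsum hf hg hsf hsg hδ hδ' hden hμ
  classical
  have e1 : ∀ (c : V → κ) (f : V → ℕ), ∑ x, f x = ∑ a, ∑ x ∈ fib c a, f x := fun c f =>
    (sum_fiberwise univ c f).symm
  refine factor f g (by rw [e1 cT, e1 cH]; exact sum_congr rfl fun a _ => hsum a) _ Hs rfl
    fun X Y => ?_
  have cls : ∀ a (A B : Finset V), A ⊆ fib cT a → B ⊆ fib cH a →
      ∑ x ∈ A, f x + ∑ y ∈ B, g y ≤ eN Hs A B + ∑ x ∈ fib cT a, f x := by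
    intro a A B hA hB
    have k1 := sum_sdiff (f := f) hA
    have k2 := sum_sdiff (f := g) hB
    have k3 := hsum a
    by_cases h1 : #B ≤ β
    · have := small (G := Hs) (f := f) (T := fib cT a) (A := A)
        (fun y hy x hx => mem_fib.2 ((hc _ hx).trans (mem_fib.1 (hB hy)))) hg hsf hδ' h1 hμ
      omega
    by_cases h2 : #A ≤ β
    · have := small (G := tr Hs) (f := g) (g := f) (T := fib cH a) (A := B)
        (fun x hx y hy => mem_fib.2 ((hc _ hy).symm.trans (mem_fib.1 (hA hx)))) hf hsg hδ h2 hμ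
      rw [eN_tr] at this
      omega
    have k4 := hden a A B hA hB (by omega) (by omega)
    have k5 : ∑ x ∈ A, f x ≤ #A * r0 := sum_le_card_nsmul A f r0 fun x _ => hf x
    have k6 : ∑ y ∈ B, g y ≤ #B * r0 := sum_le_card_nsmul B g r0 fun y _ => hg y
    rcases le_total #A #B with h | h
    · rw [min_eq_left h, mul_comm] at k4
      omega
    · rw [min_eq_right h, mul_comm] at k4
      omega
  have e2 : ∑ a, eN Hs (X.filter fun x => cT x = a) (Y.filter fun y => cH y = a) ≤ eN Hs X Y := by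
    refine le_trans (sum_le_sum fun a _ => eN_sub Hs (Subset.refl _) (filter_subset _ Y)) ?_
    simp only [eN_row]
    exact (sum_fiberwise X cT _).le
  rw [← sum_fiberwise X cT f, ← sum_fiberwise Y cH g, e1 cT f, ← sum_add_distrib]
  refine le_trans (sum_le_sum fun a _ => cls a _ _ (filter_subset_filter _ (subset_univ _))
    (filter_subset_filter _ (subset_univ _))) ?_
  rw [sum_add_distrib]
  exact Nat.add_le_add_right e2 _

theorem reg : S_REG := by
  intro V κ _ _ _ _ cT cH Hs r γ β hc hcard hr hr' hden hβ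
  classical
  obtain ⟨Z, hZ, hZ1, hZ2⟩ := ff V κ cT cH Hs (fun x => rdeg Hs x - r)
    (fun y => rdeg (tr Hs) y - r) (4 * γ) γ 0 β (r + γ) hc (fun a => by
      have k1 : ∑ x ∈ fib cT a, (rdeg Hs x - r) + #(fib cT a) * r = ∑ x ∈ fib cT a, rdeg Hs x := by
        rw [← smul_eq_mul, ← sum_const, ← sum_add_distrib]
        exact sum_congr rfl fun x _ => Nat.sub_add_cancel (by have := (hr x).1; omega)
      have k2 : ∑ y ∈ fib cH a, (rdeg (tr Hs) y - r) + #(fib cH a) * r =
          ∑ y ∈ fib cH a, rdeg (tr Hs) y := by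
        rw [← smul_eq_mul, ← sum_const, ← sum_add_distrib]
        exact sum_congr rfl fun x _ => Nat.sub_add_cancel (by have := (hr' x).1; omega)
      have k3 : ∑ x ∈ fib cT a, rdeg Hs x = ∑ y ∈ fib cH a, rdeg (tr Hs) y := by
        rw [← eN_univ, ← eN_univ, eN_tr]
        unfold eN
        congr 1
        ext e
        simp only [mem_filter, mem_product, mem_univ, mem_fib, and_true, true_and,
          and_congr_left_iff]
        intro he
        rw [hc e he]
      rw [hcard a] at k1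
      omega)
    (fun x => by have := (hr x).2; omega) (fun y => by have := (hr' y).2; omega)
    (by
      rw [Nat.le_zero, card_eq_zero, filter_eq_empty_iff]
      intro x _
      have := (hr x).1
      omega)
    (by
      rw [Nat.le_zero, card_eq_zero, filter_eq_empty_iff]
      intro x _
      have := (hr' x).1
      omega)
    (fun x => (hr x).1) (fun y => (hr' y).1) hden (by nlinarith [Nat.mul_le_mul_left γ hβ])
  have h1 : ∀ e, Hs e ↔ Z e ∨ (Hs e ∧ ¬ Z e) := fun e => by
    have := hZ e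
    tauto
  have h2 : ∀ e, Z e → ¬ (Hs e ∧ ¬ Z e) := fun e h h' => h'.2 h
  obtain ⟨M, hM, hM'⟩ := koenig r (fun e => Hs e ∧ ¬ Z e) (fun x => by
      have k1 := rdeg_split h1 h2 x
      have k2 := hZ1 x
      have k3 := (hr x).1
      omega) (fun y => by
      have k1 := rdeg_tr_split h1 h2 y
      have k2 := hZ2 y
      have k3 := (hr' y).1
      omega)
  exact ⟨M, hM, fun j x => (hM' j x).1⟩

end Pool.Agent.P.MP_de899d_pr
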