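import Pool.Agent.P.MP_de899d_pr.Base2

/-! A factor without loops and without cycles inside the low sets. -/

set_option linter.unusedSectionVars false

namespace Pool.Agent.P.MP_de899d_pr
open Finset Equiv

namespace Fact2
variable {V : Type} [Fintype V] [DecidableEq V]

theorem mem_low {G : V × V → Prop} {a : ℕ} {x : V} : x ∈ low G a ↔ rdeg G x ≤ a := by
  simp [low]

/-- Choice of the prescribed neighbourhoods of the low vertices. -/
theorem pick (R : V × V → Prop) (L L' : Finset V) (r : V → V → Prop) (s k : ℕ)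
    (hL : #L ≤ s) (hL' : #L' ≤ s) (hd : Disjoint L L') (hk : 4 * s ≤ k)
    (hR : ∀ x ∈ L, k ≤ rdeg R x) :
    ∃ Y : V → Finset V, ∀ x ∈ L, #(Y x) = 2 * s ∧
      (∀ y ∈ Y x, R (x, y) ∧ y ∉ L' ∧ (y ∈ L → r x y)) ∧
      ∀ y ∈ L, R (x, y) → r x y → y ∈ Y x := by
  classical
  have key : ∀ x, ∃ Y : Finset V, x ∈ L → #Y = 2 * s ∧
      (∀ y ∈ Y, R (x, y) ∧ y ∉ L' ∧ (y ∈ L → r x y)) ∧
      ∀ y ∈ L, R (x, y) → r x y → y ∈ Y := by
    intro x
    by_cases hx : x ∈ L
    swap
    · exact ⟨∅, fun h => absurd h hx⟩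
    set A : Finset V := L.filter fun y => R (x, y) ∧ r x y with hA
    set C : Finset V := univ.filter fun y => R (x, y) ∧ y ∉ L' ∧ (y ∈ L → r x y) with hC
    have h1 : A ⊆ C := fun y hy => by
      simp only [hA, hC, mem_filter, mem_univ, true_and] at hy ⊢
      exact ⟨hy.2.1, disjoint_left.1 hd hy.1, fun _ => hy.2.2⟩
    have h2 : #A ≤ 2 * s := by
      have : #A ≤ #L := card_filter_le L _
      omega
    have h3 : 2 * s ≤ #C := by
      have h4 : rdeg R x ≤ #(C ∪ (L ∪ L')) := by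
        unfold rdeg
        refine card_le_card fun y hy => ?_
        simp only [hC, mem_filter, mem_univ, true_and, mem_union] at hy ⊢
        tauto
      have h5 := card_union_le C (L ∪ L')
      have h6 := card_union_le L L'
      have h7 := hR x hx
      omega
    obtain ⟨Y, h4, h5, h6⟩ := exists_subsuperset_card_eq h1 h2 h3
    refine ⟨Y, fun _ => ⟨h6, fun y hy => ?_, fun y hy hr hr' => h4 ?_⟩⟩
    · simpa only [hC, mem_filter, mem_univ, true_and] using h5 hy
    · exact mem_filter.2 ⟨hy, hr, hr'⟩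
  choose Y hY using key
  exact ⟨Y, fun x hx => hY x hx⟩

theorem rowP {G G'' : V × V → Prop} {L : Finset V} {a0 a' μ s w k0 : ℕ}
    (h1 : ∀ x, x ∉ L → a0 < rdeg G x) (hL : #L ≤ s) (hD : PD G'' a' μ w) (ha : a' ≤ a0)
    (hk : 2 * s ≤ k0) : RowP G G'' a0 μ s w k0 s := by
  classical
  have hA : PA G a0 s := by
    refine le_trans (card_le_card fun x hx => ?_) hL
    by_contra h
    exact absurd (mem_low.1 hx) (not_le.2 (h1 x h))
  refine ⟨hA, fun y => (card_filter_le _ _).trans hA, fun X Z hX hZ => ?_, Or.inl hk⟩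
  exact (hD X Z hX hZ).imp id fun h => h.trans (Nat.mul_le_mul_right _ ha)

theorem pe_loss {G G' : V × V → Prop} {K k k0 w p q : ℕ} (hE : PE G' K w)
    (h : ∀ X Y : Finset V, eN G' X Y ≤ eN G X Y + p * #X + q * #Y) (hk : k0 ≤ k)
    (hpq : 0 < p + q) (hw : k * w + (p + q) * Fintype.card V ≤ K * w) : PE G k0 w := by
  intro X Y hX hY
  have hn : 0 < Fintype.card V := lt_of_lt_of_le (by omega) (card_le_univ X)
  have h0 : 0 < (p + q) * Fintype.card V := Nat.mul_pos hpq hn
  have h1 : k ≤ K := by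
    by_contra hh
    have := Nat.mul_le_mul_right w (not_le.1 hh).le
    omega
  obtain ⟨D, rfl⟩ := Nat.exists_eq_add_of_le h1
  have h2 : (p + q) * Fintype.card V ≤ D * w := by
    rw [add_mul k] at hw
    omega
  have h3 : Fintype.card V * (p * #X + q * #Y) ≤ D * (#X * #Y) := by
    refine Nat.le_of_mul_le_mul_left ?_ hpq
    have e1 : w * (p * #X) ≤ #Y * (p * #X) := Nat.mul_le_mul_right _ hY.le
    have e2 : w * (q * #Y) ≤ #X * (q * #Y) := Nat.mul_le_mul_right _ hX.le
    calc (p + q) * (Fintype.card V * (p * #X + q * #Y))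
        = (p + q) * Fintype.card V * (p * #X + q * #Y) := by ring
      _ ≤ D * w * (p * #X + q * #Y) := Nat.mul_le_mul_right _ h2
      _ = D * (w * (p * #X) + w * (q * #Y)) := by ring
      _ ≤ D * (#Y * (p * #X) + #X * (q * #Y)) := Nat.mul_le_mul_left _ (add_le_add e1 e2)
      _ = (p + q) * (D * (#X * #Y)) := by ring
  have h4 := (hE X Y hX hY).trans (Nat.mul_le_mul_left _ (h X Y))
  have h5 := Nat.mul_le_mul_right (#X * #Y) hk
  rw [add_assoc, mul_add, add_mul] at h4
  omega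

theorem rdeg_mem (L : Finset V) (x : V) : rdeg (fun e : V × V => e.2 ∈ L) x = #L := by
  unfold rdeg
  congr 1
  ext y
  simp

theorem rdeg_loop (x : V) : rdeg (fun e : V × V => e.1 = e.2) x ≤ 1 := by
  unfold rdeg
  refine card_le_one.2 fun a ha b hb => ?_
  simp only [mem_filter, mem_univ, true_and] at ha hb
  rw [← ha, ← hb]

theorem le_rdeg {G : V × V → Prop} {x : V} {Y : Finset V} (h : ∀ y ∈ Y, G (x, y)) :
    #Y ≤ rdeg G x := by
  classical
  unfold rdeg
  exact card_le_card fun y hy => mem_filter.2 ⟨mem_univ _, h y hy⟩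

/-- Removing the columns in `L'` costs at most `#L'` per row outside `L`. -/
theorem rdeg_cut (G : V × V → Prop) (L L' : Finset V) {x : V} (hx : x ∉ L) :
    rdeg G x ≤ rdeg (fun e => G e ∧ e.1 ∉ L ∧ e.2 ∉ L') x + #L' := by
  classical
  unfold rdeg
  refine le_trans (card_le_card fun y hy => ?_) (card_union_le _ _)
  simp only [mem_filter, mem_univ, true_and, mem_union] at hy ⊢
  tauto

/-- A family of `m` disjoint permutations with values in a set of size `m` uses the set up. -/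
theorem used {m : ℕ} {f : Fin m → V} (hf : Function.Injective f) {Y : Finset V} (hY : #Y = m)
    (h : ∀ j, f j ∈ Y) {y : V} (hy : y ∈ Y) : ∃ j, f j = y := by
  have h1 : univ.image f = Y := by
    refine eq_of_subset_of_card_le (fun z hz => ?_) ?_
    · obtain ⟨j, _, rfl⟩ := mem_image.1 hz
      exact h j
    · rw [card_image_of_injective _ hf, card_univ, Fintype.card_fin, hY]
  rw [← h1] at hy
  obtain ⟨j, _, hj⟩ := mem_image.1 hy
  exact ⟨j, hj⟩

theorem not_cl {π : Perm V} {S : Finset V} (hS : S.Nonempty) (rk : V → ℤ)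
    (h : ∀ x ∈ S, π x ∈ S → rk (π x) < rk x) : ¬ Cl π S := fun hc => by
  obtain ⟨x, hx, hm⟩ := exists_min_image S rk hS
  exact absurd (hm _ (hc x hx)) (not_le.2 (h x hx (hc x hx)))

end Fact2

open Fact2 in
theorem fact2 : S_FACT2 := by
  classical
  intro V _ _ G' B G'' a a' μ s w k K hB hB' hr hc hd hA hA' hD hD' hE hs hk hμ ha ha' hw
  set L := low G' a with hL
  set L' := low (tr G') a with hL'
  have hLs : #L ≤ s := hA
  have hLs' : #L' ≤ s := hA'
  have nL : ∀ x, x ∉ L → a < rdeg G' x := fun x hx => not_le.1 fun h => hx (mem_low.2 h)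
  have nL' : ∀ x, x ∉ L' → a < rdeg (tr G') x := fun x hx => not_le.1 fun h => hx (mem_low.2 h)
  let rk : V → ℤ := fun x => ((Fintype.equivFin V x : ℕ) : ℤ)
  have hrk : ∀ x y, rk x = rk y → x = y := fun x y h =>
    (Fintype.equivFin V).injective (Fin.ext (Int.ofNat_inj.1 h))
  obtain ⟨Y, hY⟩ := pick _ L L' (fun x y => rk y < rk x) s k hLs hLs' hd hk hr
  obtain ⟨X, hX⟩ := pick _ L' L (fun y x => rk y < rk x) s k hLs' hLs hd.symm hk hc
  set G2 : V × V → Prop := fun e => G' e ∧ e.1 ∉ L ∧ e.2 ∉ L' with hG2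
  set B2 : V × V → Prop := fun e => (e.1 ∈ L ∧ e.2 ∈ Y e.1) ∨ (e.2 ∈ L' ∧ e.1 ∈ X e.2) ∨ G2 e
    with hB2
  have hB2B : ∀ e, B2 e → B e := by
    rintro e (⟨h1, h2⟩ | ⟨h1, h2⟩ | h)
    · exact ((hY _ h1).2.1 _ h2).1.1
    · exact ((hX _ h1).2.1 _ h2).1.1
    · exact hB _ h.1
  have r2 : ∀ x, x ∉ L → a - s < rdeg G2 x := fun x hx => by
    have h1 : rdeg G' x ≤ rdeg G2 x + #L' := rdeg_cut G' L L' hx
    have h2 := nL x hx
    omega
  have c2 : ∀ y, y ∉ L' → a - s < rdeg (tr G2) y := fun y hy => by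
    have h1 := rdeg_cut (tr G') L' L hy
    have h2 := nL' y hy
    have h3 : rdeg (fun e => tr G' e ∧ e.1 ∉ L' ∧ e.2 ∉ L) y ≤ rdeg (tr G2) y :=
      rdeg_le_of (fun e h => ⟨h.1, h.2.2, h.2.1⟩) y
    omega
  obtain ⟨N2, hN2, hN2'⟩ := fact V G2 B2 G'' (a - s) μ s w (2 * s) s
    (fun e h => Or.inr (Or.inr h)) (fun e h => hB' e (hB2B e h))
    (fun x => by
      by_cases hx : x ∈ L
      · rw [← (hY x hx).1]
        exact le_rdeg fun y hy => Or.inl ⟨hx, hy⟩
      · have h1 := r2 x hx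
        have h2 : rdeg G2 x ≤ rdeg B2 x := rdeg_le_of (fun e h => Or.inr (Or.inr h)) x
        omega)
    (fun y => by
      by_cases hy : y ∈ L'
      · rw [← (hX y hy).1]
        exact le_rdeg fun x hx => Or.inr (Or.inl ⟨hy, hx⟩)
      · have h1 := c2 y hy
        have h2 : rdeg (tr G2) y ≤ rdeg (tr B2) y :=
          rdeg_le_of (fun e h => Or.inr (Or.inr h)) y
        omega)
    (by omega) hμ (by omega) (rowP r2 hLs hD (by omega) le_rfl)
    (rowP c2 hLs' hD' (by omega) le_rfl)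
    (pe_loss (k := k) (p := s) (q := s) hE (fun X0 Y0 => by
      have e1 := eN_or_le (G := G') (G₁ := G2) (G₂ := fun e => e.2 ∈ L' ∨ e.1 ∈ L)
        (fun e h => by simp only [hG2]; tauto) X0 Y0
      have e2 := eN_or_le (G := fun e : V × V => e.2 ∈ L' ∨ e.1 ∈ L) (G₁ := fun e => e.2 ∈ L')
        (G₂ := fun e => e.1 ∈ L) (fun e h => h) X0 Y0
      have e3 := eN_le_rows (Z := fun e : V × V => e.2 ∈ L') (r := s)
        (fun x => (rdeg_mem L' x).le.trans hLs') X0 Y0
      have e4 := eN_le_cols (Z := fun e : V × V => e.1 ∈ L) (r := s)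
        (fun x => (rdeg_mem L x).le.trans hLs) X0 Y0
      omega) (by omega) (by omega) (by
        have : (s + s) * Fintype.card V ≤ (2 * s + 1) * Fintype.card V :=
          Nat.mul_le_mul_right _ (by omega)
        omega))
  have rowY : ∀ x ∈ L, ∀ y, B2 (x, y) → y ∈ Y x := by
    rintro x hx y (⟨_, h2⟩ | ⟨h1, h2⟩ | h)
    · exact h2
    · exact absurd hx ((hX _ h1).2.1 _ h2).2.1
    · exact absurd hx h.2.1
  have colX : ∀ y ∈ L', ∀ x, B2 (x, y) → x ∈ X y := by
    rintro y hy x (⟨h1, h2⟩ | ⟨_, h2⟩ | h)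
    · exact absurd hy ((hY _ h1).2.1 _ h2).2.1
    · exact h2
    · exact absurd hy h.2.2
  have useY : ∀ x ∈ L, ∀ y ∈ Y x, Gr N2 (x, y) := fun x hx y hy =>
    used (f := fun j => N2 j x) (fun i j h => by_contra fun h' => hN2 i j h' x h) (hY x hx).1
      (fun j => rowY x hx _ (hN2' j x)) hy
  have useX : ∀ y ∈ L', ∀ x ∈ X y, Gr N2 (x, y) := fun y hy x hx => by
    obtain ⟨j, hj⟩ := used (f := fun j => (N2 j).symm y) (fun i j h => by_contra fun h' =>
      hN2 i j h' ((N2 i).symm y) (by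
        have : (N2 i).symm y = (N2 j).symm y := h
        conv_rhs => rw [this]
        simp)) (hX y hy).1
      (fun j => colX y hy _ (by simpa using hN2' j ((N2 j).symm y))) hx
    exact ⟨j, by rw [← hj]; simp⟩
  obtain ⟨k1, rfl⟩ : ∃ k1, k = 2 * s + k1 := ⟨k - 2 * s, by omega⟩
  set Z : V × V → Prop := fun e => Gr N2 e ∨ e.1 = e.2 with hZ
  have gr : ∀ x, rdeg (Gr N2) x ≤ 2 * s ∧ rdeg (tr (Gr N2)) x ≤ 2 * s := fun x => by
    simpa using rdeg_Gr_le N2 x
  have zr : ∀ x, rdeg Z x ≤ 2 * s + 1 := fun x =>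
    (rdeg_or_le (fun e h => h) x).trans (add_le_add (gr x).1 (rdeg_loop x))
  have zc : ∀ x, rdeg (tr Z) x ≤ 2 * s + 1 := fun x =>
    (rdeg_or_le (G₁ := tr (Gr N2)) (G₂ := fun e => e.1 = e.2)
      (fun e h => h.imp id Eq.symm) x).trans (add_le_add (gr x).2 (rdeg_loop x))
  set G1 : V × V → Prop := fun e => G' e ∧ ¬ Z e with hG1
  set B1 : V × V → Prop := fun e => B e ∧ ¬ Z e with hB1
  have r1 : ∀ x, x ∉ L → a - (2 * s + 1) < rdeg G1 x := fun x hx => by
    have h1 := rdeg_or_le (G := G') (G₁ := G1) (G₂ := Z) (fun e h => by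
      simp only [hG1]; tauto) x
    have h2 := nL x hx
    have h3 := zr x
    omega
  have c1 : ∀ y, y ∉ L' → a - (2 * s + 1) < rdeg (tr G1) y := fun y hy => by
    have h1 := rdeg_or_le (G := tr G') (G₁ := tr G1) (G₂ := tr Z) (fun e h => by
      simp only [hG1, tr] at h ⊢; tauto) y
    have h2 := nL' y hy
    have h3 := zc y
    omega
  obtain ⟨N1, hN1, hN1'⟩ := fact V G1 B1 G'' (a - (2 * s + 1)) μ s w k1 s
    (fun e h => ⟨hB e h.1, h.2⟩) (fun e h => hB' e h.1)
    (fun x => by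
      by_cases hx : x ∈ L
      · have h1 := hr x hx
        have h2 := rdeg_or_le (G := fun e => B e ∧ e.1 ≠ e.2) (G₁ := B1) (G₂ := Gr N2)
          (fun e h => by simp only [hB1, hZ]; tauto) x
        have h3 := (gr x).1
        omega
      · have h1 := r1 x hx
        have h2 : rdeg G1 x ≤ rdeg B1 x := rdeg_le_of (fun e h => ⟨hB e h.1, h.2⟩) x
        omega)
    (fun y => by
      by_cases hy : y ∈ L'
      · have h1 := hc y hy
        have h2 := rdeg_or_le (G := tr fun e => B e ∧ e.1 ≠ e.2) (G₁ := tr B1)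
          (G₂ := tr (Gr N2)) (fun e h => by simp only [hB1, hZ, tr] at h ⊢; tauto) y
        have h3 := (gr y).2
        omega
      · have h1 := c1 y hy
        have h2 : rdeg (tr G1) y ≤ rdeg (tr B1) y :=
          rdeg_le_of (fun e h => ⟨hB _ h.1, h.2⟩) y
        omega)
    (by omega) hμ (by omega) (rowP r1 hLs hD (by omega) (by omega))
    (rowP c1 hLs' hD' (by omega) (by omega))
    (pe_loss (k := 2 * s + k1) (p := 2 * s + 1) (q := 0) hE (fun X0 Y0 => by
      have e1 := eN_or_le (G := G') (G₁ := G1) (G₂ := Z)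
        (fun e h => by simp only [hG1]; tauto) X0 Y0
      have e3 := eN_le_rows zr X0 Y0
      omega) (by omega) (by omega) (by simpa using hw))
  have hx12 : ∀ i j x, N2 i x ≠ N1 j x := fun i j x h => (hN1' j x).2 (Or.inl ⟨i, h⟩)
  have up : ∀ j x, ¬ rk (N1 j x) < rk x → -rk (N1 j x) < -rk x := fun j x h => by
    have h1 : rk x ≠ rk (N1 j x) := fun h' => (hN1' j x).2 (Or.inr (hrk _ _ h'))
    omega
  refine ⟨fun j => Sum.elim N2 N1 (finSumFinEquiv.symm j), fun i j hij x => ?_, fun j x => ?_,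
    fun j S hS hSL => ?_⟩
  · have h : finSumFinEquiv.symm i ≠ finSumFinEquiv.symm j :=
      finSumFinEquiv.symm.injective.ne hij
    revert h
    beta_reduce
    rcases finSumFinEquiv.symm i with i | i <;> rcases finSumFinEquiv.symm j with j | j <;>
      intro h
    · exact hN2 i j (fun h' => h (by rw [h'])) x
    · exact hx12 i j x
    · exact (hx12 j i x).symm
    · exact hN1 i j (fun h' => h (by rw [h'])) x
  · beta_reduce
    rcases finSumFinEquiv.symm j with j | j
    · exact hB2B _ (hN2' j x)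
    · exact (hN1' j x).1
  · beta_reduce
    rcases finSumFinEquiv.symm j with j | j
    · refine not_cl hS rk fun x hx hx' => ?_
      rcases hSL with h | h
      · exact ((hY x (h hx)).2.1 _ (rowY x (h hx) _ (hN2' j x))).2.2 (h hx')
      · exact ((hX _ (h hx')).2.1 _ (colX _ (h hx') x (hN2' j x))).2.2 (h hx)
    · refine not_cl hS (fun x => -rk x) fun x hx hx' => up j x fun hlt => ?_
      have hb : B (x, N1 j x) ∧ x ≠ N1 j x :=
        ⟨(hN1' j x).1, fun h => (hN1' j x).2 (Or.inr h)⟩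
      refine (hN1' j x).2 (Or.inl ?_)
      rcases hSL with h | h
      · exact useY x (h hx) _ ((hY x (h hx)).2.2 _ (h hx') hb hlt)
      · exact useX _ (h hx') x ((hX _ (h hx')).2.2 x (h hx) hb hlt)

end Pool.Agent.P.MP_de899d_pr
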