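import Pool.Agent.P.MP_de899d_pr.Base2
import Pool.Agent.P.MP_de899d_pr.Query

/-! Random equipartitions, and the sixteen classes. -/

set_option linter.unusedSectionVars false

namespace Pool.Agent.P.MP_de899d_pr
open Finset Equiv

namespace Hyp

section tail
variable {W : Type} [Fintype W] [DecidableEq W]

theorem mgf (q : ℕ → W) {m : ℕ} (hq : ∀ u t, u < t → t < m → q u ≠ q t) (N : Finset W)
    (hm : m < Fintype.card W) {μ θ : ℝ} (hθ : 0 ≤ θ)
    (hμ : (#N : ℝ) * m ≤ μ * (Fintype.card W - m)) :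
    Ex (fun π : Perm W => (1 + θ) ^ #((range m).filter fun t => π (q t) ∈ N))
      ≤ Real.exp (θ * μ) := by
  classical
  have hnm : (0 : ℝ) < Fintype.card W - m := by
    have : (m : ℝ) < Fintype.card W := by exact_mod_cast hm
    linarith
  have h := query_aux (q := fun t _ => q t) (B := fun _ _ => N) (fun _ _ _ _ => ⟨rfl, rfl⟩)
    (fun _ => #N) (fun _ => 1) (fun _ => θ) hm (fun _ _ => le_rfl) (fun _ => zero_le_one)
    (fun _ => hθ) m le_rfl
  refine le_trans (le_of_eq ?_) (h.trans ?_)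
  · congr 1
    funext π
    rw [← prod_const, prod_filter]
    refine prod_congr rfl fun t ht => ?_
    have : Hit (fun t _ => q t) (fun _ _ => N) t π ↔ π (q t) ∈ N :=
      ⟨fun h => h.2, fun h => ⟨fun u hu => hq u t hu (mem_range.1 ht), h⟩⟩
    by_cases hN : π (q t) ∈ N
    · rw [if_pos hN, if_pos (this.2 hN)]
    · rw [if_neg hN, if_neg (fun h => hN (this.1 h)), add_zero]
  · rw [prod_const, card_range]
    have h0 : 0 ≤ θ * #N / (Fintype.card W - m) := by positivity
    calc (1 + θ * #N / (Fintype.card W - m)) ^ m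
        ≤ Real.exp (θ * #N / (Fintype.card W - m)) ^ m :=
          pow_le_pow_left₀ (by positivity) (by rw [add_comm]; exact Real.add_one_le_exp _) m
      _ = Real.exp (θ * (#N * m / (Fintype.card W - m))) := by
          rw [← Real.exp_nat_mul]; congr 1; ring
      _ ≤ _ := by
          refine Real.exp_le_exp.2 (mul_le_mul_of_nonneg_left ?_ hθ)
          rw [div_le_iff₀ hnm]; exact hμ

theorem tail (q : ℕ → W) {m : ℕ} (hq : ∀ u t, u < t → t < m → q u ≠ q t) (N : Finset W)
    (hm : m < Fintype.card W) (hm0 : 0 < m) {μ D : ℝ} (hD : 0 ≤ D) (hμ0 : 0 ≤ μ)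
    (hμ : (#N : ℝ) * m ≤ μ * (Fintype.card W - m)) :
    Pr (fun π : Perm W => μ + D ≤ #((range m).filter fun t => π (q t) ∈ N))
      ≤ Real.exp (-(D ^ 2 / (4 * m))) := by
  have hmr : (0 : ℝ) < m := by exact_mod_cast hm0
  by_cases hy : μ + D ≤ m
  · set s : ℝ := D / (2 * m) with hs
    have hs0 : 0 ≤ s := by positivity
    have hs1 : s ≤ 1 := by rw [hs, div_le_one (by positivity)]; linarith
    have he : Real.exp s - 1 ≤ s + s ^ 2 := by
      have := Real.abs_exp_sub_one_sub_id_le (x := s) (by rw [abs_of_nonneg hs0]; exact hs1)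
      linarith [(abs_le.1 this).2]
    have hθ : 0 ≤ Real.exp s - 1 := by linarith [Real.add_one_le_exp s]
    have h1 := mgf q hq N hm hθ hμ
    have e1 : 1 + (Real.exp s - 1) = Real.exp s := by ring
    rw [e1] at h1
    have h2 := Pr_le_div (f := fun π : Perm W =>
      Real.exp s ^ #((range m).filter fun t => π (q t) ∈ N)) (fun π => by positivity)
      (c := Real.exp (s * (μ + D))) (Real.exp_pos _)
    refine le_trans (Pr_mono fun π hπ => ?_) (h2.trans ?_)
    · rw [← Real.exp_nat_mul, mul_comm (_ : ℝ) s]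
      exact Real.exp_le_exp.2 (mul_le_mul_of_nonneg_left hπ hs0)
    · refine (div_le_div_of_nonneg_right h1 (Real.exp_pos _).le).trans ?_
      rw [← Real.exp_sub]
      refine Real.exp_le_exp.2 ?_
      have h3 : (Real.exp s - 1) * μ ≤ (s + s ^ 2) * μ := mul_le_mul_of_nonneg_right he hμ0
      have h4 : s ^ 2 * μ ≤ s ^ 2 * m := mul_le_mul_of_nonneg_left (by linarith) (sq_nonneg s)
      have h5 : s ^ 2 * m - s * D = -(D ^ 2 / (4 * m)) := by rw [hs]; field_simp; ring
      linarith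
  · have hle : ∀ π : Perm W, (#((range m).filter fun t => π (q t) ∈ N) : ℝ) ≤ m := fun π => by
      exact_mod_cast (card_filter_le _ _).trans (card_range m).le
    rw [Pr_false fun π hπ => hy (hπ.trans (hle π))]
    exact (Real.exp_pos _).le

variable {κ : Type} [DecidableEq κ] {m : ℕ}

/-- The points of a block. -/
def pt (e : W ≃ κ × Fin m) (hm : 0 < m) (b : κ) (t : ℕ) : W := e.symm (b, ⟨t % m, Nat.mod_lt _ hm⟩)

theorem pt_ne (e : W ≃ κ × Fin m) (hm : 0 < m) (b : κ) (u t : ℕ) (hu : u < t) (ht : t < m) :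
    pt e hm b u ≠ pt e hm b t := by
  intro h
  have h1 := congrArg (fun p : κ × Fin m => p.2.val) (e.symm.injective h)
  simp only [Nat.mod_eq_of_lt ht, Nat.mod_eq_of_lt (hu.trans ht)] at h1
  omega

theorem card_inter (e : W ≃ κ × Fin m) (hm : 0 < m) (b : κ) (π : Perm W) (N : Finset W) :
    #(N ∩ fib (fun x => (e (π⁻¹ x)).1) b) = #((range m).filter fun t => π (pt e hm b t) ∈ N) := by
  symm
  refine card_bij (fun t _ => π (pt e hm b t)) (fun t ht => ?_) (fun u hu t ht h => ?_)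
    fun x hx => ?_
  · refine mem_inter.2 ⟨(mem_filter.1 ht).2, mem_fib.2 ?_⟩
    simp [pt]
  · have hu := mem_range.1 (mem_filter.1 hu).1
    have ht := mem_range.1 (mem_filter.1 ht).1
    have h := π.injective h
    rcases lt_trichotomy u t with h1 | h1 | h1
    · exact absurd h (pt_ne e hm b u t h1 ht)
    · exact h1
    · exact absurd h.symm (pt_ne e hm b t u h1 hu)
  · obtain ⟨h1, h2⟩ := mem_inter.1 hx
    have h2 := mem_fib.1 h2
    have h3 : π (pt e hm b (e (π⁻¹ x)).2.val) = x := by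
      have : pt e hm b (e (π⁻¹ x)).2.val = π⁻¹ x := by
        unfold pt
        rw [e.symm_apply_eq]
        exact Prod.ext h2.symm (Fin.ext (Nat.mod_eq_of_lt (e (π⁻¹ x)).2.isLt))
      rw [this]; simp
    exact ⟨(e (π⁻¹ x)).2.val, mem_filter.2 ⟨mem_range.2 (e (π⁻¹ x)).2.isLt, by rw [h3]; exact h1⟩,
      h3⟩

theorem card_block (e : W ≃ κ × Fin m) (hm : 0 < m) (b : κ) (π : Perm W) :
    #(fib (fun x => (e (π⁻¹ x)).1) b) = m := by
  have := card_inter e hm b π univ
  simpa using this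

end tail

/-- Tail classes on the small part. -/
def sT (e : Fin 16) (y : Fin (16 + e)) : Fin 16 := ⟨y % 16, Nat.mod_lt _ (by norm_num)⟩

/-- Head classes on the small part. -/
def sH (e : Fin 16) (y : Fin (16 + e)) : Fin 16 :=
  if y.val < 16 ∧ e.val ≤ (y.val + 15) % 16 then ⟨(y + 14) % 16, Nat.mod_lt _ (by norm_num)⟩
  else ⟨(y + 15) % 16, Nat.mod_lt _ (by norm_num)⟩

theorem small1 : ∀ e a : Fin 16, 1 ≤ #(fib (sT e) a) ∧ #(fib (sT e) a) ≤ 2 ∧
    #(fib (sT e) a) = #(fib (sH e) a) := by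
  unfold fib
  decide +kernel

theorem small2 : ∀ (e : Fin 16) (y : Fin (16 + e)), sT e y = sH e y + 1 ∨ sT e y = sH e y + 2 := by
  decide +kernel

theorem fib_equiv {V V' κ : Type} [Fintype V] [DecidableEq V] [Fintype V'] [DecidableEq V']
    [DecidableEq κ] (φ : V ≃ V') (c : V' → κ) (a : κ) :
    #(fib (fun x => c (φ x)) a) = #(fib c a) :=
  card_equiv φ fun x => by simp [fib]

theorem fib_sum {V V' κ : Type} [Fintype V] [DecidableEq V] [Fintype V'] [DecidableEq V']
    [DecidableEq κ] (c : V → κ) (c' : V' → κ) (a : κ) :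
    #(fib (Sum.elim c c') a) = #(fib c a) + #(fib c' a) := by
  simp only [fib, card_filter, Fintype.sum_sum_type]
  rfl

theorem fib_fst (m : ℕ) (d a : Fin 16) : #(fib (fun p : Fin 16 × Fin m => p.1 - d) a) = m := by
  have : fib (fun p : Fin 16 × Fin m => p.1 - d) a = {a + d} ×ˢ univ := by
    ext p
    simp only [mem_fib, sub_eq_iff_eq_add, mem_product, mem_singleton, mem_univ, and_true]
  rw [this]; simp

end Hyp

open Hyp in
theorem hyp : S_HYP := by
  intro W _ _ K m D _ 𝒩 hK hm hW hlt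
  classical
  let e : W ≃ ZMod K × Fin m := Fintype.equivOfCardEq (by simp [hW, ZMod.card])
  have hK1 : (0 : ℝ) < (K : ℝ) - 1 := by
    have : (2 : ℝ) ≤ K := by exact_mod_cast hK
    linarith
  have hmW : m < Fintype.card W := by rw [hW]; nlinarith
  let bad : Finset W × ZMod K → Perm W → Prop := fun p π =>
    (#p.1 : ℝ) / (K - 1) + D ≤ #((range m).filter fun t => π (pt e hm p.2 t) ∈ p.1)
  have hbad : ∀ p, Pr (bad p) ≤ Real.exp (-((D : ℝ) ^ 2 / (4 * m))) := fun p =>
    tail (pt e hm p.2) (pt_ne e hm p.2) p.1 hmW hm (Nat.cast_nonneg D) (by positivity) (by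
      rw [hW]; push_cast; refine le_of_eq ?_; field_simp)
  have hu := Pr_exists_le' ((𝒩 ∪ 𝒩.image compl) ×ˢ (univ : Finset (ZMod K))) bad
    fun p _ => hbad p
  have hc : (#((𝒩 ∪ 𝒩.image compl) ×ˢ (univ : Finset (ZMod K))) : ℝ) ≤ 2 * #𝒩 * K := by
    rw [card_product, card_univ, ZMod.card]
    have h1 : #(𝒩 ∪ 𝒩.image compl) ≤ 2 * #𝒩 :=
      (card_union_le _ _).trans (by have := card_image_le (s := 𝒩) (f := compl); omega)
    exact_mod_cast Nat.mul_le_mul_right K h1
  have hlt' := (hu.trans (mul_le_mul_of_nonneg_right hc (Real.exp_pos _).le)).trans_lt hlt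
  have hex : ∃ π : Perm W, ¬ ∃ p ∈ (𝒩 ∪ 𝒩.image compl) ×ˢ (univ : Finset (ZMod K)), bad p π := by
    by_contra hcon
    have h0 := Pr_false fun π hπ => hcon ⟨π, hπ⟩
    rw [Pr_not] at h0
    linarith
  obtain ⟨π, hπ⟩ := hex
  have hup : ∀ N ∈ 𝒩 ∪ 𝒩.image compl, ∀ b,
      (K - 1) * #(N ∩ fib (fun x => (e (π⁻¹ x)).1) b) ≤ #N + (K - 1) * D := fun N hN b => by
    have h1 : ¬ bad (N, b) π := fun h => hπ ⟨(N, b), mem_product.2 ⟨hN, mem_univ _⟩, h⟩
    simp only [bad, not_le] at h1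
    rw [← card_inter e hm b π N, ← sub_lt_iff_lt_add, lt_div_iff₀ hK1] at h1
    have h2 : (((K - 1 : ℕ) : ℝ)) = (K : ℝ) - 1 := by rw [Nat.cast_sub (by omega)]; simp
    have h3 : (((K - 1 : ℕ) : ℝ)) * #(N ∩ fib (fun x => (e (π⁻¹ x)).1) b) ≤
        #N + ((K - 1 : ℕ) : ℝ) * D := by rw [h2]; linarith
    exact_mod_cast h3
  refine ⟨fun x => (e (π⁻¹ x)).1, fun b => card_block e hm b π, fun N hN b =>
    ⟨hup N (mem_union_left _ hN) b, ?_⟩⟩
  have h1 := hup Nᶜ (mem_union_right _ (mem_image_of_mem _ hN)) b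
  have h2 : #(N ∩ fib (fun x => (e (π⁻¹ x)).1) b) + #(Nᶜ ∩ fib (fun x => (e (π⁻¹ x)).1) b) = m := by
    rw [← card_union_of_disjoint (disjoint_compl_right.mono inter_subset_left inter_subset_left),
      ← union_inter_distrib_right, union_compl, univ_inter, card_block e hm b π]
  have h3 : #N + #Nᶜ = K * m := by rw [card_add_card_compl, hW]
  obtain ⟨k, rfl⟩ : ∃ k, K = k + 1 := ⟨K - 1, by omega⟩
  simp only [Nat.add_sub_cancel] at h1 ⊢
  have h4 := congrArg (k * ·) h2
  simp only [mul_add] at h4 ⊢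
  rw [add_mul, one_mul] at h3
  omega

open Hyp in
theorem clu : S_CLU := by
  intro V _ _ hV
  set n := Fintype.card V with hn
  obtain ⟨m, hm⟩ : ∃ m, n / 16 = m + 1 := ⟨n / 16 - 1, by omega⟩
  let e : Fin 16 := ⟨n % 16, Nat.mod_lt _ (by norm_num)⟩
  let φ : V ≃ (Fin 16 × Fin m) ⊕ Fin (16 + e) := Fintype.equivOfCardEq (by
    simp only [Fintype.card_sum, Fintype.card_prod, Fintype.card_fin, e]; omega)
  let cT : (Fin 16 × Fin m) ⊕ Fin (16 + e) → Fin 16 := Sum.elim (fun p => p.1 - 0) (sT e)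
  let cH : (Fin 16 × Fin m) ⊕ Fin (16 + e) → Fin 16 := Sum.elim (fun p => p.1 - 1) (sH e)
  have hT : ∀ a, #(fib (fun x => cT (φ x)) a) = m + #(fib (sT e) a) := fun a => by
    rw [fib_equiv φ cT, fib_sum, fib_fst]
  have hH : ∀ a, #(fib (fun x => cH (φ x)) a) = m + #(fib (sH e) a) := fun a => by
    rw [fib_equiv φ cH, fib_sum, fib_fst]
  refine ⟨fun x => cT (φ x), fun x => cH (φ x), fun a => ?_, fun a => ?_, fun y => ?_, fun a => ?_⟩
  · have := small1 e a
    rw [hT, hm]; omega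
  · rw [hT, hH, (small1 e a).2.2]
  · rcases h : φ y with p | z
    · left; simp [cT, cH]
    · exact small2 e z
  · have h1 : m ≤ #(fib (fun x => cH (φ x)) a ∩ fib (fun x => cT (φ x)) (a + 1)) := by
      have := card_le_card_of_injOn (s := (univ : Finset (Fin m)))
        (t := fib (fun x => cH (φ x)) a ∩ fib (fun x => cT (φ x)) (a + 1))
        (fun i => φ.symm (Sum.inl (a + 1, i))) (fun i _ => by
          simp [mem_fib, cT, cH]) (fun i _ j _ h => by simpa using h)
      simpa using this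
    omega

end Pool.Agent.P.MP_de899d_pr
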