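import Pool.Agent.P.MP_de899d_pr.Defs

/-! Anchors exist after a random relabelling of the columns. -/

set_option linter.unusedSectionVars false

namespace Pool.Agent.P.MP_de899d_pr
open Finset Equiv

section orbits
variable {V : Type} [Fintype V] [DecidableEq V]

/-- The orbit of `z`. -/
def iorb (π : Perm V) (z : V) : Finset V := univ.filter (π.SameCycle z)

/-- The set of orbits. -/
def iorbs (π : Perm V) : Finset (Finset V) := univ.image (iorb π)

theorem mem_iorb {π : Perm V} {z y : V} : y ∈ iorb π z ↔ π.SameCycle z y := by simp [iorb]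

theorem self_mem_iorb (π : Perm V) (z : V) : z ∈ iorb π z := mem_iorb.2 (Perm.SameCycle.refl _ _)

theorem iorb_cl (π : Perm V) (z : V) : Cl π (iorb π z) := fun _ hy =>
  mem_iorb.2 (Perm.sameCycle_apply_right.2 (mem_iorb.1 hy))

theorem iorb_subset {π : Perm V} {S : Finset V} (hS : Cl π S) {z : V} (hz : z ∈ S) :
    iorb π z ⊆ S := by
  intro y hy
  obtain ⟨i, -, rfl⟩ := (mem_iorb.1 hy).exists_pow_eq'
  clear hy
  induction i with
  | zero => simpa using hz
  | succ i ih => rw [pow_succ', Perm.mul_apply]; exact hS _ ih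

theorem iorb_eq {π : Perm V} {z y : V} (h : y ∈ iorb π z) : iorb π y = iorb π z := by
  ext w
  rw [mem_iorb] at h
  rw [mem_iorb, mem_iorb]
  exact ⟨fun h' => h.trans h', fun h' => h.symm.trans h'⟩

theorem short_of_mem {π : Perm V} {L : ℕ} {O : Finset V} (hO : O ∈ iorbs π) (hL : #O ≤ L) {a : V}
    (ha : a ∈ O) : Short π L a ∧ Short π L (π a) := by
  obtain ⟨z, -, rfl⟩ := mem_image.1 hO
  exact ⟨⟨_, ha, iorb_cl π z, hL⟩, ⟨_, iorb_cl π z a ha, iorb_cl π z, hL⟩⟩

open Classical in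
theorem two_pow_le (π : Perm V) : 2 ^ #(iorbs π) ≤ #(univ.filter (Cl π)) := by
  rw [← card_powerset]
  refine card_le_card_of_injOn (fun T => T.biUnion id) ?_ ?_
  · intro T hT
    simp only [coe_filter, mem_univ, true_and, Set.mem_ofPred_eq]
    intro z hz
    obtain ⟨O, hO, hz⟩ := mem_biUnion.1 hz
    obtain ⟨y, -, rfl⟩ := mem_image.1 (mem_powerset.1 hT hO)
    exact mem_biUnion.2 ⟨_, hO, iorb_cl π y z hz⟩
  · have key : ∀ T ∈ (iorbs π).powerset, ∀ T' ∈ (iorbs π).powerset,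
        T.biUnion id = T'.biUnion id → T ⊆ T' := by
      intro T hT T' hT' h O hO
      obtain ⟨y, -, rfl⟩ := mem_image.1 (mem_powerset.1 hT hO)
      have : y ∈ T'.biUnion id := h ▸ mem_biUnion.2 ⟨_, hO, self_mem_iorb π y⟩
      obtain ⟨O', hO', hy⟩ := mem_biUnion.1 this
      obtain ⟨y', -, rfl⟩ := mem_image.1 (mem_powerset.1 hT' hO')
      rwa [iorb_eq hy]
    intro T hT T' hT' h
    exact Subset.antisymm (key T hT T' hT' h) (key T' hT' T hT h.symm)

open Classical in
theorem card_cl_le (S : Finset V) :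
    #(univ.filter fun π : Perm V => Cl π S) ≤
      (#S).factorial * (Fintype.card V - #S).factorial := by
  have h1 : Fintype.card (Perm {x // x ∈ S} × Perm {x // ¬ x ∈ S}) =
      (#S).factorial * (Fintype.card V - #S).factorial := by
    rw [Fintype.card_prod, Fintype.card_perm, Fintype.card_perm, Fintype.card_subtype_compl,
      Fintype.card_coe]
  rw [← h1, ← card_univ]
  refine le_trans (card_le_card ?_) (card_image_le
    (f := fun p : Perm {x // x ∈ S} × Perm {x // ¬ x ∈ S} => Perm.subtypeCongr p.1 p.2))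
  intro π hπ
  have hc : Cl π S := (mem_filter.1 hπ).2
  have h2 : ∀ x, π x ∈ S ↔ x ∈ S := fun x => ⟨fun hx => by
    simpa using Perm.perm_symm_on_of_perm_on_finset hc hx, hc x⟩
  refine mem_image.2 ⟨(π.subtypePerm h2, π.subtypePerm fun x => not_congr (h2 x)), mem_univ _, ?_⟩
  ext x
  by_cases hx : x ∈ S
  · rw [Perm.subtypeCongr.left_apply _ _ hx]; rfl
  · rw [Perm.subtypeCongr.right_apply _ _ hx]; rfl

open Classical in
theorem Ex_cl_le : Ex (fun π : Perm V => (#(univ.filter (Cl π)) : ℝ)) ≤ Fintype.card V + 1 := by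
  have h1 : ∀ π : Perm V, (#(univ.filter (Cl π)) : ℝ) =
      ∑ S ∈ (univ : Finset V).powerset, if Cl π S then (1 : ℝ) else 0 := by
    intro π
    rw [card_filter, powerset_univ]
    push_cast
    rfl
  simp only [h1, Ex_sum]
  have h2 : ∀ S ∈ (univ : Finset V).powerset, Ex (fun π : Perm V => if Cl π S then (1 : ℝ) else 0)
      ≤ (((Fintype.card V).choose #S : ℕ) : ℝ)⁻¹ := by
    intro S _
    have h3 := Pr_eq_card (fun π : Perm V => Cl π S)
    have h4 : Ex (fun π : Perm V => if Cl π S then (1 : ℝ) else 0) =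
        Pr (fun π : Perm V => Cl π S) := rfl
    have h5 := Nat.choose_mul_factorial_mul_factorial (card_le_univ S)
    have h6 : 0 < (Fintype.card V).choose #S := Nat.choose_pos (card_le_univ S)
    rw [h4, h3, Fintype.card_perm, div_le_iff₀ (by positivity), ← h5, inv_mul_eq_div,
      le_div_iff₀ (by positivity)]
    have h7 := Nat.mul_le_mul_right ((Fintype.card V).choose #S) (card_cl_le S)
    have h8 : (#S).factorial * (Fintype.card V - #S).factorial * (Fintype.card V).choose #S =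
      (Fintype.card V).choose #S * (#S).factorial * (Fintype.card V - #S).factorial := by ring
    rw [h8] at h7
    exact_mod_cast h7
  refine (sum_le_sum h2).trans ?_
  rw [sum_powerset_apply_card (fun m => (((Fintype.card V).choose m : ℕ) : ℝ)⁻¹), card_univ]
  refine (sum_le_card_nsmul _ _ 1 fun m hm => ?_).trans (by simp)
  have h6 : 0 < (Fintype.card V).choose m := Nat.choose_pos (by simpa [Nat.lt_succ_iff] using hm)
  rw [nsmul_eq_mul, mul_inv_cancel₀ (by positivity)]

theorem Pr_orbs (κ : ℕ) :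
    Pr (fun π : Perm V => κ < #(iorbs π)) ≤ (Fintype.card V + 1 : ℝ) / 2 ^ κ := by
  classical
  refine le_trans (Pr_mono (E' := fun π : Perm V => (2 : ℝ) ^ κ ≤ (#(univ.filter (Cl π)) : ℝ))
    fun π h => ?_) ((Pr_le_div (fun π => Nat.cast_nonneg _) (by positivity)).trans ?_)
  · have := (Nat.pow_le_pow_right (by norm_num : 0 < 2) h.le).trans (two_pow_le π)
    exact_mod_cast this
  · exact div_le_div_of_nonneg_right (by convert Ex_cl_le (V := V)) (by positivity)

/-- Fresh anchors with distinct tails and distinct heads. -/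
structure IGood {k : ℕ} (π : Fin k → Perm V) (Z : Fin k → Finset V) (An : Finset (Fin k × V)) :
    Prop where
  fresh : ∀ p ∈ An, p.2 ∉ Z p.1
  tinj : ∀ p ∈ An, ∀ q ∈ An, p.2 = q.2 → p = q
  hinj : ∀ p ∈ An, ∀ q ∈ An, π p.1 p.2 = π q.1 q.2 → p = q

theorem IGood.extend {k L t : ℕ} {π : Fin k → Perm V} {Z : Fin k → Finset V}
    (hZ : ∀ j, #(Z j) ≤ t) {A : Finset (Fin k × V)} (hA : IGood π Z A)
    (J : Finset (Fin k × Finset V)) (hJ : ∀ p ∈ J, L < #p.2) (hc : 2 * (#A + #J) + t ≤ L) :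
    ∃ An, A ⊆ An ∧ IGood π Z An ∧ #An ≤ #A + #J ∧ ∀ p ∈ J, ∃ a ∈ p.2, (p.1, a) ∈ An := by
  induction J using Finset.induction_on with
  | empty => exact ⟨A, Subset.refl _, hA, by simp, by simp⟩
  | insert p J hp ih =>
    rw [card_insert_of_notMem hp] at hc ⊢
    obtain ⟨An, h1, h2, h3, h4⟩ := ih (fun q hq => hJ q (mem_insert_of_mem hq)) (by omega)
    have h5 : #(An.image Prod.snd ∪ An.image (fun q => (π p.1)⁻¹ (π q.1 q.2)) ∪ Z p.1) < #p.2 := by
      have e1 := card_union_le (An.image Prod.snd ∪ An.image (fun q => (π p.1)⁻¹ (π q.1 q.2)))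
        (Z p.1)
      have e2 := card_union_le (An.image Prod.snd) (An.image (fun q => (π p.1)⁻¹ (π q.1 q.2)))
      have e3 := card_image_le (s := An) (f := Prod.snd)
      have e4 := card_image_le (s := An) (f := fun q => (π p.1)⁻¹ (π q.1 q.2))
      have e5 := hZ p.1
      have e6 := hJ p (mem_insert_self _ _)
      omega
    obtain ⟨a, ha, hF⟩ := exists_mem_notMem_of_card_lt_card h5
    simp only [mem_union, mem_image, not_or, not_exists, not_and] at hF
    obtain ⟨⟨f1, f2⟩, f3⟩ := hF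
    have f4 : ∀ q ∈ An, π p.1 a ≠ π q.1 q.2 := fun q hq e => f2 q hq (by rw [← e]; simp)
    refine ⟨insert (p.1, a) An, h1.trans (subset_insert _ _), ⟨?_, ?_, ?_⟩, ?_, ?_⟩
    · intro q hq
      rcases mem_insert.1 hq with rfl | hq
      · exact f3
      · exact h2.fresh q hq
    · intro q hq q' hq' e
      rcases mem_insert.1 hq with rfl | hq <;> rcases mem_insert.1 hq' with rfl | hq'
      · rfl
      · exact absurd e.symm (f1 q' hq')
      · exact absurd e (f1 q hq)
      · exact h2.tinj q hq q' hq' e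
    · intro q hq q' hq' e
      rcases mem_insert.1 hq with rfl | hq <;> rcases mem_insert.1 hq' with rfl | hq'
      · rfl
      · exact absurd e (f4 q' hq')
      · exact absurd e.symm (f4 q hq)
      · exact h2.hinj q hq q' hq' e
    · have := card_insert_le (p.1, a) An
      omega
    · intro q hq
      rcases mem_insert.1 hq with rfl | hq
      · exact ⟨a, ha, mem_insert_self _ _⟩
      · obtain ⟨b, hb, hb'⟩ := h4 q hq
        exact ⟨b, hb, mem_insert_of_mem hb'⟩

theorem exists_igood {k L t κ : ℕ} {π : Fin k → Perm V} {Z : Fin k → Finset V}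
    (hZ : ∀ j, #(Z j) ≤ t) (hL : 2 * (k * κ) + t ≤ L) (h1 : ∀ j, #(iorbs (π j)) ≤ κ)
    (h2 : ∀ j, ∀ a ∈ Z j, ¬ Short (π j) L a)
    (h3 : ∀ j j' a, Short (π j) L a → Short (π j') L a → j = j') :
    ∃ An, IGood π Z An ∧ #An ≤ k * κ ∧
      ∀ j (S : Finset V), S.Nonempty → Cl (π j) S → ∃ a ∈ S, (j, a) ∈ An := by
  classical
  set I : Finset (Fin k × Finset V) := univ.biUnion fun j => (iorbs (π j)).image (Prod.mk j)
    with hI
  have hmem : ∀ p, p ∈ I ↔ p.2 ∈ iorbs (π p.1) := by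
    rintro ⟨j, O⟩
    simp [hI]
  have hcard : #I ≤ k * κ := by
    refine card_biUnion_le.trans ?_
    refine (sum_le_card_nsmul _ _ κ fun j _ => card_image_le.trans (h1 j)).trans (by simp)
  have hne : ∀ p : I, ∃ a, a ∈ p.1.2 := by
    rintro ⟨p, hp⟩
    obtain ⟨z, -, hz⟩ := mem_image.1 ((hmem p).1 hp)
    exact ⟨z, hz ▸ self_mem_iorb _ z⟩
  choose rep hrep using hne
  set A : Finset (Fin k × V) := (I.attach.filter fun p => #p.1.2 ≤ L).image
    fun p => (p.1.1, rep p) with hA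
  have hAs : ∀ q ∈ A, Short (π q.1) L q.2 ∧ Short (π q.1) L (π q.1 q.2) := by
    intro q hq
    obtain ⟨p, hp, rfl⟩ := mem_image.1 hq
    exact short_of_mem ((hmem _).1 p.2) (mem_filter.1 hp).2 (hrep p)
  have hgood : IGood π Z A := by
    refine ⟨fun q hq hz => h2 _ _ hz (hAs q hq).1, fun q hq q' hq' e => ?_,
      fun q hq q' hq' e => ?_⟩
    · exact Prod.ext (h3 _ _ q.2 (hAs q hq).1 (e ▸ (hAs q' hq').1)) e
    · have e1 : q.1 = q'.1 := h3 _ _ _ (hAs q hq).2 (e ▸ (hAs q' hq').2)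
      rw [← e1] at e
      exact Prod.ext e1 ((π q.1).injective e)
  have hAc : #A + #(I.filter fun p => ¬ #p.2 ≤ L) ≤ k * κ := by
    have e1 : #A ≤ #(I.filter fun p => #p.2 ≤ L) := by
      refine card_image_le.trans (le_of_eq ?_)
      rw [filter_attach (fun p : Fin k × Finset V => #p.2 ≤ L), card_map, card_attach]
    have e2 := card_filter_add_card_filter_not (s := I) (fun p => #p.2 ≤ L)
    omega
  obtain ⟨An, g1, g2, g3, g4⟩ := hgood.extend hZ (L := L) (I.filter fun p => ¬ #p.2 ≤ L)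
    (fun p hp => not_le.1 (mem_filter.1 hp).2) (by omega)
  refine ⟨An, g2, g3.trans hAc, ?_⟩
  rintro j S ⟨z, hz⟩ hS
  have hp : (j, iorb (π j) z) ∈ I := (hmem _).2 (mem_image_of_mem _ (mem_univ z))
  by_cases hs : #(iorb (π j) z) ≤ L
  · refine ⟨rep ⟨_, hp⟩, iorb_subset hS hz (hrep ⟨_, hp⟩), g1 ?_⟩
    exact mem_image.2 ⟨⟨_, hp⟩, mem_filter.2 ⟨mem_attach _ _, hs⟩, rfl⟩
  · obtain ⟨a, ha, ha'⟩ := g4 _ (mem_filter.2 ⟨hp, hs⟩)
    exact ⟨a, iorb_subset hS hz ha, ha'⟩

end orbits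

theorem init (h : S_SHORT) : S_INIT := by
  intro V _ _ k n0 κ L s M Zp Zm hM hp hm hL h4
  set Z : Fin k → Finset V := fun j => Zp ∪ Zm.image ((M j)⁻¹ : Perm V) with hZdef
  have hZ : ∀ j, #(Z j) ≤ 2 * s := fun j => by
    have e1 := card_union_le Zp (Zm.image ((M j)⁻¹ : Perm V))
    have e2 := card_image_le (s := Zm) (f := ((M j)⁻¹ : Perm V))
    simp only [hZdef]
    omega
  have p1 : Pr (fun σ : Perm V => ∃ j, κ < #(iorbs (σ * M j))) ≤
      k * ((Fintype.card V + 1 : ℝ) / 2 ^ κ) := by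
    refine (Pr_exists_univ _ fun j => ?_).trans (by rw [Fintype.card_fin])
    exact (Pr_equiv (Equiv.mulRight (M j)) fun π => κ < #(iorbs π)).le.trans (Pr_orbs κ)
  have p2 : Pr (fun σ : Perm V => ∃ j, ∃ a ∈ Z j, Short (σ * M j) L a) ≤
      4 * k * s * L / (Fintype.card V : ℝ) := by
    refine (Pr_exists_univ (δ := 2 * s * (2 * L / (Fintype.card V : ℝ))) _ fun j => ?_).trans
      (by rw [Fintype.card_fin]; exact le_of_eq (by ring))
    refine (Pr_exists_le' _ _ fun a _ => (h V (M j) (M j) L a h4).1).trans ?_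
    have : (#(Z j) : ℝ) ≤ 2 * s := by exact_mod_cast hZ j
    gcongr
  have p3 : Pr (fun σ : Perm V => ∃ x : Fin k × Fin k × V, x.1 ≠ x.2.1 ∧
      Short (σ * M x.1) L x.2.2 ∧ Short (σ * M x.2.1) L x.2.2) ≤
      8 * k ^ 2 * (L : ℝ) ^ 2 / (Fintype.card V : ℝ) := by
    refine (Pr_exists_univ (δ := 8 * (L : ℝ) ^ 2 / (Fintype.card V : ℝ) ^ 2) _ fun x => ?_).trans
      (le_of_eq ?_)
    · by_cases hx : x.1 = x.2.1
      · rw [Pr_false fun σ hσ => hσ.1 hx]; positivity
      · exact (Pr_mono fun σ hσ => hσ.2).trans ((h V _ _ L x.2.2 h4).2 (hM _ _ hx))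
    · simp only [Fintype.card_prod, Fintype.card_fin]
      push_cast
      rcases eq_or_ne (Fintype.card V : ℝ) 0 with h0 | h0
      · simp [h0]
      · field_simp
  refine (Pr_le_add (E₁ := fun σ : Perm V => (∃ j, κ < #(iorbs (σ * M j))) ∨
      ∃ j, ∃ a ∈ Z j, Short (σ * M j) L a) (fun σ hσ => ?_)).trans
    (add_le_add ((Pr_or_le _ _).trans (add_le_add p1 p2)) p3)
  by_contra hc
  simp only [not_or, not_exists, not_and, not_lt] at hc
  obtain ⟨⟨c1, c2⟩, c3⟩ := hc
  obtain ⟨An, g1, g2, g3⟩ := exists_igood (π := fun j => σ * M j) hZ hL c1 c2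
    fun j j' a ha ha' => by_contra fun hne => c3 (j, j', a) hne ha ha'
  refine hσ ⟨An, ⟨fun j S hS hcl _ => g3 j S hS hcl, fun q hq hz => ?_, fun q hq hz => ?_,
    g1.tinj, g1.hinj⟩, g2⟩
  · exact g1.fresh q hq (mem_union_left _ hz)
  · obtain ⟨y, hy, e⟩ := mem_image.1 hz
    rw [Perm.mul_apply] at e
    refine g1.fresh q hq (mem_union_right _ (mem_image.2 ⟨y, hy, ?_⟩))
    rw [σ.injective e]
    simp

end Pool.Agent.P.MP_de899d_pr
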