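import Pool.Agent.P.MP_de899d_pr.Defs

/-! Probabilities of the density properties. -/

set_option linter.unusedSectionVars false

namespace Pool.Agent.P.MP_de899d_pr
open Finset

section
variable {V A : Type} [Fintype V] [DecidableEq V] [Fintype A] [Nonempty A]

theorem eN_eq_cnt (P : A → Prop) (U : V × V → A) (X Z : Finset V) :
    eN (fun e => P (U e)) X Z = cnt (X ×ˢ Z) (fun _ => P) U := by
  unfold eN cnt
  congr

theorem eN_empty (G : V × V → Prop) (Z : Finset V) : eN G ∅ Z = 0 := by simp [eN]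

theorem sum_mean (P : A → Prop) (X Z : Finset V) :
    ∑ _i ∈ X ×ˢ Z, Pr P = Pr P * #X * #Z := by
  simp [card_product]; ring

theorem eN_upper (P : A → Prop) (X Z : Finset V) {θ m : ℝ} (hθ : 1 ≤ θ) :
    Pr (fun U : V × V → A => m ≤ eN (fun e => P (U e)) X Z) ≤
      Real.exp (θ * (Pr P * #X * #Z)) / θ ^ m := by
  simp only [eN_eq_cnt]
  exact Pr_upper (X ×ˢ Z) (fun _ => P) hθ (sum_mean P X Z).le

theorem card_small (v : ℕ) {r : ℝ} (hr : 0 < r) (hr1 : r ≤ 1) :
    (#((univ : Finset (Finset V)).filter fun Z => #Z ≤ v) : ℝ) ≤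
      Real.exp (r * Fintype.card V) / r ^ v := by
  rw [le_div_iff₀ (by positivity)]
  have h1 : (#((univ : Finset (Finset V)).filter fun Z => #Z ≤ v) : ℝ) * r ^ v ≤
      ∑ Z ∈ (univ : Finset (Finset V)).filter fun Z => #Z ≤ v, r ^ #Z := by
    rw [← nsmul_eq_mul]
    exact card_nsmul_le_sum _ _ _ fun Z hZ =>
      pow_le_pow_of_le_one hr.le hr1 (mem_filter.1 hZ).2
  have h2 : ∑ Z ∈ (univ : Finset (Finset V)).filter (fun Z => #Z ≤ v), r ^ #Z ≤
      ∑ Z : Finset V, r ^ #Z :=
    sum_le_sum_of_subset_of_nonneg (filter_subset _ _) fun _ _ _ => by positivity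
  have h3 : ∑ Z : Finset V, r ^ #Z = (1 + r) ^ Fintype.card V := by
    have := Finset.prod_one_add (f := fun _ : V => r) (univ : Finset V)
    simp only [prod_const, card_univ, powerset_univ] at this
    exact this.symm
  have h4 : (1 + r) ^ Fintype.card V ≤ Real.exp (r * Fintype.card V) := by
    rw [mul_comm, Real.exp_nat_mul]
    exact pow_le_pow_left₀ (by positivity) (by linarith [Real.add_one_le_exp r]) _
  linarith

theorem exp_two_le : Real.exp 2 ≤ 9 := by
  have h := Real.exp_one_lt_d9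
  have h0 := Real.exp_pos 1
  have : Real.exp 2 = Real.exp 1 * Real.exp 1 := by rw [← Real.exp_add]; norm_num
  nlinarith

theorem stat_PC (P : A → Prop) (μ s : ℕ) (t : ℝ) (ht : 1 ≤ t) (hn : (Fintype.card V : ℝ) = t ^ 100)
    (hμ : 101 ≤ μ) (hp : 2 * s * Pr P * t ^ 60 ≤ 1) :
    Pr (fun U : V × V → A => ¬ PC (fun e => P (U e)) μ s) ≤ (s + 1) * (2 * s + 1) / t ^ 900 := by
  have hp0 := Pr_nonneg P
  have ht0 : 0 < t := by linarith
  have key : ∀ q ∈ range (s + 1) ×ˢ range (2 * s + 1), Pr (fun U : V × V → A =>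
      ∃ R ∈ powersetCard q.1 (univ : Finset V) ×ˢ powersetCard q.2 (univ : Finset V),
        1 ≤ q.1 ∧ ((max (2 * q.2) (100 * q.1) : ℕ) : ℝ) ≤ eN (fun e => P (U e)) R.1 R.2) ≤
        1 / t ^ 900 := by
    rintro ⟨x, z⟩ hq
    simp only [mem_product, mem_range] at hq
    by_cases hx : 1 ≤ x
    swap
    · rw [Pr_false (fun U h => by obtain ⟨_, _, h, _⟩ := h; exact hx h)]; positivity
    set E := max (2 * z) (100 * x) with hE
    have hE1 : 2 * z ≤ E := le_max_left _ _
    have hE2 : 100 * x ≤ E := le_max_right _ _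
    refine (Pr_exists_le' _ _ (δ := 1 / t ^ (60 * E)) ?_).trans ?_
    · rintro ⟨X, Z⟩ hR
      simp only [mem_product, mem_powersetCard] at hR
      have h60 : 1 ≤ t ^ 60 := one_le_pow₀ ht
      refine (Pr_mono fun U h => h.2).trans ((eN_upper P X Z (θ := 2 * t ^ 60)
        (by linarith)).trans ?_)
      rw [hR.1.2, hR.2.2, Real.rpow_natCast, mul_pow, ← pow_mul, div_le_div_iff₀ (by positivity)
        (by positivity), one_mul]
      refine mul_le_mul_of_nonneg_right ?_ (by positivity)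
      have hxs : (x : ℝ) ≤ s := by exact_mod_cast Nat.lt_succ_iff.1 hq.1
      have hz : (2 * z : ℝ) ≤ E := by exact_mod_cast hE1
      have h1 : 2 * t ^ 60 * (Pr P * x * z) ≤ E * (1 / 2) := by
        have h2 : 2 * t ^ 60 * (Pr P * x) ≤ 1 := by
          have : Pr P * x ≤ Pr P * s := mul_le_mul_of_nonneg_left hxs hp0
          nlinarith
        have h3 : (0 : ℝ) ≤ z := Nat.cast_nonneg _
        nlinarith
      refine (Real.exp_le_exp.2 h1).trans ?_
      rw [Real.exp_nat_mul]
      refine pow_le_pow_left₀ (Real.exp_pos _).le ?_ _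
      have h := Real.exp_one_lt_d9
      have h0 := Real.exp_pos (1 / 2)
      have : Real.exp 1 = Real.exp (1 / 2) * Real.exp (1 / 2) := by rw [← Real.exp_add]; norm_num
      nlinarith
    · rw [card_product, card_powersetCard, card_powersetCard, card_univ, mul_one_div,
        div_le_div_iff₀ (by positivity) (by positivity), one_mul]
      have h1 : ∀ k : ℕ, ((Fintype.card V).choose k : ℝ) ≤ t ^ (100 * k) := fun k => by
        rw [pow_mul, ← hn]; exact_mod_cast Nat.choose_le_pow _ _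
      push_cast
      calc _ ≤ t ^ (100 * x) * t ^ (100 * z) * t ^ 900 := by gcongr <;> apply h1
        _ = t ^ (100 * x + 100 * z + 900) := by rw [pow_add, pow_add]
        _ ≤ _ := pow_le_pow_right₀ ht (by omega)
  refine le_trans (Pr_mono ?_) ((Pr_exists_le' _ _ key).trans (le_of_eq ?_))
  · intro U hU
    unfold PC at hU
    push Not at hU
    obtain ⟨X, Z, h1, h2, h3, h4⟩ := hU
    have hx : 1 ≤ #X := by
      rw [one_le_card, nonempty_iff_ne_empty]
      rintro rfl
      simp [eN_empty] at h4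
    refine ⟨(#X, #Z), by simp; omega, (X, Z), by simp, hx, ?_⟩
    have h5 : 100 * #X ≤ (μ - 1) * #X := Nat.mul_le_mul_right _ (by omega)
    exact_mod_cast max_le h3 (by omega)
  · simp [card_product, div_eq_mul_inv]

theorem stat_PD (P : A → Prop) (a μ w : ℕ) (C : ℝ) (hC : 1 ≤ C)
    (hp : 12 * (Pr P * Fintype.card V) ≤ C * a) (hw : 9 * C * w ≤ Fintype.card V) (hμ : 6 ≤ μ)
    (hξ : (9 * C) ^ 3 * Real.exp (3 - μ / 2) ≤ 1 / 2) :
    Pr (fun U : V × V → A => ¬ PD (fun e => P (U e)) a μ w) ≤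
      2 * ((9 * C) ^ 3 * Real.exp (3 - μ / 2)) := by
  have hp0 := Pr_nonneg P
  set ξ := (9 * C) ^ 3 * Real.exp (3 - μ / 2) with hξd
  have hξ0 : 0 < ξ := by positivity
  have key : ∀ i ∈ range w, Pr (fun U : V × V → A =>
      ∃ R ∈ ((univ : Finset (Finset V)).filter fun Z => #Z ≤ i + 1) ×ˢ
        ((univ : Finset (Finset V)).filter fun Z => #Z ≤ 2 * (i + 1)), #R.1 = i + 1 ∧
        (max (μ * ((i + 1 : ℕ) : ℝ) / 2) (a * #R.2 / 4)) ≤ eN (fun e => P (U e)) R.1 R.2) ≤
        ξ ^ (i + 1) := by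
    intro i hi
    obtain ⟨x, hx⟩ : ∃ x, x = i + 1 := ⟨_, rfl⟩
    rw [← hx]
    have hx1 : (1 : ℝ) ≤ x := by exact_mod_cast (by omega : 1 ≤ x)
    have hxw : (x : ℝ) ≤ w := by exact_mod_cast (by have := mem_range.1 hi; omega : x ≤ w)
    set n : ℝ := (Fintype.card V : ℝ) with hnd
    have hCx : 9 * C * x ≤ n := le_trans (by gcongr) hw
    have hCx0 : 0 < C * x := by positivity
    have hn0 : 0 < n := by nlinarith
    obtain ⟨θ, hθ⟩ : ∃ θ, θ = n / (C * x) := ⟨_, rfl⟩
    have hθ9 : 9 ≤ θ := by rw [hθ, le_div_iff₀ hCx0]; linarith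
    have hE4 : ∀ z : ℝ, θ * (Pr P * x * z) = (Pr P * n) / C * z := by
      intro z; rw [hθ]; field_simp
    have e2' : (x : ℝ) / n = (C * θ)⁻¹ := by rw [hθ]; field_simp
    obtain ⟨L, hL⟩ : ∃ L, L = Real.log θ := ⟨_, rfl⟩
    have hL2 : 2 ≤ L := by
      rw [hL, Real.le_log_iff_exp_le (by linarith)]; linarith [exp_two_le]
    have hθL : θ = Real.exp L := by rw [hL, Real.exp_log (by linarith)]
    have hμ' : (6 : ℝ) ≤ μ := by exact_mod_cast hμ
    refine (Pr_exists_le' _ _ (δ := Real.exp (-((L - 1) * (μ * x / 2)))) ?_).trans ?_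
    · rintro ⟨X, Z⟩ hR
      by_cases hX : #X = x
      swap
      · rw [Pr_false (fun U h => hX h.1)]; positivity
      refine (Pr_mono fun U h => h.2).trans ((eN_upper P X Z (θ := θ) (by linarith)).trans ?_)
      set e0 := max (μ * (x : ℝ) / 2) (a * #Z / 4) with he0
      have h1 : μ * (x : ℝ) / 2 ≤ e0 := le_max_left _ _
      have h2 : a * (#Z : ℝ) / 4 ≤ e0 := le_max_right _ _
      have h3 : θ * (Pr P * #X * #Z) ≤ e0 := by
        have h4 : θ * (Pr P * #X * #Z) = (Pr P * n) / C * #Z := by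
          rw [hX, hE4]
        have h5 : (Pr P * n) / C ≤ a / 12 := by
          rw [div_le_div_iff₀ (by linarith) (by norm_num)]; linarith
        have h6 : (0 : ℝ) ≤ #Z := Nat.cast_nonneg _
        have h7 : (0 : ℝ) ≤ a := Nat.cast_nonneg _
        rw [h4]
        nlinarith [mul_le_mul_of_nonneg_right h5 h6, mul_nonneg h7 h6]
      rw [Real.rpow_def_of_pos (by linarith), ← hL, ← Real.exp_sub]
      refine Real.exp_le_exp.2 ?_
      nlinarith [mul_le_mul_of_nonneg_left h1 (by linarith : 0 ≤ L - 1)]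
    · have hr : 0 < (x : ℝ) / n := by positivity
      have hr1 : (x : ℝ) / n ≤ 1 := by rw [div_le_one hn0]; nlinarith
      have c1 := card_small (V := V) x hr hr1
      have c2 := card_small (V := V) (2 * x) hr hr1
      have e1 : (x : ℝ) / n * n = x := div_mul_cancel₀ _ hn0.ne'
      have e2 : (x : ℝ) / n = (C * Real.exp L)⁻¹ := by rw [← hθL, e2']
      rw [← hnd, e1, e2, inv_pow, div_inv_eq_mul] at c1 c2
      rw [card_product]
      push_cast
      calc _ ≤ (Real.exp x * (C * Real.exp L) ^ x) * (Real.exp x * (C * Real.exp L) ^ (2 * x)) *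
            Real.exp (-((L - 1) * (μ * x / 2))) :=
            mul_le_mul_of_nonneg_right (mul_le_mul c1 c2 (Nat.cast_nonneg _) (by positivity))
              (Real.exp_pos _).le
        _ = (C ^ 3 * Real.exp (2 + 3 * L - (L - 1) * (μ / 2))) ^ x := by
          simp only [mul_pow, ← Real.exp_nat_mul, ← pow_mul]
          have : ((x : ℝ) * (2 + 3 * L - (L - 1) * (μ / 2))) =
              x + x * L + x + ((2 * x : ℕ) : ℝ) * L + -((L - 1) * (μ * x / 2)) := by
            push_cast; ring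
          rw [this]
          simp only [Real.exp_add]
          ring
        _ ≤ ξ ^ x := by
          refine pow_le_pow_left₀ (by positivity) ?_ _
          rw [hξd, mul_pow, mul_comm ((9 : ℝ) ^ 3), mul_assoc]
          refine mul_le_mul_of_nonneg_left ?_ (by positivity)
          have h8 : Real.exp 2 ^ 3 ≤ 9 ^ 3 := pow_le_pow_left₀ (Real.exp_pos _).le exp_two_le _
          refine le_trans ?_ (mul_le_mul_of_nonneg_right h8 (Real.exp_pos _).le)
          rw [← Real.exp_nat_mul, ← Real.exp_add]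
          refine Real.exp_le_exp.2 ?_
          push_cast
          nlinarith [mul_nonneg (by linarith : 0 ≤ L - 2) (by linarith : (0 : ℝ) ≤ μ / 2 - 3)]
  refine le_trans (Pr_mono ?_) ((Pr_exists_le _ _).trans ((sum_le_sum key).trans ?_))
  · intro U hU
    unfold PD at hU
    push Not at hU
    obtain ⟨X, Z, h1, h2, h3, h4⟩ := hU
    have hx : 1 ≤ #X := by
      rw [one_le_card, nonempty_iff_ne_empty]
      rintro rfl
      simp [eN_empty] at h3
    have e : #X - 1 + 1 = #X := by omega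
    refine ⟨#X - 1, by simp; omega, (X, Z), by simp [e, h2], e.symm, ?_⟩
    rw [e]
    have h3' : ((μ * #X : ℕ) : ℝ) ≤ (2 * eN (fun e => P (U e)) X Z : ℕ) := by exact_mod_cast h3.le
    have h4' : ((a * #Z : ℕ) : ℝ) ≤ (4 * eN (fun e => P (U e)) X Z : ℕ) := by exact_mod_cast h4.le
    push_cast at h3' h4'
    exact max_le (by linarith) (by linarith)
  · have : ∀ m : ℕ, ∑ i ∈ range m, ξ ^ (i + 1) + 2 * ξ ^ (m + 1) ≤ 2 * ξ := by
      intro m
      induction m with
      | zero => simp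
      | succ m ih =>
        rw [sum_range_succ, pow_succ ξ (m + 1)]
        nlinarith [pow_pos hξ0 (m + 1)]
    linarith [this w, pow_pos hξ0 (w + 1)]

theorem stat_PE (P : A → Prop) (μ w K : ℕ) (hp : 0 < Pr P)
    (hK : (K : ℝ) + μ ≤ Pr P * Fintype.card V) :
    Pr (fun U : V × V → A => ¬ PE (fun e => P (U e)) K w) ≤
      4 ^ Fintype.card V * Real.exp (-(μ ^ 2 * w ^ 2 / (2 * Pr P * (Fintype.card V : ℝ) ^ 2))) := by
  set n : ℝ := (Fintype.card V : ℝ) with hnd
  have key : ∀ R : Finset V × Finset V, Pr (fun U : V × V → A => w < #R.1 ∧ w < #R.2 ∧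
      Fintype.card V * eN (fun e => P (U e)) R.1 R.2 < K * (#R.1 * #R.2)) ≤
      Real.exp (-(μ ^ 2 * w ^ 2 / (2 * Pr P * n ^ 2))) := by
    rintro ⟨X, Y⟩
    by_cases h : w < #X ∧ w < #Y
    swap
    · rw [Pr_false (fun U h' => h ⟨h'.1, h'.2.1⟩)]; positivity
    have hx : (w : ℝ) < #X := by exact_mod_cast h.1
    have hy : (w : ℝ) < #Y := by exact_mod_cast h.2
    have hw0 : (0 : ℝ) ≤ w := Nat.cast_nonneg _
    have hn0 : 0 < n := by
      have : (#X : ℝ) ≤ n := by rw [hnd]; exact_mod_cast card_le_univ X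
      linarith
    have hx0 : (0 : ℝ) < #X := by linarith
    have hy0 : (0 : ℝ) < #Y := by linarith
    have := Pr_lower_gauss (X ×ˢ Y) (fun _ => P) (D := μ * #X * #Y / n) (μ := Pr P * #X * #Y)
      (by positivity) (by positivity) (sum_mean P X Y).ge
    refine (Pr_mono fun U hU => ?_).trans (this.trans (Real.exp_le_exp.2 ?_))
    · have h1 : ((Fintype.card V * eN (fun e => P (U e)) X Y : ℕ) : ℝ) ≤ (K * (#X * #Y) : ℕ) := by
        exact_mod_cast hU.2.2.le
      rw [eN_eq_cnt] at h1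
      push_cast at h1
      rw [le_sub_iff_add_le, ← le_sub_iff_add_le', div_le_iff₀ hn0]
      nlinarith [mul_le_mul_of_nonneg_right hK (mul_pos hx0 hy0).le]
    · rw [neg_le_neg_iff]
      have : (μ * #X * #Y / n) ^ 2 / (2 * (Pr P * #X * #Y)) =
          μ ^ 2 * (#X * #Y) / (2 * Pr P * n ^ 2) := by field_simp
      rw [this]
      gcongr
      nlinarith
  refine le_trans (Pr_mono ?_) ((Pr_exists_univ _ key).trans (le_of_eq ?_))
  · intro U hU
    unfold PE at hU
    push Not at hU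
    obtain ⟨X, Y, h⟩ := hU
    exact ⟨(X, Y), h⟩
  · rw [Fintype.card_prod, Fintype.card_finset]
    push_cast
    rw [← mul_pow]
    norm_num

end

theorem stat2 : S_STAT2 := fun _ _ _ _ _ _ P a μ s w K x C =>
  ⟨stat_PC P μ s x, stat_PD P a μ w C, stat_PE P μ w K⟩

end Pool.Agent.P.MP_de899d_pr
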