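import Pool.Agent.P.MP_de899d_pr.Couple
import Pool.Agent.P.MP_de899d_pr.Stat1
import Pool.Agent.P.MP_de899d_pr.Stat2

/-! Numerical estimates: parameters, the degree threshold and the static events. -/

set_option linter.unusedSectionVars false
set_option linter.unusedVariables false

namespace Pool.Agent.P.MP_de899d_pr
open Finset Equiv

/-- The parameters: `n = x ^ 100`, `l = log n`, average degree `d`, `y = √(d l)`, slack `lam`. -/
structure Par (n x l y : ℝ) (d lam : ℕ) : Prop where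
  hn : n = x ^ 100
  hx : 10 ^ 9 ≤ x
  hl : Real.exp l = x ^ 100
  hlx : 4 * l ≤ x
  hl0 : 10 ^ 50 ≤ l
  hld : 9 * l ≤ 10 * d
  hlog : 10 ^ 20 ≤ Real.log d
  hd : (d : ℝ) ≤ x ^ 2
  hy0 : 0 ≤ y
  hy : y ^ 2 = d * l
  h1 : 10 ^ 6 * (lam : ℝ) ≤ y
  h2 : y ≤ 2 * 10 ^ 6 * lam

namespace Par
variable {n x l y : ℝ} {d lam : ℕ} (h : Par n x l y d lam)
include h

theorem x1 : 1 ≤ x := le_trans (by norm_num) h.hx
theorem x0 : 0 < x := lt_of_lt_of_le one_pos h.x1
theorem n0 : 0 < n := by rw [h.hn]; exact pow_pos h.x0 _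
theorem pw {i j : ℕ} (hij : i ≤ j) : x ^ i ≤ x ^ j := pow_le_pow_right₀ h.x1 hij
theorem cpw {c : ℝ} {i j : ℕ} (hc : c ≤ 10 ^ 9) (hij : i < j) : c * x ^ i ≤ x ^ j := by
  refine le_trans ?_ (h.pw (Nat.succ_le_of_lt hij))
  rw [pow_succ, mul_comm]
  exact mul_le_mul_of_nonneg_left (hc.trans h.hx) (pow_pos h.x0 _).le
theorem d0 : (10 : ℝ) ^ 49 ≤ d := by linarith [h.hl0, h.hld]
theorem yd : y ≤ 2 * d := by
  refine (abs_le_of_sq_le_sq' ?_ (by positivity)).2
  rw [h.hy]; nlinarith [h.hld, h.d0]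
theorem ly : 9 * l ≤ 10 * y := by
  refine (abs_le_of_sq_le_sq' ?_ (by linarith [h.hy0])).2
  rw [mul_pow, mul_pow, h.hy]; nlinarith [h.hld, h.hl0]
theorem lam0 : (10 : ℝ) ^ 43 ≤ lam := by linarith [h.ly, h.h2, h.hl0]
theorem lamd : 500000 * (lam : ℝ) ≤ d := by linarith [h.yd, h.h1]
theorem sq : 64 * Real.sqrt d ≤ lam := by
  refine (abs_le_of_sq_le_sq' ?_ (Nat.cast_nonneg _)).2
  rw [mul_pow, Real.sq_sqrt (Nat.cast_nonneg _)]
  have h3 : y ^ 2 ≤ (2 * 10 ^ 6 * lam) ^ 2 := pow_le_pow_left₀ h.hy0 h.h2 2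
  rw [h.hy] at h3
  nlinarith [h.hl0, h.d0]
theorem d1 : (d : ℝ) + 1 ≤ 2 * x ^ 2 := by linarith [h.hd, h.d0]
theorem expl {c : ℝ} {i : ℕ} (hc : (i : ℝ) ≤ 100 * c) : Real.exp (-(c * l)) ≤ 1 / x ^ i := by
  have h3 : Real.exp (l / 100) = x := by
    have := h.hl
    rw [show l = (100 : ℕ) * (l / 100) by push_cast; ring, Real.exp_nat_mul] at this
    exact (pow_left_inj₀ (Real.exp_pos _).le h.x0.le (by norm_num)).mp this
  rw [← h3, ← Real.exp_nat_mul, one_div, ← Real.exp_neg]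
  exact Real.exp_le_exp.mpr (by nlinarith [h.hl0])
theorem expl' {c : ℝ} {i : ℕ} (hc : 100 * c ≤ i) : 1 / x ^ i ≤ Real.exp (-(c * l)) := by
  have h3 : Real.exp (l / 100) = x := by
    have := h.hl
    rw [show l = (100 : ℕ) * (l / 100) by push_cast; ring, Real.exp_nat_mul] at this
    exact (pow_left_inj₀ (Real.exp_pos _).le h.x0.le (by norm_num)).mp this
  rw [← h3, ← Real.exp_nat_mul, one_div, ← Real.exp_neg]
  exact Real.exp_le_exp.mpr (by nlinarith [h.hl0])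
theorem expd {z : ℝ} (hz : Real.sqrt d ≤ z) : 10 ^ 20 * (d : ℝ) ^ 6 * Real.exp (-z) ≤ 1 := by
  have h3 := Real.pow_div_factorial_le_exp _ (Real.sqrt_nonneg d) 14
  have h4 : Real.sqrt d ^ 14 = (d : ℝ) ^ 7 := by
    rw [show 14 = 2 * 7 by norm_num, pow_mul, Real.sq_sqrt (Nat.cast_nonneg _)]
  rw [h4, show ((Nat.factorial 14 : ℕ) : ℝ) = 87178291200 by norm_num [Nat.factorial]] at h3
  rw [Real.exp_neg, ← div_eq_mul_inv, div_le_one (Real.exp_pos _)]
  refine le_trans ?_ (h3.trans (Real.exp_le_exp.mpr hz))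
  have := h.d0
  have h5 : (0 : ℝ) ≤ d ^ 6 := by positivity
  rw [le_div_iff₀ (by norm_num), pow_succ (d : ℝ) 6]
  nlinarith
end Par

variable {V A : Type} [Fintype V] [DecidableEq V] [Fintype A] [Nonempty A]

theorem threshold {x l y : ℝ} {d lam : ℕ} (h : Par (Fintype.card V) x l y d lam) (P : A → Prop)
    (hP : Pr P * Fintype.card V = d + 1) :
    ∃ a : ℕ, (d : ℝ) / 200 + (5 * lam + 4) ≤ a ∧ a ≤ d + 1 ∧
      Pr (fun ω : V → A => cnt univ (fun _ => P) ω ≤ a) ≤ 1 / (2 * x ^ 80) ∧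
      1 / x ^ 85 ≤ Pr (fun ω : V → A => cnt univ (fun _ => P) ω + (5 * lam + 4) ≤ a) := by
  have x0 := h.x0
  have d0 := h.d0
  have l0 := h.hl0
  have hld := h.lamd
  have hsum : (d : ℝ) + 1 ≤ ∑ i ∈ (univ : Finset V), Pr ((fun _ => P) i) := by
    rw [sum_const, card_univ, nsmul_eq_mul, mul_comm, hP]
  obtain ⟨b, b1, b2, b3, b4⟩ : ∃ b : ℕ, (d : ℝ) / 100 - 1 ≤ b ∧ d - 3 * y - 1 ≤ b ∧ (b : ℝ) ≤ d ∧
      Pr (fun ω : V → A => cnt univ (fun _ => P) ω ≤ b) ≤ 1 / (2 * x ^ 80) / 2 := by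
    have e4 : 1 / x ^ 81 ≤ 1 / (2 * x ^ 80) / 2 := by
      rw [div_div, mul_right_comm]
      exact one_div_le_one_div_of_le (by positivity) (h.cpw (by norm_num) (by norm_num))
    by_cases hc : d - 3 * y ≤ (d : ℝ) / 100
    · have f1 := Nat.floor_le (a := (d : ℝ) / 100) (by positivity)
      have f2 := Nat.lt_floor_add_one ((d : ℝ) / 100)
      refine ⟨⌊(d : ℝ) / 100⌋₊, by linarith, by linarith, by linarith, ?_⟩
      refine le_trans (Pr_mono fun ω hω => ?_) ((Pr_lower univ _ (h := 3) (m := d / 100)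
        (by norm_num) hsum).trans (le_trans ?_ ((h.expl (c := 0.81) (by norm_num)).trans e4)))
      · exact le_trans (by exact_mod_cast hω) f1
      · have e3 : Real.exp (-3) ≤ 1 / 20 := by
          rw [Real.exp_neg, inv_le_comm₀ (Real.exp_pos 3) (by norm_num),
            show (3 : ℝ) = (3 : ℕ) * 1 by norm_num, Real.exp_nat_mul]
          refine le_trans (by norm_num) (pow_le_pow_left₀ (by norm_num) Real.exp_one_gt_d9.le 3)
        exact Real.exp_le_exp.mpr (by nlinarith [h.hld])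
    · have f1 := Nat.floor_le (a := (d : ℝ) - 3 * y) (by linarith)
      have f2 := Nat.lt_floor_add_one ((d : ℝ) - 3 * y)
      refine ⟨⌊(d : ℝ) - 3 * y⌋₊, by linarith, by linarith, by linarith [h.hy0], ?_⟩
      refine le_trans (Pr_mono fun ω hω => ?_) ((Pr_lower_gauss univ _ (D := 3 * y + 1)
        (by linarith [h.hy0]) (by positivity) hsum).trans
        (le_trans ?_ ((h.expl (c := 1) (by norm_num)).trans e4)))
      · exact le_trans (by exact_mod_cast hω) (f1.trans (by linarith))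
      · refine Real.exp_le_exp.mpr (neg_le_neg ?_)
        rw [le_div_iff₀ (by positivity)]
        nlinarith [h.hy, h.hy0]
  have hn := h.n0
  have hp : Pr P = (d + 1) / Fintype.card V := by rw [← hP]; field_simp
  have hp2 : Pr P * (d + 1) ≤ 1 := by
    rw [hp, div_mul_eq_mul_div, div_le_one hn, h.hn]
    refine le_trans ?_ (h.cpw (c := 4) (i := 4) (by norm_num) (by norm_num))
    nlinarith [h.d1]
  have hp0 : 0 < Pr P := by rw [hp]; positivity
  have hJ : 5 * lam + 4 ≤ b := by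
    have : ((5 * lam + 4 : ℕ) : ℝ) ≤ b := by push_cast; linarith
    exact_mod_cast this
  have hz : 0 ≤ 1600 * y / d := by have := h.hy0; positivity
  obtain ⟨a, a1, a2, a3, a4⟩ := binom V A P b (5 * lam + 4) (1 / (2 * x ^ 80))
    (Real.exp (-(1600 * y / d))) hp0 (by positivity) (by
      rw [hP, div_mul_eq_mul_div, div_lt_one (by positivity)]
      have := h.cpw (c := 2) (i := 2) (j := 80) (by norm_num) (by norm_num)
      have : 0 < x ^ 80 := by positivity
      linarith [h.hd]) hJ (Real.exp_pos _).le (Real.exp_le_one_iff.mpr (by linarith)) (by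
      rw [hP]
      push_cast
      set w := ((b : ℝ) - (5 * lam + 4)) * (1 - Pr P) with hw
      have w1 : (d : ℝ) / 400 ≤ w := by nlinarith
      have w2 : (d : ℝ) + 1 - w ≤ 4 * y := by nlinarith [h.ly, h.h1]
      have w3 : 4 * y ≤ w * (1600 * y / d) := by
        rw [mul_div_assoc', le_div_iff₀ (by positivity)]
        nlinarith [h.hy0]
      rw [Real.exp_neg, inv_mul_le_iff₀ (Real.exp_pos _)]
      nlinarith [Real.add_one_le_exp (1600 * y / d)]) b4
  have a1' : (b : ℝ) ≤ a := by exact_mod_cast a1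
  rw [hP] at a2
  refine ⟨a, by linarith, by exact_mod_cast a2, a3, le_trans ?_ a4⟩
  have e5 : 1 / x ^ 2 ≤ Real.exp (-(1600 * y / d)) ^ (5 * lam + 4 + 1) := by
    refine (h.expl' (c := 0.016) (by norm_num)).trans ?_
    rw [← Real.exp_nat_mul]
    refine Real.exp_le_exp.mpr ?_
    push_cast
    have : (5 * (lam : ℝ) + 4 + 1) * (1600 * y / d) ≤ 0.016 * l := by
      rw [mul_div_assoc', div_le_iff₀ (by positivity)]
      nlinarith [h.hy, h.h1, h.lam0, h.hy0]
    linarith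
  refine le_trans ?_ (mul_le_mul_of_nonneg_left e5 (by positivity))
  rw [div_div, div_mul_div_comm, one_mul]
  refine one_div_le_one_div_of_le (by positivity) ?_
  have e6 : (a : ℝ) + 2 ≤ 2 * x ^ 2 := by linarith [h.hd]
  calc 2 * x ^ 80 * (2 * (a + 2)) * x ^ 2 ≤ 2 * x ^ 80 * (2 * (2 * x ^ 2)) * x ^ 2 := by gcongr
    _ = 8 * x ^ 84 := by ring
    _ ≤ _ := h.cpw (by norm_num) (by norm_num)

theorem static_bound {x l y : ℝ} {d lam : ℕ} (h : Par (Fintype.card V) x l y d lam)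
    (P' P'' : A → Prop) (hPP : ∀ i, P' i → P'' i) (hP' : Pr P' * Fintype.card V = d - lam)
    (hP : Pr P'' * Fintype.card V = d + 1) (a K : ℕ) (ha : (d : ℝ) / 200 ≤ a)
    (hK : (K : ℝ) + lam ≤ d - lam)
    (hq : Pr (fun ω : V → A => cnt univ (fun _ => P') ω ≤ a) ≤ 1 / x ^ 80) :
    Pr (fun U : V × V → A => ¬ Static (fun e => P' (U e)) (fun e => P'' (U e)) a lam ⌈x ^ 25⌉₊
      (Fintype.card V / 43200) K) ≤ 11 / x ^ 5 + 2 / d ^ 2 := by
  have x0 := h.x0
  have d0 := h.d0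
  have hn := h.n0
  have hld := h.lamd
  have l0 := h.lam0
  have s1 : x ^ 25 ≤ ⌈x ^ 25⌉₊ := Nat.le_ceil _
  have s2 : (⌈x ^ 25⌉₊ : ℝ) ≤ 2 * x ^ 25 := by
    linarith [Nat.ceil_lt_add_one (a := x ^ 25) (by positivity), one_le_pow₀ (n := 25) h.x1]
  have hp : Pr P'' = (d + 1) / x ^ 100 := by rw [← hP, h.hn]; field_simp
  have hp' : Pr P' = (d - lam) / x ^ 100 := by rw [← hP', h.hn]; field_simp
  have hp2 : Pr P'' ≤ 2 / x ^ 98 := by
    rw [hp, div_le_div_iff₀ (by positivity) (by positivity)]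
    calc (d + 1 : ℝ) * x ^ 98 ≤ 2 * x ^ 2 * x ^ 98 := by gcongr; exact h.d1
      _ = _ := by ring
  have hp0 := Pr_nonneg P''
  have dv : ∀ (c : ℝ) (i : ℕ), c ≤ 10 ^ 9 → 5 < i → c / x ^ i ≤ 1 / x ^ 5 := fun c i h1 h2 => by
    rw [div_le_div_iff₀ (by positivity) (by positivity), one_mul]
    exact h.cpw h1 h2
  obtain ⟨t1, t2, t3⟩ := stat1 V A P' P'' a ⌈x ^ 25⌉₊ (1 / x ^ 80) hPP (by
    rw [hp', div_le_div_iff₀ (by positivity) (by norm_num)]
    linarith [h.cpw (c := 4) (i := 2) (j := 100) (by norm_num) (by norm_num), h.hd])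
    (Nat.ceil_pos.mpr (by positivity)) hq
  have w1 : 43200 * ((Fintype.card V / 43200 : ℕ) : ℝ) ≤ Fintype.card V := by
    exact_mod_cast Nat.mul_div_le _ _
  have w2 : (Fintype.card V : ℝ) ≤ 86400 * ((Fintype.card V / 43200 : ℕ) : ℝ) := by
    have h1 : (43200 : ℝ) ≤ Fintype.card V := by
      rw [h.hn]; linarith [h.cpw (c := 43200) (i := 0) (j := 100) (by norm_num) (by norm_num)]
    have h2 : 43200 ≤ Fintype.card V := by exact_mod_cast h1
    exact_mod_cast (by omega : Fintype.card V ≤ 86400 * (Fintype.card V / 43200))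
  have hξ : 2 * ((9 * 4800 : ℝ) ^ 3 * Real.exp (3 - lam / 2)) ≤ 1 / d ^ 2 := by
    have h1 := h.expd (z := lam / 2 - 3) (by linarith [h.sq])
    rw [neg_sub] at h1
    rw [le_div_iff₀ (by positivity)]
    have h2 : (d : ℝ) ^ 2 ≤ d ^ 6 := pow_le_pow_right₀ (by linarith) (by norm_num)
    have h3 := Real.exp_pos (3 - lam / 2)
    nlinarith [mul_le_mul_of_nonneg_right h2 h3.le, mul_pos h3 (by positivity : (0 : ℝ) < d ^ 6)]
  obtain ⟨u1, u2, -⟩ := stat2 V A P'' a lam ⌈x ^ 25⌉₊ (Fintype.card V / 43200) K x 4800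
  obtain ⟨-, -, u3⟩ := stat2 V A P' a lam ⌈x ^ 25⌉₊ (Fintype.card V / 43200) K x 4800
  have v1 := t1.trans (show _ ≤ 1 / x ^ 5 by
    rw [h.hn, div_le_div_iff₀ (by linarith [pow_pos x0 25]) (by positivity)]
    refine le_trans (le_of_eq ?_) (by linarith : x ^ 25 ≤ _)
    field_simp)
  have v2 := t2.trans (show _ ≤ 1 / x ^ 5 by
    refine le_trans ?_ (dv 16 56 (by norm_num) (by norm_num))
    rw [h.hn]
    calc _ ≤ (x ^ 100) ^ 3 * (2 * (2 / x ^ 98) * (1 / x ^ 80)) ^ 2 := by gcongr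
      _ = _ := by field_simp; norm_num)
  have v3 := t3.trans (show _ ≤ 1 / x ^ 5 + 1 / x ^ 5 by
    refine le_trans ?_ (add_le_add (dv 64 52 (by norm_num) (by norm_num))
      (dv 32 72 (by norm_num) (by norm_num)))
    rw [h.hn]
    calc _ ≤ (x ^ 100) ^ 5 * (2 / x ^ 98) ^ 2 * (2 * (2 / x ^ 98) * (1 / x ^ 80)) ^ 2 +
        (x ^ 100) ^ 4 * (2 / x ^ 98) ^ 2 * (2 * (2 / x ^ 98) ^ 2 * (1 / x ^ 80)) := by gcongr
      _ = _ := by field_simp; ring)
  have v4 := (u1 h.x1 h.hn (by exact_mod_cast (by linarith : (101 : ℝ) ≤ lam)) (by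
    calc _ ≤ 2 * (2 * x ^ 25) * (2 / x ^ 98) * x ^ 60 := by gcongr
      _ = 8 / x ^ 13 := by field_simp; norm_num
      _ ≤ 1 := by
        rw [div_le_one (by positivity)]
        linarith [h.cpw (c := 8) (i := 0) (j := 13) (by norm_num) (by norm_num)])).trans
    (show _ ≤ 1 / x ^ 5 by
      refine le_trans ?_ (dv 15 850 (by norm_num) (by norm_num))
      have h1 := one_le_pow₀ (n := 25) h.x1
      calc _ ≤ (3 * x ^ 25) * (5 * x ^ 25) / x ^ 900 := by gcongr <;> linarith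
        _ = _ := by field_simp; norm_num)
  have v5 := (u2 (by norm_num) (by rw [hP]; linarith) (by linarith)
    (by exact_mod_cast (by linarith : (6 : ℝ) ≤ lam)) (by
      have : 1 / (d : ℝ) ^ 2 ≤ 1 := by rw [div_le_one (by positivity)]; nlinarith
      linarith)).trans hξ
  have hp'0 : 0 < Pr P' := by rw [hp']; exact div_pos (by linarith) (by positivity)
  have v6 := (u3 hp'0 (by rw [hP']; exact hK)).trans (show _ ≤ 1 / x ^ 5 by
    have h1 : 3 * (Fintype.card V : ℝ) ≤ lam ^ 2 * ((Fintype.card V / 43200 : ℕ) : ℝ) ^ 2 /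
        (2 * Pr P' * (Fintype.card V : ℝ) ^ 2) := by
      rw [le_div_iff₀ (by positivity)]
      have h2 : y ^ 2 ≤ (2 * 10 ^ 6 * lam) ^ 2 := pow_le_pow_left₀ h.hy0 h.h2 2
      have h3 := pow_le_pow_left₀ hn.le w2 2
      rw [h.hy] at h2
      have h4 : 10 ^ 30 * (d : ℝ) ≤ lam ^ 2 := by nlinarith [h.hl0]
      calc _ = 6 * (Pr P' * Fintype.card V) * (Fintype.card V : ℝ) ^ 2 := by ring
        _ ≤ 6 * d * (86400 * ((Fintype.card V / 43200 : ℕ) : ℝ)) ^ 2 := by
          rw [hP']; gcongr; linarith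
        _ = (6 * 86400 ^ 2 * d) * ((Fintype.card V / 43200 : ℕ) : ℝ) ^ 2 := by ring
        _ ≤ _ := by gcongr; linarith
    have h5 : (4 : ℝ) ^ Fintype.card V ≤ Real.exp (2 * Fintype.card V) := by
      rw [mul_comm, Real.exp_nat_mul]
      refine pow_le_pow_left₀ (by norm_num) ?_ _
      have := Real.add_one_le_exp (1 : ℝ)
      rw [show (2 : ℝ) = 1 + 1 by norm_num, Real.exp_add]; nlinarith
    calc _ ≤ Real.exp (2 * Fintype.card V) * Real.exp (-(3 * Fintype.card V)) := by gcongr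
      _ = Real.exp (-(Fintype.card V : ℝ)) := by rw [← Real.exp_add]; ring_nf
      _ ≤ _ := by
        rw [Real.exp_neg, ← one_div]
        refine one_div_le_one_div_of_le (by positivity) ?_
        linarith [Real.add_one_le_exp (Fintype.card V : ℝ), h.hn, h.pw (by norm_num : 5 ≤ 100)])
  have key : Pr (fun U : V × V → A => ¬ (PA (fun e => P' (U e)) a ⌈x ^ 25⌉₊ ∧
      PB1 (fun e => P' (U e)) (fun e => P'' (U e)) a 1 ∧
      PB2 (fun e => P' (U e)) (fun e => P'' (U e)) a ∧ PC (fun e => P'' (U e)) lam ⌈x ^ 25⌉₊ ∧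
      PD (fun e => P'' (U e)) a lam (Fintype.card V / 43200))) ≤ 5 / x ^ 5 + 1 / d ^ 2 := by
    refine le_trans (Pr_le_add fun U hU => not_and_or.mp hU) (le_trans (add_le_add v1
      (le_trans (Pr_le_add fun U hU => not_and_or.mp hU) (add_le_add v2
      (le_trans (Pr_le_add fun U hU => not_and_or.mp hU) (add_le_add v3
      (le_trans (Pr_le_add fun U hU => not_and_or.mp hU) (add_le_add v4 v5)))))))
      (le_of_eq (by ring)))
  refine le_trans (Pr_le_add fun U hU => not_and_or.mp hU) (le_trans (add_le_add key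
    (le_trans (Pr_le_add fun U hU => not_and_or.mp hU) (add_le_add
      ((Pr_tr _).le.trans key) v6))) (le_of_eq (by ring)))

end Pool.Agent.P.MP_de899d_pr
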