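import Pool.Agent.P.MP_de899d_pr.Defs

/-! The last phase: merging long cycles by random 2-switches. -/

set_option linter.unusedSectionVars false

namespace Pool.Agent.P.MP_de899d_pr
open Finset Equiv

section ph3
variable {V A : Type} [Fintype V] [DecidableEq V] [Fintype A] [Nonempty A]

/-- No pair of entries succeeds. -/
theorem ph3_noopt {ι κ : Type} [Fintype ι] [DecidableEq ι] [DecidableEq κ] (Rs : A → Prop)
    (P : Finset κ) (f g : κ → ι) (hf : ∀ p ∈ P, ∀ q ∈ P, f p = f q → p = q)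
    (hg : ∀ p ∈ P, ∀ q ∈ P, g p = g q → p = q) (hfg : ∀ p ∈ P, ∀ q ∈ P, f p ≠ g q) :
    Pr (fun β : ι → A => ∀ p ∈ P, ¬ (Rs (β (f p)) ∧ Rs (β (g p)))) ≤
      Real.exp (-(#P * Pr Rs ^ 2)) := by
  classical
  let e : P × Bool → ι := fun q => if q.2 = true then f q.1 else g q.1
  have he : Function.Injective e := by
    rintro ⟨p, b⟩ ⟨q, c⟩ h
    cases b <;> cases c <;> simp only [e, if_true, Bool.false_eq_true, if_false] at h
    · rw [Subtype.ext (hg _ p.2 _ q.2 h)]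
    · exact absurd h.symm (hfg _ q.2 _ p.2)
    · exact absurd h (hfg _ p.2 _ q.2)
    · rw [Subtype.ext (hf _ p.2 _ q.2 h)]
  let E' : (P → Bool → A) → Prop := fun w => ∀ p ∈ (univ : Finset P), ¬ ∀ b ∈ (univ : Finset Bool), Rs (w p b)
  have h1 := Pr_comp (α := A) e he fun ω => E' fun i k => ω (i, k)
  have h2 := Pr_curry (α := A) E'
  have h3 : Pr E' ≤ Real.exp (-(#P * Pr Rs ^ 2)) := by
    refine Pr_none (α := Bool → A) univ (fun _ w => ∀ b ∈ (univ : Finset Bool), Rs (w b)) ?_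
    have h4 : Pr (fun w : Bool → A => ∀ b ∈ (univ : Finset Bool), Rs (w b)) = Pr Rs ^ 2 := by
      rw [Pr_forall univ fun _ => Rs]
      simp
    simp only [h4]
    simp
  rw [← h2, ← h1] at h3
  refine le_trans (Pr_mono fun β hβ => ?_) h3
  intro p _ hp
  exact hβ p p.2 ⟨by simpa [e] using hp true (mem_univ _), by simpa [e] using hp false (mem_univ _)⟩

theorem ph3_all {ι : Type} [Fintype ι] [DecidableEq ι] (Rs : A → Prop) (S : Finset ι) :
    Pr (fun β : ι → A => ∀ i ∈ S, Rs (β i)) = Pr Rs ^ #S := by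
  rw [Pr_forall S fun _ => Rs]
  simp

/-- A switch of `x` and `y` is available for the `j`-th permutation. -/
def ph3Opt {k : ℕ} (Rs : A → Prop) (π : Fin k → Perm V) (β : V × V → A) (j : Fin k) (x y : V) :
    Prop := Rs (β (x, π j y)) ∧ Rs (β (y, π j x))

/-- Two available switches share a vertex. -/
def ph3Conf {k : ℕ} (Rs : A → Prop) (π : Fin k → Perm V) (β : V × V → A) : Prop :=
  ∃ j j' x y y', x ≠ y ∧ x ≠ y' ∧ (j, y) ≠ (j', y') ∧ ph3Opt Rs π β j x y ∧ ph3Opt Rs π β j' x y'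

theorem ph3_conf {k : ℕ} (Rs : A → Prop) (π : Fin k → Perm V) (hπ : Disj π) :
    Pr (ph3Conf Rs π) ≤ k ^ 2 * Pr Rs ^ 3 * (Fintype.card V : ℝ) ^ 2 +
      k ^ 2 * Pr Rs ^ 4 * (Fintype.card V : ℝ) ^ 3 := by
  classical
  have hρ := Pr_nonneg Rs
  let E1 : (Fin k × Fin k) × V × V → (V × V → A) → Prop := fun t β =>
    ∃ y', t.2.1 ≠ t.2.2 ∧ t.2.1 ≠ y' ∧ t.2.2 ≠ y' ∧ π t.1.1 t.2.2 = π t.1.2 y' ∧
      ph3Opt Rs π β t.1.1 t.2.1 t.2.2 ∧ ph3Opt Rs π β t.1.2 t.2.1 y'
  let E2 : (Fin k × Fin k) × V × V × V → (V × V → A) → Prop := fun t β =>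
    t.2.1 ≠ t.2.2.1 ∧ t.2.1 ≠ t.2.2.2 ∧ (t.1.1, t.2.2.1) ≠ (t.1.2, t.2.2.2) ∧
      π t.1.1 t.2.2.1 ≠ π t.1.2 t.2.2.2 ∧
      ph3Opt Rs π β t.1.1 t.2.1 t.2.2.1 ∧ ph3Opt Rs π β t.1.2 t.2.1 t.2.2.2
  have h1 : ∀ t, Pr (E1 t) ≤ Pr Rs ^ 3 := by
    rintro ⟨⟨j, j'⟩, x, y⟩
    set y' := (π j').symm (π j y) with hy'
    by_cases hd : x ≠ y ∧ x ≠ y' ∧ y ≠ y'
    · have hc : #({(x, π j y), (y, π j x), (y', π j' x)} : Finset (V × V)) = 3 := by
        rw [card_eq_three]
        refine ⟨_, _, _, ?_, ?_, ?_, rfl⟩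
        · exact fun h => hd.1 (congrArg Prod.fst h)
        · exact fun h => hd.2.1 (congrArg Prod.fst h)
        · exact fun h => hd.2.2 (congrArg Prod.fst h)
      rw [← hc, ← ph3_all]
      refine Pr_mono ?_
      rintro β ⟨w, -, -, -, hw, ho, ho'⟩
      have : w = y' := by rw [hy']; exact (Equiv.symm_apply_eq _).mpr hw |>.symm
      subst this
      intro i hi
      simp only [mem_insert, mem_singleton] at hi
      rcases hi with rfl | rfl | rfl
      · exact ho.1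
      · exact ho.2
      · exact ho'.2
    · rw [Pr_false]
      · positivity
      · rintro β ⟨w, h1, h2, h3, hw, -, -⟩
        have : w = y' := by rw [hy']; exact (Equiv.symm_apply_eq _).mpr hw |>.symm
        subst this
        exact hd ⟨h1, h2, h3⟩
  have h2 : ∀ t, Pr (E2 t) ≤ Pr Rs ^ 4 := by
    rintro ⟨⟨j, j'⟩, x, y, y'⟩
    by_cases hd : x ≠ y ∧ x ≠ y' ∧ (j, y) ≠ (j', y') ∧ π j y ≠ π j' y'
    · have hc : #({(x, π j y), (x, π j' y'), (y, π j x), (y', π j' x)} : Finset (V × V)) = 4 := by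
        have a1 : (x, π j y) ≠ (x, π j' y') := fun h => hd.2.2.2 (congrArg Prod.snd h)
        have a2 : (x, π j y) ≠ (y, π j x) := fun h => hd.1 (congrArg Prod.fst h)
        have a3 : (x, π j y) ≠ (y', π j' x) := fun h => hd.2.1 (congrArg Prod.fst h)
        have a4 : (x, π j' y') ≠ (y, π j x) := fun h => hd.1 (congrArg Prod.fst h)
        have a5 : (x, π j' y') ≠ (y', π j' x) := fun h => hd.2.1 (congrArg Prod.fst h)
        have a6 : (y, π j x) ≠ (y', π j' x) := by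
          intro h
          have e1 : y = y' := congrArg Prod.fst h
          have e2 : π j x = π j' x := congrArg Prod.snd h
          by_cases hj : j = j'
          · exact hd.2.2.1 (by rw [hj, e1])
          · exact hπ j j' hj x e2
        rw [card_insert_of_notMem (by simp only [mem_insert, mem_singleton]; tauto),
          card_insert_of_notMem (by simp only [mem_insert, mem_singleton]; tauto),
          card_pair a6]
      rw [← hc, ← ph3_all]
      refine Pr_mono ?_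
      rintro β ⟨-, -, -, -, ho, ho'⟩
      intro i hi
      simp only [mem_insert, mem_singleton] at hi
      rcases hi with rfl | rfl | rfl | rfl
      · exact ho.1
      · exact ho'.1
      · exact ho.2
      · exact ho'.2
    · rw [Pr_false]
      · positivity
      · rintro β ⟨h1, h2, h3, h4, -, -⟩
        exact hd ⟨h1, h2, h3, h4⟩
  have h3 := Pr_exists_univ E1 h1
  have h4 := Pr_exists_univ E2 h2
  simp only [Fintype.card_prod, Fintype.card_fin, Nat.cast_mul] at h3 h4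
  refine (Pr_le_add (E₁ := fun β => ∃ t, E1 t β) (E₂ := fun β => ∃ t, E2 t β) ?_).trans
    (by nlinarith)
  rintro β ⟨j, j', x, y, y', a1, a2, a3, ho, ho'⟩
  by_cases hc : π j y = π j' y'
  · refine Or.inl ⟨((j, j'), x, y), y', a1, a2, ?_, hc, ho, ho'⟩
    intro hy
    have hy : y = y' := hy
    by_cases hj : j = j'
    · exact a3 (by rw [hj, hy])
    · exact hπ j j' hj y (by rw [hc, hy])
  · exact Or.inr ⟨((j, j'), x, y, y'), a1, a2, a3, hc, ho, ho'⟩

open Classical in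
/-- The orbit of a point. -/
noncomputable def ph3Orb (π : Perm V) (z : V) : Finset V := univ.filter fun w => π.SameCycle z w

theorem ph3_mem_orb {π : Perm V} {z w : V} : w ∈ ph3Orb π z ↔ π.SameCycle z w := by
  simp [ph3Orb]

theorem ph3_orb_eq {π : Perm V} {z w : V} (h : π.SameCycle z w) : ph3Orb π z = ph3Orb π w := by
  ext u
  simp only [ph3_mem_orb]
  exact ⟨fun h' => h.symm.trans h', fun h' => h.trans h'⟩

theorem ph3_orb_card {π : Perm V} {n0 : ℕ}
    (h : ∀ S : Finset V, S.Nonempty → Cl π S → n0 < #S) (z : V) : n0 < #(ph3Orb π z) := by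
  refine h _ ⟨z, ph3_mem_orb.mpr (Perm.SameCycle.refl _ _)⟩ fun w hw => ?_
  rw [ph3_mem_orb] at hw ⊢
  exact Perm.sameCycle_apply_right.mpr hw

theorem ph3_orb_num {π : Perm V} {n0 : ℕ} (h0 : 0 < n0)
    (h : ∀ S : Finset V, S.Nonempty → Cl π S → n0 < #S) :
    (#(univ.image (ph3Orb π)) : ℝ) ≤ Fintype.card V / n0 := by
  classical
  have h1 := card_eq_sum_card_image (ph3Orb π) (univ : Finset V)
  have h2 : #(univ.image (ph3Orb π)) * n0 ≤ Fintype.card V := by
    rw [← card_univ, h1, ← smul_eq_mul]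
    refine card_nsmul_le_sum _ _ _ fun O hO => ?_
    obtain ⟨z, -, rfl⟩ := mem_image.mp hO
    refine (ph3_orb_card h z).le.trans (card_le_card fun w hw => ?_)
    rw [mem_filter]
    exact ⟨mem_univ _, (ph3_orb_eq (ph3_mem_orb.mp hw)).symm⟩
  rw [le_div_iff₀ (by exact_mod_cast h0)]
  exact_mod_cast h2

/-- The switch of `x` and `y` uses unexposed rows and columns and avoids the other permutations. -/
def ph3Val {k : ℕ} (π : Fin k → Perm V) (Up Um : Finset V) (j : Fin k) (x y : V) : Prop :=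
  x ∉ Up ∧ π j x ∉ Um ∧ y ∉ Up ∧ π j y ∉ Um ∧ (∀ i, π j y ≠ π i x) ∧ ∀ i, π j x ≠ π i y

open Classical in
/-- The valid pairs between two sets. -/
noncomputable def ph3P {k : ℕ} (π : Fin k → Perm V) (Up Um : Finset V) (j : Fin k)
    (R O : Finset V) : Finset (V × V) := (R ×ˢ O).filter fun p => ph3Val π Up Um j p.1 p.2

theorem ph3_good {σ : Perm V} {Up Um R : Finset V} {n0 : ℕ} (hR : n0 < #R)
    (hU : 2 * (#Up + #Um) ≤ n0) : n0 ≤ 2 * #(R.filter fun x => x ∉ Up ∧ σ x ∉ Um) := by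
  classical
  have h1 : R ⊆ (R.filter fun x => x ∉ Up ∧ σ x ∉ Um) ∪ (Up ∪ Um.image σ.symm) := by
    intro x hx
    simp only [mem_union, mem_filter, mem_image]
    by_cases h1 : x ∈ Up
    · exact Or.inr (Or.inl h1)
    · by_cases h2 : σ x ∈ Um
      · exact Or.inr (Or.inr ⟨σ x, h2, by simp⟩)
      · exact Or.inl ⟨hx, h1, h2⟩
  have h2 := (card_le_card h1).trans (card_union_le _ _)
  have h3 := card_union_le Up (Um.image σ.symm)
  have h4 := card_image_le (s := Um) (f := σ.symm)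
  omega

theorem ph3_P_card {k n0 : ℕ} (π : Fin k → Perm V) {Up Um R O : Finset V} (j : Fin k)
    (hR : n0 < #R) (hO : n0 < #O) (hU : 2 * (#Up + #Um) ≤ n0) (hk : 8 * k ≤ n0) :
    (n0 : ℝ) ^ 2 / 8 ≤ #(ph3P π Up Um j R O) := by
  classical
  set R' := R.filter fun x => x ∉ Up ∧ π j x ∉ Um with hR'
  set O' := O.filter fun x => x ∉ Up ∧ π j x ∉ Um with hO'
  have h1 : n0 ≤ 2 * #R' := ph3_good hR hU
  have h2 : n0 ≤ 2 * #O' := ph3_good hO hU
  let B1 := (R' ×ˢ (univ : Finset (Fin k))).image fun q => (q.1, (π j).symm (π q.2 q.1))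
  let B2 := (O' ×ˢ (univ : Finset (Fin k))).image fun q => ((π j).symm (π q.2 q.1), q.1)
  have h3 : R' ×ˢ O' ⊆ ph3P π Up Um j R O ∪ (B1 ∪ B2) := by
    rintro ⟨x, y⟩ hp
    obtain ⟨hx, hy⟩ := mem_product.mp hp
    have hx' := mem_filter.mp hx
    have hy' := mem_filter.mp hy
    by_cases a1 : ∀ i, π j y ≠ π i x
    · by_cases a2 : ∀ i, π j x ≠ π i y
      · refine mem_union_left _ (mem_filter.mpr ⟨mem_product.mpr ⟨hx'.1, hy'.1⟩, ?_⟩)
        exact ⟨hx'.2.1, hx'.2.2, hy'.2.1, hy'.2.2, a1, a2⟩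
      · push Not at a2
        obtain ⟨i, hi⟩ := a2
        refine mem_union_right _ (mem_union_right _ (mem_image.mpr ⟨(y, i), ?_, ?_⟩))
        · exact mem_product.mpr ⟨hy, mem_univ _⟩
        · simp [← hi]
    · push Not at a1
      obtain ⟨i, hi⟩ := a1
      refine mem_union_right _ (mem_union_left _ (mem_image.mpr ⟨(x, i), ?_, ?_⟩))
      · exact mem_product.mpr ⟨hx, mem_univ _⟩
      · simp [← hi]
  have h4 := (card_le_card h3).trans (card_union_le _ _)
  have h5 := card_union_le B1 B2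
  have h6 : #B1 ≤ #R' * k := card_image_le.trans (by simp)
  have h7 : #B2 ≤ #O' * k := card_image_le.trans (by simp)
  rw [card_product] at h4
  have h8 : #R' * #O' ≤ #(ph3P π Up Um j R O) + (#R' * k + #O' * k) := by omega
  have h9 : (#R' : ℝ) * #O' ≤ #(ph3P π Up Um j R O) + (#R' * k + #O' * k) := by exact_mod_cast h8
  have g1 : (n0 : ℝ) ≤ 2 * #R' := by exact_mod_cast h1
  have g2 : (n0 : ℝ) ≤ 2 * #O' := by exact_mod_cast h2
  have g3 : 8 * (k : ℝ) ≤ n0 := by exact_mod_cast hk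
  have g4 : (0 : ℝ) ≤ n0 := Nat.cast_nonneg _
  have g5 : (0 : ℝ) ≤ #R' := Nat.cast_nonneg _
  have g6 : (0 : ℝ) ≤ #O' := Nat.cast_nonneg _
  have g7 : (#R' : ℝ) * (4 * k) ≤ #R' * #O' := mul_le_mul_of_nonneg_left (by linarith) g5
  have g8 : (#O' : ℝ) * (4 * k) ≤ #O' * #R' := mul_le_mul_of_nonneg_left (by linarith) g6
  have g9 : (n0 : ℝ) * n0 ≤ (2 * #R') * (2 * #O') := mul_le_mul g1 g2 g4 (by positivity)
  nlinarith

/-- The deterministic part. -/
theorem ph3_det (h : S_MERGE) {k : ℕ} (Rs : A → Prop) (Γ : V × V → Prop) (π : Fin k → Perm V)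
    (Up Um : Finset V) (hπ : Disj π) (hΓ : ∀ j x, Γ (x, π j x)) (β : V × V → A) (r : V)
    (hc : ¬ ph3Conf Rs π β)
    (ho : ∀ j, ∀ O ∈ (univ.image (ph3Orb (π j))).erase (ph3Orb (π j) r),
      ∃ p ∈ ph3P π Up Um j (ph3Orb (π j) r) O, ph3Opt Rs π β j p.1 p.2) :
    Tgt k (avail Γ Rs Up Um β) := by
  classical
  have : Nonempty (V × V) := ⟨(r, r)⟩
  choose! f hf hf' using ho
  have hz : ∀ j z, ¬ (π j).SameCycle r z →
      ph3Orb (π j) z ∈ (univ.image (ph3Orb (π j))).erase (ph3Orb (π j) r) := by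
    intro j z hz
    refine mem_erase.mpr ⟨fun e => hz ?_, mem_image_of_mem _ (mem_univ _)⟩
    rw [← ph3_mem_orb, ← e, ph3_mem_orb]
  have hx : ∀ j z, ¬ (π j).SameCycle r z → (π j).SameCycle r (f j (ph3Orb (π j) z)).1 ∧
      (π j).SameCycle z (f j (ph3Orb (π j) z)).2 ∧
      ph3Val π Up Um j (f j (ph3Orb (π j) z)).1 (f j (ph3Orb (π j) z)).2 := by
    intro j z h0
    obtain ⟨h1, h2⟩ := mem_filter.mp (hf j _ (hz j z h0))
    obtain ⟨h3, h4⟩ := mem_product.mp h1
    exact ⟨ph3_mem_orb.mp h3, ph3_mem_orb.mp h4, h2⟩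
  let S : Fin k → V → V → Prop := fun j a b => ∃ z, ¬ (π j).SameCycle r z ∧
    (f j (ph3Orb (π j) z) = (a, b) ∨ f j (ph3Orb (π j) z) = (b, a))
  have Ssymm : ∀ j a b, S j a b → S j b a := by
    rintro j a b ⟨z, h0, h1⟩
    exact ⟨z, h0, h1.symm⟩
  have Sfact : ∀ j a b, S j a b → ¬ ((π j).SameCycle r a ↔ (π j).SameCycle r b) ∧
      ph3Val π Up Um j a b ∧ ph3Opt Rs π β j a b := by
    rintro j a b ⟨z, h0, h1⟩
    obtain ⟨h2, h3, h4⟩ := hx j z h0
    have h5 := hf' j _ (hz j z h0)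
    rcases h1 with h1 | h1 <;> rw [h1] at h2 h3 h4 h5
    · exact ⟨fun e => h0 ((e.mp h2).trans h3.symm), h4, h5⟩
    · refine ⟨fun e => h0 ((e.mpr h2).trans h3.symm), ?_, h5.symm⟩
      obtain ⟨a1, a2, a3, a4, a5, a6⟩ := h4
      exact ⟨a3, a4, a1, a2, a6, a5⟩
  have Sne : ∀ j a b, S j a b → a ≠ b := by
    intro j a b hS e
    exact (Sfact j a b hS).1 (by rw [e])
  have Suniq : ∀ j j' a b b', S j a b → S j' a b' → (j, b) = (j', b') := by
    intro j j' a b b' h1 h2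
    by_contra e
    exact hc ⟨j, j', a, b, b', Sne _ _ _ h1, Sne _ _ _ h2, e, (Sfact _ _ _ h1).2.2,
      (Sfact _ _ _ h2).2.2⟩
  let s : Fin k → V → V := fun j a => if h : ∃ b, S j a b then h.choose else a
  have s1 : ∀ j a b, S j a b → s j a = b := by
    intro j a b hS
    have h1 : ∃ b, S j a b := ⟨b, hS⟩
    simp only [s, dif_pos h1]
    exact congrArg Prod.snd (Suniq _ _ _ _ _ h1.choose_spec hS)
  have s2 : ∀ j a, s j a = a ∨ S j a (s j a) := by
    intro j a
    by_cases h1 : ∃ b, S j a b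
    · obtain ⟨b, hb⟩ := h1
      rw [s1 _ _ _ hb]
      exact Or.inr hb
    · left
      simp only [s, dif_neg h1]
  have sinv : ∀ j, Function.Involutive (s j) := by
    intro j a
    rcases s2 j a with h1 | h1
    · rw [h1, h1]
    · exact s1 _ _ _ (Ssymm _ _ _ h1)
  refine ⟨fun j => π j * (sinv j).toPerm, fun j => ?_, ?_, ?_⟩
  · refine h V (π j) _ r (fun z => sinv j z) (fun z hne => ?_) fun z h0 => ?_
    · rcases s2 j z with h1 | h1
      · exact absurd h1 hne
      · exact (Sfact _ _ _ h1).1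
    · obtain ⟨h2, h3, -⟩ := hx j z h0
      have hS : S j (f j (ph3Orb (π j) z)).2 (f j (ph3Orb (π j) z)).1 := ⟨z, h0, Or.inr rfl⟩
      refine ⟨(f j (ph3Orb (π j) z)).2, ⟨h3, ?_⟩, ?_⟩
      · show s j _ ≠ _
        rw [s1 _ _ _ hS]
        exact (Sne _ _ _ hS).symm
      · rintro y ⟨hy, hne⟩
        rcases s2 j y with h1 | ⟨w, hw, h1⟩
        · exact absurd h1 hne
        · obtain ⟨h4, h5, -⟩ := hx j w hw
          rcases h1 with h1 | h1
          · rw [h1] at h4
            exact absurd (h4.trans hy.symm) h0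
          · rw [h1] at h5
            rw [ph3_orb_eq (hy.trans h5.symm), h1]
  · intro i j hij x
    show π i (s i x) ≠ π j (s j x)
    rcases s2 i x with h1 | h1 <;> rcases s2 j x with h2 | h2
    · rw [h1, h2]
      exact hπ i j hij x
    · rw [h1]
      exact ((Sfact _ _ _ h2).2.1.2.2.2.2.1 i).symm
    · rw [h2]
      exact (Sfact _ _ _ h1).2.1.2.2.2.2.1 j
    · exact absurd (congrArg Prod.fst (Suniq _ _ _ _ _ h1 h2)) hij
  · intro j x
    show avail Γ Rs Up Um β (x, π j (s j x))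
    rcases s2 j x with h1 | h1
    · rw [h1]
      exact Or.inl (hΓ j x)
    · obtain ⟨-, h2, h3⟩ := Sfact _ _ _ h1
      exact Or.inr ⟨h3.1, h2.1, h2.2.2.2.1⟩

end ph3

theorem ph3 (h : S_MERGE) : S_PH3 := by
  classical
  intro V A _ _ _ _ Rs k n0 Γ π Up Um hπ hΓ hlong hU hk h0
  have hρ := Pr_nonneg Rs
  rcases isEmpty_or_nonempty V with hV | ⟨⟨r⟩⟩
  · rw [Pr_false]
    · positivity
    · intro β hβ
      refine hβ ⟨π, fun j S hS _ => ?_, hπ, fun j x => Or.inl (hΓ j x)⟩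
      obtain ⟨x, -⟩ := hS
      exact isEmptyElim x
  let E : Fin k → (V × V → A) → Prop := fun j β =>
    ∃ O ∈ (univ.image (ph3Orb (π j))).erase (ph3Orb (π j) r),
      ∀ p ∈ ph3P π Up Um j (ph3Orb (π j) r) O, ¬ ph3Opt Rs π β j p.1 p.2
  have h1 : ∀ j, Pr (E j) ≤
      (Fintype.card V / n0 : ℝ) * Real.exp (-(Pr Rs ^ 2 * n0 ^ 2 / 8)) := by
    intro j
    refine (Pr_exists_le' _ _ (δ := Real.exp (-(Pr Rs ^ 2 * n0 ^ 2 / 8))) fun O hO => ?_).trans
      (mul_le_mul_of_nonneg_right ?_ (by positivity))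
    · obtain ⟨hne, hO⟩ := mem_erase.mp hO
      obtain ⟨z, -, rfl⟩ := mem_image.mp hO
      have hP := ph3_P_card π (Up := Up) (Um := Um) j (ph3_orb_card (hlong j) r)
        (ph3_orb_card (hlong j) z) hU hk
      refine (ph3_noopt Rs (ph3P π Up Um j (ph3Orb (π j) r) (ph3Orb (π j) z))
        (fun p => (p.1, π j p.2)) (fun p => (p.2, π j p.1)) ?_ ?_ ?_).trans
        (Real.exp_le_exp.mpr ?_)
      · intro p _ q _ e
        exact Prod.ext (Prod.mk.inj e).1 ((π j).injective (Prod.mk.inj e).2)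
      · intro p _ q _ e
        exact Prod.ext ((π j).injective (Prod.mk.inj e).2) (Prod.mk.inj e).1
      · intro p hp q hq e
        have e1 : p.1 = q.2 := congrArg Prod.fst e
        have a1 := ph3_mem_orb.mp (mem_product.mp (mem_filter.mp hp).1).1
        have a2 := ph3_mem_orb.mp (mem_product.mp (mem_filter.mp hq).1).2
        rw [← e1] at a2
        exact hne (ph3_orb_eq (a2.trans a1.symm))
      · have := mul_le_mul_of_nonneg_right hP (sq_nonneg (Pr Rs))
        linarith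
    · refine le_trans ?_ (ph3_orb_num h0 (hlong j))
      exact_mod_cast card_erase_le
  have h2 := Pr_exists_univ E h1
  have h3 := ph3_conf Rs π hπ
  simp only [Fintype.card_fin] at h2
  refine (Pr_le_add (E₁ := fun β => ∃ j, E j β) (E₂ := ph3Conf Rs π) ?_).trans (by linarith)
  intro β hβ
  by_contra hn
  push Not at hn
  refine hβ (ph3_det h Rs Γ π Up Um hπ hΓ β r hn.2 fun j O hO => ?_)
  by_contra hO'
  push Not at hO'
  exact hn.1 j ⟨O, hO, hO'⟩

end Pool.Agent.P.MP_de899d_pr
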