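import Pool.Agent.P.MP_de899d_pr.Num1
import Pool.Agent.P.MP_de899d_pr.Fact
import Pool.Agent.P.MP_de899d_pr.Surg
import Pool.Agent.P.MP_de899d_pr.Query
import Pool.Agent.P.MP_de899d_pr.Init
import Pool.Agent.P.MP_de899d_pr.Ph3

/-! Numerical estimates: anchors, merging phases, and one interval of labels. -/

set_option linter.unusedSectionVars false
set_option linter.unusedVariables false

namespace Pool.Agent.P.MP_de899d_pr
open Finset Equiv

variable {V A : Type} [Fintype V] [DecidableEq V] [Fintype A] [Nonempty A]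

theorem Par.kap {n x l y : ℝ} {d lam : ℕ} (h : Par n x l y d lam) :
    3 * l ≤ ⌈3 * l⌉₊ ∧ (⌈3 * l⌉₊ : ℝ) ≤ 4 * l := by
  have := h.hl0
  exact ⟨Nat.le_ceil _, by linarith [Nat.ceil_lt_add_one (a := 3 * l) (by linarith)]⟩

theorem Par.ess {n x l y : ℝ} {d lam : ℕ} (h : Par n x l y d lam) :
    (⌈x ^ 25⌉₊ : ℝ) ≤ 2 * x ^ 25 := by
  have := h.x0
  linarith [Nat.ceil_lt_add_one (a := x ^ 25) (by positivity), one_le_pow₀ (n := 25) h.x1]

theorem init_bound {x l y : ℝ} {d lam : ℕ} (h : Par (Fintype.card V) x l y d lam) (n0 k : ℕ)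
    (hk : k ≤ d + 1) (M : Fin k → Perm V) (Zp Zm : Finset V) (hM : Disj M)
    (h1 : #Zp ≤ ⌈x ^ 25⌉₊) (h2 : #Zm ≤ ⌈x ^ 25⌉₊) :
    Pr (fun σ : Perm V => ¬ ∃ An : Finset (Fin k × V),
      Anch (fun j => σ * M j) n0 Zp (Zm.image σ) An ∧ #An ≤ k * ⌈3 * l⌉₊) ≤ 1 / x ^ 40 := by
  have x0 := h.x0
  have s2 := h.ess
  obtain ⟨k1, k2⟩ := h.kap
  have k3 : (⌈3 * l⌉₊ : ℝ) ≤ x := k2.trans h.hlx
  have hk' : (k : ℝ) ≤ 2 * x ^ 2 := le_trans (by exact_mod_cast hk) h.d1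
  set L := 2 * (k * ⌈3 * l⌉₊) + 2 * ⌈x ^ 25⌉₊ with hL
  have hL' : (L : ℝ) ≤ 8 * x ^ 25 := by
    have : (k : ℝ) * ⌈3 * l⌉₊ ≤ 2 * x ^ 25 := by
      calc _ ≤ 2 * x ^ 2 * x := by gcongr
        _ = 2 * x ^ 3 := by ring
        _ ≤ _ := by linarith [h.pw (by norm_num : 3 ≤ 25)]
    rw [hL]; push_cast; linarith
  refine (init short V k n0 _ L _ M Zp Zm hM h1 h2 le_rfl (by
    have : 4 * (L : ℝ) ≤ Fintype.card V := by
      rw [h.hn]; linarith [h.cpw (c := 32) (i := 25) (j := 100) (by norm_num) (by norm_num)]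
    exact_mod_cast this)).trans ?_
  have e1 : x ^ 200 ≤ 2 ^ ⌈3 * l⌉₊ := by
    have h3 := h.expl' (c := 2) (i := 200) (by norm_num)
    rw [Real.exp_neg, ← one_div, one_div_le_one_div (by positivity) (Real.exp_pos _)] at h3
    have h4 := h.expl (c := 2) (i := 200) (by norm_num)
    rw [Real.exp_neg, ← one_div, one_div_le_one_div (Real.exp_pos _) (by positivity)] at h4
    refine h4.trans ?_
    rw [← Real.exp_log (by norm_num : (0 : ℝ) < 2), ← Real.exp_nat_mul]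
    refine Real.exp_le_exp.mpr ?_
    rw [Real.exp_log (by norm_num : (0 : ℝ) < 2)]
    nlinarith [Real.log_two_gt_d9, h.hl0]
  have dv : ∀ (c : ℝ) (i : ℕ), c ≤ 10 ^ 8 → 40 < i → c / x ^ i ≤ 1 / (3 * x ^ 40) :=
    fun c i h1 h2 => by
      rw [div_le_div_iff₀ (by positivity) (by positivity), one_mul, ← mul_assoc]
      exact h.cpw (by linarith) h2
  have h5 := one_le_pow₀ (n := 100) h.x1
  rw [h.hn]
  calc _ ≤ 2 * x ^ 2 * ((2 * x ^ 100) / x ^ 200) + 4 * (2 * x ^ 2) * (2 * x ^ 25) * (8 * x ^ 25) /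
        x ^ 100 + 8 * (2 * x ^ 2) ^ 2 * (8 * x ^ 25) ^ 2 / x ^ 100 := by gcongr; linarith
    _ = 4 / x ^ 98 + 128 / x ^ 48 + 2048 / x ^ 46 := by field_simp; ring
    _ ≤ 1 / (3 * x ^ 40) + 1 / (3 * x ^ 40) + 1 / (3 * x ^ 40) :=
      add_le_add (add_le_add (dv _ _ (by norm_num) (by norm_num)) (dv _ _ (by norm_num)
        (by norm_num))) (dv _ _ (by norm_num) (by norm_num))
    _ = _ := by field_simp; ring

theorem Par.depth {n x l y : ℝ} {d lam : ℕ} (h : Par n x l y d lam) :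
    ∃ g t : ℕ, 2 ≤ g ∧ t ≠ 0 ∧ 32 * g ≤ lam ∧ x ^ 55 ≤ (g : ℝ) ^ t ∧ (g : ℝ) ^ t ≤ x ^ 57 ∧
      (t + 3 : ℝ) * Real.log d ≤ 1.2 * l := by
  have x0 := h.x0
  have d0 := h.d0
  have hsq := h.sq
  have q1 : 2 ≤ Real.sqrt d := Real.le_sqrt_of_sq_le (by linarith)
  have g1 : 32 * (lam / 32) ≤ lam := Nat.mul_div_le _ _
  have g2 : Real.sqrt d ≤ (lam / 32 : ℕ) := by
    have : (lam : ℝ) ≤ 32 * (lam / 32 : ℕ) + 32 := by
      exact_mod_cast (by omega : lam ≤ 32 * (lam / 32) + 32)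
    linarith
  set g := lam / 32
  have g3 : 2 ≤ g := by exact_mod_cast q1.trans g2
  have g4 : (g : ℝ) ≤ x ^ 2 := by
    have : 32 * (g : ℝ) ≤ lam := by exact_mod_cast g1
    linarith [h.lamd, h.hd, h.lam0]
  have c1 : 1 < ⌈x ^ 55⌉₊ := Nat.lt_ceil.mpr (by
    push_cast
    linarith [h.cpw (c := 2) (i := 0) (j := 55) (by norm_num) (by norm_num)])
  have t1 := Nat.clog_pos (b := g) g3 c1
  have t2 : (g : ℝ) ^ (Nat.clog g ⌈x ^ 55⌉₊ - 1) < x ^ 55 := by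
    exact_mod_cast Nat.lt_ceil.mp (Nat.pow_pred_clog_lt_self (b := g) g3 c1)
  have t3 : x ^ 55 ≤ (g : ℝ) ^ Nat.clog g ⌈x ^ 55⌉₊ := by
    exact_mod_cast Nat.ceil_le.mp (Nat.le_pow_clog (b := g) g3 _)
  obtain ⟨t, ht⟩ : ∃ t, Nat.clog g ⌈x ^ 55⌉₊ = t + 1 := ⟨_, (Nat.succ_pred_eq_of_pos t1).symm⟩
  rw [ht] at t2 t3
  rw [Nat.add_sub_cancel] at t2
  refine ⟨g, t + 1, g3, by omega, g1, t3, ?_, ?_⟩
  · calc _ = (g : ℝ) ^ t * g := pow_succ _ _
      _ ≤ x ^ 55 * x ^ 2 := by gcongr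
      _ = _ := by ring
  · have lx : l = 100 * Real.log x := by
      rw [← Real.log_exp l, h.hl, Real.log_pow]; norm_num
    have e1 : Real.log d ≤ 2 * Real.log x := by
      have := Real.log_le_log (by linarith) h.hd
      rwa [Real.log_pow] at this
    have e2 : Real.log d ≤ 2 * Real.log g := by
      have := Real.log_le_log (by linarith) g2
      rw [Real.log_sqrt (by linarith)] at this
      linarith
    have e3 : t * Real.log g ≤ 55 * Real.log x := by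
      have := Real.log_le_log (by positivity) t2.le
      rwa [Real.log_pow, Real.log_pow] at this
    have e4 : t * Real.log d ≤ t * (2 * Real.log g) := by gcongr
    have e5 := Real.log_nonneg h.x1
    push_cast
    nlinarith

theorem p23_bound {x l y : ℝ} {d lam : ℕ} (h : Par (Fintype.card V) x l y d lam) (Rs : A → Prop)
    (h1 : lam ≤ Pr Rs * Fintype.card V) (h2 : Pr Rs * Fintype.card V ≤ 2 * lam) :
    ∃ n0 : ℕ, ∀ k ≤ d + 1, ∀ (Γ : V × V → Prop) (π : Fin k → Perm V) (Up Um : Finset V)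
      (An : Finset (Fin k × V)), #An ≤ k * ⌈3 * l⌉₊ → Disj π → (∀ j x, Γ (x, π j x)) →
      Anch π n0 Up Um An → #Up ≤ ⌈x ^ 25⌉₊ → #Um ≤ ⌈x ^ 25⌉₊ →
      Bd k Rs Γ (fun e => e.1 ∈ Up ∨ e.2 ∈ Um) ≤ 2 / d ^ 3 + 1 / x ^ 40 := by
  have x0 := h.x0
  have x1 := h.x1
  have d0 := h.d0
  have hn := h.n0
  have s2 := h.ess
  have l0 := h.hl0
  have hlog := h.hlog
  obtain ⟨k1, k2⟩ := h.kap
  have k3 : (⌈3 * l⌉₊ : ℝ) ≤ x := k2.trans h.hlx
  obtain ⟨g, t, g1, t0, g2, N1, N2, t1⟩ := h.depth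
  have t2 : (t + 3 : ℝ) ≤ l := by nlinarith
  have t3 : (t + 3 : ℝ) ≤ x := by linarith [h.hlx]
  have hρ0 := Pr_nonneg Rs
  have hρ1 : lam / x ^ 100 ≤ Pr Rs := by rw [div_le_iff₀ (by positivity), ← h.hn]; exact h1
  have hρ2 : Pr Rs ≤ 1 / x ^ 98 := by
    rw [le_div_iff₀ (by positivity)]
    refine le_of_mul_le_mul_right ?_ (pow_pos x0 2)
    rw [mul_assoc, ← pow_add, ← h.hn]
    linarith [h.lamd, h.hd, h.lam0]
  set n0 := Fintype.card V / (16 * (t + 3)) with hn0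
  have m1 : 16 * (t + 3 : ℝ) * n0 ≤ x ^ 100 := by
    rw [← h.hn]; exact_mod_cast Nat.mul_div_le _ _
  have m2 : x ^ 100 ≤ 32 * (t + 3 : ℝ) * n0 := by
    have h3 : 16 * (t + 3 : ℝ) ≤ Fintype.card V := by
      rw [h.hn]; linarith [h.cpw (c := 16) (i := 1) (j := 100) (by norm_num) (by norm_num)]
    have h4 : 0 < n0 := Nat.div_pos (by exact_mod_cast h3) (by omega)
    have h5 := Nat.lt_mul_div_succ (Fintype.card V) (by omega : 0 < 16 * (t + 3))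
    have h6 : Fintype.card V ≤ 32 * (t + 3) * n0 := by nlinarith
    rw [← h.hn]; exact_mod_cast h6
  have m3 : x ^ 98 ≤ n0 := by
    refine le_of_mul_le_mul_left (m2.trans' ?_) (by positivity : 0 < 32 * (t + 3 : ℝ))
    calc _ ≤ 32 * x * x ^ 98 := by gcongr
      _ = 32 * x ^ 99 := by ring
      _ ≤ _ := h.cpw (by norm_num) (by norm_num)
  have m0 : (0 : ℝ) < n0 := lt_of_lt_of_le (by positivity) m3
  refine ⟨n0, fun k hk Γ π Up Um An a1 a2 a3 a4 a5 a6 => ?_⟩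
  have hk1 : (k : ℝ) ≤ d + 1 := by exact_mod_cast hk
  have hk' : (k : ℝ) ≤ 2 * x ^ 2 := hk1.trans h.d1
  set T := k * ⌈3 * l⌉₊ with hT
  have T1 : (T : ℝ) ≤ 2 * x ^ 3 := by
    rw [hT]; push_cast
    calc _ ≤ 2 * x ^ 2 * x := by gcongr
      _ = _ := by ring
  have T2 : (T : ℝ) ≤ 10 * d ^ 2 := by
    rw [hT]; push_cast
    calc _ ≤ (2 * d : ℝ) * (5 * d) := by gcongr <;> linarith [h.hld]
      _ = _ := by ring
  set ub := ⌈x ^ 25⌉₊ + T * (2 * g ^ t) with hub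
  have u1 : (ub : ℝ) ≤ 6 * x ^ 60 := by
    rw [hub]; push_cast
    calc _ ≤ 2 * x ^ 25 + 2 * x ^ 3 * (2 * x ^ 57) := by gcongr
      _ = 2 * x ^ 25 + 4 * x ^ 60 := by ring
      _ ≤ _ := by linarith [h.pw (by norm_num : 25 ≤ 60)]
  have p1 := h.pw (by norm_num : 1 ≤ 60)
  have p2 := h.pw (by norm_num : 2 ≤ 60)
  have p3 := h.pw (by norm_num : 3 ≤ 60)
  have p4 := h.pw (by norm_num : 57 ≤ 60)
  have p5 := h.cpw (c := 1000) (i := 60) (j := 98) (by norm_num) (by norm_num)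
  have p6 := h.pw (by norm_num : 98 ≤ 100)
  refine (p23 surg zone (ph3 merge) Rs n0 g t ub T g1 t0 (le_trans (by exact_mod_cast g2) h1)
    ?_ ?_ ?_ ?_ ?_ (by exact_mod_cast m0) T Γ π Up Um An a1 le_rfl a2 a3 a4 (by omega)
    (by omega)).trans ?_
  · calc _ ≤ 1 / x ^ 98 * x ^ 57 := by gcongr
      _ ≤ _ := by
        rw [one_div, inv_mul_le_iff₀ (by positivity), mul_one]; exact h.pw (by norm_num)
  · have : 2 * (k : ℝ) ≤ g ^ t := by
      linarith [h.cpw (c := 4) (i := 2) (j := 55) (by norm_num) (by norm_num)]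
    exact_mod_cast this
  · have : 4 * ((t + 3 : ℝ) * (2 * n0 + 2) + 2 * ub + 2 * T + 2 * g ^ t + k) ≤ Fintype.card V := by
      rw [h.hn]; linarith
    exact_mod_cast this
  · have : 4 * (ub : ℝ) ≤ n0 := by linarith
    exact_mod_cast this
  · have : 8 * (k : ℝ) ≤ n0 := by linarith
    exact_mod_cast this
  have sx : Real.sqrt d ≤ x := Real.sqrt_le_iff.mpr ⟨x0.le, h.hd⟩
  have f1 : Real.exp (-(Pr Rs * Fintype.card V / 32)) ≤ Real.exp (-Real.sqrt d) :=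
    Real.exp_le_exp.mpr (by linarith [h.sq, Real.sqrt_nonneg d])
  have f2 : Real.exp (-(Pr Rs * ((g ^ t : ℕ) : ℝ) ^ 2 / 2)) ≤ Real.exp (-Real.sqrt d) := by
    refine Real.exp_le_exp.mpr (neg_le_neg ?_)
    push_cast
    calc _ ≤ x ^ 10 := by linarith [h.pw (by norm_num : 1 ≤ 10)]
      _ = 2 / x ^ 100 * (x ^ 55) ^ 2 / 2 := by field_simp
      _ ≤ _ := by gcongr; exact le_trans (by gcongr; linarith [h.lam0]) hρ1
  have f3 : (T : ℝ) * (2 * t * Real.exp (-Real.sqrt d) + Real.exp (-Real.sqrt d)) ≤ 1 / d ^ 3 := by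
    have e1 := h.expd le_rfl
    have e2 := Real.exp_pos (-Real.sqrt d)
    rw [le_div_iff₀ (by positivity)]
    calc _ = T * (2 * t + 1) * d ^ 3 * Real.exp (-Real.sqrt d) := by ring
      _ ≤ 10 * d ^ 2 * (3 * d) * d ^ 3 * Real.exp (-Real.sqrt d) := by gcongr; linarith [h.hld]
      _ = 30 * d ^ 6 * Real.exp (-Real.sqrt d) := by ring
      _ ≤ _ := le_trans (by gcongr; norm_num) e1
  have f4 : 10 * Real.log d ≤ Pr Rs ^ 2 * n0 ^ 2 / 8 := by
    have e1 : lam ≤ 32 * (t + 3 : ℝ) * (Pr Rs * n0) := by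
      calc _ ≤ Pr Rs * x ^ 100 := by rw [← h.hn]; exact h1
        _ ≤ Pr Rs * (32 * (t + 3 : ℝ) * n0) := by gcongr
        _ = _ := by ring
    have e0 : 0 ≤ Pr Rs * n0 := by positivity
    have e2 : 4.5e-7 * l * Real.log d ≤ 38.4 * l * (Pr Rs * n0) := by
      calc _ ≤ lam * Real.log d := by gcongr; linarith [h.ly, h.h2]
        _ ≤ 32 * (t + 3 : ℝ) * (Pr Rs * n0) * Real.log d := by gcongr
        _ = 32 * ((t + 3 : ℝ) * Real.log d) * (Pr Rs * n0) := by ring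
        _ ≤ 32 * (1.2 * l) * (Pr Rs * n0) := by gcongr
        _ = _ := by ring
    have e3 : 1e-8 * Real.log d ≤ Pr Rs * n0 := by
      refine le_of_mul_le_mul_left ?_ (by linarith : 0 < 38.4 * l)
      nlinarith
    have e4 := pow_le_pow_left₀ (by linarith) e3 2
    rw [← mul_pow]
    nlinarith
  have f5 : k * ((Fintype.card V : ℝ) / n0) * Real.exp (-(Pr Rs ^ 2 * n0 ^ 2 / 8)) ≤ 1 / d ^ 3 := by
    have e1 : Real.exp (-(Pr Rs ^ 2 * n0 ^ 2 / 8)) ≤ 1 / d ^ 10 := by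
      refine (Real.exp_le_exp.mpr (neg_le_neg f4)).trans (le_of_eq ?_)
      rw [Real.exp_neg, show 10 * Real.log d = (10 : ℕ) * Real.log d by norm_num, Real.exp_nat_mul,
        Real.exp_log (by linarith), one_div]
    have e2 : (Fintype.card V : ℝ) / n0 ≤ 40 * d := by
      rw [div_le_iff₀ m0, h.hn]
      exact m2.trans (by gcongr ?_ * _; linarith [h.hld])
    calc _ ≤ (2 * d : ℝ) * (40 * d) * (1 / d ^ 10) := by gcongr; linarith
      _ = 80 / d ^ 5 / d ^ 3 := by field_simp; ring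
      _ ≤ _ := by
        gcongr
        rw [div_le_one (by positivity)]
        exact le_trans (by linarith) (le_self_pow₀ (by linarith) (by norm_num))
  have f6 : (k : ℝ) ^ 2 * Pr Rs ^ 3 * (Fintype.card V : ℝ) ^ 2 +
      (k : ℝ) ^ 2 * Pr Rs ^ 4 * (Fintype.card V : ℝ) ^ 3 ≤ 1 / x ^ 40 := by
    rw [h.hn]
    calc _ ≤ (2 * x ^ 2) ^ 2 * (1 / x ^ 98) ^ 3 * (x ^ 100) ^ 2 +
        (2 * x ^ 2) ^ 2 * (1 / x ^ 98) ^ 4 * (x ^ 100) ^ 3 := by gcongr
      _ = (4 + 4 * x ^ 2) / x ^ 90 := by field_simp; ring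
      _ ≤ _ := by
        rw [div_le_div_iff₀ (by positivity) (by positivity)]
        linarith [h.cpw (c := 8) (i := 42) (j := 90) (by norm_num) (by norm_num),
          h.pw (by norm_num : 40 ≤ 42)]
  unfold err23
  have f7 : (T : ℝ) * (2 * t * Real.exp (-(Pr Rs * Fintype.card V / 32)) +
    Real.exp (-(Pr Rs * ((g ^ t : ℕ) : ℝ) ^ 2 / 2))) ≤ _ := le_trans (by gcongr) f3
  have : (2 : ℝ) / d ^ 3 = 1 / d ^ 3 + 1 / d ^ 3 := by ring
  linarith

end Pool.Agent.P.MP_de899d_pr
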