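import Pool.Agent.P.MP_de899d_pr.Num2

/-! One interval of labels, and the sum over all intervals. -/

set_option linter.unusedSectionVars false
set_option linter.unusedVariables false

namespace Pool.Agent.P.MP_de899d_pr
open Finset Equiv

variable {V : Type} [Fintype V] [DecidableEq V]

theorem per_d {x l y : ℝ} {d lam : ℕ} (h : Par (Fintype.card V) x l y d lam) (m M : ℕ)
    (hm : 0 < m) (hM : M = Fintype.card V * m) :
    Pr (fun U : V × V → Fin M => ∃ k, BadK (d * m) ((d + 1) * m) k U) ≤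
      13 / x ^ 5 + 6 / d ^ 2 := by
  have x0 := h.x0
  have d0 := h.d0
  have hn := h.n0
  have l0 := h.lam0
  have hld := h.lamd
  have c1 : 4 * (d : ℝ) ≤ Fintype.card V := by
    rw [h.hn]; linarith [h.cpw (c := 4) (i := 2) (j := 100) (by norm_num) (by norm_num), h.hd]
  obtain ⟨e, he⟩ : ∃ e, d = e + lam := ⟨d - lam, by
    have : lam ≤ d := by exact_mod_cast (by linarith : (lam : ℝ) ≤ d)
    omega⟩
  obtain ⟨f, hf⟩ : ∃ f, Fintype.card V = e + f := ⟨Fintype.card V - e, by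
    have : 4 * d ≤ Fintype.card V := by exact_mod_cast c1
    omega⟩
  have he' : (d : ℝ) = e + lam := by exact_mod_cast he
  have hf' : (Fintype.card V : ℝ) = e + f := by exact_mod_cast hf
  have e0 : (0 : ℝ) ≤ e := Nat.cast_nonneg _
  have f1 : (Fintype.card V : ℝ) ≤ 2 * f := by linarith
  have f0 : (0 : ℝ) < f := by linarith
  have m0 : (0 : ℝ) < m := by exact_mod_cast hm
  obtain rfl : M = e * m + f * m := by rw [hM, hf, add_mul]
  have : NeZero (f * m) := ⟨Nat.mul_ne_zero (by exact_mod_cast f0.ne') hm.ne'⟩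
  have : NeZero (e * m + f * m) := ⟨by have := NeZero.ne (f * m); omega⟩
  have P1 : ∀ j : ℕ, (j : ℝ) ≤ 2 * d → Pr (fun i : Fin (e * m + f * m) => (i : ℕ) < j * m) *
      Fintype.card V = j := fun j hj => by
    rw [Pr_lt (by
      rw [← add_mul, ← hf]
      exact Nat.mul_le_mul_right _ (by exact_mod_cast (by linarith : (j : ℝ) ≤ Fintype.card V))),
      hf']
    push_cast
    field_simp
  have P2 : ∀ j : ℕ, (j : ℝ) ≤ d → j ≤ Pr (fun i : Fin (f * m) => (i : ℕ) < j * m) *
      Fintype.card V ∧ Pr (fun i : Fin (f * m) => (i : ℕ) < j * m) * Fintype.card V ≤ 2 * j :=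
    fun j hj => by
      rw [Pr_lt (Nat.mul_le_mul_right _ (by exact_mod_cast (by linarith : (j : ℝ) ≤ f)))]
      push_cast
      rw [mul_div_mul_right _ _ m0.ne', div_mul_eq_mul_div, le_div_iff₀ f0, div_le_iff₀ f0]
      have : (0 : ℝ) ≤ j := Nat.cast_nonneg _
      constructor <;> nlinarith
  have P3 := P1 (d + 1) (by push_cast; linarith)
  push_cast at P3
  obtain ⟨a, a1, a2, a3, a4⟩ := threshold h _ P3
  obtain ⟨K, rfl⟩ : ∃ K, a = K + (5 * lam + 4) := ⟨a - (5 * lam + 4), by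
    have : 5 * lam + 4 ≤ a := by exact_mod_cast (by linarith : 5 * (lam : ℝ) + 4 ≤ a)
    omega⟩
  obtain ⟨n0, hn0⟩ := p23_bound h _ (P2 lam (by linarith)).1 (P2 lam (by linarith)).2
  have a2' : (K : ℝ) + (5 * lam + 4) ≤ d + 1 := by exact_mod_cast a2
  push_cast at a1
  have tc := tail_couple (V := V) (T := e * m) (R := f * m) (l := (lam + 1) * m) (a := K + lam)
    (J := 4 * (lam + 1)) (by omega) (by
      have := (P2 (lam + 1) (by push_cast; linarith)).2
      push_cast at this ⊢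
      linarith)
  rw [show e * m + (lam + 1) * m = (d + 1) * m by rw [he]; ring,
    show K + lam + 4 * (lam + 1) = K + (5 * lam + 4) by ring] at tc
  have st := static_bound h (fun i : Fin (e * m + f * m) => (i : ℕ) < e * m)
    (fun i => (i : ℕ) < (d + 1) * m)
    (fun i hi => lt_of_lt_of_le hi (Nat.mul_le_mul_right _ (by omega)))
    (by rw [P1 e (by linarith)]; linarith) P3 (K + lam) K (by push_cast; linarith) (by linarith)
    (tc.trans ((mul_le_mul_of_nonneg_left a3 zero_le_two).trans (le_of_eq (by field_simp))))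
  have iv := interval (V := V) fact (T := e * m) (R := f * m) (l := lam * m) (T'' := (d + 1) * m)
    (a := K + lam) (μ := lam) (s := ⌈x ^ 25⌉₊) (w := Fintype.card V / 43200) (K := K) (n0 := n0)
    (fun k => k * ⌈3 * l⌉₊) (η := 1 / x ^ 40) (b := 2 / d ^ 3 + 1 / x ^ 40) (by positivity)
    (by positivity) le_rfl (by exact_mod_cast (by linarith : (4 : ℝ) ≤ lam))
    (Nat.mul_le_mul_right _ (by omega)) (fun k hk => init_bound h n0 k (by omega))
    (fun k hk => hn0 k (by omega))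
  rw [show e * m + lam * m = d * m by rw [he]; ring] at iv
  have r1 := Pr_all_rows (V := V) (fun i : Fin (e * m + f * m) => (i : ℕ) < (d + 1) * m) K
    (a4.trans (Pr_mono fun ω hω => by omega))
  have r2 : Real.exp (-(Fintype.card V * (1 / x ^ 85))) ≤ 1 / x ^ 5 := by
    rw [Real.exp_neg, ← one_div, h.hn, show x ^ 100 * (1 / x ^ 85) = x ^ 15 by field_simp]
    refine one_div_le_one_div_of_le (by positivity) ?_
    linarith [Real.add_one_le_exp (x ^ 15), h.pw (by norm_num : 5 ≤ 15)]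
  have r3 : (K + 1 : ℝ) * (1 / x ^ 40 + (2 / d ^ 3 + 1 / x ^ 40)) ≤ 1 / x ^ 5 + 4 / d ^ 2 := by
    calc _ ≤ (2 * d : ℝ) * (1 / x ^ 40 + (2 / d ^ 3 + 1 / x ^ 40)) := by gcongr; linarith
      _ = 4 * d / x ^ 40 + 4 / d ^ 2 := by field_simp; ring
      _ ≤ 4 * x ^ 2 / x ^ 40 + 4 / d ^ 2 := by gcongr; exact h.hd
      _ ≤ _ := by
        gcongr ?_ + _
        rw [div_le_div_iff₀ (by positivity) (by positivity)]
        linarith [h.cpw (c := 4) (i := 7) (j := 40) (by norm_num) (by norm_num)]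
  refine iv.trans ((add_le_add (r1.trans r2) (add_le_add st r3)).trans (le_of_eq (by ring)))

theorem start_bound {x l y : ℝ} {d lam : ℕ} (h : Par (Fintype.card V) x l y d lam) (m M : ℕ)
    (hm : 0 < m) (hM : M = Fintype.card V * m) (hd : (d : ℝ) ≤ 0.91 * l) :
    Pr (fun U : V × V → Fin M => ∀ v, 0 < rdeg (fun e => (U e : ℕ) < d * m) v) ≤ 1 / x ^ 5 := by
  classical
  have x0 := h.x0
  have d0 := h.d0
  have hn := h.n0
  have c1 : 100 * (d : ℝ) ≤ Fintype.card V := by
    rw [h.hn]; linarith [h.cpw (c := 100) (i := 2) (j := 100) (by norm_num) (by norm_num), h.hd]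
  have : NeZero M := ⟨by rw [hM]; exact Nat.mul_ne_zero (by exact_mod_cast hn.ne') hm.ne'⟩
  have m0 : (0 : ℝ) < m := by exact_mod_cast hm
  have P1 : Pr (fun i : Fin M => (i : ℕ) < d * m) = d / Fintype.card V := by
    rw [Pr_lt (by
      rw [hM]
      exact Nat.mul_le_mul_right _ (by exact_mod_cast (by linarith : (d : ℝ) ≤ Fintype.card V))),
      hM]
    push_cast
    field_simp
  refine (Pr_all_rows (fun i : Fin M => (i : ℕ) < d * m) 0 (q := 1 / x ^ 95) ?_).trans ?_
  · have h1 := Pr_forall (univ : Finset V) fun _ (i : Fin M) => ¬ (i : ℕ) < d * m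
    rw [prod_const, card_univ, Pr_not, P1] at h1
    refine le_trans ?_ (h1.ge.trans (Pr_mono fun ω hω => ?_))
    · refine (h.expl' (c := 0.95) (by norm_num)).trans ?_
      set p := (d : ℝ) / Fintype.card V with hp
      have p0 : 0 ≤ p := by positivity
      have p1 : p ≤ 1 / 100 := by rw [hp, div_le_div_iff₀ hn (by norm_num)]; linarith
      have p2 : Real.exp (-(1.02 * p)) ≤ 1 - p := by
        rw [Real.exp_neg, inv_le_comm₀ (Real.exp_pos _) (by linarith)]
        refine le_trans ?_ (Real.add_one_le_exp _)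
        rw [inv_le_iff_one_le_mul₀ (by linarith)]
        nlinarith
      refine le_trans ?_ (pow_le_pow_left₀ (Real.exp_pos _).le p2 _)
      rw [← Real.exp_nat_mul]
      refine Real.exp_le_exp.mpr ?_
      have : Fintype.card V * p = d := by rw [hp]; field_simp
      nlinarith [h.hl0]
    · simpa [cnt, filter_eq_empty_iff] using hω
  · rw [Real.exp_neg, ← one_div, h.hn, show x ^ 100 * (1 / x ^ 95) = x ^ 5 by field_simp]
    refine one_div_le_one_div_of_le (by positivity) ?_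
    linarith [Real.add_one_le_exp (x ^ 5)]

/-- The failure event for all thresholds up to `T`. -/
def BadAll {M : ℕ} (T : ℕ) (U : V × V → Fin M) : Prop := ∃ k, 0 < k ∧ BadK 0 T k U

theorem all_bound {x l : ℝ} {d0 d1 : ℕ} (h01 : d0 < d1) (hd0 : (d0 : ℝ) ≤ 0.91 * l)
    (hd1 : (d1 : ℝ) ≤ x ^ 2)
    (h : ∀ d, d0 ≤ d → d < d1 → ∃ y lam, Par (Fintype.card V) x l y d lam) (m M : ℕ)
    (hm : 0 < m) (hM : M = Fintype.card V * m) :
    Pr (fun U : V × V → Fin M => BadAll (d1 * m) U) ≤ 14 / x ^ 3 + 12 / d0 := by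
  obtain ⟨y, lam, h0⟩ := h d0 le_rfl h01
  have x0 := h0.x0
  have dp : 0 < d0 := by exact_mod_cast (by linarith [h0.d0] : (0 : ℝ) < d0)
  refine (Pr_le_add (E₂ := fun U => ∃ d ∈ Ioo (d0 - 1) d1, ∃ k, BadK (d * m) ((d + 1) * m) k U)
    ?_).trans ((add_le_add (start_bound h0 m M hm hM hd0) (Pr_exists_le _ _)).trans ?_)
  · rintro U ⟨k, hk, t, -, h1, h2, h3⟩
    by_cases ht : t ≤ d0 * m
    · exact Or.inl fun v => lt_of_lt_of_le hk ((h2 v).trans
        (rdeg_mono 1 fun y hy => lt_of_lt_of_le hy ht))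
    · have h4 : d0 ≤ (t - 1) / m := (Nat.le_div_iff_mul_le hm).mpr (by omega)
      have h5 : (t - 1) / m < d1 := (Nat.div_lt_iff_lt_mul hm).mpr (by omega)
      have h6 := Nat.div_mul_le_self (t - 1) m
      have h7 := Nat.lt_mul_div_succ (t - 1) hm
      exact Or.inr ⟨(t - 1) / m, mem_Ioo.mpr ⟨by omega, h5⟩, k, t, by omega,
        by rw [mul_comm]; omega, h2, h3⟩
  · have s1 : ∑ d ∈ Ioo (d0 - 1) d1, Pr (fun U : V × V → Fin M =>
        ∃ k, BadK (d * m) ((d + 1) * m) k U) ≤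
        ∑ d ∈ Ioo (d0 - 1) d1, (13 / x ^ 5 + 6 * ((d : ℝ) ^ 2)⁻¹) := sum_le_sum fun d hd => by
      obtain ⟨h1, h2⟩ := mem_Ioo.mp hd
      obtain ⟨y, lam, h3⟩ := h d (by omega) h2
      exact per_d h3 m M hm hM
    have s2 := sum_Ioo_inv_sq_le (α := ℝ) (d0 - 1) d1
    rw [show ((d0 - 1 : ℕ) : ℝ) + 1 = d0 by exact_mod_cast (by omega : d0 - 1 + 1 = d0)] at s2
    rw [sum_add_distrib, ← mul_sum, sum_const, nsmul_eq_mul] at s1
    have s3 : (#(Ioo (d0 - 1) d1) : ℝ) ≤ x ^ 2 := by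
      refine le_trans ?_ hd1
      rw [Nat.card_Ioo]
      exact_mod_cast (by omega)
    have s4 : (#(Ioo (d0 - 1) d1) : ℝ) * (13 / x ^ 5) ≤ 13 / x ^ 3 := by
      calc _ ≤ x ^ 2 * (13 / x ^ 5) := by gcongr
        _ = _ := by field_simp
    have s5 : 1 / x ^ 5 ≤ 1 / x ^ 3 := one_div_le_one_div_of_le (by positivity) (h0.pw (by norm_num))
    have s6 : (14 : ℝ) / x ^ 3 = 1 / x ^ 3 + 13 / x ^ 3 := by ring
    have s7 : (12 : ℝ) / d0 = 6 * (2 / d0) := by ring
    linarith

end Pool.Agent.P.MP_de899d_pr
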