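import Pool.Agent.P.MP_de899d_pr.Couple2
import Pool.Agent.P.MP_de899d_pr.Stat1
import Pool.Agent.P.MP_de899d_pr.Stat2

/-! Numerical estimates for the middle range: threshold and static events. -/

set_option linter.unusedSectionVars false
set_option linter.unusedVariables false

namespace Pool.Agent.P.MP_de899d_pr
open Finset Equiv

/-- The parameters of the middle range. -/
structure Par2 (n X : ℕ) (u y : ℝ) (d lam : ℕ) : Prop where
  n1 : X ^ 10000 ≤ n
  n2 : n ≤ 2 * X ^ 10000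
  u0 : 1 ≤ u
  u1 : (n : ℝ) ≤ Real.exp (u ^ 2)
  u2 : Real.exp (10 ^ 11 * u) ≤ X
  d1 : X ^ 199 ≤ d
  d2 : d * X ^ 39 ≤ n
  y0 : 0 ≤ y
  hy : y ^ 2 = d
  l1 : 5000 * y ≤ lam
  l2 : (lam : ℝ) ≤ 10000 * y

namespace Par2
variable {n X : ℕ} {u y : ℝ} {d lam : ℕ} (h : Par2 n X u y d lam)
include h

theorem ux : 10 ^ 21 * u ^ 2 ≤ X := by
  have := (Real.quadratic_le_exp_of_nonneg (x := 10 ^ 11 * u) (by linarith [h.u0])).trans h.u2
  rw [mul_pow] at this
  linarith [h.u0, sq_nonneg u]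
theorem x0 : (10 : ℝ) ^ 21 ≤ X := by nlinarith [h.ux, h.u0]
theorem x1 : (1 : ℝ) ≤ X := le_trans (by norm_num) h.x0
theorem xp : (0 : ℝ) < X := lt_of_lt_of_le one_pos h.x1
theorem pw {i j : ℕ} (hij : i ≤ j) : (X : ℝ) ^ i ≤ X ^ j := pow_le_pow_right₀ h.x1 hij
theorem cpw {c : ℝ} {i j : ℕ} (hc : c ≤ 10 ^ 21) (hij : i < j) : c * (X : ℝ) ^ i ≤ X ^ j := by
  refine le_trans ?_ (h.pw (Nat.succ_le_of_lt hij))
  rw [pow_succ, mul_comm]
  exact mul_le_mul_of_nonneg_left (hc.trans h.x0) (pow_pos h.xp _).le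
theorem n1' : (X : ℝ) ^ 10000 ≤ n := by exact_mod_cast h.n1
theorem n2' : (n : ℝ) ≤ 2 * (X : ℝ) ^ 10000 := by exact_mod_cast h.n2
theorem np : (0 : ℝ) < n := lt_of_lt_of_le (pow_pos h.xp _) h.n1'
theorem d1' : (X : ℝ) ^ 199 ≤ d := by exact_mod_cast h.d1
theorem d2' : (d : ℝ) * X ^ 39 ≤ n := by exact_mod_cast h.d2
theorem d3 : (d : ℝ) ≤ 2 * (X : ℝ) ^ 9961 := by
  refine le_of_mul_le_mul_right (h.d2'.trans (h.n2'.trans (le_of_eq (by ring)))) (pow_pos h.xp 39)
theorem y1 : (X : ℝ) ^ 99 ≤ y := by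
  refine (abs_le_of_sq_le_sq' ?_ h.y0).2
  rw [h.hy, ← pow_mul]
  exact (h.pw (by norm_num)).trans h.d1'
theorem y2 : y ≤ (X : ℝ) ^ 4981 := by
  refine (abs_le_of_sq_le_sq' ?_ (pow_pos h.xp _).le).2
  rw [h.hy, ← pow_mul]
  exact h.d3.trans (h.cpw (by norm_num) (by norm_num))
theorem y3 : (X : ℝ) ≤ y := by simpa using (h.pw (by norm_num : 1 ≤ 99)).trans h.y1
theorem yd : 10 ^ 21 * y ≤ d := by rw [← h.hy]; nlinarith [h.y3, h.x0]
theorem dn : 10 ^ 21 * (d : ℝ) ≤ n := by
  have := (h.cpw (c := 10 ^ 21) (i := 0) (j := 39) le_rfl (by norm_num))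
  nlinarith [h.d2', (Nat.cast_nonneg d : (0 : ℝ) ≤ d)]
theorem ex {z : ℝ} (hz : z ≤ -u ^ 2) : Real.exp z ≤ 1 / n := by
  refine (Real.exp_le_exp.mpr hz).trans ?_
  rw [Real.exp_neg, ← one_div]
  exact one_div_le_one_div_of_le h.np h.u1
theorem ex' {c z : ℝ} {j : ℕ} (hc : c ≤ n) (hz : z + (j + 2) * u ^ 2 ≤ 0) :
    c * (n : ℝ) ^ j * Real.exp z ≤ 1 / n := by
  have h0 := h.np
  calc _ ≤ Real.exp (u ^ 2) * Real.exp (u ^ 2) ^ j * Real.exp z := by
        gcongr
        · exact hc.trans h.u1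
        · exact h.u1
    _ = Real.exp (u ^ 2 + j * u ^ 2 + z) := by rw [← Real.exp_nat_mul, Real.exp_add, Real.exp_add]
    _ ≤ _ := h.ex (by linarith)
end Par2

variable {V A : Type} [Fintype V] [DecidableEq V] [Fintype A] [Nonempty A]

theorem threshold2 (hbin : S_BINOM2) {X d lam : ℕ} {u y : ℝ}
    (h : Par2 (Fintype.card V) X u y d lam) (P : A → Prop) (hP : Pr P * Fintype.card V = d + 1) :
    ∃ a : ℕ, (d : ℝ) / 5 + (6 * lam + 4) ≤ a ∧ a ≤ d + 1 ∧
      Pr (fun ω : V → A => cnt univ (fun _ => P) ω ≤ a) ≤ (X : ℝ) ^ 2 / Fintype.card V ∧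
      X / (2 * Fintype.card V) ≤
        Pr (fun ω : V → A => cnt univ (fun _ => P) ω + (6 * lam + 4) ≤ a) := by
  have xp := h.xp
  have x0 := h.x0
  have hn := h.np
  have y3 := h.y3
  have yd := h.yd
  have dn := h.dn
  have u0 := h.u0
  have l2 := h.l2
  have uy : 10 ^ 21 * u ≤ y := by nlinarith [h.ux]
  have yu : 10 ^ 21 * (y * u) ≤ d := by rw [← h.hy]; nlinarith
  have yu' : y ≤ y * u := by nlinarith
  have hsum : (d : ℝ) + 1 ≤ ∑ i ∈ (univ : Finset V), Pr ((fun _ => P) i) := by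
    rw [sum_const, card_univ, nsmul_eq_mul, mul_comm, hP]
  have f1 := Nat.floor_le (a := (d : ℝ) - 2 * (y * u)) (by linarith)
  have f2 := Nat.lt_floor_add_one ((d : ℝ) - 2 * (y * u))
  set b := ⌊(d : ℝ) - 2 * (y * u)⌋₊ with hb
  have hp : Pr P = (d + 1) / Fintype.card V := by rw [← hP]; field_simp
  have hp0 : 0 < Pr P := by rw [hp]; positivity
  have hp1 : Pr P ≤ 1 / 2 := by rw [hp, div_le_div_iff₀ hn (by norm_num)]; linarith
  have x2 : (X : ℝ) ^ 2 * (d + 2) < Fintype.card V := by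
    have := h.cpw (c := 4) (i := 2) (j := 39) (by norm_num) (by norm_num)
    have : 0 < (X : ℝ) ^ 2 := by positivity
    nlinarith [h.d2']
  have x3 : (2 : ℝ) ≤ X ^ 2 := by nlinarith
  have yp : 0 < y := by linarith
  obtain ⟨a, a1, a2, a3, a4⟩ := hbin V A P b (6 * lam + 4) ((X : ℝ) ^ 2 / Fintype.card V)
    (Real.exp (-(600000 * u / y))) (by positivity) (by rw [div_lt_one hn]; nlinarith)
    (by exact_mod_cast (by linarith : 6 * (lam : ℝ) + 4 ≤ b))
    (by exact_mod_cast (by linarith : (b : ℝ) < Fintype.card V)) hp0 (Real.exp_pos _).le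
    (Real.exp_le_one_iff.mpr (neg_nonpos.mpr (by positivity))) (by
      push_cast
      set w := ((b : ℝ) - (6 * lam + 4) + 1) * (1 - Pr P) with hw
      have w1 : (d : ℝ) / 8 ≤ w := by nlinarith
      have w2 : Pr P * (Fintype.card V - (b - (6 * lam + 4))) ≤ w + 70000 * (y * u) := by
        rw [mul_sub, hP, hw]; nlinarith
      have w3 : 70000 * (y * u) ≤ w * (600000 * u / y) := by
        rw [mul_div_assoc', le_div_iff₀ yp]
        nlinarith [h.hy]
      rw [mul_assoc, Real.exp_neg, inv_mul_le_iff₀ (Real.exp_pos _)]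
      nlinarith [Real.add_one_le_exp (600000 * u / y)]) (by
      refine le_trans (Pr_mono fun ω hω => ?_) ((Pr_lower_gauss univ _ (D := 2 * (y * u) + 1)
        (by linarith) (by positivity) hsum).trans ((h.ex ?_).trans ?_))
      · exact le_trans (by exact_mod_cast hω) (f1.trans (by linarith))
      · rw [neg_le_neg_iff, le_div_iff₀ (by positivity)]
        have : (y * u) ^ 2 = d * u ^ 2 := by rw [mul_pow, h.hy]
        nlinarith
      · rw [div_div, div_le_div_iff₀ hn (by positivity)]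
        nlinarith)
  have a1' : (b : ℝ) ≤ a := by exact_mod_cast a1
  have a5 := a4 (by rw [hP, div_mul_eq_mul_div, div_lt_one hn]; linarith)
  rw [hP] at a5
  refine ⟨a, by linarith, by exact_mod_cast a5, a2, le_trans ?_ a3⟩
  have e5 : 1 / (X : ℝ) ≤ Real.exp (-(600000 * u / y)) ^ (6 * lam + 4 + 1) := by
    refine (one_div_le_one_div_of_le (Real.exp_pos _) h.u2).trans ?_
    rw [← Real.exp_nat_mul, one_div, ← Real.exp_neg]
    refine Real.exp_le_exp.mpr ?_
    push_cast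
    have : (6 * (lam : ℝ) + 4 + 1) * (600000 * u / y) ≤ 10 ^ 11 * u := by
      rw [mul_div_assoc', div_le_iff₀ yp]
      nlinarith
    linarith
  refine le_trans (le_of_eq ?_) (mul_le_mul_of_nonneg_left e5 (by positivity))
  field_simp

theorem Pr_PA (P : A → Prop) (a s : ℕ) {q : ℝ}
    (hq : Pr (fun r : V → A => cnt univ (fun _ => P) r ≤ a) ≤ q) :
    Pr (fun U : V × V → A => ¬ PA (fun e => P (U e)) a s) ≤
      Real.exp (2 * (Fintype.card V * q)) / 2 ^ s := by
  have h1 := Pr_curry fun c : V → V → A =>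
    (s : ℝ) ≤ cnt univ (fun _ (r : V → A) => cnt univ (fun _ => P) r ≤ a) c
  have h2 := Pr_upper univ (fun (_ : V) (r : V → A) => cnt univ (fun _ => P) r ≤ a) (θ := 2)
    (m := s) (μ := Fintype.card V * q) one_le_two (by
      rw [sum_const, card_univ, nsmul_eq_mul]
      exact mul_le_mul_of_nonneg_left hq (Nat.cast_nonneg _))
  rw [Real.rpow_natCast] at h2
  refine le_trans (Pr_mono fun U hU => ?_) (h1.le.trans h2)
  refine Nat.cast_le.mpr ((not_le.mp hU).le.trans (le_of_eq ?_))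
  simp only [low, rdeg_eq]
  unfold cnt
  congr

theorem exp_div_two (z : ℝ) (s : ℕ) : Real.exp z / 2 ^ s ≤ Real.exp (z - 0.69 * s) := by
  rw [Real.exp_sub]
  refine div_le_div_of_nonneg_left (Real.exp_pos _).le (Real.exp_pos _) ?_
  rw [mul_comm, Real.exp_nat_mul]
  refine pow_le_pow_left₀ (Real.exp_pos _).le ?_ _
  rw [← Real.le_log_iff_exp_le (by norm_num)]
  linarith [Real.log_two_gt_d9]

theorem static2_bound {X d lam : ℕ} {u y : ℝ} (h : Par2 (Fintype.card V) X u y d lam)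
    (P' P'' : A → Prop) (hP' : Pr P' * Fintype.card V = d - lam)
    (hP : Pr P'' * Fintype.card V = d + 1) (a a' K : ℕ) (ha : (d : ℝ) / 5 ≤ a')
    (hK : (K : ℝ) + lam ≤ d - lam)
    (hq : Pr (fun ω : V → A => cnt univ (fun _ => P') ω ≤ a) ≤ 2 * X ^ 2 / Fintype.card V) :
    Pr (fun U : V × V → A => ¬ Static2 (fun e => P' (U e)) (fun e => P'' (U e)) a a' lam (X ^ 3)
      (Fintype.card V / 900) K) ≤ 5 / Fintype.card V := by
  have xp := h.xp
  have x0 := h.x0
  have hn := h.np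
  have y3 := h.y3
  have yd := h.yd
  have dn := h.dn
  have ux := h.ux
  have l1 := h.l1
  have l2 := h.l2
  have v1 := (Pr_PA P' a (X ^ 3) hq).trans ((exp_div_two _ _).trans (h.ex (by
    rw [mul_div_cancel₀ _ hn.ne']
    push_cast
    linarith [h.cpw (c := 100) (i := 2) (j := 3) (by norm_num) (by norm_num),
      h.pw (by norm_num : 1 ≤ 2), sq_nonneg u])))
  have w1 : 900 * ((Fintype.card V / 900 : ℕ) : ℝ) ≤ Fintype.card V := by
    exact_mod_cast Nat.mul_div_le _ _
  have w2 : (Fintype.card V : ℝ) ≤ 1800 * ((Fintype.card V / 900 : ℕ) : ℝ) := by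
    have h2 : 900 ≤ Fintype.card V := by
      exact_mod_cast (by linarith : (900 : ℝ) ≤ Fintype.card V)
    exact_mod_cast (by omega : Fintype.card V ≤ 1800 * (Fintype.card V / 900))
  have hξ : 2 * ((9 * 100 : ℝ) ^ 3 * Real.exp (3 - lam / 2)) ≤ 1 / Fintype.card V := by
    have := h.ex' (c := 2 * (9 * 100 : ℝ) ^ 3) (z := 3 - lam / 2) (j := 0) (by linarith)
      (by push_cast; linarith [sq_nonneg u])
    rwa [pow_zero, mul_one, mul_assoc] at this
  have v2 := (stat_PD (V := V) P'' a' lam (Fintype.card V / 900) 100 (by norm_num)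
    (by rw [hP]; linarith) (by linarith) (by exact_mod_cast (by linarith : (6 : ℝ) ≤ lam)) (by
      have : 1 / (Fintype.card V : ℝ) ≤ 1 := by rw [div_le_one hn]; linarith
      linarith)).trans hξ
  have hp'0 : 0 < Pr P' := (mul_pos_iff_of_pos_right hn).mp (by rw [hP']; linarith)
  have v3 := (stat_PE P' lam (Fintype.card V / 900) K hp'0 (by rw [hP']; exact hK)).trans
    (show _ ≤ 1 / (Fintype.card V : ℝ) by
    have h1 : 3 * (Fintype.card V : ℝ) ≤ lam ^ 2 * ((Fintype.card V / 900 : ℕ) : ℝ) ^ 2 /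
        (2 * Pr P' * (Fintype.card V : ℝ) ^ 2) := by
      rw [le_div_iff₀ (by positivity)]
      have h2 := pow_le_pow_left₀ (by linarith) l1 2
      rw [mul_pow, h.hy] at h2
      calc _ = 6 * (Pr P' * Fintype.card V) * (Fintype.card V : ℝ) ^ 2 := by ring
        _ ≤ 6 * d * (1800 * ((Fintype.card V / 900 : ℕ) : ℝ)) ^ 2 := by
          rw [hP']; gcongr; linarith
        _ = (6 * 1800 ^ 2 * d) * ((Fintype.card V / 900 : ℕ) : ℝ) ^ 2 := by ring
        _ ≤ _ := by gcongr; linarith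
    have h5 : (4 : ℝ) ^ Fintype.card V ≤ Real.exp (2 * Fintype.card V) := by
      rw [mul_comm, Real.exp_nat_mul]
      refine pow_le_pow_left₀ (by norm_num) ?_ _
      have := Real.add_one_le_exp (1 : ℝ)
      rw [show (2 : ℝ) = 1 + 1 by norm_num, Real.exp_add]; nlinarith
    calc _ ≤ Real.exp (2 * Fintype.card V) * Real.exp (-(3 * Fintype.card V)) := by gcongr
      _ = Real.exp (-(Fintype.card V : ℝ)) := by rw [← Real.exp_add]; ring_nf
      _ ≤ _ := h.ex (by linarith [sq_nonneg u]))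
  refine le_trans (Pr_le_add fun U hU => not_and_or.mp hU) (le_trans (add_le_add v1
    (le_trans (Pr_le_add fun U hU => not_and_or.mp hU) (add_le_add ((Pr_tr fun U : V × V → A =>
      ¬ PA (fun e => P' (U e)) a (X ^ 3)).le.trans v1)
    (le_trans (Pr_le_add fun U hU => not_and_or.mp hU) (add_le_add v2
    (le_trans (Pr_le_add fun U hU => not_and_or.mp hU) (add_le_add ((Pr_tr fun U : V × V → A =>
      ¬ PD (fun e => P'' (U e)) a' lam (Fintype.card V / 900)).le.trans v2) v3)))))))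
    (le_of_eq (by ring)))

theorem mindeg_bound {X d lam : ℕ} {u y : ℝ} (h : Par2 (Fintype.card V) X u y d lam)
    (P' : A → Prop) (hP' : Pr P' * Fintype.card V = d - lam) :
    Pr (fun U : V × V → A => ¬ ∀ x, 4 * X ^ 3 < rdeg (fun e => P' (U e)) x ∧
      4 * X ^ 3 < rdeg (tr fun e => P' (U e)) x) ≤ 2 / Fintype.card V := by
  have xp := h.xp
  have x0 := h.x0
  have y3 := h.y3
  have yd := h.yd
  have l2 := h.l2
  have v1 : Pr (fun U : V × V → A => ∃ x, rdeg (fun e => P' (U e)) x ≤ 4 * X ^ 3) ≤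
      1 / Fintype.card V := by
    refine (Pr_exists_univ _ (δ := Real.exp (-((d - lam) / 8))) fun x => ?_).trans ?_
    · simp only [rdeg_eq]
      rw [Pr_comp (fun v => (x, v)) (Prod.mk_right_injective x)
        fun r : V → A => cnt univ (fun _ => P') r ≤ 4 * X ^ 3]
      refine le_trans (Pr_mono fun ω hω => ?_) ((Pr_lower_gauss univ (fun _ => P')
        (D := (d - lam) / 2) (μ := d - lam) (by linarith) (by linarith) (by
          rw [sum_const, card_univ, nsmul_eq_mul, mul_comm, hP'])).trans (le_of_eq ?_))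
      · refine le_trans (Nat.cast_le.mpr hω) ?_
        push_cast
        linarith [h.y1, h.pw (by norm_num : 3 ≤ 99)]
      · have : (0 : ℝ) < d - lam := by linarith
        congr 2
        field_simp
        norm_num
    · have := h.ex' (c := Fintype.card V) (z := -((d - lam) / 8)) (j := 0) le_rfl
        (by push_cast; linarith [h.ux, sq_nonneg u])
      rwa [pow_zero, mul_one] at this
  refine le_trans (Pr_le_add fun U hU => ?_) ((add_le_add v1 ((Pr_tr fun U : V × V → A =>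
    ∃ x, rdeg (fun e => P' (U e)) x ≤ 4 * X ^ 3).le.trans v1)).trans (le_of_eq (by ring)))
  obtain ⟨x, hx⟩ := not_forall.mp hU
  exact (not_and_or.mp hx).imp (fun h => ⟨x, not_lt.mp h⟩) fun h => ⟨x, not_lt.mp h⟩

end Pool.Agent.P.MP_de899d_pr
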