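import Pool.Agent.P.MP_de899d_pr.Num4

/-! Numerical estimates for the middle range: orbits, merging, and the sum over all intervals. -/

set_option linter.unusedSectionVars false
set_option linter.unusedVariables false

namespace Pool.Agent.P.MP_de899d_pr
open Finset Equiv

/-- The number of short orbits through a vertex that is tolerated on each scale. -/
def hh (X d : ℕ) : ℕ := X ^ 4 + 120 * (d + 1) / X ^ 5000 + 1

namespace Par2
variable {n X : ℕ} {u y : ℝ} {d lam : ℕ} (h : Par2 n X u y d lam)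
include h

theorem xn : 0 < X := by exact_mod_cast h.xp
theorem h1 : 120 * (d + 1 : ℝ) ≤ (X : ℝ) ^ 5000 * hh X d := by
  have := Nat.lt_mul_div_succ (120 * (d + 1)) (pow_pos h.xn 5000)
  have e : 120 * (d + 1) / X ^ 5000 + 1 ≤ hh X d := Nat.succ_le_succ (Nat.le_add_left _ _)
  exact_mod_cast this.le.trans (Nat.mul_le_mul_left _ e)
theorem h2 : (X : ℝ) ^ 4 ≤ hh X d := by
  exact_mod_cast (Nat.le_succ_of_le (Nat.le_add_right _ _) : X ^ 4 ≤ hh X d)
theorem h3 : (hh X d : ℝ) ≤ 2 * X ^ 4 + 240 * y / X ^ 19 := by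
  have := Nat.cast_div_le (α := ℝ) (m := 120 * (d + 1)) (n := X ^ 5000)
  have xp := h.xp
  have e : (120 * (d + 1) : ℝ) / X ^ 5000 ≤ 240 * y / X ^ 19 := by
    rw [div_le_div_iff₀ (by positivity) (by positivity)]
    calc _ ≤ 120 * (2 * (y * y)) * (X : ℝ) ^ 19 := by
          gcongr; nlinarith [h.hy, h.y3, h.x1]
      _ ≤ 120 * (2 * (y * X ^ 4981)) * (X : ℝ) ^ 19 := by gcongr; exacts [h.y0, h.y2]
      _ = _ := by ring
  unfold hh
  push_cast at this ⊢
  linarith [one_le_pow₀ (n := 4) h.x1]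
theorem h4 : (hh X d : ℝ) ≤ X ^ 4963 := by
  have xp := h.xp
  have : 240 * y / X ^ 19 ≤ 240 * (X : ℝ) ^ 4962 := by
    rw [div_le_iff₀ (by positivity)]
    linarith [h.y2, show 240 * (X : ℝ) ^ 4962 * X ^ 19 = 240 * X ^ 4981 by ring]
  linarith [h.h3, h.pw (by norm_num : 4 ≤ 4962),
    h.cpw (c := 242) (i := 4962) (j := 4963) (by norm_num) (by norm_num)]
theorem xn' {i : ℕ} (hi : i ≤ 10000) : (X : ℝ) ^ i ≤ n := (h.pw hi).trans h.n1'
theorem two (c : ℕ) : Real.exp (0.69 * c) ≤ 2 ^ c := by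
  have := exp_div_two 0 c
  rwa [zero_sub, Real.exp_neg, Real.exp_zero, one_div, inv_le_inv₀ (by positivity)
    (Real.exp_pos _)] at this
end Par2

variable {V A : Type} [Fintype V] [DecidableEq V] [Fintype A] [Nonempty A]

theorem init_bound2 (hinit : S_INIT2) {X d lam : ℕ} {u y : ℝ}
    (h : Par2 (Fintype.card V) X u y d lam) (k : ℕ) (hk : k ≤ d + 1) (M : Fin k → Perm V)
    (hM : Disj M) :
    Pr (fun σ : Perm V => ¬ Few (fun j => σ * M j) (X ^ 4) (3 * hh X d * X)) ≤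
      3 * (Fintype.card V : ℝ) ^ 2 * Real.exp (-(X ^ 4 / 2)) := by
  have xp := h.xp
  have x0 := h.x0
  have hn := h.np
  have dn := h.dn
  have i1 : (2 : ℝ) ^ Nat.log 2 (X ^ 5000) ≤ X ^ 5000 := by
    exact_mod_cast Nat.pow_log_le_self 2 (pow_pos h.xn _).ne'
  have i2 : (X : ℝ) ^ 5000 ≤ 2 ^ (Nat.log 2 (X ^ 5000) + 1) := by
    exact_mod_cast (Nat.lt_pow_succ_log_self (by norm_num) _).le
  set I := Nat.log 2 (X ^ 5000)
  have k1 : (k : ℝ) ≤ d + 1 := by exact_mod_cast hk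
  have i3 : (I : ℝ) + 1 ≤ X := by
    have := Real.exp_le_exp.mp ((h.two I).trans (i1.trans ((h.xn' (by norm_num)).trans h.u1)))
    linarith [h.ux]
  have h0 : (0 : ℝ) ≤ hh X d := Nat.cast_nonneg _
  have xn := h.xn' (i := 1) (by norm_num)
  rw [pow_one] at xn
  refine le_trans (Pr_mono fun σ hσ (h' : Few _ _ _) => hσ ⟨h'.1, fun v => (h'.2 v).trans ?_⟩)
    ((hinit V k (X ^ 4) (hh X d) I M hM ?_ ?_).trans ?_)
  · have : (k : ℝ) / 2 ^ I ≤ hh X d := by
      rw [div_le_iff₀ (by positivity)]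
      rw [pow_succ (2 : ℝ) I] at i2
      linarith [h.h1, mul_le_mul_of_nonneg_right i2 h0]
    nlinarith
  · have : 2 * ((hh X d : ℝ) * 2 ^ (I + 1)) ≤ Fintype.card V := by
      calc _ ≤ 2 * ((X : ℝ) ^ 4963 * (X ^ 5000 * 2)) := by
            rw [pow_succ (2 : ℝ) I]; gcongr; exact h.h4
        _ = 4 * (X : ℝ) ^ 9963 := by ring
        _ ≤ _ := (h.cpw (by norm_num) (by norm_num)).trans h.n1'
    exact_mod_cast this
  · have : 60 * (k : ℝ) * 2 ^ (I + 1) ≤ Fintype.card V * hh X d := by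
      calc _ ≤ 60 * (d + 1 : ℝ) * (X ^ 5000 * 2) := by rw [pow_succ (2 : ℝ) I]; gcongr
        _ = 120 * (d + 1 : ℝ) * X ^ 5000 := by ring
        _ ≤ X ^ 5000 * hh X d * X ^ 5000 := mul_le_mul_of_nonneg_right h.h1 (by positivity)
        _ = X ^ 10000 * hh X d := by ring
        _ ≤ _ := by gcongr; exact h.n1'
    exact_mod_cast this
  · have e1 : 1 / (2 : ℝ) ^ X ^ 4 ≤ Real.exp (-(X ^ 4 / 2)) := by
      have := exp_div_two 0 (X ^ 4)
      rw [Real.exp_zero] at this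
      refine this.trans (Real.exp_le_exp.mpr ?_)
      push_cast
      linarith [pow_pos xp 4]
    have e2 : Real.exp (-(hh X d : ℝ)) ≤ Real.exp (-(X ^ 4 / 2)) :=
      Real.exp_le_exp.mpr (by linarith [h.h2, pow_pos xp 4])
    rw [div_eq_mul_one_div]
    calc _ ≤ (Fintype.card V : ℝ) * ((2 * Fintype.card V) * Real.exp (-(X ^ 4 / 2))) +
          Fintype.card V * Fintype.card V * Real.exp (-(X ^ 4 / 2)) := by
          gcongr ?_ * (?_ * ?_) + _ * ?_ * ?_ <;> linarith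
      _ = _ := by ring

theorem merge_bound (hanch : S_ANCH) (hlayer : S_LAYER) (hproc : S_PROC2) {X d lam : ℕ} {u y : ℝ}
    (h : Par2 (Fintype.card V) X u y d lam) (Rs : A → Prop) (hR : lam ≤ Pr Rs * Fintype.card V)
    (k : ℕ) (hk : k ≤ d + 1) (Γ : V × V → Prop) (π : Fin k → Perm V) (Lr Lc : Finset V)
    (hπ : Disj π) (hΓ : ∀ j x, Γ (x, π j x)) (hF : Few π (X ^ 4) (3 * hh X d * X))
    (hr : #Lr ≤ X ^ 3) (hc : #Lc ≤ X ^ 3)
    (hA : ∀ j (S : Finset V), S.Nonempty → Cl (π j) S → ∃ a ∈ S, a ∉ Lr ∧ π j a ∉ Lc) :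
    Bd k Rs Γ (fun e => e.1 ∈ Lr ∨ e.2 ∈ Lc) ≤
      10002 * Fintype.card V * Real.exp (-(X ^ 2 / 16)) := by
  have xp := h.xp
  have x0 := h.x0
  have hn := h.np
  have xn := h.xn
  have : Nonempty V := Fintype.card_pos_iff.mp (by exact_mod_cast hn)
  have : NeZero (Fintype.card V) := ⟨Fintype.card_ne_zero⟩
  have h0 : (1 : ℝ) ≤ hh X d := (one_le_pow₀ h.x1).trans h.h2
  have d4 : (d + 1 : ℝ) ≤ X ^ 9962 := by
    linarith [h.d3, h.cpw (c := 3) (i := 9961) (j := 9962) (by norm_num) (by norm_num),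
      one_le_pow₀ (n := 9961) h.x1]
  obtain ⟨r, An, ρ, a1, a2, a3⟩ := hanch V k (X ^ 4) (X ^ 3) (20 * X ^ 4 * hh X d)
    (2 * (20 * X ^ 4 * hh X d) + ((d + 1) * X ^ 4 / X ^ 4992 + 1)) (X ^ 4992) _ π Lr Lc hF hr hc hA
    (by
      refine lt_of_lt_of_le ?_ (h.two _)
      refine lt_of_le_of_lt (mul_le_mul_of_nonneg_right h.u1 (Real.exp_pos _).le) ?_
      rw [← Real.exp_add, Real.exp_lt_exp]
      push_cast
      have e1 : u ^ 2 ≤ X ^ 4 * hh X d := by
        nlinarith [h.ux, h.pw (by norm_num : 1 ≤ 4), sq_nonneg u]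
      have e2 : (2 * (X : ℝ) ^ 3 + 1) * (3 * hh X d * X) ≤ (3 * X ^ 3) * (3 * hh X d * X) := by
        gcongr; linarith [one_le_pow₀ (n := 3) h.x1]
      have e3 : (3 * (X : ℝ) ^ 3) * (3 * hh X d * X) = 9 * (X ^ 4 * hh X d) := by ring
      have e4 : 0 < (X : ℝ) ^ 4 * hh X d := by positivity
      linarith) (pow_pos xn _) (by
      have := Nat.lt_mul_div_succ ((d + 1) * X ^ 4) (pow_pos xn 4992)
      have := Nat.mul_le_mul_right (X ^ 4) hk
      rw [add_mul _ _ (X ^ 4992), mul_comm (_ + 1) (X ^ 4992)]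
      omega)
  have p1 : Pr (fun i : Fin (Fintype.card V) => (i : ℕ) < X ^ 7) = X ^ 7 / Fintype.card V := by
    rw [Pr_lt (by exact_mod_cast h.xn' (i := 7) (by norm_num))]
    push_cast
    rfl
  have p2 : ∀ j : ℕ, (X : ℝ) ^ j / 2 ≤ X ^ 7 / Fintype.card V * X ^ (j + 9993) := fun j => by
    rw [div_mul_eq_mul_div, div_le_div_iff₀ (by norm_num) hn]
    calc _ ≤ (X : ℝ) ^ j * (2 * X ^ 10000) := by gcongr; exact h.n2'
      _ = _ := by ring
  have a2' := a2.trans (Nat.mul_le_mul_right _ hk)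
  have ub : ∀ (L : Finset V) i, #L ≤ X ^ 3 → #L + #(An.filter fun p => ρ p = i) *
      (2 * X ^ (5000 + 1)) ≤ X ^ 3 + X ^ 4992 * (2 * X ^ 5001) := fun L i hL =>
    add_le_add hL (Nat.mul_le_mul_right _ (a3 i))
  refine (hlayer V A _ Rs (fun i : Fin (Fintype.card V) => (i : ℕ) < X ^ 7) k _ Γ _ ?_).trans
    ((hproc V _ _ k _ _ X 5000 (X ^ 9995) (X ^ 3 + X ^ 4992 * (2 * X ^ 5001)) ((d + 1) * X ^ 4)
    (by exact_mod_cast (by linarith : (2 : ℝ) ≤ X)) (by norm_num) ?_ ?_ ?_ Γ π r _ _ An ρ a2' hπ hΓ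
    a1 (fun i => ub _ i hr) fun i => ub _ i hc).trans ?_)
  · rw [p1, mul_div_assoc', div_le_iff₀ hn]
    refine le_trans ?_ hR
    have e1 := Nat.cast_div_le (α := ℝ) (m := (d + 1) * X ^ 4) (n := X ^ 4992)
    have e2 : ((d + 1) * X ^ 4 : ℝ) / X ^ 4992 * X ^ 7 ≤ 2 * y := by
      rw [div_mul_eq_mul_div, div_le_iff₀ (by positivity)]
      calc _ ≤ 2 * (y * y) * (X : ℝ) ^ 4 * X ^ 7 := by gcongr; nlinarith [h.hy, h.y3, h.x1]
        _ ≤ 2 * (y * X ^ 4981) * (X : ℝ) ^ 4 * X ^ 7 := by gcongr; exacts [h.y0, h.y2]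
        _ = _ := by ring
    have e3 : (X : ℝ) ^ 11 * hh X d ≤ 2 * X ^ 15 + 240 * y / X ^ 8 :=
      (mul_le_mul_of_nonneg_left h.h3 (by positivity)).trans (le_of_eq (by field_simp))
    have e4 : 240 * y / (X : ℝ) ^ 8 ≤ y := by
      rw [div_le_iff₀ (by positivity)]
      nlinarith [h.y0, h.cpw (c := 240) (i := 0) (j := 8) (by norm_num) (by norm_num)]
    push_cast at e1 ⊢
    have e5 := mul_le_mul_of_nonneg_right e1 (pow_pos xp 7).le
    have e6 : (2 * (20 * (X : ℝ) ^ 4 * hh X d)) * X ^ 7 = 40 * (X ^ 11 * hh X d) := by ring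
    linarith [h.l1, h.y1, h.pw (by norm_num : 15 ≤ 99), h.pw (by norm_num : 7 ≤ 99)]
  · rw [p1]
    push_cast
    linarith [p2 2, h.cpw (c := 16) (i := 1) (j := 2) (by norm_num) (by norm_num)]
  · rw [p1, div_mul_eq_mul_div, div_le_one hn, ← pow_add]
    exact h.xn' (by norm_num)
  · rw [Nat.le_div_iff_mul_le (pow_pos xn _)]
    have k1 : (k : ℝ) ≤ d + 1 := by exact_mod_cast hk
    have e1 : (d + 1 : ℝ) * X ^ 4 ≤ X ^ 9966 :=
      (mul_le_mul_of_nonneg_right d4 (by positivity)).trans (le_of_eq (by ring))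
    have e2 : (X : ℝ) ^ 4992 * (2 * X ^ 5001) = 2 * X ^ 9993 := by ring
    have : (2 * 5000 + 1 : ℝ) * (X ^ 9995 + 2 * (X ^ 3 + X ^ 4992 * (2 * X ^ 5001)) +
        2 * ((d + 1) * X ^ 4) + 3 * k) * X ^ 4 ≤ Fintype.card V := by
      calc _ ≤ (X : ℝ) ^ 9996 * X ^ 4 := by
            gcongr
            linarith [h.cpw (c := 10001 * 12) (i := 9995) (j := 9996) (by norm_num) (by norm_num),
              h.pw (by norm_num : 3 ≤ 9995), h.pw (by norm_num : 9993 ≤ 9995),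
              h.pw (by norm_num : 9966 ≤ 9995), h.pw (by norm_num : 9962 ≤ 9995)]
        _ ≤ _ := by rw [← pow_add]; exact h.n1'
    exact_mod_cast this
  · have e1 : (#An : ℝ) ≤ Fintype.card V := by
      have : (#An : ℝ) ≤ (d + 1) * X ^ 4 := by exact_mod_cast a2'
      refine this.trans ((mul_le_mul_of_nonneg_right d4 (by positivity)).trans ?_)
      rw [← pow_add]
      exact h.xn' (by norm_num)
    rw [p1]
    push_cast
    calc _ ≤ (Fintype.card V : ℝ) * ((2 * 5000 + 1) * Real.exp (-(X ^ 2 / 16)) +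
          Real.exp (-(X ^ 2 / 16))) := by
          gcongr ?_ * (_ * Real.exp ?_ + Real.exp ?_)
          · linarith [p2 2]
          · linarith [p2 8, h.pw (by norm_num : 2 ≤ 8), pow_pos xp 2]
      _ = _ := by ring

end Pool.Agent.P.MP_de899d_pr
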