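import Pool.Agent.P.MP_de899d_pr.Num5

/-! The middle range: one interval of labels, and the sum over all intervals. -/

set_option linter.unusedSectionVars false
set_option linter.unusedVariables false

namespace Pool.Agent.P.MP_de899d_pr
open Finset Equiv

variable {V : Type} [Fintype V] [DecidableEq V]

theorem per_d2 (hbin : S_BINOM2) (hfact : S_FACT2) (hinit : S_INIT2) (hanch : S_ANCH)
    (hlayer : S_LAYER) (hproc : S_PROC2) {X d lam : ℕ} {u y : ℝ}
    (h : Par2 (Fintype.card V) X u y d lam) (m M : ℕ) (hm : 0 < m) (hM : M = Fintype.card V * m) :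
    Pr (fun U : V × V → Fin M => ∃ k, BadT (d * m) ((d + 1) * m) k U) ≤
      3 * X ^ 6 / Fintype.card V := by
  have xp := h.xp
  have x0 := h.x0
  have hn := h.np
  have y3 := h.y3
  have yd := h.yd
  have dn := h.dn
  have l1 := h.l1
  have l2 := h.l2
  have ux := h.ux
  have y1 := h.y1
  have u2 := sq_nonneg u
  obtain ⟨e, he⟩ : ∃ e, d = e + lam := ⟨d - lam, by
    have : lam ≤ d := by exact_mod_cast (by linarith : (lam : ℝ) ≤ d)
    omega⟩
  obtain ⟨f, hf⟩ : ∃ f, Fintype.card V = e + f := ⟨Fintype.card V - e, by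
    have : d ≤ Fintype.card V := by exact_mod_cast (by linarith : (d : ℝ) ≤ Fintype.card V)
    omega⟩
  have he' : (d : ℝ) = e + lam := by exact_mod_cast he
  have hf' : (Fintype.card V : ℝ) = e + f := by exact_mod_cast hf
  have e0 : (0 : ℝ) ≤ e := Nat.cast_nonneg _
  have f1 : (Fintype.card V : ℝ) ≤ 2 * f := by linarith
  have f0 : (0 : ℝ) < f := by linarith
  have m0 : (0 : ℝ) < m := by exact_mod_cast hm
  obtain rfl : M = e * m + f * m := by rw [hM, hf, add_mul]
  have : NeZero (f * m) := ⟨Nat.mul_ne_zero (by exact_mod_cast f0.ne') hm.ne'⟩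
  have : NeZero (e * m + f * m) := ⟨by have := NeZero.ne (f * m); omega⟩
  have P1 : ∀ j : ℕ, (j : ℝ) ≤ 2 * d → Pr (fun i : Fin (e * m + f * m) => (i : ℕ) < j * m) *
      Fintype.card V = j := fun j hj => by
    rw [Pr_lt (by
      rw [← add_mul, ← hf]
      exact Nat.mul_le_mul_right _ (by exact_mod_cast (by linarith : (j : ℝ) ≤ Fintype.card V))),
      hf']
    push_cast
    field_simp
  have P2 : ∀ j : ℕ, (j : ℝ) ≤ d → j ≤ Pr (fun i : Fin (f * m) => (i : ℕ) < j * m) *
      Fintype.card V ∧ Pr (fun i : Fin (f * m) => (i : ℕ) < j * m) * Fintype.card V ≤ 2 * j :=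
    fun j hj => by
      rw [Pr_lt (Nat.mul_le_mul_right _ (by exact_mod_cast (by linarith : (j : ℝ) ≤ f)))]
      push_cast
      rw [mul_div_mul_right _ _ m0.ne', div_mul_eq_mul_div, le_div_iff₀ f0, div_le_iff₀ f0]
      have : (0 : ℝ) ≤ j := Nat.cast_nonneg _
      constructor <;> nlinarith
  have P3 := P1 (d + 1) (by push_cast; linarith)
  push_cast at P3
  obtain ⟨a, a1, a2, a3, a4⟩ := threshold2 hbin h _ P3
  obtain ⟨K, rfl⟩ : ∃ K, a = K + (6 * lam + 4) := ⟨a - (6 * lam + 4), by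
    have : 6 * lam + 4 ≤ a := by exact_mod_cast (by linarith : 6 * (lam : ℝ) + 4 ≤ a)
    omega⟩
  have a2' : (K : ℝ) + (6 * lam + 4) ≤ d + 1 := by exact_mod_cast a2
  push_cast at a1
  have tc := tail_couple (V := V) (T := e * m) (R := f * m) (l := (lam + 1) * m) (a := K + 2 * lam)
    (J := 4 * (lam + 1)) (by omega) (by
      have := (P2 (lam + 1) (by push_cast; linarith)).2
      push_cast at this ⊢
      linarith)
  rw [show e * m + (lam + 1) * m = (d + 1) * m by rw [he]; ring,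
    show K + 2 * lam + 4 * (lam + 1) = K + (6 * lam + 4) by ring] at tc
  have pe : Pr (fun i : Fin (e * m + f * m) => (i : ℕ) < e * m) * Fintype.card V = d - lam := by
    rw [P1 e (by linarith)]; linarith
  have st := static2_bound h _ _ pe P3 (K + 2 * lam) K (K + lam) (by linarith)
    (by push_cast; linarith)
    (tc.trans ((mul_le_mul_of_nonneg_left a3 zero_le_two).trans (le_of_eq (by ring))))
  have x3 := h.pw (by norm_num : 3 ≤ 99)
  have x4 := one_le_pow₀ (n := 3) h.x1
  have s1 : 1800 * (2 * X ^ 3 + 1) ≤ lam := by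
    exact_mod_cast (by linarith [h.cpw (c := 2) (i := 3) (j := 99) (by norm_num) (by norm_num)] :
      1800 * (2 * (X : ℝ) ^ 3 + 1) ≤ lam)
  have iv := interval2 (V := V) hfact (T := e * m) (R := f * m) (l := lam * m)
    (T'' := (d + 1) * m) (a := K + 2 * lam) (a' := K) (μ := lam) (s := X ^ 3)
    (w := Fintype.card V / 900) (K := K) (K' := K + lam) (κ := X ^ 4) (μ0 := 3 * hh X d * X)
    (η := 3 * (Fintype.card V : ℝ) ^ 2 * Real.exp (-(X ^ 4 / 2)))
    (b := 10002 * Fintype.card V * Real.exp (-(X ^ 2 / 16))) (by positivity) (by positivity)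
    (by exact_mod_cast (by linarith : (2 : ℝ) ≤ Fintype.card V)) (pow_pos h.xn _) (by omega)
    (by omega) (by omega) (by exact_mod_cast (by linarith : 4 * (X : ℝ) ^ 3 ≤ K)) (by
      have h2 : 900 ≤ Fintype.card V := by
        exact_mod_cast (by linarith : (900 : ℝ) ≤ Fintype.card V)
      have h3 : Fintype.card V ≤ 1800 * (Fintype.card V / 900) := by omega
      rw [add_mul K]
      refine Nat.add_le_add_left ((Nat.mul_le_mul_left _ h3).trans ?_) _
      rw [← mul_assoc, mul_comm _ 1800]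
      exact Nat.mul_le_mul_right _ s1)
    (Nat.mul_le_mul_right _ (by omega)) (fun k hk => init_bound2 hinit h k (by omega))
    (fun k hk => merge_bound hanch hlayer hproc h _ (P2 lam (by linarith)).1 k (by omega))
  rw [show e * m + lam * m = d * m by rw [he]; ring] at iv
  have r1 := Pr_all_rows (V := V) (fun i : Fin (e * m + f * m) => (i : ℕ) < (d + 1) * m) K
    (a4.trans (Pr_mono fun ω hω => by omega))
  have r2 : Real.exp (-(Fintype.card V * (X / (2 * Fintype.card V) : ℝ))) ≤ 1 / Fintype.card V :=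
    h.ex (by rw [show Fintype.card V * (X / (2 * Fintype.card V) : ℝ) = X / 2 by field_simp]
             linarith)
  have r3 : (K + 1 : ℝ) * ((Fintype.card V : ℝ) ^ (2 * X ^ 3) *
      (3 * (Fintype.card V : ℝ) ^ 2 * Real.exp (-(X ^ 4 / 2))) +
      10002 * Fintype.card V * Real.exp (-(X ^ 2 / 16))) ≤
      1 / Fintype.card V + 1 / Fintype.card V := by
    refine (mul_le_mul_of_nonneg_right (by linarith : (K + 1 : ℝ) ≤ Fintype.card V)
      (by positivity)).trans (le_trans (le_of_eq ?_) (add_le_add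
      (h.ex' (c := 3) (z := -(X ^ 4 / 2)) (j := 2 * X ^ 3 + 3) (by linarith) ?_)
      (h.ex' (c := 10002) (z := -(X ^ 2 / 16)) (j := 2) (by linarith) ?_)))
    · rw [pow_add]; ring
    · push_cast
      have : (2 * (X : ℝ) ^ 3 + 3 + 2) * (10 ^ 21 * u ^ 2) ≤ (7 * X ^ 3) * X := by
        gcongr; linarith
      linarith [show (7 * (X : ℝ) ^ 3) * X = 7 * X ^ 4 by ring, pow_pos xp 4]
    · push_cast
      linarith [h.pw (by norm_num : 1 ≤ 2)]
  refine iv.trans ((add_le_add (r1.trans r2) (add_le_add (mindeg_bound h _ pe)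
    (add_le_add st (add_le_add le_rfl r3)))).trans ?_)
  push_cast
  rw [← add_div, ← add_div, ← add_div, ← add_div, ← add_div,
    show ((X : ℝ) ^ 3) ^ 2 = X ^ 6 by ring]
  refine div_le_div_of_nonneg_right ?_ hn.le
  linarith [h.cpw (c := 10) (i := 0) (j := 6) (by norm_num) (by norm_num)]

theorem mid_bound (hbin : S_BINOM2) (hfact : S_FACT2) (hinit : S_INIT2) (hanch : S_ANCH)
    (hlayer : S_LAYER) (hproc : S_PROC2) {X d1 d2 : ℕ} {u : ℝ} (h0 : 0 < d1) (h12 : d1 < d2)
    (h : ∀ d, d1 ≤ d → d < d2 → ∃ y lam, Par2 (Fintype.card V) X u y d lam) (m M : ℕ)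
    (hm : 0 < m) (hM : M = Fintype.card V * m) :
    Pr (fun U : V × V → Fin M => ∃ k, BadT (d1 * m) (d2 * m) k U) ≤ 3 / X ^ 33 := by
  obtain ⟨y, lam, h1⟩ := h (d2 - 1) (by omega) (by omega)
  have xp := h1.xp
  refine le_trans (Pr_mono (E' := fun U => ∃ d ∈ Ico d1 d2, ∃ k,
    BadT (d * m) ((d + 1) * m) k U) ?_) ((Pr_exists_le' _ _ fun d hd => ?_).trans
      (?_ : _ * (3 * X ^ 6 / Fintype.card V : ℝ) ≤ _))
  · rintro U ⟨k, t, h2, h3, h4⟩
    rcases h3.eq_or_lt with rfl | h3
    · exact ⟨d2 - 1, mem_Ico.mpr ⟨by omega, by omega⟩, k, _, Nat.mul_le_mul_right _ (by omega),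
        Nat.mul_le_mul_right _ (by omega), h4⟩
    · exact ⟨t / m, mem_Ico.mpr ⟨(Nat.le_div_iff_mul_le hm).mpr h2,
        (Nat.div_lt_iff_lt_mul hm).mpr h3⟩, k, t, Nat.div_mul_le_self t m,
        by rw [mul_comm]; exact (Nat.lt_mul_div_succ t hm).le, h4⟩
  · obtain ⟨y, lam, h3⟩ := h d (mem_Ico.mp hd).1 (mem_Ico.mp hd).2
    exact per_d2 hbin hfact hinit hanch hlayer hproc h3 m M hm hM
  · rw [mul_div_assoc', div_le_div_iff₀ h1.np (by positivity)]
    have : (#(Ico d1 d2) : ℝ) ≤ (d2 - 1 : ℕ) := by rw [Nat.card_Ico]; exact_mod_cast (by omega)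
    calc _ = 3 * (#(Ico d1 d2) * (X : ℝ) ^ 39) := by ring
      _ ≤ 3 * ((d2 - 1 : ℕ) * (X : ℝ) ^ 39) := by gcongr
      _ ≤ _ := by linarith [h1.d2']

end Pool.Agent.P.MP_de899d_pr
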