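import Pool.Agent.P.MP_de899d_pr.Couple2

/-! The dense range. -/

set_option linter.unusedSectionVars false
set_option linter.unusedVariables false

namespace Pool.Agent.P.MP_de899d_pr
open Finset Equiv

theorem Pr_band {M : ℕ} [NeZero M] {a b : ℕ} (hab : a ≤ b) (hb : b ≤ M) :
    Pr (fun i : Fin M => a ≤ (i : ℕ) ∧ (i : ℕ) < b) = (b - a) / M := by
  rw [sub_div, ← Pr_lt hb, ← Pr_lt (hab.trans hb), eq_sub_iff_add_eq, Pr, Pr, Pr, ← Ex_add]
  congr 1
  funext i
  by_cases h1 : (i : ℕ) < a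
  · simp [h1, h1.trans_le hab]
  · simp [h1, not_lt.mp h1]

variable {V : Type} [Fintype V] [DecidableEq V]

theorem dense_bound (hclu : S_CLU) (hst : S_ST3) (hdeg : S_DEG) (hdense : S_DENSE) {Y d : ℕ}
    (hY : 10 ^ 20 ≤ Y) (h1 : Y ^ 250 ≤ Fintype.card V) (h2 : Fintype.card V ≤ 2 * Y ^ 250)
    (hd : Fintype.card V ≤ d * Y) (m M : ℕ) (hm : 0 < m) (hM : M = Fintype.card V * m) :
    Pr (fun U : V × V → Fin M => ∃ k, BadT (d * m) M k U) ≤ 1 / Y + (M + 1) * Real.exp (-Y) := by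
  have y0 : 0 < Y := lt_of_lt_of_le (by norm_num) hY
  have y1 : ∀ {i j : ℕ}, i < j → 10 ^ 20 * Y ^ i ≤ Y ^ j := fun {i j} h => by
    refine le_trans ?_ (Nat.pow_le_pow_right y0 (Nat.succ_le_of_lt h))
    rw [pow_succ Y i, mul_comm]
    exact Nat.mul_le_mul_left _ hY
  have n0 : 10 ^ 20 * Y ≤ Fintype.card V := by
    simpa only [pow_one] using (y1 (by norm_num : 1 < 250)).trans h1
  have hn : (0 : ℝ) < Fintype.card V := by exact_mod_cast (by omega : 0 < Fintype.card V)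
  have m0 : (0 : ℝ) < m := by exact_mod_cast hm
  have : NeZero M := ⟨by rw [hM]; exact Nat.mul_ne_zero (by omega) hm.ne'⟩
  obtain ⟨cT, cH, hC⟩ := hclu V (by omega)
  set q := Fintype.card V / (4 * Y) with hq
  have q1 : 4 * Y * q ≤ Fintype.card V := Nat.mul_div_le _ _
  have q2 : Fintype.card V < 4 * Y * (q + 1) := Nat.lt_mul_div_succ _ (by omega)
  let w : ℕ → ℕ := fun j => if j < 2 then q else if j = 2 then Y ^ 235 else Y ^ 201
  let c : ℕ → ℕ := fun i => ∑ j ∈ range i, w j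
  have c1 : Monotone c := fun i j h => sum_le_sum_of_subset (range_mono h)
  have c2 : c 7 * Y ≤ Fintype.card V := by
    have e : c 7 = 2 * q + Y ^ 235 + 4 * Y ^ 201 := by
      simp only [c, w, sum_range_succ, sum_range_zero]
      norm_num
      ring
    have e1 := y1 (by norm_num : 236 < 250)
    have e2 := y1 (by norm_num : 202 < 250)
    have e3 : c 7 * Y = 2 * (Y * q) + Y ^ 236 + 4 * Y ^ 202 := by rw [e]; ring
    rw [mul_assoc] at q1
    omega
  have c3 : c 7 ≤ d := Nat.le_of_mul_le_mul_right (c2.trans hd) y0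
  have c4 : c 7 ≤ Fintype.card V := (Nat.le_mul_of_pos_right _ y0).trans c2
  let P : Fin 7 → Fin M → Prop := fun i l => c i * m ≤ l ∧ (l : ℕ) < c (i + 1) * m
  have p1 : ∀ i, Pr (P i) * Fintype.card V = w i := fun i => by
    rw [Pr_band (Nat.mul_le_mul_right _ (c1 (Nat.le_succ _))) (by
      rw [hM]; exact Nat.mul_le_mul_right _ ((c1 i.2).trans c4)), hM]
    simp only [c, sum_range_succ]
    push_cast
    field_simp
    ring
  have p2 : ∀ i, w i = q → ∀ p : ℝ, p * Fintype.card V = w i → 1 ≤ 5 * Y * p := fun i hi p hp => by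
    refine le_of_mul_le_mul_right ?_ hn
    rw [mul_assoc, hp, hi, one_mul]
    rw [mul_add, mul_assoc] at q2
    rw [mul_assoc] at q1
    exact_mod_cast (by rw [mul_assoc]; omega : Fintype.card V ≤ 5 * Y * q)
  obtain ⟨r1, hr⟩ := hst V (Fin M) Y cT cH P hY h1 h2 hC (fun i j l hi hj => by
    by_contra h
    rcases lt_or_gt_of_ne h with h | h
    · exact absurd (hi.2.trans_le ((Nat.mul_le_mul_right _ (c1 h)).trans hj.1)) (lt_irrefl _)
    · exact absurd (hj.2.trans_le ((Nat.mul_le_mul_right _ (c1 h)).trans hi.1)) (lt_irrefl _))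
    (p2 0 rfl _ (p1 0)) (p2 1 rfl _ (p1 1)) ((p1 2).trans (by simp [w])) (fun i hi => by
      have : 3 ≤ (i : ℕ) := hi
      rw [p1]
      simp only [w, if_neg (by omega : ¬ (i : ℕ) < 2), if_neg (by omega : ¬ (i : ℕ) = 2)]
      push_cast
      rfl)
  refine (Pr_le_add (E₂ := fun U => ∃ t ∈ Icc (d * m) M,
    ¬ DegOK Y fun e => (U e : ℕ) < t ∧ e.1 ≠ e.2) ?_).trans (add_le_add hr
    ((Pr_exists_le' _ _ (δ := Real.exp (-Y)) fun t ht => ?_).trans ?_))
  · rintro U ⟨k, t, t1, t2, a, b, h⟩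
    refine or_iff_not_imp_left.mpr fun h3 => ⟨t, mem_Icc.mpr ⟨t1, t2⟩, fun h4 => h ?_⟩
    refine Tgt.mono (fun e he => he.1) (hdense V Y r1 cT cH _ hY h1 h2 hC (not_not.mp h3) _
      (fun x hx => hx.2 rfl) (fun i e he => ⟨he.1.2.trans_le ?_, he.2⟩) h4 k a b)
    exact (Nat.mul_le_mul_right _ ((c1 i.2).trans c3)).trans t1
  · obtain ⟨t1, t2⟩ := mem_Icc.mp ht
    refine hdeg V (Fin M) Y (fun i => (i : ℕ) < t) hY h1 h2 ?_
    rw [Pr_lt t2, hM, mul_div_assoc', le_div_iff₀ (by push_cast; positivity), one_mul]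
    have : Fintype.card V * m ≤ 2 * Y * t := by
      calc _ ≤ d * Y * m := Nat.mul_le_mul_right _ hd
        _ = Y * (d * m) := by ring
        _ ≤ 2 * Y * t := Nat.mul_le_mul (by omega) t1
    exact_mod_cast this
  · gcongr
    rw [Nat.card_Icc]
    exact_mod_cast (by omega)

end Pool.Agent.P.MP_de899d_pr
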