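import Pool.Agent.P.MP_de899d_pr.Base2
import Pool.Agent.P.MP_de899d_pr.Query

/-! The merging pattern, layers of the reservoir, and many short orbits through one vertex. -/

set_option linter.unusedSectionVars false

namespace Pool.Agent.P.MP_de899d_pr
open Finset Equiv

namespace Patt
variable {V : Type} [Fintype V] [DecidableEq V]

theorem exists_cyc (a : V) (w : ℕ → V) (m : ℕ) (h1 : ∀ i ≤ m, w i ≠ a)
    (h2 : ∀ i j, i < j → j ≤ m → w i ≠ w j) :
    ∃ σ : Perm V, σ a = w 0 ∧ (∀ i < m, σ (w i) = w (i + 1)) ∧ σ (w m) = a ∧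
      ∀ z, z ≠ a → (∀ i ≤ m, z ≠ w i) → σ z = z := by
  induction m with
  | zero =>
    exact ⟨swap a (w 0), swap_apply_left _ _, fun i hi => by omega, swap_apply_right _ _,
      fun z hz hz' => swap_apply_of_ne_of_ne hz (hz' 0 le_rfl)⟩
  | succ m ih =>
    obtain ⟨σ, s1, s2, s3, s4⟩ := ih (fun i hi => h1 i (by omega))
      fun i j hij hj => h2 i j hij (by omega)
    refine ⟨swap a (w (m + 1)) * σ, ?_, fun i hi => ?_, ?_, fun z hz hz' => ?_⟩
    · rw [Perm.mul_apply, s1]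
      exact swap_apply_of_ne_of_ne (h1 0 (by omega)) (h2 0 _ (by omega) le_rfl)
    · rw [Perm.mul_apply]
      rcases Nat.lt_succ_iff_lt_or_eq.1 hi with hi | rfl
      · rw [s2 i hi]
        exact swap_apply_of_ne_of_ne (h1 _ (by omega)) (h2 _ _ (by omega) le_rfl)
      · rw [s3, swap_apply_left]
    · rw [Perm.mul_apply, s4 _ (h1 _ le_rfl) fun i hi => (h2 i _ (by omega) le_rfl).symm,
        swap_apply_right]
    · rw [Perm.mul_apply, s4 z hz fun i hi => hz' i (by omega)]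
      exact swap_apply_of_ne_of_ne hz (hz' _ le_rfl)

theorem walk {f σ : Perm V} {S : Finset V} (hS : Cl (f * σ) S) {r : V} {j : ℕ}
    (hj : (f ^ j) r ∈ S) (d : ℕ) (h : ∀ u, j ≤ u → u < j + d → σ ((f ^ u) r) = (f ^ u) r) :
    (f ^ (j + d)) r ∈ S := by
  induction d with
  | zero => exact hj
  | succ d ih =>
    have := hS _ (ih fun u h1 h2 => h u h1 (by omega))
    rw [Perm.mul_apply, h _ (by omega) (by omega)] at this
    rw [← add_assoc, Surg.pow_succ_apply]
    exact this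

theorem mono {p : ℕ → ℕ} {m : ℕ} (hp : ∀ i < m, p i < p (i + 1)) {i j : ℕ} (hij : i < j)
    (hj : j ≤ m) : p i < p j := by
  induction j with
  | zero => omega
  | succ j ih =>
    rcases Nat.lt_succ_iff_lt_or_eq.1 hij with h | rfl
    · exact (ih h (by omega)).trans (hp j (by omega))
    · exact hp i (by omega)

end Patt

theorem patt : S_PATT := by
  intro V _ _ f r a n0 t p hn hra hp hpt
  obtain ⟨l, l1, -, l3, l4⟩ := Short.period (ρ := f) (L := Fintype.card V) (a := r)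
    ⟨univ, mem_univ _, fun _ _ => mem_univ _, (card_univ (α := V)).le⟩
  have hl : n0 ≤ l := by
    refine (hn ((range l).image fun u => (f ^ u) r) (fun z hz => ?_)
      (mem_image.2 ⟨0, mem_range.2 l1, rfl⟩)).trans (card_image_le.trans (card_range l).le)
    obtain ⟨u, -, rfl⟩ := mem_image.1 hz
    refine mem_image.2 ⟨(u + 1) % l, mem_range.2 (Nat.mod_lt _ l1), ?_⟩
    rw [pow_mod_apply l3, Surg.pow_succ_apply]
  have hle : ∀ i j, i ≤ j → j ≤ 2 * t → p i ≤ p j := fun i j hij hj => by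
    rcases hij.lt_or_eq with h | rfl
    · exact (Patt.mono hp h hj).le
    · exact le_rfl
  have hpl : ∀ i ≤ 2 * t, p i < l := fun i hi => by have := hle i _ hi le_rfl; omega
  have hinj : ∀ u v, u < l → v < l → u ≠ v → (f ^ u) r ≠ (f ^ v) r := fun u v hu hv huv => by
    rcases lt_or_gt_of_ne huv with h | h
    · exact l4 u v h hv
    · exact (l4 v u h hu).symm
  have hna : ∀ u : ℕ, (f ^ u) r ≠ a := fun u hu => hra ⟨u, by rw [zpow_natCast, hu]⟩
  obtain ⟨σ, s1, s2, s3, s4⟩ := Patt.exists_cyc a (fun i => (f ^ p i) r) (2 * t)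
    (fun i _ => hna _) fun i j hij hj =>
      hinj _ _ (hpl i (by omega)) (hpl j hj) (Patt.mono hp hij hj).ne
  refine ⟨σ, s1, s2, s3, s4, ?_⟩
  have hfix : ∀ u < l, (∀ i ≤ 2 * t, u ≠ p i) → σ ((f ^ u) r) = (f ^ u) r := fun u hu h =>
    s4 _ (hna u) fun i hi => hinj _ _ hu (hpl i hi) (h i hi)
  have key : ∀ S : Finset V, Cl (f * σ) S → a ∈ S → Cl f S ∧ r ∈ S := by
    intro S hS ha
    have n1 : ∀ i < 2 * t, f ((f ^ p i) r) ∈ S → (f ^ p (i + 1)) r ∈ S := fun i hi h => by
      have h1 := hp i hi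
      have h2 := hpl (i + 1) (by omega)
      have := Patt.walk hS (j := p i + 1) (by rw [Surg.pow_succ_apply]; exact h)
        (p (i + 1) - (p i + 1)) fun u u1 u2 => hfix u (by omega) fun k hk => by
          rcases le_or_gt k i with h3 | h3
          · have := hle k i h3 (by omega); omega
          · have := hle (i + 1) k h3 hk; omega
      rwa [Nat.add_sub_cancel' (by omega)] at this
    have n2 : f ((f ^ p (2 * t)) r) ∈ S → (f ^ p 0) r ∈ S := fun h => by
      have h2 := hpl (2 * t) le_rfl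
      have h3 := Patt.walk hS (j := p (2 * t) + 1) (by rw [Surg.pow_succ_apply]; exact h)
        (l - (p (2 * t) + 1)) fun u u1 u2 => hfix u (by omega) fun k hk => by
          have := hle k _ hk le_rfl; omega
      rw [Nat.add_sub_cancel' (by omega), l3] at h3
      have := Patt.walk hS (r := r) (j := 0) h3 (p 0) fun u u1 u2 =>
        hfix u (by have := hpl 0 (by omega); omega) fun k hk => by
          have := hle 0 k (by omega) hk; omega
      rwa [zero_add] at this
    have n3 : ∀ i < 2 * t, (f ^ p i) r ∈ S → f ((f ^ p (i + 1)) r) ∈ S := fun i hi h => by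
      have := hS _ h
      rwa [Perm.mul_apply, s2 i hi] at this
    have n4 : f ((f ^ p 0) r) ∈ S := by
      have := hS _ ha
      rwa [Perm.mul_apply, s1] at this
    have ev : ∀ j ≤ t, f ((f ^ p (2 * j)) r) ∈ S := fun j hj => by
      induction j with
      | zero => exact n4
      | succ j ih => exact n3 (2 * j + 1) (by omega) (n1 (2 * j) (by omega) (ih (by omega)))
    have ev2 : ∀ j ≤ t, (f ^ p (2 * j)) r ∈ S := fun j hj => by
      induction j with
      | zero => exact n2 (ev t le_rfl)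
      | succ j ih => exact n1 (2 * j + 1) (by omega) (n3 (2 * j) (by omega) (ih (by omega)))
    have all : ∀ i ≤ 2 * t, (f ^ p i) r ∈ S := fun i hi => by
      obtain ⟨j, rfl | rfl⟩ := Nat.even_or_odd' i
      · exact ev2 j (by omega)
      · exact n1 (2 * j) (by omega) (ev j (by omega))
    have hc : Cl f S := fun z hz => by
      have : ∃ z' ∈ S, σ z' = z := by
        by_cases h1 : z = a
        · exact ⟨_, all _ le_rfl, s3.trans h1.symm⟩
        by_cases h2 : ∃ i ≤ 2 * t, z = (f ^ p i) r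
        · obtain ⟨i, hi, rfl⟩ := h2
          obtain _ | i := i
          · exact ⟨a, ha, s1⟩
          · exact ⟨_, all i (by omega), s2 i (by omega)⟩
        · exact ⟨z, hz, s4 z h1 fun i hi h => h2 ⟨i, hi, h⟩⟩
      obtain ⟨z', h1, rfl⟩ := this
      exact hS _ h1
    exact ⟨hc, Surg.cl_cycle hc (all 0 (by omega))
      (Perm.SameCycle.symm ⟨p 0, by rw [zpow_natCast]⟩)⟩
  intro S hS
  by_cases ha : a ∈ S
  · exact ⟨(key S hS ha).1, iff_of_true ha (key S hS ha).2⟩
  · obtain ⟨h1, h2⟩ := key Sᶜ (cl_compl hS) (mem_compl.2 ha)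
    exact ⟨by simpa using cl_compl h1, iff_of_false ha (mem_compl.1 h2)⟩

namespace Patt

theorem Ex_fst {A C : Type} [Fintype A] [Fintype C] [Nonempty C] (g : A → ℝ) :
    Ex (fun p : A × C => g p.1) = Ex g := by
  rw [Ex_prod]; simp only [Ex_const]

theorem Ex_snd {A C : Type} [Fintype A] [Fintype C] [Nonempty A] (g : C → ℝ) :
    Ex (fun p : A × C => g p.2) = Ex g := by
  rw [Ex_prod]; simp only [Ex_const]

theorem Bd_anti {V A C : Type} [Fintype V] [DecidableEq V] [Fintype A] [Nonempty A] [Fintype C]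
    [Nonempty C] {Rs : A → Prop} {Rc : C → Prop} (h : Pr Rc ≤ Pr Rs) (k : ℕ)
    (Γ Q : V × V → Prop) : Bd k Rs Γ Q ≤ Bd k Rc Γ Q := by
  classical
  have h1 : Pr (fun p : A × C => Rc p.2) ≤ Pr fun p : A × C => Rs p.1 := by
    have e1 : Pr (fun p : A × C => Rc p.2) = Pr Rc := Ex_snd fun c => if Rc c then 1 else 0
    have e2 : Pr (fun p : A × C => Rs p.1) = Pr Rs := Ex_fst fun c => if Rs c then 1 else 0
    rwa [e1, e2]
  have hc : (0 : ℝ) < Fintype.card (A × C) := Nat.cast_pos.mpr Fintype.card_pos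
  rw [Pr_eq_card, Pr_eq_card, div_le_div_iff_of_pos_right hc, Nat.cast_le,
    ← Fintype.card_subtype, ← Fintype.card_subtype] at h1
  obtain ⟨e⟩ := Function.Embedding.nonempty_of_card_le h1
  obtain ⟨τ, hτ⟩ := Perm.exists_extending_pair (f := fun p : {p : A × C // Rc p.2} => p.1)
    (g := fun p => (e p).1) Subtype.val_injective (Subtype.val_injective.comp e.injective)
  have e1 : Bd k Rs Γ Q = Pr fun ω : V × V → A × C =>
      ¬ Tgt k fun e => Γ e ∨ (Rs (τ (ω e)).1 ∧ ¬ Q e) :=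
    (Ex_map (ι := V × V) (fun p : A × C => (τ p).1)
      (fun g => (Ex_equiv τ fun p => g p.1).trans (Ex_fst g)) _).symm
  have e2 : Bd k Rc Γ Q = Pr fun ω : V × V → A × C =>
      ¬ Tgt k fun e => Γ e ∨ (Rc (ω e).2 ∧ ¬ Q e) :=
    (Ex_map (ι := V × V) (fun p : A × C => p.2) Ex_snd _).symm
  rw [e1, e2]
  refine Pr_mono fun ω hω hT => hω (Tgt.mono (hT := hT) fun x hx => hx.imp_right fun hx => ⟨?_, hx.2⟩)
  rw [hτ ⟨ω x, hx.1⟩]
  exact (e _).2

end Patt

theorem layer : S_LAYER := by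
  intro V A A' _ _ _ _ _ _ Rs Rs' k b Γ Q h
  have h1 : Pr (fun c : Fin b → A' => ∃ i, Rs' (c i)) ≤ Pr Rs := by
    refine le_trans (Pr_exists_univ (δ := Pr Rs') _ fun i => ?_) (by rwa [Fintype.card_fin])
    have := Pr_forall (ι := Fin b) {i} fun _ => Rs'
    simp only [mem_singleton, forall_eq, prod_singleton] at this
    exact this.le
  refine (Patt.Bd_anti h1 k Γ Q).trans (le_of_eq ?_)
  let e : (Fin b × V × V → A') ≃ (V × V → Fin b → A') :=
    ⟨fun β x i => β (i, x), fun γ c => γ c.2 c.1, fun _ => rfl, fun _ => rfl⟩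
  unfold Bd Bd2
  rw [← Pr_equiv e]
  refine Pr_congr fun β => not_congr ?_
  simp only [e, coe_fn_mk, exists_and_right]

namespace Patt
variable {V : Type} [Fintype V] [DecidableEq V]

/-- The queries of consecutive walks of length `L`. -/
def qn (τ : ℕ → Perm V) (v : V) (L t : ℕ) (σ : Perm V) : V := q1 (τ (t / L)) v (t % L) σ

open Classical in
/-- The targets. -/
noncomputable def Bn (τ : ℕ → Perm V) (v : V) (L t : ℕ) (σ : Perm V) : Finset V :=
  univ.filter fun z => (∀ s < t / L * L, σ (qn τ v L s σ) ≠ z) ∧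
    ∃ w, (∀ w' < w, ∃ s < t / L * L, qn τ v L s σ = τ (t / L) (((σ * τ (t / L)) ^ w') z)) ∧
      ((σ * τ (t / L)) ^ w) z = v

open Classical in
theorem card_Bn (τ : ℕ → Perm V) (v : V) (L t : ℕ) (σ : Perm V) : #(Bn τ v L t σ) ≤ 1 := by
  have key : ∀ z z' : V, ∀ w w' : ℕ, w ≤ w' → (∀ s < t / L * L, σ (qn τ v L s σ) ≠ z) →
      (∀ u < w', ∃ s < t / L * L, qn τ v L s σ = τ (t / L) (((σ * τ (t / L)) ^ u) z')) →
      ((σ * τ (t / L)) ^ w) z = v → ((σ * τ (t / L)) ^ w') z' = v → z = z' :=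
    fun z z' w w' hv h1 h2 h3 h4 => by
      obtain ⟨d, rfl⟩ := Nat.exists_eq_add_of_le hv
      rw [pow_add, Perm.mul_apply] at h4
      have h5 := ((σ * τ (t / L)) ^ w).injective (h4.trans h3.symm)
      obtain _ | d := d
      · exact h5.symm
      · obtain ⟨s, hs, he⟩ := h2 d (by omega)
        rw [walk_succ, ← he] at h5
        exact absurd h5 (h1 s hs)
  refine card_le_one.2 fun z hz z' hz' => ?_
  obtain ⟨h1, w, h2, h3⟩ := (mem_filter.1 hz).2
  obtain ⟨h1', w', h2', h3'⟩ := (mem_filter.1 hz').2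
  rcases le_total w w' with h | h
  · exact key z z' w w' h h1 h2' h3 h3'
  · exact (key z' z w' w h h1' h2 h3' h3).symm

open Classical in
theorem Bn_sub {τ : ℕ → Perm V} {σ σ' : Perm V} {v : V} {L t : ℕ}
    (h : ∀ s < t / L * L, qn τ v L s σ' = qn τ v L s σ ∧ σ' (qn τ v L s σ) = σ (qn τ v L s σ)) :
    Bn τ v L t σ ⊆ Bn τ v L t σ' := by
  intro z hz
  obtain ⟨h1, w, h2, h3⟩ := (mem_filter.1 hz).2
  have hw := walk_agree (σ := σ) (σ' := σ') (τ := τ (t / L)) (z := z) (v := w) fun s hs => by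
    obtain ⟨r, hr, he⟩ := h2 s hs
    rw [← he]; exact (h r hr).2
  refine mem_filter.2 ⟨mem_univ _, fun s hs => ?_, w, fun w' hw' => ?_, ?_⟩
  · rw [(h s hs).1, (h s hs).2]; exact h1 s hs
  · obtain ⟨r, hr, he⟩ := h2 w' hw'
    exact ⟨r, hr, by rw [(h r hr).1, hw w' hw'.le, he]⟩
  · rw [hw w le_rfl, h3]

theorem qn_eq (τ : ℕ → Perm V) (v : V) {L : ℕ} (i : ℕ) {u : ℕ} (hu : u < L) (σ : Perm V) :
    qn τ v L (i * L + u) σ = q1 (τ i) v u σ := by
  have hL : 0 < L := by omega
  unfold qn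
  rw [Nat.mul_add_mod_self_right, Nat.mod_eq_of_lt hu, add_comm, Nat.add_mul_div_right _ _ hL,
    Nat.div_eq_of_lt hu, zero_add]

theorem locn (τ : ℕ → Perm V) (v : V) {L : ℕ} (hL : 0 < L) : Loc (qn τ v L) (Bn τ v L) := by
  have hq : ∀ t (σ σ' : Perm V), (∀ u < t, σ' (qn τ v L u σ) = σ (qn τ v L u σ)) →
      qn τ v L t σ' = qn τ v L t σ := fun t σ σ' h => by
    refine congrArg (τ (t / L)) (walk_agree (fun s hs => ?_) (t % L) le_rfl)
    have h1 := Nat.div_add_mod' t L
    have := h (t / L * L + s) (by omega)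
    rwa [qn_eq τ v _ (hs.trans (Nat.mod_lt _ hL))] at this
  intro t σ σ' h
  have h1 := Nat.div_mul_le_self t L
  have h2 : ∀ s < t / L * L, qn τ v L s σ' = qn τ v L s σ := fun s hs =>
    hq s σ σ' fun u hu => h u (by omega)
  exact ⟨hq t σ σ' h, Subset.antisymm
    (Bn_sub fun s hs => ⟨(h2 s hs).symm, by rw [h2 s hs, h s (by omega)]⟩)
    (Bn_sub fun s hs => ⟨h2 s hs, h s (by omega)⟩)⟩

open Classical in
theorem hitn {τ : ℕ → Perm V} {σ : Perm V} {v : V} {L i : ℕ} (h1 : #(iorb (σ * τ i) v) ≤ L)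
    {y : V} (hy : y ∈ iorb (σ * τ i) v) (hy' : ∀ i' < i, y ∉ iorb (σ * τ i') v) :
    ∃ u < L, Hit (qn τ v L) (Bn τ v L) (i * L + u) σ := by
  obtain ⟨l, l1, l2, l3, l4⟩ := Short.period (ρ := σ * τ i) (L := L) (a := v)
    ⟨_, self_mem_iorb _ _, iorb_cl _ _, h1⟩
  let P : ℕ → Prop := fun u => ¬ ∃ s < i * L, qn τ v L s σ = q1 (τ i) v u σ
  obtain ⟨u0, hu0, hP0⟩ : ∃ u < l, P u := by
    obtain ⟨j, -, rfl⟩ := (mem_iorb.1 hy).exists_pow_eq'
    refine ⟨(j + (l - 1)) % l, Nat.mod_lt _ l1, fun ⟨s, hs, he⟩ => ?_⟩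
    refine hy' (s / L) (Nat.div_lt_of_lt_mul (by rwa [mul_comm])) (mem_iorb.2 ⟨(s % L + 1 : ℕ), ?_⟩)
    rw [zpow_natCast, walk_succ]
    have h2 := congrArg σ he
    unfold qn q1 at h2
    rw [h2, pow_mod_apply l3, ← walk_succ, show j + (l - 1) + 1 = j + l by omega, pow_add,
      Perm.mul_apply, l3]
  let u := Nat.findGreatest P (l - 1)
  have hu : u < l := lt_of_le_of_lt (Nat.findGreatest_le _) (by omega)
  have hP : P u := Nat.findGreatest_spec (m := u0) (by omega) hP0
  have hmax : ∀ w, u < w → w < l → ¬ P w := fun w a b =>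
    Nat.findGreatest_is_greatest a (by omega)
  have huL : u < L := by omega
  have hd : (i * L + u) / L = i := by
    rw [add_comm, Nat.add_mul_div_right _ _ (by omega), Nat.div_eq_of_lt huL, zero_add]
  refine ⟨u, huL, fun w hw => ?_, ?_⟩
  · rw [qn_eq τ v i huL]
    by_cases hw' : w < i * L
    · exact fun he => hP ⟨w, hw', he⟩
    · obtain ⟨d, rfl⟩ := Nat.exists_eq_add_of_le (not_lt.1 hw')
      rw [qn_eq τ v i (by omega : d < L)]
      exact fun he => l4 d u (by omega) hu ((τ i).injective he)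
  · rw [qn_eq τ v i huL]
    unfold Bn
    rw [hd]
    have hpow : ∀ w, ((σ * τ i) ^ w) (σ (q1 (τ i) v u σ)) = ((σ * τ i) ^ (w + (u + 1))) v :=
      fun w => by rw [pow_add, Perm.mul_apply, walk_succ]; rfl
    refine mem_filter.2 ⟨mem_univ _, fun s hs he => hP ⟨s, hs, σ.injective he⟩,
      l - (u + 1), fun w hw => ?_, ?_⟩
    · rw [hpow]
      exact not_not.1 (hmax (w + (u + 1)) (by omega) (by omega))
    · rw [hpow, Nat.sub_add_cancel (by omega), l3]

end Patt

theorem nc : S_NC := by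
  intro V _ _ h L τ v hL
  rcases Nat.eq_zero_or_pos h with rfl | hh
  · rw [pow_zero]; exact Pr_le_one _
  rcases Nat.eq_zero_or_pos L with rfl | hL0
  · rw [Pr_false]
    · positivity
    · intro σ hσ
      have := card_pos.2 ⟨_, self_mem_iorb (σ * τ ⟨0, hh⟩) v⟩
      have := (hσ ⟨0, hh⟩).1
      omega
  have hpos := Nat.mul_pos hh hL0
  let τ' : ℕ → Perm V := fun i => if hi : i < h then τ ⟨i, hi⟩ else 1
  have hτ : ∀ i : Fin h, τ' i = τ i := fun i => dif_pos i.2
  have hn : (2 : ℝ) * (h * L : ℕ) ≤ Fintype.card V := by exact_mod_cast hL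
  have hp : (0 : ℝ) < (h * L : ℕ) := by exact_mod_cast hpos
  have hn0 : (0 : ℝ) < Fintype.card V := by linarith
  have hb : 1 / ((Fintype.card V : ℝ) - (h * L : ℕ)) ≤ 2 / Fintype.card V := by
    rw [div_le_div_iff₀ (by linarith) hn0]; linarith
  have hb0 : 0 ≤ 1 / ((Fintype.card V : ℝ) - (h * L : ℕ)) := div_nonneg zero_le_one (by linarith)
  refine le_trans (Pr_mono (E' := fun σ => ∃ u : Fin h → Fin L,
    ∀ t ∈ univ.image fun i : Fin h => i.1 * L + (u i).1,
      Hit (Patt.qn τ' v L) (Patt.Bn τ' v L) t σ) fun σ hσ => ?_)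
    ((Pr_exists_univ (δ := (2 / Fintype.card V) ^ h) _ fun u => ?_).trans ?_)
  · have : ∀ i : Fin h, ∃ u < L, Hit (Patt.qn τ' v L) (Patt.Bn τ' v L) (i * L + u) σ := fun i => by
      obtain ⟨h1, y, h2, h3⟩ := hσ i
      refine Patt.hitn (y := y) (by rwa [hτ]) (by rwa [hτ]) fun i' hi' => ?_
      have := h3 ⟨i', hi'.trans i.2⟩ hi'
      rwa [← hτ] at this
    choose u hu hu' using this
    refine ⟨fun i => ⟨u i, hu i⟩, fun t ht => ?_⟩
    obtain ⟨i, -, rfl⟩ := mem_image.1 ht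
    exact hu' i
  · have := hits_le (Patt.locn τ' v hL0) (m := h * L) (by omega) (Patt.card_Bn τ' v L)
      (univ.image fun i : Fin h => i.1 * L + (u i).1) fun t ht => by
        obtain ⟨i, -, rfl⟩ := mem_image.1 ht
        have h1 := Nat.mul_le_mul_right L (Nat.succ_le_of_lt i.2)
        have h2 := (u i).2
        rw [Nat.succ_mul] at h1
        exact mem_range.2 (by omega)
    rw [card_image_of_injective _ fun i j hij => by
      have h1 := congrArg (· / L) hij
      rw [add_comm, Nat.add_mul_div_right _ _ hL0, Nat.div_eq_of_lt (u i).2, add_comm (j.1 * L),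
        Nat.add_mul_div_right _ _ hL0, Nat.div_eq_of_lt (u j).2] at h1
      exact Fin.ext (by omega), card_univ, Fintype.card_fin] at this
    exact this.trans (pow_le_pow_left₀ hb0 hb h)
  · rw [Fintype.card_fun, Fintype.card_fin, Fintype.card_fin, Nat.cast_pow, ← mul_pow]
    refine pow_le_pow_left₀ (by positivity) ?_ h
    rw [← mul_div_assoc]
    refine div_le_div_of_nonneg_right ?_ hn0.le
    have : (0 : ℝ) ≤ L := Nat.cast_nonneg _
    linarith

end Pool.Agent.P.MP_de899d_pr
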