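import Pool.Agent.P.MP_de899d_pr.Base2

/-! Splitting a balanced graph into small balanced matchings. -/

set_option linter.unusedSectionVars false

namespace Pool.Agent.P.MP_de899d_pr
open Finset Equiv

namespace Piece

variable {E κ : Type} [Fintype E] [DecidableEq E] [Fintype κ] [DecidableEq κ]

/-- balanced set of cells -/
def Bal (tl hd : E → κ) (S : Finset E) : Prop :=
  ∀ a, ∑ e ∈ S, (if tl e = a then 1 else 0 : ℕ) = ∑ e ∈ S, (if hd e = a then 1 else 0 : ℕ)

theorem atom (tl hd : E → κ) (S : Finset E) (hS : S.Nonempty) (hb : Bal tl hd S) :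
    ∃ A ⊆ S, A.Nonempty ∧ Bal tl hd A ∧ #A ≤ Fintype.card κ := by
  classical
  obtain ⟨e0, he0⟩ := hS
  have hc : ∀ a : κ, ∃ e : E, a ∈ S.image tl → e ∈ S ∧ tl e = a := by
    intro a
    by_cases h : a ∈ S.image tl
    · obtain ⟨e, he, rfl⟩ := mem_image.1 h
      exact ⟨e, fun _ => ⟨he, rfl⟩⟩
    · exact ⟨e0, fun h' => absurd h' h⟩
  choose c hc using hc
  have hg : ∀ a ∈ S.image tl, hd (c a) ∈ S.image tl := by
    intro a ha
    by_contra hn
    have h1 := hb (hd (c a))
    rw [sum_eq_zero (fun e he => if_neg fun h => hn (mem_image.2 ⟨e, he, h⟩))] at h1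
    have h2 := (sum_eq_zero_iff.1 h1.symm) (c a) (hc a ha).1
    simp at h2
  obtain ⟨P, hP, hmin⟩ := exists_min_image
    ((S.image tl).powerset.filter fun P => P.Nonempty ∧ ∀ a ∈ P, hd (c a) ∈ P) card
    ⟨S.image tl, mem_filter.2 ⟨mem_powerset.2 (Subset.refl _),
      ⟨tl e0, mem_image_of_mem _ he0⟩, hg⟩⟩
  obtain ⟨hP1, hP2, hP3⟩ := mem_filter.1 hP
  have hP1' := mem_powerset.1 hP1
  have hsub : P.image (fun a => hd (c a)) ⊆ P := by
    intro b hb'
    obtain ⟨a, ha, rfl⟩ := mem_image.1 hb'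
    exact hP3 a ha
  have hle := hmin (P.image fun a => hd (c a)) (mem_filter.2 ⟨mem_powerset.2 (hsub.trans hP1'),
    hP2.image _, fun a ha => mem_image_of_mem (fun a => hd (c a)) (hsub ha)⟩)
  have heq : P.image (fun a => hd (c a)) = P := eq_of_subset_of_card_le hsub hle
  have hginj : Set.InjOn (fun a => hd (c a)) P := card_image_iff.1 (by rw [heq])
  have hcinj : Set.InjOn c P := by
    intro a ha b hb' h
    rw [← (hc a (hP1' ha)).2, ← (hc b (hP1' hb')).2, h]
  refine ⟨P.image c, ?_, hP2.image _, ?_, card_image_le.trans (card_le_univ _)⟩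
  · intro e he
    obtain ⟨a, ha, rfl⟩ := mem_image.1 he
    exact (hc a (hP1' ha)).1
  · intro a
    rw [sum_image hcinj, sum_image hcinj]
    have h1 : ∑ b ∈ P, (if tl (c b) = a then 1 else 0 : ℕ)
        = ∑ b ∈ P, (if b = a then 1 else 0 : ℕ) :=
      sum_congr rfl fun b hb' => by rw [(hc b (hP1' hb')).2]
    rw [h1, ← sum_image (f := fun b => (if b = a then 1 else 0 : ℕ)) hginj, heq]

theorem sum_recolour {t : ℕ} {S A : Finset E} (hA : A ⊆ S) (χ : E → Fin t) (j i : Fin t)
    (φ : E → ℕ) :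
    ∑ e ∈ S.filter (fun e => (if e ∈ A then j else χ e) = i), φ e
      = ∑ e ∈ (S \ A).filter (fun e => χ e = i), φ e + if j = i then ∑ e ∈ A, φ e else 0 := by
  rw [sum_filter, sum_filter, ← sum_sdiff hA]
  congr 1
  · exact sum_congr rfl fun e he => by rw [if_neg (mem_sdiff.1 he).2]
  · by_cases h : j = i
    · rw [if_pos h]
      exact sum_congr rfl fun e he => by rw [if_pos he, if_pos h]
    · rw [if_neg h]
      exact sum_eq_zero fun e he => by rw [if_pos he, if_neg h]

theorem step1 (tl hd : E → κ) {t : ℕ} (ht : 0 < t) (S : Finset E) :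
    Bal tl hd S → ∃ χ : E → Fin t, (∀ i, Bal tl hd (S.filter fun e => χ e = i)) ∧
      ∀ i j, #(S.filter fun e => χ e = i) ≤ #(S.filter fun e => χ e = j) + Fintype.card κ := by
  induction S using Finset.strongInduction with
  | H S ih =>
    intro hb
    rcases S.eq_empty_or_nonempty with rfl | hS
    · exact ⟨fun _ => ⟨0, ht⟩, fun i a => by simp, fun i j => by simp⟩
    obtain ⟨A, hA, hA0, hAb, hAc⟩ := atom tl hd S hS hb
    have hb' : Bal tl hd (S \ A) := by
      intro a
      have h1 := hb a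
      rw [← sum_sdiff hA, ← sum_sdiff hA, hAb a] at h1
      exact Nat.add_right_cancel h1
    obtain ⟨χ, h1, h2⟩ := ih (S \ A) (sdiff_ssubset hA hA0) hb'
    obtain ⟨j0, -, hj0⟩ := exists_min_image (univ : Finset (Fin t))
      (fun i => #((S \ A).filter fun e => χ e = i)) ⟨⟨0, ht⟩, mem_univ _⟩
    refine ⟨fun e => if e ∈ A then j0 else χ e, fun i a => ?_, fun i j => ?_⟩
    · rw [sum_recolour hA, sum_recolour hA, h1 i a, hAb a]
    · rw [card_eq_sum_ones, card_eq_sum_ones, sum_recolour hA, sum_recolour hA,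
        ← card_eq_sum_ones, ← card_eq_sum_ones, ← card_eq_sum_ones]
      have h3 := h2 i j
      have h4 := hj0 j (mem_univ _)
      by_cases hi : j0 = i
      · subst hi
        rw [if_pos rfl]
        omega
      · rw [if_neg hi]
        omega

theorem class_le {t B K : ℕ} (ht : 0 < t) (S : Finset E) (χ : E → Fin t)
    (h : ∀ i j, #(S.filter fun e => χ e = i) ≤ #(S.filter fun e => χ e = j) + K)
    (hB : #S + t * K ≤ t * B) (i : Fin t) : #(S.filter fun e => χ e = i) ≤ B := by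
  have h1 : ∑ _j : Fin t, #(S.filter fun e => χ e = i)
      ≤ ∑ j : Fin t, (#(S.filter fun e => χ e = j) + K) := sum_le_sum fun j _ => h i j
  rw [sum_add_distrib, ← card_eq_sum_card_fiberwise (fun e _ => mem_univ (χ e))] at h1
  simp only [sum_const, card_univ, Fintype.card_fin, smul_eq_mul] at h1
  exact Nat.le_of_mul_le_mul_left (h1.trans hB) ht

theorem sum_swap_eq {t : ℕ} {S : Finset E} {e f : E} (he : e ∈ S) (hf : f ∈ S) (χ : E → Fin t)
    (i : Fin t) (φ : E → ℕ) (hφ : φ e = φ f) :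
    ∑ x ∈ S.filter (fun x => χ (swap e f x) = i), φ x
      = ∑ x ∈ S.filter (fun x => χ x = i), φ x := by
  have hS : ∀ x, x ∈ S ↔ swap e f x ∈ S := by
    intro x
    rw [swap_apply_def]
    split_ifs with h1 h2
    · subst h1
      exact ⟨fun _ => hf, fun _ => he⟩
    · subst h2
      exact ⟨fun _ => he, fun _ => hf⟩
    · rfl
  have hφ' : ∀ x, φ x = φ (swap e f x) := by
    intro x
    rw [swap_apply_def]
    split_ifs with h1 h2
    · rw [h1, hφ]
    · rw [h2, hφ]
    · rfl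
  refine sum_equiv (swap e f) (fun x => ?_) (fun x _ => hφ' x)
  rw [mem_filter, mem_filter, hS x]

theorem step2 (tl hd : E → κ) {t B D : ℕ} (S : Finset E) (T : E → E → Prop)
    [∀ x y, Decidable (T x y)] (_hrefl : ∀ x, T x x) (hsymm : ∀ x y, T x y → T y x)
    (hD : ∀ x, #(S.filter fun y => T x y) ≤ D)
    (hty : ∀ e ∈ S, 2 * D * B < #(S.filter fun f => tl f = tl e ∧ hd f = hd e))
    (χ0 : E → Fin t)
    (h0 : ∀ i, Bal tl hd (S.filter fun e => χ0 e = i) ∧ #(S.filter fun e => χ0 e = i) ≤ B) :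
    ∃ χ : E → Fin t,
      (∀ i, Bal tl hd (S.filter fun e => χ e = i) ∧ #(S.filter fun e => χ e = i) ≤ B) ∧
      ∀ e ∈ S, ∀ f ∈ S, e ≠ f → χ e = χ f → ¬ T e f := by
  classical
  obtain ⟨χ, hχ, hmin⟩ := exists_min_image
    ((univ : Finset (E → Fin t)).filter fun χ =>
      ∀ i, Bal tl hd (S.filter fun e => χ e = i) ∧ #(S.filter fun e => χ e = i) ≤ B)
    (fun χ => #((S ×ˢ S).filter fun p : E × E => p.1 ≠ p.2 ∧ χ p.1 = χ p.2 ∧ T p.1 p.2))
    ⟨χ0, mem_filter.2 ⟨mem_univ _, h0⟩⟩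
  have hg := (mem_filter.1 hχ).2
  refine ⟨χ, hg, fun e he e' he' hne hcol hT => ?_⟩
  set bad1 : Finset E := (S.filter fun g => χ g = χ e).biUnion fun g => S.filter fun y => T g y
    with hbad1
  set bad2 : Finset E := (S.filter fun g => T e g).biUnion fun g => S.filter fun y => χ y = χ g
    with hbad2
  have hb1 : bad1.card ≤ B * D :=
    (card_biUnion_le_card_mul _ _ D fun g _ => hD g).trans (Nat.mul_le_mul_right _ (hg _).2)
  have hb2 : bad2.card ≤ D * B :=
    (card_biUnion_le_card_mul _ _ B fun g _ => (hg _).2).trans (Nat.mul_le_mul_right _ (hD e))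
  have hlt : #(bad1 ∪ bad2) < #(S.filter fun f => tl f = tl e ∧ hd f = hd e) := by
    have h1 := card_union_le bad1 bad2
    have h2 := hty e he
    have h3 : 2 * D * B = B * D + D * B := by ring
    omega
  obtain ⟨f, hf, hfb⟩ := exists_mem_notMem_of_card_lt_card hlt
  obtain ⟨hfS, hft, hfh⟩ := mem_filter.1 hf
  have hn1 : ∀ g ∈ S, χ g = χ e → ¬ T g f := fun g hgS h1 h2 =>
    hfb (mem_union_left _ (mem_biUnion.2 ⟨g, mem_filter.2 ⟨hgS, h1⟩, mem_filter.2 ⟨hfS, h2⟩⟩))
  have hn2 : ∀ g ∈ S, T e g → χ f ≠ χ g := fun g hgS h1 h2 =>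
    hfb (mem_union_right _ (mem_biUnion.2 ⟨g, mem_filter.2 ⟨hgS, h1⟩, mem_filter.2 ⟨hfS, h2⟩⟩))
  have hgood : ∀ i, Bal tl hd (S.filter fun x => χ (swap e f x) = i) ∧
      #(S.filter fun x => χ (swap e f x) = i) ≤ B := by
    intro i
    refine ⟨fun a => ?_, ?_⟩
    · rw [sum_swap_eq he hfS χ i _ (by rw [hft]), sum_swap_eq he hfS χ i _ (by rw [hfh])]
      exact (hg i).1 a
    · rw [card_eq_sum_ones, sum_swap_eq he hfS χ i _ rfl, ← card_eq_sum_ones]
      exact (hg i).2
  have hkey : ∀ x ∈ S, ∀ y ∈ S, x ≠ y → χ (swap e f x) = χ (swap e f y) → T x y →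
      x ≠ e ∧ x ≠ f := by
    intro x hx y hy hxy hc hTxy
    constructor
    · rintro rfl
      by_cases hyf : y = f
      · subst hyf
        exact hn1 x hx rfl hTxy
      · rw [swap_apply_left, swap_apply_of_ne_of_ne hxy.symm hyf] at hc
        exact hn2 y hy hTxy hc
    · rintro rfl
      by_cases hye : y = e
      · subst hye
        exact hn1 y hy rfl (hsymm _ _ hTxy)
      · rw [swap_apply_right, swap_apply_of_ne_of_ne hye hxy.symm] at hc
        exact hn1 y hy hc.symm (hsymm _ _ hTxy)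
  have hle := hmin (fun x => χ (swap e f x)) (mem_filter.2 ⟨mem_univ _, hgood⟩)
  refine absurd hle (not_le.2 (card_lt_card ⟨fun p hp => ?_, fun hsub => ?_⟩))
  · obtain ⟨hp1, hp2, hp3, hp4⟩ := mem_filter.1 hp
    obtain ⟨hx, hy⟩ := mem_product.1 hp1
    obtain ⟨h1, h2⟩ := hkey _ hx _ hy hp2 hp3 hp4
    obtain ⟨h3, h4⟩ := hkey _ hy _ hx hp2.symm hp3.symm (hsymm _ _ hp4)
    rw [swap_apply_of_ne_of_ne h1 h2, swap_apply_of_ne_of_ne h3 h4] at hp3
    exact mem_filter.2 ⟨hp1, hp2, hp3, hp4⟩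
  · have hp := hsub (show (e, e') ∈ _ from
      mem_filter.2 ⟨mem_product.2 ⟨he, he'⟩, hne, hcol, hT⟩)
    obtain ⟨-, hp2, hp3, hp4⟩ := mem_filter.1 hp
    exact (hkey e he e' he' hp2 hp3 hp4).1 rfl

open Classical in
theorem eN_eq {V : Type} [Fintype V] [DecidableEq V] (G : V × V → Prop) (X Y : Finset V)
    (S : Finset (V × V)) (h : ∀ e, e ∈ S ↔ (e.1 ∈ X ∧ e.2 ∈ Y) ∧ G e) : eN G X Y = #S := by
  unfold eN
  congr 1
  ext e
  rw [h, mem_filter, mem_product]

open Classical in
theorem row_le {V : Type} [Fintype V] [DecidableEq V] (L : V × V → Prop) (x : V) :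
    #((univ.filter L).filter fun g => g.1 = x) ≤ rdeg L x := by
  unfold rdeg
  refine card_le_card_of_injOn Prod.snd (fun g hg => ?_) (fun g hg g' hg' h => ?_)
  · simp only [coe_filter, mem_filter, mem_univ, true_and, Set.mem_ofPred_eq] at hg ⊢
    rw [← hg.2]
    exact hg.1
  · simp only [coe_filter, mem_filter, mem_univ, true_and, Set.mem_ofPred_eq] at hg hg'
    exact Prod.ext (hg.2.trans hg'.2.symm) h

open Classical in
theorem col_le {V : Type} [Fintype V] [DecidableEq V] (L : V × V → Prop) (y : V) :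
    #((univ.filter L).filter fun g => g.2 = y) ≤ rdeg (tr L) y := by
  unfold rdeg tr
  refine card_le_card_of_injOn Prod.fst (fun g hg => ?_) (fun g hg g' hg' h => ?_)
  · simp only [coe_filter, mem_filter, mem_univ, true_and, Set.mem_ofPred_eq] at hg ⊢
    rw [← hg.2]
    exact hg.1
  · simp only [coe_filter, mem_filter, mem_univ, true_and, Set.mem_ofPred_eq] at hg hg'
    exact Prod.ext h (hg.2.trans hg'.2.symm)

end Piece

open Piece

theorem piece : S_PIECE := by
  intro V κ _ _ _ _ cT cH L r t B ht hrow hcol hbal hty hB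
  classical
  set S : Finset (V × V) := univ.filter L with hS
  have hmem : ∀ e, e ∈ S ↔ L e := fun e => by simp [hS]
  have hT : ∀ (G : V × V → Prop) (U : Finset (V × V)), (∀ e, e ∈ U ↔ G e) → ∀ a,
      eN G (fib cT a) univ = ∑ e ∈ U, (if cT e.1 = a then 1 else 0 : ℕ) := by
    intro G U hU a
    rw [← card_filter]
    exact eN_eq G _ _ _ fun e => by simp [fib, hU, and_comm]
  have hH : ∀ (G : V × V → Prop) (U : Finset (V × V)), (∀ e, e ∈ U ↔ G e) → ∀ a,
      eN G univ (fib cH a) = ∑ e ∈ U, (if cH e.2 = a then 1 else 0 : ℕ) := by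
    intro G U hU a
    rw [← card_filter]
    exact eN_eq G _ _ _ fun e => by simp [fib, hU, and_comm]
  have hb : Bal (fun e : V × V => cT e.1) (fun e => cH e.2) S := by
    intro a
    rw [← hT L S hmem, ← hH L S hmem]
    exact hbal a
  obtain ⟨χ0, h1, h2⟩ := step1 _ _ ht S hb
  have hcard : eN L univ univ = #S := eN_eq L _ _ _ fun e => by simp [hmem]
  rw [hcard] at hB
  obtain ⟨χ, h3, h4⟩ := step2 (fun e : V × V => cT e.1) (fun e => cH e.2) (B := B) (D := 4 * r) S
    (fun e g => g.1 = e.1 ∨ g.1 = e.2 ∨ g.2 = e.1 ∨ g.2 = e.2) (fun x => Or.inl rfl)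
    (fun x y h => by
      rcases h with h | h | h | h
      · exact Or.inl h.symm
      · exact Or.inr (Or.inr (Or.inl h.symm))
      · exact Or.inr (Or.inl h.symm)
      · exact Or.inr (Or.inr (Or.inr h.symm)))
    (fun x => by
      have a1 := (row_le L x.1).trans (hrow _)
      have a2 := (row_le L x.2).trans (hrow _)
      have a3 := (col_le L x.1).trans (hcol _)
      have a4 := (col_le L x.2).trans (hcol _)
      rw [filter_or, filter_or, filter_or]
      have b1 := card_union_le (S.filter fun g => g.1 = x.1) ((S.filter fun g => g.1 = x.2) ∪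
        ((S.filter fun g => g.2 = x.1) ∪ (S.filter fun g => g.2 = x.2)))
      have b2 := card_union_le (S.filter fun g => g.1 = x.2)
        ((S.filter fun g => g.2 = x.1) ∪ (S.filter fun g => g.2 = x.2))
      have b3 := card_union_le (S.filter fun g => g.2 = x.1) (S.filter fun g => g.2 = x.2)
      rw [← hS] at a1 a2 a3 a4
      omega)
    (fun e _ => by
      have a1 := hty (cT e.1) (cH e.2)
      rw [eN_eq L _ _ (S.filter fun f => cT f.1 = cT e.1 ∧ cH f.2 = cH e.2)
        fun f => by simp [fib, hmem, and_comm]] at a1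
      have a2 : 2 * (4 * r) * B = 8 * r * B := by ring
      rw [a2]
      exact a1)
    χ0 (fun i => ⟨h1 i, class_le ht S χ0 h2 hB i⟩)
  refine ⟨χ, fun i => ?_⟩
  have hU : ∀ e, e ∈ S.filter (fun e => χ e = i) ↔ L e ∧ χ e = i := fun e => by
    rw [mem_filter, hmem]
  refine ⟨fun a => ?_, ?_, fun e f he hf hei hfi hne => ?_⟩
  · rw [hT _ _ hU, hH _ _ hU]
    exact (h3 i).1 a
  · rw [eN_eq _ _ _ (S.filter fun e => χ e = i) fun e => by simp [hU]]
    exact (h3 i).2
  · have h5 := h4 e ((hmem e).2 he) f ((hmem f).2 hf) hne (hei.trans hfi.symm)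
    exact ⟨fun h => h5 (Or.inl h.symm), fun h => h5 (Or.inr (Or.inr (Or.inl h.symm))),
      fun h => h5 (Or.inr (Or.inr (Or.inr h.symm)))⟩

end Pool.Agent.P.MP_de899d_pr
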