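import Mathlib

/-! Uniform probability on finite types. -/

set_option linter.unusedSectionVars false

namespace Pool.Agent.P.MP_de899d_pr
open Finset

/-- Uniform expectation. -/
noncomputable def Ex {Ω : Type*} [Fintype Ω] (f : Ω → ℝ) : ℝ := (∑ ω, f ω) / Fintype.card Ω

open Classical in
/-- Uniform probability. -/
noncomputable def Pr {Ω : Type*} [Fintype Ω] (E : Ω → Prop) : ℝ :=
  Ex fun ω => if E ω then 1 else 0

section basic
variable {Ω Ω' : Type*} [Fintype Ω] [Fintype Ω']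

theorem Ex_mono {f g : Ω → ℝ} (h : ∀ ω, f ω ≤ g ω) : Ex f ≤ Ex g :=
  div_le_div_of_nonneg_right (sum_le_sum fun ω _ => h ω) (Nat.cast_nonneg _)

theorem Ex_nonneg {f : Ω → ℝ} (h : ∀ ω, 0 ≤ f ω) : 0 ≤ Ex f :=
  div_nonneg (sum_nonneg fun ω _ => h ω) (Nat.cast_nonneg _)

theorem Ex_const [Nonempty Ω] (c : ℝ) : Ex (fun _ : Ω => c) = c := by
  have : (Fintype.card Ω : ℝ) ≠ 0 := Nat.cast_ne_zero.mpr Fintype.card_ne_zero
  simp [Ex]

theorem Ex_le_const [Nonempty Ω] {f : Ω → ℝ} {c : ℝ} (h : ∀ ω, f ω ≤ c) : Ex f ≤ c :=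
  (Ex_mono h).trans (Ex_const c).le

theorem Ex_add (f g : Ω → ℝ) : Ex (fun ω => f ω + g ω) = Ex f + Ex g := by
  simp only [Ex, sum_add_distrib, add_div]

theorem Ex_mul (c : ℝ) (f : Ω → ℝ) : Ex (fun ω => c * f ω) = c * Ex f := by
  simp only [Ex, ← mul_sum, mul_div_assoc]

theorem Ex_mul' (c : ℝ) (f : Ω → ℝ) : Ex (fun ω => f ω * c) = Ex f * c := by
  simp only [mul_comm _ c, Ex_mul]

theorem Ex_sum {ι : Type*} (J : Finset ι) (f : ι → Ω → ℝ) :
    Ex (fun ω => ∑ i ∈ J, f i ω) = ∑ i ∈ J, Ex (f i) := by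
  simp only [Ex, ← sum_div]
  rw [sum_comm]

theorem Ex_comm (f : Ω → Ω' → ℝ) :
    Ex (fun ω => Ex fun ω' => f ω ω') = Ex fun ω' => Ex fun ω => f ω ω' := by
  simp only [Ex, ← sum_div]
  rw [sum_comm, div_div, div_div, mul_comm]

theorem Ex_equiv (e : Ω ≃ Ω') (f : Ω' → ℝ) : Ex (fun ω => f (e ω)) = Ex f := by
  simp only [Ex, Equiv.sum_comp e f, Fintype.card_congr e]

theorem Ex_prod (f : Ω × Ω' → ℝ) : Ex f = Ex fun ω => Ex fun ω' => f (ω, ω') := by
  simp only [Ex, Fintype.sum_prod_type, Fintype.card_prod, ← sum_div, Nat.cast_mul, div_div,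
    mul_comm]

theorem Pr_equiv (e : Ω ≃ Ω') (E : Ω' → Prop) : Pr (fun ω => E (e ω)) = Pr E := by
  classical
  exact Ex_equiv e fun ω => if E ω then 1 else 0

theorem Pr_eq_card (E : Ω → Prop) [DecidablePred E] :
    Pr E = (#(univ.filter E) : ℝ) / Fintype.card Ω := by
  unfold Pr Ex
  congr 1
  rw [card_filter]
  push_cast
  exact sum_congr rfl fun ω _ => by congr

theorem Pr_nonneg (E : Ω → Prop) : 0 ≤ Pr E :=
  Ex_nonneg fun ω => by split_ifs <;> norm_num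

theorem Pr_le_Ex {E : Ω → Prop} {f : Ω → ℝ} (hf : ∀ ω, 0 ≤ f ω) (h : ∀ ω, E ω → 1 ≤ f ω) :
    Pr E ≤ Ex f :=
  Ex_mono fun ω => by
    by_cases hE : E ω
    · simpa [hE] using h ω hE
    · simpa [hE] using hf ω

theorem Pr_mono {E E' : Ω → Prop} (h : ∀ ω, E ω → E' ω) : Pr E ≤ Pr E' :=
  Pr_le_Ex (fun ω => by split_ifs <;> norm_num) fun ω hE => by simp [h ω hE]

theorem Pr_congr {E E' : Ω → Prop} (h : ∀ ω, E ω ↔ E' ω) : Pr E = Pr E' :=
  le_antisymm (Pr_mono fun ω => (h ω).1) (Pr_mono fun ω => (h ω).2)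

theorem Pr_le_one [Nonempty Ω] (E : Ω → Prop) : Pr E ≤ 1 :=
  Ex_le_const fun ω => by split_ifs <;> norm_num

theorem Pr_false {E : Ω → Prop} (h : ∀ ω, ¬ E ω) : Pr E = 0 := by
  simp [Pr, Ex, h]

theorem Pr_not [Nonempty Ω] (E : Ω → Prop) : Pr (fun ω => ¬ E ω) = 1 - Pr E := by
  rw [eq_sub_iff_add_eq, Pr, Pr, ← Ex_add]
  refine Eq.trans ?_ (Ex_const (Ω := Ω) 1)
  congr 1
  ext ω
  by_cases h : E ω <;> simp [h]

theorem Pr_or_le (E E' : Ω → Prop) : Pr (fun ω => E ω ∨ E' ω) ≤ Pr E + Pr E' := by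
  unfold Pr
  rw [← Ex_add]
  refine Ex_mono fun ω => ?_
  by_cases hE : E ω <;> by_cases hE' : E' ω <;> simp [hE, hE']

theorem Pr_le_add {E E₁ E₂ : Ω → Prop} (h : ∀ ω, E ω → E₁ ω ∨ E₂ ω) : Pr E ≤ Pr E₁ + Pr E₂ :=
  (Pr_mono h).trans (Pr_or_le _ _)

theorem Pr_exists_le {ι : Type*} (J : Finset ι) (E : ι → Ω → Prop) :
    Pr (fun ω => ∃ i ∈ J, E i ω) ≤ ∑ i ∈ J, Pr (E i) := by
  classical
  unfold Pr
  rw [← Ex_sum]
  refine Pr_le_Ex (fun ω => sum_nonneg fun i _ => by split_ifs <;> norm_num) ?_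
  rintro ω ⟨i, hi, hE⟩
  refine le_trans ?_ (single_le_sum (f := fun i => if E i ω then (1 : ℝ) else 0)
    (fun i _ => by split_ifs <;> norm_num) hi)
  simp [hE]

theorem Pr_exists_le' {ι : Type*} (J : Finset ι) (E : ι → Ω → Prop) {δ : ℝ}
    (h : ∀ i ∈ J, Pr (E i) ≤ δ) : Pr (fun ω => ∃ i ∈ J, E i ω) ≤ #J * δ :=
  (Pr_exists_le J E).trans (by simpa using sum_le_card_nsmul J _ δ h)

theorem Pr_exists_univ {ι : Type*} [Fintype ι] (E : ι → Ω → Prop) {δ : ℝ}
    (h : ∀ i, Pr (E i) ≤ δ) : Pr (fun ω => ∃ i, E i ω) ≤ Fintype.card ι * δ := by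
  have := Pr_exists_le' univ E fun i _ => h i
  simpa using this

/-- If the inner probability is at most `β` on the good event. -/
theorem Ex_le_of_good [Nonempty Ω] {G : Ω → Prop} {f : Ω → ℝ} {β : ℝ} (hβ : 0 ≤ β)
    (h1 : ∀ ω, f ω ≤ 1) (h : ∀ ω, G ω → f ω ≤ β) : Ex f ≤ Pr (fun ω => ¬ G ω) + β := by
  classical
  rw [Pr, ← Ex_const (Ω := Ω) β, ← Ex_add]
  refine Ex_mono fun ω => ?_
  by_cases hG : G ω
  · simpa [hG] using h ω hG
  · simp only [hG, not_false_eq_true, if_true]; linarith [h1 ω]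

/-- Markov. -/
theorem Pr_le_div {f : Ω → ℝ} (hf : ∀ ω, 0 ≤ f ω) {c : ℝ} (hc : 0 < c) :
    Pr (fun ω => c ≤ f ω) ≤ Ex f / c := by
  rw [div_eq_inv_mul, ← Ex_mul]
  exact Pr_le_Ex (fun ω => mul_nonneg (inv_nonneg.mpr hc.le) (hf ω)) fun ω h => by
    rw [← div_eq_inv_mul, le_div_iff₀ hc, one_mul]; exact h

end basic

section product
variable {ι α : Type*} [Fintype ι] [DecidableEq ι] [Fintype α]

open Classical in
/-- `ω` on `A`, `ω'` off `A`. -/
noncomputable def splice (A : ι → Prop) (ω ω' : ι → α) : ι → α :=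
  fun i => if A i then ω i else ω' i

theorem splice_in {A : ι → Prop} (ω ω' : ι → α) {i : ι} (h : A i) : splice A ω ω' i = ω i := by
  simp [splice, h]

theorem splice_out {A : ι → Prop} (ω ω' : ι → α) {i : ι} (h : ¬ A i) :
    splice A ω ω' i = ω' i := by
  simp [splice, h]

theorem Ex_splice [Nonempty α] (A : ι → Prop) (f : (ι → α) → ℝ) :
    Ex f = Ex fun ω => Ex fun ω' => f (splice A ω ω') := by
  have hi : Function.Involutive
      fun p : (ι → α) × (ι → α) => (splice A p.1 p.2, splice A p.2 p.1) := by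
    rintro ⟨ω, ω'⟩
    ext i <;> by_cases h : A i <;> simp [splice, h]
  have h1 := Ex_equiv hi.toPerm fun p : (ι → α) × (ι → α) => f p.1
  rw [Ex_prod, Ex_prod] at h1
  simp only [Ex_const] at h1
  rw [← h1]
  rfl

theorem Pr_splice [Nonempty α] (A : ι → Prop) (E : (ι → α) → Prop) :
    Pr E = Ex fun ω => Pr fun ω' => E (splice A ω ω') := by
  classical
  exact Ex_splice A _

/-- Two-stage exposure. -/
theorem Pr_step [Nonempty α] (A : ι → Prop) {E G : (ι → α) → Prop} {β : ℝ} (hβ : 0 ≤ β)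
    (h : ∀ ω, G ω → Pr (fun ω' => E (splice A ω ω')) ≤ β) :
    Pr E ≤ Pr (fun ω => ¬ G ω) + β := by
  rw [Pr_splice A E]
  exact Ex_le_of_good hβ (fun ω => Pr_le_one _) h

theorem Ex_prod_pi [Nonempty α] (S : Finset ι) (f : ι → α → ℝ) :
    Ex (fun ω : ι → α => ∏ i ∈ S, f i (ω i)) = ∏ i ∈ S, Ex (f i) := by
  have hc : (Fintype.card α : ℝ) ≠ 0 := Nat.cast_ne_zero.mpr Fintype.card_ne_zero
  have key : ∀ g : ι → α → ℝ, Ex (fun ω : ι → α => ∏ i, g i (ω i)) = ∏ i, Ex (g i) := by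
    intro g
    simp only [Ex, prod_div_distrib, prod_const, card_univ, Fintype.card_pi, Nat.cast_pow]
    rw [Fintype.prod_sum]
  have := key fun i a => if i ∈ S then f i a else 1
  simp only [prod_ite_mem, univ_inter] at this
  rw [this, ← prod_subset (subset_univ S)]
  · exact prod_congr rfl fun i hi => by simp [hi]
  · intro i _ hi
    simp [hi, Ex_const]

/-- Marginal along an injective reindexing. -/
theorem Ex_comp [Nonempty α] {κ : Type*} [Fintype κ] [DecidableEq κ] (e : κ → ι)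
    (he : Function.Injective e) (F : (κ → α) → ℝ) :
    Ex (fun ω : ι → α => F fun k => ω (e k)) = Ex F := by
  classical
  let φ := Equiv.piEquivPiSubtypeProd (fun i => i ∈ Set.range e) fun _ => α
  let ψ : (Set.range e → α) ≃ (κ → α) := Equiv.arrowCongr (Equiv.ofInjective e he).symm (Equiv.refl α)
  rw [← Ex_equiv φ.symm, Ex_prod, ← Ex_equiv ψ F]
  congr 1
  ext w
  rw [← Ex_const (Ω := {i // ¬ i ∈ Set.range e} → α) (F (ψ w))]
  congr 1
  ext w'
  congr 1
  ext k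
  simp [φ, ψ, Equiv.piEquivPiSubtypeProd]

theorem Pr_comp [Nonempty α] {κ : Type*} [Fintype κ] [DecidableEq κ] (e : κ → ι)
    (he : Function.Injective e) (E : (κ → α) → Prop) :
    Pr (fun ω : ι → α => E fun k => ω (e k)) = Pr E := by
  classical
  exact Ex_comp e he fun w => if E w then 1 else 0

theorem Pr_curry [Nonempty α] {κ : Type*} [Fintype κ] [DecidableEq κ] (E : (ι → κ → α) → Prop) :
    Pr (fun ω : ι × κ → α => E fun i k => ω (i, k)) = Pr E :=
  Pr_equiv (Equiv.curry ι κ α) E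

/-- Independent coordinates. -/
theorem Pr_forall [Nonempty α] (S : Finset ι) (E : ι → α → Prop) :
    Pr (fun ω : ι → α => ∀ i ∈ S, E i (ω i)) = ∏ i ∈ S, Pr (E i) := by
  classical
  unfold Pr
  rw [← Ex_prod_pi]
  congr 1
  ext ω
  rw [prod_boole]
  congr

open Classical in
/-- Number of coordinates in `S` at which the event holds. -/
noncomputable def cnt (S : Finset ι) (E : ι → α → Prop) (ω : ι → α) : ℕ :=
  #(S.filter fun i => E i (ω i))

theorem Ex_pow_cnt [Nonempty α] (S : Finset ι) (E : ι → α → Prop) (θ : ℝ) :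
    Ex (fun ω : ι → α => θ ^ cnt S E ω) = ∏ i ∈ S, (1 + (θ - 1) * Pr (E i)) := by
  classical
  have : ∀ i, 1 + (θ - 1) * Pr (E i) = Ex fun a => if E i a then θ else 1 := by
    intro i
    rw [Pr, ← Ex_mul, ← Ex_const (Ω := α) 1, ← Ex_add, Ex_const]
    congr 1
    ext a
    by_cases h : E i a <;> simp [h]
  simp only [this]
  rw [← Ex_prod_pi]
  congr 1
  ext ω
  rw [prod_ite, prod_const, prod_const_one, mul_one, cnt]

theorem Ex_pow_cnt_le [Nonempty α] (S : Finset ι) (E : ι → α → Prop) {θ : ℝ} (hθ : 0 ≤ θ) :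
    Ex (fun ω : ι → α => θ ^ cnt S E ω) ≤ Real.exp ((θ - 1) * ∑ i ∈ S, Pr (E i)) := by
  rw [Ex_pow_cnt, mul_sum, Real.exp_sum]
  refine prod_le_prod (fun i _ => ?_) fun i _ => by
    linarith [Real.add_one_le_exp ((θ - 1) * Pr (E i))]
  nlinarith [Pr_nonneg (E i), Pr_le_one (E i)]

theorem Ex_cnt [Nonempty α] (S : Finset ι) (E : ι → α → Prop) :
    Ex (fun ω : ι → α => (cnt S E ω : ℝ)) = ∑ i ∈ S, Pr (E i) := by
  classical
  have : ∀ ω : ι → α, (cnt S E ω : ℝ) = ∑ i ∈ S, if E i (ω i) then 1 else 0 := by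
    intro ω
    rw [cnt, card_filter]
    push_cast
    rfl
  simp only [this, Ex_sum]
  refine sum_congr rfl fun i _ => ?_
  have h := Ex_prod_pi {i} fun j (a : α) => if E j a then (1 : ℝ) else 0
  simp only [prod_singleton] at h
  exact h

/-- Upper tail with a free parameter. -/
theorem Pr_upper [Nonempty α] (S : Finset ι) (E : ι → α → Prop) {θ m μ : ℝ} (hθ : 1 ≤ θ)
    (hμ : ∑ i ∈ S, Pr (E i) ≤ μ) :
    Pr (fun ω : ι → α => m ≤ cnt S E ω) ≤ Real.exp (θ * μ) / θ ^ m := by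
  have h0 : 0 < θ := by linarith
  have hs : 0 ≤ ∑ i ∈ S, Pr (E i) := sum_nonneg fun i _ => Pr_nonneg _
  refine le_trans (Pr_mono (E' := fun ω => θ ^ m ≤ θ ^ cnt S E ω) fun ω h => ?_)
    ((Pr_le_div (fun ω => by positivity) (by positivity)).trans ?_)
  · rw [← Real.rpow_natCast]; exact Real.rpow_le_rpow_of_exponent_le hθ h
  · refine div_le_div_of_nonneg_right ((Ex_pow_cnt_le S E h0.le).trans ?_) (by positivity)
    exact Real.exp_le_exp.mpr (by nlinarith)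

/-- Lower tail with a free parameter. -/
theorem Pr_lower [Nonempty α] (S : Finset ι) (E : ι → α → Prop) {h m μ : ℝ} (hh : 0 ≤ h)
    (hμ : μ ≤ ∑ i ∈ S, Pr (E i)) :
    Pr (fun ω : ι → α => (cnt S E ω : ℝ) ≤ m) ≤ Real.exp (h * m - (1 - Real.exp (-h)) * μ) := by
  have h1 : Real.exp (-h) ≤ 1 := Real.exp_le_one_iff.mpr (by linarith)
  refine le_trans (Pr_mono (E' := fun ω => Real.exp (-h * m) ≤ Real.exp (-h) ^ cnt S E ω)
    fun ω hω => ?_) ((Pr_le_div (fun ω => by positivity) (by positivity)).trans ?_)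
  · rw [← Real.exp_nat_mul]; exact Real.exp_le_exp.mpr (by nlinarith)
  · rw [div_le_iff₀ (by positivity), ← Real.exp_add]
    refine (Ex_pow_cnt_le S E (by positivity)).trans (Real.exp_le_exp.mpr ?_)
    nlinarith

/-- Chernoff lower tail, Gaussian form. -/
theorem Pr_lower_gauss [Nonempty α] (S : Finset ι) (E : ι → α → Prop) {D μ : ℝ} (hD : 0 ≤ D)
    (hμ0 : 0 < μ) (hμ : μ ≤ ∑ i ∈ S, Pr (E i)) :
    Pr (fun ω : ι → α => (cnt S E ω : ℝ) ≤ μ - D) ≤ Real.exp (-(D ^ 2 / (2 * μ))) := by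
  have hh : 0 ≤ D / μ := by positivity
  refine (Pr_lower S E hh hμ).trans (Real.exp_le_exp.mpr ?_)
  have key : ∀ x : ℝ, 0 ≤ x → Real.exp (-x) ≤ 1 - x + x ^ 2 / 2 := by
    intro x hx
    have h2 := Real.quadratic_le_exp_of_nonneg hx
    rw [Real.exp_neg, inv_le_comm₀ (Real.exp_pos x) (by nlinarith [sq_nonneg (x - 1)])]
    refine le_trans ?_ h2
    rw [inv_le_iff_one_le_mul₀ (by nlinarith [sq_nonneg (x - 1)])]
    nlinarith [sq_nonneg (x ^ 2)]
  have h3 := key _ hh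
  have h4 : D / μ * (μ - D) - (D / μ - (D / μ) ^ 2 / 2) * μ = -(D ^ 2 / (2 * μ)) := by
    field_simp; ring
  nlinarith

/-- No coordinate succeeds. -/
theorem Pr_none [Nonempty α] (S : Finset ι) (E : ι → α → Prop) {μ : ℝ}
    (hμ : μ ≤ ∑ i ∈ S, Pr (E i)) :
    Pr (fun ω : ι → α => ∀ i ∈ S, ¬ E i (ω i)) ≤ Real.exp (-μ) := by
  classical
  refine (Pr_le_Ex (f := fun ω => (0 : ℝ) ^ cnt S E ω) (fun ω => by positivity) fun ω h => ?_).trans
    ((Ex_pow_cnt_le S E le_rfl).trans (Real.exp_le_exp.mpr (by linarith)))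
  have : cnt S E ω = 0 := by
    rw [cnt, card_eq_zero, filter_eq_empty_iff]; exact h
  simp [this]

/-- Coordinatewise push-forward of a measure preserving map. -/
theorem Ex_map {β : Type*} [Fintype β] [Nonempty α] [Nonempty β] (φ : α → β)
    (hφ : ∀ g : β → ℝ, Ex (fun a => g (φ a)) = Ex g) (F : (ι → β) → ℝ) :
    Ex (fun ω : ι → α => F fun i => φ (ω i)) = Ex F := by
  classical
  have h1 : ∀ (w v : ι → β), F w * ∏ i, (if v i = w i then (1 : ℝ) else 0) =
      if v = w then F w else 0 := by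
    intro w v
    rw [prod_boole]
    simp [funext_iff]
  have h2 : ∀ v : ι → β, F v = ∑ w, F w * ∏ i, (if v i = w i then (1 : ℝ) else 0) := by
    intro v
    simp [h1]
  have h3 : ∀ w : ι → β, Ex (fun ω : ι → α => ∏ i, (if φ (ω i) = w i then (1 : ℝ) else 0)) =
      Ex (fun v : ι → β => ∏ i, (if v i = w i then (1 : ℝ) else 0)) := by
    intro w
    rw [Ex_prod_pi univ fun i a => if φ a = w i then (1 : ℝ) else 0,
      Ex_prod_pi univ fun i b => if b = w i then (1 : ℝ) else 0]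
    exact prod_congr rfl fun i _ => hφ fun b => if b = w i then 1 else 0
  rw [show F = fun v => ∑ w, F w * ∏ i, (if v i = w i then (1 : ℝ) else 0) from funext h2]
  simp only [Ex_sum, Ex_mul, h3]

end product

end Pool.Agent.P.MP_de899d_pr
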