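import Pool.Agent.P.MP_de899d_pr.Grow

/-! Removing the small cycles one anchor at a time. -/

set_option linter.unusedSectionVars false
set_option linter.unusedVariables false

namespace Pool.Agent.P.MP_de899d_pr
open Finset Equiv

variable {V A : Type} [Fintype V] [DecidableEq V] [Fintype A] [Nonempty A]

theorem near_refl (π : Perm V) (n0 : ℕ) (x : V) : near π n0 x x := ⟨0, Nat.zero_le _, Or.inl rfl⟩

theorem near_symm (π : Perm V) (n0 : ℕ) (x y : V) (h : near π n0 x y) : near π n0 y x := by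
  obtain ⟨i, hi, h⟩ := h
  exact ⟨i, hi, h.symm⟩

/-- Gluing an out-path and an in-path. -/
theorem glue {H H₁ H₂ nr : V → V → Prop} (hs : ∀ x y, nr x y → nr y x) (hr : ∀ x, nr x x)
    {Z₁ Z₂ S₁ S₂ : Finset V} {a v y : V} {σ₁ σ₂ : Perm V} (h₁ : Pth H₁ nr Z₁ a v S₁ σ₁)
    (h₂ : Pth H₂ nr Z₂ a y S₂ σ₂) (hv : v ∈ Z₁) (hy : y ∈ Z₂)
    (ha₁ : ∀ z ∈ Z₁, ¬ nr a z) (ha₂ : ∀ z ∈ Z₂, ¬ nr a z) (hZ : ∀ x ∈ Z₁, ∀ z ∈ Z₂, ¬ nr x z)
    (e₁ : ∀ x z, H₁ x z → H x z) (e₂ : ∀ x z, H₂ x z → H z x) (e₃ : H v y) :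
    ∃ (σ : Perm V) (S : Finset V), (∀ z, z ∉ S → σ z = z) ∧ (∀ z ∈ S, H z (σ z) ∧ σ z ≠ z) ∧
      (∀ x ∈ S, ∀ z ∈ S, nr x z → x = z) ∧ a ∈ S ∧ ∀ z ∈ S, z = a ∨ z ∈ Z₁ ∨ z ∈ Z₂ := by
  have hd : ∀ z ∈ S₁, z ∈ S₂ → z = a := fun z h1 h2 =>
    (h₁.zone z h1).elim id fun h3 => (h₂.zone z h2).elim id fun h4 => absurd (hr z) (hZ z h3 z h4)
  have hva : v ≠ a := fun h => ha₁ v hv (h ▸ hr v)
  have inv : ∀ {σ : Perm V} {S : Finset V}, (∀ z, z ∉ S → σ z = z) → ∀ z ∈ S, σ z ∈ S ∧ σ⁻¹ z ∈ S := by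
    intro σ S h z hz
    constructor
    · by_contra h'
      exact h' (by rw [σ.injective (h _ h')]; exact hz)
    · by_contra h'
      have := h _ h'
      rw [show σ (σ⁻¹ z) = z by simp] at this
      exact h' (this ▸ hz)
  have out2 : ∀ z, z ∉ S₂ → σ₂⁻¹ z = z := fun z hz => by
    rw [Perm.inv_eq_iff_eq, h₂.out z hz]
  refine ⟨σ₂⁻¹ * σ₁, S₁ ∪ S₂, fun z hz => ?_, fun z hz => ?_, fun x hx z hz hn => ?_,
    mem_union_left _ h₁.ha, fun z hz => ?_⟩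
  · rw [mem_union, not_or] at hz
    rw [Perm.mul_apply, h₁.out z hz.1, out2 z hz.2]
  · rw [Perm.mul_apply]
    by_cases hz1 : z ∈ S₁
    · by_cases hzv : z = v
      · subst hzv
        have : σ₂⁻¹ a = y := by rw [Perm.inv_eq_iff_eq, h₂.cl]
        rw [h₁.cl, this]
        exact ⟨e₃, fun h => hZ z hv y hy (h ▸ hr y)⟩
      · have h3 : σ₁ z ∉ S₂ := fun h => hzv (σ₁.injective
          ((hd _ (inv h₁.out z hz1).1 h).trans h₁.cl.symm))
        rw [out2 _ h3]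
        exact ⟨e₁ _ _ (h₁.edge z hz1 hzv).1, (h₁.edge z hz1 hzv).2⟩
    · have hz2 : z ∈ S₂ := (mem_union.mp hz).resolve_left hz1
      rw [h₁.out z hz1]
      have h3 : σ₂⁻¹ z ≠ y := fun h => hz1 (by
        rw [Perm.inv_eq_iff_eq, h₂.cl] at h
        exact h ▸ h₁.ha)
      have h4 := h₂.edge _ (inv h₂.out z hz2).2 h3
      rw [show σ₂ (σ₂⁻¹ z) = z by simp] at h4
      exact ⟨e₂ _ _ h4.1, h4.2.symm⟩
  · have key : ∀ x ∈ S₁, ∀ z ∈ S₂, nr x z → x = z := by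
      intro x hx z hz hn
      rcases h₁.zone x hx with rfl | hx'
      · exact h₂.far _ h₂.ha z hz hn
      · rcases h₂.zone z hz with rfl | hz'
        · exact absurd (hs _ _ hn) (ha₁ x hx')
        · exact absurd hn (hZ x hx' z hz')
    rcases mem_union.mp hx with hx | hx <;> rcases mem_union.mp hz with hz | hz
    · exact h₁.far x hx z hz hn
    · exact key x hx z hz hn
    · exact (key z hz x hx (hs _ _ hn)).symm
    · exact h₂.far x hx z hz hn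
  · rcases mem_union.mp hz with hz | hz
    · exact (h₁.zone z hz).imp_right Or.inl
    · exact (h₂.zone z hz).imp_right Or.inr

theorem closing (Rs : A → Prop) (f : Perm V) (W₁ W₂ : Finset V) (ex : V → Finset V) (N K : ℕ)
    (h1 : #W₁ = N) (h2 : #W₂ = N) (hK : ∀ x, #(ex x) ≤ K) (hN : 2 * K ≤ N) :
    Pr (fun β : V × V → A => ¬ ∃ v ∈ W₁, ∃ y ∈ W₂, y ∉ ex v ∧ Rs (β (v, f y))) ≤
      Real.exp (-(Pr Rs * N ^ 2 / 2)) := by
  let S : Finset (V × V) := (W₁.sigma fun v => W₂ \ ex v).image fun p => (p.1, f p.2)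
  have hS : N * N ≤ 2 * #S := by
    rw [card_image_of_injective _ (by
      rintro ⟨p, q⟩ ⟨p', q'⟩ h
      simp only [Prod.mk.injEq, EmbeddingLike.apply_eq_iff_eq] at h
      obtain ⟨rfl, rfl⟩ := h
      rfl), card_sigma, mul_sum]
    calc N * N = #W₁ • N := by rw [h1, smul_eq_mul]
      _ ≤ _ := card_nsmul_le_sum _ _ _ fun v _ => by
        have := le_card_sdiff (ex v) W₂
        have := hK v
        omega
  refine le_trans (Pr_mono fun β hβ e he => ?_) (Pr_none S (fun _ => Rs) ?_)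
  · obtain ⟨⟨v, y⟩, hp, rfl⟩ := mem_image.mp he
    simp only [mem_sigma, mem_sdiff] at hp
    exact fun h => hβ ⟨v, hp.1, y, hp.2.1, hp.2.2, h⟩
  · have : (N : ℝ) * N ≤ 2 * #S := by exact_mod_cast hS
    have := Pr_nonneg Rs
    simp only [sum_const, nsmul_eq_mul]
    nlinarith

theorem proc (hsurg : S_SURG) (hzone : S_ZONE) {k : ℕ} (Rs : A → Prop) (n0 g t ub T : ℕ)
    (hg2 : 2 ≤ g) (ht : t ≠ 0) (hg : 32 * (g : ℝ) ≤ Pr Rs * Fintype.card V)
    (hN : Pr Rs * g ^ t ≤ 1) (hk : 2 * k ≤ g ^ t)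
    (hsz : 4 * ((t + 3) * (2 * n0 + 2) + 2 * ub + 2 * T + 2 * g ^ t + k) ≤ Fintype.card V)
    (Γ : V × V → Prop) (π : Fin k → Perm V) (Up Um : Finset V) (An : Finset (Fin k × V))
    (hD : Disj π) (hΓ : ∀ j x, Γ (x, π j x)) (hA : Anch π n0 Up Um An) (hUp : #Up ≤ ub)
    (hUm : #Um ≤ ub) (hT : #An ≤ T) (p : Fin k × V) (hp : p ∈ An) {b : ℝ} (hb : 0 ≤ b)
    (hc : ∀ (Γ' : V × V → Prop) (π' : Fin k → Perm V) (Up' Um' : Finset V), (∀ e, Γ e → Γ' e) →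
      Disj π' → (∀ j x, Γ' (x, π' j x)) → Anch π' n0 Up' Um' (An.erase p) →
      #Up' ≤ #Up + 2 * g ^ t → #Um' ≤ #Um + 2 * g ^ t →
      Bd k Rs Γ' (fun e => e.1 ∈ Up' ∨ e.2 ∈ Um') ≤ b) :
    Bd k Rs Γ (fun e => e.1 ∈ Up ∨ e.2 ∈ Um) ≤
      2 * t * Real.exp (-(Pr Rs * Fintype.card V / 32)) +
        Real.exp (-(Pr Rs * (g ^ t : ℕ) ^ 2 / 2)) + b := by
  classical
  obtain ⟨j, a⟩ := p
  obtain ⟨hnr, Z₁, Z₂, hZ1, hZ2, hZ⟩ := hzone V (π j) n0
  set f := π j with hf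
  let ns : V → Finset V := fun x => univ.filter fun y => near f n0 x y
  let F : Finset V := Up ∪ Um.image (fun y => f⁻¹ y) ∪ An.image Prod.snd ∪
    An.image (fun q => f⁻¹ (π q.1 q.2)) ∪ ns a
  have hF : #F ≤ 2 * ub + 2 * T + (2 * n0 + 2) := by
    have e1 := card_union_le (Up ∪ Um.image (fun y => f⁻¹ y) ∪ An.image Prod.snd ∪
      An.image (fun q => f⁻¹ (π q.1 q.2))) (ns a)
    have e2 := card_union_le (Up ∪ Um.image (fun y => f⁻¹ y) ∪ An.image Prod.snd)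
      (An.image (fun q => f⁻¹ (π q.1 q.2)))
    have e3 := card_union_le (Up ∪ Um.image (fun y => f⁻¹ y)) (An.image Prod.snd)
    have e4 := card_union_le Up (Um.image (fun y => f⁻¹ y))
    have e5 := card_image_le (s := Um) (f := fun y => f⁻¹ y)
    have e6 := card_image_le (s := An) (f := Prod.snd)
    have e7 := card_image_le (s := An) (f := fun q => f⁻¹ (π q.1 q.2))
    have e8 := hnr a
    simp only [F, ns] at *
    omega
  have hFm : ∀ z, z ∉ F → z ∉ Up ∧ f z ∉ Um ∧ (∀ q ∈ An, q.2 ≠ z) ∧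
      (∀ q ∈ An, π q.1 q.2 ≠ f z) ∧ ¬ near f n0 a z := by
    intro z hz
    simp only [F, ns, mem_union, mem_image, not_or, not_exists, not_and, mem_filter, mem_univ,
      true_and] at hz
    exact ⟨hz.1.1.1.1, fun h => hz.1.1.1.2 _ h (by simp), hz.1.1.2,
      fun q hq h => hz.1.2 q hq (by simp [h]), hz.2⟩
  have hsize : ∀ Z : Finset V, Fintype.card V ≤ 2 * #Z + 4 * n0 + 1 →
      Fintype.card V + 4 * (2 * g ^ t + k + (t + 1) * (2 * n0 + 2)) ≤ 4 * #(Z \ F) := by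
    intro Z h
    have := le_card_sdiff F Z
    have e : (t + 3) * (2 * n0 + 2) = (t + 1) * (2 * n0 + 2) + (4 * n0 + 4) := by ring
    omega
  let ex₁ : V → Finset V := fun v => univ.image fun i => f⁻¹ (π i v)
  let ex₂ : V → Finset V := fun y => univ.image fun i => (π i)⁻¹ (f y)
  let en₁ : V × V ≃ V × V := Equiv.prodCongr (Equiv.refl V) f
  let en₂ : V × V ≃ V × V := (Equiv.prodComm V V).trans en₁
  have haU : a ∉ Up := hA.tail _ hp
  have haM : f a ∉ Um := hA.head _ hp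
  have hb2 : 0 ≤ Real.exp (-(Pr Rs * (g ^ t : ℕ) ^ 2 / 2)) + b := by positivity
  refine le_trans (grow Rs en₁ (near f n0) (near_refl f n0) (near_symm f n0) ns ex₁ (2 * n0 + 2) k
    g t (fun x y h => by simpa [ns] using h) hnr
    (fun x => card_image_le.trans (by simp)) (Z₁ \ F) a _ ?_ hg2 ht hg hN (hsize _ (by omega))
    (b := t * Real.exp (-(Pr Rs * Fintype.card V / 32)) +
      (Real.exp (-(Pr Rs * (g ^ t : ℕ) ^ 2 / 2)) + b)) (by positivity) Γ ?_) (le_of_eq (by ring))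
  · rintro v x hv hx (h | h)
    · rcases hv with rfl | hv
      · exact haU h
      · exact (hFm v (mem_sdiff.mp hv).2).1 h
    · exact (hFm x (mem_sdiff.mp hx).2).2.1 h
  intro Γ₁ U₁ W₁ hΓ₁ hU₁ cU₁ hW₁ cW₁ hP₁
  have hdisj : ∀ x ∈ Z₂ \ F, x ≠ a ∧ x ∉ Z₁ \ F := fun x hx =>
    ⟨fun h => (hFm x (mem_sdiff.mp hx).2).2.2.2.2 (h ▸ near_refl _ _ _),
      fun h => hZ x (mem_sdiff.mp h).1 x (mem_sdiff.mp hx).1 (near_refl _ _ _)⟩
  refine grow Rs en₂ (near f n0) (near_refl f n0) (near_symm f n0) ns ex₂ (2 * n0 + 2) k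
    g t (fun x y h => by simpa [ns] using h) hnr
    (fun x => card_image_le.trans (by simp)) (Z₂ \ F) a _ ?_ hg2 ht hg hN (hsize _ (by omega))
    hb2 Γ₁ ?_
  · rintro y x hy hx ((h | h) | h)
    · exact (hFm x (mem_sdiff.mp hx).2).1 h
    · rcases hy with rfl | hy
      · exact haM h
      · exact (hFm y (mem_sdiff.mp hy).2).2.1 h
    · exact (hU₁ x h).elim (hdisj x hx).1 (hdisj x hx).2
  intro Γ₂ U₂ W₂ hΓ₂ hU₂ cU₂ hW₂ cW₂ hP₂
  refine le_trans (Bd_step (fun e => e.1 ∈ W₁) _ hb ?_) (add_le_add_left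
    (closing Rs f W₁ W₂ ex₁ (g ^ t) k cW₁ cW₂ (fun x => card_image_le.trans (by simp)) hk) _)
  rintro ω ⟨v, hv, y, hy, hvy, hR⟩
  obtain ⟨S₁, σ₁, hp₁⟩ := hP₁ v hv
  obtain ⟨S₂, σ₂, hp₂⟩ := hP₂ y hy
  set Γ₃ : V × V → Prop := fun e => Γ₂ e ∨ (e.1 ∈ W₁ ∧
    ¬ (((e.1 ∈ Up ∨ e.2 ∈ Um) ∨ (en₁.symm e).1 ∈ U₁) ∨ (en₂.symm e).1 ∈ U₂) ∧ Rs (ω e)) with hΓ₃
  obtain ⟨σ, S, s1, s2, s3, s4, s5⟩ := glue (H := fun z z' => Γ₃ (z, f z') ∧ ∀ i, f z' ≠ π i z)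
    (near_symm f n0) (near_refl f n0) hp₁ hp₂ (hW₁ v hv).1 (hW₂ y hy).1
    (fun z hz => (hFm z (mem_sdiff.mp hz).2).2.2.2.2)
    (fun z hz => (hFm z (mem_sdiff.mp hz).2).2.2.2.2)
    (fun x hx z hz => hZ x (mem_sdiff.mp hx).1 z (mem_sdiff.mp hz).1)
    (fun x z h => ⟨Or.inl (hΓ₂ _ h.1), fun i hi => h.2 (mem_image.mpr ⟨i, mem_univ _, by
      rw [← hi]; simp⟩)⟩)
    (fun x z h => ⟨Or.inl h.1, fun i hi => h.2 (mem_image.mpr ⟨i, mem_univ _, by
      rw [hi]; simp⟩)⟩)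
    ⟨Or.inr ⟨hv, by
      rintro (((h | h) | h) | h)
      · exact (hFm v (mem_sdiff.mp (hW₁ v hv).1).2).1 h
      · exact (hFm y (mem_sdiff.mp (hW₂ y hy).1).2).2.1 h
      · exact (hW₁ v hv).2 h
      · exact (hW₂ y hy).2 (by simpa [en₂, en₁] using h), hR⟩,
      fun i hi => hvy (mem_image.mpr ⟨i, mem_univ _, by rw [← hi]; simp⟩)⟩
  have hSF : ∀ z ∈ S, z = a ∨ z ∉ F := fun z hz =>
    (s5 z hz).imp_right fun h => h.elim (fun h => (mem_sdiff.mp h).2) fun h => (mem_sdiff.mp h).2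
  have hnew : ∀ i x, Function.update π j (f * σ) i x = π i x ∨
      (i = j ∧ x ∈ S ∧ Function.update π j (f * σ) i x = f (σ x)) := by
    intro i x
    by_cases hi : i = j
    · subst hi
      by_cases hx : x ∈ S
      · exact Or.inr ⟨rfl, hx, by simp⟩
      · exact Or.inl (by simp [s1 x hx, hf])
    · exact Or.inl (by simp [hi])
  have hanc : ∀ q ∈ An.erase (j, a), q.2 ∉ S ∧ q.2 ≠ a ∧
      Function.update π j (f * σ) q.1 q.2 = π q.1 q.2 := by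
    intro q hq
    obtain ⟨hq1, hq2⟩ := mem_erase.mp hq
    have h1 : q.2 ≠ a := fun h => hq1 (hA.tinj q hq2 _ hp h)
    have h2 : q.2 ∉ S := fun h => (hSF _ h).elim h1 fun h => (hFm _ h).2.2.1 q hq2 rfl
    exact ⟨h2, h1, (hnew q.1 q.2).resolve_right fun h => h2 h.2.1⟩
  refine le_trans (Bd_mono (fun e he => he) ?_) (hc Γ₃ (Function.update π j (f * σ))
    (Up ∪ U₁ ∪ W₁) (Um ∪ U₂.image f) (fun e he => Or.inl (hΓ₂ e (hΓ₁ e he))) ?_ ?_ ?_ ?_ ?_)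
  · rintro e ((((h | h) | h) | h) | h)
    · simp [h]
    · simp [h]
    · have : e.1 ∈ U₁ := h
      simp [this]
    · refine Or.inr (mem_union_right _ (mem_image.mpr ⟨_, h, ?_⟩))
      simp [en₂, en₁]
    · simp [h]
  · intro i i' hi x
    rcases hnew i x with h | ⟨h1, h2, h⟩ <;> rcases hnew i' x with h' | ⟨h1', h2', h'⟩
    · rw [h, h']; exact hD i i' hi x
    · rw [h, h']; exact ((s2 x h2').1.2 i).symm
    · rw [h, h']; exact (s2 x h2).1.2 i'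
    · exact absurd (h1.trans h1'.symm) hi
  · intro i x
    rcases hnew i x with h | ⟨h1, h2, h⟩ <;> rw [h]
    · exact Or.inl (hΓ₂ _ (hΓ₁ _ (hΓ i x)))
    · exact (s2 x h2).1.1
  · refine ⟨fun i O hO hcl hcO => ?_, fun q hq => ?_, fun q hq => ?_,
      fun q hq q' hq' h => hA.tinj q (mem_of_mem_erase hq) q' (mem_of_mem_erase hq') h,
      fun q hq q' hq' h => hA.hinj q (mem_of_mem_erase hq) q' (mem_of_mem_erase hq') ?_⟩
    · by_cases hi : i = j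
      · subst hi
        rw [Function.update_self] at hcl
        obtain ⟨c, hc1, hc2, hc3⟩ := hsurg V f σ n0 S (univ.filter fun c => (i, c) ∈ An) a s1
          (fun z hz => (s2 z hz).2) s3 (fun z hz hz' => (hSF z hz).resolve_right fun h =>
            (hFm z h).2.2.1 _ (mem_filter.mp hz').2 rfl)
          (fun O h1 h2 h3 => by simpa using hA.small i O h1 h2 h3) O hO hcl hcO
        exact ⟨c, hc1, mem_erase.mpr ⟨fun h => hc3 ((Prod.mk.inj h).2 ▸ s4), (mem_filter.mp hc2).2⟩⟩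
      · rw [Function.update_of_ne hi] at hcl
        obtain ⟨c, hc1, hc2⟩ := hA.small i O hO hcl hcO
        exact ⟨c, hc1, mem_erase.mpr ⟨fun h => hi (Prod.mk.inj h).1, hc2⟩⟩
    · have hq2 := mem_of_mem_erase hq
      have key : ∀ Z : Finset V, q.2 ∉ Z \ F := fun Z h =>
        (hFm _ (mem_sdiff.mp h).2).2.2.1 q hq2 rfl
      simp only [mem_union, not_or]
      exact ⟨⟨hA.tail q hq2, fun h => (hU₁ _ h).elim (hanc q hq).2.1 (key _)⟩,
        fun h => key _ (hW₁ _ h).1⟩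
    · have hq2 := mem_of_mem_erase hq
      rw [(hanc q hq).2.2, mem_union, not_or]
      refine ⟨hA.head q hq2, fun h => ?_⟩
      obtain ⟨u, hu, hu'⟩ := mem_image.mp h
      rcases hU₂ u hu with rfl | hu
      · exact (mem_erase.mp hq).1 (hA.hinj q hq2 _ hp hu'.symm)
      · exact (hFm u (mem_sdiff.mp hu).2).2.2.2.1 q hq2 hu'.symm
    · rwa [(hanc q hq).2.2, (hanc q' hq').2.2] at h
  · have := card_union_le (Up ∪ U₁) W₁
    have := card_union_le Up U₁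
    omega
  · have := card_union_le Um (U₂.image f)
    have := card_image_le (s := U₂) (f := f)
    omega

/-- The error term of the merging phases. -/
noncomputable def err23 (n ρ : ℝ) (k n0 t N T : ℕ) : ℝ :=
  T * (2 * t * Real.exp (-(ρ * n / 32)) + Real.exp (-(ρ * N ^ 2 / 2))) +
    (k * (n / n0) * Real.exp (-(ρ ^ 2 * n0 ^ 2 / 8)) + k ^ 2 * ρ ^ 3 * n ^ 2 + k ^ 2 * ρ ^ 4 * n ^ 3)

theorem p23 (hsurg : S_SURG) (hzone : S_ZONE) (hph : S_PH3) {k : ℕ} (Rs : A → Prop)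
    (n0 g t ub T : ℕ) (hg2 : 2 ≤ g) (ht : t ≠ 0) (hg : 32 * (g : ℝ) ≤ Pr Rs * Fintype.card V)
    (hN : Pr Rs * g ^ t ≤ 1) (hk : 2 * k ≤ g ^ t)
    (hsz : 4 * ((t + 3) * (2 * n0 + 2) + 2 * ub + 2 * T + 2 * g ^ t + k) ≤ Fintype.card V)
    (hub : 4 * ub ≤ n0) (hk0 : 8 * k ≤ n0) (hn0 : 0 < n0) :
    ∀ (r : ℕ) (Γ : V × V → Prop) (π : Fin k → Perm V) (Up Um : Finset V)
      (An : Finset (Fin k × V)), #An ≤ r → r ≤ T → Disj π → (∀ j x, Γ (x, π j x)) →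
      Anch π n0 Up Um An → #Up + r * (2 * g ^ t) ≤ ub → #Um + r * (2 * g ^ t) ≤ ub →
      Bd k Rs Γ (fun e => e.1 ∈ Up ∨ e.2 ∈ Um) ≤
        err23 (Fintype.card V) (Pr Rs) k n0 t (g ^ t) r := by
  have hρ := Pr_nonneg Rs
  have base : ∀ (r : ℕ) (Γ : V × V → Prop) (π : Fin k → Perm V) (Up Um : Finset V), Disj π →
      (∀ j x, Γ (x, π j x)) → Anch π n0 Up Um ∅ → #Up ≤ ub → #Um ≤ ub →
      Bd k Rs Γ (fun e => e.1 ∈ Up ∨ e.2 ∈ Um) ≤
        err23 (Fintype.card V) (Pr Rs) k n0 t (g ^ t) r := by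
    intro r Γ π Up Um hD hΓ hA h1 h2
    refine le_trans ?_ (le_trans (hph V A Rs k n0 Γ π Up Um hD hΓ (fun j S h3 h4 => ?_)
      (by omega) hk0 hn0) (le_add_of_nonneg_left (by positivity)))
    · exact Pr_mono fun β h1 h2 => h1 (Tgt.mono (fun e he => he.imp_right fun h =>
        ⟨h.1, not_or.mpr h.2⟩) h2)
    · by_contra h
      simpa using hA.small j S h3 h4 (not_lt.mp h)
  intro r
  induction r with
  | zero =>
    intro Γ π Up Um An h1 _ hD hΓ hA h2 h3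
    obtain rfl := card_eq_zero.mp (Nat.le_zero.mp h1)
    exact base 0 Γ π Up Um hD hΓ hA (by omega) (by omega)
  | succ r ih =>
    intro Γ π Up Um An h1 hT hD hΓ hA h2 h3
    rw [add_mul, one_mul] at h2 h3
    rcases An.eq_empty_or_nonempty with rfl | ⟨p, hp⟩
    · exact base _ Γ π Up Um hD hΓ hA (by omega) (by omega)
    refine le_trans (proc hsurg hzone Rs n0 g t ub T hg2 ht hg hN hk hsz Γ π Up Um An hD hΓ hA
      (by omega) (by omega) (by omega) p hp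
      (b := err23 (Fintype.card V) (Pr Rs) k n0 t (g ^ t) r) (by unfold err23; positivity) ?_)
      (le_of_eq (by unfold err23; push_cast; ring))
    intro Γ' π' Up' Um' _ hD' hΓ' hA' h4 h5
    exact ih Γ' π' Up' Um' _ (by rw [card_erase_of_mem hp]; omega) (by omega) hD' hΓ' hA'
      (by omega) (by omega)

end Pool.Agent.P.MP_de899d_pr
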