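import Pool.Agent.P.MP_de899d_pr.Base2

/-! Merging all orbits, one anchor at a time, in a layered reservoir. -/

set_option linter.unusedSectionVars false
set_option linter.unusedVariables false

namespace Pool.Agent.P.MP_de899d_pr
open Finset Equiv

namespace Proc2

variable {V A : Type} [Fintype V] [DecidableEq V] [Fintype A] [Nonempty A]

theorem Bd2_mono {k b : ℕ} {Rs : A → Prop} {Γ Γ' : V × V → Prop} {Q Q' : Fin b × V × V → Prop}
    (h1 : ∀ e, Γ e → Γ' e) (h2 : ∀ c, Q' c → Q c) : Bd2 k b Rs Γ' Q' ≤ Bd2 k b Rs Γ Q :=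
  Pr_mono fun β hβ hT => hβ (Tgt.mono (hT := hT) fun e he =>
    he.elim (fun h => Or.inl (h1 e h)) fun ⟨i, h⟩ => Or.inr ⟨i, h.1, fun h' => h.2 (h2 _ h')⟩)

theorem Bd2_step {k b : ℕ} {Rs : A → Prop} {Γ : V × V → Prop} {Q : Fin b × V × V → Prop}
    (X : Fin b × V × V → Prop) (G : (Fin b × V × V → A) → Prop) {β : ℝ} (hb : 0 ≤ β)
    (h : ∀ ω, G ω → Bd2 k b Rs (fun e => Γ e ∨ ∃ i, X (i, e) ∧ ¬ Q (i, e) ∧ Rs (ω (i, e)))
      (fun c => Q c ∨ X c) ≤ β) :
    Bd2 k b Rs Γ Q ≤ Pr (fun ω => ¬ G ω) + β := by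
  refine Pr_step X hb fun ω hω => le_trans ?_ (h ω hω)
  refine Pr_mono fun ω' h1 h2 => h1 (Tgt.mono ?_ h2)
  rintro e ((he | ⟨i, h3, h4, h5⟩) | ⟨i, h3, h4⟩)
  · exact Or.inl he
  · exact Or.inr ⟨i, by rwa [splice_in _ _ h3], h4⟩
  · rw [not_or] at h4
    exact Or.inr ⟨i, by rwa [splice_out _ _ h4.2], h4.1⟩

/-- One level of growth. -/
theorem level2 {ι : Type} [Fintype ι] [DecidableEq ι] (Rs : A → Prop) (ent : V × V → ι)
    (hent : Function.Injective ent) (W : Finset V) (Al : V → Finset V) (g z : ℕ)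
    (hW : W.Nonempty) (h1 : Pr Rs * #W ≤ 1) (hA : ∀ v ∈ W, z ≤ #(Al v))
    (hg : 8 * (g : ℝ) ≤ Pr Rs * z) :
    Pr (fun β : ι → A => ¬ ∃ W' : Finset V, #W' = g * #W ∧
      ∀ x ∈ W', ∃ v ∈ W, x ∈ Al v ∧ Rs (β (ent (v, x)))) ≤ Real.exp (-(Pr Rs * z / 8)) := by
  classical
  let E : V → (V → A) → Prop := fun x c => ∃ v ∈ W.filter fun v => x ∈ Al v, Rs (c v)
  have hρ := Pr_nonneg Rs
  have hμ : Pr Rs * (#W * z) / 2 ≤ ∑ x ∈ univ, Pr (E x) := by
    have h2 : ∀ x ∈ (univ : Finset V), Pr Rs * #(W.filter fun v => x ∈ Al v) / 2 ≤ Pr (E x) :=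
      fun x _ => Pr_some Rs _ (le_trans (mul_le_mul_of_nonneg_left
        (Nat.cast_le.mpr (card_filter_le _ _)) hρ) h1)
    refine le_trans ?_ (sum_le_sum h2)
    rw [← sum_div, ← mul_sum]
    refine div_le_div_of_nonneg_right (mul_le_mul_of_nonneg_left ?_ hρ) (by norm_num)
    have h3 : ∑ x ∈ (univ : Finset V), #(W.filter fun v => x ∈ Al v) = ∑ v ∈ W, #(Al v) := by
      simp only [card_filter]
      rw [sum_comm]
      exact sum_congr rfl fun v _ => by simp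
    have h4 : #W * z ≤ ∑ v ∈ W, #(Al v) := by
      rw [← smul_eq_mul]
      exact card_nsmul_le_sum _ _ _ hA
    rw [← Nat.cast_sum, h3]
    exact_mod_cast h4
  have h5 := Pr_lower univ E (h := 1) (m := g * #W) zero_le_one hμ
  have h6 := Pr_curry fun c : V → V → A => (cnt univ E c : ℝ) ≤ g * #W
  have h7 := Pr_comp (α := A) (fun p : V × V => ent p.swap) (hent.comp Prod.swap_injective)
    fun ω : V × V → A => (cnt univ E (fun x v => ω (x, v)) : ℝ) ≤ g * #W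
  refine le_trans (Pr_mono fun β hβ => ?_) (h7.le.trans (h6.le.trans (h5.trans ?_)))
  · by_contra hc
    rw [not_le] at hc
    have hc' : g * #W ≤ cnt univ E fun x v => β (ent (v, x)) := by exact_mod_cast hc.le
    obtain ⟨W', hW', hc⟩ := exists_subset_card_eq hc'
    refine hβ ⟨W', hc, fun x hx => ?_⟩
    have hx2 := hW' hx
    simp only [mem_filter] at hx2
    obtain ⟨v, hv, hR⟩ := hx2.2
    exact ⟨v, (mem_filter.mp hv).1, (mem_filter.mp hv).2, hR⟩
  · have hw : (1 : ℝ) ≤ #W := by exact_mod_cast hW.card_pos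
    have he : Real.exp (-1) ≤ 1 / 2 := by
      rw [Real.exp_neg, inv_le_comm₀ (Real.exp_pos 1) (by norm_num)]
      linarith [Real.add_one_le_exp (1 : ℝ)]
    have hl : 0 ≤ Pr Rs * z := by positivity
    refine Real.exp_le_exp.mpr ?_
    have e1 : Pr Rs * (#W * z) / 2 = #W * (Pr Rs * z) / 2 := by ring
    rw [e1]
    generalize Pr Rs * z = l at *
    have : 0 ≤ (#W : ℝ) * l := by positivity
    nlinarith

/-- A path through the zones `0, …, d` that ends in `v`. -/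
def Walk (H : V → V → Prop) (Zs : ℕ → Finset V) (d : ℕ) (v : V) : Prop :=
  ∃ w : ℕ → V, w d = v ∧ (∀ l ≤ d, w l ∈ Zs l) ∧ ∀ l < d, H (w l) (w (l + 1))

theorem Walk.ext {H H' : V → V → Prop} {Zs : ℕ → Finset V} {d : ℕ} {v x : V}
    (h : Walk H Zs d v) (hH : ∀ p q, H p q → H' p q) (hx : x ∈ Zs (d + 1)) (hvx : H' v x) :
    Walk H' Zs (d + 1) x := by
  obtain ⟨w, h1, h2, h3⟩ := h
  refine ⟨Function.update w (d + 1) x, Function.update_self _ _ _, fun l hl => ?_, fun l hl => ?_⟩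
  · rcases Nat.lt_or_eq_of_le hl with hl | rfl
    · rw [Function.update_of_ne (by omega)]; exact h2 l (by omega)
    · rw [Function.update_self]; exact hx
  · rw [Function.update_of_ne (by omega)]
    rcases Nat.lt_succ_iff_lt_or_eq.1 hl with hl | rfl
    · rw [Function.update_of_ne (by omega)]; exact hH _ _ (h3 l hl)
    · rw [Function.update_self, h1]; exact hvx

theorem grow2 {k b : ℕ} (Rs : A → Prop) (ent : V × V → Fin b × V × V)
    (hent : Function.Injective ent) (ex : V → Finset V) (K g d z : ℕ) (hK : ∀ x, #(ex x) ≤ K)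
    (Zs : ℕ → Finset V) (a : V) (ha : a ∈ Zs 0)
    (hdis : ∀ l l', l < l' → l' ≤ d → ∀ x ∈ Zs l, x ∉ Zs l') (Q : Fin b × V × V → Prop)
    (hQ : ∀ l < d, ∀ v ∈ Zs l, ∀ x ∈ Zs (l + 1), ¬ Q (ent (v, x))) (hg2 : 2 ≤ g)
    (hg : 8 * (g : ℝ) ≤ Pr Rs * z) (hN : ∀ l < d, Pr Rs * g ^ l ≤ 1)
    (hZ : ∀ l < d, z + K ≤ #(Zs (l + 1))) {β : ℝ} (hb : 0 ≤ β) (Γ₀ : V × V → Prop)
    (hc : ∀ (Γ : V × V → Prop) (U W : Finset V), (∀ e, Γ₀ e → Γ e) →
      (∀ u ∈ U, ∃ l < d, u ∈ Zs l) → #U ≤ g ^ d → W ⊆ Zs d → #W = g ^ d →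
      (∀ v ∈ W, Walk (fun p q => Γ (ent (p, q)).2 ∧ q ∉ ex p) Zs d v) →
      Bd2 k b Rs Γ (fun c => Q c ∨ ∃ u ∈ U, ∃ x, ent (u, x) = c) ≤ β) :
    Bd2 k b Rs Γ₀ Q ≤ d * Real.exp (-(Pr Rs * z / 8)) + β := by
  have key : ∀ (r i : ℕ) (Γ : V × V → Prop) (U W : Finset V), i + r = d → (∀ e, Γ₀ e → Γ e) →
      (∀ u ∈ U, ∃ l < i, u ∈ Zs l) → #U ≤ g ^ i → W ⊆ Zs i → #W = g ^ i →
      (∀ v ∈ W, Walk (fun p q => Γ (ent (p, q)).2 ∧ q ∉ ex p) Zs i v) →
      Bd2 k b Rs Γ (fun c => Q c ∨ ∃ u ∈ U, ∃ x, ent (u, x) = c) ≤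
        r * Real.exp (-(Pr Rs * z / 8)) + β := by
    intro r
    induction r with
    | zero =>
      intro i Γ U W hi h0 h1 h2 h3 h4 h5
      obtain rfl : i = d := hi
      simpa using hc Γ U W h0 h1 h2 h3 h4 h5
    | succ r ih =>
      intro i Γ U W hi h0 h1 h2 h3 h4 h5
      have hAl : ∀ v ∈ W, z ≤ #(Zs (i + 1) \ ex v) := by
        intro v hv
        have e1 := le_card_sdiff (ex v) (Zs (i + 1))
        have e2 := hK v
        have e3 := hZ i (by omega)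
        omega
      have hWn : W.Nonempty := card_pos.mp (by rw [h4]; positivity)
      have hρW : Pr Rs * #W ≤ 1 := by
        rw [h4]; exact_mod_cast hN i (by omega)
      have hl := level2 Rs ent hent W (fun v => Zs (i + 1) \ ex v) g z hWn hρW hAl hg
      refine le_trans (Bd2_step (fun c => ∃ u ∈ W, ∃ x, ent (u, x) = c) _
        (β := r * Real.exp (-(Pr Rs * z / 8)) + β) (by positivity) ?_)
        (le_trans (add_le_add_left hl _) (by push_cast; linarith))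
      rintro ω ⟨W', hW', hx⟩
      refine le_trans (Bd2_mono (fun e he => he) ?_) (ih (i + 1) _ (U ∪ W) W' (by omega)
        (fun e he => Or.inl (h0 e he)) ?_ ?_ ?_ ?_ ?_)
      · rintro c ((h | ⟨u, hu, h⟩) | ⟨u, hu, h⟩)
        · exact Or.inl h
        · exact Or.inr ⟨u, mem_union_left _ hu, h⟩
        · exact Or.inr ⟨u, mem_union_right _ hu, h⟩
      · intro u hu
        rcases mem_union.mp hu with hu | hu
        · obtain ⟨l, hl, h⟩ := h1 u hu
          exact ⟨l, by omega, h⟩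
        · exact ⟨i, by omega, h3 hu⟩
      · have := card_union_le U W
        rw [pow_succ]
        nlinarith
      · intro x hx'
        obtain ⟨v, _, hv, _⟩ := hx x hx'
        exact (mem_sdiff.mp hv).1
      · rw [hW', h4, pow_succ, mul_comm]
      · intro x hx'
        obtain ⟨v, hvW, hv, hR⟩ := hx x hx'
        rw [mem_sdiff] at hv
        refine (h5 v hvW).ext (fun p q h => ⟨Or.inl h.1, h.2⟩) hv.1
          ⟨Or.inr ⟨(ent (v, x)).1, ⟨v, hvW, x, rfl⟩, ?_, hR⟩, hv.2⟩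
        rintro (h | ⟨u, hu, y, h⟩)
        · exact hQ i (by omega) v (h3 hvW) x hv.1 h
        · obtain ⟨rfl, rfl⟩ := Prod.mk.inj (hent h)
          obtain ⟨l, hl, h⟩ := h1 u hu
          exact hdis l i hl (by omega) u h (h3 hvW)
  refine le_trans (Bd2_mono (fun e he => he) fun e he => Or.inl he)
    (key d 0 Γ₀ ∅ {a} (by omega) (fun e he => he) (by simp) (by simp) (by simpa using ha)
      (by simp) fun v hv => ?_)
  obtain rfl := mem_singleton.mp hv
  exact ⟨fun _ => v, rfl, fun l hl => by rw [Nat.le_zero.mp hl]; exact ha, fun l hl => by omega⟩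

theorem closing2 {ι : Type} [Fintype ι] [DecidableEq ι] (Rs : A → Prop) (ent : V × V → ι)
    (hent : Function.Injective ent) (W₁ W₂ : Finset V) (ex : V → Finset V)
    (h : ∀ y ∈ W₂, 2 * #(W₁.filter fun v => y ∈ ex v) ≤ #W₁) :
    Pr (fun β : ι → A => ¬ ∃ v ∈ W₁, ∃ y ∈ W₂, y ∉ ex v ∧ Rs (β (ent (v, y)))) ≤
      Real.exp (-(Pr Rs * (#W₂ * #W₁ : ℕ) / 2)) := by
  let S : Finset ι := (W₂.sigma fun y => W₁.filter fun v => y ∉ ex v).image fun p => ent (p.2, p.1)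
  have hS : #W₂ * #W₁ ≤ 2 * #S := by
    rw [card_image_of_injective _ (by
      rintro ⟨p, q⟩ ⟨p', q'⟩ h
      obtain ⟨rfl, rfl⟩ := Prod.mk.inj (hent h)
      rfl), card_sigma, mul_sum, ← smul_eq_mul]
    refine card_nsmul_le_sum _ _ _ fun y hy => ?_
    have := card_filter_add_card_filter_not (s := W₁) fun v => y ∈ ex v
    have := h y hy
    omega
  refine le_trans (Pr_mono fun β hβ e he => ?_) (Pr_none S (fun _ => Rs) ?_)
  · obtain ⟨⟨y, v⟩, hp, rfl⟩ := mem_image.mp he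
    simp only [mem_sigma, mem_filter] at hp
    exact fun h => hβ ⟨v, hp.2.1, y, hp.1, hp.2.2, h⟩
  · have : ((#W₂ * #W₁ : ℕ) : ℝ) ≤ 2 * #S := by exact_mod_cast hS
    have := Pr_nonneg Rs
    simp only [sum_const, nsmul_eq_mul]
    nlinarith

theorem card_bad (W : Finset V) (ex : V → Finset V) (K : ℕ) (hK : ∀ x, #(ex x) ≤ K) :
    #(univ.filter fun y => #W < 2 * #(W.filter fun v => y ∈ ex v)) ≤ 2 * K := by
  set B := univ.filter fun y => #W < 2 * #(W.filter fun v => y ∈ ex v) with hB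
  have h1 : #B • (#W + 1) ≤ ∑ y ∈ B, 2 * #(W.filter fun v => y ∈ ex v) :=
    card_nsmul_le_sum _ _ _ fun y hy => (mem_filter.mp hy).2
  have h2 : ∑ y ∈ B, #(W.filter fun v => y ∈ ex v) ≤ ∑ y, #(W.filter fun v => y ∈ ex v) :=
    sum_le_sum_of_subset (subset_univ _)
  have h3 : ∑ y, #(W.filter fun v => y ∈ ex v) = ∑ v ∈ W, #(ex v) := by
    simp only [card_filter]
    rw [sum_comm]
    exact sum_congr rfl fun v _ => by simp
  have h4 : ∑ v ∈ W, #(ex v) ≤ #W • K := sum_le_card_nsmul _ _ _ fun v _ => hK v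
  rw [← mul_sum, smul_eq_mul] at h1
  rw [smul_eq_mul] at h4
  by_contra hc
  have : (2 * K + 1) * (#W + 1) ≤ #B * (#W + 1) := Nat.mul_le_mul_right _ (by omega)
  nlinarith

theorem pow_ne {f : Perm V} {r : V} {n0 : ℕ} (h : ∀ S, Cl f S → r ∈ S → n0 ≤ #S) {u v : ℕ}
    (huv : u < v) (hv : v < n0) : (f ^ u) r ≠ (f ^ v) r := by
  intro e
  obtain ⟨s, rfl⟩ := Nat.exists_eq_add_of_lt huv
  rw [add_assoc, pow_add, Perm.mul_apply] at e
  have e' := (f ^ u).injective e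
  have h1 := h ((range (s + 1)).image fun i => (f ^ i) r) (fun z hz => by
    obtain ⟨i, hi, rfl⟩ := mem_image.1 hz
    rw [← Surg.pow_succ_apply]
    rcases Nat.lt_succ_iff_lt_or_eq.1 (mem_range.1 hi) with hi | rfl
    · exact mem_image.2 ⟨i + 1, mem_range.2 (by omega), rfl⟩
    · exact mem_image.2 ⟨0, mem_range.2 (by omega), e'⟩)
    (mem_image.2 ⟨0, mem_range.2 (by omega), rfl⟩)
  have h2 := card_image_le (s := range (s + 1)) (f := fun i => (f ^ i) r)
  rw [card_range] at h2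
  omega

/-- The anchors after one merging step. -/
theorem anch_update {k b n0 : ℕ} {π : Fin k → Perm V} {r : Fin k → V} {Up Um : Fin b → Finset V}
    {An : Finset (Fin k × V)} {ρ : Fin k × V → Fin b} (hA : Anch2 π r n0 Up Um An ρ) {j : Fin k}
    {a : V} (hp : (j, a) ∈ An) (σ : Perm V) (U₁ U₂ : Finset V) (N : V → Prop)
    (hN : ∀ z, N z → (∀ q ∈ An, q.2 ≠ z) ∧ ∀ q ∈ An, π q.1 q.2 ≠ π j z)
    (hσ : ∀ z, σ z = z ∨ z = a ∨ N z)
    (hcl : ∀ S, Cl (π j * σ) S → Cl (π j) S ∧ (a ∈ S ↔ r j ∈ S))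
    (h1 : ∀ u ∈ U₁, u = a ∨ N u) (h2 : ∀ u ∈ U₂, u = a ∨ N u) :
    Anch2 (Function.update π j (π j * σ)) r n0
      (Function.update Up (ρ (j, a)) (Up (ρ (j, a)) ∪ U₁))
      (Function.update Um (ρ (j, a)) (Um (ρ (j, a)) ∪ U₂.image (π j))) (An.erase (j, a)) ρ := by
  have hanc : ∀ q ∈ An.erase (j, a), Function.update π j (π j * σ) q.1 q.2 = π q.1 q.2 := by
    rintro ⟨i, c⟩ hq
    obtain ⟨hq1, hq2⟩ := mem_erase.mp hq
    by_cases hi : i = j
    · subst hi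
      rcases hσ c with h | h | h
      · simp [h]
      · exact absurd (by rw [h]) hq1
      · exact absurd rfl ((hN c h).1 _ hq2)
    · simp [hi]
  have hC : ∀ i S, Cl (Function.update π j (π j * σ) i) S →
      Cl (π i) S ∧ (i = j → a ∈ S → r j ∈ S) := by
    intro i S h
    by_cases hi : i = j
    · subst hi
      rw [Function.update_self] at h
      exact ⟨(hcl S h).1, fun _ => (hcl S h).2.1⟩
    · rw [Function.update_of_ne hi] at h
      exact ⟨h, fun h' => absurd h' hi⟩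
  refine ⟨fun i S h => hA.main i S (hC i S h).1, fun i S hS h => ?_, fun q hq => ?_,
    fun q hq => ?_,
    fun q hq q' hq' h h' => hA.tinj q (mem_of_mem_erase hq) q' (mem_of_mem_erase hq') h h',
    fun q hq q' hq' h h' => hA.hinj q (mem_of_mem_erase hq) q' (mem_of_mem_erase hq') h ?_⟩
  · rcases hA.cover i S hS (hC i S h).1 with h3 | ⟨c, hc, h3⟩
    · exact Or.inl h3
    · by_cases h4 : (i, c) = (j, a)
      · obtain ⟨rfl, rfl⟩ := Prod.mk.inj h4
        exact Or.inl ((hC i S h).2 rfl hc)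
      · exact Or.inr ⟨c, hc, mem_erase.mpr ⟨h4, h3⟩⟩
  · obtain ⟨hq1, hq2⟩ := mem_erase.mp hq
    by_cases h : ρ q = ρ (j, a)
    · rw [h, Function.update_self, mem_union, not_or]
      refine ⟨h ▸ hA.tail q hq2, fun h3 => ?_⟩
      rcases h1 _ h3 with h4 | h4
      · exact hq1 (hA.tinj q hq2 _ hp h h4)
      · exact (hN _ h4).1 q hq2 rfl
    · rw [Function.update_of_ne h]
      exact hA.tail q hq2
  · obtain ⟨hq1, hq2⟩ := mem_erase.mp hq
    rw [hanc q hq]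
    by_cases h : ρ q = ρ (j, a)
    · rw [h, Function.update_self, mem_union, not_or]
      refine ⟨h ▸ hA.head q hq2, fun h3 => ?_⟩
      obtain ⟨u, hu, hu'⟩ := mem_image.mp h3
      rcases h2 _ hu with rfl | h4
      · exact hq1 (hA.hinj q hq2 _ hp h hu'.symm)
      · exact (hN _ h4).2 q hq2 hu'.symm
    · rw [Function.update_of_ne h]
      exact hA.head q hq2
  · rwa [hanc q hq, hanc q' hq'] at h'

/-- The zone `l` on the orbit of `r`. -/
def zn (f : Perm V) (r : V) (len l : ℕ) : Finset V :=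
  (Ico (l * len) ((l + 1) * len)).image fun u => (f ^ u) r

theorem card_zn {f : Perm V} {r : V} {n0 : ℕ} (h : ∀ S, Cl f S → r ∈ S → n0 ≤ #S) {len l : ℕ}
    (hl : (l + 1) * len ≤ n0) : #(zn f r len l) = len := by
  rw [zn, card_image_of_injOn, Nat.card_Ico, add_mul, one_mul, Nat.add_sub_cancel_left]
  intro u hu v hv e
  have a := mem_Ico.1 (mem_coe.1 hu)
  have b := mem_Ico.1 (mem_coe.1 hv)
  rcases lt_trichotomy u v with h' | h' | h'
  · exact absurd e (pow_ne h h' (by omega))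
  · exact h'
  · exact absurd e.symm (pow_ne h h' (by omega))

theorem zn_disj {f : Perm V} {r : V} {n0 : ℕ} (h : ∀ S, Cl f S → r ∈ S → n0 ≤ #S) {len m l l' : ℕ}
    (hm : m * len ≤ n0) (hl : l < l') (hl' : l' < m) {x : V} (hx : x ∈ zn f r len l) :
    x ∉ zn f r len l' := by
  intro hx'
  obtain ⟨u, hu, rfl⟩ := mem_image.1 hx
  obtain ⟨v, hv, e⟩ := mem_image.1 hx'
  rw [mem_Ico] at hu hv
  have e1 : (l + 1) * len ≤ l' * len := Nat.mul_le_mul_right _ hl
  have e2 : (l' + 1) * len ≤ m * len := Nat.mul_le_mul_right _ hl'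
  exact pow_ne h (by omega : u < v) (by omega) e.symm

theorem pattern (hpatt : S_PATT) {f : Perm V} {r a : V} {n0 len t : ℕ}
    (h : ∀ S, Cl f S → r ∈ S → n0 ≤ #S) (hra : ¬ f.SameCycle r a) (hlen : (2 * t + 1) * len ≤ n0)
    (H : V → V → Prop) (N : V → Prop) (c : ℕ → V)
    (hc : ∀ l ≤ 2 * t, c l ∈ zn f r len l ∧ N (c l)) (h0 : H a (c 0))
    (h1 : ∀ l < 2 * t, H (c l) (c (l + 1))) (h2 : H (c (2 * t)) a) :
    ∃ σ : Perm V, (∀ z, σ z = z ∨ ((z = a ∨ N z) ∧ H z (σ z))) ∧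
      ∀ S, Cl (f * σ) S → Cl f S ∧ (a ∈ S ↔ r ∈ S) := by
  have : ∀ l, l ≤ 2 * t → ∃ u, (l * len ≤ u ∧ u < (l + 1) * len) ∧ (f ^ u) r = c l := by
    intro l hl
    obtain ⟨u, hu, e⟩ := mem_image.1 (hc l hl).1
    exact ⟨u, mem_Ico.1 hu, e⟩
  choose! p hp hp' using this
  obtain ⟨σ, s1, s2, s3, s4, s5⟩ := hpatt V f r a n0 t p h hra
    (fun i hi => lt_of_lt_of_le (hp i hi.le).2 (hp (i + 1) hi).1)
    (lt_of_lt_of_le (hp _ le_rfl).2 hlen)
  refine ⟨σ, fun z => ?_, s5⟩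
  by_cases hz : z = a
  · subst hz
    rw [s1, hp' 0 (by omega)]
    exact Or.inr ⟨Or.inl rfl, h0⟩
  by_cases hz' : ∀ i ≤ 2 * t, z ≠ (f ^ p i) r
  · exact Or.inl (s4 z hz hz')
  push Not at hz'
  obtain ⟨i, hi, rfl⟩ := hz'
  refine Or.inr ⟨Or.inr (hp' i hi ▸ (hc i hi).2), ?_⟩
  rcases Nat.lt_or_eq_of_le hi with hi' | rfl
  · rw [s2 i hi', hp' i hi, hp' _ hi']
    exact h1 i hi'
  · rw [s3, hp' _ hi]
    exact h2

theorem step (hpatt : S_PATT) {k b : ℕ} (Rs : A → Prop) (n0 g t z ub T : ℕ) (hg2 : 2 ≤ g)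
    (ht : t ≠ 0) (hg : 8 * (g : ℝ) ≤ Pr Rs * z) (hN : Pr Rs * g ^ t ≤ 1)
    (hsz : (2 * t + 1) * (z + 2 * ub + 2 * T + 3 * k) ≤ n0) (Γ : V × V → Prop)
    (π : Fin k → Perm V) (r : Fin k → V) (Up Um : Fin b → Finset V) (An : Finset (Fin k × V))
    (ρ : Fin k × V → Fin b) (hD : Disj π) (hΓ : ∀ j x, Γ (x, π j x))
    (hA : Anch2 π r n0 Up Um An ρ) (hUp : ∀ i, #(Up i) ≤ ub) (hUm : ∀ i, #(Um i) ≤ ub)
    (hT : #An ≤ T) (p : Fin k × V) (hp : p ∈ An) {β : ℝ} (hb : 0 ≤ β)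
    (hc : ∀ (Γ' : V × V → Prop) (π' : Fin k → Perm V) (Up' Um' : Fin b → Finset V),
      Disj π' → (∀ j x, Γ' (x, π' j x)) → Anch2 π' r n0 Up' Um' (An.erase p) ρ →
      (∀ i, #(Up' i) ≤ #(Up i) + 2 * g ^ (t + 1) ∧ (i ≠ ρ p → Up' i = Up i)) →
      (∀ i, #(Um' i) ≤ #(Um i) + 2 * g ^ (t + 1) ∧ (i ≠ ρ p → Um' i = Um i)) →
      Bd2 k b Rs Γ' (fun c => c.2.1 ∈ Up' c.1 ∨ c.2.2 ∈ Um' c.1) ≤ β) :
    Bd2 k b Rs Γ (fun c => c.2.1 ∈ Up c.1 ∨ c.2.2 ∈ Um c.1) ≤
      (2 * t + 1) * Real.exp (-(Pr Rs * z / 8)) + Real.exp (-(Pr Rs * g ^ (2 * t + 1) / 2)) + β := by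
  classical
  obtain ⟨j, a⟩ := p
  by_cases hra : (π j).SameCycle (r j) a
  · refine le_trans (hc Γ π Up Um hD hΓ ?_ (by simp) (by simp))
      (le_add_of_nonneg_left (by positivity))
    simpa using anch_update hA hp 1 ∅ ∅ (fun _ => False) (by simp) (by simp)
      (fun S hS => ⟨by simpa using hS, fun h => Surg.cl_cycle (by simpa using hS) h hra.symm,
        fun h => Surg.cl_cycle (by simpa using hS) h hra⟩) (by simp) (by simp)
  set f := π j with hf
  set i := ρ (j, a) with hi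
  set len := z + 2 * ub + 2 * T + 3 * k with hlen
  have hm := hA.main j
  let F : Finset V := Up i ∪ (Um i).image (fun y => f⁻¹ y) ∪ An.image Prod.snd ∪
    An.image (fun q => f⁻¹ (π q.1 q.2))
  have hF : #F ≤ 2 * ub + 2 * T := by
    have e2 := card_union_le (Up i ∪ (Um i).image (fun y => f⁻¹ y) ∪ An.image Prod.snd)
      (An.image (fun q => f⁻¹ (π q.1 q.2)))
    have e3 := card_union_le (Up i ∪ (Um i).image (fun y => f⁻¹ y)) (An.image Prod.snd)
    have e4 := card_union_le (Up i) ((Um i).image (fun y => f⁻¹ y))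
    have e5 := card_image_le (s := Um i) (f := fun y => f⁻¹ y)
    have e6 := card_image_le (s := An) (f := Prod.snd)
    have e7 := card_image_le (s := An) (f := fun q => f⁻¹ (π q.1 q.2))
    have e8 := hUp i
    have e9 := hUm i
    simp only [F] at *
    omega
  have hFm : ∀ z, z ∉ F → z ∉ Up i ∧ f z ∉ Um i ∧ (∀ q ∈ An, q.2 ≠ z) ∧
      ∀ q ∈ An, π q.1 q.2 ≠ f z := by
    intro z hz
    simp only [F, mem_union, mem_image, not_or, not_exists, not_and] at hz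
    exact ⟨hz.1.1.1, fun h => hz.1.1.2 _ h (by simp), hz.1.2, fun q hq h => hz.2 q hq (by simp [h])⟩
  have haF : ∀ x, x ∉ F → x ≠ a := fun x hx h => (hFm x hx).2.2.1 _ hp h.symm
  have hzd : ∀ l l', l < l' → l' ≤ 2 * t → ∀ x ∈ zn f (r j) len l, x ∉ zn f (r j) len l' :=
    fun l l' h1 h2 x hx => zn_disj hm hsz h1 (by omega) hx
  have hzc : ∀ l ≤ 2 * t, #(zn f (r j) len l) = len := fun l hl =>
    card_zn hm ((Nat.mul_le_mul_right _ (by omega)).trans hsz)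
  let ex₁ : V → Finset V := fun v => univ.image fun i => f⁻¹ (π i v)
  let ex₂ : V → Finset V := fun y => univ.image fun i => (π i)⁻¹ (f y)
  have hK₁ : ∀ x, #(ex₁ x) ≤ k := fun x => card_image_le.trans (by simp)
  have hK₂ : ∀ x, #(ex₂ x) ≤ k := fun x => card_image_le.trans (by simp)
  let en₁ : V × V → Fin b × V × V := fun e => (i, e.1, f e.2)
  let en₂ : V × V → Fin b × V × V := fun e => (i, e.2, f e.1)
  have he₁ : Function.Injective en₁ := fun e e' h => by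
    simp only [en₁, Prod.mk.injEq, EmbeddingLike.apply_eq_iff_eq, true_and] at h
    exact Prod.ext h.1 h.2
  have he₂ : Function.Injective en₂ := fun e e' h => by
    simp only [en₂, Prod.mk.injEq, EmbeddingLike.apply_eq_iff_eq, true_and] at h
    exact Prod.ext h.2 h.1
  have haU : a ∉ Up i := hA.tail _ hp
  have haM : f a ∉ Um i := hA.head _ hp
  have hgl : ∀ l ≤ t, Pr Rs * g ^ l ≤ 1 := fun l hl =>
    le_trans (mul_le_mul_of_nonneg_left (pow_le_pow_right₀ (by exact_mod_cast (by omega : 1 ≤ g))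
      hl) (Pr_nonneg _)) hN
  let Z₁ : ℕ → Finset V := fun l => if l = 0 then {a} else zn f (r j) len (l - 1) \ F
  have m₁ : ∀ l, ∀ x ∈ Z₁ l, (l = 0 ∧ x = a) ∨ (0 < l ∧ x ∈ zn f (r j) len (l - 1) ∧ x ∉ F) := by
    intro l x hx
    by_cases hl : l = 0
    · exact Or.inl ⟨hl, by simpa [Z₁, hl] using hx⟩
    · exact Or.inr ⟨by omega, by simpa [Z₁, hl] using hx⟩
  have d₁ : ∀ l l', l < l' → l' ≤ t + 1 → ∀ x ∈ Z₁ l, x ∉ Z₁ l' := by
    intro l l' h1 h2 x hx hx'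
    rcases m₁ l' x hx' with h | ⟨_, h3, h4⟩
    · omega
    rcases m₁ l x hx with h | ⟨_, h5, _⟩
    · exact haF x h4 h.2
    · exact hzd _ _ (by omega) (by omega) x h5 h3
  have n₁ : ∀ l, ∀ x ∈ Z₁ l, x = a ∨ x ∉ F := fun l x hx =>
    (m₁ l x hx).imp (fun h => h.2) fun h => h.2.2
  refine le_trans (grow2 Rs en₁ he₁ ex₁ k g (t + 1) z hK₁ Z₁ a (by simp [Z₁]) d₁ _ ?_ hg2 hg
    (fun l hl => hgl l (by omega)) ?_ (β := t * Real.exp (-(Pr Rs * z / 8)) +
      (Real.exp (-(Pr Rs * g ^ (2 * t + 1) / 2)) + β)) (by positivity) Γ ?_)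
    (le_of_eq (by push_cast; ring))
  · rintro l hl v hv x hx (h | h)
    · rcases n₁ l v hv with rfl | hv
      · exact haU h
      · exact (hFm v hv).1 h
    · rcases m₁ _ x hx with h' | h'
      · omega
      · exact (hFm x h'.2.2).2.1 h
  · intro l hl
    have := le_card_sdiff F (zn f (r j) len l)
    have := hzc l (by omega)
    simp only [Z₁, Nat.add_eq_zero_iff, one_ne_zero, and_false, if_false, Nat.add_sub_cancel]
    omega
  intro Γ₁ U₁ W₁ hΓ₁ hU₁ cU₁ hW₁ cW₁ hP₁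
  let Bad : Finset V := univ.filter fun y => #W₁ < 2 * #(W₁.filter fun v => y ∈ ex₁ v)
  have hBad : #Bad ≤ 2 * k := card_bad W₁ ex₁ k hK₁
  let Z₂ : ℕ → Finset V := fun l =>
    if l = 0 then {a} else zn f (r j) len (2 * t + 1 - l) \ (F ∪ Bad)
  have m₂ : ∀ l, ∀ x ∈ Z₂ l, (l = 0 ∧ x = a) ∨
      (0 < l ∧ x ∈ zn f (r j) len (2 * t + 1 - l) ∧ x ∉ F ∧ x ∉ Bad) := by
    intro l x hx
    by_cases hl : l = 0
    · exact Or.inl ⟨hl, by simpa [Z₂, hl] using hx⟩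
    · exact Or.inr ⟨by omega, by simpa only [Z₂, hl, if_false, mem_sdiff, mem_union, not_or] using hx⟩
  have d₂ : ∀ l l', l < l' → l' ≤ t → ∀ x ∈ Z₂ l, x ∉ Z₂ l' := by
    intro l l' h1 h2 x hx hx'
    rcases m₂ l' x hx' with h | ⟨_, h3, h4, _⟩
    · omega
    rcases m₂ l x hx with h | ⟨_, h5, _⟩
    · exact haF x h4 h.2
    · exact hzd _ _ (by omega) (by omega) x h3 h5
  have n₂ : ∀ l, ∀ x ∈ Z₂ l, x = a ∨ x ∉ F := fun l x hx =>
    (m₂ l x hx).imp (fun h => h.2) fun h => h.2.2.1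
  refine grow2 Rs en₂ he₂ ex₂ k g t z hK₂ Z₂ a (by simp [Z₂]) d₂ _ ?_ hg2 hg
    (fun l hl => hgl l hl.le) ?_ (by positivity) Γ₁ ?_
  · intro l hl y hy x hx
    obtain ⟨_, h3, h4, _⟩ := (m₂ _ x hx).resolve_left (by omega)
    rintro ((h | h) | ⟨u, hu, y', h⟩)
    · exact (hFm x h4).1 h
    · rcases n₂ l y hy with rfl | hy
      · exact haM h
      · exact (hFm y hy).2.1 h
    · obtain rfl : u = x := (Prod.mk.inj (Prod.mk.inj h).2).1
      obtain ⟨l', hl', h5⟩ := hU₁ u hu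
      rcases m₁ l' u h5 with h6 | ⟨_, h6, _⟩
      · exact haF u h4 h6.2
      · exact hzd _ _ (by omega) (by omega) u h6 h3
  · intro l hl
    have := le_card_sdiff (F ∪ Bad) (zn f (r j) len (2 * t + 1 - (l + 1)))
    have := hzc (2 * t + 1 - (l + 1)) (by omega)
    have := card_union_le F Bad
    simp only [Z₂, Nat.add_eq_zero_iff, one_ne_zero, and_false, if_false]
    omega
  intro Γ₂ U₂ W₂ hΓ₂ hU₂ cU₂ hW₂ cW₂ hP₂
  have hcl := closing2 Rs en₁ he₁ W₁ W₂ ex₁ fun y hy => by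
    obtain ⟨_, _, _, h⟩ := (m₂ _ y (hW₂ hy)).resolve_left (by omega)
    simpa [Bad] using h
  rw [cW₁, cW₂, ← pow_add, show t + (t + 1) = 2 * t + 1 by ring, Nat.cast_pow] at hcl
  refine le_trans (Bd2_step (fun c => ∃ u ∈ W₁, ∃ x, en₁ (u, x) = c) _ hb ?_)
    (add_le_add_left hcl _)
  rintro ω ⟨v, hv, y, hy, hvy, hR⟩
  obtain ⟨w₁, rfl, a1, a2⟩ := hP₁ v hv
  obtain ⟨w₂, rfl, b1, b2⟩ := hP₂ y hy
  set Γ₃ : V × V → Prop := fun e => Γ₂ e ∨ ∃ i', (∃ u ∈ W₁, ∃ x, en₁ (u, x) = (i', e)) ∧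
    ¬ (((e.1 ∈ Up i' ∨ e.2 ∈ Um i') ∨ ∃ u ∈ U₁, ∃ x, en₁ (u, x) = (i', e)) ∨
      ∃ u ∈ U₂, ∃ x, en₂ (u, x) = (i', e)) ∧ Rs (ω (i', e)) with hΓ₃
  have a0 : w₁ 0 = a := ((m₁ 0 _ (a1 0 (by omega))).resolve_right fun h => by omega).2
  have b0 : w₂ 0 = a := ((m₂ 0 _ (b1 0 (by omega))).resolve_right fun h => by omega).2
  have a3 : ∀ l < t + 1, Γ₃ (w₁ l, f (w₁ (l + 1))) ∧ ∀ i, f (w₁ (l + 1)) ≠ π i (w₁ l) :=
    fun l hl => ⟨Or.inl (hΓ₂ _ (a2 l hl).1), fun i hi => (a2 l hl).2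
      (mem_image.mpr ⟨i, mem_univ _, by rw [← hi]; simp⟩)⟩
  have b3 : ∀ l < t, Γ₃ (w₂ (l + 1), f (w₂ l)) ∧ ∀ i, f (w₂ l) ≠ π i (w₂ (l + 1)) :=
    fun l hl => ⟨Or.inl (b2 l hl).1, fun i hi => (b2 l hl).2
      (mem_image.mpr ⟨i, mem_univ _, by rw [hi]; simp⟩)⟩
  have c3 : Γ₃ (w₁ (t + 1), f (w₂ t)) ∧ ∀ i, f (w₂ t) ≠ π i (w₁ (t + 1)) := by
    refine ⟨Or.inr ⟨i, ⟨_, hv, _, rfl⟩, ?_, hR⟩, fun i hi => hvy
      (mem_image.mpr ⟨i, mem_univ _, by rw [← hi]; simp⟩)⟩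
    rintro (((h | h) | ⟨u, hu, x, h⟩) | ⟨u, hu, x, h⟩)
    · exact (hFm _ ((m₁ _ _ (hW₁ hv)).resolve_left (by omega)).2.2).1 h
    · exact (hFm _ ((m₂ _ _ (hW₂ hy)).resolve_left (by omega)).2.2.1).2.1 h
    · obtain rfl : u = w₁ (t + 1) := (Prod.mk.inj (Prod.mk.inj h).2).1
      obtain ⟨l, hl, h5⟩ := hU₁ _ hu
      exact d₁ l _ hl le_rfl _ h5 (hW₁ hv)
    · obtain rfl : u = w₂ t := f.injective (Prod.mk.inj (Prod.mk.inj h).2).2
      obtain ⟨l, hl, h5⟩ := hU₂ _ hu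
      exact d₂ l _ hl le_rfl _ h5 (hW₂ hy)
  obtain ⟨σ, s1, s2⟩ := pattern hpatt hm hra hsz (fun z z' => Γ₃ (z, f z') ∧ ∀ i, f z' ≠ π i z)
    (fun x => x ∉ F) (fun l => if l ≤ t then w₁ (l + 1) else w₂ (2 * t + 1 - l))
    (fun l hl => by
      by_cases h : l ≤ t
      · simpa [h] using ((m₁ _ _ (a1 (l + 1) (by omega))).resolve_left (by omega)).2
      · have := ((m₂ _ _ (b1 (2 * t + 1 - l) (by omega))).resolve_left (by omega)).2
        rw [show 2 * t + 1 - (2 * t + 1 - l) = l by omega] at this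
        simpa [h] using And.intro this.1 this.2.1)
    (by simpa [a0] using a3 0 (by omega))
    (fun l hl => by
      rcases lt_trichotomy l t with h | rfl | h
      · simpa [h.le, show l + 1 ≤ t from h] using a3 (l + 1) (by omega)
      · simpa [show 2 * l + 1 - (l + 1) = l by omega] using c3
      · have := b3 (2 * t - l) (by omega)
        simpa [show ¬ l ≤ t by omega, show ¬ l + 1 ≤ t by omega,
          show 2 * t + 1 - l = 2 * t - l + 1 by omega] using this)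
    (by simpa [b0, show ¬ 2 * t ≤ t by omega] using b3 0 (by omega))
  have hnew : ∀ i x, Function.update π j (f * σ) i x = π i x ∨
      (i = j ∧ Γ₃ (x, Function.update π j (f * σ) i x) ∧
        ∀ i', Function.update π j (f * σ) i x ≠ π i' x) := by
    intro i x
    by_cases hi : i = j
    · subst hi
      rcases s1 x with h | h
      · exact Or.inl (by simp [h, hf])
      · exact Or.inr ⟨rfl, by simpa using h.2⟩
    · exact Or.inl (by simp [hi])
  have hsz' : ∀ (U : Fin b → Finset V) (X : Finset V), #X ≤ 2 * g ^ (t + 1) → ∀ i',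
      #(Function.update U i (U i ∪ X) i') ≤ #(U i') + 2 * g ^ (t + 1) ∧
        (i' ≠ i → Function.update U i (U i ∪ X) i' = U i') := by
    intro U X hX i'
    refine ⟨?_, fun h => Function.update_of_ne h _ _⟩
    by_cases h : i' = i
    · rw [h, Function.update_self]
      exact (card_union_le _ _).trans (by omega)
    · rw [Function.update_of_ne h]
      omega
  refine le_trans (Bd2_mono (fun e he => he) ?_) (hc Γ₃ _ _ _ ?_ ?_
    (anch_update hA hp σ (U₁ ∪ W₁) U₂ (fun x => x ∉ F) (fun x hx => (hFm x hx).2.2)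
      (fun x => (s1 x).imp_right fun h => h.1) s2 (fun u hu => ?_) fun u hu => ?_)
    (hsz' _ _ ?_) (hsz' _ _ ?_))
  · have sub : ∀ (U : Fin b → Finset V) (X : Finset V) (i' : Fin b),
        U i' ⊆ Function.update U i (U i ∪ X) i' := by
      intro U X i'
      by_cases h : i' = i
      · rw [h, Function.update_self]; exact subset_union_left
      · rw [Function.update_of_ne h]
    rintro c ((((h | h) | ⟨u, hu, x, rfl⟩) | ⟨u, hu, x, rfl⟩) | ⟨u, hu, x, rfl⟩)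
    · exact Or.inl (sub _ _ _ h)
    · exact Or.inr (sub _ _ _ h)
    · simp [en₁, ← hi, hu]
    · simp [en₂, ← hi, ← hf, hu]
    · simp [en₁, ← hi, hu]
  · intro i i' hi x
    rcases hnew i x with h | ⟨h1, h2, h⟩ <;> rcases hnew i' x with h' | ⟨h1', h2', h'⟩
    · rw [h, h']; exact hD i i' hi x
    · rw [h]; exact (h' i).symm
    · rw [h']; exact h i'
    · exact absurd (h1.trans h1'.symm) hi
  · intro i x
    rcases hnew i x with h | ⟨h1, h2, h⟩
    · rw [h]; exact Or.inl (hΓ₂ _ (hΓ₁ _ (hΓ i x)))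
    · exact h2
  · rcases mem_union.mp hu with hu | hu
    · obtain ⟨l, _, h⟩ := hU₁ u hu
      exact n₁ l u h
    · exact n₁ _ u (hW₁ hu)
  · obtain ⟨l, _, h⟩ := hU₂ u hu
    exact n₂ l u h
  · have := card_union_le U₁ W₁
    omega
  · have := card_image_le (s := U₂) (f := f)
    have : g ^ t ≤ g ^ (t + 1) := Nat.pow_le_pow_right (by omega) (by omega)
    exact card_image_le.trans (by omega)

end Proc2

open Proc2 in
theorem proc2 (hpatt : S_PATT) : S_PROC2 := by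
  intro V A _ _ _ _ Rs k b n0 g t z ub T hg2 ht hg hN hsz Γ π r Up Um An ρ
  generalize hm : #An = m
  induction m generalizing Γ π Up Um An with
  | zero =>
    obtain rfl := card_eq_zero.mp hm
    intro _ hD hΓ hA _ _
    refine le_trans (le_of_eq (Pr_false fun β h => h ⟨π, fun j S hS hc => ?_, hD,
      fun j x => Or.inl (hΓ j x)⟩)) (by simp)
    by_contra hne
    have h1 := (hA.cover j S hS hc).resolve_right (by simp)
    have h2 := (hA.cover j Sᶜ (nonempty_iff_ne_empty.mpr fun h => hne (by simpa using h))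
      (cl_compl hc)).resolve_right (by simp)
    exact mem_compl.mp h2 h1
  | succ m ih =>
    intro hT hD hΓ hA h1 h2
    obtain ⟨p, hp⟩ : An.Nonempty := card_pos.mp (by omega)
    have key : ∀ U U' : Fin b → Finset V,
        (∀ i, #(U i) + #(An.filter fun q => ρ q = i) * (2 * g ^ (t + 1)) ≤ ub) →
        (∀ i, #(U' i) ≤ #(U i) + 2 * g ^ (t + 1) ∧ (i ≠ ρ p → U' i = U i)) →
        ∀ i, #(U' i) + #((An.erase p).filter fun q => ρ q = i) * (2 * g ^ (t + 1)) ≤ ub := by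
      intro U U' h3 h4 i
      refine le_trans ?_ (h3 i)
      by_cases h : i = ρ p
      · have h5 : #((An.erase p).filter fun q => ρ q = i) + 1 = #(An.filter fun q => ρ q = i) := by
          rw [filter_erase, card_erase_add_one (mem_filter.mpr ⟨hp, h.symm⟩)]
        rw [← h5, add_mul]
        have := (h4 i).1
        omega
      · rw [(h4 i).2 h]
        exact Nat.add_le_add_left (Nat.mul_le_mul_right _
          (card_le_card (filter_subset_filter _ (erase_subset _ _)))) _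
    refine le_trans (step hpatt Rs n0 g t z ub T hg2 ht hg hN hsz Γ π r Up Um An ρ hD hΓ hA
      (fun i => le_trans (Nat.le_add_right _ _) (h1 i))
      (fun i => le_trans (Nat.le_add_right _ _) (h2 i)) (hm ▸ hT) p hp
      (β := m * ((2 * t + 1) * Real.exp (-(Pr Rs * z / 8)) +
        Real.exp (-(Pr Rs * g ^ (2 * t + 1) / 2)))) (by positivity) ?_)
      (le_of_eq (by push_cast; ring))
    intro Γ' π' Up' Um' hD' hΓ' hA' h3 h4
    exact ih Γ' π' Up' Um' _ (by rw [card_erase_of_mem hp]; omega) (by omega) hD' hΓ' hA'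
      (key _ _ h1 h3) (key _ _ h2 h4)

end Pool.Agent.P.MP_de899d_pr
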