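import Pool.Agent.P.MP_de899d_pr.Base2

/-! The absorber for regular graphs inside the classes and the robustly decomposable subgraph. -/

set_option linter.unusedSectionVars false
set_option linter.unusedVariables false

namespace Pool.Agent.P.MP_de899d_pr
open Finset Equiv

namespace RD

variable {V : Type} [Fintype V] [DecidableEq V]

/-- The real edges of a triple. -/
def Ed (T : Finset V) (p : Perm V × Perm V × Perm V) (e : V × V) : Prop :=
  (e.1 ∉ T ∧ p.1 e.1 = e.2) ∨ p.2.1 e.1 = e.2 ∨ p.2.2 e.1 = e.2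

theorem tri_mono {T H : Finset V} {R R' : V × V → Prop} {ψ D E : Perm V} (h : Tri T H R ψ D E)
    (hR : ∀ e, R e → R' e) : Tri T H R' ψ D E :=
  ⟨h.1, fun x hx => ⟨hR _ (h.2.1 x hx).1, (h.2.1 x hx).2⟩,
    fun x => ⟨hR _ (h.2.2.1 x).1, hR _ (h.2.2.1 x).2.1, (h.2.2.1 x).2.2⟩, h.2.2.2⟩

theorem ed_sub {T H : Finset V} {R : V × V → Prop} {p : Perm V × Perm V × Perm V}
    (h : Tri T H R p.1 p.2.1 p.2.2) (e : V × V) (he : Ed T p e) : R e := by
  obtain ⟨x, y⟩ := e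
  rcases he with ⟨h1, h2⟩ | h2 | h2 <;> simp only at h2 <;> subst h2
  · exact (h.2.1 x h1).1
  · exact (h.2.2.1 x).1
  · exact (h.2.2.1 x).2.1

theorem rdeg_ed {T : Finset V} {p : Perm V × Perm V × Perm V}
    (h1 : ∀ x, x ∉ T → p.1 x ≠ p.2.1 x ∧ p.1 x ≠ p.2.2 x) (h2 : ∀ x, p.2.1 x ≠ p.2.2 x) (x : V) :
    rdeg (Ed T p) x = if x ∈ T then 2 else 3 := by
  unfold rdeg
  split_ifs with hx
  · rw [← card_pair (h2 x)]
    congr 1
    ext y
    simp [Ed, hx, eq_comm]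
  · rw [card_eq_three]
    refine ⟨p.1 x, p.2.1 x, p.2.2 x, (h1 x hx).1, (h1 x hx).2, h2 x, ?_⟩
    ext y
    simp [Ed, hx, eq_comm]

theorem maps_iff {T H : Finset V} {ψ : Perm V} (h : ∀ x ∈ T, ψ x ∈ H) (hc : #T = #H) (x : V) :
    ψ x ∈ H ↔ x ∈ T := by
  refine ⟨fun hx => ?_, h x⟩
  have h1 : T.image ψ = H := eq_of_subset_of_card_le
    (fun y hy => by
      obtain ⟨z, hz, rfl⟩ := mem_image.1 hy
      exact h z hz) (by rw [card_image_of_injective _ ψ.injective, hc])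
  rw [← h1] at hx
  obtain ⟨z, hz, e⟩ := mem_image.1 hx
  exact ψ.injective e ▸ hz

theorem rdeg_tr_ed {T H : Finset V} {R : V × V → Prop} {p : Perm V × Perm V × Perm V}
    (h : Tri T H R p.1 p.2.1 p.2.2) (hc : #T = #H) (y : V) :
    rdeg (tr (Ed T p)) y = if y ∈ H then 2 else 3 := by
  have hm := maps_iff h.1 hc
  have e : tr (Ed T p) = Ed H (p.1⁻¹, p.2.1⁻¹, p.2.2⁻¹) := by
    ext ⟨y, x⟩
    simp only [tr, Ed, Prod.fst_swap, Prod.snd_swap, Perm.inv_eq_iff_eq]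
    refine or_congr ⟨?_, ?_⟩ (or_congr eq_comm eq_comm)
    · rintro ⟨h1, rfl⟩
      exact ⟨fun h2 => h1 ((hm x).1 h2), rfl⟩
    · rintro ⟨h1, rfl⟩
      exact ⟨fun h2 => h1 ((hm x).2 h2), rfl⟩
  rw [e]
  refine rdeg_ed (fun y hy => ?_) (fun y h2 => ?_) y
  · obtain ⟨x, rfl⟩ := p.1.surjective y
    have hx : x ∉ T := fun h2 => hy ((hm x).2 h2)
    simp only [Perm.coe_inv, symm_apply_apply]
    exact ⟨fun h2 => (h.2.1 x hx).2.1 ((symm_apply_eq _).1 h2.symm),
      fun h2 => (h.2.1 x hx).2.2 ((symm_apply_eq _).1 h2.symm)⟩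
  · obtain ⟨x, rfl⟩ := p.2.1.surjective y
    simp only [Perm.coe_inv, symm_apply_apply] at h2
    exact (h.2.2.1 x).2.2 ((symm_apply_eq _).1 h2.symm)

theorem rdeg_sum {ι : Type} [Fintype ι] (G : ι → V × V → Prop)
    (h : ∀ i j, i ≠ j → ∀ e, G i e → ¬ G j e) (x : V) :
    rdeg (fun e => ∃ i, G i e) x = ∑ i, rdeg (G i) x := by
  classical
  unfold rdeg
  rw [← card_biUnion]
  · congr 1
    ext y
    simp
  · intro i _ j _ hij
    exact disjoint_filter.2 fun y _ => h i j hij _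

theorem sum47 (r : ℕ) (b : Fin 16) :
    ∑ i : Fin 16 × Fin r, (if b = i.1 then 2 else 3) = 47 * r := by
  have h : ∑ a : Fin 16, (if b = a then 2 else 3) = 47 := by
    revert b
    decide
  rw [Fintype.sum_prod_type_right, sum_congr rfl fun _ _ => h, sum_const, card_univ,
    Fintype.card_fin, smul_eq_mul, mul_comm]

theorem card_far {cT : V → Fin 16} {m : ℕ} (h : ∀ a, m ≤ #(fib cT a)) (a : Fin 16) :
    10 * m ≤ #(univ.filter fun x => 6 ≤ (cT x - a).val) := by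
  have h1 : #(univ.filter fun b : Fin 16 => 6 ≤ (b - a).val) = 10 := by
    revert a
    decide
  rw [card_eq_sum_card_fiberwise (f := cT) (t := univ.filter fun b : Fin 16 => 6 ≤ (b - a).val)
    (fun x hx => by simpa using hx), ← h1, ← smul_eq_mul]
  refine card_nsmul_le_sum _ _ _ fun b hb => (h b).trans (card_le_card fun x hx => ?_)
  rw [mem_fib] at hx
  simpa [hx] using hb

theorem step (htri : S_TRI) {cT cH : V → Fin 16} {m : ℕ} {R : V × V → Prop} {q β r : ℕ}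
    (hc : Clu cT cH m) (hI : Irr R) (hD : Den R q β) (hq : 0 < q) (h1 : 96 * q * r ≤ β)
    (h2 : 20 * q ≤ β) (h3 : ∀ a, DegIn R (fib cT a) (10 * β + 5 + 48 * r)) (h4 : 64 * q * β ≤ m)
    (h5 : 8 + 8 * β * (2 * q) ^ 8 ≤ 2 * m) (Z : V × V → Prop)
    (hZ : ∀ x, rdeg Z x ≤ 48 * r) (hZ' : ∀ x, rdeg (tr Z) x ≤ 48 * r) (a : Fin 16) :
    ∃ ψ D E : Perm V, Tri (fib cT a) (fib cH a) (fun e => R e ∧ ¬ Z e) ψ D E := by
  have hs : ∀ e, R e → (R e ∧ ¬ Z e) ∨ Z e := fun e he => by tauto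
  have hm : 0 < m := lt_of_lt_of_le (Nat.mul_pos (by omega) (by omega)) h4
  have hT : ∀ x ∈ fib cT a, cT x - a = 0 := fun x hx => by rw [mem_fib.1 hx, sub_self]
  have hH : ∀ x ∈ fib cH a, cT x - a = 1 ∨ cT x - a = 2 := fun x hx => by
    rcases hc.sub x with h | h <;> rw [h, mem_fib.1 hx, add_sub_cancel_left] <;> simp
  have hQ : ∀ (b : Fin 16), ∀ x, x ∈ fib cT (a + b) ↔ cT x - a = b := fun b x => by
    rw [mem_fib, sub_eq_iff_eq_add']
  have h32 : ∀ b, 32 * (2 * q) * β ≤ #(fib cT b) := fun b =>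
    le_trans (le_of_eq (by ring)) (h4.trans (hc.size b).1)
  refine htri V (fib cT a) (fib cH a) (univ.filter fun x => 6 ≤ (cT x - a).val) (fib cT (a + 3))
    (fib cT (a + 4)) (fib cT (a + 5)) _ (2 * q) β (card_pos.1 (hm.trans_le (hc.size a).1))
    (hc.eq a) ?_ ?_ ?_ ?_ ?_ (fun x hx => hI x hx.1)
    (hD.remove hs hZ (le_trans (le_of_eq (by ring)) h1)) (by omega) (by omega)
    ((h3 _).remove hs hZ hZ') ((h3 _).remove hs hZ hZ') ((h3 _).remove hs hZ hZ')
    (h32 _) (h32 _) (h32 _) ?_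
  · refine disjoint_left.2 fun x hx hx' => ?_
    have e1 := hT x hx
    have e2 := hH x hx'
    rw [e1] at e2
    revert e2
    decide
  · refine disjoint_left.2 fun x hx hx' => ?_
    have e1 : cT x - a = 0 ∨ cT x - a = 1 ∨ cT x - a = 2 :=
      (mem_union.1 hx).elim (fun h => Or.inl (hT x h)) fun h => Or.inr (hH x h)
    simp only [mem_union, hQ, mem_filter, mem_univ, true_and] at hx'
    generalize cT x - a = c at e1 hx'
    revert c
    decide
  · refine disjoint_left.2 fun x hx hx' => ?_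
    simp only [mem_union, hQ, mem_filter, mem_univ, true_and] at hx hx'
    generalize cT x - a = c at hx hx'
    revert c
    decide
  · refine disjoint_left.2 fun x hx hx' => ?_
    simp only [mem_union, hQ] at hx hx'
    generalize cT x - a = c at hx hx'
    revert c
    decide
  · refine disjoint_left.2 fun x hx hx' => ?_
    simp only [hQ] at hx hx'
    generalize cT x - a = c at hx hx'
    revert c
    decide
  · have := card_far (fun b => (hc.size b).1) a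
    have := (hc.size a).2
    omega

theorem pw {Y : ℕ} (hY : 10 ^ 20 ≤ Y) (c i j : ℕ) (hc : c ≤ 10 ^ 20) (h : i < j) :
    c * Y ^ i ≤ Y ^ j :=
  calc c * Y ^ i ≤ Y * Y ^ i := Nat.mul_le_mul_right _ (hc.trans hY)
    _ = Y ^ (i + 1) := by rw [pow_succ, mul_comm]
    _ ≤ Y ^ j := Nat.pow_le_pow_right (lt_of_lt_of_le (by norm_num) hY) h

theorem degIn_mono {R : V × V → Prop} {Q : Finset V} {δ δ' : ℕ} (h : DegIn R Q δ) (h' : δ' ≤ δ) :
    DegIn R Q δ' := fun x => ⟨h'.trans (h x).1, h'.trans (h x).2⟩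

theorem rdeg_cls {κ : Type} [DecidableEq κ] (cT cH : V → κ) (G : V × V → Prop) (x : V) :
    rdeg (fun e => G e ∧ cT e.1 = cH e.2) x = eN G {x} (fib cH (cT x)) := by
  rw [eN_row, sum_singleton]
  unfold rdeg
  congr 1
  ext y
  simp only [mem_filter, mem_univ, true_and, mem_fib]
  exact ⟨fun h => ⟨h.2.symm, h.1⟩, fun h => ⟨h.2, h.1.symm⟩⟩

theorem rdeg_tr_cls {κ : Type} [DecidableEq κ] (cT cH : V → κ) (G : V × V → Prop) (y : V) :
    rdeg (tr fun e => G e ∧ cT e.1 = cH e.2) y = eN G (fib cT (cH y)) {y} := by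
  rw [eN_col, sum_singleton]
  unfold rdeg
  congr 1
  ext x
  simp only [mem_filter, mem_univ, true_and, mem_fib, tr, Prod.swap_prod_mk]
  exact and_comm

theorem eN_cls {κ : Type} [DecidableEq κ] (cT cH : V → κ) (G : V × V → Prop) {a : κ}
    {X Y : Finset V} (hX : X ⊆ fib cT a) (hY : Y ⊆ fib cH a) :
    eN G X Y ≤ eN (fun e => G e ∧ cT e.1 = cH e.2) X Y := by
  classical
  unfold eN
  refine card_le_card fun e he => ?_
  simp only [mem_filter, mem_product] at he ⊢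
  exact ⟨he.1, he.2, (mem_fib.1 (hX he.1.1)).trans (mem_fib.1 (hY he.1.2)).symm⟩

theorem eN_reg_row {L : V × V → Prop} {r : ℕ} (h : Reg L r) (X : Finset V) :
    eN L X univ = #X * r := by
  rw [eN_univ, sum_congr rfl fun x _ => h.1 x, sum_const, smul_eq_mul]

theorem eN_reg_col {L : V × V → Prop} {r : ℕ} (h : Reg L r) (X : Finset V) :
    eN L univ X = #X * r := by
  rw [← eN_tr, eN_univ, sum_congr rfl fun x _ => h.2 x, sum_const, smul_eq_mul]

/-- The blown-up classes: a regular subgraph that is dense inside every class. -/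
theorem blow (hreg : S_REG) {Y r1 m : ℕ} {cT cH : V → Fin 16} {R : Fin 7 → V × V → Prop}
    (hY : 10 ^ 20 ≤ Y) (hc : Clu cT cH m) (hS : St3 Y r1 cT cH R) :
    ∃ A1 : V × V → Prop, (∀ e, A1 e → R 2 e ∧ cT e.1 = cH e.2) ∧ Reg A1 r1 ∧
      ∀ a (X Z : Finset V), X ⊆ fib cT a → Z ⊆ fib cH a → 160 * Y ^ 234 ≤ #X →
        160 * Y ^ 234 ≤ #Z → #X * #Z ≤ 16 * Y ^ 15 * eN A1 X Z := by
  have hY0 : 0 < Y := lt_of_lt_of_le (by norm_num) hY
  have hden : ∀ a (X Z : Finset V), X ⊆ fib cT a → Z ⊆ fib cH a → Y ^ 17 ≤ #X → Y ^ 17 ≤ #Z →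
      #X * #Z ≤ 8 * Y ^ 15 * eN (fun e => R 2 e ∧ cT e.1 = cH e.2) X Z :=
    fun a X Z hX hZ h1 h2 => (hS.den2 X Z h1 h2).trans
      (Nat.mul_le_mul_left _ (eN_cls cT cH _ hX hZ))
  have p1 := pw hY 1 17 143 (by norm_num) (by norm_num)
  have p2 := pw hY 1 128 143 (by norm_num) (by norm_num)
  have p3 := pw hY 6000 143 235 (by norm_num) (by norm_num)
  have p4 := pw hY 1 143 234 (by norm_num) (by norm_num)
  have hlo := hS.r1lo
  obtain ⟨M, hM1, hM2⟩ := hreg V (Fin 16) cT cH (fun e => R 2 e ∧ cT e.1 = cH e.2) r1 (Y ^ 128)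
    (32 * Y ^ 143) (fun e he => he.2) hc.eq
    (fun x => by rw [rdeg_cls]; exact hS.row2 x) (fun y => by rw [rdeg_tr_cls]; exact hS.col2 y)
    (fun a X Z hX hZ h1 h2 => by
      have h3 := hden a X Z hX hZ (by omega) (by omega)
      have h4 : 32 * Y ^ 143 * min #X #Z ≤ #X * #Z := by
        rcases le_total #X #Z with h | h
        · rw [min_eq_left h, mul_comm #X]
          exact Nat.mul_le_mul_right _ h2
        · rw [min_eq_right h]
          exact Nat.mul_le_mul_right _ h1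
      refine Nat.le_of_mul_le_mul_left (le_trans (le_of_eq ?_) (h4.trans h3)) (by positivity)
      ring)
    (by omega)
  have hA : Reg (Gr M) r1 := by simpa using reg_Gr (H := M) hM1
  have hsub : ∀ e, Gr M e → R 2 e ∧ cT e.1 = cH e.2 := by
    rintro ⟨x, y⟩ ⟨j, hj⟩
    simp only at hj
    subst hj
    exact hM2 j x
  refine ⟨Gr M, hsub, hA, fun a X Z hX hZ h1 h2 => ?_⟩
  have h3 := den_remove (R' := Gr M)
    (Z := fun e => (R 2 e ∧ cT e.1 = cH e.2) ∧ ¬ Gr M e) (r := 4 * Y ^ 128)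
    (hden a X Z hX hZ (by omega) (by omega)) (fun e he => by tauto)
    (fun x => by
      have h4 := rdeg_split (G := fun e => R 2 e ∧ cT e.1 = cH e.2) (G₁ := Gr M)
        (G₂ := fun e => (R 2 e ∧ cT e.1 = cH e.2) ∧ ¬ Gr M e)
        (fun e => by have := hsub e; tauto) (fun e he h => h.2 he) x
      rw [rdeg_cls, hA.1 x] at h4
      have := (hS.row2 x).2
      omega)
    (by
      have : 2 * (8 * Y ^ 15) * (4 * Y ^ 128) = 64 * Y ^ 143 := by ring
      omega)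
  exact h3.trans (le_of_eq (by ring))

end RD

open RD

theorem absb (htri : S_TRI) : S_ABS := by
  intro V _ _ cT cH m R q β r hc hI hD hq h1 h2 h3 h4 h5
  obtain ⟨g, hP, hC⟩ := seq_choice (I := Fin 16 × Fin r) (α := Perm V × Perm V × Perm V)
    (fun i p => Tri (fib cT i.1) (fib cH i.1) R p.1 p.2.1 p.2.2)
    (fun i p j p' => ∀ e, Ed (fib cT i.1) p e → ¬ Ed (fib cT j.1) p' e)
    (fun i a j b h e h1 h2 => h e h2 h1)
    (fun i S g _ _ => by
      have hZ := rdeg_Gr_le fun u : (Fin 16 × Fin r) × Fin 3 =>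
        ![(g u.1).1, (g u.1).2.1, (g u.1).2.2] u.2
      have hcard : Fintype.card ((Fin 16 × Fin r) × Fin 3) = 48 * r := by
        simp only [Fintype.card_prod, Fintype.card_fin]
        ring
      rw [hcard] at hZ
      obtain ⟨ψ, D, E, h⟩ := step htri hc hI hD hq h1 h2 h3 h4 h5 _ (fun x => (hZ x).1)
        (fun x => (hZ x).2) i.1
      refine ⟨(ψ, D, E), tri_mono h fun e he => he.1, fun j _ e he he' => ?_⟩
      refine (ed_sub (p := (ψ, D, E)) h e he).2 ?_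
      rcases he' with ⟨_, h6⟩ | h6 | h6
      · exact ⟨(j, 0), h6⟩
      · exact ⟨(j, 1), h6⟩
      · exact ⟨(j, 2), h6⟩)
  refine ⟨fun e => ∃ i : Fin 16 × Fin r, Ed (fib cT i.1) (g i) e,
    fun e ⟨i, hi⟩ => ed_sub (hP i) e hi, ⟨fun x => ?_, fun y => ?_⟩, fun N hN hR => ?_⟩
  · rw [rdeg_sum _ hC, ← sum47 r (cT x)]
    refine sum_congr rfl fun i _ => ?_
    rw [rdeg_ed (fun x hx => ((hP i).2.1 x hx).2) (fun x => ((hP i).2.2.1 x).2.2)]
    simp only [mem_fib]
  · have e := rdeg_sum (fun i : Fin 16 × Fin r => tr (Ed (fib cT i.1) (g i)))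
      (fun i j hij e => hC i j hij e.swap) y
    refine e.trans ?_
    rw [← sum47 r (cH y)]
    refine sum_congr rfl fun i _ => ?_
    rw [rdeg_tr_ed (hP i) (hc.eq _)]
    simp only [mem_fib]
  · obtain ⟨M, hM1, hM2⟩ := koenig r N (fun x => (hR.1 x).ge) fun y => (hR.2 y).le
    have h := tgt_sum (Γ := fun e => (∃ i : Fin 16 × Fin r, Ed (fib cT i.1) (g i) e) ∨ N e)
      (fun (i : Fin 16 × Fin r) e => (e.1 ∈ fib cT i.1 ∧ M i.2 e.1 = e.2) ∨
        Ed (fib cT i.1) (g i) e) (fun _ => 3)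
      (fun i => (hP i).2.2.2 (M i.2) fun x hx =>
        ⟨mem_fib.2 ((hN _ (hM2 i.2 x)).1.symm.trans (mem_fib.1 hx)),
          fun h => (hN _ (hM2 i.2 x)).2 ⟨i, Or.inr (Or.inl h.symm)⟩,
          fun h => (hN _ (hM2 i.2 x)).2 ⟨i, Or.inr (Or.inr h.symm)⟩⟩)
      (by
        rintro i j ⟨x, y⟩ (⟨a1, a2⟩ | a1) (⟨b1, b2⟩ | b1)
        · refine Prod.ext ((mem_fib.1 a1).symm.trans (mem_fib.1 b1)) ?_
          by_contra hne
          exact hM1 _ _ hne x (a2.trans b2.symm)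
        · simp only at a2
          subst a2
          exact absurd ⟨j, b1⟩ (hN _ (hM2 i.2 x)).2
        · simp only at b2
          subst b2
          exact absurd ⟨i, a1⟩ (hN _ (hM2 j.2 x)).2
        · by_contra hne
          exact hC i j hne _ a1 b1)
      (by
        rintro i ⟨x, y⟩ (⟨a1, a2⟩ | a1)
        · simp only at a2
          subst a2
          exact Or.inr (hM2 i.2 x)
        · exact Or.inl ⟨i, a1⟩)
    refine h.le (le_of_eq ?_)
    simp only [sum_const, card_univ, Fintype.card_prod, Fintype.card_fin, smul_eq_mul]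
    ring

theorem rd (habs : S_ABS) (hreg : S_REG) (hpiece : S_PIECE) (hcover : S_COVER) : S_RD := by
  intro V _ _ Y r1 cT cH R hY hn1 hn2 hc hS
  have hY0 : 0 < Y := lt_of_lt_of_le (by norm_num) hY
  obtain ⟨m, hm⟩ : ∃ m, m = Fintype.card V / 16 := ⟨_, rfl⟩
  rw [← hm] at hc
  have hm1 : 10 ^ 6 * Y ^ 249 ≤ m := by
    have := pw hY (16 * 10 ^ 6) 249 250 (by norm_num) (by norm_num)
    omega
  have hlo := hS.r1lo
  have hhi := hS.r1hi
  have p1 := pw hY 160 219 235 (by norm_num) (by norm_num)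
  obtain ⟨r2, hr2⟩ : ∃ r2, r1 = r2 + 4 * Y ^ 219 := ⟨r1 - 4 * Y ^ 219, by omega⟩
  have p2 := pw hY 1 3 236 (by norm_num) (by norm_num)
  have p3 := pw hY 1 1 236 (by norm_num) (by norm_num)
  have p4 := pw hY 1 235 236 (by norm_num) (by norm_num)
  have p5 := pw hY 20000 236 248 (by norm_num) (by norm_num)
  have p6 := pw hY 2457600 237 249 (by norm_num) (by norm_num)
  have p7 := pw hY (8 * 1920 * 40 ^ 8) 244 249 (by norm_num) (by norm_num)
  have p8 := pw hY 8 0 249 (by norm_num) (by norm_num)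
  rw [pow_one] at p3
  rw [pow_zero] at p8
  obtain ⟨Γ, hΓ1, hΓ2, hΓ3⟩ := habs V cT cH m (R 0) (20 * Y) (1920 * Y ^ 236) r2 hc (hS.irr 0)
    (hS.den0.mono (fun _ h => h) le_rfl (by omega)) (by omega)
    (calc 96 * (20 * Y) * r2 ≤ 96 * (20 * Y) * Y ^ 235 := Nat.mul_le_mul_left _ (by omega)
      _ = 1920 * Y ^ 236 := by ring)
    (by omega) (fun a => degIn_mono (hS.deg0 a) (by omega))
    (by
      have : 64 * (20 * Y) * (1920 * Y ^ 236) = 2457600 * Y ^ 237 := by ring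
      omega)
    (by
      have : 8 * (1920 * Y ^ 236) * (2 * (20 * Y)) ^ 8 = 8 * 1920 * 40 ^ 8 * Y ^ 244 := by ring
      omega)
  obtain ⟨A1, hA1, hA2, hA3⟩ := blow hreg hY hc hS
  have hΓA : ∀ e, Γ e → ¬ A1 e := fun e h1 h2 =>
    absurd (hS.disj 0 2 e (hΓ1 e h1) (hA1 e h2).1) (by decide)
  refine ⟨fun e => Γ e ∨ A1 e, 47 * r2 + r1,
    fun e he => he.imp (hΓ1 e) fun h => (hA1 e h).1, ⟨fun x => ?_, fun y => ?_⟩, by omega,
    fun L r hr hL hI hLA hL3 => ?_⟩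
  · rw [rdeg_split (fun _ => Iff.rfl) hΓA, hΓ2.1, hA2.1]
  · rw [rdeg_tr_split (fun _ => Iff.rfl) hΓA, hΓ2.2, hA2.2]
  have q1 := pw hY 1 203 219 (by norm_num) (by norm_num)
  have q2 := pw hY 1 51 249 (by norm_num) (by norm_num)
  have q3 := pw hY 32 0 234 (by norm_num) (by norm_num)
  have q4 := pw hY 1 219 234 (by norm_num) (by norm_num)
  have q5 := pw hY 70000 234 235 (by norm_num) (by norm_num)
  have q6 := pw hY 9 234 249 (by norm_num) (by norm_num)
  have q7 : 0 < Y ^ 219 := by positivity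
  rw [pow_zero] at q3
  obtain ⟨χ, hχ⟩ := hpiece V (Fin 16) cT cH L r (4 * Y ^ 219 + r) (Y ^ 234) (by omega)
    (fun x => (hL.1 x).le) (fun y => (hL.2 y).le)
    (fun a => by rw [eN_reg_row hL, eN_reg_col hL, hc.eq])
    (fun a a' => by
      have h1 := (hc.size a).1
      have h2 := (hc.size a').1
      rw [hc.eq a'] at h2
      have h3 := hS.den3 (fib cT a) (fib cH a') (by omega) (by omega)
      have h4 := eN_mono hL3 (fib cT a) (fib cH a')
      by_contra h5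
      have h6 : eN L (fib cT a) (fib cH a') ≤ 8 * Y ^ 203 * Y ^ 234 :=
        (not_lt.1 h5).trans (Nat.mul_le_mul_right _ (by omega))
      have h7 : Y ^ 249 * Y ^ 249 ≤ #(fib cT a) * #(fib cH a') :=
        Nat.mul_le_mul (by omega) (by omega)
      have h8 := h7.trans (h3.trans (Nat.mul_le_mul_left _ (h4.trans h6)))
      have h9 := Nat.mul_le_mul_left (Y ^ 249) (pw hY 65 237 249 (by norm_num) (by norm_num))
      have h10 : 8 * Y ^ 49 * (8 * Y ^ 203 * Y ^ 234) = 64 * (Y ^ 249 * Y ^ 237) := by ring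
      have h11 : Y ^ 249 * (65 * Y ^ 237) = 65 * (Y ^ 249 * Y ^ 237) := by ring
      have h12 : 0 < Y ^ 249 * Y ^ 237 := by positivity
      omega)
    (by
      rw [eN_reg_row hL, card_univ, Fintype.card_fin]
      have h1 : Fintype.card V * r ≤ 2 * Y ^ 250 * Y ^ 203 := Nat.mul_le_mul hn2 hr
      have h2 : (4 * Y ^ 219 + r) * 32 ≤ (4 * Y ^ 219 + r) * Y ^ 234 :=
        Nat.mul_le_mul_left _ (by omega)
      have h3 : 4 * Y ^ 219 * Y ^ 234 ≤ (4 * Y ^ 219 + r) * Y ^ 234 :=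
        Nat.mul_le_mul_right _ (by omega)
      have h4 : 4 * Y ^ 219 * Y ^ 234 = 2 * (2 * Y ^ 250 * Y ^ 203) := by ring
      omega)
  obtain ⟨H, hH1, hH2, hH3, hH4⟩ := hcover V cT cH m A1 L _ χ r1 (16 * Y ^ 15) (160 * Y ^ 234)
    (Y ^ 234) hc (fun e he => ⟨(hA1 e he).2, fun h => hLA e h (Or.inr he)⟩) hI
    (fun x => (hA2.1 x).ge) (fun y => (hA2.2 y).ge) hA3 hχ (by omega) (by positivity)
    (calc 2 * (16 * Y ^ 15) * (4 * Y ^ 219 + r) ≤ 2 * (16 * Y ^ 15) * (5 * Y ^ 219) :=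
        Nat.mul_le_mul_left _ (by omega)
      _ = 160 * Y ^ 234 := by ring)
    (by omega)
    (by
      have : 32 * (16 * Y ^ 15) * (160 * Y ^ 234) = 81920 * Y ^ 249 := by ring
      omega)
    (by omega)
  have hG : Reg (Gr H) (4 * Y ^ 219 + r) := by simpa using reg_Gr (H := H) hH2
  have hG1 : ∀ e, Gr H e → L e ∨ A1 e := by
    rintro ⟨x, y⟩ ⟨j, hj⟩
    simp only at hj
    subst hj
    exact hH4 j x
  have hG2 : ∀ e, L e → Gr H e := fun e he => ⟨χ e, hH3 e he⟩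
  have s1 : ∀ e, A1 e ↔ (A1 e ∧ ¬ Gr H e) ∨ (A1 e ∧ Gr H e) := fun e => by tauto
  have s2 : ∀ e, A1 e ∧ ¬ Gr H e → ¬ (A1 e ∧ Gr H e) := fun e => by tauto
  have s3 : ∀ e, Gr H e ↔ L e ∨ (A1 e ∧ Gr H e) := fun e => by
    have := hG1 e
    have := hG2 e
    tauto
  have s4 : ∀ e, L e → ¬ (A1 e ∧ Gr H e) := fun e h1 h2 => hLA e h1 (Or.inr h2.1)
  have hN : Reg (fun e => A1 e ∧ ¬ Gr H e) r2 := by
    refine ⟨fun x => ?_, fun y => ?_⟩
    · have a1 := rdeg_split s1 s2 x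
      have a2 := rdeg_split s3 s4 x
      rw [hA2.1] at a1
      rw [hG.1, hL.1] at a2
      omega
    · have a1 := rdeg_tr_split s1 s2 y
      have a2 := rdeg_tr_split s3 s4 y
      rw [hA2.2] at a1
      rw [hG.2, hL.2] at a2
      omega
  have t1 := hΓ3 _ (fun e he => ⟨(hA1 e he.1).2, fun h => hΓA e h he.1⟩) hN
  have t2 : Tgt (4 * Y ^ 219 + r) (Gr H) := ⟨H, hH1, hH2, fun j x => ⟨j, rfl⟩⟩
  refine (t1.add t2 (Γ := fun e => (Γ e ∨ A1 e) ∨ L e) ?_ ?_ ?_).le (by omega)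
  · rintro e (h | h) h'
    · rcases hG1 e h' with h2 | h2
      · exact hLA e h2 (Or.inl h)
      · exact hΓA e h h2
    · exact h.2 h'
  · rintro e (h | h)
    · exact Or.inl (Or.inl h)
    · exact Or.inl (Or.inr h.1)
  · intro e h
    rcases hG1 e h with h2 | h2
    · exact Or.inr h2
    · exact Or.inl (Or.inr h2)

end Pool.Agent.P.MP_de899d_pr
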