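import Pool.Agent.P.MP_de899d_pr.Base2
import Pool.Agent.P.MP_de899d_pr.Stat2

/-! The seven reserved subgraphs of the dense range are typical. -/

set_option linter.unusedSectionVars false
set_option linter.unusedVariables false

namespace Pool.Agent.P.MP_de899d_pr
open Finset

namespace St3L

section
variable {V A : Type} [Fintype V] [DecidableEq V] [Fintype A] [Nonempty A]

/-- Lower tail for a block with at most `N` entries. -/
theorem low_tail (P : A → Prop) (X Z : Finset V) {D N : ℝ} (hD : 0 < D)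
    (hN : (#X : ℝ) * #Z ≤ N) :
    Pr (fun U : V × V → A => (eN (fun e => P (U e)) X Z : ℝ) ≤ Pr P * #X * #Z - D) ≤
      Real.exp (-(D ^ 2 / (2 * N))) := by
  have hp0 := Pr_nonneg P
  have hp1 := Pr_le_one P
  have hXZ : (0 : ℝ) ≤ (#X : ℝ) * #Z := by positivity
  rcases (show (0 : ℝ) ≤ Pr P * #X * #Z by positivity).eq_or_lt with h | h
  · rw [Pr_false]
    · positivity
    · intro U hU
      have : (0 : ℝ) ≤ eN (fun e => P (U e)) X Z := by positivity
      linarith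
  · simp only [eN_eq_cnt]
    refine (Pr_lower_gauss (X ×ˢ Z) (fun _ => P) hD.le h (sum_mean P X Z).ge).trans ?_
    have h1 : Pr P * #X * #Z ≤ N := by nlinarith
    apply Real.exp_le_exp.mpr
    apply neg_le_neg
    apply div_le_div_of_nonneg_left (by positivity) (by positivity)
    linarith

theorem eN_add_not (G : V × V → Prop) (X Z : Finset V) :
    eN G X Z + eN (fun e => ¬ G e) X Z = #X * #Z := by
  classical
  unfold eN
  rw [← card_product]
  convert card_filter_add_card_filter_not (s := X ×ˢ Z) G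

/-- The count in a block deviates from its mean. -/
def Dev (P : A → Prop) (X Z : Finset V) (D : ℝ) (U : V × V → A) : Prop :=
  (eN (fun e => P (U e)) X Z : ℝ) ≤ Pr P * #X * #Z - D ∨
    Pr P * #X * #Z + D ≤ eN (fun e => P (U e)) X Z

theorem Pr_Dev (P : A → Prop) (X Z : Finset V) {D N : ℝ} (hD : 0 < D)
    (hN : (#X : ℝ) * #Z ≤ N) : Pr (Dev P X Z D) ≤ 2 * Real.exp (-(D ^ 2 / (2 * N))) := by
  have h1 := low_tail P X Z hD hN
  have h2 := low_tail (fun l => ¬ P l) X Z hD hN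
  refine (Pr_le_add (E₁ := fun U : V × V → A =>
    (eN (fun e => P (U e)) X Z : ℝ) ≤ Pr P * #X * #Z - D) (E₂ := fun U : V × V → A =>
    (eN (fun e => ¬ P (U e)) X Z : ℝ) ≤ Pr (fun l => ¬ P l) * #X * #Z - D) ?_).trans (by linarith)
  intro U hU
  refine hU.imp id fun h => ?_
  have h3 : (eN (fun e => P (U e)) X Z : ℝ) + eN (fun e => ¬ P (U e)) X Z = #X * #Z := by
    exact_mod_cast eN_add_not (fun e => P (U e)) X Z
  rw [Pr_not]
  nlinarith

theorem sum_pow_card {r : ℝ} (hr : 0 ≤ r) (h1 : Fintype.card V * r ≤ 1) :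
    ∑ X ∈ (univ : Finset (Finset V)).erase ∅, r ^ #X ≤ 2 * (Fintype.card V * r) := by
  have h3 : ∑ Z : Finset V, r ^ #Z = (1 + r) ^ Fintype.card V := by
    have := Finset.prod_one_add (f := fun _ : V => r) (univ : Finset V)
    simp only [prod_const, card_univ, powerset_univ] at this
    exact this.symm
  have h4 : (1 + r) ^ Fintype.card V ≤ Real.exp (Fintype.card V * r) := by
    rw [Real.exp_nat_mul]
    exact pow_le_pow_left₀ (by positivity) (by linarith [Real.add_one_le_exp r]) _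
  have h5 := add_sum_erase (univ : Finset (Finset V)) (fun Z => r ^ #Z) (mem_univ ∅)
  have h0 : (0 : ℝ) ≤ Fintype.card V * r := by positivity
  have h6 := Real.abs_exp_sub_one_le (x := Fintype.card V * r) (by rwa [abs_of_nonneg h0])
  rw [abs_of_nonneg h0] at h6
  have h7 := le_abs_self (Real.exp (Fintype.card V * r) - 1)
  simp only [card_empty, pow_zero] at h5
  linarith

/-- The density property fails with small probability. -/
theorem Pr_Den (P : A → Prop) {q β : ℕ} {t : ℝ} (ht : 0 < t) (hq : 2 ≤ q * Pr P)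
    (hβ : 16 * t ≤ Pr P * β) (h1 : Fintype.card V * Real.exp (-t) ≤ 1) :
    Pr (fun U : V × V → A => ¬ Den (fun e => P (U e)) q β) ≤
      4 * (Fintype.card V * Real.exp (-t)) := by
  have hp0 := Pr_nonneg P
  have hβ0 : 0 < β := by
    rcases Nat.eq_zero_or_pos β with h | h
    · rw [h] at hβ; simp at hβ; linarith
    · exact h
  have hp : 0 < Pr P := by
    rcases hp0.eq_or_lt with h | h
    · rw [← h] at hβ; linarith
    · exact h
  set r := Real.exp (-t) with hr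
  have hr0 : 0 < r := Real.exp_pos _
  set J := (univ : Finset (Finset V)).erase ∅ with hJ
  refine (Pr_mono (E' := fun U : V × V → A => ∃ c ∈ J ×ˢ J, β ≤ #c.1 ∧ β ≤ #c.2 ∧
    (eN (fun e => P (U e)) c.1 c.2 : ℝ) ≤ Pr P * #c.1 * #c.2 - Pr P * #c.1 * #c.2 / 2) ?_).trans
    ((Pr_exists_le _ _).trans ?_)
  · intro U hU
    unfold Den at hU
    push Not at hU
    obtain ⟨X, Z, hX, hZ, h⟩ := hU
    refine ⟨(X, Z), ?_, hX, hZ, ?_⟩
    · simp only [hJ, mem_product, mem_erase, mem_univ, and_true, ← nonempty_iff_ne_empty]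
      exact ⟨card_pos.1 (by omega), card_pos.1 (by omega)⟩
    · have h' : (q : ℝ) * eN (fun e => P (U e)) X Z ≤ #X * #Z := by exact_mod_cast h.le
      have h0 : (0 : ℝ) ≤ eN (fun e => P (U e)) X Z := by positivity
      have h2 := mul_le_mul_of_nonneg_left h' hp0
      have h3 := mul_le_mul_of_nonneg_right hq h0
      simp only
      nlinarith
  · refine (sum_le_sum (g := fun c : Finset V × Finset V => r ^ #c.1 * r ^ #c.2) ?_).trans ?_
    · rintro ⟨X, Z⟩ -
      simp only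
      by_cases hXZ : β ≤ #X ∧ β ≤ #Z
      · have hX : (β : ℝ) ≤ #X := by exact_mod_cast hXZ.1
        have hZ : (β : ℝ) ≤ #Z := by exact_mod_cast hXZ.2
        have hb : (0 : ℝ) < β := by exact_mod_cast hβ0
        have hX0 : (0 : ℝ) < #X := by linarith
        have hZ0 : (0 : ℝ) < #Z := by linarith
        have hμ : 0 < Pr P * #X * #Z := by positivity
        refine (Pr_mono fun U hU => hU.2.2).trans ?_
        simp only [eN_eq_cnt]
        refine (Pr_lower_gauss (X ×ˢ Z) (fun _ => P) (by positivity) hμ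
          (sum_mean P X Z).ge).trans ?_
        rw [hr, ← Real.exp_nat_mul, ← Real.exp_nat_mul, ← Real.exp_add]
        apply Real.exp_le_exp.mpr
        have e1 : (Pr P * #X * #Z / 2) ^ 2 / (2 * (Pr P * #X * #Z)) = Pr P * #X * #Z / 8 := by
          field_simp; ring
        rw [e1]
        have a1 : 16 * t ≤ Pr P * #X := hβ.trans (mul_le_mul_of_nonneg_left hX hp0)
        have a2 : 16 * t ≤ Pr P * #Z := hβ.trans (mul_le_mul_of_nonneg_left hZ hp0)
        have a3 := mul_le_mul_of_nonneg_right a1 hZ0.le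
        have a4 := mul_le_mul_of_nonneg_right a2 hX0.le
        nlinarith
      · rw [Pr_false fun U hU => hXZ ⟨hU.1, hU.2.1⟩]
        positivity
    · rw [sum_product' J J fun X Z => r ^ #X * r ^ #Z, ← sum_mul_sum]
      have h2 := sum_pow_card (V := V) hr0.le h1
      have h3 : 0 ≤ ∑ X ∈ J, r ^ #X := sum_nonneg fun _ _ => by positivity
      have h4 : (0 : ℝ) ≤ Fintype.card V * r := by positivity
      nlinarith

/-- The sets whose degrees are controlled. -/
def fam (cT cH : V → Fin 16) : Option (Fin 16 ⊕ Fin 16) → Finset V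
  | none => univ
  | some (.inl a) => fib cT a
  | some (.inr a) => fib cH a

theorem diag_row (x : V) : rdeg (fun e : V × V => e.1 = e.2) x ≤ 1 := by
  classical
  unfold rdeg
  refine card_le_one.2 fun a ha b hb => ?_
  simp only [mem_filter, mem_univ, true_and] at ha hb
  exact ha.symm.trans hb

theorem diag_col (x : V) : rdeg (tr fun e : V × V => e.1 = e.2) x ≤ 1 := by
  classical
  unfold rdeg
  refine card_le_one.2 fun a ha b hb => ?_
  simp only [mem_filter, mem_univ, true_and] at ha hb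
  exact Eq.trans (b := x) ha (Eq.symm hb)

theorem off_diag (G : V × V → Prop) (e : V × V) (h : G e) : (G e ∧ e.1 ≠ e.2) ∨ e.1 = e.2 := by
  tauto

/-- Degrees after removing the diagonal. -/
theorem dev_row {P : A → Prop} {x : V} {Q : Finset V} {D : ℝ} {U : V × V → A}
    (h : ¬ Dev P {x} Q D U) :
    Pr P * #Q - D - 1 ≤ eN (fun e => P (U e) ∧ e.1 ≠ e.2) {x} Q ∧
      (eN (fun e => P (U e) ∧ e.1 ≠ e.2) {x} Q : ℝ) ≤ Pr P * #Q + D := by
  unfold Dev at h
  push Not at h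
  have h1 := (eN_or_le (off_diag fun e => P (U e)) {x} Q).trans
    (Nat.add_le_add_left (eN_le_rows diag_row {x} Q) _)
  have h2 := eN_mono (G := fun e => P (U e) ∧ e.1 ≠ e.2) (G' := fun e => P (U e))
    (fun e he => he.1) {x} Q
  simp only [card_singleton, Nat.cast_one, mul_one] at h h1
  have h1' : (eN (fun e => P (U e)) {x} Q : ℝ) ≤
    eN (fun e => P (U e) ∧ e.1 ≠ e.2) {x} Q + 1 := by exact_mod_cast h1
  have h2' : (eN (fun e => P (U e) ∧ e.1 ≠ e.2) {x} Q : ℝ) ≤ eN (fun e => P (U e)) {x} Q := by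
    exact_mod_cast h2
  constructor <;> linarith [h.1, h.2]

theorem dev_col {P : A → Prop} {x : V} {Q : Finset V} {D : ℝ} {U : V × V → A}
    (h : ¬ Dev P Q {x} D U) :
    Pr P * #Q - D - 1 ≤ eN (fun e => P (U e) ∧ e.1 ≠ e.2) Q {x} ∧
      (eN (fun e => P (U e) ∧ e.1 ≠ e.2) Q {x} : ℝ) ≤ Pr P * #Q + D := by
  unfold Dev at h
  push Not at h
  have h1 := (eN_or_le (off_diag fun e => P (U e)) Q {x}).trans
    (Nat.add_le_add_left (eN_le_cols diag_col Q {x}) _)
  have h2 := eN_mono (G := fun e => P (U e) ∧ e.1 ≠ e.2) (G' := fun e => P (U e))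
    (fun e he => he.1) Q {x}
  simp only [card_singleton, Nat.cast_one, mul_one] at h h1
  have h1' : (eN (fun e => P (U e)) Q {x} : ℝ) ≤
    eN (fun e => P (U e) ∧ e.1 ≠ e.2) Q {x} + 1 := by exact_mod_cast h1
  have h2' : (eN (fun e => P (U e) ∧ e.1 ≠ e.2) Q {x} : ℝ) ≤ eN (fun e => P (U e)) Q {x} := by
    exact_mod_cast h2
  constructor <;> linarith [h.1, h.2]

theorem den_off {G : V × V → Prop} {q q' β : ℕ} (h : Den G q β) (h1 : 2 * q ≤ β)
    (h2 : 2 * q = q') : Den (fun e => G e ∧ e.1 ≠ e.2) q' β :=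
  h2 ▸ h.remove (off_diag G) diag_row (by omega)

end

theorem exp_big {y : ℝ} (hy : 10 ^ 20 ≤ y) : 2000 * y ^ 251 ≤ Real.exp y := by
  have h0 : 0 < y := lt_of_lt_of_le (by positivity) hy
  have h1 := Real.pow_div_factorial_le_exp y h0.le 300
  have h2 : ((Nat.factorial 300 : ℕ) : ℝ) ≤ 300 ^ 300 := by exact_mod_cast Nat.factorial_le_pow 300
  have h3 : (2000 : ℝ) * 300 ^ 300 ≤ y ^ 49 := by
    refine le_trans ?_ (pow_le_pow_left₀ (by positivity) hy 49)
    have : (300 : ℝ) ^ 300 ≤ (10 ^ 3) ^ 300 := pow_le_pow_left₀ (by norm_num) (by norm_num) 300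
    rw [← pow_mul] at this
    rw [← pow_mul]
    calc (2000 : ℝ) * 300 ^ 300 ≤ 10 ^ 80 * 10 ^ (3 * 300) :=
          mul_le_mul (by norm_num) this (by positivity) (by positivity)
      _ = 10 ^ (20 * 49) := by rw [← pow_add]
  refine le_trans ?_ h1
  rw [le_div_iff₀ (by exact_mod_cast Nat.factorial_pos 300)]
  have h4 : y ^ 300 = y ^ 49 * y ^ 251 := by rw [← pow_add]
  have h5 : 0 < y ^ 251 := by positivity
  rw [h4]
  calc 2000 * y ^ 251 * (Nat.factorial 300 : ℕ) ≤ 2000 * y ^ 251 * 300 ^ 300 :=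
        mul_le_mul_of_nonneg_left h2 (by positivity)
    _ = 2000 * 300 ^ 300 * y ^ 251 := by ring
    _ ≤ y ^ 49 * y ^ 251 := mul_le_mul_of_nonneg_right h3 h5.le

theorem pw {y : ℝ} (hy : 10 ^ 20 ≤ y) {a b : ℕ} (h : a < b) : 1000 * y ^ a ≤ y ^ b := by
  have h1 : (1 : ℝ) ≤ y := le_trans (by norm_num) hy
  have h2 : y ^ (a + 1) ≤ y ^ b := pow_le_pow_right₀ h1 h
  have h3 : 0 ≤ y ^ a := by positivity
  have h4 : (1000 : ℝ) ≤ y := le_trans (by norm_num) hy
  rw [pow_succ] at h2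
  nlinarith

section
variable {V A : Type} [Fintype V] [DecidableEq V] [Fintype A] [Nonempty A]

/-- The density property after removing the diagonal. -/
theorem Pr_Den' (P : A → Prop) {Y q β : ℕ} (c k : ℕ) (hY : 10 ^ 20 ≤ Y) (hc : c ≤ 5)
    (h : 1 ≤ (c : ℝ) * Y ^ k * Pr P) (h1 : Fintype.card V * Real.exp (-(Y : ℝ)) ≤ 1)
    (hq : 2 * (2 * c * Y ^ k) = q) (hβ : β = Y ^ (k + 2)) :
    Pr (fun U : V × V → A => ¬ Den (fun e => P (U e) ∧ e.1 ≠ e.2) q β) ≤
      4 * (Fintype.card V * Real.exp (-(Y : ℝ))) := by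
  have hy : (10 : ℝ) ^ 20 ≤ Y := by exact_mod_cast hY
  have h0 : (1000 : ℝ) ≤ Y := le_trans (by norm_num) hy
  have h0' : 1000 ≤ Y := by exact_mod_cast h0
  have hc' : (c : ℝ) ≤ 5 := by exact_mod_cast hc
  have hp := Pr_nonneg P
  have h2 : 2 * (2 * c * Y ^ k) ≤ β := by
    rw [hβ, pow_add]
    have : 4 * c ≤ Y ^ 2 := by nlinarith
    nlinarith [Nat.zero_le (Y ^ k)]
  refine (Pr_mono fun U hU hD => hU (den_off hD h2 hq)).trans
    (Pr_Den P (t := Y) (by linarith) ?_ ?_ h1)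
  · push_cast
    linarith
  · rw [hβ]
    push_cast
    have h3 : (0 : ℝ) ≤ (Y : ℝ) ^ k * Pr P := by positivity
    have h4 : 1 ≤ 5 * ((Y : ℝ) ^ k * Pr P) := by nlinarith
    have h5 := mul_le_mul_of_nonneg_right h4 (show (0 : ℝ) ≤ (Y : ℝ) ^ 2 by positivity)
    rw [pow_add]
    nlinarith

theorem band {p n y : ℝ} {a b : ℕ} (hy : 0 < y) (hp : 0 ≤ p) (hn : n ≤ 2 * y ^ (a + b))
    (h : p * n = y ^ a) : 1 ≤ ((2 : ℕ) : ℝ) * y ^ b * p := by
  have h1 := mul_le_mul_of_nonneg_left hn hp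
  have h2 : 0 < y ^ a := by positivity
  rw [h, pow_add] at h1
  push_cast
  refine le_of_mul_le_mul_left ?_ h2
  linarith

/-- No degree deviates. -/
theorem Pr_devs (cT cH : V → Fin 16) (P : Fin 7 → A → Prop) {y : ℝ} (hy : 10 ^ 20 ≤ y)
    (hn0 : 0 < Fintype.card V) (hn : (Fintype.card V : ℝ) ≤ 2 * y ^ 250) :
    Pr (fun U : V × V → A => ∃ c : Fin 7 × V × Option (Fin 16 ⊕ Fin 16),
      Dev (P c.1) {c.2.1} (fam cT cH c.2.2) (y ^ 128 / 2) U ∨
        Dev (P c.1) (fam cT cH c.2.2) {c.2.1} (y ^ 128 / 2) U) ≤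
      924 * (Fintype.card V * Real.exp (-y)) := by
  have h0 : 0 < y := lt_of_lt_of_le (by positivity) hy
  have hn0' : (0 : ℝ) < Fintype.card V := by exact_mod_cast hn0
  have hD : 0 < y ^ 128 / 2 := by positivity
  have h1 : Real.exp (-((y ^ 128 / 2) ^ 2 / (2 * Fintype.card V))) ≤ Real.exp (-y) := by
    apply Real.exp_le_exp.mpr
    apply neg_le_neg
    rw [le_div_iff₀ (by positivity)]
    have h2 := pw hy (show 251 < 256 by norm_num)
    have h3 := mul_le_mul_of_nonneg_left hn h0.le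
    have h4 : 0 < y ^ 251 := by positivity
    have e1 : (y ^ 128 / 2) ^ 2 = y ^ 256 / 4 := by ring
    have e2 : y * (2 * y ^ 250) = 2 * y ^ 251 := by ring
    rw [e1]
    linarith
  refine (Pr_exists_univ _ (δ := 4 * Real.exp (-y)) fun c => ?_).trans (le_of_eq ?_)
  · have h5 : (#(fam cT cH c.2.2) : ℝ) ≤ Fintype.card V := by exact_mod_cast card_le_univ _
    have h6 := Pr_Dev (P c.1) {c.2.1} (fam cT cH c.2.2) hD (N := Fintype.card V) (by simpa using h5)
    have h7 := Pr_Dev (P c.1) (fam cT cH c.2.2) {c.2.1} hD (N := Fintype.card V) (by simpa using h5)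
    refine (Pr_or_le _ _).trans ?_
    linarith
  · simp only [Fintype.card_prod, Fintype.card_fin, Fintype.card_option, Fintype.card_sum]
    push_cast
    ring

end

end St3L

open St3L in
theorem st3 : S_ST3 := by
  intro V A _ _ _ _ Y cT cH P hY hn1 hn2 hC hdis hp0 hp1 hp2 hp3
  have hy : (10 : ℝ) ^ 20 ≤ Y := by exact_mod_cast hY
  have h0 : (0 : ℝ) < Y := lt_of_lt_of_le (by positivity) hy
  have hY0 : 0 < Y := by exact_mod_cast h0
  have hn0 : 0 < Fintype.card V := lt_of_lt_of_le (by positivity) hn1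
  have hn1' : (Y : ℝ) ^ 250 ≤ Fintype.card V := by exact_mod_cast hn1
  have hn2' : (Fintype.card V : ℝ) ≤ 2 * (Y : ℝ) ^ 250 := by exact_mod_cast hn2
  have hε : 1000 * (Fintype.card V * Real.exp (-(Y : ℝ))) ≤ 1 / Y := by
    have h1 := exp_big hy
    have h2 : Real.exp (-(Y : ℝ)) * Real.exp Y = 1 := by rw [← Real.exp_add]; simp
    have h3 := Real.exp_pos (-(Y : ℝ))
    have h4 := mul_le_mul_of_nonneg_left h1 h3.le
    have h5 := mul_le_mul_of_nonneg_left hn2' (show 0 ≤ Real.exp (-(Y : ℝ)) * Y by positivity)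
    have e : Real.exp (-(Y : ℝ)) * (2000 * (Y : ℝ) ^ 251) =
      1000 * (Real.exp (-(Y : ℝ)) * Y * (2 * (Y : ℝ) ^ 250)) := by ring
    rw [le_div_iff₀ h0]
    linarith
  have hε0 : 0 ≤ Fintype.card V * Real.exp (-(Y : ℝ)) := by positivity
  have hε1 : Fintype.card V * Real.exp (-(Y : ℝ)) ≤ 1 := by
    have : 1 / (Y : ℝ) ≤ 1 := by
      rw [div_le_one h0]
      exact_mod_cast hY0
    linarith
  obtain ⟨m, hm⟩ : ∃ m, m = Fintype.card V / 16 := ⟨_, rfl⟩
  rw [← hm] at hC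
  have hm1 : 16 * (m : ℝ) ≤ Fintype.card V := by
    exact_mod_cast (show 16 * m ≤ Fintype.card V by omega)
  have hm2 : (Fintype.card V : ℝ) ≤ 16 * m + 16 := by
    exact_mod_cast (show Fintype.card V ≤ 16 * m + 16 by omega)
  have q0 := Pr_nonneg (P 2)
  have q1 := Pr_le_one (P 2)
  have ha1 : 16 * (Pr (P 2) * m) ≤ (Y : ℝ) ^ 235 := by
    have := mul_le_mul_of_nonneg_left hm1 q0
    linarith
  have ha2 : (Y : ℝ) ^ 235 ≤ 16 * (Pr (P 2) * m) + 16 := by
    have := mul_le_mul_of_nonneg_left hm2 q0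
    linarith
  have w1 := pw hy (show 0 < 128 by norm_num)
  have w2 := pw hy (show 128 < 235 by norm_num)
  have w3 := pw hy (show 128 < 201 by norm_num)
  have w4 := pw hy (show 128 < 248 by norm_num)
  have w5 := pw hy (show 249 < 250 by norm_num)
  have w6 := pw hy (show 0 < 249 by norm_num)
  rw [pow_zero] at w1 w6
  obtain ⟨r1, hr1, hr2⟩ : ∃ r1 : ℕ, (r1 : ℝ) ≤ Pr (P 2) * m - 2 * (Y : ℝ) ^ 128 ∧
      Pr (P 2) * m - 2 * (Y : ℝ) ^ 128 < r1 + 1 :=
    ⟨_, Nat.floor_le (by linarith), Nat.lt_floor_add_one _⟩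
  have d0 := Pr_Den' (V := V) (P 0) (q := 20 * Y) (β := Y ^ 3) 5 1 hY le_rfl
    (by simpa using hp0) hε1 (by ring) rfl
  have d1 := Pr_Den' (V := V) (P 1) (q := 20 * Y) (β := Y ^ 3) 5 1 hY le_rfl
    (by simpa using hp1) hε1 (by ring) rfl
  have d2 := Pr_Den' (V := V) (P 2) (q := 8 * Y ^ 15) (β := Y ^ 17) 2 15 hY (by norm_num)
    (band (a := 235) h0 q0 hn2' hp2) hε1 (by ring) rfl
  have d3 := Pr_Den' (V := V) (P 3) (q := 8 * Y ^ 49) (β := Y ^ 51) 2 49 hY (by norm_num)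
    (band (a := 201) h0 (Pr_nonneg _) hn2' (hp3 3 le_rfl)) hε1 (by ring) rfl
  have d4 := Pr_Den' (V := V) (P 4) (q := 8 * Y ^ 49) (β := Y ^ 51) 2 49 hY (by norm_num)
    (band (a := 201) h0 (Pr_nonneg _) hn2' (hp3 4 (by decide))) hε1 (by ring) rfl
  have d5 := Pr_devs cT cH P hy hn0 hn2'
  refine ⟨r1, le_trans (Pr_mono ?_) (le_trans ((Pr_or_le _ _).trans (add_le_add d5
    ((Pr_or_le _ _).trans (add_le_add d0 ((Pr_or_le _ _).trans (add_le_add d1
    ((Pr_or_le _ _).trans (add_le_add d2 ((Pr_or_le _ _).trans (add_le_add d3 d4))))))))))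
    (by linarith))⟩
  intro U hU
  by_contra hB
  simp only [not_or, not_exists, not_not] at hB
  obtain ⟨hdev, e0, e1, e2, e3, e4⟩ := hB
  have sz : ∀ a, (m : ℝ) ≤ #(fib cT a) ∧ (#(fib cT a) : ℝ) ≤ m + 1 := fun a => by
    exact_mod_cast hC.size a
  have sz' : ∀ a, (m : ℝ) ≤ #(fib cH a) ∧ (#(fib cH a) : ℝ) ≤ m + 1 := fun a => by
    rw [← hC.eq a]
    exact sz a
  have mid : ∀ {s e : ℕ}, (m : ℝ) ≤ s ∧ (s : ℝ) ≤ m + 1 →
      Pr (P 2) * s - (Y : ℝ) ^ 128 / 2 - 1 ≤ e ∧ (e : ℝ) ≤ Pr (P 2) * s + (Y : ℝ) ^ 128 / 2 →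
      r1 + Y ^ 128 ≤ e ∧ e ≤ r1 + 4 * Y ^ 128 := by
    rintro s e ⟨a1, a2⟩ ⟨a3, a4⟩
    have a5 := mul_le_mul_of_nonneg_left a1 q0
    have a6 := mul_le_mul_of_nonneg_left a2 q0
    have a7 : (r1 : ℝ) + (Y : ℝ) ^ 128 ≤ e := by linarith
    have a8 : (e : ℝ) ≤ r1 + 4 * (Y : ℝ) ^ 128 := by linarith
    exact ⟨by exact_mod_cast a7, by exact_mod_cast a8⟩
  have big : ∀ {s e : ℕ}, (m : ℝ) ≤ s → Pr (P 0) * s - (Y : ℝ) ^ 128 / 2 - 1 ≤ e →
      Y ^ 248 ≤ e := by
    intro s e a1 a2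
    have a3 := mul_le_mul_of_nonneg_right hp0 (show (0 : ℝ) ≤ s by positivity)
    have a4 : 5 * (Y : ℝ) * (2 * (Y : ℝ) ^ 248) ≤ 5 * Y * (Pr (P 0) * s) := by
      have : 5 * (Y : ℝ) * (2 * (Y : ℝ) ^ 248) = 10 * (Y : ℝ) ^ 249 := by ring
      linarith
    have a5 := le_of_mul_le_mul_left a4 (by positivity)
    have a6 : (Y : ℝ) ^ 248 ≤ e := by linarith
    exact_mod_cast a6
  have small : ∀ {e : ℕ}, (Y : ℝ) ^ 201 - (Y : ℝ) ^ 128 / 2 - 1 ≤ e ∧
      (e : ℝ) ≤ (Y : ℝ) ^ 201 + (Y : ℝ) ^ 128 / 2 → Y ^ 201 ≤ 2 * e ∧ e ≤ 2 * Y ^ 201 := by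
    rintro e ⟨a1, a2⟩
    have a3 : (Y : ℝ) ^ 201 ≤ 2 * e := by linarith
    have a4 : (e : ℝ) ≤ 2 * (Y : ℝ) ^ 201 := by linarith
    exact ⟨by exact_mod_cast a3, by exact_mod_cast a4⟩
  refine hU ⟨fun i x h => h.2 rfl, fun i j e h h' => hdis i j _ h.1 h'.1, e0, e1, e2, e3, e4,
    fun a x => ⟨?_, ?_⟩, ?_, ?_, fun x => ?_, fun x => ?_, fun i hi x => ?_⟩
  · exact big (sz a).1 (dev_row (hdev (0, x, some (.inl a))).1).1
  · exact big (sz a).1 (dev_col (hdev (0, x, some (.inl a))).2).1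
  · have : (Y : ℝ) ^ 235 ≤ 40 * r1 := by linarith
    exact_mod_cast this
  · have : (r1 : ℝ) ≤ (Y : ℝ) ^ 235 := by linarith
    exact_mod_cast this
  · exact mid (sz' _) (dev_row (hdev (2, x, some (.inr (cT x)))).1)
  · exact mid (sz _) (dev_col (hdev (2, x, some (.inl (cH x)))).2)
  · have a1 := dev_row (hdev (i, x, none)).1
    have a2 := dev_col (hdev (i, x, none)).2
    simp only [fam, card_univ, hp3 i hi, eN_row1, eN_col1] at a1 a2
    exact ⟨(small a1).1, (small a1).2, small a2⟩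

end Pool.Agent.P.MP_de899d_pr
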