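import Mathlib

/-! The random digraph process and packings of Hamilton cycles. -/

namespace Pool.Agent.P.MP_de899d_pr
open Finset

/-- The directed edges of the complete digraph on `Fin n`. -/
abbrev Arc (n : ℕ) : Type := {e : Fin n × Fin n // e.1 ≠ e.2}

/-- An ordering of all `n (n - 1)` directed edges. -/
abbrev EdgeOrder (n : ℕ) : Type := Arc n ≃ Fin (n * (n - 1))

/-- The edge set of `D_m`: the first `m` edges of the ordering `o`. -/
def process {n : ℕ} (o : EdgeOrder n) (m : ℕ) : Finset (Fin n × Fin n) :=
  (univ.filter fun e : Arc n => (o e : ℕ) < m).image Subtype.val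

/-- The minimum of the minimum out-degree and the minimum in-degree. -/
noncomputable def minDeg {n : ℕ} (G : Finset (Fin n × Fin n)) : ℕ :=
  min (⨅ v : Fin n, (G.filter fun e => e.1 = v).card) (⨅ v : Fin n, (G.filter fun e => e.2 = v).card)

/-- A Hamilton cycle of `G`, given by its successor map: a cyclic permutation that moves every
vertex and all of whose edges `(v, c v)` lie in `G`. -/
def IsHamCycle {n : ℕ} (G : Finset (Fin n × Fin n)) (c : Equiv.Perm (Fin n)) : Prop :=
  c.IsCycle ∧ c.support = univ ∧ ∀ v, (v, c v) ∈ G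

/-- `G` contains `k` pairwise edge-disjoint Hamilton cycles. -/
def Packs {n : ℕ} (G : Finset (Fin n × Fin n)) (k : ℕ) : Prop :=
  ∃ H : Fin k → Equiv.Perm (Fin n), (∀ j, IsHamCycle G (H j)) ∧
    ∀ i j, i ≠ j → ∀ v, H i v ≠ H j v

end Pool.Agent.P.MP_de899d_pr
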