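import Pool.Agent.P.MP_de899d_pr.Base2

/-! Greedy embedding of a tournament, and toggling of gadgets. -/

set_option linter.unusedSectionVars false

namespace Pool.Agent.P.MP_de899d_pr
open Finset Equiv

namespace Tog

variable {V : Type} [Fintype V] [DecidableEq V]

open Classical in
theorem bad_lt {S : V × V → Prop} {q β : ℕ} (h : Den S q β) (hβ : 0 < β) {Y : Finset V}
    (hY : β ≤ #Y) : #(univ.filter fun x => q * #(Y.filter fun y => S (x, y)) < #Y) < β := by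
  by_contra hc
  rw [not_lt] at hc
  have h1 := h _ Y hc hY
  rw [eN_row, mul_sum, ← smul_eq_mul, ← sum_const] at h1
  exact absurd (sum_lt_sum_of_nonempty (card_pos.1 (hβ.trans_le hc)) fun x hx =>
    (mem_filter.1 hx).2) (not_lt.2 h1)

theorem den_tr {R : V × V → Prop} {q β : ℕ} (h : Den R q β) : Den (tr R) q β := fun X Y hX hY => by
  rw [eN_tr, mul_comm]; exact h Y X hY hX

theorem greedy {R : V × V → Prop} {q β : ℕ} (hD : Den R q β) (hq : 0 < q) (hβ : 0 < β) (h : ℕ) :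
    ∀ (o : Fin h → Fin h → Prop) (C : Fin h → Finset V), (∀ i, h * β * q ^ h ≤ #(C i)) →
      ∃ v : Fin h → V, (∀ i, v i ∈ C i) ∧
        ∀ i j, i < j → (o i j → R (v i, v j)) ∧ (¬ o i j → R (v j, v i)) := by
  classical
  induction h with
  | zero => exact fun o C _ => ⟨Fin.elim0, fun i => i.elim0, fun i => i.elim0⟩
  | succ h ih =>
    intro o C hC
    let S : Fin h → V × V → Prop := fun j => if o 0 j.succ then R else tr R
    have hS : ∀ j, Den (S j) q β := fun j => by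
      simp only [S]
      split_ifs
      exacts [hD, den_tr hD]
    have h0 : (h + 1) * β ≤ (h + 1) * β * q ^ (h + 1) := Nat.le_mul_of_pos_right _ (by positivity)
    have h1 : #(univ.biUnion fun j : Fin h => univ.filter fun x =>
        q * #((C j.succ).filter fun y => S j (x, y)) < #(C j.succ)) < #(C 0) := by
      refine lt_of_le_of_lt (card_biUnion_le_card_mul _ _ β fun j _ =>
        (bad_lt (hS j) hβ ?_).le) ?_
      · have := hC j.succ
        nlinarith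
      · have := hC 0
        rw [card_univ, Fintype.card_fin]
        nlinarith
    obtain ⟨x, hx, hx'⟩ := exists_mem_notMem_of_card_lt_card h1
    simp only [mem_biUnion, mem_univ, mem_filter, true_and, not_exists, not_lt] at hx'
    obtain ⟨v, hv, hv'⟩ := ih (fun i j => o i.succ j.succ)
      (fun j => (C j.succ).filter fun y => S j (x, y)) fun j => by
        refine Nat.le_of_mul_le_mul_left (((?_ : _ ≤ _).trans (hC j.succ)).trans (hx' j)) hq
        rw [pow_succ]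
        nlinarith [Nat.zero_le (β * q ^ h * q)]
    refine ⟨Fin.cons x v, fun i => ?_, fun i j hij => ?_⟩
    · refine Fin.cases hx (fun i => ?_) i
      exact (mem_filter.1 (hv i)).1
    · obtain ⟨j, rfl⟩ := Fin.exists_succ_eq.2 (Fin.pos_iff_ne_zero.1 ((Fin.zero_le i).trans_lt hij))
      revert hij
      refine Fin.cases (fun _ => ?_) (fun i hij => ?_) i
      · have := (mem_filter.1 (hv j)).2
        simp only [S] at this
        refine ⟨fun h => ?_, fun h => ?_⟩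
        · rw [if_pos h] at this; exact this
        · rw [if_neg h] at this; exact this
      · exact hv' i j (Fin.succ_lt_succ_iff.1 hij)

theorem cl_iff {π : Perm V} {O : Finset V} (h : Cl π O) {z w : V} (e : π z = w) : z ∈ O ↔ w ∈ O :=
  ⟨fun hz => e ▸ h z hz, fun hw => Surg.cl_inv h (e ▸ hw)⟩

theorem cl_of {π τ : Perm V} {O : Finset V} (h : Cl (π * τ) O) (h' : Cl τ O) : Cl π O := by
  intro z hz
  have := h (τ⁻¹ z) ((cl_iff h' (by simp)).2 hz)
  simpa using this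

theorem cl_swap {O : Finset V} {x y : V} (h : x ∈ O ↔ y ∈ O) : Cl (swap x y) O := by
  intro z hz
  rw [swap_apply_def]
  split_ifs with h1 h2
  exacts [h.1 (h1 ▸ hz), h.2 (h2 ▸ hz), hz]

theorem cl_mul {π τ : Perm V} {O : Finset V} (h : Cl π O) (h' : Cl τ O) : Cl (π * τ) O :=
  fun z hz => h _ (h' z hz)

theorem join {G : Perm V} {O : Finset V} {x y : V} (hn : ¬ G.SameCycle y x)
    (h : Cl (G * swap x y) O) (hx : x ∈ O) : y ∈ O := by
  have := Surg.cross h hx fun z h1 h2 => by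
    rw [swap_apply_left] at h1 ⊢
    rcases eq_or_eq_of_swap_apply_ne_self h2 with rfl | rfl
    exacts [absurd h1 hn, rfl]
  rwa [swap_apply_left] at this

/-- three distinct admissible values -/
def Good (Γ : V → Prop) (u v w : V) : Prop := (u ≠ v ∧ u ≠ w ∧ v ≠ w) ∧ Γ u ∧ Γ v ∧ Γ w

theorem step {F D E : Perm V} {γ : Fin 8 → V} (hγ : Function.Injective γ)
    (hF : F (γ 0) = γ 4 ∧ F (γ 1) = γ 3)
    (hD : D (γ 0) = γ 2 ∧ D (γ 2) = γ 6 ∧ D (γ 6) = γ 1 ∧ D (γ 1) = γ 4 ∧ D (γ 4) = γ 3 ∧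
      D (γ 3) = γ 5)
    (hE : E (γ 0) = γ 3 ∧ E (γ 3) = γ 6 ∧ E (γ 6) = γ 7 ∧ E (γ 7) = γ 1 ∧ E (γ 1) = γ 2 ∧
      E (γ 2) = γ 5) (h1 : Ham D) (h2 : Ham E) :
    ∃ F' D' E' : Perm V, Ham D' ∧ Ham E' ∧
      (∀ z Γ, Good Γ (F z) (D z) (E z) → Good Γ (F' z) (D' z) (E' z)) ∧
      (∀ O, Cl F' O → Cl F O ∧ (γ 0 ∈ O ↔ γ 1 ∈ O)) ∧
      ∀ z, (∀ i, z ≠ γ i) → F' z = F z ∧ D' z = D z ∧ E' z = E z := by
  by_cases hs : F.SameCycle (γ 0) (γ 1)
  · exact ⟨F, D, E, h1, h2, fun _ _ h => h, fun O hO => ⟨hO, fun h => Surg.cl_cycle hO h hs,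
      fun h => Surg.cl_cycle hO h hs.symm⟩, fun _ _ => ⟨rfl, rfl, rfl⟩⟩
  obtain ⟨f1, f2⟩ := hF
  obtain ⟨d1, d2, d3, d4, d5, d6⟩ := hD
  obtain ⟨e1, e2, e3, e4, e5, e6⟩ := hE
  let τ : Perm V := swap (γ 0) (γ 1) * swap (γ 2) (γ 3)
  have s1 : ∀ i, swap (γ 0) (γ 1) (γ i) = γ (swap 0 1 i) := fun i => hγ.swap_apply _ _ _
  have s2 : ∀ i, τ (γ i) = γ (swap 0 1 (swap 2 3 i)) := fun i => by
    simp only [τ, Perm.mul_apply, hγ.swap_apply]
  have t0 : τ (γ 0) = γ 1 := s2 0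
  have t1 : τ (γ 1) = γ 0 := s2 1
  have t2 : τ (γ 2) = γ 3 := s2 2
  have t3 : τ (γ 3) = γ 2 := s2 3
  have t4 : τ (γ 4) = γ 4 := s2 4
  have t6 : τ (γ 6) = γ 6 := s2 6
  have t7 : τ (γ 7) = γ 7 := s2 7
  have u2 : swap (γ 0) (γ 1) (γ 2) = γ 2 := s1 2
  have u3 : swap (γ 0) (γ 1) (γ 3) = γ 3 := s1 3
  have fx : ∀ z, z ≠ γ 0 → z ≠ γ 1 → z ≠ γ 2 → z ≠ γ 3 → swap (γ 0) (γ 1) z = z ∧ τ z = z :=
    fun z a b c d => ⟨swap_apply_of_ne_of_ne a b, by
      simp only [τ, Perm.mul_apply, swap_apply_of_ne_of_ne a b, swap_apply_of_ne_of_ne c d]⟩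
  refine ⟨F * swap (γ 0) (γ 1), D * τ, E * τ, fun O hO hc => h1 O hO (cl_of hc ?_),
    fun O hO hc => h2 O hO (cl_of hc ?_), fun z Γ hz => ?_, fun O hO => ?_, fun z hz => ?_⟩
  · have a1 := cl_iff hc ((congrArg D t0).trans d4)
    have a2 := cl_iff hc ((congrArg D t4).trans d5)
    have a3 := cl_iff hc ((congrArg D t3).trans d2)
    have a4 := cl_iff hc ((congrArg D t6).trans d3)
    have a5 := cl_iff hc ((congrArg D t1).trans d1)
    exact cl_mul (cl_swap (((a1.trans a2).trans a3).trans a4))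
      (cl_swap ((a3.trans a4).trans a5).symm)
  · have a1 := cl_iff hc ((congrArg E t0).trans e5)
    have a2 := cl_iff hc ((congrArg E t2).trans e2)
    have a3 := cl_iff hc ((congrArg E t6).trans e3)
    have a4 := cl_iff hc ((congrArg E t7).trans e4)
    have a5 := cl_iff hc ((congrArg E t1).trans e1)
    exact cl_mul (cl_swap (((a1.trans a2).trans a3).trans a4))
      (cl_swap (((a2.trans a3).trans a4).trans a5))
  · simp only [Perm.mul_apply]
    obtain ⟨⟨n1, n2, n3⟩, g1, g2, g3⟩ := hz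
    by_cases c0 : z = γ 0
    · subst c0
      rw [swap_apply_left, t0, f2, d4, e5, ← e1, ← f1, ← d1]
      exact ⟨⟨n2.symm, n3.symm, n1⟩, g3, g1, g2⟩
    by_cases c1 : z = γ 1
    · subst c1
      rw [swap_apply_right, t1, f1, d1, e1, ← d4, ← e5, ← f2]
      exact ⟨⟨n3, n1.symm, n2.symm⟩, g2, g3, g1⟩
    by_cases c2 : z = γ 2
    · subst c2
      rw [u2, t2, d6, e2, ← e6, ← d2]
      exact ⟨⟨n2, n1, n3.symm⟩, g1, g3, g2⟩
    by_cases c3 : z = γ 3
    · subst c3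
      rw [u3, t3, d2, e6, ← e2, ← d6]
      exact ⟨⟨n2, n1, n3.symm⟩, g1, g3, g2⟩
    rw [(fx z c0 c1 c2 c3).1, (fx z c0 c1 c2 c3).2]
    exact ⟨⟨n1, n2, n3⟩, g1, g2, g3⟩
  · have a : γ 0 ∈ O ↔ γ 1 ∈ O :=
      ⟨join (fun h => hs h.symm) hO, join hs (swap_comm (γ 0) (γ 1) ▸ hO)⟩
    exact ⟨cl_of hO (cl_swap a), a⟩
  · simp only [Perm.mul_apply, (fx z (hz 0) (hz 1) (hz 2) (hz 3)).1,
      (fx z (hz 0) (hz 1) (hz 2) (hz 3)).2, and_self]

end Tog

open Tog

theorem emb : S_EMB := by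
  intro V _ _ R q β h o C hI hD hq hβ hC
  obtain ⟨v, h1, h2⟩ := greedy hD hq hβ h o (fun _ => C) fun _ => hC
  have h3 : ∀ i j, i < j → v i ≠ v j := fun i j hij e => by
    by_cases ho : o i j
    · exact hI (v j) (by simpa only [e] using (h2 i j hij).1 ho)
    · exact hI (v j) (by simpa only [e] using (h2 i j hij).2 ho)
  refine ⟨v, fun i j e => ?_, h1, h2⟩
  rcases lt_trichotomy i j with h | h | h
  exacts [absurd e (h3 i j h), h, absurd e.symm (h3 j i h)]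

theorem tog : S_TOG := by
  intro V ι _ _ _ _ γ F D E hγ hF hD hE h1 h2 h3 h4
  have key : ∀ J : Finset ι, ∃ F' D' E' : Perm V, Ham D' ∧ Ham E' ∧
      (∀ z Γ, Good Γ (F z) (D z) (E z) → Good Γ (F' z) (D' z) (E' z)) ∧
      (∀ O, Cl F' O → Cl F O ∧ ∀ t ∈ J, (γ (t, 0) ∈ O ↔ γ (t, 1) ∈ O)) ∧
      ∀ t, t ∉ J → ∀ i, F' (γ (t, i)) = F (γ (t, i)) ∧ D' (γ (t, i)) = D (γ (t, i)) ∧
        E' (γ (t, i)) = E (γ (t, i)) := by
    intro J
    induction J using Finset.induction_on with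
    | empty => exact ⟨F, D, E, h1, h2, fun _ _ h => h, fun O hO => ⟨hO, by simp⟩,
        fun _ _ _ => ⟨rfl, rfl, rfl⟩⟩
    | insert t J ht ih =>
      obtain ⟨F1, D1, E1, a1, a2, a3, a4, a5⟩ := ih
      obtain ⟨F2, D2, E2, b1, b2, b3, b4, b5⟩ := step (F := F1) (D := D1) (E := E1)
        (γ := fun i => γ (t, i)) (fun i j e => congrArg Prod.snd (hγ e))
        (by simp only [a5 t ht]; exact hF t) (by simp only [a5 t ht]; exact hD t)
        (by simp only [a5 t ht]; exact hE t) a1 a2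
      refine ⟨F2, D2, E2, b1, b2, fun z Γ h => b3 z Γ (a3 z Γ h), fun O hO => ?_, fun s hs i => ?_⟩
      · obtain ⟨c1, c2⟩ := b4 O hO
        exact ⟨(a4 O c1).1, forall_mem_insert _ _ _ |>.2 ⟨c2, (a4 O c1).2⟩⟩
      · rw [mem_insert, not_or] at hs
        obtain ⟨c1, c2, c3⟩ := b5 (γ (s, i)) fun j e => hs.1 (congrArg Prod.fst (hγ e))
        rw [c1, c2, c3]
        exact a5 s hs.2 i
  obtain ⟨F', D', E', a1, a2, a3, a4, -⟩ := key univ
  have g : ∀ z, Good (fun w => F z = w ∨ D z = w ∨ E z = w) (F' z) (D' z) (E' z) := fun z =>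
    a3 z _ ⟨h3 z, Or.inl rfl, Or.inr (Or.inl rfl), Or.inr (Or.inr rfl)⟩
  have a0 : Ham F' := fun O hO hc => h4 O hO (a4 O hc).1 fun t => (a4 O hc).2 t (mem_univ t)
  refine ⟨![F', D', E'], fun j => ?_, fun i j hij z => ?_, fun j z => ?_⟩
  · fin_cases j
    exacts [a0, a1, a2]
  · obtain ⟨⟨n1, n2, n3⟩, -⟩ := g z
    fin_cases i <;> fin_cases j
    exacts [absurd rfl hij, n1, n2, n1.symm, absurd rfl hij, n3, n2.symm, n3.symm, absurd rfl hij]
  · obtain ⟨-, g1, g2, g3⟩ := g z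
    fin_cases j
    exacts [g1, g2, g3]

end Pool.Agent.P.MP_de899d_pr
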