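import Pool.Agent.P.MP_de899d_pr.Defs

/-! From independent labels to a uniformly random order. -/

namespace Pool.Agent.P.MP_de899d_pr
open Finset

theorem Pr_fst {Ω Ω' : Type*} [Fintype Ω] [Fintype Ω'] [Nonempty Ω'] (E : Ω → Prop) :
    Pr (fun p : Ω × Ω' => E p.1) = Pr E := by
  classical
  unfold Pr
  rw [Ex_prod]
  congr 1
  ext ω
  exact Ex_const (Ω := Ω') (if E ω then 1 else 0)

theorem Pr_snd {Ω Ω' : Type*} [Fintype Ω] [Fintype Ω'] [Nonempty Ω] (E : Ω' → Prop) :
    Pr (fun p : Ω × Ω' => E p.2) = Pr E := by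
  rw [← Pr_fst (Ω' := Ω) E]
  exact Pr_equiv (Equiv.prodComm Ω Ω') fun p : Ω' × Ω => E p.1

theorem Pr_collide (N M : ℕ) [NeZero M] {i j : Fin N} (hij : i ≠ j) :
    Pr (fun W : Fin N → Fin M => W i = W j) ≤ 1 / M := by
  classical
  rw [Pr_splice (fun k => k = i)]
  refine Ex_le_const fun ω => ?_
  have h1 : ∀ ω' : Fin N → Fin M,
      (splice (fun k => k = i) ω ω' i = splice (fun k => k = i) ω ω' j) ↔
        ∀ k ∈ ({j} : Finset (Fin N)), ω' k = ω i := by
    intro ω'
    rw [splice_in (A := fun k => k = i) ω ω' rfl, splice_out (A := fun k => k = i) ω ω' hij.symm]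
    simp [eq_comm]
  rw [Pr_congr h1, Pr_forall {j} fun _ a => a = ω i, prod_singleton, Pr_eq_card]
  simp [filter_eq']

theorem Pr_not_inj (N M : ℕ) [NeZero M] :
    Pr (fun W : Fin N → Fin M => ¬ Function.Injective W) ≤ (N : ℝ) ^ 2 / M := by
  classical
  have h := Pr_exists_univ (ι := Fin N × Fin N)
    (fun p (W : Fin N → Fin M) => p.1 ≠ p.2 ∧ W p.1 = W p.2) (δ := 1 / M) (by
      rintro ⟨i, j⟩
      by_cases hij : i = j
      · rw [Pr_false (by simp [hij])]
        positivity
      · exact (Pr_mono fun W h => h.2).trans (Pr_collide N M hij))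
  refine (Pr_mono fun W hW => ?_).trans (h.trans (le_of_eq ?_))
  · obtain ⟨a, b, hab, hne⟩ := Function.not_injective_iff.mp hW
    exact ⟨(a, b), hne, hab⟩
  · simp only [Fintype.card_prod, Fintype.card_fin, Nat.cast_mul]
    ring

theorem trans : S_TRANS := by
  classical
  intro ι _ _ N M _ Bad Bad' hN h
  have : Nonempty (ι ≃ Fin N) := ⟨Fintype.equivFinOfCardEq hN⟩
  let Φ : (ι ≃ Fin N) × (Fin N → Fin M) ≃ (ι ≃ Fin N) × (ι → Fin M) :=
    { toFun := fun p => (p.1.trans (Tuple.sort p.2), fun e => p.2 (Tuple.sort p.2 (p.1 e)))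
      invFun := fun q => (q.1.trans (Tuple.sort fun k => q.2 (q.1.symm k)).symm,
        fun k => q.2 (q.1.symm k))
      left_inv := by
        rintro ⟨o, W⟩
        have hW : (fun k => W (Tuple.sort W (o ((o.trans (Tuple.sort W)).symm k)))) = W := by
          ext k
          simp
        simp only [hW, Prod.mk.injEq, and_true]
        ext e
        simp
      right_inv := by
        rintro ⟨o, U⟩
        simp only [Prod.mk.injEq]
        constructor
        · ext e
          simp
        · ext e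
          simp }
  have h1 : Pr (fun p : (ι ≃ Fin N) × (Fin N → Fin M) => Bad' (Φ p).2) = Pr Bad' := by
    rw [Pr_equiv Φ fun q => Bad' q.2, Pr_snd]
  rw [← Pr_fst (Ω' := Fin N → Fin M) Bad, ← h1]
  refine (Pr_le_add (E₁ := fun p : (ι ≃ Fin N) × (Fin N → Fin M) => Bad' (Φ p).2) (E₂ := fun p : (ι ≃ Fin N) × (Fin N → Fin M) => ¬ Function.Injective p.2)
    ?_).trans ?_
  · rintro ⟨o, W⟩ hb
    by_cases hW : Function.Injective W
    · left
      refine h o _ (fun e e' hee => ?_) hb
      have hm : StrictMono (W ∘ Tuple.sort W) :=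
        (Tuple.monotone_sort W).strictMono_of_injective (hW.comp (Tuple.sort W).injective)
      exact hm hee
    · exact Or.inr hW
  · rw [Pr_snd (Ω := ι ≃ Fin N) fun W : Fin N → Fin M => ¬ Function.Injective W]
    linarith [Pr_not_inj N M]

end Pool.Agent.P.MP_de899d_pr
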