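import Pool.Agent.P.MP_de899d_pr.Num3
import Pool.Agent.P.MP_de899d_pr.Trans
import Pool.Agent.P.MP_de899d_pr.Stmt

/-! The sparse range of the random digraph process. -/

set_option linter.unusedSectionVars false
set_option linter.unusedVariables false

namespace Pool.Agent.P.MP_de899d_pr
open Finset Equiv

theorem card_arc (n : ℕ) : Fintype.card (Arc n) = n * (n - 1) := by
  rw [Fintype.card_subtype, show (univ.filter fun e : Fin n × Fin n => e.1 ≠ e.2) =
    (univ : Finset (Fin n)).offDiag by ext; simp, offDiag_card]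
  simp [Nat.mul_sub]

theorem ham_cycle {n : ℕ} (hn : 2 ≤ n) {c : Perm (Fin n)} (h : Ham c) :
    (∀ v, c v ≠ v) ∧ c.IsCycle ∧ c.support = univ := by
  classical
  have h1 : ∀ v, c v ≠ v := fun v hv => by
    have := congrArg card (h {v} (by simp) (by simp [Cl, hv]))
    simp at this
    omega
  refine ⟨h1, ⟨⟨0, by omega⟩, h1 _, fun y _ => ?_⟩, by ext v; simp [h1]⟩
  have := h (univ.filter fun z => c.SameCycle ⟨0, by omega⟩ z) ⟨⟨0, by omega⟩, by
    simpa using Perm.SameCycle.refl _ _⟩ (fun z hz => by simpa using hz)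
  simpa using this.ge (mem_univ y)

/-- The edge set below a threshold. -/
def below {n M : ℕ} (U : Arc n → Fin M) (t : ℕ) : Finset (Fin n × Fin n) :=
  (univ.filter fun e : Arc n => (U e : ℕ) < t).image Subtype.val

theorem mem_below {n M : ℕ} (U : Fin n × Fin n → Fin M) (t : ℕ) (e : Fin n × Fin n) :
    e ∈ below (fun a => U a.1) t ↔ e.1 ≠ e.2 ∧ (U e : ℕ) < t := by
  simp only [below, mem_image, mem_filter, mem_univ, true_and]
  exact ⟨by rintro ⟨a, h, rfl⟩; exact ⟨a.2, h⟩, fun h => ⟨⟨e, h.1⟩, h.2, rfl⟩⟩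

theorem minDeg_le {n : ℕ} (G : Finset (Fin n × Fin n)) (Γ : Fin n × Fin n → Prop)
    (h : ∀ e ∈ G, Γ e) (v : Fin n) : minDeg G ≤ rdeg Γ v ∧ minDeg G ≤ rdeg (tr Γ) v := by
  classical
  constructor
  · refine (min_le_left _ _).trans ((ciInf_le' _ v).trans ?_)
    refine card_le_card_of_injOn Prod.snd (fun e he => ?_) (fun e he e' he' h => ?_)
    · simp only [coe_filter, mem_univ, true_and, Set.mem_ofPred_eq] at he ⊢
      rw [← he.2]; exact h e he.1
    · simp only [coe_filter, Set.mem_ofPred_eq] at he he'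
      exact Prod.ext (he.2.trans he'.2.symm) h
  · refine (min_le_right _ _).trans ((ciInf_le' _ v).trans ?_)
    refine card_le_card_of_injOn Prod.fst (fun e he => ?_) (fun e he e' he' h => ?_)
    · simp only [coe_filter, mem_univ, true_and, Set.mem_ofPred_eq] at he ⊢
      rw [← he.2]; exact h e he.1
    · simp only [coe_filter, Set.mem_ofPred_eq] at he he'
      exact Prod.ext h (he.2.trans he'.2.symm)

theorem order_bound {n : ℕ} (M T B : ℕ) [NeZero M] :
    Pr (fun o : EdgeOrder n => ∃ m ≤ B, ¬ Packs (process o m) (minDeg (process o m))) ≤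
      Pr (fun U : Arc n → Fin M => (cnt univ (fun _ (i : Fin M) => (i : ℕ) < T) U : ℝ) ≤ B) +
      Pr (fun U : Arc n → Fin M => ∃ t ≤ T, ¬ Packs (below U t) (minDeg (below U t))) +
        ((n * (n - 1) : ℕ) : ℝ) ^ 2 / M := by
  classical
  refine (trans (Arc n) _ M _ _ (card_arc n) ?_).trans (add_le_add_left (Pr_or_le _ _) _)
  rintro o U hU ⟨m, hm, h⟩
  by_cases h1 : ∃ e, m ≤ (o e : ℕ) ∧ (U e : ℕ) < T
  · obtain ⟨e, h2, h3⟩ := h1
    let e0 := o.symm ⟨m, lt_of_le_of_lt h2 (o e).2⟩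
    have h0 : (o e0 : ℕ) = m := by simp [e0]
    have h4 : ∀ e', (o e' : ℕ) < m ↔ (U e' : ℕ) < U e0 := fun e' => by
      refine ⟨fun h => hU _ _ (by rw [Fin.lt_def]; omega), fun h => ?_⟩
      by_contra h5
      rcases (not_lt.mp h5).eq_or_lt with h6 | h6
      · rw [o.injective (Fin.ext (h6.symm.trans h0.symm))] at h
        omega
      · have := hU e0 e' (by rw [Fin.lt_def]; omega)
        rw [Fin.lt_def] at this
        omega
    have h5 : ¬ (U e : ℕ) < U e0 := by rw [← h4]; omega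
    have h6 : below U (U e0) = process o m := by simp only [below, process, h4]
    exact Or.inr ⟨U e0, by omega, by rwa [h6]⟩
  · left
    push Not at h1
    have : cnt univ (fun _ (i : Fin M) => (i : ℕ) < T) U ≤ #(range m) := by
      refine card_le_card_of_injOn (fun e => (o e : ℕ)) (fun e he => ?_)
        (fun e _ e' _ h => o.injective (Fin.ext h))
      simp only [coe_filter, mem_univ, true_and, Set.mem_ofPred_eq, coe_range, Set.mem_Iio] at he ⊢
      by_contra h2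
      exact absurd he (not_lt.mpr (h1 e (not_lt.mp h2)))
    rw [card_range] at this
    exact_mod_cast this.trans hm

theorem loops_bound {n : ℕ} (hn : 2 ≤ n) (M T : ℕ) [NeZero M] :
    Pr (fun U : Arc n → Fin M => ∃ t ≤ T, ¬ Packs (below U t) (minDeg (below U t))) ≤
      Pr (fun U : Fin n × Fin n → Fin M => BadAll T U) := by
  rw [← Pr_comp (fun a : Arc n => a.1) Subtype.val_injective]
  refine Pr_mono ?_
  rintro U ⟨t, ht, h⟩
  have h1 := minDeg_le (below (fun a => U a.1) t) (fun e => (U e : ℕ) < t)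
    fun e he => ((mem_below U t e).mp he).2
  refine ⟨minDeg (below (fun a => U a.1) t), Nat.pos_of_ne_zero fun h0 => h ?_, t, Nat.zero_le _,
    ht, fun v => (h1 v).1, fun v => (h1 v).2, ?_⟩
  · rw [h0]
    exact ⟨Fin.elim0, fun j => j.elim0, fun j => j.elim0⟩
  · rintro ⟨H, h2, h3, h4⟩
    refine h ⟨H, fun j => ?_, h3⟩
    obtain ⟨a, b, c⟩ := ham_cycle hn (h2 j)
    exact ⟨b, c, fun v => (mem_below U t _).mpr ⟨(a v).symm, h4 j v⟩⟩

theorem sparse_bound (n : ℕ) (hl : 2 * Real.exp (10 ^ 20) + 10 ^ 50 ≤ Real.log n) :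
    Pr (fun o : EdgeOrder n => ¬ ∀ m : ℕ, (4 * m) ^ 50 ≤ n ^ 51 →
      Packs (process o m) (minDeg (process o m))) ≤ 40 / Real.log n := by
  have e0 := Real.exp_pos (10 ^ 20)
  set l := Real.log n with hl'
  have l0 : 10 ^ 50 ≤ l := by linarith
  have n0 : (0 : ℝ) < n := by
    rcases n.eq_zero_or_pos with rfl | h
    · simp at hl'; linarith
    · exact_mod_cast h
  set x := Real.exp (l / 100) with hx
  have e1 : Real.exp l = x ^ 100 := by rw [hx, ← Real.exp_nat_mul]; congr 1; push_cast; ring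
  have e2 : (n : ℝ) = x ^ 100 := by rw [← e1, hl', Real.exp_log n0]
  have e3 : 4 * l ≤ x := by
    refine le_trans ?_ (Real.quadratic_le_exp_of_nonneg (by linarith))
    nlinarith
  have x1 : 1 ≤ x := by linarith
  have x2 : x ≤ x ^ 2 := le_self_pow₀ x1 (by norm_num)
  have x3 : x ^ 2 ≤ n := e2 ▸ pow_le_pow_right₀ x1 (by norm_num)
  have n2 : 2 ≤ n := by exact_mod_cast (by linarith : (2 : ℝ) ≤ n)
  have a1 : 0.9 * l ≤ ⌈0.9 * l⌉₊ := Nat.le_ceil _
  have a2 := Nat.ceil_lt_add_one (a := 0.9 * l) (by linarith)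
  have b1 : (⌊x ^ 2⌋₊ : ℝ) ≤ x ^ 2 := Nat.floor_le (by positivity)
  have b2 := Nat.lt_floor_add_one (x ^ 2)
  have : NeZero (n * n ^ 4) := ⟨by positivity⟩
  have ab := all_bound (V := Fin n) (x := x) (l := l) (d0 := ⌈0.9 * l⌉₊) (d1 := ⌊x ^ 2⌋₊)
    (by exact_mod_cast (by linarith : (⌈0.9 * l⌉₊ : ℝ) < ⌊x ^ 2⌋₊)) (by linarith) b1
    (fun d h1 h2 => by
      have h3 : (⌈0.9 * l⌉₊ : ℝ) ≤ d := by exact_mod_cast h1
      have h4 : (d : ℝ) ≤ ⌊x ^ 2⌋₊ := by exact_mod_cast h2.le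
      have h5 : 0.9 * l ≤ Real.sqrt (d * l) := Real.le_sqrt_of_sq_le (by nlinarith)
      have h6 := Nat.floor_le (a := Real.sqrt (d * l) / 10 ^ 6) (by positivity)
      have h7 := Nat.lt_floor_add_one (Real.sqrt (d * l) / 10 ^ 6)
      exact ⟨Real.sqrt (d * l), ⌊Real.sqrt (d * l) / 10 ^ 6⌋₊, by simpa using e2, by linarith, e1,
        e3, l0, by linarith, (Real.le_log_iff_exp_le (by linarith)).mpr (by linarith),
        by linarith, Real.sqrt_nonneg _, Real.sq_sqrt (by nlinarith), by linarith, by linarith⟩)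
    (n ^ 4) (n * n ^ 4) (by positivity) (by simp)
  have ob := order_bound (n := n) (n * n ^ 4) (⌊x ^ 2⌋₊ * n ^ 4) ⌊x ^ 102 / 4⌋₊
  have c1 : ((n * (n - 1) : ℕ) : ℝ) = n * (n - 1) := by
    rw [Nat.cast_mul, Nat.cast_sub (by omega), Nat.cast_one]
  set μ : ℝ := (n - 1) * ⌊x ^ 2⌋₊ with hμ
  have m1 : x ^ 102 / 2 ≤ μ := by
    calc _ ≤ (3 / 4 * n) * (3 / 4 * x ^ 2) := by rw [e2]; nlinarith [pow_pos (by linarith : 0 < x) 102]
      _ ≤ _ := by rw [hμ]; gcongr <;> linarith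
  have m2 : l ≤ μ := by
    have : x ^ 2 ≤ x ^ 102 := pow_le_pow_right₀ x1 (by norm_num)
    linarith
  have lg := Pr_lower_gauss (univ : Finset (Arc n))
    (fun _ (i : Fin (n * n ^ 4)) => (i : ℕ) < ⌊x ^ 2⌋₊ * n ^ 4) (D := μ / 2) (μ := μ)
    (by linarith) (by linarith) (le_of_eq (by
      rw [sum_const, card_univ, card_arc, nsmul_eq_mul, c1, Pr_lt (Nat.mul_le_mul_right _
        (by exact_mod_cast b1.trans x3)), hμ]
      push_cast
      field_simp))
  have g1 : Real.exp (-((μ / 2) ^ 2 / (2 * μ))) ≤ 8 / l := by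
    rw [show (μ / 2) ^ 2 / (2 * μ) = μ / 8 by have : 0 < μ := by linarith
                                              field_simp; norm_num, Real.exp_neg,
      inv_le_comm₀ (Real.exp_pos _) (by positivity), inv_div]
    linarith [Real.add_one_le_exp (μ / 8)]
  have g2 : ((n * (n - 1) : ℕ) : ℝ) ^ 2 / ((n * n ^ 4 : ℕ) : ℝ) ≤ 1 / l := by
    rw [c1]
    push_cast
    calc _ ≤ (n * n : ℝ) ^ 2 / (n * n ^ 4) := by gcongr <;> linarith
      _ = 1 / n := by field_simp
      _ ≤ _ := one_div_le_one_div_of_le (by linarith) (by linarith)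
  have g3 : 14 / x ^ 3 ≤ 14 / l := by
    gcongr
    exact le_trans (by linarith) (le_self_pow₀ x1 (by norm_num))
  have g4 : 12 / (⌈0.9 * l⌉₊ : ℝ) ≤ 14 / l := by
    rw [div_le_div_iff₀ (by linarith) (by linarith)]; linarith
  have g5 : Pr (fun U : Arc n → Fin (n * n ^ 4) => (cnt univ (fun _ (i : Fin (n * n ^ 4)) =>
      (i : ℕ) < ⌊x ^ 2⌋₊ * n ^ 4) U : ℝ) ≤ ⌊x ^ 102 / 4⌋₊) ≤ 8 / l :=
    le_trans (Pr_mono fun U hU => hU.trans ((Nat.floor_le (by positivity)).trans (by linarith)))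
      (lg.trans g1)
  have g6 : (40 : ℝ) / l = 8 / l + (14 / l + 14 / l) + 1 / l + 3 / l := by ring
  have g7 : 0 ≤ 3 / l := by positivity
  refine le_trans (Pr_mono fun o ho => ?_) (ob.trans (by
    linarith [loops_bound n2 (n * n ^ 4) (⌊x ^ 2⌋₊ * n ^ 4)]))
  push Not at ho
  obtain ⟨m, h1, h2⟩ := ho
  refine ⟨m, Nat.le_floor ?_, h2⟩
  have h3 : (4 * m : ℝ) ^ 50 ≤ (x ^ 102) ^ 50 := by
    calc _ ≤ (n : ℝ) ^ 51 := by exact_mod_cast h1
      _ = _ := by rw [e2]; ring
  linarith [le_of_pow_le_pow_left₀ (by norm_num) (by positivity) h3]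

end Pool.Agent.P.MP_de899d_pr
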