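import Pool.Agent.P.MP_de899d_pr.Base2

/-! One absorbing triple. -/

set_option linter.unusedSectionVars false
set_option linter.unusedVariables false

namespace Pool.Agent.P.MP_de899d_pr
open Finset Equiv

namespace TriAux

variable {V : Type} [Fintype V] [DecidableEq V]

/-- Completion that avoids two given permutations. -/
theorem ext_avoid (hext : S_EXT) {R : V × V → Prop} {q β : ℕ} (hD : Den R q β) (hq : 0 < q)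
    (hβ : 10 * q ≤ β) (π₀ σ τ : Perm V) (W Q : Finset V) (hQ : DegIn R Q (10 * β + 5))
    (hc : 32 * q * β ≤ #Q) (h1 : Q ⊆ W) (h2 : ∀ x ∈ Q, π₀ x = x) :
    ∃ π : Perm V, (∀ x, x ∉ W → π x = π₀ x) ∧ (∀ x ∈ W, R (x, π x) ∧ π x ≠ σ x ∧ π x ≠ τ x) ∧
      Thru π W ∧ (∀ x ∈ W, ∃ y ∈ W, π x = π₀ y) ∧ ∀ S, Cl π S → Cl π₀ S := by
  classical
  set Z : V × V → Prop := Gr ![σ, τ] with hZ
  have hz := rdeg_Gr_le ![σ, τ]
  simp only [Fintype.card_fin] at hz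
  have hor : ∀ e, R e → (R e ∧ ¬ Z e) ∨ Z e := fun e he => by
    by_cases h : Z e
    · exact Or.inr h
    · exact Or.inl ⟨he, h⟩
  have hD' : Den (fun e => R e ∧ ¬ Z e) (2 * q) β :=
    hD.remove hor (fun x => (hz x).1) (by omega)
  have hQ2 : DegIn R Q (10 * β + 2) := fun x =>
    ⟨le_trans (by omega) (hQ x).1, le_trans (by omega) (hQ x).2⟩
  have hQ' : DegIn (fun e => R e ∧ ¬ Z e) Q (10 * β) :=
    hQ2.remove hor (fun x => (hz x).1) (fun x => (hz x).2)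
  obtain ⟨π, a1, a2, a3, a4, a5⟩ := ext_nice hext π₀ W Q _ (by omega) hD' hQ' h1
    (fun x hx => mem_image.2 ⟨x, h1 hx, h2 x hx⟩)
    (le_trans (le_of_eq (by ring)) (hc.trans (card_le_card h1)))
  refine ⟨π, a1, fun x hx => ⟨(a2 x hx).1, fun h => (a2 x hx).2 ⟨0, h.symm⟩,
    fun h => (a2 x hx).2 ⟨1, h.symm⟩⟩, a3, fun x hx => ?_, a5⟩
  have : π x ∈ W.image π₀ := a4 ▸ mem_image_of_mem _ hx
  obtain ⟨y, hy, e⟩ := mem_image.1 this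
  exact ⟨y, hy, e.symm⟩

/-- Three successive completions. -/
theorem ext3 (hext : S_EXT) {R : V × V → Prop} {q β : ℕ} (hD : Den R q β) (hq : 0 < q)
    (hβ : 10 * q ≤ β) (π₀ σ τ : Perm V) (W₁ W₂ W₃ Q₁ Q₂ Q₃ : Finset V)
    (hQ₁ : DegIn R Q₁ (10 * β + 5)) (hQ₂ : DegIn R Q₂ (10 * β + 5))
    (hQ₃ : DegIn R Q₃ (10 * β + 5)) (c₁ : 32 * q * β ≤ #Q₁) (c₂ : 32 * q * β ≤ #Q₂)
    (c₃ : 32 * q * β ≤ #Q₃) (s₁ : Q₁ ⊆ W₁) (s₂ : Q₂ ⊆ W₂) (s₃ : Q₃ ⊆ W₃)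
    (f₁ : ∀ x ∈ Q₁, π₀ x = x) (f₂ : ∀ x ∈ Q₂, π₀ x = x) (f₃ : ∀ x ∈ Q₃, π₀ x = x)
    (d12 : ∀ x ∈ W₂, x ∉ W₁) (d13 : ∀ x ∈ W₃, x ∉ W₁) (d23 : ∀ x ∈ W₃, x ∉ W₂) :
    ∃ π : Perm V, (∀ x, x ∉ W₁ → x ∉ W₂ → x ∉ W₃ → π x = π₀ x) ∧
      (∀ x, x ∈ W₁ ∨ x ∈ W₂ ∨ x ∈ W₃ → R (x, π x) ∧ π x ≠ σ x ∧ π x ≠ τ x) ∧
      Thru π W₁ ∧ Thru π W₂ ∧ Thru π W₃ ∧ (∀ x ∈ W₁, ∃ y ∈ W₁, π x = π₀ y) ∧
      (∀ x ∈ W₂, ∃ y ∈ W₂, π x = π₀ y) := by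
  obtain ⟨π₁, a1, a2, a3, a4, -⟩ := ext_avoid hext hD hq hβ π₀ σ τ W₁ Q₁ hQ₁ c₁ s₁ f₁
  obtain ⟨π₂, b1, b2, b3, b4, b5⟩ := ext_avoid hext hD hq hβ π₁ σ τ W₂ Q₂ hQ₂ c₂ s₂
    (fun x hx => by rw [a1 x (d12 x (s₂ hx)), f₂ x hx])
  obtain ⟨π₃, e1, e2, e3, -, e5⟩ := ext_avoid hext hD hq hβ π₂ σ τ W₃ Q₃ hQ₃ c₃ s₃
    (fun x hx => by rw [b1 x (d23 x (s₃ hx)), a1 x (d13 x (s₃ hx)), f₃ x hx])
  have k1 : ∀ x ∈ W₁, π₃ x = π₁ x := fun x hx => by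
    rw [e1 x fun h => d13 x h hx, b1 x fun h => d12 x h hx]
  have k2 : ∀ x ∈ W₂, π₃ x = π₂ x := fun x hx => e1 x fun h => d23 x h hx
  refine ⟨π₃, fun x h1 h2 h3 => by rw [e1 x h3, b1 x h2, a1 x h1], ?_,
    a3.coarsen fun S hS => b5 S (e5 S hS), b3.coarsen e5, e3, fun x hx => ?_, fun x hx => ?_⟩
  · rintro x (hx | hx | hx)
    · rw [k1 x hx]; exact a2 x hx
    · rw [k2 x hx]; exact b2 x hx
    · exact e2 x hx
  · rw [k1 x hx]; exact a4 x hx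
  · obtain ⟨y, hy, e⟩ := b4 x hx
    exact ⟨y, hy, by rw [k2 x hx, e, a1 y (d12 y hy)]⟩

/-- Pattern permutations. -/
theorem exists_pat {ι : Type} {γ : ι × Fin 10 → V} (hγ : Function.Injective γ)
    (φ : Perm (Fin 10)) :
    ∃ π : Perm V, (∀ t i, π (γ (t, i)) = γ (t, φ i)) ∧ ∀ v, (∀ p, γ p ≠ v) → π v = v := by
  refine ⟨Perm.viaEmbedding (Equiv.prodCongrRight fun _ => φ) ⟨γ, hγ⟩, fun t i => ?_,
    fun v hv => ?_⟩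
  · exact Perm.viaEmbedding_apply (Equiv.prodCongrRight fun _ => φ) ⟨γ, hγ⟩ (t, i)
  · exact Perm.viaEmbedding_apply_of_notMem _ _ _ fun ⟨p, hp⟩ => hv p hp

theorem exists_lab {ι : Type} {γ : ι × Fin 10 → V} (hγ : Function.Injective γ) :
    ∃ lab : V → Option (Fin 10), (∀ t i, lab (γ (t, i)) = some i) ∧
      ∀ v, (∀ p, γ p ≠ v) → lab v = none := by
  classical
  refine ⟨fun v => if h : ∃ p, γ p = v then some h.choose.2 else none, fun t i => ?_,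
    fun v hv => ?_⟩
  · have h : ∃ p, γ p = γ (t, i) := ⟨_, rfl⟩
    simp only [dif_pos h]
    rw [hγ h.choose_spec]
  · exact dif_neg fun ⟨p, hp⟩ => hv p hp

/-- `x a f y c b e` -/
def φD : Perm (Fin 10) :=
  ⟨![2, 4, 6, 5, 3, 0, 1, 7, 8, 9], ![5, 6, 0, 4, 1, 3, 2, 7, 8, 9], by decide, by decide⟩

/-- `x b f g y a e` -/
def φE : Perm (Fin 10) :=
  ⟨![3, 2, 5, 6, 4, 0, 7, 1, 8, 9], ![5, 7, 1, 0, 4, 2, 3, 6, 8, 9], by decide, by decide⟩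

/-- `(y h) (x b) (z c)` -/
def φP : Perm (Fin 10) :=
  ⟨![3, 9, 2, 0, 8, 5, 6, 7, 4, 1], ![3, 9, 2, 0, 8, 5, 6, 7, 4, 1], by decide, by decide⟩

/-- `x z y` -/
def φT : Perm (Fin 10) :=
  ⟨![8, 0, 2, 3, 4, 5, 6, 7, 1, 9], ![1, 8, 2, 3, 4, 5, 6, 7, 0, 9], by decide, by decide⟩

/-- The connectivity statement for the merged permutation. -/
theorem conn {ι : Type} [Nonempty ι] {γ : ι × Fin 10 → V} {ψ₃ F : Perm V}
    {W₁ W₂ W₃ : Finset V}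
    (hcov : ∀ v, v ∈ W₁ ∨ v ∈ W₂ ∨ v ∈ W₃ ∨ (∃ t, v = γ (t, 0)) ∨ (∃ t, v = γ (t, 1)) ∨
      ∃ t, v = γ (t, 8))
    (hF : ∀ v, v ∈ W₁ ∨ v ∈ W₂ ∨ v ∈ W₃ → F v = ψ₃ v)
    (hx : ∀ t, F (γ (t, 0)) = γ (t, 4)) (hy : ∀ t, F (γ (t, 1)) = γ (t, 3))
    (hz : ∀ t, F (γ (t, 8)) ∈ W₁) (px : ∀ t, ψ₃ (γ (t, 0)) = γ (t, 3))
    (py : ∀ t, ψ₃ (γ (t, 1)) = γ (t, 9)) (mh : ∀ t, γ (t, 9) ∈ W₁) (mb : ∀ t, γ (t, 3) ∈ W₂)
    (mc : ∀ t, γ (t, 4) ∈ W₃) (t1 : Thru ψ₃ W₁) (t2 : Thru ψ₃ W₂) (t3 : Thru ψ₃ W₃)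
    (i1 : ∀ v ∈ W₁, ψ₃ v ∈ W₁ ∨ ∃ t, ψ₃ v = γ (t, 1))
    (i2 : ∀ v ∈ W₂, ψ₃ v ∈ W₂ ∨ ∃ t, ψ₃ v = γ (t, 0))
    (O : Finset V) (hne : O.Nonempty) (hO : Cl F O) (hxy : ∀ t, γ (t, 0) ∈ O ↔ γ (t, 1) ∈ O) :
    O = univ := by
  classical
  obtain ⟨t₀⟩ := ‹Nonempty ι›
  have K : ∀ O : Finset V, Cl F O → (∀ t, γ (t, 0) ∈ O ↔ γ (t, 1) ∈ O) → (∀ w ∈ W₂, w ∉ O) →
      ∀ v, v ∉ O := by
    intro O hO hxy h2
    have ny : ∀ t, γ (t, 1) ∉ O := fun t h => h2 _ (mb t) (hy t ▸ hO _ h)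
    have nx : ∀ t, γ (t, 0) ∉ O := fun t h => ny t ((hxy t).1 h)
    have nc : ∀ t, γ (t, 4) ∉ O := fun t h => nx t (Surg.cl_inv hO (hx t ▸ h))
    have n1 : ∀ w ∈ W₁, w ∉ O := by
      intro w hw hwO
      have hS : Cl ψ₃ (O ∩ W₁) := by
        intro v hv
        obtain ⟨hv1, hv2⟩ := mem_inter.1 hv
        have h3 : ψ₃ v ∈ O := hF v (Or.inl hv2) ▸ hO v hv1
        rcases i1 v hv2 with h | ⟨t, h⟩
        · exact mem_inter.2 ⟨h3, h⟩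
        · exact absurd (h ▸ h3) (ny t)
      have h4 := t1 _ hS w hw (mem_inter.2 ⟨hwO, hw⟩) (mh t₀)
      exact ny t₀ (mem_inter.1 (Surg.cl_inv hS (py t₀ ▸ h4))).1
    have m3 : ∀ v ∈ O, v ∈ W₃ := by
      intro v hv
      rcases hcov v with h | h | h | ⟨t, rfl⟩ | ⟨t, rfl⟩ | ⟨t, rfl⟩
      · exact absurd hv (n1 v h)
      · exact absurd hv (h2 v h)
      · exact h
      · exact absurd hv (nx t)
      · exact absurd hv (ny t)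
      · exact absurd (hO _ hv) (n1 _ (hz t))
    intro v hv
    have hS : Cl ψ₃ O := fun w hw => hF w (Or.inr (Or.inr (m3 w hw))) ▸ hO w hw
    exact nc t₀ (t3 O hS v (m3 v hv) hv (mc t₀))
  by_cases h : ∃ w ∈ W₂, w ∈ O
  · obtain ⟨w, hw, hwO⟩ := h
    have hS : Cl ψ₃ (O.filter fun v => v ∈ W₂ ∨ ∃ t, v = γ (t, 0)) := by
      intro v hv
      obtain ⟨hv1, hv2 | ⟨t, rfl⟩⟩ := mem_filter.1 hv
      · exact mem_filter.2 ⟨hF v (Or.inr (Or.inl hv2)) ▸ hO v hv1, i2 v hv2⟩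
      · rw [px]
        exact mem_filter.2 ⟨hy t ▸ hO _ ((hxy t).1 hv1), Or.inl (mb t)⟩
    have h2 := t2 _ hS w hw (mem_filter.2 ⟨hwO, Or.inl hw⟩)
    have h3 := K Oᶜ (cl_compl hO) (fun t => by simp only [mem_compl, hxy t])
      (fun v hv hc => mem_compl.1 hc (mem_filter.1 (h2 hv)).1)
    exact eq_univ_of_forall fun v => by simpa using h3 v
  · obtain ⟨v, hv⟩ := hne
    exact absurd hv (K O hO hxy (fun w hw hwO => h ⟨w, hw, hwO⟩) v)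

theorem exists_set {ι : Type} {γ : ι × Fin 10 → V} (hγ : Function.Injective γ)
    (P : Fin 10 → Prop) (A : V → Prop) :
    ∃ W : Finset V, (∀ t i, γ (t, i) ∈ W ↔ P i) ∧ ∀ v, (∀ p, γ p ≠ v) → (v ∈ W ↔ A v) := by
  classical
  obtain ⟨lab, h1, h2⟩ := exists_lab hγ
  refine ⟨univ.filter fun v => (∃ i, lab v = some i ∧ P i) ∨ (lab v = none ∧ A v),
    fun t i => ?_, fun v hv => ?_⟩
  · simp [h1]
  · simp [h2 v hv]

theorem cases_γ {ι : Type} (γ : ι × Fin 10 → V) (v : V) :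
    (∃ t i, v = γ (t, i)) ∨ ∀ p, γ p ≠ v := by
  by_cases h : ∃ p, γ p = v
  · obtain ⟨⟨t, i⟩, rfl⟩ := h
    exact Or.inl ⟨t, i, rfl⟩
  · exact Or.inr fun p hp => h ⟨p, hp⟩

/-- The permutation `ψ`. -/
theorem exists_psi (hext : S_EXT) {ι : Type} [Nonempty ι] {γ : ι × Fin 10 → V}
    (hγ : Function.Injective γ) {Q₁ Q₂ Q₃ : Finset V} {R : V × V → Prop} {q β : ℕ}
    (n₁ : ∀ p, γ p ∉ Q₁) (n₂ : ∀ p, γ p ∉ Q₂) (n₃ : ∀ p, γ p ∉ Q₃)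
    (d12 : ∀ x ∈ Q₂, x ∉ Q₁) (d13 : ∀ x ∈ Q₃, x ∉ Q₁) (d23 : ∀ x ∈ Q₃, x ∉ Q₂)
    (hD : Den R q β) (hq : 0 < q) (hβ : 10 * q ≤ β)
    (hQ₁ : DegIn R Q₁ (10 * β + 5)) (hQ₂ : DegIn R Q₂ (10 * β + 5))
    (hQ₃ : DegIn R Q₃ (10 * β + 5)) (c₁ : 32 * q * β ≤ #Q₁) (c₂ : 32 * q * β ≤ #Q₂)
    (c₃ : 32 * q * β ≤ #Q₃) (σ τ : Perm V) :
    ∃ ψ : Perm V, (∀ t, ψ (γ (t, 0)) = γ (t, 4)) ∧ (∀ t, ψ (γ (t, 1)) = γ (t, 3)) ∧
      (∀ t, ψ (γ (t, 8)) = γ (t, 9)) ∧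
      (∀ v, (∀ t, v ≠ γ (t, 0)) → (∀ t, v ≠ γ (t, 1)) → (∀ t, v ≠ γ (t, 8)) →
        R (v, ψ v) ∧ ψ v ≠ σ v ∧ ψ v ≠ τ v) ∧
      ∀ F : Perm V, (∀ v, (∀ t, v ≠ γ (t, 8)) → F v = ψ v) →
        (∀ t, ∃ s, F (γ (t, 8)) = γ (s, 9)) →
        ∀ O : Finset V, O.Nonempty → Cl F O → (∀ t, γ (t, 0) ∈ O ↔ γ (t, 1) ∈ O) → O = univ := by
  classical
  obtain ⟨ψ₀, p1, p2⟩ := exists_pat hγ φP
  obtain ⟨θ, q1, q2⟩ := exists_pat hγ φT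
  obtain ⟨W₁, a1, a2⟩ := exists_set hγ (fun i => i = 9) (fun v => v ∈ Q₁)
  obtain ⟨W₂, b1, b2⟩ := exists_set hγ (fun i => i = 3) (fun v => v ∈ Q₂)
  obtain ⟨W₃, e1, e2⟩ := exists_set hγ (fun i => i ≠ 0 ∧ i ≠ 1 ∧ i ≠ 3 ∧ i ≠ 8 ∧ i ≠ 9)
    (fun v => v ∉ Q₁ ∧ v ∉ Q₂)
  have o₁ : ∀ x ∈ Q₁, ∀ p, γ p ≠ x := fun x hx p h => n₁ p (h ▸ hx)
  have o₂ : ∀ x ∈ Q₂, ∀ p, γ p ≠ x := fun x hx p h => n₂ p (h ▸ hx)
  have o₃ : ∀ x ∈ Q₃, ∀ p, γ p ≠ x := fun x hx p h => n₃ p (h ▸ hx)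
  obtain ⟨ψ₃, r1, r2, t1, t2, t3, i1, i2⟩ := ext3 hext hD hq hβ ψ₀ σ τ W₁ W₂ W₃ Q₁ Q₂ Q₃
    hQ₁ hQ₂ hQ₃ c₁ c₂ c₃ (fun x hx => (a2 x (o₁ x hx)).2 hx) (fun x hx => (b2 x (o₂ x hx)).2 hx)
    (fun x hx => (e2 x (o₃ x hx)).2 ⟨d13 x hx, d23 x hx⟩) (fun x hx => p2 x (o₁ x hx))
    (fun x hx => p2 x (o₂ x hx)) (fun x hx => p2 x (o₃ x hx))
    (fun x hx hx' => by
      rcases cases_γ γ x with ⟨t, i, rfl⟩ | h
      · rw [b1] at hx; rw [a1] at hx'; subst hx; exact absurd hx' (by decide)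
      · exact d12 x ((b2 x h).1 hx) ((a2 x h).1 hx'))
    (fun x hx hx' => by
      rcases cases_γ γ x with ⟨t, i, rfl⟩ | h
      · rw [e1] at hx; rw [a1] at hx'; exact hx.2.2.2.2 hx'
      · exact ((e2 x h).1 hx).1 ((a2 x h).1 hx'))
    (fun x hx hx' => by
      rcases cases_γ γ x with ⟨t, i, rfl⟩ | h
      · rw [e1] at hx; rw [b1] at hx'; exact hx.2.2.1 hx'
      · exact ((e2 x h).1 hx).2 ((b2 x h).1 hx'))
  have hcov : ∀ v, v ∈ W₁ ∨ v ∈ W₂ ∨ v ∈ W₃ ∨ (∃ t, v = γ (t, 0)) ∨ (∃ t, v = γ (t, 1)) ∨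
      ∃ t, v = γ (t, 8) := by
    intro v
    rcases cases_γ γ v with ⟨t, i, rfl⟩ | h
    · rw [a1, b1, e1]
      by_cases h0 : i = 0
      · subst h0; exact Or.inr (Or.inr (Or.inr (Or.inl ⟨t, rfl⟩)))
      by_cases h1 : i = 1
      · subst h1; exact Or.inr (Or.inr (Or.inr (Or.inr (Or.inl ⟨t, rfl⟩))))
      by_cases h8 : i = 8
      · subst h8; exact Or.inr (Or.inr (Or.inr (Or.inr (Or.inr ⟨t, rfl⟩))))
      tauto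
    · rw [a2 v h, b2 v h, e2 v h]; tauto
  have hθ : ∀ v, v ∈ W₁ ∨ v ∈ W₂ ∨ v ∈ W₃ → θ v = v := by
    intro v hv
    rcases cases_γ γ v with ⟨t, i, rfl⟩ | h
    · rw [a1, b1, e1] at hv
      rw [q1]
      congr 2
      revert i
      decide
    · exact q2 v h
  have fix : ∀ t i, i = 0 ∨ i = 1 ∨ i = 8 → ψ₃ (γ (t, i)) = γ (t, φP i) := by
    intro t i hi
    rw [r1, p1]
    · rw [a1]; revert i; decide
    · rw [b1]; revert i; decide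
    · rw [e1]; revert i; decide
  have px : ∀ t, ψ₃ (γ (t, 0)) = γ (t, 3) := fun t => fix t 0 (by decide)
  have py : ∀ t, ψ₃ (γ (t, 1)) = γ (t, 9) := fun t => fix t 1 (by decide)
  have pz : ∀ t, ψ₃ (γ (t, 8)) = γ (t, 4) := fun t => fix t 8 (by decide)
  have sx : ∀ t, (ψ₃ * θ) (γ (t, 0)) = γ (t, 4) := fun t => by
    rw [Perm.mul_apply, q1]; exact pz t
  have sy : ∀ t, (ψ₃ * θ) (γ (t, 1)) = γ (t, 3) := fun t => by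
    rw [Perm.mul_apply, q1]; exact px t
  have sz : ∀ t, (ψ₃ * θ) (γ (t, 8)) = γ (t, 9) := fun t => by
    rw [Perm.mul_apply, q1]; exact py t
  have ne8 : ∀ t s (i : Fin 10), i ≠ 8 → γ (t, i) ≠ γ (s, 8) := fun t s i hi h =>
    hi (congrArg Prod.snd (hγ h))
  refine ⟨ψ₃ * θ, sx, sy, sz, fun v h0 h1 h8 => ?_, fun F hF hN => ?_⟩
  · have hv : v ∈ W₁ ∨ v ∈ W₂ ∨ v ∈ W₃ := by
      rcases hcov v with h | h | h | ⟨t, h⟩ | ⟨t, h⟩ | ⟨t, h⟩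
      · exact Or.inl h
      · exact Or.inr (Or.inl h)
      · exact Or.inr (Or.inr h)
      · exact absurd h (h0 t)
      · exact absurd h (h1 t)
      · exact absurd h (h8 t)
    rw [Perm.mul_apply, hθ v hv]
    exact r2 v hv
  · refine conn (ψ₃ := ψ₃) hcov (fun v hv => ?_)
      (fun t => by rw [hF _ fun s => ne8 t s 0 (by decide), sx])
      (fun t => by rw [hF _ fun s => ne8 t s 1 (by decide), sy])
      (fun t => by obtain ⟨s, hs⟩ := hN t; rw [hs, a1]) px py (fun t => (a1 t 9).2 rfl)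
      (fun t => (b1 t 3).2 rfl) (fun t => (e1 t 4).2 (by decide)) t1 t2 t3
      (fun v hv => ?_) (fun v hv => ?_)
    · rw [hF v, Perm.mul_apply, hθ v hv]
      rintro t rfl
      rw [a1, b1, e1] at hv
      exact absurd hv (by decide)
    · obtain ⟨y, hy, e⟩ := i1 v hv
      rcases cases_γ γ y with ⟨t, i, rfl⟩ | h
      · rw [a1] at hy
        subst hy
        exact Or.inr ⟨t, by rw [e, p1]; rfl⟩
      · exact Or.inl (by rw [e, p2 y h]; exact hy)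
    · obtain ⟨y, hy, e⟩ := i2 v hv
      rcases cases_γ γ y with ⟨t, i, rfl⟩ | h
      · rw [b1] at hy
        subst hy
        exact Or.inr ⟨t, by rw [e, p1]; rfl⟩
      · exact Or.inl (by rw [e, p2 y h]; exact hy)

/-- A Hamilton cycle through the pattern paths. -/
theorem exists_ham (hext : S_EXT) {ι : Type} {γ : ι × Fin 10 → V} (hγ : Function.Injective γ)
    {Q : Finset V} {R : V × V → Prop} {q β : ℕ} (n : ∀ p, γ p ∉ Q) (hD : Den R q β) (hq : 0 < q)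
    (hβ : 10 * q ≤ β) (hQ : DegIn R Q (10 * β + 5)) (c : 32 * q * β ≤ #Q) (φ : Perm (Fin 10))
    (P : Fin 10 → Prop) (m : Fin 10 → ℕ) (hm : ∀ i, P i → P (φ i) → m (φ i) < m i)
    (σ τ : Perm V) :
    ∃ D : Perm V, Ham D ∧ (∀ t i, P i → D (γ (t, i)) = γ (t, φ i)) ∧
      ∀ v, (∀ t i, P i → v ≠ γ (t, i)) → R (v, D v) ∧ D v ≠ σ v ∧ D v ≠ τ v := by
  classical
  obtain ⟨D₀, p1, p2⟩ := exists_pat hγ φ
  obtain ⟨W, a1, a2⟩ := exists_set hγ (fun i => ¬ P i) (fun _ => True)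
  have o : ∀ x ∈ Q, ∀ p, γ p ≠ x := fun x hx p h => n p (h ▸ hx)
  obtain ⟨D, r1, r2, r3, -, -⟩ := ext_avoid hext hD hq hβ D₀ σ τ W Q hQ c
    (fun x hx => (a2 x (o x hx)).2 trivial) (fun x hx => p2 x (o x hx))
  have hP : ∀ t i, P i → D (γ (t, i)) = γ (t, φ i) := fun t i hi => by
    rw [r1 _ (by rw [a1]; exact not_not.2 hi), p1]
  refine ⟨D, ham_of_thru r3 fun S hS hc => ?_, hP, fun v hv => r2 v ?_⟩
  · obtain ⟨v, hv⟩ := hS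
    rcases cases_γ γ v with ⟨t, i, rfl⟩ | h
    · induction hk : m i using Nat.strong_induction_on generalizing i with
      | _ k ih =>
        by_cases hi : P i
        · have h1 : γ (t, φ i) ∈ S := hP t i hi ▸ hc _ hv
          by_cases hi' : P (φ i)
          · exact ih _ (hk ▸ hm i hi hi') (φ i) h1 rfl
          · exact ⟨_, (a1 t _).2 hi', h1⟩
        · exact ⟨_, (a1 t _).2 hi, hv⟩
    · exact ⟨v, (a2 v h).2 trivial, hv⟩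
  · rcases cases_γ γ v with ⟨t, i, rfl⟩ | h
    · exact (a1 t i).2 fun hi => hv t i hi rfl
    · exact (a2 v h).2 trivial

/-- The triple from the embedded gadgets. -/
theorem core (hext : S_EXT) (htog : S_TOG) {ι : Type} [Fintype ι] [DecidableEq ι] [Nonempty ι]
    {γ : ι × Fin 10 → V} (hγ : Function.Injective γ) {T H Q₁ Q₂ Q₃ : Finset V}
    {R : V × V → Prop} {q β : ℕ} (hT : ∀ v, v ∈ T ↔ ∃ t, γ (t, 8) = v)
    (hH : ∀ v, v ∈ H ↔ ∃ t, γ (t, 9) = v)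
    (n₁ : ∀ p, γ p ∉ Q₁) (n₂ : ∀ p, γ p ∉ Q₂) (n₃ : ∀ p, γ p ∉ Q₃)
    (d12 : ∀ x ∈ Q₂, x ∉ Q₁) (d13 : ∀ x ∈ Q₃, x ∉ Q₁) (d23 : ∀ x ∈ Q₃, x ∉ Q₂)
    (hD : Den R q β) (hq : 0 < q) (hβ : 10 * q ≤ β)
    (hQ₁ : DegIn R Q₁ (10 * β + 5)) (hQ₂ : DegIn R Q₂ (10 * β + 5))
    (hQ₃ : DegIn R Q₃ (10 * β + 5)) (c₁ : 32 * q * β ≤ #Q₁) (c₂ : 32 * q * β ≤ #Q₂)
    (c₃ : 32 * q * β ≤ #Q₃)
    (aP : ∀ t, R (γ (t, 0), γ (t, 4)) ∧ R (γ (t, 1), γ (t, 3)))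
    (aD : ∀ t (i : Fin 10), (i = 0 ∨ i = 2 ∨ i = 6 ∨ i = 1 ∨ i = 4 ∨ i = 3) →
      R (γ (t, i), γ (t, φD i)))
    (aE : ∀ t (i : Fin 10), (i = 0 ∨ i = 3 ∨ i = 6 ∨ i = 7 ∨ i = 1 ∨ i = 2) →
      R (γ (t, i), γ (t, φE i))) :
    ∃ ψ D E : Perm V, Tri T H R ψ D E := by
  classical
  obtain ⟨D₀, d1, -⟩ := exists_pat hγ φD
  obtain ⟨E₀, e1, -⟩ := exists_pat hγ φE
  obtain ⟨ψ, sx, sy, sz, sR, sconn⟩ := exists_psi hext hγ n₁ n₂ n₃ d12 d13 d23 hD hq hβ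
    hQ₁ hQ₂ hQ₃ c₁ c₂ c₃ D₀ E₀
  obtain ⟨D, hamD, dP, dR⟩ := exists_ham hext hγ n₁ hD hq hβ hQ₁ c₁ φD
    (fun i => i = 0 ∨ i = 2 ∨ i = 6 ∨ i = 1 ∨ i = 4 ∨ i = 3) ![6, 3, 5, 1, 2, 0, 4, 0, 0, 0]
    (by decide) ψ E₀
  obtain ⟨E, hamE, eP, eR⟩ := exists_ham hext hγ n₁ hD hq hβ hQ₁ c₁ φE
    (fun i => i = 0 ∨ i = 3 ∨ i = 6 ∨ i = 7 ∨ i = 1 ∨ i = 2) ![6, 2, 1, 5, 0, 0, 4, 3, 0, 0]
    (by decide) ψ D
  have ne : ∀ t s (i j : Fin 10), i ≠ j → γ (t, i) ≠ γ (s, j) := fun t s i j hi h =>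
    hi (congrArg Prod.snd (hγ h))
  have split : ∀ (P : Fin 10 → Prop) (v : V),
      (∃ t i, P i ∧ v = γ (t, i)) ∨ ∀ t i, P i → v ≠ γ (t, i) := fun P v => by
    by_cases h : ∃ t i, P i ∧ v = γ (t, i)
    · exact Or.inl h
    · exact Or.inr fun t i hi hv => h ⟨t, i, hi, hv⟩
  have hD0 : ∀ v, R (v, D v) ∧ D v ≠ E₀ v ∧ (D v = D₀ v ∨ D v ≠ ψ v) := by
    intro v
    rcases split (fun i => i = 0 ∨ i = 2 ∨ i = 6 ∨ i = 1 ∨ i = 4 ∨ i = 3) v with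
      ⟨t, i, hi, rfl⟩ | h
    · rw [dP t i hi, e1, d1]
      refine ⟨aD t i hi, ne _ _ _ _ ?_, Or.inl rfl⟩
      revert i; decide
    · exact ⟨(dR v h).1, (dR v h).2.2, Or.inr (dR v h).2.1⟩
  have hE0 : ∀ v, R (v, E v) ∧ D v ≠ E v ∧ (E v = E₀ v ∨ E v ≠ ψ v) := by
    intro v
    rcases split (fun i => i = 0 ∨ i = 3 ∨ i = 6 ∨ i = 7 ∨ i = 1 ∨ i = 2) v with
      ⟨t, i, hi, rfl⟩ | h
    · have h1 := (hD0 (γ (t, i))).2.1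
      rw [e1] at h1
      rw [eP t i hi, e1]
      exact ⟨aE t i hi, h1, Or.inl rfl⟩
    · exact ⟨(eR v h).1, (eR v h).2.2.symm, Or.inr (eR v h).2.1⟩
  have hψ0 : ∀ v, v ∉ T → R (v, ψ v) ∧ ψ v ≠ D₀ v ∧ ψ v ≠ E₀ v := by
    intro v hv
    by_cases h0 : ∃ t, v = γ (t, 0)
    · obtain ⟨t, rfl⟩ := h0
      rw [sx, d1, e1]
      exact ⟨(aP t).1, ne _ _ _ _ (by decide), ne _ _ _ _ (by decide)⟩
    by_cases h1 : ∃ t, v = γ (t, 1)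
    · obtain ⟨t, rfl⟩ := h1
      rw [sy, d1, e1]
      exact ⟨(aP t).2, ne _ _ _ _ (by decide), ne _ _ _ _ (by decide)⟩
    exact sR v (fun t h => h0 ⟨t, h⟩) (fun t h => h1 ⟨t, h⟩)
      (fun t h => hv ((hT v).2 ⟨t, h.symm⟩))
  have hψ : ∀ v, v ∉ T → R (v, ψ v) ∧ ψ v ≠ D v ∧ ψ v ≠ E v := by
    intro v hv
    refine ⟨(hψ0 v hv).1, ?_, ?_⟩
    · rcases (hD0 v).2.2 with h | h
      · rw [h]; exact (hψ0 v hv).2.1
      · exact h.symm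
    · rcases (hE0 v).2.2 with h | h
      · rw [h]; exact (hψ0 v hv).2.2
      · exact h.symm
  refine ⟨ψ, D, E, fun x hx => ?_, hψ, fun x => ⟨(hD0 x).1, (hE0 x).1, (hE0 x).2.1⟩,
    fun N hN => ?_⟩
  · obtain ⟨t, rfl⟩ := (hT x).1 hx
    exact (hH _).2 ⟨t, (sz t).symm⟩
  have mix : ∀ v w, v ∈ T → w ∉ T → N v ≠ ψ w := by
    intro v w hv hw h
    obtain ⟨t, ht⟩ := (hH _).1 (hN v hv).1
    rw [h, ← sz] at ht
    exact hw ((hT w).2 ⟨t, ψ.injective ht⟩)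
  have hinj : Function.Injective fun v => if v ∈ T then N v else ψ v := by
    intro v w h
    by_cases hv : v ∈ T <;> by_cases hw : w ∈ T <;> simp only [hv, hw, if_true, if_false] at h
    · exact N.injective h
    · exact absurd h (mix v w hv hw)
    · exact absurd h.symm (mix w v hw hv)
    · exact ψ.injective h
  obtain ⟨F, hF1, hF2⟩ : ∃ F : Perm V, (∀ v, v ∈ T → F v = N v) ∧ ∀ v, v ∉ T → F v = ψ v :=
    ⟨Equiv.ofBijective _ (Finite.injective_iff_bijective.1 hinj), fun v hv => if_pos hv,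
      fun v hv => if_neg hv⟩
  have nT : ∀ t (i : Fin 10), i ≠ 8 → γ (t, i) ∉ T := fun t i hi h => by
    obtain ⟨s, hs⟩ := (hT _).1 h
    exact ne _ _ _ _ hi hs.symm
  have key := htog V ι (fun p => γ (p.1, Fin.castLE (by norm_num) p.2)) F D E
    (fun p p' h => by
      obtain ⟨h1, h2⟩ := Prod.ext_iff.1 (hγ h)
      exact Prod.ext h1 (Fin.castLE_injective (by norm_num : 8 ≤ 10) h2))
    (fun t => ⟨(hF2 _ (nT t 0 (by decide))).trans (sx t),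
      (hF2 _ (nT t 1 (by decide))).trans (sy t)⟩)
    (fun t => ⟨dP t 0 (by decide), dP t 2 (by decide), dP t 6 (by decide), dP t 1 (by decide),
      dP t 4 (by decide), dP t 3 (by decide)⟩)
    (fun t => ⟨eP t 0 (by decide), eP t 3 (by decide), eP t 6 (by decide), eP t 7 (by decide),
      eP t 1 (by decide), eP t 2 (by decide)⟩)
    hamD hamE
    (fun x => by
      by_cases hx : x ∈ T
      · rw [hF1 x hx]; exact ⟨(hN x hx).2.1, (hN x hx).2.2, (hE0 x).2.1⟩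
      · rw [hF2 x hx]; exact ⟨(hψ x hx).2.1, (hψ x hx).2.2, (hE0 x).2.1⟩)
    (sconn F (fun v hv => hF2 v fun h => by
        obtain ⟨t, ht⟩ := (hT v).1 h
        exact hv t ht.symm)
      (fun t => by
        have ht : γ (t, 8) ∈ T := (hT _).2 ⟨t, rfl⟩
        obtain ⟨s, hs⟩ := (hH _).1 (hN _ ht).1
        exact ⟨s, by rw [hF1 _ ht, hs]⟩))
  obtain ⟨K, k1, k2, k3⟩ := key
  refine ⟨K, k1, k2, fun j x => ?_⟩
  rcases k3 j x with h | h | h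
  · by_cases hx : x ∈ T
    · exact Or.inl ⟨hx, (hF1 x hx).symm.trans h⟩
    · exact Or.inr (Or.inl ⟨hx, (hF2 x hx).symm.trans h⟩)
  · exact Or.inr (Or.inr (Or.inl h))
  · exact Or.inr (Or.inr (Or.inr h))

/-- The fourteen arcs. -/
def Arcs (R : V × V → Prop) (a : Fin 8 → V) : Prop :=
  R (a 0, a 4) ∧ R (a 1, a 3) ∧ R (a 0, a 2) ∧ R (a 2, a 6) ∧ R (a 6, a 1) ∧ R (a 1, a 4) ∧
    R (a 4, a 3) ∧ R (a 3, a 5) ∧ R (a 0, a 3) ∧ R (a 3, a 6) ∧ R (a 6, a 7) ∧ R (a 7, a 1) ∧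
    R (a 1, a 2) ∧ R (a 2, a 5)

/-- Disjoint copies of the gadget. -/
theorem copies (hemb : S_EMB) {ι : Type} [Fintype ι] [DecidableEq ι] [Nonempty V]
    {R : V × V → Prop} {q β : ℕ} {Q₀ : Finset V} (hI : Irr R) (hD : Den R q β) (hq : 0 < q)
    (hβ : 0 < β) (hc : 8 * Fintype.card ι + 8 * β * q ^ 8 ≤ #Q₀) :
    ∃ v : ι → Fin 8 → V, (∀ t, Function.Injective (v t) ∧ (∀ k, v t k ∈ Q₀) ∧ Arcs R (v t)) ∧
      ∀ t s, t ≠ s → ∀ k l, v t k ≠ v s l := by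
  refine seq_choice (fun _ a => Function.Injective a ∧ (∀ k, a k ∈ Q₀) ∧ Arcs R a)
    (fun _ a _ b => ∀ k l, a k ≠ b l) (fun i a j b h k l => (h l k).symm) fun i S g _ _ => ?_
  set U : Finset V := S.biUnion fun j => univ.image (g j) with hU
  have h1 : #U ≤ 8 * Fintype.card ι := by
    refine (card_biUnion_le_card_mul S _ 8 fun j _ => ?_).trans ?_
    · exact card_image_le.trans (by simp)
    · rw [mul_comm]; exact Nat.mul_le_mul_left _ (card_le_univ S)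
  have h2 := le_card_sdiff U Q₀
  obtain ⟨a, a1, a2, a3⟩ := hemb V R q β 8
    (fun i j => ¬ ((i = 1 ∧ j = 6) ∨ (i = 3 ∧ j = 4) ∨ (i = 1 ∧ j = 7))) (Q₀ \ U) hI hD hq hβ
    (by omega)
  refine ⟨a, ⟨a1, fun k => (mem_sdiff.1 (a2 k)).1, ?_⟩, fun j hj k l h =>
    (mem_sdiff.1 (a2 k)).2 (mem_biUnion.2 ⟨j, hj, mem_image.2 ⟨l, mem_univ _, h.symm⟩⟩)⟩
  exact ⟨(a3 0 4 (by decide)).1 (by decide), (a3 1 3 (by decide)).1 (by decide),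
    (a3 0 2 (by decide)).1 (by decide), (a3 2 6 (by decide)).1 (by decide),
    (a3 1 6 (by decide)).2 (by decide), (a3 1 4 (by decide)).1 (by decide),
    (a3 3 4 (by decide)).2 (by decide), (a3 3 5 (by decide)).1 (by decide),
    (a3 0 3 (by decide)).1 (by decide), (a3 3 6 (by decide)).1 (by decide),
    (a3 6 7 (by decide)).1 (by decide), (a3 1 7 (by decide)).2 (by decide),
    (a3 1 2 (by decide)).1 (by decide), (a3 2 5 (by decide)).1 (by decide)⟩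

end TriAux

open TriAux in
theorem tri (hext : S_EXT) (hemb : S_EMB) (htog : S_TOG) : S_TRI := by
  intro V _ _ T H Q₀ Q₁ Q₂ Q₃ R q β hne hcard dTH dQ d0 d1 d2 hI hD hq hβ hQ₁ hQ₂ hQ₃ c₁ c₂ c₃ c₀
  classical
  obtain ⟨t₀, ht₀⟩ := hne
  have : Nonempty V := ⟨t₀⟩
  have : Nonempty T := ⟨⟨t₀, ht₀⟩⟩
  obtain ⟨v, hv1, hv2⟩ := copies hemb (ι := T) (Q₀ := Q₀) hI hD hq (by omega) (by simpa using c₀)
  let η : T ≃ H := Finset.equivOfCardEq hcard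
  let γ : T × Fin 10 → V := fun p =>
    if h : p.2.val < 8 then v p.1 ⟨p.2.val, h⟩ else if p.2 = 8 then p.1.1 else (η p.1).1
  have tri3 : ∀ i : Fin 10, (∃ k : Fin 8, i = Fin.castLE (by norm_num) k) ∨ i = 8 ∨ i = 9 := by
    decide
  have g0 : ∀ t (k : Fin 8), γ (t, Fin.castLE (by norm_num) k) = v t k := fun t k => by
    simp only [γ, Fin.val_castLE, k.isLt, dif_pos]
  have g8 : ∀ t, γ (t, 8) = t.1 := fun t => rfl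
  have g9 : ∀ t, γ (t, 9) = (η t).1 := fun t => rfl
  have mQ : ∀ t k, v t k ∈ Q₀ := fun t => (hv1 t).2.1
  have tQ : ∀ x, x ∈ T ∨ x ∈ H → x ∉ Q₀ ∧ x ∉ Q₁ ∧ x ∉ Q₂ ∧ x ∉ Q₃ := fun x hx => by
    have := disjoint_left.1 dQ (mem_union.2 hx)
    simpa only [mem_union, not_or, and_assoc] using this
  have qQ : ∀ x ∈ Q₀, x ∉ Q₁ ∧ x ∉ Q₂ ∧ x ∉ Q₃ := fun x hx => by
    have := disjoint_left.1 d0 hx
    simpa only [mem_union, not_or, and_assoc] using this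
  have hγ : Function.Injective γ := by
    rintro ⟨t, i⟩ ⟨s, j⟩ h
    rcases tri3 i with ⟨k, rfl⟩ | rfl | rfl <;> rcases tri3 j with ⟨l, rfl⟩ | rfl | rfl
    · rw [g0, g0] at h
      obtain rfl : t = s := by_contra fun hts => hv2 t s hts k l h
      rw [(hv1 t).1 h]
    · rw [g0, g8] at h
      exact absurd (h ▸ mQ t k) (tQ _ (Or.inl s.2)).1
    · rw [g0, g9] at h
      exact absurd (h ▸ mQ t k) (tQ _ (Or.inr (η s).2)).1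
    · rw [g0, g8] at h
      exact absurd (h ▸ mQ s l) (tQ _ (Or.inl t.2)).1
    · rw [g8, g8] at h
      rw [Subtype.ext h]
    · rw [g8, g9] at h
      exact absurd (h ▸ (η s).2) (disjoint_left.1 dTH t.2)
    · rw [g0, g9] at h
      exact absurd (h ▸ mQ s l) (tQ _ (Or.inr (η t).2)).1
    · rw [g8, g9] at h
      exact absurd (h ▸ (η t).2) (disjoint_left.1 dTH s.2)
    · rw [g9, g9] at h
      rw [η.injective (Subtype.ext h)]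
  have nQ : ∀ p, γ p ∉ Q₁ ∧ γ p ∉ Q₂ ∧ γ p ∉ Q₃ := by
    rintro ⟨t, i⟩
    rcases tri3 i with ⟨k, rfl⟩ | rfl | rfl
    · rw [g0]; exact qQ _ (mQ t k)
    · exact (tQ _ (Or.inl t.2)).2
    · exact (tQ _ (Or.inr (η t).2)).2
  refine core hext htog hγ (fun x => ⟨fun hx => ⟨⟨x, hx⟩, rfl⟩, fun ⟨t, ht⟩ => ht ▸ t.2⟩)
    (fun x => ⟨fun hx => ⟨η.symm ⟨x, hx⟩, by rw [g9]; simp⟩, fun ⟨t, ht⟩ => ht ▸ (η t).2⟩)
    (fun p => (nQ p).1) (fun p => (nQ p).2.1) (fun p => (nQ p).2.2)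
    (fun x hx h => disjoint_left.1 d1 h (mem_union_left _ hx))
    (fun x hx h => disjoint_left.1 d1 h (mem_union_right _ hx))
    (fun x hx h => disjoint_left.1 d2 h hx) hD hq hβ hQ₁ hQ₂ hQ₃ c₁ c₂ c₃
    (fun t => ⟨(hv1 t).2.2.1, (hv1 t).2.2.2.1⟩) (fun t i hi => ?_) (fun t i hi => ?_)
  · obtain ⟨-, -, a1, a2, a3, a4, a5, a6, -⟩ := (hv1 t).2.2
    rcases hi with rfl | rfl | rfl | rfl | rfl | rfl
    exacts [a1, a2, a3, a4, a5, a6]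
  · obtain ⟨-, -, -, -, -, -, -, -, a1, a2, a3, a4, a5, a6⟩ := (hv1 t).2.2
    rcases hi with rfl | rfl | rfl | rfl | rfl | rfl
    exacts [a1, a2, a3, a4, a5, a6]

end Pool.Agent.P.MP_de899d_pr
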