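import Pool.Agent.P.MP_de899d_pr.Sparse
import Pool.Agent.P.MP_de899d_pr.Num6
import Pool.Agent.P.MP_de899d_pr.Num7
import Pool.Agent.P.MP_de899d_pr.Ext
import Pool.Agent.P.MP_de899d_pr.FF
import Pool.Agent.P.MP_de899d_pr.Hyp
import Pool.Agent.P.MP_de899d_pr.Apx
import Pool.Agent.P.MP_de899d_pr.Piece
import Pool.Agent.P.MP_de899d_pr.Cover
import Pool.Agent.P.MP_de899d_pr.Tog
import Pool.Agent.P.MP_de899d_pr.Tri
import Pool.Agent.P.MP_de899d_pr.RD
import Pool.Agent.P.MP_de899d_pr.Dense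
import Pool.Agent.P.MP_de899d_pr.St3
import Pool.Agent.P.MP_de899d_pr.Binom2
import Pool.Agent.P.MP_de899d_pr.Deg
import Pool.Agent.P.MP_de899d_pr.Patt
import Pool.Agent.P.MP_de899d_pr.Anch
import Pool.Agent.P.MP_de899d_pr.Fact2
import Pool.Agent.P.MP_de899d_pr.Proc2

/-! The whole random digraph process. -/

set_option linter.unusedSectionVars false
set_option linter.unusedVariables false

namespace Pool.Agent.P.MP_de899d_pr
open Finset Equiv

theorem order_all {n : ℕ} (M : ℕ) [NeZero M] :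
    Pr (fun o : EdgeOrder n => ∃ m, ¬ Packs (process o m) (minDeg (process o m))) ≤
      Pr (fun U : Arc n → Fin M => ∃ t ≤ M, ¬ Packs (below U t) (minDeg (below U t))) +
        ((n * (n - 1) : ℕ) : ℝ) ^ 2 / M := by
  classical
  refine trans (Arc n) _ M _ _ (card_arc n) ?_
  rintro o U hU ⟨m, h⟩
  by_cases h1 : m < n * (n - 1)
  · let e0 := o.symm ⟨m, h1⟩
    have h0 : (o e0 : ℕ) = m := by simp [e0]
    have h4 : ∀ e', (o e' : ℕ) < m ↔ (U e' : ℕ) < U e0 := fun e' => by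
      refine ⟨fun h => hU _ _ (by rw [Fin.lt_def]; omega), fun h => ?_⟩
      by_contra h5
      rcases (not_lt.mp h5).eq_or_lt with h6 | h6
      · rw [o.injective (Fin.ext (h6.symm.trans h0.symm))] at h
        omega
      · have := hU e0 e' (by rw [Fin.lt_def]; omega)
        rw [Fin.lt_def] at this
        omega
    have h6 : below U (U e0) = process o m := by simp only [below, process, h4]
    exact ⟨U e0, (U e0).2.le, by rwa [h6]⟩
  · have h4 : ∀ e', (o e' : ℕ) < m ↔ (U e' : ℕ) < M := fun e' =>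
      iff_of_true ((o e').2.trans_le (not_lt.mp h1)) (U e').2
    have h6 : below U M = process o m := by simp only [below, process, h4]
    exact ⟨M, le_rfl, by rwa [h6]⟩

theorem three_bound {n : ℕ} (hn : 2 ≤ n) (M T T' : ℕ) [NeZero M] :
    Pr (fun U : Arc n → Fin M => ∃ t ≤ M, ¬ Packs (below U t) (minDeg (below U t))) ≤
      Pr (fun U : Fin n × Fin n → Fin M => BadAll T U) +
      (Pr (fun U : Fin n × Fin n → Fin M => ∃ k, BadT T T' k U) +
        Pr (fun U : Fin n × Fin n → Fin M => ∃ k, BadT T' M k U)) := by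
  rw [← Pr_comp (fun a : Arc n => a.1) Subtype.val_injective]
  refine (Pr_le_add ?_).trans (add_le_add le_rfl (Pr_or_le _ _))
  rintro U ⟨t, ht, h⟩
  have h1 := minDeg_le (below (fun a => U a.1) t) (fun e => (U e : ℕ) < t)
    fun e he => ((mem_below U t e).mp he).2
  have h2 := minDeg_le (below (fun a => U a.1) t) (fun e => (U e : ℕ) < t ∧ e.1 ≠ e.2)
    fun e he => ((mem_below U t e).mp he).symm
  have h3 : ¬ Tgt (minDeg (below (fun a => U a.1) t)) fun e => (U e : ℕ) < t := by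
    rintro ⟨H, h2, h3, h4⟩
    refine h ⟨H, fun j => ?_, h3⟩
    obtain ⟨a, b, c⟩ := ham_cycle hn (h2 j)
    exact ⟨b, c, fun v => (mem_below U t _).mpr ⟨(a v).symm, h4 j v⟩⟩
  rcases le_total t T with h4 | h4
  · refine Or.inl ⟨_, Nat.pos_of_ne_zero fun h0 => h ?_, t, Nat.zero_le _, h4,
      fun v => (h1 v).1, fun v => (h1 v).2, h3⟩
    rw [h0]
    exact ⟨Fin.elim0, fun j => j.elim0, fun j => j.elim0⟩
  · rcases le_total t T' with h5 | h5
    · exact Or.inr (Or.inl ⟨_, t, h4, h5, fun v => (h2 v).1, fun v => (h2 v).2, h3⟩)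
    · exact Or.inr (Or.inr ⟨_, t, h5, ht, fun v => (h2 v).1, fun v => (h2 v).2, h3⟩)

theorem root_floor {c : ℝ} {j : ℕ} (hc : 2 * j + 2 ≤ c) : c ^ j ≤ 2 * (⌊c⌋₊ : ℝ) ^ j := by
  have h0 : (0 : ℝ) ≤ j := Nat.cast_nonneg _
  have h1 := Nat.lt_floor_add_one c
  have h2 : (0 : ℝ) < ⌊c⌋₊ := by linarith
  have h3 : c ≤ ⌊c⌋₊ * Real.exp (1 / ⌊c⌋₊) := by
    refine le_trans ?_ (mul_le_mul_of_nonneg_left (Real.add_one_le_exp _) h2.le)
    rw [mul_add, mul_one_div_cancel h2.ne']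
    linarith
  refine (pow_le_pow_left₀ (by linarith) h3 j).trans ?_
  rw [mul_pow, mul_comm, ← Real.exp_nat_mul]
  gcongr
  rw [← Real.le_log_iff_exp_le (by norm_num), mul_one_div, div_le_iff₀ h2]
  nlinarith [Real.log_two_gt_d9]

theorem whole_bound (n : ℕ) (hl : 2 * Real.exp (10 ^ 20) + 10 ^ 50 ≤ Real.log n) :
    Pr (fun o : EdgeOrder n => ∃ m, ¬ Packs (process o m) (minDeg (process o m))) ≤
      40 / Real.log n := by
  have e0 := Real.exp_pos (10 ^ 20)
  set l := Real.log n with hl'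
  have l0 : 10 ^ 50 ≤ l := by linarith
  have n0 : (0 : ℝ) < n := by
    rcases n.eq_zero_or_pos with rfl | h
    · simp at hl'; linarith
    · exact_mod_cast h
  set c := Real.exp (l / 10000) with hc
  have e1 : Real.exp l = c ^ 10000 := by rw [hc, ← Real.exp_nat_mul]; congr 1; push_cast; ring
  have e2 : (n : ℝ) = c ^ 10000 := by rw [← e1, hl', Real.exp_log n0]
  have e3 : 10 * l ≤ c := by
    refine le_trans ?_ (Real.quadratic_le_exp_of_nonneg (by linarith))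
    nlinarith
  have c1 : 1 ≤ c := by linarith
  have pw : ∀ {i j : ℕ}, i ≤ j → c ^ i ≤ c ^ j := fun h => pow_le_pow_right₀ c1 h
  have c2 : ∀ {j : ℕ}, 1 ≤ j → c ≤ c ^ j := fun h => by simpa using pw h
  have n2 : 2 ≤ n := by exact_mod_cast (by linarith [c2 (by norm_num : 1 ≤ 10000)] : (2 : ℝ) ≤ n)
  have a1 : 0.9 * l ≤ ⌈0.9 * l⌉₊ := Nat.le_ceil _
  have a2 := Nat.ceil_lt_add_one (a := 0.9 * l) (by linarith)
  have x2 : (c ^ 100) ^ 2 = c ^ 200 := by ring
  have x3 : (c ^ 100) ^ 100 = c ^ 10000 := by ring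
  have x4 : (c ^ 40) ^ 250 = c ^ 10000 := by ring
  have b1 : (⌊c ^ 200⌋₊ : ℝ) ≤ c ^ 200 := Nat.floor_le (by positivity)
  have b2 := Nat.lt_floor_add_one (c ^ 200)
  have b3 := c2 (by norm_num : 1 ≤ 200)
  have : NeZero (n * n ^ 4) := ⟨by positivity⟩
  have ab := all_bound (V := Fin n) (x := c ^ 100) (l := l) (d0 := ⌈0.9 * l⌉₊) (d1 := ⌊c ^ 200⌋₊)
    (by exact_mod_cast (by linarith : (⌈0.9 * l⌉₊ : ℝ) < ⌊c ^ 200⌋₊)) (by linarith) (b1.trans x2.ge)
    (fun d h1 h2 => by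
      have h3 : (⌈0.9 * l⌉₊ : ℝ) ≤ d := by exact_mod_cast h1
      have h4 : (d : ℝ) ≤ ⌊c ^ 200⌋₊ := by exact_mod_cast h2.le
      have h5 : 0.9 * l ≤ Real.sqrt (d * l) := Real.le_sqrt_of_sq_le (by nlinarith)
      have h6 := Nat.floor_le (a := Real.sqrt (d * l) / 10 ^ 6) (by positivity)
      have h7 := Nat.lt_floor_add_one (Real.sqrt (d * l) / 10 ^ 6)
      have h8 := c2 (by norm_num : 1 ≤ 100)
      exact ⟨Real.sqrt (d * l), ⌊Real.sqrt (d * l) / 10 ^ 6⌋₊,
        by rw [Fintype.card_fin, x3]; exact e2, by linarith, e1.trans x3.symm,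
        by linarith, l0, by linarith, (Real.le_log_iff_exp_le (by linarith)).mpr (by linarith),
        by linarith, Real.sqrt_nonneg _, Real.sq_sqrt (by nlinarith), by linarith, by linarith⟩)
    (n ^ 4) (n * n ^ 4) (by positivity) (by simp)
  have X1 : (⌊c⌋₊ : ℝ) ≤ c := Nat.floor_le (by positivity)
  have X2 := Nat.lt_floor_add_one c
  have Y1 : (⌊c ^ 40⌋₊ : ℝ) ≤ c ^ 40 := Nat.floor_le (by positivity)
  have Y2 := Nat.lt_floor_add_one (c ^ 40)
  have Y3 := c2 (by norm_num : 1 ≤ 40)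
  have X3 : (n : ℝ) ≤ 2 * (⌊c⌋₊ : ℝ) ^ 10000 :=
    e2.trans_le (root_floor (by push_cast; linarith))
  have Y4 : (n : ℝ) ≤ 2 * (⌊c ^ 40⌋₊ : ℝ) ^ 250 := by
    rw [e2, ← x4]
    exact root_floor (by push_cast; linarith)
  have X4 : ∀ j, (⌊c⌋₊ : ℝ) ^ j ≤ c ^ j := fun j => pow_le_pow_left₀ (Nat.cast_nonneg _) X1 j
  have XY : ⌊c⌋₊ ^ 39 ≤ ⌊c ^ 40⌋₊ :=
    Nat.le_floor (by push_cast; exact (X4 39).trans (pw (by norm_num)))
  have Xd : ⌊c⌋₊ ^ 199 ≤ ⌊c ^ 200⌋₊ :=
    Nat.le_floor (by push_cast; exact (X4 199).trans (pw (by norm_num)))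
  set X := ⌊c⌋₊
  set Y := ⌊c ^ 40⌋₊
  have y0 : 0 < Y := by exact_mod_cast (by linarith : (0 : ℝ) < Y)
  have u1 : 10 ^ 25 ≤ Real.sqrt l := Real.le_sqrt_of_sq_le (by linarith)
  have u2 : Real.sqrt l ^ 2 = l := Real.sq_sqrt (by linarith)
  have mb := mid_bound (V := Fin n) binom2 fact2 (init2 nc) anch layer (proc2 patt) (X := X)
    (d1 := ⌊c ^ 200⌋₊) (d2 := n / Y + 1) (u := Real.sqrt l)
    (by exact_mod_cast (by linarith : (0 : ℝ) < ⌊c ^ 200⌋₊)) (Nat.lt_succ_of_le (by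
      rw [Nat.le_div_iff_mul_le y0]
      have : (⌊c ^ 200⌋₊ : ℝ) * Y ≤ n := by
        calc _ ≤ c ^ 200 * c ^ 40 := by gcongr
          _ ≤ _ := by rw [← pow_add, e2]; exact pw (by norm_num)
      exact_mod_cast this)) (fun d h1 h2 => by
      have h3 : (⌊c ^ 200⌋₊ : ℝ) ≤ d := by exact_mod_cast h1
      have h4 : 1 ≤ Real.sqrt d := Real.le_sqrt_of_sq_le (by linarith)
      have h5 := Nat.ceil_lt_add_one (a := 5000 * Real.sqrt d) (by linarith)
      refine ⟨Real.sqrt d, ⌈5000 * Real.sqrt d⌉₊, ?_, ?_, by linarith, ?_, ?_, Xd.trans h1, ?_,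
        Real.sqrt_nonneg _, Real.sq_sqrt (by linarith), Nat.le_ceil _, by linarith⟩
      · rw [Fintype.card_fin]
        exact_mod_cast (X4 10000).trans e2.ge
      · rw [Fintype.card_fin]
        exact_mod_cast X3
      · rw [Fintype.card_fin, u2, e1, e2]
      · have h6 : Real.exp (10 ^ 11 * Real.sqrt l) * Real.exp 1 ≤ c := by
          rw [← Real.exp_add]
          exact Real.exp_le_exp.mpr (by nlinarith)
        nlinarith [Real.add_one_le_exp 1, Real.add_one_le_exp (10 ^ 11 * Real.sqrt l)]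
      · rw [Fintype.card_fin]
        exact (Nat.mul_le_mul (Nat.le_of_lt_succ h2) XY).trans (Nat.div_mul_le_self _ _))
    (n ^ 4) (n * n ^ 4) (by positivity) (by simp)
  have db := dense_bound (V := Fin n) clu st3 deg (dense ff (apx ext reg hyp)
    (rd (absb (tri ext emb tog)) reg piece (cover ext))) (Y := Y) (d := n / Y + 1)
    (by exact_mod_cast (by linarith : (10 : ℝ) ^ 20 ≤ Y)) (by
      rw [Fintype.card_fin]
      exact_mod_cast (pow_le_pow_left₀ (Nat.cast_nonneg _) Y1 250).trans (x4.trans e2.symm).le)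
    (by rw [Fintype.card_fin]; exact_mod_cast Y4)
    (by rw [Fintype.card_fin, mul_comm]; exact (Nat.lt_mul_div_succ n y0).le)
    (n ^ 4) (n * n ^ 4) (by positivity) (by simp)
  have g1 : ((n * (n - 1) : ℕ) : ℝ) ^ 2 / ((n * n ^ 4 : ℕ) : ℝ) ≤ 1 / l := by
    rw [Nat.cast_mul, Nat.cast_sub (by omega), Nat.cast_one]
    push_cast
    have h1 : (0 : ℝ) ≤ n - 1 := by
      have : (2 : ℝ) ≤ n := by exact_mod_cast n2
      linarith
    calc _ ≤ (n * n : ℝ) ^ 2 / (n * n ^ 4) := by gcongr; linarith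
      _ = 1 / n := by field_simp
      _ ≤ _ := one_div_le_one_div_of_le (by linarith)
        (by linarith [c2 (by norm_num : 1 ≤ 10000)])
  have g2 : 14 / (c ^ 100) ^ 3 ≤ 14 / l := by
    rw [← pow_mul]
    gcongr
    linarith [c2 (by norm_num : 1 ≤ 100 * 3)]
  have g3 : 12 / (⌈0.9 * l⌉₊ : ℝ) ≤ 14 / l := by
    rw [div_le_div_iff₀ (by linarith) (by linarith)]; linarith
  have g4 : 3 / (X : ℝ) ^ 33 ≤ 3 / l := by
    gcongr
    exact le_trans (by linarith) (le_self_pow₀ (by linarith) (by norm_num))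
  have g5 : 1 / (Y : ℝ) ≤ 1 / l := one_div_le_one_div_of_le (by linarith) (by linarith)
  have g6 : (((n * n ^ 4 : ℕ) : ℝ) + 1) * Real.exp (-Y) ≤ 2 / l := by
    have h1 : ((n * n ^ 4 : ℕ) : ℝ) = Real.exp (5 * l) := by
      rw [show 5 * l = (5 : ℕ) * l by norm_num, Real.exp_nat_mul, e1, ← e2]
      push_cast
      ring
    rw [h1, Real.exp_neg, ← div_eq_mul_inv, div_le_div_iff₀ (Real.exp_pos _) (by linarith)]
    have h2 : Real.exp (5 * l) * Real.exp l ≤ Real.exp Y := by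
      rw [← Real.exp_add]
      exact Real.exp_le_exp.mpr (by linarith)
    have h3 := Real.add_one_le_exp (5 * l)
    have h4 := mul_le_mul_of_nonneg_left (Real.add_one_le_exp l) (Real.exp_pos (5 * l)).le
    nlinarith
  have g7 : (40 : ℝ) / l = 14 / l + 14 / l + (3 / l + (1 / l + 2 / l)) + 1 / l + 5 / l := by ring
  have g8 : 0 ≤ 5 / l := by positivity
  linarith [order_all (n := n) (n * n ^ 4),
    three_bound n2 (n * n ^ 4) (⌊c ^ 200⌋₊ * n ^ 4) ((n / Y + 1) * n ^ 4)]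

end Pool.Agent.P.MP_de899d_pr
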